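import Mathlib

/-!
# Besov and Hardy–Bessel capacities: all definitions

`E` is a Euclidean space (used with `E = ℝⁿ`), `𝓢(E, ℂ)` the Schwartz space and `𝓢'(E, ℂ)` the space of
tempered distributions.
-/

open MeasureTheory FourierTransform
open scoped ENNReal SchwartzMap ContDiff

namespace Pool.Agent.BhCap

section Symbols

variable {E : Type*} [NormedAddCommGroup E] [InnerProductSpace ℝ E]

/-- An admissible cutoff for the Littlewood–Paley decomposition: smooth, equal to `1` on the unit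
ball and to `0` outside the ball of radius `2`. -/
structure IsCutoff (η : E → ℝ) : Prop where
  smooth : ContDiff ℝ ∞ η
  one : ∀ ξ, ‖ξ‖ ≤ 1 → η ξ = 1
  zero : ∀ ξ, 2 ≤ ‖ξ‖ → η ξ = 0

/-- the Littlewood–Paley symbols `φ_0 = η`, `φ_j = η(2^{-j}·) - η(2^{-(j-1)}·)` -/
noncomputable def lpSym (η : E → ℝ) (j : ℕ) (ξ : E) : ℝ :=
  if j = 0 then η ξ else η (((2:ℝ) ^ j)⁻¹ • ξ) - η (((2:ℝ) ^ (j - 1))⁻¹ • ξ)

/-- the Schwartz function with the given values (unspecified if there is none) -/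
noncomputable def sch (g : E → ℂ) : 𝓢(E, ℂ) := Classical.epsilon fun φ : 𝓢(E, ℂ) => (φ : E → ℂ) = g

/-- the convolution `T * g` of a tempered distribution `T` with a Schwartz function `g`: the function
`(T * g)(x) = ⟨T, g(x - ·)⟩` -/
noncomputable def tconv (T : 𝓢'(E, ℂ)) (g : E → ℂ) (x : E) : ℂ := T (sch fun y => g (x - y))

/-- the Gauss–Weierstrass kernel `(4πt)^{-n/2} exp(-|x|²/4t)`, `n = dim E` -/
noncomputable def heatK (t : ℝ) (x : E) : ℝ :=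
  (4 * Real.pi * t) ^ (-(Module.finrank ℝ E : ℝ) / 2) * Real.exp (-(‖x‖ ^ 2) / (4 * t))

/-- the nontangential maximal function `sup {|(f * heatK t)(y)| : t > 0, |y - x| < √t}` of the heat
extension of `f` -/
noncomputable def ntMax (f : 𝓢'(E, ℂ)) (x : E) : ℝ≥0∞ :=
  ⨆ (t : ℝ) (_ : 0 < t) (y : E) (_ : ‖y - x‖ < Real.sqrt t), ‖tconv f (fun z => (heatK t z : ℂ)) y‖ₑ

end Symbols

variable {E : Type*} [NormedAddCommGroup E] [InnerProductSpace ℝ E] [FiniteDimensional ℝ E]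
  [MeasurableSpace E] [BorelSpace E]

/-- the Littlewood–Paley block `Δ_j T = 𝓕⁻¹(φ_j 𝓕T) = T * 𝓕⁻¹φ_j` -/
noncomputable def lpBlock (η : E → ℝ) (j : ℕ) (T : 𝓢'(E, ℂ)) : E → ℂ :=
  tconv T (𝓕⁻ fun ξ => (lpSym η j ξ : ℂ))

/-- the `p`-th power of the quasi-norm of `T` in the Besov space `Λ^{pp}_α = B^α_{pp}`:
`∑_j 2^{jαp} ∫ |Δ_j T|^p` -/
noncomputable def besovPow (η : E → ℝ) (α p : ℝ) (T : 𝓢'(E, ℂ)) : ℝ≥0∞ :=
  ∑' j : ℕ, ENNReal.ofReal ((2:ℝ) ^ (j * α * p)) * ∫⁻ x, ‖lpBlock η j T x‖ₑ ^ p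

/-- the `p`-th power of the quasi-norm of `f` in the real Hardy space `H^p` -/
noncomputable def hardyPow (p : ℝ) (f : 𝓢'(E, ℂ)) : ℝ≥0∞ := ∫⁻ x, ntMax f x ^ p

/-- the Bessel potential `G_α * φ` of a Schwartz function, i.e. the Fourier multiplier with symbol
`(1 + 4π²|ξ|²)^{-α/2}` -/
noncomputable def bessel (α : ℝ) (φ : E → ℂ) : E → ℂ :=
  𝓕⁻ fun ξ => (((1 + (2 * Real.pi * ‖ξ‖) ^ 2) ^ (-(α / 2)) : ℝ) : ℂ) * 𝓕 φ ξ

/-- the tempered distribution `T` is given by the (continuous) function `u`: `⟨T, φ⟩ = ∫ u φ` for all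
test functions `φ` -/
def IsRep (T : 𝓢'(E, ℂ)) (u : E → ℝ) : Prop :=
  ∀ φ : 𝓢(E, ℂ), HasCompactSupport φ → T φ = ∫ x, (u x : ℂ) * φ x

/-- the tempered distribution `G_α * f` is given by the (continuous) function `u`:
`⟨f, G_α * φ⟩ = ∫ u φ` for all test functions `φ` -/
def IsPot (α : ℝ) (f : 𝓢'(E, ℂ)) (u : E → ℝ) : Prop :=
  ∀ φ : 𝓢(E, ℂ), HasCompactSupport φ → f (sch (bessel α φ)) = ∫ x, (u x : ℂ) * φ x

/-- the Besov capacity `A_{α,p,p}(K)` of the class `D`: the infimum of `|u|^p_{α,p,p}` over all `u ∈ D`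
(in the space) with `u ≥ 1` on `K` -/
noncomputable def capA (D : Set (E → ℝ)) (η : E → ℝ) (α p : ℝ) (K : Set E) : ℝ≥0∞ :=
  ⨅ (u : E → ℝ) (_ : u ∈ D) (_ : ∀ x ∈ K, 1 ≤ u x) (T : 𝓢'(E, ℂ)) (_ : IsRep T u), besovPow η α p T

/-- the capacity `B_{α,p}(K)` of the class `D`: the infimum of `‖f‖^p_{H^p}` over all `f` such that
`G_α * f` is a function `u ∈ D` with `u ≥ 1` on `K` -/
noncomputable def capB (D : Set (E → ℝ)) (α p : ℝ) (K : Set E) : ℝ≥0∞ :=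
  ⨅ (u : E → ℝ) (_ : u ∈ D) (_ : ∀ x ∈ K, 1 ≤ u x) (f : 𝓢'(E, ℂ)) (_ : IsPot α f u), hardyPow p f

end Pool.Agent.BhCap
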