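import Mathlib

/-!
# Dyadic cubes and truncated dyadic Hausdorff content

Helper file for the hand-in on `MP_9b3711_an`.
-/

open MeasureTheory Set
open scoped ENNReal NNReal

namespace Pool.Agent.Bhc

/-- The Euclidean space `ℝⁿ`. -/
abbrev Sp (n : ℕ) := EuclideanSpace ℝ (Fin n)

variable {n : ℕ}

/-- index of the half-open dyadic cube of side `2^{-j}` that contains `x` -/
noncomputable def cell (j : ℕ) (x : Sp n) : Fin n → ℤ := fun i => ⌊(2:ℝ) ^ j * x i⌋

/-- indices of the `2^n` dyadic children -/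
def child (k : Fin n → ℤ) (e : Fin n → Fin 2) : Fin n → ℤ := fun i => 2 * k i + ((e i : ℕ) : ℤ)

/-- half-open dyadic cube of side `2^{-j}` with index `k` -/
def cube (j : ℕ) (k : Fin n → ℤ) : Set (Sp n) := {x | cell j x = k}

/-- `2^{-js}` -/
noncomputable def sd (s : ℝ) (j : ℕ) : ℝ := (2:ℝ) ^ (-(j:ℝ) * s)

open Classical in
/-- truncated dyadic content of `K` in the cube `(j,k)`: coverings by dyadic subcubes whose levels
lie between `j` and `j+i` -/
noncomputable def cont (K : Set (Sp n)) (s : ℝ) : ℕ → ℕ → (Fin n → ℤ) → ℝ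
  | 0, j, k => if (K ∩ cube j k).Nonempty then sd s j else 0
  | i + 1, j, k => min (sd s j) (∑ e : Fin n → Fin 2, cont K s i (j + 1) (child k e))

/-- `K` has zero `s`-dimensional dyadic content (for `s ≤ 0`: `K` is empty) -/
def DyNull (K : Set (Sp n)) (s : ℝ) : Prop := ∀ k : Fin n → ℤ, ∀ ε > 0, ∃ i, cont K s i 0 k < ε

lemma mem_cube {j : ℕ} {k : Fin n → ℤ} {x : Sp n} : x ∈ cube j k ↔ cell j x = k := Iff.rfl

lemma mem_cube' {j : ℕ} {k : Fin n → ℤ} {x : Sp n} :
    x ∈ cube j k ↔ ∀ i, (k i : ℝ) ≤ (2:ℝ) ^ j * x i ∧ (2:ℝ) ^ j * x i < k i + 1 := by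
  rw [mem_cube]
  constructor
  · intro h i
    have : ⌊(2:ℝ) ^ j * x i⌋ = k i := congrFun h i
    rwa [Int.floor_eq_iff] at this
  · intro h
    funext i
    exact Int.floor_eq_iff.2 (h i)

lemma self_mem_cube (j : ℕ) (x : Sp n) : x ∈ cube j (cell j x) := rfl

lemma sd_pos (s : ℝ) (j : ℕ) : 0 < sd s j := Real.rpow_pos_of_pos (by norm_num) _

lemma sd_zero (s : ℝ) : sd s 0 = 1 := by simp [sd]

lemma sd_succ (s : ℝ) (j : ℕ) : sd s (j + 1) = (2:ℝ) ^ (-s) * sd s j := by
  unfold sd
  rw [← Real.rpow_add (by norm_num)]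
  congr 1
  push_cast
  ring

lemma sd_add (s t : ℝ) (j : ℕ) : sd (s + t) j = sd s j * sd t j := by
  unfold sd
  rw [← Real.rpow_add (by norm_num)]
  congr 1
  ring

lemma sd_add_nat (s : ℝ) (i j : ℕ) : sd s (i + j) = sd s i * sd s j := by
  unfold sd
  rw [← Real.rpow_add (by norm_num)]
  congr 1
  push_cast
  ring

lemma sd_mul (s : ℝ) (c : ℝ) (j : ℕ) : sd (s * c) j = (sd s j) ^ c := by
  unfold sd
  rw [← Real.rpow_mul (by norm_num)]
  congr 1
  ring

lemma sd_le_one {s : ℝ} (hs : 0 ≤ s) (j : ℕ) : sd s j ≤ 1 := by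
  unfold sd
  apply Real.rpow_le_one_of_one_le_of_nonpos (by norm_num)
  have : (0:ℝ) ≤ (j:ℝ) * s := by positivity
  linarith

lemma one_le_sd {s : ℝ} (hs : s ≤ 0) (j : ℕ) : 1 ≤ sd s j := by
  unfold sd
  apply Real.one_le_rpow (by norm_num)
  have : (0:ℝ) ≤ (j:ℝ) := by positivity
  nlinarith

lemma cell_child {j : ℕ} {k : Fin n → ℤ} {e : Fin n → Fin 2} {x : Sp n}
    (h : x ∈ cube (j + 1) (child k e)) : x ∈ cube j k := by
  rw [mem_cube'] at h ⊢
  intro i
  have h1 := (h i).1
  have h2 := (h i).2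
  simp only [child, pow_succ] at h1 h2
  push_cast at h1 h2
  have he : (0:ℝ) ≤ ((e i : ℕ) : ℝ) := by positivity
  have he' : ((e i : ℕ) : ℝ) ≤ 1 := by
    have : (e i : ℕ) ≤ 1 := by have := (e i).2; omega
    exact_mod_cast this
  constructor
  · nlinarith
  · nlinarith

lemma exists_child (j : ℕ) (x : Sp n) : ∃ e : Fin n → Fin 2, cell (j + 1) x = child (cell j x) e := by
  have key : ∀ i, ∃ e : Fin 2, cell (j + 1) x i = 2 * cell j x i + ((e : ℕ) : ℤ) := by
    intro i
    have h1 : (cell j x i : ℝ) ≤ (2:ℝ) ^ j * x i := Int.floor_le _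
    have h2 : (2:ℝ) ^ j * x i < cell j x i + 1 := Int.lt_floor_add_one _
    have h3 : (cell (j+1) x i : ℝ) ≤ (2:ℝ) ^ (j+1) * x i := Int.floor_le _
    have h4 : (2:ℝ) ^ (j+1) * x i < cell (j+1) x i + 1 := Int.lt_floor_add_one _
    rw [pow_succ] at h3 h4
    have h5 : (2 * cell j x i : ℝ) < cell (j+1) x i + 1 := by nlinarith
    have h6 : (cell (j+1) x i : ℝ) < 2 * cell j x i + 2 := by nlinarith
    have h5' : 2 * cell j x i < cell (j+1) x i + 1 := by exact_mod_cast h5
    have h6' : cell (j+1) x i < 2 * cell j x i + 2 := by exact_mod_cast h6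
    rcases (by omega : cell (j+1) x i = 2 * cell j x i ∨ cell (j+1) x i = 2 * cell j x i + 1)
      with h | h
    · exact ⟨0, by simpa using h⟩
    · exact ⟨1, by simpa using h⟩
  choose e he using key
  exact ⟨e, funext he⟩

lemma exists_mem_child {j : ℕ} {k : Fin n → ℤ} {x : Sp n} (h : x ∈ cube j k) :
    ∃ e : Fin n → Fin 2, x ∈ cube (j + 1) (child k e) := by
  obtain ⟨e, he⟩ := exists_child j x
  refine ⟨e, ?_⟩
  rw [mem_cube] at h ⊢
  rw [he, h]

lemma child_injective (k : Fin n → ℤ) : Function.Injective (child k) := by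
  intro e e' h
  funext i
  have := congrFun h i
  simp only [child] at this
  have h2 : ((e i : ℕ) : ℤ) = ((e' i : ℕ) : ℤ) := by linarith
  exact Fin.ext (by exact_mod_cast h2)

lemma cube_disjoint {j : ℕ} {k k' : Fin n → ℤ} (h : k ≠ k') : Disjoint (cube j k) (cube j k') := by
  rw [Set.disjoint_left]
  intro x hx hx'
  exact h (hx.symm.trans hx')

lemma cube_eq_iUnion_child (j : ℕ) (k : Fin n → ℤ) :
    cube j k = ⋃ e : Fin n → Fin 2, cube (j + 1) (child k e) := by
  ext x
  simp only [mem_iUnion]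
  exact ⟨exists_mem_child, fun ⟨e, he⟩ => cell_child he⟩

lemma cont_nonneg (K : Set (Sp n)) (s : ℝ) (i j : ℕ) (k : Fin n → ℤ) : 0 ≤ cont K s i j k := by
  induction i generalizing j k with
  | zero =>
    unfold cont
    split_ifs
    · exact (sd_pos s j).le
    · exact le_rfl
  | succ i ih =>
    unfold cont
    exact le_min (sd_pos s j).le (Finset.sum_nonneg fun e _ => ih _ _)

lemma cont_le_sd (K : Set (Sp n)) (s : ℝ) (i j : ℕ) (k : Fin n → ℤ) : cont K s i j k ≤ sd s j := by
  cases i with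
  | zero =>
    unfold cont
    split_ifs
    · exact le_rfl
    · exact (sd_pos s j).le
  | succ i => exact min_le_left _ _

lemma cont_eq_zero_of_empty (K : Set (Sp n)) (s : ℝ) (i j : ℕ) (k : Fin n → ℤ)
    (h : ¬ (K ∩ cube j k).Nonempty) : cont K s i j k = 0 := by
  induction i generalizing j k with
  | zero => unfold cont; rw [if_neg h]
  | succ i ih =>
    unfold cont
    have : ∑ e : Fin n → Fin 2, cont K s i (j + 1) (child k e) = 0 := by
      apply Finset.sum_eq_zero
      intro e _
      apply ih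
      rintro ⟨x, hx, hx'⟩
      exact h ⟨x, hx, cell_child hx'⟩
    rw [this]
    exact min_eq_right (sd_pos s j).le

lemma cont_pos (K : Set (Sp n)) (s : ℝ) (i j : ℕ) (k : Fin n → ℤ)
    (h : (K ∩ cube j k).Nonempty) : 0 < cont K s i j k := by
  induction i generalizing j k with
  | zero => unfold cont; rw [if_pos h]; exact sd_pos s j
  | succ i ih =>
    unfold cont
    obtain ⟨x, hx, hx'⟩ := h
    obtain ⟨e, he⟩ := exists_mem_child hx'
    apply lt_min (sd_pos s j)
    calc (0:ℝ) < cont K s i (j+1) (child k e) := ih _ _ ⟨x, hx, he⟩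
      _ ≤ _ := Finset.single_le_sum (f := fun e => cont K s i (j+1) (child k e))
          (fun e _ => cont_nonneg K s i _ _) (Finset.mem_univ e)

lemma cont_succ_le (K : Set (Sp n)) (s : ℝ) (i j : ℕ) (k : Fin n → ℤ) :
    cont K s (i + 1) j k ≤ cont K s i j k := by
  induction i generalizing j k with
  | zero =>
    by_cases h : (K ∩ cube j k).Nonempty
    · have : cont K s 0 j k = sd s j := by unfold cont; rw [if_pos h]
      rw [this]; exact cont_le_sd _ _ _ _ _
    · rw [cont_eq_zero_of_empty K s 1 j k h, cont_eq_zero_of_empty K s 0 j k h]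
  | succ i ih =>
    rw [cont, cont]
    exact min_le_min le_rfl (Finset.sum_le_sum fun e _ => ih _ _)

lemma cont_anti (K : Set (Sp n)) (s : ℝ) (j : ℕ) (k : Fin n → ℤ) :
    Antitone (fun i => cont K s i j k) :=
  antitone_nat_of_succ_le fun i => cont_succ_le K s i j k

lemma one_le_cont_of_nonpos {K : Set (Sp n)} {s : ℝ} (hs : s ≤ 0) (i j : ℕ) (k : Fin n → ℤ)
    (h : (K ∩ cube j k).Nonempty) : 1 ≤ cont K s i j k := by
  induction i generalizing j k with
  | zero => unfold cont; rw [if_pos h]; exact one_le_sd hs j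
  | succ i ih =>
    unfold cont
    obtain ⟨x, hx, hx'⟩ := h
    obtain ⟨e, he⟩ := exists_mem_child hx'
    apply le_min (one_le_sd hs j)
    calc (1:ℝ) ≤ cont K s i (j+1) (child k e) := ih _ _ ⟨x, hx, he⟩
      _ ≤ _ := Finset.single_le_sum (f := fun e => cont K s i (j+1) (child k e))
          (fun e _ => cont_nonneg K s i _ _) (Finset.mem_univ e)

lemma dyNull_empty (s : ℝ) : DyNull (∅ : Set (Sp n)) s := by
  intro k ε hε
  refine ⟨0, ?_⟩
  rw [cont_eq_zero_of_empty _ _ _ _ _ (by simp)]
  exact hε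

lemma dyNull_nonpos_iff {K : Set (Sp n)} {s : ℝ} (hs : s ≤ 0) : DyNull K s ↔ K = ∅ := by
  constructor
  · intro h
    by_contra hne
    obtain ⟨x, hx⟩ := Set.nonempty_iff_ne_empty.2 hne
    obtain ⟨i, hi⟩ := h (cell 0 x) 1 one_pos
    exact absurd hi (not_lt.2 (one_le_cont_of_nonpos hs i 0 _ ⟨x, hx, self_mem_cube 0 x⟩))
  · rintro rfl
    exact dyNull_empty s

/-- The tree induction (Frostman and Carleson in one step). -/
lemma tree_lemma (K : Set (Sp n)) {a : ℝ} (ha : 0 < a)
    (g I : ℕ → (Fin n → ℤ) → ℝ) (hg : ∀ j k, 0 ≤ g j k)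
    (hmono : ∀ j k e, g j k ≤ g (j + 1) (child k e))
    (hI : ∀ j k, sd n j * g j k ≤ I j k)
    (hsum : ∀ j k, ∑ e : Fin n → Fin 2, I (j + 1) (child k e) ≤ I j k)
    (i j : ℕ) (k : Fin n → ℤ) (θ : ℝ)
    (hθ : ∀ x ∈ K ∩ cube j k, θ ≤ ∑ l ∈ Finset.range (i + 1), sd a (j + l) * g (j + l) (cell (j + l) x)) :
    θ * cont K (n - a) i j k +
      (1 - (2:ℝ) ^ (-a))⁻¹ * (sd n j - cont K (n - a) i j k * sd a j) * g j k
      ≤ (1 - (2:ℝ) ^ (-a))⁻¹ * I j k := by
  set q : ℝ := (2:ℝ) ^ (-a) with hq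
  have hq0 : 0 < q := Real.rpow_pos_of_pos (by norm_num) _
  have hq1 : q < 1 := Real.rpow_lt_one_of_one_lt_of_neg (by norm_num) (by linarith)
  set A : ℝ := (1 - q)⁻¹ with hA
  have hA0 : 0 < A := inv_pos.2 (by linarith)
  have hA1 : A - 1 = A * q := by
    have : A * (1 - q) = 1 := inv_mul_cancel₀ (by linarith)
    linarith
  have hA1' : 1 ≤ A := by nlinarith
  have hsds : ∀ j, sd ((n:ℝ) - a) j * sd a j = sd n j := by
    intro j
    rw [← sd_add]; congr 1; ring
  have hId : ∀ j k, 0 ≤ I j k := fun j k =>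
    le_trans (mul_nonneg (sd_pos _ _).le (hg j k)) (hI j k)
  induction i generalizing j k θ with
  | zero =>
    by_cases h : (K ∩ cube j k).Nonempty
    · have hc : cont K (n - a) 0 j k = sd (n - a) j := by unfold cont; rw [if_pos h]
      obtain ⟨x, hx⟩ := h
      have h1 := hθ x hx
      simp only [zero_add, Finset.range_one, Finset.sum_singleton, add_zero] at h1
      have h2 : cell j x = k := hx.2
      rw [h2] at h1
      rw [hc, hsds]
      have h3 : θ * sd (n - a) j ≤ sd a j * g j k * sd (n - a) j :=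
        mul_le_mul_of_nonneg_right h1 (sd_pos _ _).le
      have h4 : sd a j * g j k * sd (n - a) j = sd n j * g j k := by
        rw [← hsds j]; ring
      have h5 := hI j k
      have h6 := hId j k
      nlinarith
    · rw [cont_eq_zero_of_empty _ _ _ _ _ h]
      have h5 := hI j k
      have : A * (sd n j * g j k) ≤ A * I j k := mul_le_mul_of_nonneg_left h5 hA0.le
      nlinarith
  | succ i ih =>
    set S : ℝ := ∑ e : Fin n → Fin 2, cont K (n - a) i (j + 1) (child k e) with hS
    set c : ℝ := cont K (n - a) (i + 1) j k with hc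
    have hcdef : c = min (sd (n - a) j) S := by rw [hc, cont]
    have hcS : c ≤ S := by rw [hcdef]; exact min_le_right _ _
    have hc0 : 0 ≤ c := cont_nonneg _ _ _ _ _
    have hS0 : 0 ≤ S := Finset.sum_nonneg fun e _ => cont_nonneg _ _ _ _ _
    set θ' : ℝ := θ - sd a j * g j k with hθ'
    have hcard : ((Finset.univ : Finset (Fin n → Fin 2)).card : ℝ) = 2 ^ n := by simp
    have hsdn : ∑ _e : Fin n → Fin 2, sd (n:ℝ) (j + 1) = sd n j := by
      rw [Finset.sum_const, nsmul_eq_mul, hcard, sd_succ, ← mul_assoc]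
      have : (2:ℝ) ^ n * (2:ℝ) ^ (-(n:ℝ)) = 1 := by
        rw [Real.rpow_neg (by norm_num), Real.rpow_natCast]
        exact mul_inv_cancel₀ (by positivity)
      rw [this, one_mul]
    -- children
    have hch : ∀ e : Fin n → Fin 2,
        θ' * cont K (n - a) i (j + 1) (child k e) +
        A * (sd n (j + 1) - cont K (n - a) i (j + 1) (child k e) * sd a (j + 1)) * g j k
        ≤ A * I (j + 1) (child k e) := by
      intro e
      have h1 := ih (j + 1) (child k e) θ' (by
        intro x hx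
        have hxp : x ∈ cube j k := cell_child hx.2
        have h2 := hθ x ⟨hx.1, hxp⟩
        rw [Finset.sum_range_succ'] at h2
        simp only [add_zero] at h2
        have h3 : cell j x = k := hxp
        rw [h3] at h2
        have h4 : ∑ l ∈ Finset.range (i + 1), sd a (j + 1 + l) * g (j + 1 + l) (cell (j + 1 + l) x)
            = ∑ l ∈ Finset.range (i + 1), sd a (j + (l + 1)) * g (j + (l + 1)) (cell (j + (l + 1)) x) := by
          apply Finset.sum_congr rfl
          intro l _
          rw [show j + 1 + l = j + (l + 1) by ring]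
        rw [h4, hθ']
        linarith)
      have h2 : 0 ≤ sd n (j + 1) - cont K (n - a) i (j + 1) (child k e) * sd a (j + 1) := by
        have := cont_le_sd K (n - a) i (j + 1) (child k e)
        have h3 := hsds (j + 1)
        have h4 := mul_le_mul_of_nonneg_right this (sd_pos a (j + 1)).le
        linarith
      have h3 := hmono j k e
      have h4 : A * (sd n (j + 1) - cont K (n - a) i (j + 1) (child k e) * sd a (j + 1)) * g j k ≤
          A * (sd n (j + 1) - cont K (n - a) i (j + 1) (child k e) * sd a (j + 1)) *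
            g (j + 1) (child k e) :=
        mul_le_mul_of_nonneg_left h3 (mul_nonneg hA0.le h2)
      linarith
    have hsumch := Finset.sum_le_sum fun e (_ : e ∈ Finset.univ) => hch e
    have hL : ∑ e : Fin n → Fin 2, (θ' * cont K (n - a) i (j + 1) (child k e) +
        A * (sd n (j + 1) - cont K (n - a) i (j + 1) (child k e) * sd a (j + 1)) * g j k)
        = θ' * S + A * (sd n j - S * (q * sd a j)) * g j k := by
      rw [Finset.sum_add_distrib, ← Finset.mul_sum, ← Finset.sum_mul, ← Finset.mul_sum,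
        Finset.sum_sub_distrib, hsdn, ← Finset.sum_mul, ← hS, sd_succ a j]
    rw [hL, ← Finset.mul_sum] at hsumch
    have hB1 : θ' * S + A * (sd n j - S * (q * sd a j)) * g j k ≤ A * I j k :=
      le_trans hsumch (mul_le_mul_of_nonneg_left (hsum j k) hA0.le)
    have hB2 : A * (sd n j * g j k) ≤ A * I j k := mul_le_mul_of_nonneg_left (hI j k) hA0.le
    -- goal after simplification
    have hgoal : θ * c + A * (sd n j - c * sd a j) * g j k
        = θ' * c + A * (sd n j - c * (q * sd a j)) * g j k := by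
      rw [hθ']
      have : A * c * sd a j * g j k = c * sd a j * g j k + A * q * c * sd a j * g j k := by
        have h : A = 1 + A * q := by linarith
        calc A * c * sd a j * g j k = (1 + A * q) * c * sd a j * g j k := by rw [← h]
          _ = _ := by ring
      nlinarith
    rw [hgoal]
    rcases eq_or_lt_of_le hS0 with h0 | h0
    · have hc' : c = 0 := le_antisymm (h0 ▸ hcS) hc0
      rw [hc']
      nlinarith
    · -- convex combination
      set lam : ℝ := c / S with hlam
      have hl0 : 0 ≤ lam := div_nonneg hc0 hS0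
      have hl1 : lam ≤ 1 := (div_le_one h0).2 hcS
      have hlS : lam * S = c := by rw [hlam]; field_simp
      have e1 := mul_le_mul_of_nonneg_left hB1 hl0
      have e2 := mul_le_mul_of_nonneg_left hB2 (by linarith : 0 ≤ 1 - lam)
      have e3 : lam * (θ' * S + A * (sd n j - S * (q * sd a j)) * g j k) +
          (1 - lam) * (A * (sd n j * g j k)) = θ' * c + A * (sd n j - c * (q * sd a j)) * g j k := by
        rw [← hlS]; ring
      rw [← e3]
      nlinarith

end Pool.Agent.Bhc
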