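import Mathlib
import Pool.Agent.Lib_helper48.BhcDyadic

/-!
# Vanishing moments of compactly supported smooth functions

Helper file for the hand-in on `MP_9b3711_an`.
-/

open MeasureTheory Set
open scoped ENNReal NNReal ContDiff

namespace Pool.Agent.Bhc

variable {n : ℕ}

/-- compactly supported smooth real functions on `ℝⁿ` -/
def Cc (u : Sp n → ℝ) : Prop := ContDiff ℝ ∞ u ∧ HasCompactSupport u

lemma Cc.continuous {u : Sp n → ℝ} (h : Cc u) : Continuous u := h.1.continuous

lemma Cc.integrable {u : Sp n → ℝ} (h : Cc u) : Integrable u :=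
  h.continuous.integrable_of_hasCompactSupport h.2

lemma Cc.zero : Cc (0 : Sp n → ℝ) := ⟨contDiff_const, HasCompactSupport.zero⟩

lemma Cc.add {u v : Sp n → ℝ} (hu : Cc u) (hv : Cc v) : Cc (u + v) :=
  ⟨hu.1.add hv.1, hu.2.add hv.2⟩

lemma Cc.smul {u : Sp n → ℝ} (hu : Cc u) (c : ℝ) : Cc (c • u) :=
  ⟨hu.1.const_smul c, hu.2.smul_left⟩

lemma Cc.neg {u : Sp n → ℝ} (hu : Cc u) : Cc (-u) := by
  have := hu.smul (-1)
  simpa using this

lemma Cc.sub {u v : Sp n → ℝ} (hu : Cc u) (hv : Cc v) : Cc (u - v) := by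
  rw [sub_eq_add_neg]; exact hu.add hv.neg

/-- precomposition with the similarity `x ↦ c x - z` -/
def dil (c : ℝ) (z : Sp n) (u : Sp n → ℝ) : Sp n → ℝ := fun x => u (c • x - z)

lemma Cc.dil {u : Sp n → ℝ} (hu : Cc u) {c : ℝ} (hc : c ≠ 0) (z : Sp n) :
    Cc (Bhc.dil c z u) := by
  constructor
  · unfold Bhc.dil
    exact hu.1.comp ((contDiff_id.const_smul c).sub contDiff_const)
  · have : Bhc.dil c z u = u ∘ (((Homeomorph.smulOfNeZero c hc).trans (Homeomorph.subRight z))) := by
      funext x; rfl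
    rw [this]
    exact hu.2.comp_homeomorph _

lemma Cc.sum {ι : Type*} {s : Finset ι} {f : ι → Sp n → ℝ} (h : ∀ i ∈ s, Cc (f i)) :
    Cc (∑ i ∈ s, f i) := by
  classical
  induction s using Finset.induction_on with
  | empty => simpa using Cc.zero
  | insert a s ha ih =>
    rw [Finset.sum_insert ha]
    exact (h a (Finset.mem_insert_self _ _)).add (ih fun i hi => h i (Finset.mem_insert_of_mem hi))

/-- all moments of order `< d` vanish -/
def VM (d : ℕ) (w : Sp n → ℝ) : Prop :=
  ∀ k < d, ∀ L : (Sp n) [×k]→L[ℝ] ℝ, ∫ x, L (fun _ => x) * w x = 0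

lemma continuous_diag {k : ℕ} (L : (Sp n) [×k]→L[ℝ] ℝ) : Continuous (fun x : Sp n => L (fun _ => x)) :=
  L.cont.comp (continuous_pi fun _ => continuous_id)

lemma Cc.integrable_mul {u : Sp n → ℝ} (h : Cc u) {g : Sp n → ℝ} (hg : Continuous g) :
    Integrable (fun x => g x * u x) :=
  (hg.mul h.continuous).integrable_of_hasCompactSupport (h.2.mul_left)

lemma VM.mono {d d' : ℕ} {w : Sp n → ℝ} (h : VM d w) (hd : d' ≤ d) : VM d' w :=
  fun k hk L => h k (lt_of_lt_of_le hk hd) L

lemma VM.zero (w : Sp n → ℝ) : VM 0 w := fun k hk => absurd hk (Nat.not_lt_zero k)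

lemma VM.add {d : ℕ} {u v : Sp n → ℝ} (hu : Cc u) (hv : Cc v) (h : VM d u) (h' : VM d v) :
    VM d (u + v) := by
  intro k hk L
  have : ∀ x, L (fun _ => x) * (u + v) x = L (fun _ => x) * u x + L (fun _ => x) * v x := by
    intro x; simp [mul_add]
  simp_rw [this]
  rw [integral_add (hu.integrable_mul (continuous_diag L)) (hv.integrable_mul (continuous_diag L)),
    h k hk L, h' k hk L, add_zero]

lemma VM.smul {d : ℕ} {u : Sp n → ℝ} (h : VM d u) (c : ℝ) : VM d (c • u) := by
  intro k hk L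
  have : ∀ x, L (fun _ => x) * (c • u) x = c * (L (fun _ => x) * u x) := by
    intro x; simp; ring
  simp_rw [this]
  rw [integral_const_mul, h k hk L, mul_zero]

/-- expansion of a multilinear map on the diagonal around a point -/
lemma diag_expand {k : ℕ} (L : (Sp n) [×k]→L[ℝ] ℝ) (x z : Sp n) :
    L (fun _ => x + z) = ∑ S : Finset (Fin k), (L.restr S rfl z) (fun _ => x) := by
  classical
  have h1 : (fun _ : Fin k => x + z) = (fun _ => x) + (fun _ => z) := rfl
  rw [h1, L.map_add_univ]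
  apply Finset.sum_congr rfl
  intro S _
  show _ = L (fun j => if h : j ∈ S then x else z)
  congr 1

lemma restr_univ {k : ℕ} (L : (Sp n) [×k]→L[ℝ] ℝ) (x z : Sp n) :
    (L.restr (Finset.univ : Finset (Fin k)) rfl z) (fun _ => x) = L (fun _ => x) := by
  show L (fun j => if h : j ∈ Finset.univ then x else z) = _
  simp

lemma restr_empty {k : ℕ} (L : (Sp n) [×k]→L[ℝ] ℝ) (x z : Sp n) :
    (L.restr (∅ : Finset (Fin k)) rfl z) (fun _ => x) = L (fun _ => z) := by
  show L (fun j => if h : j ∈ (∅ : Finset (Fin k)) then x else z) = _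
  simp

/-- moments of a translate -/
lemma moment_translate {k : ℕ} (L : (Sp n) [×k]→L[ℝ] ℝ) {w : Sp n → ℝ} (hw : Cc w) (z : Sp n) :
    ∫ x, L (fun _ => x) * w (x - z) =
      ∑ S : Finset (Fin k), ∫ x, (L.restr S rfl z) (fun _ => x) * w x := by
  have h1 : ∫ x, L (fun _ => x) * w (x - z) = ∫ x, L (fun _ => x + z) * w x := by
    rw [← integral_add_right_eq_self (fun x => L (fun _ => x) * w (x - z)) z]
    simp
  rw [h1]
  simp_rw [diag_expand L _ z, Finset.sum_mul]
  rw [integral_finsetSum]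
  intro S _
  exact hw.integrable_mul (continuous_diag _)

lemma VM.translate {d : ℕ} {w : Sp n → ℝ} (hw : Cc w) (h : VM d w) (z : Sp n) :
    VM d (fun x => w (x - z)) := by
  intro k hk L
  rw [moment_translate L hw z]
  apply Finset.sum_eq_zero
  intro S _
  have : S.card ≤ k := by simpa using Finset.card_le_univ S
  exact h _ (by omega) _

/-- difference operator -/
def dif (v : Sp n) (w : Sp n → ℝ) : Sp n → ℝ := fun x => w x - w (x - v)

lemma Cc.dif {w : Sp n → ℝ} (hw : Cc w) (v : Sp n) : Cc (Bhc.dif v w) := by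
  have h := hw.dil (one_ne_zero) v
  have : Bhc.dif v w = w - Bhc.dil 1 v w := by
    funext x; simp [Bhc.dif, Bhc.dil]
  rw [this]
  exact hw.sub h

lemma VM.dif {d : ℕ} {w : Sp n → ℝ} (hw : Cc w) (h : VM d w) (v : Sp n) :
    VM (d + 1) (Bhc.dif v w) := by
  classical
  intro k hk L
  have h1 : ∀ x, L (fun _ => x) * Bhc.dif v w x = L (fun _ => x) * w x - L (fun _ => x) * w (x - v) := by
    intro x; simp [Bhc.dif, mul_sub]
  simp_rw [h1]
  have hwv : Cc (fun x => w (x - v)) := by
    have := hw.dil (one_ne_zero) v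
    have h2 : Bhc.dil 1 v w = fun x => w (x - v) := by funext x; simp [Bhc.dil]
    rwa [h2] at this
  rw [integral_sub (hw.integrable_mul (continuous_diag L)) (hwv.integrable_mul (continuous_diag L)),
    moment_translate L hw v, ← Finset.sum_erase_add _ _ (Finset.mem_univ (Finset.univ : Finset (Fin k)))]
  have h3 : ∀ S ∈ (Finset.univ : Finset (Finset (Fin k))).erase Finset.univ,
      ∫ x, (L.restr S rfl v) (fun _ => x) * w x = 0 := by
    intro S hS
    apply h
    have hne : S ≠ Finset.univ := Finset.ne_of_mem_erase hS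
    have := (Finset.card_lt_iff_ne_univ S).2 hne
    simp at this
    omega
  rw [Finset.sum_eq_zero h3]
  simp_rw [restr_univ]
  ring


lemma integral_dil {E : Type*} [NormedAddCommGroup E] [NormedSpace ℝ E] (f : Sp n → E) {c : ℝ}
    (hc : 0 < c) (z : Sp n) :
    ∫ x, f (c • x - z) = (c ^ n)⁻¹ • ∫ x, f x := by
  have h1 : ∫ x, f (c • x - z) = |(c ^ (Module.finrank ℝ (Sp n)))⁻¹| • ∫ x, f (x - z) :=
    MeasureTheory.Measure.integral_comp_smul volume (fun x => f (x - z)) c
  rw [h1, integral_sub_right_eq_self f z, finrank_euclideanSpace_fin,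
    abs_of_pos (inv_pos.2 (pow_pos hc n))]

lemma moment_half {k : ℕ} (L : (Sp n) [×k]→L[ℝ] ℝ) (w : Sp n → ℝ) :
    ∫ x, L (fun _ => x) * w ((1/2 : ℝ) • x) = 2 ^ (n + k) * ∫ x, L (fun _ => x) * w x := by
  have h1 := integral_dil (fun x => L (fun _ => (2:ℝ) • x) * w x) (c := 1/2) (by norm_num) (0 : Sp n)
  simp only [sub_zero, smul_smul] at h1
  norm_num at h1
  have h2 : ∀ x : Sp n, L (fun _ => (2:ℝ) • x) = 2 ^ k * L (fun _ => x) := by
    intro x
    have := L.map_smul_univ (fun _ => (2:ℝ)) (fun _ => x)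
    simpa using this
  have h3 : ∫ x, L (fun _ => x) * w ((1/2 : ℝ) • x) = 2 ^ n * ∫ x, L (fun _ => (2:ℝ) • x) * w x := by
    rw [show ((2:ℝ)^n) = ((1/2:ℝ)^n)⁻¹ by rw [one_div, inv_pow, inv_inv]]
    exact h1
  rw [h3]
  simp_rw [h2, mul_assoc]
  rw [integral_const_mul]
  ring

/-- the carry step -/
noncomputable def stp (d : ℕ) (w : Sp n → ℝ) : Sp n → ℝ :=
  fun x => w x - (2 ^ (n + d))⁻¹ * w ((1/2 : ℝ) • x)

lemma Cc.half {w : Sp n → ℝ} (hw : Cc w) : Cc (fun x => w ((1/2 : ℝ) • x)) := by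
  have := hw.dil (c := 1/2) (by norm_num) 0
  have h2 : Bhc.dil (1/2) 0 w = fun x => w ((1/2 : ℝ) • x) := by
    funext x; simp [Bhc.dil]
  rwa [h2] at this

lemma Cc.stp {w : Sp n → ℝ} (hw : Cc w) (d : ℕ) : Cc (Bhc.stp d w) := by
  have h := hw.half.smul (2 ^ (n + d))⁻¹
  exact hw.sub h

lemma moment_stp {k d : ℕ} (L : (Sp n) [×k]→L[ℝ] ℝ) {w : Sp n → ℝ} (hw : Cc w) :
    ∫ x, L (fun _ => x) * Bhc.stp d w x =
      (1 - (2 ^ (n + d))⁻¹ * 2 ^ (n + k)) * ∫ x, L (fun _ => x) * w x := by
  have h1 : ∀ x, L (fun _ => x) * Bhc.stp d w x =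
      L (fun _ => x) * w x - (2 ^ (n + d))⁻¹ * (L (fun _ => x) * w ((1/2 : ℝ) • x)) := by
    intro x; simp only [Bhc.stp]; ring
  simp_rw [h1]
  rw [integral_sub (hw.integrable_mul (continuous_diag L))
    ((hw.half.integrable_mul (continuous_diag L)).const_mul _), integral_const_mul, moment_half]
  ring

lemma VM.stp {d : ℕ} {w : Sp n → ℝ} (hw : Cc w) (h : VM d w) : VM (d + 1) (Bhc.stp d w) := by
  intro k hk L
  rw [moment_stp L hw]
  rcases Nat.lt_succ_iff_lt_or_eq.1 hk with h1 | h1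
  · rw [h k h1 L, mul_zero]
  · subst h1
    rw [inv_mul_cancel₀ (by positivity)]
    ring

/-- derivative of the diagonal of a multilinear map -/
lemma fderiv_diag {k : ℕ} (L : (Sp n) [×k]→L[ℝ] ℝ) (x : Sp n) :
    HasFDerivAt (fun x : Sp n => L (fun _ => x))
      ((L.linearDeriv (fun _ => x)).comp (ContinuousLinearMap.pi fun _ => ContinuousLinearMap.id ℝ _)) x := by
  have h1 := L.hasFDerivAt (fun _ => x)
  exact h1.comp x (ContinuousLinearMap.pi fun _ => ContinuousLinearMap.id ℝ (Sp n)).hasFDerivAt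

lemma fderiv_diag_apply {k : ℕ} (L : (Sp n) [×k]→L[ℝ] ℝ) (x m : Sp n) :
    fderiv ℝ (fun x : Sp n => L (fun _ => x)) x m =
      ∑ i : Fin k, (L.restr (Finset.univ.erase i) rfl m) (fun _ => x) := by
  classical
  rw [(fderiv_diag L x).fderiv]
  simp only [ContinuousLinearMap.comp_apply]
  rw [L.linearDeriv_apply]
  apply Finset.sum_congr rfl
  intro i _
  show _ = L (fun j => if h : j ∈ Finset.univ.erase i then x else m)
  congr 1
  funext j
  by_cases hj : j = i
  · subst hj; simp
  · simp [hj]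

lemma Cc.fderiv {w : Sp n → ℝ} (hw : Cc w) (m : Sp n) : Cc (fun x => fderiv ℝ w x m) := by
  constructor
  · exact (hw.1.fderiv_right (m := ∞) (by simp)).clm_apply contDiff_const
  · exact hw.2.fderiv_apply (𝕜 := ℝ) m

lemma VM.fderiv {d : ℕ} {w : Sp n → ℝ} (hw : Cc w) (h : VM d w) (m : Sp n) :
    VM d (fun x => fderiv ℝ w x m) := by
  classical
  intro k hk L
  have hdL : Differentiable ℝ (fun x : Sp n => L (fun _ => x)) := fun x =>
    (fderiv_diag L x).differentiableAt
  have hdw : Differentiable ℝ w := hw.1.differentiable (by simp)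
  have hcont : ∀ i : Fin k, Continuous fun x : Sp n => (L.restr (Finset.univ.erase i) rfl m) (fun _ => x) :=
    fun i => continuous_diag _
  rw [integral_mul_fderiv_eq_neg_fderiv_mul_of_integrable]
  · simp_rw [fderiv_diag_apply, Finset.sum_mul]
    rw [integral_finsetSum]
    · rw [Finset.sum_eq_zero, neg_zero]
      intro i _
      apply h
      have : (Finset.univ.erase i : Finset (Fin k)).card < k := by
        simp
        have := i.2
        omega
      omega
    · intro i _
      exact hw.integrable_mul (hcont i)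
  · simp_rw [fderiv_diag_apply, Finset.sum_mul]
    exact integrable_finsetSum _ fun i _ => hw.integrable_mul (hcont i)
  · exact (hw.fderiv m).integrable_mul (continuous_diag L)
  · exact hw.integrable_mul (continuous_diag L)
  · exact fun x _ => hdL x
  · exact fun x _ => hdw x

end Pool.Agent.Bhc
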