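import Mathlib
import Pool.Agent.Lib_helper48.BhcMoments

/-!
# Abstract capacitary cost functions and the carry step

Helper file for the hand-in on `MP_9b3711_an`.
-/

open MeasureTheory Set
open scoped ENNReal NNReal ContDiff

namespace Pool.Agent.Bhc

variable {n : ℕ}

/-- the atom bound for functions with `d` vanishing moments -/
def AtomB (s : ℝ) (c : (Sp n → ℝ) → ℝ≥0∞) (d : ℕ) : Prop :=
  ∀ w, Cc w → VM d w → ∃ C : ℝ, 0 ≤ C ∧ ∀ (j : ℕ) (z : Sp n),
    c (dil (2 ^ j) z w) ≤ ENNReal.ofReal (C * sd s j)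

/-- the properties of a cost function used in the upper bound -/
structure IsCost (n : ℕ) (p : ℝ) (c : (Sp n → ℝ) → ℝ≥0∞) : Prop where
  zero : c 0 = 0
  add : ∀ u v, Cc u → Cc v → c (u + v) ≤ c u + c v
  smul : ∀ (t : ℝ) u, Cc u → c (t • u) ≤ ENNReal.ofReal (|t| ^ p) * c u
  trans : ∀ u z, Cc u → c (dil 1 z u) ≤ c u

lemma IsCost.sum {p : ℝ} {c : (Sp n → ℝ) → ℝ≥0∞} (h : IsCost n p c) {ι : Type*} (S : Finset ι)
    (f : ι → Sp n → ℝ) (hf : ∀ i ∈ S, Cc (f i)) : c (∑ i ∈ S, f i) ≤ ∑ i ∈ S, c (f i) := by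
  classical
  induction S using Finset.induction_on with
  | empty => simp [h.zero]
  | insert a S ha ih =>
    rw [Finset.sum_insert ha, Finset.sum_insert ha]
    have h1 : ∀ i ∈ S, Cc (f i) := fun i hi => hf i (Finset.mem_insert_of_mem hi)
    exact (h.add _ _ (hf a (Finset.mem_insert_self _ _)) (Cc.sum h1)).trans
      (add_le_add le_rfl (ih h1))

lemma AtomB.mono {s : ℝ} {c : (Sp n → ℝ) → ℝ≥0∞} {d d' : ℕ} (h : AtomB s c d) (hd : d ≤ d') :
    AtomB s c d' := fun w hw hv => h w hw (hv.mono hd)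

lemma dil_stp (d j : ℕ) (z : Sp n) (w : Sp n → ℝ) :
    dil (2 ^ (j + 1)) z w = dil (2 ^ (j + 1)) z (stp d w) +
      ((2:ℝ) ^ (n + d))⁻¹ • dil (2 ^ j) ((1/2 : ℝ) • z) w := by
  funext x
  simp only [dil, stp, Pi.add_apply, Pi.smul_apply, smul_eq_mul]
  have : (1/2 : ℝ) • ((2:ℝ) ^ (j + 1) • x - z) = (2:ℝ) ^ j • x - (1/2 : ℝ) • z := by
    rw [smul_sub, smul_smul]
    congr 2
    rw [pow_succ]; ring
  rw [this]
  ring

lemma carry_step {p s : ℝ} {c : (Sp n → ℝ) → ℝ≥0∞} (h : IsCost n p c)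
    (hfin : ∀ w, Cc w → c w < ⊤) {d : ℕ} (hd : s < (n + d) * p) (hA : AtomB s c (d + 1)) :
    AtomB s c d := by
  intro w hw hv
  obtain ⟨C1, hC10, hC1⟩ := hA (stp d w) (hw.stp d) (hv.stp hw)
  set r : ℝ := ((2:ℝ) ^ (n + d))⁻¹ with hr
  have hr0 : 0 < r := by positivity
  set q : ℝ := r ^ p * (2:ℝ) ^ s with hq
  have hq' : q = (2:ℝ) ^ (s - (n + d) * p) := by
    rw [hq, hr, ← Real.rpow_natCast, ← Real.rpow_neg (by norm_num), ← Real.rpow_mul (by norm_num),
      ← Real.rpow_add (by norm_num)]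
    congr 1
    push_cast
    ring
  have hq0 : 0 < q := by rw [hq']; exact Real.rpow_pos_of_pos (by norm_num) _
  have hq1 : q < 1 := by
    rw [hq']; exact Real.rpow_lt_one_of_one_lt_of_neg (by norm_num) (by linarith)
  refine ⟨max (c w).toReal (C1 / (1 - q)), le_max_of_le_left ENNReal.toReal_nonneg, fun j => ?_⟩
  set C : ℝ := max (c w).toReal (C1 / (1 - q)) with hC
  have hC0 : 0 ≤ C := le_max_of_le_left ENNReal.toReal_nonneg
  have hCq : C1 + q * C ≤ C := by
    have h1 : C1 / (1 - q) ≤ C := le_max_right _ _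
    rw [div_le_iff₀ (by linarith)] at h1
    linarith
  induction j with
  | zero =>
    intro z
    rw [pow_zero, sd_zero, mul_one]
    calc c (dil 1 z w) ≤ c w := h.trans w z hw
      _ = ENNReal.ofReal (c w).toReal := (ENNReal.ofReal_toReal (hfin w hw).ne).symm
      _ ≤ _ := ENNReal.ofReal_le_ofReal (le_max_left _ _)
  | succ j ih =>
    intro z
    rw [dil_stp d j z w]
    have hp2 : ∀ j : ℕ, (2:ℝ) ^ j ≠ 0 := fun j => by positivity
    have hcc1 : Cc (dil (2 ^ (j + 1)) z (stp d w)) := (hw.stp d).dil (hp2 _) z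
    have hcc2 : Cc (dil (2 ^ j) ((1/2 : ℝ) • z) w) := hw.dil (hp2 _) _
    calc c (dil (2 ^ (j + 1)) z (stp d w) + r • dil (2 ^ j) ((1/2 : ℝ) • z) w)
        ≤ c (dil (2 ^ (j + 1)) z (stp d w)) + c (r • dil (2 ^ j) ((1/2 : ℝ) • z) w) :=
          h.add _ _ hcc1 (hcc2.smul r)
      _ ≤ ENNReal.ofReal (C1 * sd s (j + 1)) +
          ENNReal.ofReal (|r| ^ p) * ENNReal.ofReal (C * sd s j) := by
          gcongr
          · exact hC1 _ _
          · exact (h.smul r _ hcc2).trans (mul_le_mul_right (ih _) _)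
      _ = ENNReal.ofReal (C1 * sd s (j + 1) + r ^ p * (C * sd s j)) := by
          rw [abs_of_pos hr0, ← ENNReal.ofReal_mul (by positivity), ← ENNReal.ofReal_add]
          · exact mul_nonneg hC10 (sd_pos _ _).le
          · exact mul_nonneg (by positivity) (mul_nonneg hC0 (sd_pos _ _).le)
      _ ≤ ENNReal.ofReal (C * sd s (j + 1)) := by
          apply ENNReal.ofReal_le_ofReal
          have e : sd s j = (2:ℝ) ^ s * sd s (j + 1) := by
            rw [sd_succ, ← mul_assoc, ← Real.rpow_add (by norm_num)]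
            simp
          have e2 : C1 * sd s (j + 1) + r ^ p * (C * sd s j) = (C1 + q * C) * sd s (j + 1) := by
            rw [e, hq]; ring
          rw [e2]
          exact mul_le_mul_of_nonneg_right hCq (sd_pos _ _).le

lemma atomB_of_large {p s : ℝ} {c : (Sp n → ℝ) → ℝ≥0∞} (h : IsCost n p c) (hp : 0 < p)
    (hfin : ∀ w, Cc w → c w < ⊤) {d d0 : ℕ} (hd : s < (n + d) * p) (hA : AtomB s c d0) :
    AtomB s c d := by
  rcases le_total d0 d with h1 | h1
  · exact hA.mono h1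
  · obtain ⟨m, rfl⟩ := Nat.exists_eq_add_of_le h1
    clear h1
    induction m with
    | zero => exact hA
    | succ m ih =>
      apply ih
      have h2 : s < ((n:ℝ) + ((d + m : ℕ) : ℝ)) * p := by
        push_cast
        nlinarith [Nat.cast_nonneg (α := ℝ) m]
      exact carry_step h hfin h2 hA

/-! ### Iterated differences make everything finite -/

/-- iterated difference -/
def difs (v : Sp n) : ℕ → (Sp n → ℝ) → (Sp n → ℝ)
  | 0, w => w
  | M + 1, w => dif v (difs v M w)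

lemma Cc.difs {w : Sp n → ℝ} (hw : Cc w) (v : Sp n) (M : ℕ) : Cc (Bhc.difs v M w) := by
  induction M with
  | zero => exact hw
  | succ M ih => exact ih.dif v

lemma VM.difs {w : Sp n → ℝ} (hw : Cc w) (v : Sp n) (M : ℕ) : VM M (Bhc.difs v M w) := by
  induction M with
  | zero => exact VM.zero _
  | succ M ih => exact ih.dif (hw.difs v M) v

lemma dif_add (v : Sp n) (u w : Sp n → ℝ) : dif v (u + w) = dif v u + dif v w := by
  funext x; simp [dif]; ring

lemma dif_smul (v : Sp n) (t : ℝ) (w : Sp n → ℝ) : dif v (t • w) = t • dif v w := by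
  funext x; simp [dif]; ring

lemma dif_dil (v z : Sp n) (w : Sp n → ℝ) : dif v (dil 1 z w) = dil 1 z (dif v w) := by
  funext x
  simp only [dif, dil, one_smul]
  congr 2
  abel

lemma difs_add (v : Sp n) (M : ℕ) (u w : Sp n → ℝ) : difs v M (u + w) = difs v M u + difs v M w := by
  induction M with
  | zero => rfl
  | succ M ih => simp only [difs]; rw [ih, dif_add]

lemma difs_smul (v : Sp n) (M : ℕ) (t : ℝ) (w : Sp n → ℝ) : difs v M (t • w) = t • difs v M w := by
  induction M with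
  | zero => rfl
  | succ M ih => simp only [difs]; rw [ih, dif_smul]

lemma difs_dil (v z : Sp n) (M : ℕ) (w : Sp n → ℝ) : difs v M (dil 1 z w) = dil 1 z (difs v M w) := by
  induction M with
  | zero => rfl
  | succ M ih => simp only [difs]; rw [ih, dif_dil]

lemma difs_zero (v : Sp n) (M : ℕ) : difs v M (0 : Sp n → ℝ) = 0 := by
  induction M with
  | zero => rfl
  | succ M ih => simp only [difs]; rw [ih]; funext x; simp [dif]

/-- the cost of an iterated difference -/
def cdif (v : Sp n) (M : ℕ) (c : (Sp n → ℝ) → ℝ≥0∞) : (Sp n → ℝ) → ℝ≥0∞ := fun u => c (difs v M u)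

lemma IsCost.cdif {p : ℝ} {c : (Sp n → ℝ) → ℝ≥0∞} (h : IsCost n p c) (v : Sp n) (M : ℕ) :
    IsCost n p (Bhc.cdif v M c) where
  zero := by unfold Bhc.cdif; rw [difs_zero, h.zero]
  add u w hu hw := by
    unfold Bhc.cdif; rw [difs_add]; exact h.add _ _ (hu.difs v M) (hw.difs v M)
  smul t u hu := by
    unfold Bhc.cdif; rw [difs_smul]; exact h.smul _ _ (hu.difs v M)
  trans u z hu := by
    unfold Bhc.cdif; rw [difs_dil]; exact h.trans _ _ (hu.difs v M)

lemma IsCost.dif_le {p : ℝ} {c : (Sp n → ℝ) → ℝ≥0∞} (h : IsCost n p c) (v : Sp n) {u : Sp n → ℝ}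
    (hu : Cc u) : c (dif v u) ≤ 2 * c u := by
  have h1 : dif v u = u + (-1 : ℝ) • dil 1 v u := by
    funext x; simp [dif, dil]; ring
  have hd : Cc (dil 1 v u) := hu.dil one_ne_zero v
  rw [h1, two_mul]
  refine (h.add _ _ hu (hd.smul _)).trans (add_le_add le_rfl ?_)
  refine (h.smul _ _ hd).trans ?_
  simp only [abs_neg, abs_one, Real.one_rpow, ENNReal.ofReal_one, one_mul]
  exact h.trans u v hu

lemma IsCost.difs_le {p : ℝ} {c : (Sp n → ℝ) → ℝ≥0∞} (h : IsCost n p c) (v : Sp n) (M : ℕ)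
    {u : Sp n → ℝ} (hu : Cc u) : c (difs v M u) ≤ 2 ^ M * c u := by
  induction M with
  | zero => simp [difs]
  | succ M ih =>
    simp only [difs]
    refine (h.dif_le v (hu.difs v M)).trans ?_
    rw [pow_succ, mul_comm ((2:ℝ≥0∞) ^ M) 2, mul_assoc]
    exact mul_le_mul_right ih _

lemma cdif_atomB {p s : ℝ} {c : (Sp n → ℝ) → ℝ≥0∞} (h : IsCost n p c) {d : ℕ} (hA : AtomB s c d)
    (v : Sp n) (M : ℕ) : AtomB s (cdif v M c) d := by
  intro w hw hv
  obtain ⟨C, hC0, hC⟩ := hA w hw hv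
  refine ⟨2 ^ M * C, by positivity, fun j z => ?_⟩
  unfold cdif
  refine (h.difs_le v M (hw.dil (by positivity) z)).trans ?_
  rw [mul_assoc, ENNReal.ofReal_mul (by positivity), ENNReal.ofReal_pow (by norm_num),
    ENNReal.ofReal_ofNat]
  exact mul_le_mul_right (hC j z) _

lemma cdif_finite {s : ℝ} {c : (Sp n → ℝ) → ℝ≥0∞} {d : ℕ} (hA : AtomB s c d)
    (v : Sp n) {w : Sp n → ℝ} (hw : Cc w) : cdif v d c w < ⊤ := by
  obtain ⟨C, hC0, hC⟩ := hA (difs v d w) (hw.difs v d) (VM.difs hw v d)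
  have := hC 0 0
  have e : dil (2 ^ 0) 0 (difs v d w) = difs v d w := by funext x; simp [dil]
  rw [e] at this
  exact this.trans_lt ENNReal.ofReal_lt_top

end Pool.Agent.Bhc
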