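import Mathlib
import Pool.Agent.Lib_helper48.BhcCost

/-!
# Economical functions on light dyadic cubes, mean-zero atoms

Helper file for the hand-in on `MP_9b3711_an`.
-/

open MeasureTheory Set
open scoped ENNReal NNReal ContDiff

namespace Pool.Agent.Bhc

variable {n : ℕ}

/-- an integer vector as a point of `ℝⁿ` -/
noncomputable def kv (k : Fin n → ℤ) : Sp n := WithLp.toLp 2 (fun i => (k i : ℝ))

@[simp] lemma kv_apply (k : Fin n → ℤ) (i : Fin n) : kv k i = (k i : ℝ) := rfl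

lemma norm_le_of_coord {y : Sp n} {B : ℝ} (hB : 0 ≤ B) (h : ∀ i, |y i| ≤ B) :
    ‖y‖ ≤ (n + 1) * B := by
  rw [EuclideanSpace.norm_eq, Real.sqrt_le_left (by positivity)]
  calc ∑ i, ‖y i‖ ^ 2 ≤ ∑ _i : Fin n, B ^ 2 := by
        apply Finset.sum_le_sum
        intro i _
        rw [Real.norm_eq_abs]
        exact pow_le_pow_left₀ (abs_nonneg _) (h i) 2
    _ = n * B ^ 2 := by simp
    _ ≤ ((n + 1) * B) ^ 2 := by
        have : (0:ℝ) ≤ n := Nat.cast_nonneg n
        nlinarith [sq_nonneg B, mul_nonneg this (sq_nonneg B), mul_nonneg (mul_nonneg this this) (sq_nonneg B)]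

lemma norm_scaled_le {j : ℕ} {k : Fin n → ℤ} {x : Sp n} (h : x ∈ cube j k) :
    ‖(2:ℝ) ^ j • x - kv k‖ ≤ n + 1 := by
  rw [mem_cube'] at h
  have := norm_le_of_coord (y := (2:ℝ) ^ j • x - kv k) (B := 1) zero_le_one (by
    intro i
    have h1 := (h i).1
    have h2 := (h i).2
    simp only [PiLp.sub_apply, PiLp.smul_apply, smul_eq_mul, kv_apply]
    rw [abs_le]
    constructor <;> linarith)
  simpa using this

lemma dist_scaled {j : ℕ} {k : Fin n → ℤ} {x y : Sp n} (h : y ∈ cube j k) {B : ℝ}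
    (hx : ‖(2:ℝ) ^ j • x - kv k‖ ≤ B) : ‖x - y‖ ≤ B + (n + 1) := by
  have h2 := norm_scaled_le h
  have h3 : (2:ℝ) ^ j • (x - y) = ((2:ℝ) ^ j • x - kv k) - ((2:ℝ) ^ j • y - kv k) := by
    rw [smul_sub]; abel
  have h4 : ‖(2:ℝ) ^ j • (x - y)‖ ≤ B + (n + 1) := by
    rw [h3]; exact (norm_sub_le _ _).trans (add_le_add hx h2)
  rw [norm_smul, Real.norm_eq_abs, abs_of_pos (by positivity)] at h4
  have h5 : (1:ℝ) ≤ 2 ^ j := one_le_pow₀ (by norm_num)
  exact (le_mul_of_one_le_left (norm_nonneg _) h5).trans h4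

/-- the standard bump equal to `1` on a large ball -/
lemma exists_bump (n : ℕ) : ∃ b : Sp n → ℝ, Cc b ∧ (∀ x, 0 ≤ b x) ∧ (∀ x, ‖x‖ ≤ n + 1 → b x = 1) ∧
    (∀ x, b x ≠ 0 → ‖x‖ ≤ n + 2) := by
  have hpos : (0:ℝ) < n + 1 := by positivity
  let f : ContDiffBump (0 : Sp n) := ⟨n + 1, n + 2, hpos, by linarith⟩
  refine ⟨f, ⟨f.contDiff, f.hasCompactSupport⟩, fun x => f.nonneg, fun x hx => ?_, fun x hx => ?_⟩
  · apply f.one_of_mem_closedBall
    rw [mem_closedBall_zero_iff]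
    exact hx
  · have : x ∈ Function.support f := hx
    rw [f.support_eq, mem_ball_zero_iff] at this
    exact this.le

/-- a small normalised bump supported in the unit cube -/
lemma exists_small_bump (n : ℕ) : ∃ g : Sp n → ℝ, ∃ G : ℝ, Cc g ∧ (∀ x, 0 ≤ g x) ∧ ∫ x, g x = 1 ∧
    (∀ x, g x ≤ G) ∧ 0 < G ∧ (∀ x, g x ≠ 0 → ∀ i, 0 ≤ x i ∧ x i < 1) := by
  let a : Sp n := WithLp.toLp 2 (fun _ => (1/2 : ℝ))
  let f : ContDiffBump a := ⟨1/4, 1/2, by norm_num, by norm_num⟩
  have hc : Cc (f.normed volume) := ⟨f.contDiff_normed, f.hasCompactSupport_normed⟩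
  obtain ⟨B, hB0, hB⟩ : ∃ B, 0 ≤ B ∧ ∀ x, |f.normed volume x| ≤ B := by
    obtain ⟨B, hB⟩ := hc.2.exists_bound_of_continuous hc.continuous
    exact ⟨max B 0, le_max_right _ _, fun x => (hB x).trans (le_max_left _ _)⟩
  refine ⟨f.normed volume, B + 1, hc, fun x => f.nonneg_normed x, f.integral_normed,
    fun x => by have := hB x; rw [abs_le] at this; linarith [this.2], by linarith, ?_⟩
  intro x hx i
  have h1 : x ∈ Function.support (f.normed volume) := hx
  rw [f.support_normed_eq, mem_ball_iff_norm] at h1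
  have h2 : |(x - a) i| ≤ ‖x - a‖ := by
    have := PiLp.norm_apply_le (x - a) i
    simpa using this
  have h3 : (x - a) i = x i - 1/2 := rfl
  have h4 : f.rOut = 1/2 := rfl
  rw [h3] at h2
  rw [h4] at h1
  have h5 := lt_of_le_of_lt h2 h1
  rw [abs_lt] at h5
  constructor <;> linarith

/-- `f` is the index of a level-`(j+d)` subcube of the level-`j` cube `k` -/
def IsDesc (d : ℕ) (k f : Fin n → ℤ) : Prop := ∀ i, 2 ^ d * k i ≤ f i ∧ f i < 2 ^ d * k i + 2 ^ d

lemma IsDesc.mem {d j : ℕ} {k f : Fin n → ℤ} (h : IsDesc d k f) {x : Sp n}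
    (hx : x ∈ cube (j + d) f) : x ∈ cube j k := by
  rw [mem_cube'] at hx ⊢
  intro i
  have h1 := (hx i).1
  have h2 := (hx i).2
  have h3 := (h i).1
  have h4 : f i + 1 ≤ 2 ^ d * k i + 2 ^ d := (h i).2
  have h3' : (2:ℝ) ^ d * k i ≤ f i := by exact_mod_cast h3
  have h4' : (f i : ℝ) + 1 ≤ (2:ℝ) ^ d * k i + 2 ^ d := by exact_mod_cast h4
  rw [pow_add] at h1 h2
  have hd : (0:ℝ) < 2 ^ d := by positivity
  constructor
  · have : (2:ℝ) ^ d * k i ≤ 2 ^ d * (2 ^ j * x i) := by nlinarith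
    exact le_of_mul_le_mul_left this hd
  · have : (2:ℝ) ^ d * (2 ^ j * x i) < 2 ^ d * (k i + 1) := by nlinarith
    exact lt_of_mul_lt_mul_left this hd.le

lemma good_set (K : Set (Sp n)) {s : ℝ} (hs : s ≤ n) (d : ℕ) : ∀ (i j : ℕ) (k : Fin n → ℤ),
    ∃ G : Finset (Fin n → ℤ), (∀ f ∈ G, IsDesc d k f) ∧
      (2:ℝ) ^ (d * n) * (1 - cont K s (d + i) j k / sd s j) ≤ G.card ∧
      ∑ f ∈ G, cont K s i (j + d) f ≤ cont K s (d + i) j k := by
  classical
  induction d with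
  | zero =>
    intro i j k
    refine ⟨{k}, ?_, ?_, ?_⟩
    · intro f hf
      rw [Finset.mem_singleton] at hf
      subst hf
      intro i
      constructor <;> simp
    · simp only [zero_mul, pow_zero, one_mul, Finset.card_singleton, Nat.cast_one]
      have : 0 ≤ cont K s (0 + i) j k / sd s j := div_nonneg (cont_nonneg _ _ _ _ _) (sd_pos _ _).le
      linarith
    · simp
  | succ d ih =>
    intro i j k
    have e1 : d + 1 + i = (d + i) + 1 := by ring
    rw [e1]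
    set S : ℝ := ∑ e : Fin n → Fin 2, cont K s (d + i) (j + 1) (child k e) with hS
    have hc : cont K s (d + i + 1) j k = min (sd s j) S := by rw [cont]
    rcases le_total (sd s j) S with h | h
    · refine ⟨∅, by simp, ?_, ?_⟩
      · rw [hc, min_eq_left h, div_self (sd_pos _ _).ne']
        simp
      · simp only [Finset.sum_empty]
        exact cont_nonneg _ _ _ _ _
    · choose G hG1 hG2 hG3 using fun e : Fin n → Fin 2 => ih i (j + 1) (child k e)
      have hdisj : ∀ e ∈ (Finset.univ : Finset (Fin n → Fin 2)), ∀ e' ∈ (Finset.univ : Finset (Fin n → Fin 2)),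
          e ≠ e' → Disjoint (G e) (G e') := by
        intro e _ e' _ hne
        rw [Finset.disjoint_left]
        intro f hf hf'
        apply hne
        apply child_injective k
        funext i'
        have h1 := hG1 e f hf i'
        have h2 := hG1 e' f hf' i'
        have hd : (0:ℤ) < 2 ^ d := by positivity
        have h3 : (2:ℤ) ^ d * child k e i' < 2 ^ d * (child k e' i' + 1) := by nlinarith
        have h4 : (2:ℤ) ^ d * child k e' i' < 2 ^ d * (child k e i' + 1) := by nlinarith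
        have h5 := lt_of_mul_lt_mul_left h3 hd.le
        have h6 := lt_of_mul_lt_mul_left h4 hd.le
        omega
      refine ⟨Finset.univ.biUnion G, ?_, ?_, ?_⟩
      · intro f hf
        rw [Finset.mem_biUnion] at hf
        obtain ⟨e, _, hf⟩ := hf
        intro i'
        have h1 := hG1 e f hf i'
        have hd : (0:ℤ) < 2 ^ d := by positivity
        have he : (0:ℤ) ≤ ((e i' : ℕ) : ℤ) := by positivity
        have he' : ((e i' : ℕ) : ℤ) ≤ 1 := by
          have := (e i').2; omega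
        simp only [child] at h1
        rw [pow_succ]
        constructor <;> nlinarith
      · rw [Finset.card_biUnion hdisj, hc, min_eq_right h]
        push_cast
        have h1 : ∑ e : Fin n → Fin 2, (2:ℝ) ^ (d * n) *
            (1 - cont K s (d + i) (j + 1) (child k e) / sd s (j + 1)) ≤ ∑ e, ((G e).card : ℝ) :=
          Finset.sum_le_sum fun e _ => hG2 e
        refine le_trans ?_ h1
        rw [← Finset.mul_sum, Finset.sum_sub_distrib, ← Finset.sum_div, ← hS]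
        have hcard : ∑ _e : Fin n → Fin 2, (1:ℝ) = 2 ^ n := by simp
        rw [hcard]
        have e2 : S / sd s (j + 1) = (2:ℝ) ^ s * (S / sd s j) := by
          rw [sd_succ, Real.rpow_neg (by norm_num)]
          have := (sd_pos s j).ne'
          field_simp
        rw [e2]
        have h2 : (2:ℝ) ^ s ≤ 2 ^ n := by
          rw [← Real.rpow_natCast]
          exact Real.rpow_le_rpow_of_exponent_le (by norm_num) hs
        have hS0 : 0 ≤ S := Finset.sum_nonneg fun e _ => cont_nonneg _ _ _ _ _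
        have h3 : 0 ≤ S / sd s j := div_nonneg hS0 (sd_pos _ _).le
        have h4 : (2:ℝ) ^ ((d + 1) * n) = 2 ^ (d * n) * 2 ^ n := by
          rw [← pow_add]; congr 1; ring
        rw [h4, mul_assoc]
        apply mul_le_mul_of_nonneg_left _ (by positivity)
        nlinarith
      · rw [Finset.sum_biUnion (fun e he e' he' hne => hdisj e he e' he' hne), hc, min_eq_right h, hS]
        apply Finset.sum_le_sum
        intro e _
        have := hG3 e
        have e3 : j + (d + 1) = j + 1 + d := by ring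
        rw [e3]
        exact this

lemma good_desc (K : Set (Sp n)) {s : ℝ} (hs : s ≤ n) (d i j : ℕ) (k : Fin n → ℤ)
    (hl : cont K s (d + i) j k ≤ 1/2 * sd s j) :
    ∃ f, IsDesc d k f ∧ cont K s i (j + d) f ≤ ((2:ℝ) ^ (d * n))⁻¹ * sd s j := by
  obtain ⟨G, hG1, hG2, hG3⟩ := good_set K hs d i j k
  by_contra hcon
  push Not at hcon
  have h1 : ∑ _f ∈ G, ((2:ℝ) ^ (d * n))⁻¹ * sd s j ≤ ∑ f ∈ G, cont K s i (j + d) f :=
    Finset.sum_le_sum fun f hf => (hcon f (hG1 f hf)).le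
  rw [Finset.sum_const, nsmul_eq_mul] at h1
  have hsd := sd_pos s j
  have h2 : cont K s (d + i) j k / sd s j ≤ 1/2 := by
    rw [div_le_iff₀ hsd]; exact hl
  have h3 : (2:ℝ) ^ (d * n) * (1/2) ≤ G.card := by
    refine le_trans ?_ hG2
    apply mul_le_mul_of_nonneg_left _ (by positivity)
    linarith
  have h4 : (1/2) * sd s j ≤ (G.card : ℝ) * (((2:ℝ) ^ (d * n))⁻¹ * sd s j) := by
    have h5 : (1/2:ℝ) ≤ G.card * ((2:ℝ) ^ (d * n))⁻¹ := by
      rw [← div_eq_mul_inv, le_div_iff₀ (by positivity)]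
      linarith
    calc (1/2) * sd s j ≤ (G.card * ((2:ℝ) ^ (d * n))⁻¹) * sd s j :=
          mul_le_mul_of_nonneg_right h5 hsd.le
      _ = _ := by ring
  -- equality everywhere; use strictness
  have hne : G.Nonempty := by
    rw [← Finset.card_pos]
    have : (0:ℝ) < G.card := lt_of_lt_of_le (by positivity) h3
    exact_mod_cast this
  have h6 : ∑ _f ∈ G, ((2:ℝ) ^ (d * n))⁻¹ * sd s j < ∑ f ∈ G, cont K s i (j + d) f :=
    Finset.sum_lt_sum_of_nonempty hne fun f hf => hcon f (hG1 f hf)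
  rw [Finset.sum_const, nsmul_eq_mul] at h6
  linarith


/-- profile of the mean-zero block -/
noncomputable def prof (b g : Sp n → ℝ) (Mb : ℝ) (d' : ℕ) (e m : Fin n → ℤ) : Sp n → ℝ :=
  dil 2 (kv e) b - (Mb * 2 ^ (d' * n)) • dil (2 ^ (d' + 1)) (kv m) g

lemma Cc.prof {b g : Sp n → ℝ} (hb : Cc b) (hg : Cc g) (Mb : ℝ) (d' : ℕ) (e m : Fin n → ℤ) :
    Cc (Bhc.prof b g Mb d' e m) :=
  (hb.dil two_ne_zero _).sub ((hg.dil (by positivity) _).smul _)

lemma VM.prof {b g : Sp n → ℝ} (hb : Cc b) (hg : Cc g) (hg1 : ∫ x, g x = 1) (d' : ℕ)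
    (e m : Fin n → ℤ) : VM 1 (Bhc.prof b g (∫ x, b x) d' e m) := by
  intro k hk L
  have hk0 : k = 0 := by omega
  subst hk0
  have h1 : ∀ x : Sp n, L (fun _ => x) = L (fun _ => 0) := by
    intro x
    congr 1
    funext i
    exact i.elim0
  simp_rw [h1]
  rw [integral_const_mul]
  have h2 : ∫ x, Bhc.prof b g (∫ x, b x) d' e m x = 0 := by
    have e1 : ∀ x, Bhc.prof b g (∫ x, b x) d' e m x =
      dil 2 (kv e) b x - ((∫ x, b x) * 2 ^ (d' * n)) * dil (2 ^ (d' + 1)) (kv m) g x := fun x => rfl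
    simp_rw [e1]
    rw [integral_sub (hb.dil two_ne_zero _).integrable
      ((hg.dil (by positivity) _).integrable.const_mul _), integral_const_mul]
    have e2 : ∫ x, dil 2 (kv e) b x = ((2:ℝ) ^ n)⁻¹ * ∫ x, b x := by
      have := integral_dil b (c := 2) (by norm_num) (kv e)
      simpa [dil] using this
    have e3 : ∫ x, dil (2 ^ (d' + 1)) (kv m) g x = (((2:ℝ) ^ (d' + 1)) ^ n)⁻¹ := by
      have := integral_dil g (c := 2 ^ (d' + 1)) (by positivity) (kv m)
      rw [hg1] at this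
      simpa [dil] using this
    rw [e2, e3, ← pow_mul]
    have e4 : (2:ℝ) ^ ((d' + 1) * n) = 2 ^ (d' * n) * 2 ^ n := by
      rw [← pow_add]; congr 1; ring
    rw [e4]
    field_simp
    ring
  rw [h2, mul_zero]

lemma dil_prof {b g : Sp n → ℝ} (Mb : ℝ) (d' j : ℕ) (k e m : Fin n → ℤ) :
    dil (2 ^ j) (kv k) (prof b g Mb d' e m) =
      dil (2 ^ (j + 1)) (kv (fun i => 2 * k i + e i)) b -
        (Mb * 2 ^ (d' * n)) • dil (2 ^ (j + (d' + 1))) (kv (fun i => 2 ^ (d' + 1) * k i + m i)) g := by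
  funext x
  simp only [dil, prof, Pi.sub_apply, Pi.smul_apply, smul_eq_mul]
  have h1 : (2:ℝ) • ((2:ℝ) ^ j • x - kv k) - kv e =
      (2:ℝ) ^ (j + 1) • x - kv (fun i => 2 * k i + e i) := by
    ext i
    simp only [PiLp.sub_apply, PiLp.smul_apply, smul_eq_mul, kv_apply, pow_succ]
    push_cast
    ring
  have h2 : (2:ℝ) ^ (d' + 1) • ((2:ℝ) ^ j • x - kv k) - kv m =
      (2:ℝ) ^ (j + (d' + 1)) • x - kv (fun i => 2 ^ (d' + 1) * k i + m i) := by
    ext i
    simp only [PiLp.sub_apply, PiLp.smul_apply, smul_eq_mul, kv_apply, pow_add]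
    push_cast
    ring
  rw [h1, h2]

/-- uniform atom constant for the profiles of depth at most `D` -/
lemma prof_const {s : ℝ} {c : (Sp n → ℝ) → ℝ≥0∞} (hA : AtomB s c 1)
    {b g : Sp n → ℝ} (hb : Cc b) (hg : Cc g) (hg1 : ∫ x, g x = 1) (D : ℕ) :
    ∃ C : ℝ, 0 ≤ C ∧ ∀ d' ≤ D, ∀ (e : Fin n → Fin 2) (m : Fin n → ℤ),
      (∀ i, 0 ≤ m i ∧ m i < 2 ^ (d' + 1)) → ∀ (j : ℕ) (z : Sp n),
      c (dil (2 ^ j) z (prof b g (∫ x, b x) d' (fun i => ((e i : ℕ) : ℤ)) m)) ≤
        ENNReal.ofReal (C * sd s j) := by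
  classical
  have key : ∀ (d' : ℕ) (e : Fin n → Fin 2) (m : Fin n → ℤ),
      ∃ C : ℝ, 0 ≤ C ∧ ∀ (j : ℕ) (z : Sp n),
      c (dil (2 ^ j) z (prof b g (∫ x, b x) d' (fun i => ((e i : ℕ) : ℤ)) m)) ≤
        ENNReal.ofReal (C * sd s j) := fun d' e m =>
    hA _ (hb.prof hg _ _ _ _) (VM.prof hb hg hg1 _ _ _)
  choose C hC0 hC using key
  set T : Finset (Fin n → ℤ) := Fintype.piFinset (fun _ : Fin n => Finset.Ico (0:ℤ) (2 ^ (D + 1))) with hT
  refine ⟨∑ d' ∈ Finset.range (D + 1), ∑ e : Fin n → Fin 2, ∑ m ∈ T, C d' e m,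
    Finset.sum_nonneg fun _ _ => Finset.sum_nonneg fun _ _ => Finset.sum_nonneg fun _ _ => hC0 _ _ _,
    ?_⟩
  intro d' hd' e m hm j z
  have hmT : m ∈ T := by
    rw [hT, Fintype.mem_piFinset]
    intro i
    rw [Finset.mem_Ico]
    have h1 := hm i
    have h2 : (2:ℤ) ^ (d' + 1) ≤ 2 ^ (D + 1) := pow_le_pow_right₀ (by norm_num) (by omega)
    exact ⟨h1.1, lt_of_lt_of_le h1.2 h2⟩
  refine (hC d' e m j z).trans (ENNReal.ofReal_le_ofReal ?_)
  apply mul_le_mul_of_nonneg_right _ (sd_pos _ _).le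
  calc C d' e m ≤ ∑ m ∈ T, C d' e m :=
        Finset.single_le_sum (f := fun m => C d' e m) (fun _ _ => hC0 _ _ _) hmT
    _ ≤ ∑ e : Fin n → Fin 2, ∑ m ∈ T, C d' e m :=
        Finset.single_le_sum (f := fun e => ∑ m ∈ T, C d' e m)
          (fun _ _ => Finset.sum_nonneg fun _ _ => hC0 _ _ _) (Finset.mem_univ e)
    _ ≤ _ :=
        Finset.single_le_sum (f := fun d' => ∑ e : Fin n → Fin 2, ∑ m ∈ T, C d' e m)
          (fun _ _ => Finset.sum_nonneg fun _ _ => Finset.sum_nonneg fun _ _ => hC0 _ _ _)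
          (Finset.mem_range.2 (by omega))

/-- what we construct for a piece `Q` of `K` -/
def Good (K Q : Set (Sp n)) (ρ : ℝ) (c : (Sp n → ℝ) → ℝ≥0∞) (B : ℝ) : Prop :=
  ∃ u, Cc u ∧ (∀ x ∈ K, 0 ≤ u x) ∧ (∀ x ∈ K ∩ Q, 1 ≤ u x) ∧
    (∀ x, u x ≠ 0 → ∃ y ∈ K, ‖x - y‖ ≤ ρ) ∧ c u ≤ ENNReal.ofReal B

lemma Good.empty {K Q : Set (Sp n)} (h : ¬ (K ∩ Q).Nonempty) (ρ : ℝ) {p : ℝ}
    {c : (Sp n → ℝ) → ℝ≥0∞} (hc : IsCost n p c) (B : ℝ) : Good K Q ρ c B := by
  refine ⟨0, Cc.zero, fun _ _ => le_rfl, fun x hx => absurd ⟨x, hx⟩ h, fun x hx => absurd rfl hx, ?_⟩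
  rw [hc.zero]
  exact zero_le

lemma Good.mono {K Q : Set (Sp n)} {ρ : ℝ} {c : (Sp n → ℝ) → ℝ≥0∞} {B B' : ℝ}
    (h : Good K Q ρ c B) (hB : B ≤ B') : Good K Q ρ c B' := by
  obtain ⟨u, h1, h2, h3, h4, h5⟩ := h
  exact ⟨u, h1, h2, h3, h4, h5.trans (ENNReal.ofReal_le_ofReal hB)⟩

/-- summing over the children -/
lemma Good.children {K : Set (Sp n)} {ρ p : ℝ} {c : (Sp n → ℝ) → ℝ≥0∞} (hc : IsCost n p c)
    {j : ℕ} {k : Fin n → ℤ} {B : (Fin n → Fin 2) → ℝ} (hB : ∀ e, 0 ≤ B e)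
    (h : ∀ e, Good K (cube (j + 1) (child k e)) ρ c (B e)) :
    Good K (cube j k) ρ c (∑ e, B e) := by
  choose u h1 h2 h3 h4 h5 using h
  refine ⟨∑ e, u e, Cc.sum fun e _ => h1 e, ?_, ?_, ?_, ?_⟩
  · intro x hx
    rw [Finset.sum_apply]
    exact Finset.sum_nonneg fun e _ => h2 e x hx
  · rintro x ⟨hx, hxQ⟩
    obtain ⟨e, he⟩ := exists_mem_child hxQ
    rw [Finset.sum_apply]
    exact (h3 e x ⟨hx, he⟩).trans
      (Finset.single_le_sum (f := fun e => u e x) (fun e _ => h2 e x hx) (Finset.mem_univ e))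
  · intro x hx
    rw [Finset.sum_apply] at hx
    obtain ⟨e, _, he⟩ := Finset.exists_ne_zero_of_sum_ne_zero hx
    exact h4 e x he
  · refine (hc.sum _ _ fun e _ => h1 e).trans ?_
    rw [ENNReal.ofReal_sum_of_nonneg fun e _ => hB e]
    exact Finset.sum_le_sum fun e _ => h5 e

lemma depth_choice {p s A : ℝ} (hn : 0 < n) (hp1 : p < 1) (hsn : s < n) (hA : 0 ≤ A) :
    ∃ D' : ℕ, (A * 2 ^ (D' * n)) ^ p * ((2:ℝ) ^ ((D' + 1) * n))⁻¹ ≤
      1/4 * (2:ℝ) ^ (-s) ∧ ((2:ℝ) ^ ((D' + 1) * n))⁻¹ ≤ 1/2 * (2:ℝ) ^ (-((D' + 1 : ℕ) : ℝ) * s) := by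
  have hn' : (0:ℝ) < n := by exact_mod_cast hn
  set q1 : ℝ := (2:ℝ) ^ (-(n * (1 - p)) : ℝ) with hq1
  set q2 : ℝ := (2:ℝ) ^ (s - n : ℝ) with hq2
  have hq10 : 0 ≤ q1 := (Real.rpow_pos_of_pos (by norm_num) _).le
  have hq20 : 0 ≤ q2 := (Real.rpow_pos_of_pos (by norm_num) _).le
  have hq11 : q1 < 1 := Real.rpow_lt_one_of_one_lt_of_neg (by norm_num) (by nlinarith)
  have hq21 : q2 < 1 := Real.rpow_lt_one_of_one_lt_of_neg (by norm_num) (by linarith)
  have h1 : Filter.Tendsto (fun D' : ℕ => A ^ p * ((2:ℝ) ^ n)⁻¹ * q1 ^ D') Filter.atTop (nhds 0) := by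
    have := (tendsto_pow_atTop_nhds_zero_of_lt_one hq10 hq11).const_mul (A ^ p * ((2:ℝ) ^ n)⁻¹)
    simpa using this
  have h2 : Filter.Tendsto (fun D' : ℕ => q2 ^ (D' + 1)) Filter.atTop (nhds 0) :=
    (tendsto_pow_atTop_nhds_zero_of_lt_one hq20 hq21).comp (Filter.tendsto_add_atTop_nat 1)
  have h3 := h1.eventually_le_const (show (0:ℝ) < 1/4 * (2:ℝ) ^ (-s) by positivity)
  have h4 := h2.eventually_le_const (show (0:ℝ) < 1/2 by norm_num)
  obtain ⟨D', h5, h6⟩ := (h3.and h4).exists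
  refine ⟨D', ?_, ?_⟩
  · refine le_trans (le_of_eq ?_) h5
    rw [Real.mul_rpow hA (by positivity), hq1, ← Real.rpow_natCast 2 (D' * n), ← Real.rpow_mul (by norm_num),
      ← Real.rpow_natCast 2 ((D' + 1) * n), ← Real.rpow_neg (by norm_num), mul_assoc, mul_assoc,
      ← Real.rpow_add (by norm_num), ← Real.rpow_natCast 2 n, ← Real.rpow_neg (by norm_num),
      ← Real.rpow_natCast, ← Real.rpow_mul (by norm_num), ← Real.rpow_add (by norm_num)]
    congr 2
    push_cast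
    ring
  · have e : ((2:ℝ) ^ ((D' + 1) * n))⁻¹ = q2 ^ (D' + 1) * (2:ℝ) ^ (-((D' + 1 : ℕ) : ℝ) * s) := by
      rw [hq2, ← Real.rpow_natCast 2 ((D' + 1) * n), ← Real.rpow_neg (by norm_num),
        ← Real.rpow_natCast (_ ^ _), ← Real.rpow_mul (by norm_num), ← Real.rpow_add (by norm_num)]
      congr 1
      push_cast
      ring
    rw [e]
    exact mul_le_mul_of_nonneg_right h6 (Real.rpow_nonneg (by norm_num) _)

/-- The recursive construction with mean-zero atoms. -/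
theorem geomB {p s : ℝ} (hn : 0 < n) (hp0 : 0 < p) (hp1 : p < 1) (hsn : s < n)
    {c : (Sp n → ℝ) → ℝ≥0∞} (hc : IsCost n p c) (hA : AtomB s c 1) (K : Set (Sp n)) :
    ∃ Cs : ℝ, 0 ≤ Cs ∧ ∀ i j k, cont K s i j k ≤ 1/2 * sd s j →
      Good K (cube j k) (2 * n + 3) c (Cs * cont K s i j k) := by
  classical
  obtain ⟨b, hb, hb0, hb1, hbs⟩ := exists_bump n
  obtain ⟨g, G, hg, hg0, hg1, hgG, hG0, hgs⟩ := exists_small_bump n
  set Mb : ℝ := ∫ x, b x with hMb
  have hMb0 : 0 ≤ Mb := integral_nonneg hb0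
  -- choose the depth `D = D' + 1`
  obtain ⟨D', hD1, hD2⟩ := depth_choice (n := n) (p := p) (s := s) (A := Mb * G) hn hp1 hsn (by positivity)
  obtain ⟨CD, hCD0, hCD⟩ := prof_const hA hb hg hg1 D'
  set Cs : ℝ := 4 * (2:ℝ) ^ s * CD with hCs
  have h2s : (0:ℝ) < (2:ℝ) ^ s := Real.rpow_pos_of_pos (by norm_num) _
  have h2s' : (2:ℝ) ^ s * (2:ℝ) ^ (-s) = 1 := by
    rw [← Real.rpow_add (by norm_num)]; simp
  have hCs0 : 0 ≤ Cs := by positivity
  refine ⟨Cs, hCs0, fun i => ?_⟩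
  induction i using Nat.strong_induction_on with
  | _ i ih =>
  intro j k hl
  have hsd := sd_pos s j
  by_cases hne : (K ∩ cube j k).Nonempty
  swap
  · exact Good.empty hne _ hc _
  rcases Nat.eq_zero_or_pos i with hi | hi
  · subst hi
    exfalso
    have : cont K s 0 j k = sd s j := by unfold cont; rw [if_pos hne]
    rw [this] at hl
    linarith
  obtain ⟨i, rfl⟩ := Nat.exists_eq_succ_of_ne_zero hi.ne'
  simp only [Nat.succ_eq_add_one] at hl ih ⊢
  set S : ℝ := ∑ e : Fin n → Fin 2, cont K s i (j + 1) (child k e) with hS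
  have hcdef : cont K s (i + 1) j k = min (sd s j) S := by rw [cont]
  have hcS : cont K s (i + 1) j k = S := by
    rcases le_total (sd s j) S with h | h
    · rw [hcdef, min_eq_left h] at hl; linarith
    · rw [hcdef, min_eq_right h]
  rw [hcS, hS, Finset.mul_sum]
  apply Good.children hc (fun e => mul_nonneg hCs0 (cont_nonneg _ _ _ _ _))
  intro e
  by_cases hR : cont K s i (j + 1) (child k e) ≤ 1/2 * sd s (j + 1)
  · exact ih i (Nat.lt_succ_self i) (j + 1) (child k e) hR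
  push Not at hR
  -- the heavy child
  set d' : ℕ := min D' i with hd'
  have hd'D : d' ≤ D' := min_le_left _ _
  have hd'i : d' ≤ i := min_le_right _ _
  have hi1 : (d' + 1) + (i - d') = i + 1 := by omega
  obtain ⟨f, hf1, hf2⟩ := good_desc K hsn.le (d' + 1) (i - d') j k (by rw [hi1]; exact hl)
  set H : ℝ := Mb * 2 ^ (d' * n) * G with hH
  have hH0 : 0 ≤ H := by positivity
  -- the correction on the good descendant
  obtain ⟨BF, hBF0, hBF1, hGF⟩ : ∃ BF : ℝ, 0 ≤ BF ∧ H ^ p * BF ≤ Cs * (1/4 * (2:ℝ) ^ (-s)) * sd s j ∧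
      Good K (cube (j + (d' + 1)) f) (2 * n + 3) c BF := by
    rcases le_or_gt D' i with hDi | hDi
    · have hdD : d' = D' := by rw [hd']; exact min_eq_left hDi
      refine ⟨Cs * cont K s (i - d') (j + (d' + 1)) f, mul_nonneg hCs0 (cont_nonneg _ _ _ _ _), ?_, ?_⟩
      · have h1 : H ^ p * (Cs * cont K s (i - d') (j + (d' + 1)) f) ≤
            H ^ p * (Cs * (((2:ℝ) ^ ((d' + 1) * n))⁻¹ * sd s j)) := by gcongr
        refine h1.trans ?_
        have h2 : H ^ p * ((2:ℝ) ^ ((d' + 1) * n))⁻¹ ≤ 1/4 * (2:ℝ) ^ (-s) := by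
          have e1 : H = Mb * G * 2 ^ (d' * n) := by rw [hH]; ring
          rw [e1, hdD]
          exact hD1
        calc H ^ p * (Cs * (((2:ℝ) ^ ((d' + 1) * n))⁻¹ * sd s j))
            = Cs * (H ^ p * ((2:ℝ) ^ ((d' + 1) * n))⁻¹) * sd s j := by ring
          _ ≤ _ := by gcongr
      · apply ih (i - d') (by omega)
        refine hf2.trans ?_
        rw [hdD]
        have h3 := mul_le_mul_of_nonneg_right hD2 hsd.le
        refine h3.trans (le_of_eq ?_)
        have h4 : sd s (j + (D' + 1)) = sd s (D' + 1) * sd s j := by rw [add_comm, sd_add_nat]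
        rw [h4]
        unfold sd
        ring
    · have hdi : d' = i := by rw [hd']; exact min_eq_right hDi.le
      refine ⟨0, le_rfl, by rw [mul_zero]; positivity, ?_⟩
      apply Good.empty _ _ hc
      intro hneF
      have h1 : cont K s (i - d') (j + (d' + 1)) f = sd s (j + (d' + 1)) := by
        rw [hdi, Nat.sub_self]
        unfold cont
        rw [hdi] at hneF
        rw [if_pos hneF]
      rw [h1] at hf2
      have h4 : sd s (j + (d' + 1)) = sd s (d' + 1) * sd s j := by rw [add_comm, sd_add_nat]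
      rw [h4] at hf2
      have h5 : ((2:ℝ) ^ ((d' + 1) * n))⁻¹ < sd s (d' + 1) := by
        unfold sd
        rw [← Real.rpow_natCast, ← Real.rpow_neg (by norm_num)]
        apply Real.rpow_lt_rpow_of_exponent_lt (by norm_num)
        push_cast
        nlinarith [Nat.cast_nonneg (α := ℝ) d']
      nlinarith
  obtain ⟨uF, hu1, hu2, hu3, hu4, hu5⟩ := hGF
  -- the block
  set m : Fin n → ℤ := fun i => f i - 2 ^ (d' + 1) * k i with hm
  have hm1 : ∀ i, 0 ≤ m i ∧ m i < 2 ^ (d' + 1) := by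
    intro i
    have := hf1 i
    simp only [hm]
    constructor <;> linarith [this.1, this.2]
  set a : Sp n → ℝ := dil (2 ^ j) (kv k) (prof b g Mb d' (fun i => ((e i : ℕ) : ℤ)) m) with ha
  have hacc : Cc a := (hb.prof hg _ _ _ _).dil (by positivity) _
  have haeq : ∀ x, a x = b ((2:ℝ) ^ (j + 1) • x - kv (child k e)) -
      (Mb * 2 ^ (d' * n)) * g ((2:ℝ) ^ (j + (d' + 1)) • x - kv f) := by
    intro x
    rw [ha, dil_prof]
    have e1 : (fun i => 2 ^ (d' + 1) * k i + m i) = f := by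
      funext i; simp [hm]
    rw [e1]
    rfl
  have hcube : ∀ x, g ((2:ℝ) ^ (j + (d' + 1)) • x - kv f) ≠ 0 → x ∈ cube (j + (d' + 1)) f := by
    intro x hx
    rw [mem_cube']
    intro i
    have := hgs _ hx i
    simp only [PiLp.sub_apply, PiLp.smul_apply, smul_eq_mul, kv_apply] at this
    constructor <;> linarith [this.1, this.2]
  have hRne : (K ∩ cube (j + 1) (child k e)).Nonempty := by
    by_contra hcon
    rw [cont_eq_zero_of_empty _ _ _ _ _ hcon] at hR
    have := sd_pos s (j + 1)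
    linarith
  -- the two pointwise estimates
  have hpt : ∀ x ∈ K, b ((2:ℝ) ^ (j + 1) • x - kv (child k e)) ≤ (a + H • uF) x := by
    intro x hx
    show _ ≤ a x + H * uF x
    rw [haeq]
    by_cases hgx : g ((2:ℝ) ^ (j + (d' + 1)) • x - kv f) = 0
    · rw [hgx]
      have := mul_nonneg hH0 (hu2 x hx)
      linarith
    · have h1 := hu3 x ⟨hx, hcube x hgx⟩
      have h2 := hgG ((2:ℝ) ^ (j + (d' + 1)) • x - kv f)
      have h3 : (Mb * 2 ^ (d' * n)) * g ((2:ℝ) ^ (j + (d' + 1)) • x - kv f) ≤ H := by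
        rw [hH]
        exact mul_le_mul_of_nonneg_left h2 (by positivity)
      nlinarith
  refine ⟨a + H • uF, hacc.add (hu1.smul H), ?_, ?_, ?_, ?_⟩
  · intro x hx
    exact (hb0 _).trans (hpt x hx)
  · rintro x ⟨hx, hxR⟩
    have h1 := hpt x hx
    rw [hb1 _ (norm_scaled_le hxR)] at h1
    exact h1
  · intro x hx
    by_cases huF : uF x = 0
    · have hax : a x ≠ 0 := by
        intro h0
        apply hx
        show a x + H * uF x = 0
        rw [h0, huF]; ring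
      rw [haeq] at hax
      obtain ⟨y, hyK, hyR⟩ := hRne
      refine ⟨y, hyK, ?_⟩
      by_cases hbx : b ((2:ℝ) ^ (j + 1) • x - kv (child k e)) = 0
      · have hgx : g ((2:ℝ) ^ (j + (d' + 1)) • x - kv f) ≠ 0 := by
          intro h0
          apply hax
          rw [hbx, h0]; ring
        have h1 := norm_scaled_le (hf1.mem (hcube x hgx))
        have h2 := dist_scaled (cell_child hyR) h1
        linarith
      · have h2 := dist_scaled hyR (hbs _ hbx)
        linarith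
    · exact hu4 x huF
  · have h1 : c (a + H • uF) ≤ ENNReal.ofReal (CD * sd s j) +
        ENNReal.ofReal (|H| ^ p) * ENNReal.ofReal BF := by
      refine (hc.add _ _ hacc (hu1.smul H)).trans (add_le_add ?_ ?_)
      · exact hCD d' hd'D e m hm1 j (kv k)
      · exact (hc.smul H _ hu1).trans (mul_le_mul_right hu5 _)
    refine h1.trans ?_
    rw [abs_of_nonneg hH0, ← ENNReal.ofReal_mul (by positivity), ← ENNReal.ofReal_add
      (by positivity) (by positivity)]
    apply ENNReal.ofReal_le_ofReal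
    have h2 : CD = Cs * (1/4 * (2:ℝ) ^ (-s)) := by
      rw [hCs]
      calc CD = CD * 1 := by ring
        _ = CD * ((2:ℝ) ^ s * (2:ℝ) ^ (-s)) := by rw [h2s']
        _ = _ := by ring
    calc CD * sd s j + H ^ p * BF ≤ Cs * (1/4 * (2:ℝ) ^ (-s)) * sd s j +
          Cs * (1/4 * (2:ℝ) ^ (-s)) * sd s j := add_le_add (le_of_eq (by rw [← h2])) hBF1
      _ = Cs * (1/2 * sd s (j + 1)) := by rw [sd_succ]; ring
      _ ≤ _ := mul_le_mul_of_nonneg_left hR.le hCs0

end Pool.Agent.Bhc
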