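import Mathlib
import Pool.Agent.Lib_helper48.BhcGeomB

/-!
# Economical functions on dyadic cubes, supercritical case

Helper file for the hand-in on `MP_9b3711_an`.
-/

open MeasureTheory Set
open scoped ENNReal NNReal ContDiff

namespace Pool.Agent.Bhc

variable {n : ℕ}

/-! ### volume of the cubes -/

lemma measurableSet_cube (j : ℕ) (k : Fin n → ℤ) : MeasurableSet (cube j k) := by
  have : cube j k = ⋂ i : Fin n, {x : Sp n | (k i : ℝ) ≤ (2:ℝ) ^ j * x i ∧ (2:ℝ) ^ j * x i < k i + 1} := by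
    ext x
    rw [mem_cube']
    simp
  rw [this]
  apply MeasurableSet.iInter
  intro i
  have hm : Measurable fun x : Sp n => (2:ℝ) ^ j * x i := by fun_prop
  exact (measurableSet_le measurable_const hm).inter (measurableSet_lt hm measurable_const)

lemma volume_cube (j : ℕ) (k : Fin n → ℤ) : volume (cube j k) = ENNReal.ofReal (sd n j) := by
  have h2 : (0:ℝ) < 2 ^ j := by positivity
  have e : cube j k = (@WithLp.ofLp 2 (Fin n → ℝ)) ⁻¹'
      (Set.pi Set.univ fun i => Set.Ico ((k i : ℝ) / 2 ^ j) ((k i + 1 : ℝ) / 2 ^ j)) := by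
    ext x
    rw [mem_cube']
    simp only [mem_preimage, Set.mem_pi, mem_univ, true_imp_iff, mem_Ico]
    apply forall_congr'
    intro i
    rw [div_le_iff₀ h2, lt_div_iff₀ h2]
    rw [mul_comm]
  rw [e, (PiLp.volume_preserving_ofLp (Fin n)).measure_preimage
    (MeasurableSet.univ_pi fun i => measurableSet_Ico).nullMeasurableSet, volume_pi_pi]
  simp only [Real.volume_Ico]
  have e2 : ∀ i : Fin n, ((k i + 1 : ℝ) / 2 ^ j) - ((k i : ℝ) / 2 ^ j) = (2:ℝ) ^ (-(j:ℝ)) := by
    intro i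
    rw [Real.rpow_neg (by norm_num), Real.rpow_natCast]
    ring
  simp_rw [e2]
  rw [Finset.prod_const, Finset.card_univ, Fintype.card_fin, ← ENNReal.ofReal_pow (by positivity)]
  congr 1
  rw [← Real.rpow_natCast, ← Real.rpow_mul (by norm_num)]
  rfl

lemma volume_inter_le {K : Set (Sp n)} {s : ℝ} (hs : s ≤ n) (i j : ℕ) (k : Fin n → ℤ) :
    volume (K ∩ cube j k) ≤ ENNReal.ofReal (cont K s i j k) := by
  have hle : ∀ j, sd (n:ℝ) j ≤ sd s j := by
    intro j
    unfold sd
    apply Real.rpow_le_rpow_of_exponent_le (by norm_num)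
    nlinarith [Nat.cast_nonneg (α := ℝ) j]
  have h0 : ∀ j k, volume (K ∩ cube j k) ≤ ENNReal.ofReal (sd s j) := fun j k =>
    (measure_mono inter_subset_right).trans ((volume_cube j k).le.trans (ENNReal.ofReal_le_ofReal (hle j)))
  induction i generalizing j k with
  | zero =>
    by_cases h : (K ∩ cube j k).Nonempty
    · have : cont K s 0 j k = sd s j := by unfold cont; rw [if_pos h]
      rw [this]; exact h0 j k
    · rw [not_nonempty_iff_eq_empty.1 h]; simp
  | succ i ih =>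
    rw [cont]
    rcases le_total (sd s j) (∑ e : Fin n → Fin 2, cont K s i (j + 1) (child k e)) with h | h
    · rw [min_eq_left h]; exact h0 j k
    · rw [min_eq_right h, ENNReal.ofReal_sum_of_nonneg fun e _ => cont_nonneg _ _ _ _ _]
      have : K ∩ cube j k = ⋃ e : Fin n → Fin 2, K ∩ cube (j + 1) (child k e) := by
        rw [cube_eq_iUnion_child, inter_iUnion]
      rw [this]
      refine (measure_iUnion_le _).trans ?_
      rw [tsum_fintype]
      exact Finset.sum_le_sum fun e _ => ih _ _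

lemma volume_null {K : Set (Sp n)} {s : ℝ} (hs : s ≤ n) (h : DyNull K s) : volume K = 0 := by
  have : K = ⋃ k : Fin n → ℤ, K ∩ cube 0 k := by
    ext x
    simp only [mem_iUnion, mem_inter_iff]
    exact ⟨fun hx => ⟨cell 0 x, hx, self_mem_cube 0 x⟩, fun ⟨k, hx, _⟩ => hx⟩
  rw [this]
  apply measure_iUnion_null
  intro k
  apply le_antisymm _ zero_le
  apply ENNReal.le_of_forall_pos_le_add
  intro ε hε _
  obtain ⟨i, hi⟩ := h k ε (by exact_mod_cast hε)
  rw [zero_add]
  refine (volume_inter_le hs i 0 k).trans ?_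
  rw [← ENNReal.ofReal_coe_nnreal]
  exact ENNReal.ofReal_le_ofReal hi.le

/-- the centres avoiding all dyadic copies of `K` -/
def Zset (K : Set (Sp n)) : Set (Sp n) :=
  {z | ∀ (j : ℕ) (k : Fin n → ℤ), ((2:ℝ) ^ j)⁻¹ • (z + kv k) ∉ K}

lemma dense_Zset {K : Set (Sp n)} (h : volume K = 0) : Dense (Zset K) := by
  apply MeasureTheory.Measure.dense_of_ae (μ := volume)
  rw [ae_all_iff]
  intro j
  rw [ae_all_iff]
  intro k
  rw [ae_iff]
  simp only [not_not]
  have h1 : {z : Sp n | ((2:ℝ) ^ j)⁻¹ • (z + kv k) ∈ K} =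
      (fun z => z + kv k) ⁻¹' ((fun x => ((2:ℝ) ^ j)⁻¹ • x) ⁻¹' K) := rfl
  rw [h1, measure_preimage_add_right, MeasureTheory.Measure.addHaar_preimage_smul _ (by positivity), h,
    mul_zero]

/-! ### quadrature -/

/-- tuples of multilinear forms of degree `< d` -/
abbrev VV (n d : ℕ) := (k : Fin d) → ((Sp n) [×(k:ℕ)]→L[ℝ] ℝ)

lemma exists_quadrature {Z : Set (Sp n)} (hZ : Dense Z) {b : Sp n → ℝ} (hb : Cc b) (d : ℕ) :
    ∃ (t : Finset (Sp n)) (c : Sp n → ℝ), (∀ z ∈ t, z ∈ Z) ∧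
      ∀ k < d, ∀ L : (Sp n) [×k]→L[ℝ] ℝ,
        ∑ z ∈ t, c z * L (fun _ => z) = ∫ x, L (fun _ => x) * b x := by
  classical
  have hfd : ∀ k : ℕ, FiniteDimensional ℝ ((Sp n) [×k]→L[ℝ] ℝ) := by
    intro k
    apply FiniteDimensional.of_injective
      (ContinuousMultilinearMap.toMultilinearMapLinear (R' := ℝ) (A := ℝ) (M₁ := fun _ : Fin k => Sp n) (M₂ := ℝ))
    exact ContinuousMultilinearMap.toMultilinearMap_injective
  have : ∀ k : Fin d, FiniteDimensional ℝ ((Sp n) [×(k:ℕ)]→L[ℝ] ℝ) := fun k => hfd k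
  have hfdV : FiniteDimensional ℝ (VV n d) := inferInstance
  let ev : Sp n → Module.Dual ℝ (VV n d) := fun z =>
    { toFun := fun L => ∑ k, L k (fun _ => z)
      map_add' := by intro L L'; simp [Finset.sum_add_distrib]
      map_smul' := by intro a L; simp [Finset.mul_sum] }
  have hint : ∀ L : VV n d, ∀ k : Fin d, Integrable (fun x => (L k) (fun _ => x) * b x) := fun L k =>
    hb.integrable_mul (continuous_diag _)
  let I : Module.Dual ℝ (VV n d) :=
    { toFun := fun L => ∑ k, ∫ x, (L k) (fun _ => x) * b x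
      map_add' := by
        intro L L'
        rw [← Finset.sum_add_distrib]
        apply Finset.sum_congr rfl
        intro k _
        rw [← integral_add (hint L k) (hint L' k)]
        congr 1
        funext x
        simp [add_mul]
      map_smul' := by
        intro a L
        simp only [RingHom.id_apply, smul_eq_mul, Finset.mul_sum]
        apply Finset.sum_congr rfl
        intro k _
        rw [← integral_const_mul]
        congr 1
        funext x
        simp [mul_assoc] }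
  have hI : I ∈ Submodule.span ℝ (ev '' Z) := by
    rw [← Subspace.dualCoannihilator_dualAnnihilator_eq (W := Submodule.span ℝ (ev '' Z)),
      Submodule.mem_dualAnnihilator]
    intro L hL
    rw [Submodule.mem_dualCoannihilator] at hL
    have h1 : ∀ z ∈ Z, ∑ k, L k (fun _ => z) = 0 := fun z hz =>
      hL (ev z) (Submodule.subset_span ⟨z, hz, rfl⟩)
    have h2 : (fun z : Sp n => ∑ k, L k (fun _ => z)) = fun _ => 0 := by
      apply Continuous.ext_on hZ
      · exact continuous_finsetSum _ fun k _ => continuous_diag _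
      · exact continuous_const
      · intro z hz; exact h1 z hz
    show ∑ k, ∫ x, (L k) (fun _ => x) * b x = 0
    rw [← integral_finsetSum _ fun k _ => hint L k]
    have h3 : ∀ x, ∑ k, (L k) (fun _ => x) * b x = 0 := by
      intro x
      rw [← Finset.sum_mul, congrFun h2 x, zero_mul]
    simp_rw [h3]
    simp
  obtain ⟨t, ht, c, hc⟩ := (Submodule.mem_span_image_iff_exists_fun (R := ℝ) (v := ev)).1 hI
  refine ⟨t, fun z => if h : z ∈ t then c ⟨z, h⟩ else 0, fun z hz => ht hz, fun k hk L => ?_⟩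
  have h1 := congrFun (congrArg DFunLike.coe hc) (Pi.single (⟨k, hk⟩ : Fin d) L)
  have h2 : ∀ z, ev z (Pi.single (⟨k, hk⟩ : Fin d) L) = L (fun _ => z) := by
    intro z
    show ∑ k', (Pi.single (⟨k, hk⟩ : Fin d) L : (k : Fin d) → ((Sp n) [×(k:ℕ)]→L[ℝ] ℝ)) k' (fun _ => z) = _
    rw [Finset.sum_eq_single (⟨k, hk⟩ : Fin d)]
    · rw [Pi.single_eq_same]
    · intro k' _ hk'
      rw [Pi.single_eq_of_ne hk']
      rfl
    · intro h; exact absurd (Finset.mem_univ _) h
  have h3 : I (Pi.single (⟨k, hk⟩ : Fin d) L) = ∫ x, L (fun _ => x) * b x := by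
    show ∑ k', ∫ x, ((Pi.single (⟨k, hk⟩ : Fin d) L : (k : Fin d) → ((Sp n) [×(k:ℕ)]→L[ℝ] ℝ)) k') (fun _ => x) * b x = _
    rw [Finset.sum_eq_single (⟨k, hk⟩ : Fin d)]
    · rw [Pi.single_eq_same]
    · intro k' _ hk'
      rw [Pi.single_eq_of_ne hk']
      simp
    · intro h; exact absurd (Finset.mem_univ _) h
  rw [h3] at h1
  rw [← h1, ← Finset.sum_coe_sort t]
  simp only [LinearMap.coe_sum, Finset.sum_apply, LinearMap.smul_apply, smul_eq_mul, h2]
  apply Finset.sum_congr rfl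
  intro z _
  simp

/-! ### mollifiers with vanishing moments -/

lemma exists_eta (n N : ℕ) : ∃ η : Sp n → ℝ, Cc η ∧ ∫ x, η x = 1 ∧
    ∀ k, 1 ≤ k → k < N → ∀ L : (Sp n) [×k]→L[ℝ] ℝ, ∫ x, L (fun _ => x) * η x = 0 := by
  induction N with
  | zero =>
    obtain ⟨g, _, hg, _, hg1, _⟩ := exists_small_bump n
    exact ⟨g, hg, hg1, fun k _ hk => absurd hk (Nat.not_lt_zero k)⟩
  | succ N ih =>
    rcases Nat.eq_zero_or_pos N with hN | hN
    · subst hN
      obtain ⟨g, _, hg, _, hg1, _⟩ := exists_small_bump n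
      exact ⟨g, hg, hg1, fun k h1 hk => by omega⟩
    · obtain ⟨η, hη, hη1, hηm⟩ := ih
      have hint : ∫ x, stp N η x = 1 - (2 ^ N)⁻¹ := by
        have h1 := moment_stp (k := 0) (d := N)
          (ContinuousMultilinearMap.constOfIsEmpty ℝ (fun _ : Fin 0 => Sp n) (1:ℝ)) hη
        simp only [ContinuousMultilinearMap.constOfIsEmpty_apply, one_mul, hη1, mul_one, add_zero] at h1
        rw [h1, pow_add, mul_inv]
        have : (2:ℝ) ^ n ≠ 0 := by positivity
        field_simp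
      have hpos : (0:ℝ) < 1 - (2 ^ N)⁻¹ := by
        have : ((2:ℝ) ^ N)⁻¹ < 1 := inv_lt_one_of_one_lt₀ (one_lt_pow₀ (by norm_num) hN.ne')
        linarith
      refine ⟨(1 - ((2:ℝ) ^ N)⁻¹)⁻¹ • stp N η, (hη.stp N).smul _, ?_, ?_⟩
      · simp only [Pi.smul_apply, smul_eq_mul]
        rw [integral_const_mul, hint, inv_mul_cancel₀ hpos.ne']
      · intro k h1 hk L
        have e : ∀ x, L (fun _ => x) * ((1 - ((2:ℝ) ^ N)⁻¹)⁻¹ • stp N η) x =
            (1 - ((2:ℝ) ^ N)⁻¹)⁻¹ * (L (fun _ => x) * stp N η x) := by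
          intro x; simp only [Pi.smul_apply, smul_eq_mul]; ring
        simp_rw [e]
        rw [integral_const_mul, moment_stp L hη]
        rcases Nat.lt_succ_iff_lt_or_eq.1 hk with h2 | h2
        · rw [hηm k h1 h2 L]; ring
        · subst h2
          rw [inv_mul_cancel₀ (by positivity)]; ring


/-- moments of the concentrated correction at `z` -/
lemma moment_eta_translate {N k : ℕ} (hk : k < N) {η : Sp n → ℝ} (hη : Cc η) (hη1 : ∫ x, η x = 1)
    (hηm : ∀ k, 1 ≤ k → k < N → ∀ L : (Sp n) [×k]→L[ℝ] ℝ, ∫ x, L (fun _ => x) * η x = 0)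
    (L : (Sp n) [×k]→L[ℝ] ℝ) (z : Sp n) :
    ∫ x, L (fun _ => x) * η (x - z) = L (fun _ => z) := by
  classical
  rw [moment_translate L hη z, Finset.sum_eq_single (∅ : Finset (Fin k))]
  · simp_rw [restr_empty]
    rw [integral_const_mul, hη1, mul_one]
  · intro S _ hS
    have h1 : 1 ≤ S.card := Finset.card_pos.2 (Finset.nonempty_iff_ne_empty.2 hS)
    have h2 : S.card ≤ k := by simpa using Finset.card_le_univ S
    exact hηm _ h1 (by omega) _
  · intro h; exact absurd (Finset.mem_univ _) h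

lemma VM.stp_eta {N : ℕ} {η : Sp n → ℝ} (hη : Cc η)
    (hηm : ∀ k, 1 ≤ k → k < N → ∀ L : (Sp n) [×k]→L[ℝ] ℝ, ∫ x, L (fun _ => x) * η x = 0) :
    VM N (Bhc.stp 0 η) := by
  intro k hk L
  rw [moment_stp L hη]
  rcases Nat.eq_zero_or_pos k with h | h
  · subst h
    rw [inv_mul_cancel₀ (by positivity)]; ring
  · rw [hηm k h hk L, mul_zero]

/-- the concentrated bump `2^{Ln} η(2^L (2^j x - k - z))` -/
noncomputable def conc (η : Sp n → ℝ) (j : ℕ) (a : Sp n) (L : ℕ) : Sp n → ℝ :=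
  ((2:ℝ) ^ (L * n)) • dil (2 ^ (j + L)) ((2:ℝ) ^ L • a) η

lemma Cc.conc {η : Sp n → ℝ} (hη : Cc η) (j : ℕ) (a : Sp n) (L : ℕ) : Cc (Bhc.conc η j a L) :=
  (hη.dil (by positivity) _).smul _

lemma conc_succ (η : Sp n → ℝ) (j : ℕ) (a : Sp n) (L : ℕ) :
    conc η j a (L + 1) = ((2:ℝ) ^ ((L + 1) * n)) •
      dil (2 ^ (j + L + 1)) ((2:ℝ) ^ (L + 1) • a) (stp 0 η) + conc η j a L := by
  unfold conc
  rw [show j + (L + 1) = (j + L) + 1 by ring, dil_stp 0 (j + L) _ η, smul_add]
  congr 1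
  have h1 : (1/2 : ℝ) • ((2:ℝ) ^ (L + 1) • a) = (2:ℝ) ^ L • a := by
    rw [smul_smul]; congr 1; rw [pow_succ]; ring
  rw [h1, smul_smul]
  congr 1
  rw [add_zero, show (L + 1) * n = L * n + n by ring, pow_add]
  field_simp

lemma conc_cost {p s : ℝ} (hs : n * p < s) {c : (Sp n → ℝ) → ℝ≥0∞} (hc : IsCost n p c) {η : Sp n → ℝ}
    (hη : Cc η) {C : ℝ} (hC0 : 0 ≤ C)
    (hC : ∀ (j : ℕ) (z : Sp n), c (dil (2 ^ j) z (stp 0 η)) ≤ ENNReal.ofReal (C * sd s j))
    (j : ℕ) (a : Sp n) (L : ℕ) :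
    c (conc η j a L - conc η j a 0) ≤
      ENNReal.ofReal (C * (1 - (2:ℝ) ^ (n * p - s))⁻¹ * sd s j) := by
  set q : ℝ := (2:ℝ) ^ (n * p - s) with hq
  have hq0 : 0 < q := Real.rpow_pos_of_pos (by norm_num) _
  have hq1 : q < 1 := Real.rpow_lt_one_of_one_lt_of_neg (by norm_num) (by linarith)
  have key : ∀ L, c (conc η j a L - conc η j a 0) ≤
      ENNReal.ofReal (C * (∑ l ∈ Finset.range L, q ^ (l + 1)) * sd s j) := by
    intro L
    induction L with
    | zero => simp [hc.zero]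
    | succ L ih =>
      rw [conc_succ, add_sub_assoc]
      have hcc : Cc (dil (2 ^ (j + L + 1)) ((2:ℝ) ^ (L + 1) • a) (stp 0 η)) :=
        (hη.stp 0).dil (by positivity) _
      refine (hc.add _ _ (hcc.smul _) ((hη.conc _ _ _).sub (hη.conc _ _ _))).trans ?_
      refine (add_le_add ((hc.smul _ _ hcc).trans (mul_le_mul_right (hC _ _) _)) ih).trans ?_
      have hS0 : 0 ≤ ∑ l ∈ Finset.range L, q ^ (l + 1) :=
        Finset.sum_nonneg fun l _ => by positivity
      have hsd := (sd_pos s j).le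
      have hsd' := (sd_pos s (j + L + 1)).le
      rw [← ENNReal.ofReal_mul (by positivity), ← ENNReal.ofReal_add (by positivity) (by positivity)]
      apply ENNReal.ofReal_le_ofReal
      apply le_of_eq
      rw [Finset.sum_range_succ, abs_of_pos (by positivity)]
      have h1 : ((2:ℝ) ^ ((L + 1) * n)) ^ p * sd s (j + L + 1) = q ^ (L + 1) * sd s j := by
        have h2 : sd s (j + L + 1) = sd s (L + 1) * sd s j := by
          rw [← sd_add_nat]; congr 1; ring
        rw [h2, ← mul_assoc]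
        congr 1
        unfold sd
        rw [hq, ← Real.rpow_natCast 2 ((L + 1) * n), ← Real.rpow_mul (by norm_num),
          ← Real.rpow_add (by norm_num), ← Real.rpow_natCast (_ ^ _), ← Real.rpow_mul (by norm_num)]
        congr 1
        push_cast
        ring
      calc ((2:ℝ) ^ ((L + 1) * n)) ^ p * (C * sd s (j + L + 1)) +
            C * (∑ l ∈ Finset.range L, q ^ (l + 1)) * sd s j
          = C * (((2:ℝ) ^ ((L + 1) * n)) ^ p * sd s (j + L + 1)) +
            C * (∑ l ∈ Finset.range L, q ^ (l + 1)) * sd s j := by ring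
        _ = _ := by rw [h1]; ring
  refine (key L).trans (ENNReal.ofReal_le_ofReal ?_)
  have h1 : ∑ l ∈ Finset.range L, q ^ (l + 1) ≤ (1 - q)⁻¹ := by
    calc ∑ l ∈ Finset.range L, q ^ (l + 1) ≤ ∑ l ∈ Finset.range L, q ^ l := by
          apply Finset.sum_le_sum
          intro l _
          exact pow_le_pow_of_le_one hq0.le hq1.le (Nat.le_succ l)
      _ ≤ ∑' l : ℕ, q ^ l := (summable_geometric_of_lt_one hq0.le hq1).sum_le_tsum _
          (fun l _ => by positivity)
      _ = (1 - q)⁻¹ := tsum_geometric_of_lt_one hq0.le hq1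
  have := (sd_pos s j).le
  gcongr

/-- The block construction in the supercritical case. -/
theorem blockA {p s : ℝ} (hs : n * p < s) (K : Set (Sp n)) (hKc : IsClosed K)
    (hK0 : volume K = 0) (d : ℕ) :
    ∃ ρ : ℝ, ∀ c : (Sp n → ℝ) → ℝ≥0∞, IsCost n p c → AtomB s c d →
      ∃ C : ℝ, 0 ≤ C ∧ ∀ j k, (K ∩ cube j k).Nonempty → Good K (cube j k) ρ c (C * sd s j) := by
  classical
  obtain ⟨b, hb, hb0, hb1, hbs⟩ := exists_bump n
  obtain ⟨η, hη, hη1, hηm⟩ := exists_eta n d
  obtain ⟨t, cf, htZ, hq⟩ := exists_quadrature (dense_Zset hK0) hb d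
  obtain ⟨R, hR0, hR⟩ : ∃ R, 0 ≤ R ∧ ∀ x, η x ≠ 0 → ‖x‖ ≤ R := by
    obtain ⟨R, hR⟩ := hη.2.isBounded.subset_closedBall 0
    refine ⟨max R 0, le_max_right _ _, fun x hx => ?_⟩
    have := hR (subset_tsupport η hx)
    rw [mem_closedBall_zero_iff] at this
    exact this.trans (le_max_left _ _)
  set Rt : ℝ := ∑ z ∈ t, ‖z‖ with hRt
  have hRt' : ∀ z ∈ t, ‖z‖ ≤ Rt := fun z hz =>
    Finset.single_le_sum (f := fun z => ‖z‖) (fun _ _ => norm_nonneg _) hz
  set B : ℝ := max ((n:ℝ) + 2) (R + Rt) with hB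
  refine ⟨B + (n + 1), fun c hc hA => ?_⟩
  -- the base profile
  set w0 : Sp n → ℝ := b - ∑ z ∈ t, cf z • (dil 1 z η) with hw0
  have hηz : ∀ z, Cc (dil 1 z η) := fun z => hη.dil one_ne_zero z
  have hw0c : Cc w0 := hb.sub (Cc.sum fun z _ => (hηz z).smul _)
  have hw0v : VM d w0 := by
    intro k hk L
    have e : ∀ x, L (fun _ => x) * w0 x = L (fun _ => x) * b x -
        ∑ z ∈ t, cf z * (L (fun _ => x) * dil 1 z η x) := by
      intro x
      simp only [hw0, Pi.sub_apply, Finset.sum_apply, Pi.smul_apply, smul_eq_mul, mul_sub,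
        Finset.mul_sum]
      congr 1
      apply Finset.sum_congr rfl
      intro z _
      ring
    simp_rw [e]
    have hi : ∀ z ∈ t, Integrable fun x => cf z * (L (fun _ => x) * dil 1 z η x) := fun z _ =>
      ((hηz z).integrable_mul (continuous_diag L)).const_mul _
    rw [integral_sub (hb.integrable_mul (continuous_diag L)) (integrable_finsetSum _ hi),
      integral_finsetSum _ hi, ← hq k hk L, sub_eq_zero]
    apply Finset.sum_congr rfl
    intro z _
    rw [integral_const_mul]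
    congr 1
    have := moment_eta_translate hk hη hη1 hηm L z
    simp only [dil, one_smul]
    exact this.symm
  obtain ⟨C0, hC00, hC0⟩ := hA w0 hw0c hw0v
  obtain ⟨C1, hC10, hC1⟩ := hA (stp 0 η) (hη.stp 0) (VM.stp_eta hη hηm)
  set q : ℝ := (2:ℝ) ^ (n * p - s) with hq
  have hq1 : q < 1 := Real.rpow_lt_one_of_one_lt_of_neg (by norm_num) (by linarith)
  have hq0 : 0 ≤ (1 - q)⁻¹ := inv_nonneg.2 (by linarith)
  set C : ℝ := C0 + ∑ z ∈ t, |cf z| ^ p * (C1 * (1 - q)⁻¹) with hC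
  have hCC : 0 ≤ ∑ z ∈ t, |cf z| ^ p * (C1 * (1 - q)⁻¹) := Finset.sum_nonneg fun z _ => by positivity
  refine ⟨C, add_nonneg hC00 hCC, fun j k hne => ?_⟩
  have h2j : (0:ℝ) < 2 ^ j := by positivity
  -- choice of `L`
  obtain ⟨L, hL⟩ : ∃ L : ℕ, ∀ z ∈ t, ∀ x ∈ K, conc η j (kv k + z) L x = 0 := by
    have hev : ∀ z ∈ t, ∀ᶠ L : ℕ in Filter.atTop, ∀ x ∈ K, conc η j (kv k + z) L x = 0 := by
      intro z hz
      have hzK : ((2:ℝ) ^ j)⁻¹ • (z + kv k) ∉ K := htZ z hz j k
      obtain ⟨δ, hδ0, hδ⟩ := Metric.isOpen_iff.1 hKc.isOpen_compl _ hzK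
      have hlim : Filter.Tendsto (fun L : ℕ => (2:ℝ) ^ L * δ) Filter.atTop Filter.atTop :=
        (tendsto_pow_atTop_atTop_of_one_lt (by norm_num)).atTop_mul_const hδ0
      filter_upwards [hlim.eventually_gt_atTop R] with L hL x hx
      have hd : δ ≤ ‖x - ((2:ℝ) ^ j)⁻¹ • (z + kv k)‖ := by
        by_contra hcon
        push Not at hcon
        have : x ∈ Metric.ball (((2:ℝ) ^ j)⁻¹ • (z + kv k)) δ := by
          rw [mem_ball_iff_norm]; exact hcon
        exact hδ this hx
      have hz0 : η ((2:ℝ) ^ (j + L) • x - (2:ℝ) ^ L • (kv k + z)) = 0 := by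
        by_contra hcon
        have h1 := hR _ hcon
        have h2 : (2:ℝ) ^ (j + L) • x - (2:ℝ) ^ L • (kv k + z) =
            ((2:ℝ) ^ (j + L)) • (x - ((2:ℝ) ^ j)⁻¹ • (z + kv k)) := by
          rw [smul_sub, smul_smul, add_comm (kv k) z]
          congr 2
          rw [pow_add]
          field_simp
        rw [h2, norm_smul, Real.norm_eq_abs, abs_of_pos (by positivity)] at h1
        have h3 : (2:ℝ) ^ L ≤ 2 ^ (j + L) := pow_le_pow_right₀ (by norm_num) (Nat.le_add_left _ _)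
        have h4 : (2:ℝ) ^ L * δ ≤ 2 ^ (j + L) * ‖x - ((2:ℝ) ^ j)⁻¹ • (z + kv k)‖ :=
          mul_le_mul h3 hd hδ0.le (by positivity)
        linarith
      show (2:ℝ) ^ (L * n) * η ((2:ℝ) ^ (j + L) • x - (2:ℝ) ^ L • (kv k + z)) = 0
      rw [hz0, mul_zero]
    exact ((Finset.eventually_all t).2 hev).exists
  set u : Sp n → ℝ := dil (2 ^ j) (kv k) w0 -
    ∑ z ∈ t, cf z • (conc η j (kv k + z) L - conc η j (kv k + z) 0) with hu
  have hcc : ∀ z, Cc (conc η j (kv k + z) L - conc η j (kv k + z) 0) := fun z =>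
    (hη.conc _ _ _).sub (hη.conc _ _ _)
  have hueq : ∀ x, u x = b ((2:ℝ) ^ j • x - kv k) - ∑ z ∈ t, cf z * conc η j (kv k + z) L x := by
    intro x
    simp only [hu, hw0, dil, Pi.sub_apply, Finset.sum_apply, Pi.smul_apply, smul_eq_mul, mul_sub,
      Finset.sum_sub_distrib, one_smul]
    have h1 : ∀ z, conc η j (kv k + z) 0 x = η ((2:ℝ) ^ j • x - kv k - z) := by
      intro z
      simp only [conc, zero_mul, pow_zero, one_smul, add_zero, dil]
      congr 1
      abel
    simp_rw [h1]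
    ring
  have huK : ∀ x ∈ K, u x = b ((2:ℝ) ^ j • x - kv k) := by
    intro x hx
    rw [hueq, Finset.sum_eq_zero, sub_zero]
    intro z hz
    rw [hL z hz x hx, mul_zero]
  refine ⟨u, (hw0c.dil h2j.ne' _).sub (Cc.sum fun z _ => (hcc z).smul _), ?_, ?_, ?_, ?_⟩
  · intro x hx; rw [huK x hx]; exact hb0 _
  · rintro x ⟨hx, hxQ⟩
    rw [huK x hx, hb1 _ (norm_scaled_le hxQ)]
  · intro x hx
    obtain ⟨y, hyK, hyQ⟩ := hne
    refine ⟨y, hyK, dist_scaled hyQ ?_⟩
    rw [hueq] at hx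
    by_cases hbx : b ((2:ℝ) ^ j • x - kv k) = 0
    · rw [hbx, zero_sub, neg_ne_zero] at hx
      obtain ⟨z, hz, hzx⟩ := Finset.exists_ne_zero_of_sum_ne_zero hx
      have h1 : η ((2:ℝ) ^ (j + L) • x - (2:ℝ) ^ L • (kv k + z)) ≠ 0 := by
        intro h0
        apply hzx
        show cf z * ((2:ℝ) ^ (L * n) * η ((2:ℝ) ^ (j + L) • x - (2:ℝ) ^ L • (kv k + z))) = 0
        rw [h0]; ring
      have h2 := hR _ h1
      have h3 : (2:ℝ) ^ (j + L) • x - (2:ℝ) ^ L • (kv k + z) =
          ((2:ℝ) ^ L) • ((2:ℝ) ^ j • x - kv k - z) := by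
        rw [pow_add, mul_comm, mul_smul, ← smul_sub]
        congr 1
        abel
      rw [h3, norm_smul, Real.norm_eq_abs, abs_of_pos (by positivity)] at h2
      have h4 : (1:ℝ) ≤ 2 ^ L := one_le_pow₀ (by norm_num)
      have h5 : ‖(2:ℝ) ^ j • x - kv k - z‖ ≤ R :=
        (le_mul_of_one_le_left (norm_nonneg _) h4).trans h2
      have h6 : ‖(2:ℝ) ^ j • x - kv k‖ ≤ R + Rt := by
        calc ‖(2:ℝ) ^ j • x - kv k‖ = ‖((2:ℝ) ^ j • x - kv k - z) + z‖ := by congr 1; abel
          _ ≤ ‖(2:ℝ) ^ j • x - kv k - z‖ + ‖z‖ := norm_add_le _ _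
          _ ≤ R + Rt := add_le_add h5 (hRt' z hz)
      exact h6.trans (le_max_right _ _)
    · exact (hbs _ hbx).trans (le_max_left _ _)
  · have hsd := (sd_pos s j).le
    have h1 : c u ≤ c (dil (2 ^ j) (kv k) w0) +
        ∑ z ∈ t, ENNReal.ofReal (|cf z| ^ p) * c (conc η j (kv k + z) L - conc η j (kv k + z) 0) := by
      have e : u = dil (2 ^ j) (kv k) w0 +
          ∑ z ∈ t, (-cf z) • (conc η j (kv k + z) L - conc η j (kv k + z) 0) := by
        rw [hu, sub_eq_add_neg, ← Finset.sum_neg_distrib]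
        congr 1
        apply Finset.sum_congr rfl
        intro z _
        rw [neg_smul]
      rw [e]
      refine (hc.add _ _ (hw0c.dil h2j.ne' _) (Cc.sum fun z _ => (hcc z).smul _)).trans ?_
      refine add_le_add le_rfl ((hc.sum _ _ fun z _ => (hcc z).smul _).trans ?_)
      apply Finset.sum_le_sum
      intro z _
      have := hc.smul (-cf z) _ (hcc z)
      rwa [abs_neg] at this
    refine h1.trans ?_
    have h2 : ∀ z ∈ t, ENNReal.ofReal (|cf z| ^ p) * c (conc η j (kv k + z) L - conc η j (kv k + z) 0)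
        ≤ ENNReal.ofReal (|cf z| ^ p * (C1 * (1 - q)⁻¹) * sd s j) := by
      intro z _
      refine (mul_le_mul_right (conc_cost hs hc hη hC10 hC1 j (kv k + z) L) _).trans ?_
      rw [← ENNReal.ofReal_mul (by positivity)]
      apply ENNReal.ofReal_le_ofReal
      apply le_of_eq
      ring
    refine (add_le_add (hC0 j (kv k)) (Finset.sum_le_sum h2)).trans ?_
    rw [← ENNReal.ofReal_sum_of_nonneg (fun z _ => by positivity), ← ENNReal.ofReal_add (by positivity)
      (Finset.sum_nonneg fun z _ => by positivity)]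
    apply ENNReal.ofReal_le_ofReal
    rw [hC, add_mul, Finset.sum_mul]

/-- The recursive construction in the supercritical case. -/
theorem geomA {p s : ℝ} (hs : n * p < s) (K : Set (Sp n)) (hKc : IsClosed K)
    (hK0 : volume K = 0) (d : ℕ) :
    ∃ ρ : ℝ, ∀ c : (Sp n → ℝ) → ℝ≥0∞, IsCost n p c → AtomB s c d →
      ∃ C : ℝ, 0 ≤ C ∧ ∀ i j k, Good K (cube j k) ρ c (C * cont K s i j k) := by
  obtain ⟨ρ, hρ⟩ := blockA (p := p) hs K hKc hK0 d
  refine ⟨ρ, fun c hc hA => ?_⟩
  obtain ⟨C, hC0, hC⟩ := hρ c hc hA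
  refine ⟨C, hC0, fun i => ?_⟩
  induction i with
  | zero =>
    intro j k
    by_cases hne : (K ∩ cube j k).Nonempty
    · have : cont K s 0 j k = sd s j := by unfold cont; rw [if_pos hne]
      rw [this]; exact hC j k hne
    · exact Good.empty hne _ hc _
  | succ i ih =>
    intro j k
    by_cases hne : (K ∩ cube j k).Nonempty
    · rw [cont]
      rcases le_total (sd s j) (∑ e : Fin n → Fin 2, cont K s i (j + 1) (child k e)) with h | h
      · rw [min_eq_left h]; exact hC j k hne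
      · rw [min_eq_right h, Finset.mul_sum]
        exact Good.children hc (fun e => mul_nonneg hC0 (cont_nonneg _ _ _ _ _)) fun e => ih _ _
    · exact Good.empty hne _ hc _

end Pool.Agent.Bhc
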