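import Mathlib
import Pool.Agent.Lib_helper48.BhcMoments

/-!
# Kernel estimates: Schwartz kernels against functions with vanishing moments

Helper file for the hand-in on `MP_9b3711_an`.
-/

open MeasureTheory Set
open scoped ENNReal NNReal ContDiff SchwartzMap

namespace Pool.Agent.Bhc

variable {n : ℕ}

lemma Cc.compactSupport_ofReal {w : Sp n → ℝ} (hw : Cc w) :
    HasCompactSupport (fun x => (w x : ℂ)) :=
  HasCompactSupport.comp_left (g := fun r : ℝ => (r : ℂ)) hw.2 Complex.ofReal_zero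

lemma Cc.continuous_ofReal {w : Sp n → ℝ} (hw : Cc w) : Continuous (fun x => (w x : ℂ)) :=
  Complex.continuous_ofReal.comp hw.continuous

lemma Cc.integrable_cmul {w : Sp n → ℝ} (hw : Cc w) {g : Sp n → ℂ} (hg : Continuous g) :
    Integrable (fun x => g x * (w x : ℂ)) :=
  (hg.mul hw.continuous_ofReal).integrable_of_hasCompactSupport
    (HasCompactSupport.mul_left hw.compactSupport_ofReal)

lemma continuous_diagC {k : ℕ} (L : (Sp n) [×k]→L[ℝ] ℂ) : Continuous (fun x : Sp n => L (fun _ => x)) :=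
  L.cont.comp (continuous_pi fun _ => continuous_id)

/-- the moment condition against complex multilinear maps -/
lemma VM.complex {d k : ℕ} {w : Sp n → ℝ} (hw : Cc w) (h : VM d w) (hk : k < d)
    (L : (Sp n) [×k]→L[ℝ] ℂ) : ∫ x, L (fun _ => x) * (w x : ℂ) = 0 := by
  have hi : Integrable (fun x => L (fun _ => x) * (w x : ℂ)) := hw.integrable_cmul (continuous_diagC L)
  have hre := h k hk (Complex.reCLM.compContinuousMultilinearMap L)
  have him := h k hk (Complex.imCLM.compContinuousMultilinearMap L)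
  apply Complex.ext
  · rw [← Complex.reCLM_apply, ← ContinuousLinearMap.integral_comp_comm _ hi, Complex.zero_re, ← hre]
    apply integral_congr_ae
    filter_upwards with x
    simp
  · rw [← Complex.imCLM_apply, ← ContinuousLinearMap.integral_comp_comm _ hi, Complex.zero_im, ← him]
    apply integral_congr_ae
    filter_upwards with x
    simp

lemma schwartz_decay (Ψ : 𝓢(Sp n, ℂ)) (k L : ℕ) :
    ∃ C, 0 ≤ C ∧ ∀ x, ‖iteratedFDeriv ℝ k Ψ x‖ ≤ C * ((1 + ‖x‖) ^ L)⁻¹ := by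
  refine ⟨2 ^ L * ((Finset.Iic (L, k)).sup fun m => SchwartzMap.seminorm ℝ m.1 m.2) Ψ,
    by positivity, fun x => ?_⟩
  have h := SchwartzMap.one_add_le_sup_seminorm_apply (𝕜 := ℝ) (m := (L, k)) (k := L) (n := k)
    le_rfl le_rfl Ψ x
  rw [← div_eq_mul_inv, le_div_iff₀ (by positivity), mul_comm]
  exact h

lemma one_add_norm_le (x y : Sp n) : 1 + ‖x‖ ≤ (1 + ‖x - y‖) * (1 + ‖y‖) := by
  have h1 : ‖x‖ ≤ ‖x - y‖ + ‖y‖ := by
    have := norm_add_le (x - y) y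
    simpa using this
  nlinarith [norm_nonneg (x - y), norm_nonneg y]

lemma one_add_norm_le' (x y : Sp n) : 1 + ‖x‖ ≤ (1 + ‖x + y‖) * (1 + ‖y‖) := by
  have h1 : ‖x‖ ≤ ‖x + y‖ + ‖y‖ := by
    have := norm_sub_le (x + y) y
    simpa using this
  nlinarith [norm_nonneg (x + y), norm_nonneg y]

/-- Taylor remainder bound -/
lemma taylor_bound (Ψ : 𝓢(Sp n, ℂ)) (d L : ℕ) (R : ℝ) (hR : 0 ≤ R) :
    ∃ C, 0 ≤ C ∧ ∀ X Y : Sp n, ‖Y‖ ≤ R →
      ‖Ψ (X + Y) - ∑ k ∈ Finset.range (d + 1),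
        ((k.factorial : ℝ)⁻¹ • (iteratedFDeriv ℝ k Ψ X (fun _ ↦ Y)))‖
        ≤ C * ((1 + ‖X‖) ^ L)⁻¹ * ‖Y‖ ^ (d + 1) := by
  obtain ⟨C, hC0, hC⟩ := schwartz_decay Ψ (d + 1) L
  refine ⟨C * (1 + R) ^ L, by positivity, fun X Y hY => ?_⟩
  have hT := map_add_eq_sum_add_integral_iteratedFDeriv (f := (Ψ : Sp n → ℂ)) (x := X) (y := Y) (n := d)
    (fun t _ => (Ψ.smooth (d + 1)).contDiffAt)
  rw [hT, add_sub_cancel_left]
  have hb : ∀ t ∈ Set.uIoc (0:ℝ) 1,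
      ‖(1 - t)^d • iteratedFDeriv ℝ (d + 1) Ψ (X + t • Y) (fun _ ↦ Y)‖ ≤
        C * (1 + R) ^ L * ((1 + ‖X‖) ^ L)⁻¹ * ‖Y‖ ^ (d + 1) := by
    intro t ht
    rw [Set.uIoc_of_le zero_le_one] at ht
    rw [norm_smul, Real.norm_eq_abs, abs_of_nonneg (pow_nonneg (by linarith [ht.2]) d)]
    have h1 : (1 - t) ^ d ≤ 1 := pow_le_one₀ (by linarith [ht.2]) (by linarith [ht.1])
    have h2 : ‖iteratedFDeriv ℝ (d + 1) Ψ (X + t • Y) (fun _ ↦ Y)‖ ≤
        ‖iteratedFDeriv ℝ (d + 1) Ψ (X + t • Y)‖ * ‖Y‖ ^ (d + 1) := by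
      have := (iteratedFDeriv ℝ (d + 1) Ψ (X + t • Y)).le_opNorm (fun _ => Y)
      simpa using this
    have h3 := hC (X + t • Y)
    have h4 : ((1 + ‖X + t • Y‖) ^ L)⁻¹ ≤ (1 + R) ^ L * ((1 + ‖X‖) ^ L)⁻¹ := by
      rw [← div_eq_mul_inv, le_div_iff₀ (by positivity), inv_mul_le_iff₀ (by positivity), ← mul_pow]
      apply pow_le_pow_left₀ (by positivity)
      have h5 := one_add_norm_le' X (t • Y)
      have h6 : ‖t • Y‖ ≤ R := by
        rw [norm_smul, Real.norm_eq_abs, abs_of_nonneg ht.1.le]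
        nlinarith [norm_nonneg Y, ht.1, ht.2]
      nlinarith [norm_nonneg (X + t • Y), norm_nonneg (t • Y)]
    calc (1 - t) ^ d * ‖iteratedFDeriv ℝ (d + 1) Ψ (X + t • Y) (fun _ ↦ Y)‖
        ≤ 1 * (‖iteratedFDeriv ℝ (d + 1) Ψ (X + t • Y)‖ * ‖Y‖ ^ (d + 1)) :=
          mul_le_mul h1 h2 (norm_nonneg _) zero_le_one
      _ ≤ C * ((1 + R) ^ L * ((1 + ‖X‖) ^ L)⁻¹) * ‖Y‖ ^ (d + 1) := by
          rw [one_mul]
          gcongr
          exact h3.trans (mul_le_mul_of_nonneg_left h4 hC0)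
      _ = _ := by ring
  have hI := intervalIntegral.norm_integral_le_of_norm_le_const hb
  rw [norm_smul]
  have hf : ‖((d.factorial : ℝ)⁻¹)‖ ≤ 1 := by
    rw [Real.norm_eq_abs, abs_of_nonneg (by positivity)]
    apply inv_le_one_of_one_le₀
    exact_mod_cast Nat.one_le_iff_ne_zero.2 (Nat.factorial_ne_zero d)
  calc _ ≤ 1 * (C * (1 + R) ^ L * ((1 + ‖X‖) ^ L)⁻¹ * ‖Y‖ ^ (d + 1) * |1 - 0|) :=
        mul_le_mul hf hI (norm_nonneg _) zero_le_one
    _ = _ := by simp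

lemma Cc.bounded_support {w : Sp n → ℝ} (hw : Cc w) : ∃ R, 0 ≤ R ∧ ∀ x, w x ≠ 0 → ‖x‖ ≤ R := by
  obtain ⟨R, hR⟩ := hw.2.isBounded.subset_closedBall 0
  refine ⟨max R 0, le_max_right _ _, fun x hx => ?_⟩
  have := hR (subset_tsupport w hx)
  rw [mem_closedBall_zero_iff] at this
  exact this.trans (le_max_left _ _)

lemma Cc.bounded {w : Sp n → ℝ} (hw : Cc w) : ∃ B, 0 ≤ B ∧ ∀ x, |w x| ≤ B := by
  obtain ⟨B, hB⟩ := hw.2.exists_bound_of_continuous hw.continuous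
  exact ⟨max B 0, le_max_right _ _, fun x => (hB x).trans (le_max_left _ _)⟩

/-- small frequencies: vanishing moments give decay -/
lemma kernel_small (Ψ : 𝓢(Sp n, ℂ)) {w : Sp n → ℝ} (hw : Cc w) (d L : ℕ) (hv : VM (d + 1) w) :
    ∃ C, 0 ≤ C ∧ ∀ lam : ℝ, 0 < lam → lam ≤ 1 → ∀ X : Sp n,
      ‖∫ y, Ψ (lam • (X - y)) * (w y : ℂ)‖ ≤ C * lam ^ (d + 1) * ((1 + ‖lam • X‖) ^ L)⁻¹ := by
  obtain ⟨R, hR0, hR⟩ := hw.bounded_support
  obtain ⟨C, hC0, hC⟩ := taylor_bound Ψ d L R hR0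
  refine ⟨C * R ^ (d + 1) * ∫ y, |w y|, by positivity, fun lam h0 h1 X => ?_⟩
  set P : Sp n → ℂ := fun y => ∑ k ∈ Finset.range (d + 1),
        ((k.factorial : ℝ)⁻¹ • (iteratedFDeriv ℝ k Ψ (lam • X) (fun _ ↦ -(lam • y)))) with hP
  have hPk : ∀ k, (fun y : Sp n => ((k.factorial : ℝ)⁻¹ • (iteratedFDeriv ℝ k Ψ (lam • X)
      (fun _ ↦ -(lam • y))))) = fun y : Sp n =>
      ((((k.factorial : ℝ)⁻¹ * (-lam) ^ k) • (iteratedFDeriv ℝ k Ψ (lam • X))) (fun _ => y) : ℂ) := by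
    intro k
    funext y
    have := (iteratedFDeriv ℝ k Ψ (lam • X)).map_smul_univ (fun _ => -lam) (fun _ => y)
    simp only [neg_smul, Finset.prod_const, Finset.card_univ, Fintype.card_fin] at this
    rw [this, smul_smul]
    rfl
  have hPc : Continuous P := by
    apply continuous_finsetSum
    intro k _
    rw [hPk k]
    exact continuous_diagC _
  have hint : ∀ g : Sp n → ℂ, Continuous g → Integrable (fun y => g y * (w y : ℂ)) := fun g hg =>
    hw.integrable_cmul hg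
  have hPint : ∫ y, P y * (w y : ℂ) = 0 := by
    simp_rw [hP, Finset.sum_mul]
    rw [integral_finsetSum]
    · apply Finset.sum_eq_zero
      intro k hk
      have e := hPk k
      have e' : ∀ y, ((k.factorial : ℝ)⁻¹ • (iteratedFDeriv ℝ k Ψ (lam • X)
        (fun _ ↦ -(lam • y)))) = ((((k.factorial : ℝ)⁻¹ * (-lam) ^ k) •
          (iteratedFDeriv ℝ k Ψ (lam • X))) (fun _ => y) : ℂ) := fun y => congrFun e y
      simp_rw [e']
      exact hv.complex hw (Finset.mem_range.1 hk) _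
    · intro k _
      apply hint
      rw [hPk k]
      exact continuous_diagC _
  have hΨc : Continuous fun y : Sp n => Ψ (lam • (X - y)) :=
    Ψ.continuous.comp ((continuous_const.sub continuous_id).const_smul lam)
  have hsub : ∫ y, Ψ (lam • (X - y)) * (w y : ℂ) = ∫ y, (Ψ (lam • (X - y)) - P y) * (w y : ℂ) := by
    simp_rw [sub_mul]
    rw [integral_sub (hint _ hΨc) (hint _ hPc), hPint, sub_zero]
  rw [hsub]
  have hb : ∀ y, ‖(Ψ (lam • (X - y)) - P y) * (w y : ℂ)‖ ≤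
      (C * R ^ (d + 1) * lam ^ (d + 1) * ((1 + ‖lam • X‖) ^ L)⁻¹) * |w y| := by
    intro y
    rw [norm_mul, Complex.norm_real, Real.norm_eq_abs]
    by_cases hy : w y = 0
    · rw [hy]; simp
    · have hyR := hR y hy
      have hn : ‖-(lam • y)‖ ≤ R := by
        rw [norm_neg, norm_smul, Real.norm_eq_abs, abs_of_pos h0]
        nlinarith [norm_nonneg y]
      have h2 := hC (lam • X) (-(lam • y)) hn
      have h3 : lam • X + -(lam • y) = lam • (X - y) := by rw [smul_sub]; abel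
      rw [h3] at h2
      have h4 : ‖-(lam • y)‖ ^ (d + 1) ≤ R ^ (d + 1) * lam ^ (d + 1) := by
        rw [norm_neg, norm_smul, Real.norm_eq_abs, abs_of_pos h0, mul_pow, mul_comm]
        gcongr
      apply mul_le_mul_of_nonneg_right _ (abs_nonneg _)
      refine h2.trans ?_
      calc C * ((1 + ‖lam • X‖) ^ L)⁻¹ * ‖-(lam • y)‖ ^ (d + 1)
          ≤ C * ((1 + ‖lam • X‖) ^ L)⁻¹ * (R ^ (d + 1) * lam ^ (d + 1)) := by gcongr
        _ = _ := by ring
  refine (norm_integral_le_of_norm_le (hw.integrable.abs.const_mul _)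
    (Filter.Eventually.of_forall hb)).trans ?_
  rw [integral_const_mul]
  apply le_of_eq
  ring

/-- large frequencies -/
lemma kernel_large (Ψ : 𝓢(Sp n, ℂ)) {w : Sp n → ℝ} (hw : Cc w) (L : ℕ) :
    ∃ C, 0 ≤ C ∧ ∀ lam : ℝ, 1 ≤ lam → ∀ X : Sp n,
      lam ^ n * ‖∫ y, Ψ (lam • (X - y)) * (w y : ℂ)‖ ≤ C * ((1 + ‖X‖) ^ L)⁻¹ := by
  obtain ⟨R, hR0, hR⟩ := hw.bounded_support
  obtain ⟨B, hB0, hB⟩ := hw.bounded
  obtain ⟨C, hC0, hC⟩ := schwartz_decay Ψ 0 (L + (n + 1))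
  set J : ℝ := ∫ z : Sp n, ((1 + ‖z‖) ^ (n + 1))⁻¹ with hJ
  have hJi : Integrable fun z : Sp n => ((1 + ‖z‖) ^ (n + 1))⁻¹ := by
    have := integrable_one_add_norm (E := Sp n) (μ := volume) (r := (n + 1 : ℕ)) (by
      rw [finrank_euclideanSpace_fin]; push_cast; linarith)
    refine this.congr (Filter.Eventually.of_forall fun x => ?_)
    simp only
    rw [Real.rpow_neg (by positivity), Real.rpow_natCast]
  refine ⟨C * (1 + R) ^ L * B * J, by positivity, fun lam h1 X => ?_⟩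
  have h0 : 0 < lam := by linarith
  have hb : ∀ y, ‖Ψ (lam • (X - y)) * (w y : ℂ)‖ ≤
      (C * (1 + R) ^ L * B * ((1 + ‖X‖) ^ L)⁻¹) * ((1 + ‖lam • (X - y)‖) ^ (n + 1))⁻¹ := by
    intro y
    rw [norm_mul, Complex.norm_real, Real.norm_eq_abs]
    by_cases hy : w y = 0
    · rw [hy]; simp; positivity
    · have hyR := hR y hy
      have h2 := hC (lam • (X - y))
      rw [norm_iteratedFDeriv_zero, pow_add, mul_inv] at h2
      have h3 : ((1 + ‖lam • (X - y)‖) ^ L)⁻¹ ≤ (1 + R) ^ L * ((1 + ‖X‖) ^ L)⁻¹ := by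
        rw [← div_eq_mul_inv, le_div_iff₀ (by positivity), inv_mul_le_iff₀ (by positivity), ← mul_pow]
        apply pow_le_pow_left₀ (by positivity)
        have h5 := one_add_norm_le X y
        have h6 : ‖X - y‖ ≤ ‖lam • (X - y)‖ := by
          rw [norm_smul, Real.norm_eq_abs, abs_of_pos h0]
          nlinarith [norm_nonneg (X - y)]
        have h7 : (1 + ‖X - y‖) * (1 + ‖y‖) ≤ (1 + ‖lam • (X - y)‖) * (1 + R) :=
          mul_le_mul (by linarith) (by linarith) (by positivity) (by positivity)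
        linarith
      calc ‖Ψ (lam • (X - y))‖ * |w y|
          ≤ (C * (((1 + ‖lam • (X - y)‖) ^ L)⁻¹ * ((1 + ‖lam • (X - y)‖) ^ (n + 1))⁻¹)) * B :=
            mul_le_mul h2 (hB y) (abs_nonneg _) (by positivity)
        _ ≤ (C * (((1 + R) ^ L * ((1 + ‖X‖) ^ L)⁻¹) * ((1 + ‖lam • (X - y)‖) ^ (n + 1))⁻¹)) * B := by
            gcongr
        _ = _ := by ring
  have hint : ∫ y : Sp n, ((1 + ‖lam • (X - y)‖) ^ (n + 1))⁻¹ = (lam ^ n)⁻¹ * J := by
    have e1 : ∀ y : Sp n, ((1 + ‖lam • (X - y)‖) ^ (n + 1))⁻¹ = ((1 + ‖lam • y - lam • X‖) ^ (n + 1))⁻¹ := by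
      intro y
      rw [smul_sub, norm_sub_rev]
    simp_rw [e1]
    have := integral_dil (fun z : Sp n => ((1 + ‖z‖) ^ (n + 1))⁻¹) h0 (lam • X)
    simpa using this
  have hint' : Integrable fun y : Sp n => ((1 + ‖lam • (X - y)‖) ^ (n + 1))⁻¹ := by
    have h2 := (hJi.comp_smul (ne_of_gt h0)).comp_sub_left X
    exact h2
  have h4 := norm_integral_le_of_norm_le (hint'.const_mul _) (Filter.Eventually.of_forall hb)
  rw [integral_const_mul, hint] at h4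
  calc lam ^ n * ‖∫ y, Ψ (lam • (X - y)) * (w y : ℂ)‖
      ≤ lam ^ n * ((C * (1 + R) ^ L * B * ((1 + ‖X‖) ^ L)⁻¹) * ((lam ^ n)⁻¹ * J)) := by gcongr
    _ = (lam ^ n * (lam ^ n)⁻¹) * (C * (1 + R) ^ L * B * J * ((1 + ‖X‖) ^ L)⁻¹) := by ring
    _ = _ := by rw [mul_inv_cancel₀ (by positivity), one_mul]

/-- The combined kernel estimate. -/
lemma kernel_bound (Ψ : 𝓢(Sp n, ℂ)) {w : Sp n → ℝ} (hw : Cc w) (M L d : ℕ) (hd : M + L ≤ d + 1)
    (hv : VM (d + 1) w) :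
    ∃ C, 0 ≤ C ∧ ∀ lam : ℝ, 0 < lam → ∀ X : Sp n,
      lam ^ n * ‖∫ y, Ψ (lam • (X - y)) * (w y : ℂ)‖ ≤
        C * (min 1 lam) ^ M * ((1 + ‖X‖) ^ L)⁻¹ := by
  obtain ⟨C1, hC10, hC1⟩ := kernel_small Ψ hw d L hv
  obtain ⟨C2, hC20, hC2⟩ := kernel_large Ψ hw L
  refine ⟨max C1 C2, le_max_of_le_left hC10, fun lam h0 X => ?_⟩
  rcases le_total 1 lam with h1 | h1
  · rw [min_eq_left h1, one_pow, mul_one]
    exact (hC2 lam h1 X).trans (by gcongr; exact le_max_right _ _)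
  · rw [min_eq_right h1]
    have h2 := hC1 lam h0 h1 X
    have h3 : ((1 + ‖lam • X‖) ^ L)⁻¹ * lam ^ L ≤ ((1 + ‖X‖) ^ L)⁻¹ := by
      rw [mul_comm, ← div_eq_mul_inv, div_le_iff₀ (by positivity), ← div_eq_inv_mul,
        le_div_iff₀ (by positivity), ← mul_pow]
      apply pow_le_pow_left₀ (by positivity)
      rw [norm_smul, Real.norm_eq_abs, abs_of_pos h0]
      nlinarith [norm_nonneg X]
    calc lam ^ n * ‖∫ y, Ψ (lam • (X - y)) * (w y : ℂ)‖
        ≤ 1 * (C1 * lam ^ (d + 1) * ((1 + ‖lam • X‖) ^ L)⁻¹) :=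
          mul_le_mul (pow_le_one₀ h0.le h1) h2 (norm_nonneg _) zero_le_one
      _ ≤ 1 * (C1 * lam ^ (M + L) * ((1 + ‖lam • X‖) ^ L)⁻¹) := by
          have := pow_le_pow_of_le_one h0.le h1 hd
          gcongr
      _ = C1 * lam ^ M * (((1 + ‖lam • X‖) ^ L)⁻¹ * lam ^ L) := by rw [pow_add]; ring
      _ ≤ max C1 C2 * lam ^ M * ((1 + ‖X‖) ^ L)⁻¹ := by
          gcongr
          exact le_max_left _ _

end Pool.Agent.Bhc
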