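import Mathlib
import Pool.Agent.Lib_helper48.BhcKernel

/-!
# Fourier toolkit: multipliers as convolutions, heat kernel, Bessel potentials

Helper file for the hand-in on `MP_9b3711_an`.
-/

open MeasureTheory Set FourierTransform Real
open scoped ENNReal NNReal ContDiff SchwartzMap RealInnerProductSpace

namespace Pool.Agent.Bhc

variable {n : ℕ}

/-- A Fourier multiplier with integrable symbol is a convolution. -/
lemma mult_eq_conv {m g : Sp n → ℂ} (hm : Integrable m) (hg : Integrable g) (x : Sp n) :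
    𝓕⁻ (fun ξ => m ξ * 𝓕 g ξ) x = ∫ y, 𝓕⁻ m (x - y) * g y := by
  have hm' : Integrable (fun ξ : Sp n => 𝐞 ⟪ξ, x⟫ • m ξ) := by
    have := (Real.fourierIntegral_convergent_iff (μ := volume) (f := m) (-x)).2 hm
    simpa using this
  have h := VectorFourier.integral_fourierIntegral_smul_eq_flip (μ := (volume : Measure (Sp n)))
    (ν := (volume : Measure (Sp n))) (L := innerₗ (Sp n)) (f := g) (g := fun ξ : Sp n => 𝐞 ⟪ξ, x⟫ • m ξ)
    Real.continuous_fourierChar (by exact continuous_inner) hg hm'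
  rw [Real.fourierInv_eq]
  have h1 : ∫ v, 𝐞 ⟪v, x⟫ • (m v * 𝓕 g v) =
      ∫ ξ, (VectorFourier.fourierIntegral 𝐞 volume (innerₗ (Sp n)) g ξ) • (𝐞 ⟪ξ, x⟫ • m ξ) := by
    congr 1
    funext ξ
    have : VectorFourier.fourierIntegral 𝐞 volume (innerₗ (Sp n)) g ξ = 𝓕 g ξ := rfl
    rw [this, smul_eq_mul, Circle.smul_def, Circle.smul_def, smul_eq_mul, smul_eq_mul]
    ring
  rw [h1, h]
  congr 1
  funext y
  rw [smul_eq_mul, mul_comm]
  congr 1
  rw [Real.fourierInv_eq]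
  unfold VectorFourier.fourierIntegral
  congr 1
  funext ξ
  rw [← mul_smul, ← AddChar.map_add_eq_mul]
  congr 2
  simp only [LinearMap.flip_apply, innerₗ_apply_apply, inner_sub_right]
  have := real_inner_comm ξ y
  linarith

/-- Gauss–Weierstrass kernel -/
noncomputable def heatK (t : ℝ) (x : Sp n) : ℝ :=
  (4 * π * t) ^ (-(n:ℝ) / 2) * Real.exp (-(‖x‖ ^ 2) / (4 * t))

/-- heat extension -/
noncomputable def heatExt (f : Sp n → ℂ) (t : ℝ) (x : Sp n) : ℂ := ∫ y, (heatK t (x - y) : ℂ) * f y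

/-- Fourier symbol of the heat kernel -/
noncomputable def gsym (t : ℝ) (ξ : Sp n) : ℂ := Complex.exp (-((4 * π ^ 2 * t : ℝ) : ℂ) * (‖ξ‖ : ℂ) ^ 2)

lemma gsym_eq (t : ℝ) (ξ : Sp n) : gsym t ξ = ((Real.exp (-(4 * π ^ 2 * t) * ‖ξ‖ ^ 2) : ℝ) : ℂ) := by
  unfold gsym; push_cast; rfl

lemma integrable_gsym {t : ℝ} (ht : 0 < t) : Integrable (gsym (n := n) t) := by
  have h := GaussianFourier.integrable_cexp_neg_mul_sq_norm_add (V := Sp n)
    (b := ((4 * π ^ 2 * t : ℝ) : ℂ)) (by rw [Complex.ofReal_re]; positivity) 0 0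
  refine h.congr (Filter.Eventually.of_forall fun x => ?_)
  simp [gsym]

lemma fourierInv_gsym {t : ℝ} (ht : 0 < t) (x : Sp n) : 𝓕⁻ (gsym (n := n) t) x = (heatK t x : ℂ) := by
  rw [Real.fourierInv_eq_fourier_neg]
  unfold gsym
  rw [fourier_gaussian_innerProductSpace (b := ((4 * π ^ 2 * t : ℝ) : ℂ)) (by rw [Complex.ofReal_re]; positivity) (-x)]
  rw [norm_neg, finrank_euclideanSpace_fin]
  unfold heatK
  have hpi : (0:ℝ) < π := Real.pi_pos
  have e1 : (π : ℂ) / ((4 * π ^ 2 * t : ℝ) : ℂ) = (((4 * π * t)⁻¹ : ℝ) : ℂ) := by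
    push_cast
    have : (π : ℂ) ≠ 0 := by exact_mod_cast hpi.ne'
    have ht' : (t : ℂ) ≠ 0 := by exact_mod_cast ht.ne'
    field_simp
  have e2 : ((n:ℂ) / 2) = (((n:ℝ) / 2 : ℝ) : ℂ) := by push_cast; ring
  rw [e1, e2, ← Complex.ofReal_cpow (by positivity), Real.inv_rpow (by positivity),
    ← Real.rpow_neg (by positivity)]
  push_cast
  congr 2
  · congr 1; ring_nf
  · have : (π : ℂ) ≠ 0 := by exact_mod_cast hpi.ne'
    have ht' : (t : ℂ) ≠ 0 := by exact_mod_cast ht.ne'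
    field_simp

lemma heatExt_eq {f : Sp n → ℂ} (hf : Integrable f) {t : ℝ} (ht : 0 < t) (x : Sp n) :
    heatExt f t x = 𝓕⁻ (fun ξ => gsym t ξ * 𝓕 f ξ) x := by
  rw [mult_eq_conv (integrable_gsym ht) hf]
  unfold heatExt
  congr 1
  funext y
  rw [fourierInv_gsym ht]

/-- the symbol `1 + 4π²|ξ|²` -/
noncomputable def asym (ξ : Sp n) : ℝ := 1 + (2 * π * ‖ξ‖) ^ 2

lemma asym_pos (ξ : Sp n) : 0 < asym ξ := by unfold asym; positivity

lemma one_le_asym (ξ : Sp n) : 1 ≤ asym ξ := by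
  unfold asym
  have : 0 ≤ (2 * π * ‖ξ‖) ^ 2 := sq_nonneg _
  linarith

lemma continuous_asym : Continuous (asym (n := n)) := by unfold asym; fun_prop

/-- Negative powers of the symbol as an average of heat symbols -/
lemma bessel_fubini {g : Sp n → ℂ} (hg : Integrable g) {β : ℝ} (hβ : 0 < β) {t : ℝ} (ht : 0 ≤ t)
    (x : Sp n) :
    𝓕⁻ (fun ξ => gsym t ξ * (((asym ξ) ^ (-(β / 2)) : ℝ) : ℂ) * g ξ) x =
      ((Real.Gamma (β / 2))⁻¹ : ℝ) • ∫ τ in Ioi (0:ℝ), ((τ ^ (β / 2 - 1) * Real.exp (-τ) : ℝ) : ℂ) *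
        𝓕⁻ (fun ξ => gsym (t + τ) ξ * g ξ) x := by
  have hβ2 : 0 < β / 2 := by linarith
  have hΓ : 0 < Real.Gamma (β / 2) := Real.Gamma_pos_of_pos hβ2
  -- the two-variable function
  set F : Sp n → ℝ → ℂ := fun ξ τ => ((τ ^ (β / 2 - 1) * Real.exp (-τ) : ℝ) : ℂ) *
    (𝐞 ⟪ξ, x⟫ • (gsym (t + τ) ξ * g ξ)) with hF
  have hint1 : IntegrableOn (fun τ : ℝ => τ ^ (β / 2 - 1) * Real.exp (-τ)) (Ioi 0) := by
    have := Real.GammaIntegral_convergent hβ2
    refine this.congr_fun (fun τ _ => ?_) measurableSet_Ioi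
    ring
  have hFint : Integrable (Function.uncurry F) (volume.prod (volume.restrict (Ioi (0:ℝ)))) := by
    have hmaj : Integrable (fun q : Sp n × ℝ => ‖g q.1‖ * ‖q.2 ^ (β / 2 - 1) * Real.exp (-q.2)‖)
        (volume.prod (volume.restrict (Ioi (0:ℝ)))) := hg.norm.mul_prod hint1.norm
    refine hmaj.mono ?_ ?_
    · apply AEStronglyMeasurable.mul
      · apply Measurable.aestronglyMeasurable
        fun_prop
      · have h1 : AEStronglyMeasurable (fun q : Sp n × ℝ => g q.1)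
          (volume.prod (volume.restrict (Ioi (0:ℝ)))) := hg.1.comp_fst
        have h2 : Continuous (fun q : Sp n × ℝ => gsym (t + q.2) q.1) := by
          unfold gsym; fun_prop
        have h3 : Continuous (fun q : Sp n × ℝ => (𝐞 ⟪q.1, x⟫ : Circle)) :=
          Real.continuous_fourierChar.comp (by fun_prop)
        exact h3.aestronglyMeasurable.fun_smul (h2.aestronglyMeasurable.mul h1)
    · have hae : ∀ᵐ q : Sp n × ℝ ∂(volume.prod (volume.restrict (Ioi (0:ℝ)))), 0 < q.2 := by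
        have : ∀ᵐ τ ∂(volume.restrict (Ioi (0:ℝ))), 0 < τ := ae_restrict_mem measurableSet_Ioi
        exact (Measure.quasiMeasurePreserving_snd (μ := (volume : Measure (Sp n)))
          (ν := volume.restrict (Ioi (0:ℝ)))).ae this
      filter_upwards [hae] with q hq
      obtain ⟨ξ, τ⟩ := q
      simp only [Function.uncurry_apply_pair, hF] at hq ⊢
      have h4 : ‖gsym (t + τ) ξ‖ ≤ 1 := by
        rw [gsym_eq, Complex.norm_real, Real.norm_eq_abs, Real.abs_exp]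
        apply Real.exp_le_one_iff.2
        have : 0 ≤ (4 * π ^ 2 * (t + τ)) * ‖ξ‖ ^ 2 := by positivity
        linarith
      have h5 : ‖((τ ^ (β / 2 - 1) * Real.exp (-τ) : ℝ) : ℂ) * (𝐞 ⟪ξ, x⟫ • (gsym (t + τ) ξ * g ξ))‖ =
          ‖τ ^ (β / 2 - 1) * Real.exp (-τ)‖ * (‖gsym (t + τ) ξ‖ * ‖g ξ‖) := by
        rw [norm_mul, Complex.norm_real, Circle.norm_smul, norm_mul (gsym (t + τ) ξ)]
      have h6 : ‖‖g ξ‖ * ‖τ ^ (β / 2 - 1) * Real.exp (-τ)‖‖ =
          ‖g ξ‖ * ‖τ ^ (β / 2 - 1) * Real.exp (-τ)‖ := by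
        rw [Real.norm_eq_abs, abs_of_nonneg (by positivity)]
      rw [h5, h6]
      calc ‖τ ^ (β / 2 - 1) * Real.exp (-τ)‖ * (‖gsym (t + τ) ξ‖ * ‖g ξ‖)
          ≤ ‖τ ^ (β / 2 - 1) * Real.exp (-τ)‖ * (1 * ‖g ξ‖) := by gcongr
        _ = _ := by ring
  have hswap := integral_integral_swap hFint
  -- left-hand side
  have hL : ∀ ξ : Sp n, ∫ τ in Ioi (0:ℝ), F ξ τ = (Real.Gamma (β / 2) : ℂ) *
      (𝐞 ⟪ξ, x⟫ • (gsym t ξ * (((asym ξ) ^ (-(β / 2)) : ℝ) : ℂ) * g ξ)) := by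
    intro ξ
    have h1 : ∀ τ : ℝ, F ξ τ = ((τ ^ (β / 2 - 1) * Real.exp (-(asym ξ * τ)) : ℝ) : ℂ) *
        (𝐞 ⟪ξ, x⟫ • (gsym t ξ * g ξ)) := by
      intro τ
      simp only [hF]
      have e1 : gsym (t + τ) ξ = gsym t ξ * ((Real.exp (-((2 * π * ‖ξ‖) ^ 2 * τ)) : ℝ) : ℂ) := by
        rw [gsym_eq, gsym_eq, ← Complex.ofReal_mul, ← Real.exp_add]
        congr 2; ring
      have e2 : Real.exp (-(asym ξ * τ)) = Real.exp (-τ) * Real.exp (-((2 * π * ‖ξ‖) ^ 2 * τ)) := by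
        rw [← Real.exp_add]; congr 1; unfold asym; ring
      rw [e1, e2]
      simp only [Circle.smul_def, smul_eq_mul]
      push_cast
      ring
    simp_rw [h1]
    rw [integral_mul_const, integral_complex_ofReal, Real.integral_rpow_mul_exp_neg_mul_Ioi hβ2 (asym_pos ξ)]
    have e3 : (1 / asym ξ) ^ (β / 2) = (asym ξ) ^ (-(β / 2)) := by
      rw [one_div, Real.inv_rpow (asym_pos ξ).le, Real.rpow_neg (asym_pos ξ).le]
    rw [e3]
    simp only [Circle.smul_def, smul_eq_mul]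
    push_cast
    ring
  have hR : ∀ τ : ℝ, ∫ ξ, F ξ τ = ((τ ^ (β / 2 - 1) * Real.exp (-τ) : ℝ) : ℂ) *
        𝓕⁻ (fun ξ => gsym (t + τ) ξ * g ξ) x := by
    intro τ
    simp only [hF]
    rw [integral_const_mul, Real.fourierInv_eq]
  simp_rw [hL, hR] at hswap
  rw [integral_const_mul] at hswap
  rw [Real.fourierInv_eq, ← hswap, Complex.real_smul, ← mul_assoc]
  push_cast
  rw [inv_mul_cancel₀ (by exact_mod_cast hΓ.ne'), one_mul]

end Pool.Agent.Bhc
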