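import Mathlib
import Pool.Agent.Lib_helper48.BhcFourier

/-!
# The Laplacian on compactly supported smooth functions, the Gaussian as a Schwartz function

Helper file for the hand-in on `MP_9b3711_an`.
-/

open MeasureTheory Set FourierTransform Real
open scoped ENNReal NNReal ContDiff SchwartzMap RealInnerProductSpace LineDeriv

namespace Pool.Agent.Bhc

variable {n : ℕ}

/-- complexification of a real function -/
noncomputable def cx (u : Sp n → ℝ) : Sp n → ℂ := fun x => (u x : ℂ)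

lemma Cc.contDiff_cx {u : Sp n → ℝ} (hu : Cc u) : ContDiff ℝ ∞ (cx u) :=
  Complex.ofRealCLM.contDiff.comp hu.1

/-- the Schwartz function attached to a compactly supported smooth function -/
noncomputable def Cc.toS {u : Sp n → ℝ} (hu : Cc u) : 𝓢(Sp n, ℂ) :=
  (show HasCompactSupport (cx u) from hu.compactSupport_ofReal).toSchwartzMap hu.contDiff_cx

@[simp] lemma Cc.toS_apply {u : Sp n → ℝ} (hu : Cc u) (x : Sp n) : hu.toS x = (u x : ℂ) := rfl

lemma Cc.coe_toS {u : Sp n → ℝ} (hu : Cc u) : (hu.toS : Sp n → ℂ) = cx u := rfl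

lemma Cc.fourier_toS {u : Sp n → ℝ} (hu : Cc u) : 𝓕 (cx u) = ((𝓕 hu.toS : 𝓢(Sp n, ℂ)) : Sp n → ℂ) := by
  rw [SchwartzMap.fourier_coe]; rfl

lemma Cc.integrable_cx {u : Sp n → ℝ} (hu : Cc u) : Integrable (cx u) := hu.toS.integrable

lemma Cc.fourier_inversion {u : Sp n → ℝ} (hu : Cc u) : 𝓕⁻ (𝓕 (cx u)) = cx u := by
  rw [hu.fourier_toS, ← SchwartzMap.fourierInv_coe]
  have : 𝓕⁻ (𝓕 hu.toS) = hu.toS := FourierTransform.fourierInv_fourier_eq _
  rw [this]; rfl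

lemma fourier_fderiv_cx {u : Sp n → ℝ} (hu : Cc u) (m ξ : Sp n) :
    𝓕 (cx (fun x => fderiv ℝ u x m)) ξ = (2 * π * Complex.I) * (⟪ξ, m⟫ : ℂ) * 𝓕 (cx u) ξ := by
  have hm : (fun ξ : Sp n => (⟪ξ, m⟫ : ℝ)).HasTemperateGrowth := by fun_prop
  have h := SchwartzMap.fourier_lineDerivOp_eq hu.toS m
  have h1 : ((∂_{m} hu.toS : 𝓢(Sp n, ℂ)) : Sp n → ℂ) = cx (fun x => fderiv ℝ u x m) := by
    funext x
    rw [SchwartzMap.lineDerivOp_apply_eq_fderiv]
    have h2 : HasFDerivAt u (fderiv ℝ u x) x := (hu.1.differentiable (by simp) x).hasFDerivAt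
    have h3 : HasFDerivAt (cx u) (Complex.ofRealCLM.comp (fderiv ℝ u x)) x :=
      Complex.ofRealCLM.hasFDerivAt.comp x h2
    have h4 : fderiv ℝ (hu.toS : Sp n → ℂ) x = Complex.ofRealCLM.comp (fderiv ℝ u x) := h3.fderiv
    rw [h4]; rfl
  have h5 : 𝓕 (cx (fun x => fderiv ℝ u x m)) ξ = (𝓕 (∂_{m} hu.toS) : 𝓢(Sp n, ℂ)) ξ := by
    rw [← h1, ← SchwartzMap.fourier_coe]
  rw [h5, h, hu.fourier_toS]
  rw [smul_apply, SchwartzMap.smulLeftCLM_apply_apply hm]
  simp only [smul_eq_mul, Complex.real_smul]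
  ring

/-- minus the Laplacian -/
noncomputable def lap (u : Sp n → ℝ) : Sp n → ℝ :=
  ∑ i : Fin n, (-1 : ℝ) • (fun x => fderiv ℝ (fun y => fderiv ℝ u y (EuclideanSpace.single i 1)) x
    (EuclideanSpace.single i 1))

lemma Cc.lap {u : Sp n → ℝ} (hu : Cc u) : Cc (Bhc.lap u) :=
  Cc.sum fun _ _ => ((hu.fderiv _).fderiv _).smul _

lemma VM.sum {ι : Type*} {S : Finset ι} {d : ℕ} {f : ι → Sp n → ℝ} (h : ∀ i ∈ S, Cc (f i))
    (hv : ∀ i ∈ S, VM d (f i)) : VM d (∑ i ∈ S, f i) := by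
  classical
  induction S using Finset.induction_on with
  | empty => intro k hk L; simp
  | insert a S ha ih =>
    rw [Finset.sum_insert ha]
    have h1 : ∀ i ∈ S, Cc (f i) := fun i hi => h i (Finset.mem_insert_of_mem hi)
    exact (hv a (Finset.mem_insert_self _ _)).add (h a (Finset.mem_insert_self _ _)) (Cc.sum h1)
      (ih h1 fun i hi => hv i (Finset.mem_insert_of_mem hi))

lemma VM.lap {d : ℕ} {u : Sp n → ℝ} (hu : Cc u) (h : VM d u) : VM d (Bhc.lap u) :=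
  VM.sum (fun _ _ => ((hu.fderiv _).fderiv _).smul _)
    (fun _ _ => (VM.fderiv (hu.fderiv _) (h.fderiv hu _) _).smul _)

lemma fourier_add_cx {u v : Sp n → ℝ} (hu : Cc u) (hv : Cc v) (ξ : Sp n) :
    𝓕 (cx (u + v)) ξ = 𝓕 (cx u) ξ + 𝓕 (cx v) ξ := by
  rw [hu.fourier_toS, hv.fourier_toS, (hu.add hv).fourier_toS]
  have : (hu.add hv).toS = hu.toS + hv.toS := by
    ext x; simp
  rw [this, FourierTransform.fourier_add]
  rfl

lemma fourier_smul_cx {u : Sp n → ℝ} (hu : Cc u) (c : ℝ) (ξ : Sp n) :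
    𝓕 (cx (c • u)) ξ = (c : ℂ) * 𝓕 (cx u) ξ := by
  rw [hu.fourier_toS, (hu.smul c).fourier_toS]
  have : (hu.smul c).toS = (c : ℂ) • hu.toS := by
    ext x; simp
  rw [this, FourierTransform.fourier_smul]
  rfl

lemma fourier_zero_cx (ξ : Sp n) : 𝓕 (cx (0 : Sp n → ℝ)) ξ = 0 := by
  rw [Real.fourier_eq]
  simp [cx]

lemma fourier_sum_cx {ι : Type*} {S : Finset ι} {f : ι → Sp n → ℝ} (h : ∀ i ∈ S, Cc (f i))
    (ξ : Sp n) : 𝓕 (cx (∑ i ∈ S, f i)) ξ = ∑ i ∈ S, 𝓕 (cx (f i)) ξ := by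
  classical
  induction S using Finset.induction_on with
  | empty => simp [fourier_zero_cx]
  | insert a S ha ih =>
    rw [Finset.sum_insert ha, Finset.sum_insert ha]
    have h1 : ∀ i ∈ S, Cc (f i) := fun i hi => h i (Finset.mem_insert_of_mem hi)
    rw [fourier_add_cx (h a (Finset.mem_insert_self _ _)) (Cc.sum h1), ih h1]

lemma fourier_lap {u : Sp n → ℝ} (hu : Cc u) (ξ : Sp n) :
    𝓕 (cx (lap u)) ξ = (((2 * π * ‖ξ‖) ^ 2 : ℝ) : ℂ) * 𝓕 (cx u) ξ := by
  unfold lap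
  rw [fourier_sum_cx (fun _ _ => ((hu.fderiv _).fderiv _).smul _)]
  have h1 : ∀ i : Fin n, 𝓕 (cx ((-1 : ℝ) • (fun x => fderiv ℝ (fun y => fderiv ℝ u y
      (EuclideanSpace.single i 1)) x (EuclideanSpace.single i 1)))) ξ =
      ((4 * π ^ 2 * (ξ i) ^ 2 : ℝ) : ℂ) * 𝓕 (cx u) ξ := by
    intro i
    rw [fourier_smul_cx ((hu.fderiv _).fderiv _), fourier_fderiv_cx (hu.fderiv _), fourier_fderiv_cx hu]
    have h2 : (⟪ξ, EuclideanSpace.single i (1:ℝ)⟫ : ℝ) = ξ i := by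
      rw [real_inner_comm, EuclideanSpace.inner_single_left]; simp
    rw [h2]
    push_cast
    have hI := Complex.I_mul_I
    linear_combination (-4 * (π:ℂ) ^ 2 * (ξ i : ℂ) ^ 2 * 𝓕 (cx u) ξ) * hI
  simp_rw [h1]
  rw [← Finset.sum_mul]
  congr 1
  rw [← Complex.ofReal_sum]
  congr 1
  rw [← Finset.mul_sum, mul_pow, mul_pow, EuclideanSpace.norm_sq_eq]
  have : ∀ i, ‖ξ i‖ ^ 2 = (ξ i) ^ 2 := fun i => by rw [Real.norm_eq_abs, sq_abs]
  simp_rw [this]
  ring

/-- iterated minus Laplacian -/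
noncomputable def laps : ℕ → (Sp n → ℝ) → (Sp n → ℝ)
  | 0, w => w
  | m + 1, w => lap (laps m w)

lemma Cc.laps {u : Sp n → ℝ} (hu : Cc u) (m : ℕ) : Cc (Bhc.laps m u) := by
  induction m with
  | zero => exact hu
  | succ m ih => exact ih.lap

lemma VM.laps {d : ℕ} {u : Sp n → ℝ} (hu : Cc u) (h : VM d u) (m : ℕ) : VM d (Bhc.laps m u) := by
  induction m with
  | zero => exact h
  | succ m ih => exact ih.lap (hu.laps m)

lemma fourier_laps {u : Sp n → ℝ} (hu : Cc u) (m : ℕ) (ξ : Sp n) :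
    𝓕 (cx (laps m u)) ξ = ((((2 * π * ‖ξ‖) ^ 2) ^ m : ℝ) : ℂ) * 𝓕 (cx u) ξ := by
  induction m with
  | zero => simp [laps]
  | succ m ih =>
    simp only [laps]
    rw [fourier_lap (hu.laps m), ih, pow_succ]
    push_cast
    ring

lemma fderiv_dil {u : Sp n → ℝ} (hu : Cc u) (c : ℝ) (z m : Sp n) :
    (fun x => fderiv ℝ (dil c z u) x m) = c • dil c z (fun x => fderiv ℝ u x m) := by
  funext x
  have h1 : HasFDerivAt (fun x : Sp n => c • x - z) (c • ContinuousLinearMap.id ℝ (Sp n)) x := by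
    have h : HasFDerivAt (fun x : Sp n => c • x) (c • ContinuousLinearMap.id ℝ (Sp n)) x :=
      (hasFDerivAt_id (𝕜 := ℝ) x).const_smul c
    exact h.sub_const z
  have h2 : HasFDerivAt u (fderiv ℝ u (c • x - z)) (c • x - z) :=
    (hu.1.differentiable (by simp) _).hasFDerivAt
  have h3 := h2.comp x h1
  have h4 : fderiv ℝ (dil c z u) x = (fderiv ℝ u (c • x - z)).comp (c • ContinuousLinearMap.id ℝ (Sp n)) :=
    h3.fderiv
  rw [h4]
  simp [dil]

lemma lap_smul {u : Sp n → ℝ} (hu : Cc u) (c : ℝ) : lap (c • u) = c • lap u := by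
  have key : ∀ (v : Sp n → ℝ), Cc v → ∀ m, (fun x => fderiv ℝ (c • v) x m) = c • fun x => fderiv ℝ v x m := by
    intro v hv m
    funext x
    rw [fderiv_const_smul (hv.1.differentiable (by simp) x)]
    rfl
  unfold lap
  rw [Finset.smul_sum]
  apply Finset.sum_congr rfl
  intro i _
  rw [smul_comm]
  congr 1
  rw [key u hu, key _ (hu.fderiv _)]

lemma lap_dil {u : Sp n → ℝ} (hu : Cc u) {c : ℝ} (hc : c ≠ 0) (z : Sp n) :
    lap (dil c z u) = c ^ 2 • dil c z (lap u) := by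
  unfold lap
  funext x
  simp only [Finset.sum_apply, Pi.smul_apply, smul_eq_mul, dil, Finset.mul_sum]
  apply Finset.sum_congr rfl
  intro i _
  set e : Sp n := EuclideanSpace.single i (1:ℝ) with he
  have h1 := fderiv_dil hu c z e
  rw [h1]
  have hcd : Cc (dil c z (fun x => fderiv ℝ u x e)) := (hu.fderiv e).dil hc z
  rw [fderiv_const_smul (hcd.1.differentiable (by simp) x)]
  have h2 := congrFun (fderiv_dil (hu.fderiv e) c z e) x
  simp only [Pi.smul_apply, smul_eq_mul, dil] at h2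
  rw [smul_apply, smul_eq_mul]
  have h3 : fderiv ℝ (dil c z fun x => fderiv ℝ u x e) x e =
      c * fderiv ℝ (fun x => fderiv ℝ u x e) (c • x - z) e := h2
  rw [h3]
  ring

lemma laps_dil {u : Sp n → ℝ} (hu : Cc u) {c : ℝ} (hc : c ≠ 0) (z : Sp n) (m : ℕ) :
    laps m (dil c z u) = (c ^ 2) ^ m • dil c z (laps m u) := by
  induction m with
  | zero => simp [laps]
  | succ m ih =>
    simp only [laps]
    rw [ih, lap_smul ((hu.laps m).dil hc z), lap_dil (hu.laps m) hc z, smul_smul, pow_succ (c ^ 2)]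

end Pool.Agent.Bhc
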