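import Mathlib
import Pool.Agent.Lib_helper48.BhcLap

/-!
# The Gaussian as a Schwartz function, scaling of the heat extension

Helper file for the hand-in on `MP_9b3711_an`.
-/

open MeasureTheory Set FourierTransform Real
open scoped ENNReal NNReal ContDiff SchwartzMap RealInnerProductSpace

namespace Pool.Agent.Bhc

variable {n : ℕ}

lemma norm_iteratedFDeriv_rexp (i : ℕ) (y : ℝ) : ‖iteratedFDeriv ℝ i Real.exp y‖ = Real.exp y := by
  rw [norm_iteratedFDeriv_eq_norm_iteratedDeriv, iteratedDeriv_eq_iterate, Real.iter_deriv_exp,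
    Real.norm_eq_abs, Real.abs_exp]

lemma pow_mul_exp_le (N : ℕ) {b : ℝ} (hb : 0 < b) :
    ∃ C, 0 ≤ C ∧ ∀ r : ℝ, 0 ≤ r → (1 + r) ^ N * Real.exp (-b * r ^ 2) ≤ C := by
  refine ⟨Real.exp ((N:ℝ) ^ 2 / (4 * b)), (Real.exp_pos _).le, fun r hr => ?_⟩
  have h1 : (1 + r) ^ N ≤ Real.exp (N * r) := by
    rw [mul_comm, Real.exp_mul, ← Real.rpow_natCast]
    apply Real.rpow_le_rpow (by positivity) _ (by positivity)
    linarith [Real.add_one_le_exp r]
  calc (1 + r) ^ N * Real.exp (-b * r ^ 2) ≤ Real.exp (N * r) * Real.exp (-b * r ^ 2) := by gcongr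
    _ = Real.exp (N * r + -b * r ^ 2) := by rw [Real.exp_add]
    _ ≤ _ := by
      apply Real.exp_le_exp.2
      rw [le_div_iff₀ (by positivity)]
      nlinarith [sq_nonneg ((N:ℝ) - 2 * b * r)]

/-- the Gaussian `exp (-b ‖x‖²)` as a Schwartz function -/
noncomputable def gaussR (n : ℕ) (b : ℝ) (hb : 0 < b) : 𝓢(Sp n, ℝ) where
  toFun := fun x => Real.exp (-b * ‖x‖ ^ 2)
  smooth' := by
    apply Real.contDiff_exp.comp
    exact contDiff_const.mul (contDiff_norm_sq ℝ)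
  decay' := by
    intro l m
    have hT : (fun x : Sp n => -b * ‖x‖ ^ 2).HasTemperateGrowth := by
      have h1 : (fun x : Sp n => ‖x‖ ^ 2).HasTemperateGrowth := Function.hasTemperateGrowth_norm_sq (Sp n)
      fun_prop
    obtain ⟨k, C, hC0, hC⟩ := hT.norm_iteratedFDeriv_le_uniform m
    obtain ⟨B, hB0, hB⟩ := pow_mul_exp_le (l + k * m) hb
    refine ⟨m.factorial * (1 + C) ^ m * B, fun x => ?_⟩
    have hx0 : 0 ≤ ‖x‖ := norm_nonneg x
    have h1 := norm_iteratedFDeriv_comp_le (g := Real.exp) (f := fun x : Sp n => -b * ‖x‖ ^ 2)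
      (n := m) (N := ∞) Real.contDiff_exp (contDiff_const.mul (contDiff_norm_sq ℝ)) (by exact_mod_cast le_top) x
      (C := Real.exp (-b * ‖x‖ ^ 2)) (D := (1 + C) * (1 + ‖x‖) ^ k)
      (fun i _ => (norm_iteratedFDeriv_rexp i _).le)
      (by
        intro i hi1 him
        have h2 : (1:ℝ) ≤ (1 + ‖x‖) ^ k := one_le_pow₀ (by linarith)
        have h3 : (1:ℝ) ≤ (1 + C) * (1 + ‖x‖) ^ k := by nlinarith
        calc ‖iteratedFDeriv ℝ i (fun x : Sp n => -b * ‖x‖ ^ 2) x‖ ≤ C * (1 + ‖x‖) ^ k := hC i him x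
          _ ≤ (1 + C) * (1 + ‖x‖) ^ k := by nlinarith
          _ ≤ ((1 + C) * (1 + ‖x‖) ^ k) ^ i := le_self_pow₀ h3 (by omega))
    have h4 : ‖x‖ ^ l ≤ (1 + ‖x‖) ^ l := pow_le_pow_left₀ hx0 (by linarith) l
    have h5 : (Real.exp ∘ fun x : Sp n => -b * ‖x‖ ^ 2) = fun x => Real.exp (-b * ‖x‖ ^ 2) := rfl
    rw [h5] at h1
    calc ‖x‖ ^ l * ‖iteratedFDeriv ℝ m (fun x : Sp n => Real.exp (-b * ‖x‖ ^ 2)) x‖
        ≤ (1 + ‖x‖) ^ l * (m.factorial * Real.exp (-b * ‖x‖ ^ 2) * ((1 + C) * (1 + ‖x‖) ^ k) ^ m) := by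
          gcongr
      _ = m.factorial * (1 + C) ^ m * ((1 + ‖x‖) ^ (l + k * m) * Real.exp (-b * ‖x‖ ^ 2)) := by
          rw [mul_pow, ← pow_mul, pow_add]; ring
      _ ≤ m.factorial * (1 + C) ^ m * B := by
          gcongr
          exact hB _ hx0

/-- the heat kernel at time one as a complex Schwartz function -/
noncomputable def heatS (n : ℕ) : 𝓢(Sp n, ℂ) :=
  (((4 * π : ℝ) ^ (-(n:ℝ) / 2)) • gaussR n (1/4) (by norm_num)).postcompCLM Complex.ofRealCLM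

lemma heatS_apply (x : Sp n) : heatS n x = (heatK 1 x : ℂ) := by
  unfold heatS
  rw [SchwartzMap.postcompCLM_apply]
  show ((((4 * π : ℝ) ^ (-(n:ℝ) / 2)) * Real.exp (-(1/4) * ‖x‖ ^ 2) : ℝ) : ℂ) = _
  unfold heatK
  congr 3
  · ring
  · ring

lemma heatK_scale {t : ℝ} (ht : 0 < t) (x : Sp n) :
    heatK t x = ((Real.sqrt t)⁻¹) ^ n * heatK 1 ((Real.sqrt t)⁻¹ • x) := by
  unfold heatK
  have hs : 0 < Real.sqrt t := Real.sqrt_pos.2 ht
  have e1 : (4 * π * t) ^ (-(n:ℝ) / 2) = ((Real.sqrt t)⁻¹) ^ n * (4 * π * 1) ^ (-(n:ℝ) / 2) := by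
    rw [Real.mul_rpow (by positivity) ht.le, mul_one, mul_comm]
    congr 1
    rw [Real.sqrt_eq_rpow, ← Real.rpow_neg ht.le, ← Real.rpow_natCast, ← Real.rpow_mul ht.le]
    congr 1
    ring
  rw [e1, mul_assoc]
  congr 3
  rw [norm_smul, mul_pow, norm_inv, Real.norm_eq_abs, abs_of_pos hs, inv_pow, Real.sq_sqrt ht.le]
  field_simp

/-- heat extension of a dilated function through the kernel at time one -/
lemma heatExt_dil {w : Sp n → ℝ} {c : ℝ} (hc : 0 < c) (z : Sp n) {t : ℝ} (ht : 0 < t)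
    (y : Sp n) :
    heatExt (cx (dil c z w)) t y =
      (((c * Real.sqrt t)⁻¹ ^ n : ℝ) : ℂ) *
        ∫ x, heatS n ((c * Real.sqrt t)⁻¹ • ((c • y - z) - x)) * (w x : ℂ) := by
  unfold heatExt
  have hs : 0 < Real.sqrt t := Real.sqrt_pos.2 ht
  -- write the integrand as a function of `c • x - z`
  have h1 : ∀ x : Sp n, (heatK t (y - x) : ℂ) * cx (dil c z w) x =
      (fun X : Sp n => (heatK t (c⁻¹ • ((c • y - z) - X)) : ℂ) * (w X : ℂ)) (c • x - z) := by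
    intro x
    simp only [cx, dil]
    have : c⁻¹ • ((c • y - z) - (c • x - z)) = y - x := by
      have h2 : (c • y - z) - (c • x - z) = c • (y - x) := by rw [smul_sub]; abel
      rw [h2, smul_smul, inv_mul_cancel₀ hc.ne', one_smul]
    rw [this]
  rw [integral_congr_ae (Filter.Eventually.of_forall h1),
    integral_dil (fun X : Sp n => (heatK t (c⁻¹ • ((c • y - z) - X)) : ℂ) * (w X : ℂ)) hc z]
  have h2 : ∀ X : Sp n, (heatK t (c⁻¹ • ((c • y - z) - X)) : ℂ) * (w X : ℂ) =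
      (((Real.sqrt t)⁻¹ ^ n : ℝ) : ℂ) * (heatS n ((c * Real.sqrt t)⁻¹ • ((c • y - z) - X)) * (w X : ℂ)) := by
    intro X
    rw [heatK_scale ht, heatS_apply, smul_smul]
    have : (Real.sqrt t)⁻¹ * c⁻¹ = (c * Real.sqrt t)⁻¹ := by rw [mul_inv, mul_comm]
    rw [this]
    push_cast
    ring
  simp_rw [h2]
  rw [integral_const_mul, Complex.real_smul, ← mul_assoc]
  congr 1
  rw [mul_inv, mul_pow]
  push_cast
  simp only [inv_pow]

/-- atom bound for the heat extension -/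
lemma heatExt_atom {w : Sp n → ℝ} (hw : Cc w) (M L d : ℕ) (hd : M + L ≤ d + 1) (hv : VM (d + 1) w) :
    ∃ C, 0 ≤ C ∧ ∀ (c : ℝ), 0 < c → ∀ (z : Sp n) (t : ℝ), 0 < t → ∀ y : Sp n,
      ‖heatExt (cx (dil c z w)) t y‖ ≤
        C * (min 1 (c * Real.sqrt t)⁻¹) ^ M * ((1 + ‖c • y - z‖) ^ L)⁻¹ := by
  obtain ⟨C, hC0, hC⟩ := kernel_bound (heatS n) hw M L d hd hv
  refine ⟨C, hC0, fun c hc z t ht y => ?_⟩
  have hs : 0 < Real.sqrt t := Real.sqrt_pos.2 ht
  have hpos : 0 < (c * Real.sqrt t)⁻¹ := by positivity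
  rw [heatExt_dil hc z ht y, norm_mul, Complex.norm_real, Real.norm_eq_abs,
    abs_of_nonneg (by positivity)]
  exact hC _ hpos (c • y - z)

end Pool.Agent.Bhc
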