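import Mathlib
import Pool.Agent.Lib_helper48.BhcGauss
import Pool.Agent.Lib_helper48.BhcCost

/-!
# The Hardy–Bessel cost

Helper file for the hand-in on `MP_9b3711_an`.
-/

open MeasureTheory Set FourierTransform Real
open scoped ENNReal NNReal ContDiff SchwartzMap RealInnerProductSpace

namespace Pool.Agent.Bhc

variable {n : ℕ}

/-- nontangential maximal function of the heat extension -/
noncomputable def ntMax (f : Sp n → ℂ) (x : Sp n) : ℝ≥0∞ :=
  ⨆ (t : ℝ) (_ : 0 < t) (y : Sp n) (_ : ‖y - x‖ < Real.sqrt t), ‖heatExt f t y‖ₑ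

/-- `p`-th power of the `H^p` quasi-norm -/
noncomputable def hardyPow (p : ℝ) (f : Sp n → ℂ) : ℝ≥0∞ := ∫⁻ x, ntMax f x ^ p

lemma le_ntMax (f : Sp n → ℂ) {x y : Sp n} {t : ℝ} (ht : 0 < t) (h : ‖y - x‖ < Real.sqrt t) :
    ‖heatExt f t y‖ₑ ≤ ntMax f x :=
  le_iSup_of_le t (le_iSup_of_le ht (le_iSup_of_le y (le_iSup_of_le h le_rfl)))

lemma ntMax_le {f : Sp n → ℂ} {x : Sp n} {B : ℝ≥0∞}
    (h : ∀ t : ℝ, 0 < t → ∀ y : Sp n, ‖y - x‖ < Real.sqrt t → ‖heatExt f t y‖ₑ ≤ B) :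
    ntMax f x ≤ B :=
  iSup_le fun t => iSup_le fun ht => iSup_le fun y => iSup_le fun hy => h t ht y hy

lemma measurable_ntMax (f : Sp n → ℂ) : Measurable (ntMax f) := by
  have hl : LowerSemicontinuous (ntMax f) := by
    unfold ntMax
    apply lowerSemicontinuous_iSup
    intro t
    apply lowerSemicontinuous_iSup
    intro ht
    apply lowerSemicontinuous_iSup
    intro y
    rw [lowerSemicontinuous_iff_isOpen_preimage]
    intro a
    by_cases ha : ‖heatExt f t y‖ₑ ≤ a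
    · have : (fun x => ⨆ (_ : ‖y - x‖ < Real.sqrt t), ‖heatExt f t y‖ₑ) ⁻¹' Ioi a = ∅ := by
        ext x
        simp only [mem_preimage, mem_Ioi, mem_empty_iff_false, iff_false, not_lt]
        exact iSup_le fun _ => ha
      rw [this]; exact isOpen_empty
    · push Not at ha
      have : (fun x => ⨆ (_ : ‖y - x‖ < Real.sqrt t), ‖heatExt f t y‖ₑ) ⁻¹' Ioi a =
          {x | ‖y - x‖ < Real.sqrt t} := by
        ext x
        simp only [mem_preimage, mem_Ioi]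
        constructor
        · intro h
          by_contra hcon
          have hcon' : ¬ ‖y - x‖ < Real.sqrt t := hcon
          rw [iSup_neg hcon'] at h
          exact absurd h (by simp)
        · intro h
          have h' : ‖y - x‖ < Real.sqrt t := h
          rw [iSup_pos h']
          exact ha
      rw [this]
      exact isOpen_lt (by fun_prop) continuous_const
  exact hl.measurable

lemma integrable_heat_mul {f : Sp n → ℂ} (hf : Integrable f) {t : ℝ} (ht : 0 < t) (x : Sp n) :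
    Integrable (fun y => (heatK t (x - y) : ℂ) * f y) := by
  have hc : Continuous (fun y : Sp n => (heatK t (x - y) : ℂ)) := by
    unfold heatK
    fun_prop
  apply hf.bdd_mul hc.aestronglyMeasurable (c := (4 * π * t) ^ (-(n:ℝ) / 2))
  filter_upwards with y
  rw [Complex.norm_real, Real.norm_eq_abs]
  unfold heatK
  rw [abs_mul, abs_of_nonneg (by positivity), Real.abs_exp]
  have : Real.exp (-(‖x - y‖ ^ 2) / (4 * t)) ≤ 1 := by
    apply Real.exp_le_one_iff.2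
    apply div_nonpos_of_nonpos_of_nonneg
    · have := sq_nonneg ‖x - y‖; linarith
    · positivity
  calc _ ≤ (4 * π * t) ^ (-(n:ℝ) / 2) * 1 := by gcongr
    _ = _ := mul_one _

lemma heatExt_add {f g : Sp n → ℂ} (hf : Integrable f) (hg : Integrable g) {t : ℝ} (ht : 0 < t)
    (x : Sp n) : heatExt (f + g) t x = heatExt f t x + heatExt g t x := by
  unfold heatExt
  rw [← integral_add (integrable_heat_mul hf ht x) (integrable_heat_mul hg ht x)]
  congr 1
  funext y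
  simp [mul_add]

lemma heatExt_smul (f : Sp n → ℂ) (a : ℂ) (t : ℝ) (x : Sp n) :
    heatExt (a • f) t x = a * heatExt f t x := by
  unfold heatExt
  rw [← integral_const_mul]
  congr 1
  funext y
  simp only [Pi.smul_apply, smul_eq_mul]
  ring

lemma heatExt_translate (f : Sp n → ℂ) (z : Sp n) (t : ℝ) (x : Sp n) :
    heatExt (fun y => f (y - z)) t x = heatExt f t (x - z) := by
  unfold heatExt
  rw [← integral_sub_right_eq_self (fun y => (heatK t (x - z - y) : ℂ) * f y) z]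
  congr 1
  funext y
  congr 3
  abel

lemma heatExt_zero (t : ℝ) (x : Sp n) : heatExt (0 : Sp n → ℂ) t x = 0 := by
  unfold heatExt; simp

lemma hardyPow_zero {p : ℝ} (hp : 0 < p) : hardyPow p (0 : Sp n → ℂ) = 0 := by
  unfold hardyPow
  have : ∀ x : Sp n, ntMax (0 : Sp n → ℂ) x = 0 := by
    intro x
    apply le_antisymm _ zero_le
    apply ntMax_le
    intro t _ y _
    rw [heatExt_zero]
    simp
  simp_rw [this, ENNReal.zero_rpow_of_pos hp]
  simp

lemma hardyPow_add {p : ℝ} (hp0 : 0 < p) (hp1 : p ≤ 1) {f g : Sp n → ℂ} (hf : Integrable f)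
    (hg : Integrable g) : hardyPow p (f + g) ≤ hardyPow p f + hardyPow p g := by
  unfold hardyPow
  rw [← lintegral_add_left ((measurable_ntMax f).pow_const p)]
  apply lintegral_mono
  intro x
  calc ntMax (f + g) x ^ p ≤ (ntMax f x + ntMax g x) ^ p := by
        apply ENNReal.rpow_le_rpow _ hp0.le
        apply ntMax_le
        intro t ht y hy
        rw [heatExt_add hf hg ht]
        exact (enorm_add_le _ _).trans (add_le_add (le_ntMax f ht hy) (le_ntMax g ht hy))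
    _ ≤ _ := ENNReal.rpow_add_le_add_rpow _ _ hp0.le hp1

lemma hardyPow_smul {p : ℝ} (hp0 : 0 < p) (f : Sp n → ℂ) (a : ℂ) :
    hardyPow p (a • f) ≤ ENNReal.ofReal (‖a‖ ^ p) * hardyPow p f := by
  unfold hardyPow
  rw [← lintegral_const_mul' _ _ ENNReal.ofReal_ne_top]
  apply lintegral_mono
  intro x
  calc ntMax (a • f) x ^ p ≤ (‖a‖ₑ * ntMax f x) ^ p := by
        apply ENNReal.rpow_le_rpow _ hp0.le
        apply ntMax_le
        intro t ht y hy
        rw [heatExt_smul, enorm_mul]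
        exact mul_le_mul_right (le_ntMax f ht hy) _
    _ = _ := by
      rw [ENNReal.mul_rpow_of_nonneg _ _ hp0.le, ← ENNReal.ofReal_rpow_of_nonneg (norm_nonneg _) hp0.le,
        ofReal_norm]

lemma hardyPow_translate (p : ℝ) (f : Sp n → ℂ) (z : Sp n) :
    hardyPow p (fun y => f (y - z)) = hardyPow p f := by
  unfold hardyPow
  have h : ∀ x, ntMax (fun y => f (y - z)) x = ntMax f (x - z) := by
    intro x
    apply le_antisymm
    · apply ntMax_le
      intro t ht y hy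
      rw [heatExt_translate]
      apply le_ntMax f ht
      have : y - z - (x - z) = y - x := by abel
      rwa [this]
    · apply ntMax_le
      intro t ht y hy
      have h1 := le_ntMax (fun y => f (y - z)) (x := x) (y := y + z) ht (by
        have : y + z - x = y - (x - z) := by abel
        rwa [this])
      rw [heatExt_translate] at h1
      simpa using h1
  simp_rw [h]
  exact lintegral_sub_right_eq_self (fun x => ntMax f x ^ p) z

/-! ### inverse Bessel potentials of compactly supported functions -/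

lemma asym_temperate (γ : ℝ) : (fun ξ : Sp n => (asym ξ) ^ γ).HasTemperateGrowth := by
  have h1 := Function.hasTemperateGrowth_one_add_norm_sq_rpow (Sp n) γ
  have h2 : (fun ξ : Sp n => (2 * π) • ξ).HasTemperateGrowth := by fun_prop
  have h3 := h1.comp h2
  have e : ((fun x : Sp n => (1 + ‖x‖ ^ 2) ^ γ) ∘ fun ξ : Sp n => (2 * π) • ξ) = fun ξ => (asym ξ) ^ γ := by
    funext ξ
    simp only [Function.comp, asym, norm_smul, Real.norm_eq_abs, abs_of_pos (show (0:ℝ) < 2 * π by positivity)]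
  rwa [e] at h3

/-- the multiplier `(1 + 4π²|ξ|²)^{γ}` on Schwartz functions -/
noncomputable def JS (n : ℕ) (γ : ℝ) : 𝓢(Sp n, ℂ) →L[ℂ] 𝓢(Sp n, ℂ) :=
  SchwartzMap.fourierMultiplierCLM ℂ (fun ξ : Sp n => (((asym ξ) ^ γ : ℝ) : ℂ))

lemma asym_temperateC (γ : ℝ) : (fun ξ : Sp n => (((asym ξ) ^ γ : ℝ) : ℂ)).HasTemperateGrowth := by
  have := asym_temperate (n := n) γ
  fun_prop

lemma fourier_JS (γ : ℝ) (f : 𝓢(Sp n, ℂ)) (ξ : Sp n) :
    𝓕 (JS n γ f : Sp n → ℂ) ξ = (((asym ξ) ^ γ : ℝ) : ℂ) * 𝓕 (f : Sp n → ℂ) ξ := by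
  rw [← SchwartzMap.fourier_coe, JS, SchwartzMap.fourierMultiplierCLM_apply,
    FourierTransform.fourier_fourierInv_eq, SchwartzMap.smulLeftCLM_apply_apply (asym_temperateC γ),
    SchwartzMap.fourier_coe, smul_eq_mul]

lemma JS_eq (γ : ℝ) (f : 𝓢(Sp n, ℂ)) (x : Sp n) :
    JS n γ f x = 𝓕⁻ (fun ξ => (((asym ξ) ^ γ : ℝ) : ℂ) * 𝓕 (f : Sp n → ℂ) ξ) x := by
  rw [JS, SchwartzMap.fourierMultiplierCLM_apply, SchwartzMap.fourierInv_coe]
  have h : ((SchwartzMap.smulLeftCLM ℂ (fun ξ : Sp n => (((asym ξ) ^ γ : ℝ) : ℂ)) (𝓕 f) : 𝓢(Sp n, ℂ)) :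
      Sp n → ℂ) = fun ξ => (((asym ξ) ^ γ : ℝ) : ℂ) * 𝓕 (f : Sp n → ℂ) ξ := by
    funext ξ
    rw [SchwartzMap.smulLeftCLM_apply_apply (asym_temperateC γ), SchwartzMap.fourier_coe, smul_eq_mul]
  rw [h]

/-- the function `f` with `G_{2γ} * f = u` -/
noncomputable def jinv (γ : ℝ) (u : Sp n → ℝ) : Sp n → ℂ :=
  𝓕⁻ (fun ξ => (((asym ξ) ^ γ : ℝ) : ℂ) * 𝓕 (cx u) ξ)

lemma jinv_eq (γ : ℝ) {u : Sp n → ℝ} (hu : Cc u) : jinv γ u = (JS n γ hu.toS : Sp n → ℂ) := by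
  funext x
  rw [JS_eq]
  rfl

lemma jinv_add (γ : ℝ) {u v : Sp n → ℝ} (hu : Cc u) (hv : Cc v) :
    jinv γ (u + v) = jinv γ u + jinv γ v := by
  rw [jinv_eq γ hu, jinv_eq γ hv, jinv_eq γ (hu.add hv)]
  have : (hu.add hv).toS = hu.toS + hv.toS := by ext x; simp
  rw [this, map_add]
  rfl

lemma jinv_smul (γ : ℝ) {u : Sp n → ℝ} (hu : Cc u) (a : ℝ) :
    jinv γ (a • u) = (a : ℂ) • jinv γ u := by
  rw [jinv_eq γ hu, jinv_eq γ (hu.smul a)]
  have : (hu.smul a).toS = (a : ℂ) • hu.toS := by ext x; simp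
  rw [this, map_smul]
  rfl

lemma jinv_zero (γ : ℝ) : jinv γ (0 : Sp n → ℝ) = 0 := by
  have h := jinv_smul γ (Cc.zero (n := n)) 0
  simpa using h

lemma integrable_jinv (γ : ℝ) {u : Sp n → ℝ} (hu : Cc u) : Integrable (jinv γ u) := by
  rw [jinv_eq γ hu]; exact (JS n γ hu.toS).integrable

lemma fourier_jinv (γ : ℝ) {u : Sp n → ℝ} (hu : Cc u) (ξ : Sp n) :
    𝓕 (jinv γ u) ξ = (((asym ξ) ^ γ : ℝ) : ℂ) * 𝓕 (cx u) ξ := by
  rw [jinv_eq γ hu, fourier_JS]; rfl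

lemma fourier_translate (u : Sp n → ℝ) (z ξ : Sp n) :
    𝓕 (cx (dil 1 z u)) ξ = 𝐞 (-⟪z, ξ⟫) • 𝓕 (cx u) ξ := by
  rw [Real.fourier_eq, Real.fourier_eq,
    ← integral_add_right_eq_self (fun v => 𝐞 (-⟪v, ξ⟫) • cx (dil 1 z u) v) z,
    Circle.smul_def, smul_eq_mul, ← integral_const_mul]
  congr 1
  funext v
  simp only [cx, dil, one_smul, add_sub_cancel_right, inner_add_left, neg_add, AddChar.map_add_eq_mul,
    Circle.smul_def, Circle.coe_mul, smul_eq_mul]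
  ring

lemma jinv_translate (γ : ℝ) (u : Sp n → ℝ) (z : Sp n) :
    jinv γ (dil 1 z u) = fun x => jinv γ u (x - z) := by
  funext x
  unfold jinv
  rw [Real.fourierInv_eq, Real.fourierInv_eq]
  congr 1
  funext ξ
  rw [fourier_translate]
  have h1 : (𝐞 ⟪ξ, x - z⟫ : Circle) = 𝐞 ⟪ξ, x⟫ * 𝐞 (-⟪z, ξ⟫) := by
    rw [← AddChar.map_add_eq_mul, inner_sub_right, real_inner_comm ξ z]
    congr 1
  rw [h1]
  simp only [Circle.smul_def, Circle.coe_mul, smul_eq_mul]
  ring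

/-- the Hardy–Bessel cost `‖u‖^p`, `u = G_α * f`, `‖u‖ = ‖f‖_{H^p}` -/
noncomputable def costH (p α : ℝ) (u : Sp n → ℝ) : ℝ≥0∞ := hardyPow p (jinv (α / 2) u)

lemma isCost_costH {p : ℝ} (α : ℝ) (hp0 : 0 < p) (hp1 : p ≤ 1) : IsCost n p (costH p α) where
  zero := by unfold costH; rw [jinv_zero]; exact hardyPow_zero hp0
  add u v hu hv := by
    unfold costH
    rw [jinv_add _ hu hv]
    exact hardyPow_add hp0 hp1 (integrable_jinv _ hu) (integrable_jinv _ hv)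
  smul t u hu := by
    unfold costH
    rw [jinv_smul _ hu]
    have := hardyPow_smul hp0 (jinv (α / 2) u) (t : ℂ)
    rwa [Complex.norm_real, Real.norm_eq_abs] at this
  trans u z _ := by
    unfold costH
    rw [jinv_translate, hardyPow_translate]

/-! ### the atom estimate -/

lemma kappa_integrable {b : ℝ} (hb : 0 < b) {N : ℕ} (hN : 2 * b < N) :
    IntegrableOn (fun σ : ℝ => σ ^ (b - 1) * (min 1 (Real.sqrt σ)⁻¹) ^ N) (Ioi 0) := by
  have hmeas : Measurable (fun σ : ℝ => σ ^ (b - 1) * (min 1 (Real.sqrt σ)⁻¹) ^ N) := by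
    fun_prop
  have hsplit : Ioi (0:ℝ) = Ioc 0 1 ∪ Ioi 1 := (Ioc_union_Ioi_eq_Ioi zero_le_one).symm
  rw [hsplit]
  apply IntegrableOn.union
  · have h1 : IntegrableOn (fun σ : ℝ => σ ^ (b - 1)) (Ioc 0 1) := by
      have := intervalIntegral.intervalIntegrable_rpow' (a := 0) (b := 1) (r := b - 1) (by linarith)
      rwa [intervalIntegrable_iff_integrableOn_Ioc_of_le zero_le_one] at this
    refine Integrable.mono' h1 hmeas.aestronglyMeasurable ?_
    rw [ae_restrict_iff' measurableSet_Ioc]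
    filter_upwards with σ hσ
    have h2 : 0 ≤ σ ^ (b - 1) := Real.rpow_nonneg hσ.1.le _
    have h3 : 0 ≤ min 1 (Real.sqrt σ)⁻¹ := by positivity
    rw [Real.norm_eq_abs, abs_of_nonneg (by positivity)]
    calc σ ^ (b - 1) * (min 1 (Real.sqrt σ)⁻¹) ^ N ≤ σ ^ (b - 1) * 1 := by
          gcongr
          exact pow_le_one₀ h3 (min_le_left _ _)
      _ = _ := mul_one _
  · have h1 : IntegrableOn (fun σ : ℝ => σ ^ (b - 1 - N / 2)) (Ioi 1) :=
      integrableOn_Ioi_rpow_of_lt (by linarith) one_pos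
    refine Integrable.mono' h1 hmeas.aestronglyMeasurable ?_
    rw [ae_restrict_iff' measurableSet_Ioi]
    filter_upwards with σ hσ
    have hσ0 : (0:ℝ) < σ := lt_trans one_pos hσ
    have h2 : 0 ≤ σ ^ (b - 1) := Real.rpow_nonneg hσ0.le _
    have h3 : 0 ≤ min 1 (Real.sqrt σ)⁻¹ := by positivity
    rw [Real.norm_eq_abs, abs_of_nonneg (by positivity)]
    calc σ ^ (b - 1) * (min 1 (Real.sqrt σ)⁻¹) ^ N ≤ σ ^ (b - 1) * ((Real.sqrt σ)⁻¹) ^ N := by
          gcongr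
          exact min_le_right _ _
      _ = σ ^ (b - 1 - N / 2) := by
          rw [Real.sqrt_eq_rpow, ← Real.rpow_neg hσ0.le, ← Real.rpow_natCast, ← Real.rpow_mul hσ0.le,
            ← Real.rpow_add hσ0]
          congr 1
          ring

lemma kappa_scale {b : ℝ} (N : ℕ) {c : ℝ} (hc : 0 < c) :
    ∫ τ in Ioi (0:ℝ), τ ^ (b - 1) * (min 1 (c * Real.sqrt τ)⁻¹) ^ N =
      (c ^ 2) ^ (-b) * ∫ σ in Ioi (0:ℝ), σ ^ (b - 1) * (min 1 (Real.sqrt σ)⁻¹) ^ N := by
  have hc2 : 0 < c ^ 2 := by positivity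
  have h1 := integral_comp_mul_left_Ioi (fun σ : ℝ => σ ^ (b - 1) * (min 1 (Real.sqrt σ)⁻¹) ^ N) 0 hc2
  rw [mul_zero, smul_eq_mul] at h1
  have h2 : ∫ τ in Ioi (0:ℝ), τ ^ (b - 1) * (min 1 (c * Real.sqrt τ)⁻¹) ^ N =
      (c ^ 2) ^ (-(b - 1)) * ∫ τ in Ioi (0:ℝ), (c ^ 2 * τ) ^ (b - 1) * (min 1 (Real.sqrt (c ^ 2 * τ))⁻¹) ^ N := by
    rw [← integral_const_mul]
    apply setIntegral_congr_fun measurableSet_Ioi
    intro τ hτ
    have hτ0 : (0:ℝ) < τ := hτ
    simp only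
    rw [Real.mul_rpow hc2.le hτ0.le, Real.sqrt_mul hc2.le, Real.sqrt_sq hc.le, ← mul_assoc, ← mul_assoc,
      ← Real.rpow_add hc2]
    simp
  rw [h2, h1, ← mul_assoc]
  congr 1
  rw [← Real.rpow_neg_one, ← Real.rpow_add hc2]
  congr 1
  ring

lemma kappa_integrable_scale {b : ℝ} (hb : 0 < b) {N : ℕ} (hN : 2 * b < N) {c : ℝ} (hc : 0 < c) :
    IntegrableOn (fun τ : ℝ => τ ^ (b - 1) * (min 1 (c * Real.sqrt τ)⁻¹) ^ N) (Ioi 0) := by
  have hc2 : 0 < c ^ 2 := by positivity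
  have h1 := (integrableOn_Ioi_comp_mul_left_iff
    (fun σ : ℝ => σ ^ (b - 1) * (min 1 (Real.sqrt σ)⁻¹) ^ N) 0 hc2).2 (by
      rw [mul_zero]; exact kappa_integrable hb hN)
  have h2 := h1.const_mul ((c ^ 2) ^ (-(b - 1)))
  refine IntegrableOn.congr_fun h2 ?_ measurableSet_Ioi
  intro τ hτ
  have hτ0 : (0:ℝ) < τ := hτ
  simp only
  rw [Real.mul_rpow hc2.le hτ0.le, Real.sqrt_mul hc2.le, Real.sqrt_sq hc.le, ← mul_assoc, ← mul_assoc,
    ← Real.rpow_add hc2]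
  simp

/-- `(1-Δ)^m u` -/
noncomputable def bigL (m : ℕ) (u : Sp n → ℝ) : Sp n → ℝ :=
  ∑ i ∈ Finset.range (m + 1), ((m.choose i : ℕ) : ℝ) • laps i u

lemma Cc.bigL {u : Sp n → ℝ} (hu : Cc u) (m : ℕ) : Cc (Bhc.bigL m u) :=
  Cc.sum fun i _ => (hu.laps i).smul _

lemma fourier_bigL {u : Sp n → ℝ} (hu : Cc u) (m : ℕ) (ξ : Sp n) :
    𝓕 (cx (bigL m u)) ξ = (((asym ξ) ^ m : ℝ) : ℂ) * 𝓕 (cx u) ξ := by
  unfold bigL
  rw [fourier_sum_cx (fun i _ => (hu.laps i).smul _)]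
  have h1 : ∀ i, 𝓕 (cx (((m.choose i : ℕ) : ℝ) • laps i u)) ξ =
      (((m.choose i : ℕ) : ℝ) * ((2 * π * ‖ξ‖) ^ 2) ^ i : ℝ) * 𝓕 (cx u) ξ := by
    intro i
    rw [fourier_smul_cx (hu.laps i), fourier_laps hu]
    push_cast
    ring
  simp_rw [h1]
  rw [← Finset.sum_mul, ← Complex.ofReal_sum]
  congr 2
  unfold asym
  rw [add_comm (1:ℝ) ((2 * π * ‖ξ‖) ^ 2), add_pow]
  apply Finset.sum_congr rfl
  intro i _
  rw [one_pow]
  ring

lemma cx_add (u v : Sp n → ℝ) : cx (u + v) = cx u + cx v := by funext x; simp [cx]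

lemma cx_smul (a : ℝ) (u : Sp n → ℝ) : cx (a • u) = (a : ℂ) • cx u := by funext x; simp [cx]

lemma heatExt_sum {ι : Type*} {S : Finset ι} {f : ι → Sp n → ℝ} (h : ∀ i ∈ S, Cc (f i)) {t : ℝ}
    (ht : 0 < t) (x : Sp n) : heatExt (cx (∑ i ∈ S, f i)) t x = ∑ i ∈ S, heatExt (cx (f i)) t x := by
  classical
  induction S using Finset.induction_on with
  | empty =>
    simp only [Finset.sum_empty]
    have : cx (0 : Sp n → ℝ) = 0 := by funext x; simp [cx]
    rw [this, heatExt_zero]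
  | insert a S ha ih =>
    rw [Finset.sum_insert ha, Finset.sum_insert ha]
    have h1 : ∀ i ∈ S, Cc (f i) := fun i hi => h i (Finset.mem_insert_of_mem hi)
    rw [cx_add, heatExt_add (h a (Finset.mem_insert_self _ _)).integrable_cx (Cc.sum h1).integrable_cx ht,
      ih h1]

/-- bound for the heat extension of `(1-Δ)^m` of an atom -/
lemma bigL_atom {w : Sp n → ℝ} (hw : Cc w) (m M L d : ℕ) (hd : M + L ≤ d + 1) (hv : VM (d + 1) w) :
    ∃ C, 0 ≤ C ∧ ∀ (c : ℝ), 1 ≤ c → ∀ (z : Sp n) (t : ℝ), 0 < t → ∀ y : Sp n,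
      ‖heatExt (cx (bigL m (dil c z w))) t y‖ ≤
        C * c ^ (2 * m) * (min 1 (c * Real.sqrt t)⁻¹) ^ M * ((1 + ‖c • y - z‖) ^ L)⁻¹ := by
  have key : ∀ i : ℕ, ∃ C, 0 ≤ C ∧ ∀ (c : ℝ), 0 < c → ∀ (z : Sp n) (t : ℝ), 0 < t → ∀ y : Sp n,
      ‖heatExt (cx (dil c z (laps i w))) t y‖ ≤
        C * (min 1 (c * Real.sqrt t)⁻¹) ^ M * ((1 + ‖c • y - z‖) ^ L)⁻¹ := fun i =>
    heatExt_atom (hw.laps i) M L d hd (hv.laps hw i)
  choose C hC0 hC using key
  refine ⟨∑ i ∈ Finset.range (m + 1), (m.choose i : ℝ) * C i,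
    Finset.sum_nonneg fun i _ => mul_nonneg (Nat.cast_nonneg _) (hC0 i), ?_⟩
  intro c hc z t ht y
  have hc0 : 0 < c := by linarith
  have hcc : Cc (dil c z w) := hw.dil hc0.ne' z
  unfold bigL
  rw [heatExt_sum (fun i _ => (hcc.laps i).smul _) ht]
  refine (norm_sum_le _ _).trans ?_
  rw [Finset.sum_mul, Finset.sum_mul, Finset.sum_mul]
  apply Finset.sum_le_sum
  intro i hi
  have hi' : i ≤ m := Nat.lt_succ_iff.1 (Finset.mem_range.1 hi)
  rw [laps_dil hw hc0.ne' z i, smul_smul, cx_smul, heatExt_smul, norm_mul, Complex.norm_real,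
    Real.norm_eq_abs, abs_of_nonneg (by positivity)]
  have h1 := hC i c hc0 z t ht y
  have h2 : (c ^ 2) ^ i ≤ c ^ (2 * m) := by
    rw [← pow_mul]
    exact pow_le_pow_right₀ hc (by omega)
  have h3 : 0 ≤ (min 1 (c * Real.sqrt t)⁻¹) ^ M := by
    have : 0 < (c * Real.sqrt t)⁻¹ := by have := Real.sqrt_pos.2 ht; positivity
    positivity
  calc (m.choose i : ℝ) * (c ^ 2) ^ i * ‖heatExt (cx (dil c z (laps i w))) t y‖
      ≤ (m.choose i : ℝ) * c ^ (2 * m) *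
        (C i * (min 1 (c * Real.sqrt t)⁻¹) ^ M * ((1 + ‖c • y - z‖) ^ L)⁻¹) := by
        apply mul_le_mul _ h1 (norm_nonneg _) (by positivity)
        gcongr
    _ = _ := by ring

/-- representation of the heat extension of the inverse potential -/
lemma heatExt_jinv {u : Sp n → ℝ} (hu : Cc u) {α : ℝ} {m : ℕ} (hm : α < 2 * m) {t : ℝ} (ht : 0 < t)
    (y : Sp n) :
    heatExt (jinv (α / 2) u) t y = ((Real.Gamma ((2 * m - α) / 2))⁻¹ : ℝ) •
      ∫ τ in Ioi (0:ℝ), ((τ ^ ((2 * m - α) / 2 - 1) * Real.exp (-τ) : ℝ) : ℂ) *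
        heatExt (cx (bigL m u)) (t + τ) y := by
  rw [heatExt_eq (integrable_jinv _ hu) ht]
  have hβ : 0 < 2 * m - α := by linarith
  have hg : Integrable (𝓕 (cx (bigL m u))) := by
    rw [(hu.bigL m).fourier_toS]; exact (𝓕 (hu.bigL m).toS).integrable
  have h1 : (fun ξ => gsym t ξ * 𝓕 (jinv (α / 2) u) ξ) =
      fun ξ => gsym t ξ * (((asym ξ) ^ (-((2 * m - α) / 2)) : ℝ) : ℂ) * 𝓕 (cx (bigL m u)) ξ := by
    funext ξ
    rw [fourier_jinv _ hu, fourier_bigL hu]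
    have h2 : (asym ξ) ^ (α / 2) = (asym ξ) ^ (-((2 * m - α) / 2)) * (asym ξ) ^ m := by
      rw [← Real.rpow_natCast, ← Real.rpow_add (asym_pos ξ)]
      congr 1
      ring
    rw [h2]
    push_cast
    ring
  rw [h1, bessel_fubini hg hβ ht.le y]
  congr 1
  apply setIntegral_congr_fun measurableSet_Ioi
  intro τ hτ
  simp only
  rw [heatExt_eq (hu.bigL m).integrable_cx (by have : (0:ℝ) < τ := hτ; linarith)]

lemma hardy_pt {w : Sp n → ℝ} (hw : Cc w) {α : ℝ} {m : ℕ} (hα : 0 < α) (hm : α < 2 * m) (L : ℕ)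
    (hv : VM (2 * m + L + L + 1) w) :
    ∃ C, 0 ≤ C ∧ ∀ (c : ℝ), 1 ≤ c → ∀ (z : Sp n) (t : ℝ), 0 < t → ∀ y : Sp n,
      ‖heatExt (jinv (α / 2) (dil c z w)) t y‖ ≤
        C * c ^ α * (min 1 (c * Real.sqrt t)⁻¹) ^ L * ((1 + ‖c • y - z‖) ^ L)⁻¹ := by
  obtain ⟨C, hC0, hC⟩ := bigL_atom hw m (2 * m + L) L (2 * m + L + L) (by omega) hv
  set b : ℝ := (2 * m - α) / 2 with hb
  have hb0 : 0 < b := by rw [hb]; linarith
  have hbN : 2 * b < (2 * m : ℕ) := by rw [hb]; push_cast; linarith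
  set I0 : ℝ := ∫ σ in Ioi (0:ℝ), σ ^ (b - 1) * (min 1 (Real.sqrt σ)⁻¹) ^ (2 * m) with hI0
  have hI00 : 0 ≤ I0 := by
    apply setIntegral_nonneg measurableSet_Ioi
    intro σ hσ
    have hσ0 : (0:ℝ) < σ := hσ
    positivity
  have hΓ : 0 < Real.Gamma b := Real.Gamma_pos_of_pos hb0
  refine ⟨(Real.Gamma b)⁻¹ * (C * I0), by positivity, fun c hc z t ht y => ?_⟩
  have hc0 : 0 < c := by linarith
  have hst : 0 < Real.sqrt t := Real.sqrt_pos.2 ht
  have hcc : Cc (dil c z w) := hw.dil hc0.ne' z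
  rw [heatExt_jinv hcc hm ht y, norm_smul, Real.norm_eq_abs, abs_of_pos (inv_pos.2 hΓ)]
  set W : ℝ := (min 1 (c * Real.sqrt t)⁻¹) ^ L * ((1 + ‖c • y - z‖) ^ L)⁻¹ with hW
  have hW0 : 0 ≤ W := by positivity
  have hbound : ∀ τ ∈ Ioi (0:ℝ), ‖((τ ^ (b - 1) * Real.exp (-τ) : ℝ) : ℂ) *
      heatExt (cx (bigL m (dil c z w))) (t + τ) y‖ ≤
      (C * c ^ (2 * m) * W) * (τ ^ (b - 1) * (min 1 (c * Real.sqrt τ)⁻¹) ^ (2 * m)) := by
    intro τ hτ
    have hτ0 : (0:ℝ) < τ := hτ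
    have hsτ : 0 < Real.sqrt τ := Real.sqrt_pos.2 hτ0
    rw [norm_mul, Complex.norm_real, Real.norm_eq_abs, abs_of_nonneg (by positivity)]
    have h1 := hC c hc z (t + τ) (by linarith) y
    have h2 : Real.exp (-τ) ≤ 1 := Real.exp_le_one_iff.2 (by linarith)
    have h3 : min 1 (c * Real.sqrt (t + τ))⁻¹ ≤ min 1 (c * Real.sqrt t)⁻¹ := by
      apply min_le_min le_rfl
      apply inv_anti₀ (by positivity)
      have := Real.sqrt_le_sqrt (show t ≤ t + τ by linarith)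
      gcongr
    have h4 : min 1 (c * Real.sqrt (t + τ))⁻¹ ≤ min 1 (c * Real.sqrt τ)⁻¹ := by
      apply min_le_min le_rfl
      apply inv_anti₀ (by positivity)
      have := Real.sqrt_le_sqrt (show τ ≤ t + τ by linarith)
      gcongr
    have h5 : 0 ≤ min 1 (c * Real.sqrt (t + τ))⁻¹ := by positivity
    have h6 : (min 1 (c * Real.sqrt (t + τ))⁻¹) ^ (2 * m + L) ≤
        (min 1 (c * Real.sqrt τ)⁻¹) ^ (2 * m) * (min 1 (c * Real.sqrt t)⁻¹) ^ L := by
      rw [pow_add]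
      gcongr
    calc τ ^ (b - 1) * Real.exp (-τ) * ‖heatExt (cx (bigL m (dil c z w))) (t + τ) y‖
        ≤ τ ^ (b - 1) * 1 * (C * c ^ (2 * m) * ((min 1 (c * Real.sqrt τ)⁻¹) ^ (2 * m) *
          (min 1 (c * Real.sqrt t)⁻¹) ^ L) * ((1 + ‖c • y - z‖) ^ L)⁻¹) := by
          apply mul_le_mul _ (h1.trans _) (norm_nonneg _) (by positivity)
          · gcongr
          · gcongr
      _ = _ := by rw [hW]; ring
  have hint := (kappa_integrable_scale hb0 hbN hc0).const_mul (C * c ^ (2 * m) * W)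
  have h7 := norm_integral_le_of_norm_le hint (by
    rw [ae_restrict_iff' measurableSet_Ioi]
    exact Filter.Eventually.of_forall hbound)
  rw [integral_const_mul, kappa_scale (2 * m) hc0, ← hI0] at h7
  have h8 : c ^ (2 * m) * (c ^ 2) ^ (-b) = c ^ α := by
    rw [← Real.rpow_natCast, ← Real.rpow_natCast c 2, ← Real.rpow_mul hc0.le, ← Real.rpow_add hc0]
    congr 1
    rw [hb]; push_cast; ring
  calc (Real.Gamma b)⁻¹ * ‖∫ τ in Ioi (0:ℝ), ((τ ^ (b - 1) * Real.exp (-τ) : ℝ) : ℂ) *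
        heatExt (cx (bigL m (dil c z w))) (t + τ) y‖
      ≤ (Real.Gamma b)⁻¹ * (C * c ^ (2 * m) * W * ((c ^ 2) ^ (-b) * I0)) := by gcongr
    _ = (Real.Gamma b)⁻¹ * (C * I0) * (c ^ (2 * m) * (c ^ 2) ^ (-b)) * W := by ring
    _ = (Real.Gamma b)⁻¹ * (C * I0) * c ^ α * (min 1 (c * Real.sqrt t)⁻¹) ^ L *
        ((1 + ‖c • y - z‖) ^ L)⁻¹ := by rw [h8, hW]; ring

/-! ### integrating the pointwise bound -/

/-- `∫ (1 + ‖c x - z‖)^{-Lp} dx = c^{-n} J` -/
lemma lintegral_weight {p : ℝ} {L : ℕ} (hL : n < L * p) :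
    ∃ J : ℝ, 0 ≤ J ∧ ∀ (c : ℝ), 0 < c → ∀ z : Sp n,
      ∫⁻ x : Sp n, ENNReal.ofReal (((1 + ‖c • x - z‖) ^ L)⁻¹) ^ p ≤ ENNReal.ofReal ((c ^ n)⁻¹ * J) := by
  have hp : 0 < p := by
    by_contra hcon
    push Not at hcon
    have h1 : (0:ℝ) ≤ n := Nat.cast_nonneg _
    have h2 : (0:ℝ) ≤ L := Nat.cast_nonneg _
    nlinarith [mul_nonneg h2 (neg_nonneg.2 hcon)]
  have hJi : Integrable fun x : Sp n => (1 + ‖x‖) ^ (-(L * p)) := by
    apply integrable_one_add_norm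
    rw [finrank_euclideanSpace_fin]
    exact hL
  refine ⟨∫ x : Sp n, (1 + ‖x‖) ^ (-(L * p)), integral_nonneg fun x => by positivity,
    fun c hc z => ?_⟩
  have h1 : ∀ x : Sp n, ENNReal.ofReal (((1 + ‖c • x - z‖) ^ L)⁻¹) ^ p =
      ENNReal.ofReal ((1 + ‖c • x - z‖) ^ (-(L * p))) := by
    intro x
    rw [ENNReal.ofReal_rpow_of_nonneg (by positivity) hp.le]
    congr 1
    rw [← Real.rpow_natCast, ← Real.rpow_neg (by positivity), ← Real.rpow_mul (by positivity)]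
    congr 1
    ring
  simp_rw [h1]
  have hi : Integrable fun x : Sp n => (1 + ‖c • x - z‖) ^ (-(L * p)) := by
    have h2 := hJi.comp_sub_right z
    exact h2.comp_smul hc.ne'
  rw [← ofReal_integral_eq_lintegral_ofReal hi (Filter.Eventually.of_forall fun x => by positivity)]
  apply ENNReal.ofReal_le_ofReal
  apply le_of_eq
  have := integral_dil (fun x : Sp n => (1 + ‖x‖) ^ (-(L * p))) hc z
  rw [this, smul_eq_mul]

theorem atomB_costH {p α : ℝ} (hp0 : 0 < p) (hα : 0 < α) :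
    ∃ d, AtomB (n - α * p) (costH (n := n) p α) d := by
  obtain ⟨m, hm⟩ := exists_nat_gt (α / 2)
  have hm' : α < 2 * m := by linarith
  obtain ⟨L, hL⟩ := exists_nat_gt (n / p)
  have hL' : (n:ℝ) < L * p := by rwa [div_lt_iff₀ hp0] at hL
  refine ⟨2 * m + L + L + 1, fun w hw hv => ?_⟩
  obtain ⟨C, hC0, hC⟩ := hardy_pt hw hα hm' L hv
  obtain ⟨J, hJ0, hJ⟩ := lintegral_weight (n := n) hL'
  refine ⟨(C * 2 ^ L) ^ p * J, by positivity, fun j z => ?_⟩
  set c : ℝ := 2 ^ j with hc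
  have hc1 : 1 ≤ c := one_le_pow₀ (by norm_num)
  have hc0 : 0 < c := by linarith
  have hnt : ∀ x, ntMax (jinv (α / 2) (dil c z w)) x ≤
      ENNReal.ofReal (C * 2 ^ L * c ^ α) * ENNReal.ofReal (((1 + ‖c • x - z‖) ^ L)⁻¹) := by
    intro x
    apply ntMax_le
    intro t ht y hy
    rw [← ENNReal.ofReal_mul (by positivity), ← ofReal_norm]
    apply ENNReal.ofReal_le_ofReal
    refine (hC c hc1 z t ht y).trans ?_
    have hst : 0 < Real.sqrt t := Real.sqrt_pos.2 ht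
    have h1 : 1 + ‖c • x - z‖ ≤ (1 + ‖c • y - z‖) * (1 + c * Real.sqrt t) := by
      have h2 : c • x - z = (c • y - z) - c • (y - x) := by rw [smul_sub]; abel
      have h3 : ‖c • x - z‖ ≤ ‖c • y - z‖ + c * ‖y - x‖ := by
        rw [h2]
        refine (norm_sub_le _ _).trans ?_
        rw [norm_smul, Real.norm_eq_abs, abs_of_pos hc0]
      have h4 : c * ‖y - x‖ ≤ c * Real.sqrt t := mul_le_mul_of_nonneg_left hy.le hc0.le
      nlinarith [norm_nonneg (c • y - z), mul_nonneg hc0.le hst.le,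
        mul_nonneg (norm_nonneg (c • y - z)) (mul_nonneg hc0.le hst.le)]
    have h5 : min 1 (c * Real.sqrt t)⁻¹ * (1 + c * Real.sqrt t) ≤ 2 := by
      rcases le_total 1 (c * Real.sqrt t) with h | h
      · calc min 1 (c * Real.sqrt t)⁻¹ * (1 + c * Real.sqrt t)
            ≤ (c * Real.sqrt t)⁻¹ * (1 + c * Real.sqrt t) := by
              gcongr; exact min_le_right _ _
          _ = (c * Real.sqrt t)⁻¹ + 1 := by
              have : c * Real.sqrt t ≠ 0 := by positivity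
              field_simp
          _ ≤ 1 + 1 := by
              gcongr
              exact inv_le_one_of_one_le₀ h
          _ = 2 := by norm_num
      · calc min 1 (c * Real.sqrt t)⁻¹ * (1 + c * Real.sqrt t) ≤ 1 * (1 + c * Real.sqrt t) := by
              gcongr; exact min_le_left _ _
          _ ≤ 2 := by linarith
    have h6 : (min 1 (c * Real.sqrt t)⁻¹) ^ L * ((1 + ‖c • y - z‖) ^ L)⁻¹ ≤
        2 ^ L * ((1 + ‖c • x - z‖) ^ L)⁻¹ := by
      rw [← div_eq_mul_inv, ← div_eq_mul_inv, div_le_div_iff₀ (by positivity) (by positivity),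
        ← mul_pow, ← mul_pow]
      apply pow_le_pow_left₀ (by positivity)
      calc min 1 (c * Real.sqrt t)⁻¹ * (1 + ‖c • x - z‖)
          ≤ min 1 (c * Real.sqrt t)⁻¹ * ((1 + ‖c • y - z‖) * (1 + c * Real.sqrt t)) := by gcongr
        _ = (min 1 (c * Real.sqrt t)⁻¹ * (1 + c * Real.sqrt t)) * (1 + ‖c • y - z‖) := by ring
        _ ≤ 2 * (1 + ‖c • y - z‖) := by gcongr
    calc C * c ^ α * (min 1 (c * Real.sqrt t)⁻¹) ^ L * ((1 + ‖c • y - z‖) ^ L)⁻¹
        = C * c ^ α * ((min 1 (c * Real.sqrt t)⁻¹) ^ L * ((1 + ‖c • y - z‖) ^ L)⁻¹) := by ring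
      _ ≤ C * c ^ α * (2 ^ L * ((1 + ‖c • x - z‖) ^ L)⁻¹) := by gcongr
      _ = _ := by ring
  unfold costH hardyPow
  calc ∫⁻ x, ntMax (jinv (α / 2) (dil c z w)) x ^ p
      ≤ ∫⁻ x, ENNReal.ofReal (C * 2 ^ L * c ^ α) ^ p *
          ENNReal.ofReal (((1 + ‖c • x - z‖) ^ L)⁻¹) ^ p := by
        apply lintegral_mono
        intro x
        simp only
        rw [← ENNReal.mul_rpow_of_nonneg _ _ hp0.le]
        exact ENNReal.rpow_le_rpow (hnt x) hp0.le
    _ = ENNReal.ofReal (C * 2 ^ L * c ^ α) ^ p *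
          ∫⁻ x, ENNReal.ofReal (((1 + ‖c • x - z‖) ^ L)⁻¹) ^ p := by
        rw [lintegral_const_mul']
        exact ENNReal.rpow_ne_top_of_nonneg hp0.le ENNReal.ofReal_ne_top
    _ ≤ ENNReal.ofReal (C * 2 ^ L * c ^ α) ^ p * ENNReal.ofReal ((c ^ n)⁻¹ * J) := by
        gcongr
        exact hJ c hc0 z
    _ = ENNReal.ofReal ((C * 2 ^ L) ^ p * J * sd (n - α * p) j) := by
        rw [ENNReal.ofReal_rpow_of_nonneg (by positivity) hp0.le, ← ENNReal.ofReal_mul (by positivity)]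
        congr 1
        rw [Real.mul_rpow (by positivity) (by positivity), ← Real.rpow_mul hc0.le]
        have h9 : c ^ (α * p) * (c ^ n)⁻¹ = sd (n - α * p) j := by
          unfold sd
          rw [← Real.rpow_natCast c n, ← Real.rpow_neg hc0.le, ← Real.rpow_add hc0, hc,
            ← Real.rpow_natCast, ← Real.rpow_mul (by norm_num)]
          congr 1
          ring
        rw [← h9]
        ring

end Pool.Agent.Bhc
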