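import Mathlib
import Pool.Agent.Lib_helper48.BhcGeomA
import Pool.Agent.Lib_helper48.BhcHardy

/-!
# Lower bounds for the dyadic content

Helper file for the hand-in on `MP_9b3711_an`.
-/

open MeasureTheory Set FourierTransform Real
open scoped ENNReal NNReal ContDiff SchwartzMap RealInnerProductSpace

namespace Pool.Agent.Bhc

variable {n : ℕ}

lemma cube_child_subset (j : ℕ) (k : Fin n → ℤ) (e : Fin n → Fin 2) :
    cube (j + 1) (child k e) ⊆ cube j k := fun _ hx => cell_child hx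

lemma iInf_cube_mul_le (G : Sp n → ℝ≥0∞) (j : ℕ) (k : Fin n → ℤ) :
    ENNReal.ofReal (sd n j) * ⨅ y ∈ cube j k, G y ≤ ∫⁻ y in cube j k, G y := by
  rw [← volume_cube j k, mul_comm, ← setLIntegral_const]
  apply setLIntegral_mono' (measurableSet_cube j k)
  intro y hy
  exact iInf₂_le y hy

lemma iInf_cube_lt_top {G : Sp n → ℝ≥0∞} (hG : ∫⁻ y, G y < ⊤) (j : ℕ) (k : Fin n → ℤ) :
    ⨅ y ∈ cube j k, G y < ⊤ := by
  have h1 := iInf_cube_mul_le G j k
  have h2 : ∫⁻ y in cube j k, G y < ⊤ := lt_of_le_of_lt (setLIntegral_le_lintegral _ _) hG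
  by_contra hcon
  rw [not_lt_top_iff] at hcon
  rw [hcon, ENNReal.mul_top] at h1
  · exact absurd (lt_of_le_of_lt h1 h2) (lt_irrefl _)
  · exact (ENNReal.ofReal_pos.2 (sd_pos _ _)).ne'

/-- From a pointwise bound by infima over dyadic cubes to a bound on the content. -/
theorem content_le {K : Set (Sp n)} {a : ℝ} (ha : 0 < a) {G : Sp n → ℝ≥0∞}
    (hG : ∫⁻ y, G y < ⊤) (i : ℕ)
    (h : ∀ x ∈ K, 1 ≤ ∑ l ∈ Finset.range (i + 1), ENNReal.ofReal (sd a l) *
      ⨅ y ∈ cube l (cell l x), G y) (k : Fin n → ℤ) :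
    cont K (n - a) i 0 k ≤ (1 - (2:ℝ) ^ (-a))⁻¹ * (∫⁻ y, G y).toReal := by
  set g : ℕ → (Fin n → ℤ) → ℝ := fun j k => (⨅ y ∈ cube j k, G y).toReal with hg
  set I : ℕ → (Fin n → ℤ) → ℝ := fun j k => (∫⁻ y in cube j k, G y).toReal with hI
  have hIfin : ∀ j k, ∫⁻ y in cube j k, G y < ⊤ := fun j k =>
    lt_of_le_of_lt (setLIntegral_le_lintegral _ _) hG
  have h1 := tree_lemma K ha g I (fun j k => ENNReal.toReal_nonneg)
    (fun j k e => ENNReal.toReal_mono (iInf_cube_lt_top hG _ _).ne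
      (biInf_mono (cube_child_subset j k e)))
    (fun j k => by
      have := ENNReal.toReal_mono (hIfin j k).ne (iInf_cube_mul_le G j k)
      rwa [ENNReal.toReal_mul, ENNReal.toReal_ofReal (sd_pos _ _).le] at this)
    (fun j k => by
      simp only [hI]
      rw [← ENNReal.toReal_sum (fun e _ => (hIfin _ _).ne)]
      apply ENNReal.toReal_mono (hIfin j k).ne
      rw [cube_eq_iUnion_child j k, lintegral_iUnion (fun e => measurableSet_cube _ _)]
      · rw [tsum_fintype]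
      · intro e e' hne
        exact cube_disjoint fun h => hne (child_injective k h))
    i 0 k 1 (by
      rintro x ⟨hx, hxk⟩
      have h2 := h x hx
      have h3 : ∑ l ∈ Finset.range (i + 1), ENNReal.ofReal (sd a l) * ⨅ y ∈ cube l (cell l x), G y =
          ENNReal.ofReal (∑ l ∈ Finset.range (i + 1), sd a (0 + l) * g (0 + l) (cell (0 + l) x)) := by
        rw [ENNReal.ofReal_sum_of_nonneg (fun l _ => mul_nonneg (sd_pos _ _).le ENNReal.toReal_nonneg)]
        apply Finset.sum_congr rfl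
        intro l _
        rw [zero_add, ENNReal.ofReal_mul (sd_pos _ _).le,
          ENNReal.ofReal_toReal (iInf_cube_lt_top hG _ _).ne]
      rw [h3, ← ENNReal.ofReal_one] at h2
      exact (ENNReal.ofReal_le_ofReal_iff (Finset.sum_nonneg fun l _ =>
        mul_nonneg (sd_pos _ _).le ENNReal.toReal_nonneg)).1 h2)
  have hq1 : (2:ℝ) ^ (-a) < 1 := Real.rpow_lt_one_of_one_lt_of_neg (by norm_num) (by linarith)
  have hA : 0 ≤ (1 - (2:ℝ) ^ (-a))⁻¹ := inv_nonneg.2 (by linarith)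
  have h4 : I 0 k ≤ (∫⁻ y, G y).toReal :=
    ENNReal.toReal_mono hG.ne (setLIntegral_le_lintegral _ _)
  have h5 : 0 ≤ (1 - (2:ℝ) ^ (-a))⁻¹ * (sd n 0 - cont K (n - a) i 0 k * sd a 0) * g 0 k := by
    apply mul_nonneg (mul_nonneg hA _) ENNReal.toReal_nonneg
    rw [sd_zero, sd_zero, mul_one]
    have := cont_le_sd K (n - a) i 0 k
    rw [sd_zero] at this
    linarith
  have h6 := mul_le_mul_of_nonneg_left h4 hA
  linarith

/-! ### heat extensions and dyadic scales -/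

lemma scale_choice (i : ℕ) (hi : 1 ≤ i) {τ : ℝ} (h1 : τ ≤ 1) :
    ∃ l, 1 ≤ l ∧ l ≤ i ∧ τ ≤ ((4:ℝ) ^ (l - 1))⁻¹ ∧ (l = i ∨ ((4:ℝ) ^ l)⁻¹ < τ) := by
  induction i, hi using Nat.le_induction with
  | base => exact ⟨1, le_rfl, le_rfl, by simpa using h1, Or.inl rfl⟩
  | succ i hi ih =>
    obtain ⟨l, hl1, hl2, hl3, hl4⟩ := ih
    rcases le_or_gt τ ((4:ℝ) ^ l)⁻¹ with h | h
    · rcases hl4 with h5 | h5
      · subst h5
        exact ⟨l + 1, by omega, le_rfl, by simpa using h, Or.inl rfl⟩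
      · exact absurd h (not_le.2 h5)
    · exact ⟨l, hl1, by omega, hl3, Or.inr h⟩

/-- points of a small dyadic cube are close -/
lemma cube_close {l0 l : ℕ} (hl0 : ((n:ℝ) + 1) * 2 < 2 ^ l0) {x y : Sp n}
    (hy : y ∈ cube (l + l0) (cell (l + l0) x)) : ‖x - y‖ < ((2:ℝ) ^ l)⁻¹ := by
  have h1 := norm_scaled_le hy
  have h2 := norm_scaled_le (self_mem_cube (l + l0) x)
  have h3 : (2:ℝ) ^ (l + l0) • (x - y) = ((2:ℝ) ^ (l + l0) • x - kv (cell (l + l0) x)) -
      ((2:ℝ) ^ (l + l0) • y - kv (cell (l + l0) x)) := by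
    rw [smul_sub]; abel
  have h4 : ‖(2:ℝ) ^ (l + l0) • (x - y)‖ ≤ (n + 1) + (n + 1) := by
    rw [h3]; exact (norm_sub_le _ _).trans (add_le_add h2 h1)
  rw [norm_smul, Real.norm_eq_abs, abs_of_pos (by positivity), pow_add, mul_assoc] at h4
  have h5 : (0:ℝ) < 2 ^ l := by positivity
  rw [inv_eq_one_div, lt_div_iff₀ h5]
  by_contra hcon
  push Not at hcon
  have h6 : (0:ℝ) < 2 ^ l0 := by positivity
  have h7 : (2:ℝ) ^ l0 * 1 ≤ 2 ^ l0 * (‖x - y‖ * 2 ^ l) := mul_le_mul_of_nonneg_left hcon h6.le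
  nlinarith

lemma setLIntegral_rpow_le {α : ℝ} (hα : 0 < α) (l : ℕ) :
    ∫⁻ τ in Ioc (0:ℝ) ((4:ℝ) ^ l)⁻¹, ENNReal.ofReal (τ ^ (α / 2 - 1) * Real.exp (-τ)) ≤
      ENNReal.ofReal ((2 / α) * sd α l) := by
  have h4 : (0:ℝ) < ((4:ℝ) ^ l)⁻¹ := by positivity
  have hint : IntegrableOn (fun τ : ℝ => τ ^ (α / 2 - 1)) (Ioc 0 ((4:ℝ) ^ l)⁻¹) := by
    have := intervalIntegral.intervalIntegrable_rpow' (a := 0) (b := ((4:ℝ) ^ l)⁻¹) (r := α / 2 - 1)
      (by linarith)
    rwa [intervalIntegrable_iff_integrableOn_Ioc_of_le h4.le] at this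
  calc ∫⁻ τ in Ioc (0:ℝ) ((4:ℝ) ^ l)⁻¹, ENNReal.ofReal (τ ^ (α / 2 - 1) * Real.exp (-τ))
      ≤ ∫⁻ τ in Ioc (0:ℝ) ((4:ℝ) ^ l)⁻¹, ENNReal.ofReal (τ ^ (α / 2 - 1)) := by
        apply setLIntegral_mono' measurableSet_Ioc
        intro τ hτ
        apply ENNReal.ofReal_le_ofReal
        have h5 : Real.exp (-τ) ≤ 1 := Real.exp_le_one_iff.2 (by linarith [hτ.1])
        have h6 : 0 ≤ τ ^ (α / 2 - 1) := Real.rpow_nonneg hτ.1.le _
        nlinarith
    _ = ENNReal.ofReal (∫ τ in Ioc (0:ℝ) ((4:ℝ) ^ l)⁻¹, τ ^ (α / 2 - 1)) := by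
        rw [ofReal_integral_eq_lintegral_ofReal hint]
        rw [Filter.EventuallyLE, ae_restrict_iff' measurableSet_Ioc]
        exact Filter.Eventually.of_forall fun τ hτ => Real.rpow_nonneg hτ.1.le _
    _ = ENNReal.ofReal ((2 / α) * sd α l) := by
        congr 1
        rw [← intervalIntegral.integral_of_le h4.le, integral_rpow (Or.inl (by linarith))]
        rw [Real.zero_rpow (by linarith), sub_zero]
        have h7 : ((4:ℝ) ^ l)⁻¹ ^ (α / 2 - 1 + 1) = sd α l := by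
          unfold sd
          rw [show (4:ℝ) = 2 ^ (2:ℝ) by norm_num, ← Real.rpow_natCast, ← Real.rpow_mul (by norm_num),
            ← Real.rpow_neg (by norm_num), ← Real.rpow_mul (by norm_num)]
          congr 1
          ring
        rw [h7]
        have : α / 2 - 1 + 1 = α / 2 := by ring
        rw [this]
        field_simp

lemma heat_int_bound {α : ℝ} (hα : 0 < α) (H : ℝ → Sp n → ℂ) (N : Sp n → ℝ≥0∞)
    (hN : ∀ t : ℝ, 0 < t → ∀ y x' : Sp n, ‖y - x'‖ < Real.sqrt t → ‖H t y‖ₑ ≤ N x')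
    {l0 : ℕ} (hl0 : ((n:ℝ) + 1) * 2 < 2 ^ l0) (i : ℕ) (hi : 1 ≤ i) (x : Sp n) :
    ∫⁻ τ in Ioi (0:ℝ), ENNReal.ofReal (τ ^ (α / 2 - 1) * Real.exp (-τ)) * ‖H (((4:ℝ) ^ i)⁻¹ + τ) x‖ₑ ≤
      ∑ l ∈ Finset.range (i + 1), ENNReal.ofReal ((Real.Gamma (α / 2) + (2 / α) * (2:ℝ) ^ α) * sd α l) *
        ⨅ y ∈ cube (l + l0) (cell (l + l0) x), N y := by
  have hα2 : 0 < α / 2 := by linarith
  have hΓ : 0 < Real.Gamma (α / 2) := Real.Gamma_pos_of_pos hα2
  set m : ℕ → ℝ≥0∞ := fun l => ⨅ y ∈ cube (l + l0) (cell (l + l0) x), N y with hm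
  set S : ℕ → Set ℝ := fun l => if l = 0 then Ioi 0 else Ioc 0 ((4:ℝ) ^ (l - 1))⁻¹ with hS
  have hSm : ∀ l, MeasurableSet (S l) := by
    intro l
    simp only [hS]
    split_ifs
    · exact measurableSet_Ioi
    · exact measurableSet_Ioc
  have hSsub : ∀ l, S l ⊆ Ioi 0 := by
    intro l
    simp only [hS]
    split_ifs
    · exact subset_rfl
    · exact Ioc_subset_Ioi_self
  -- the scale bound
  have hscale : ∀ (l : ℕ) (t : ℝ), ((4:ℝ) ^ l)⁻¹ ≤ t → ‖H t x‖ₑ ≤ m l := by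
    intro l t ht
    have ht0 : 0 < t := lt_of_lt_of_le (by positivity) ht
    simp only [hm]
    refine le_iInf₂ fun y hy => hN t ht0 x y ?_
    refine lt_of_lt_of_le (cube_close hl0 hy) ?_
    apply Real.le_sqrt_of_sq_le
    refine le_trans (le_of_eq ?_) ht
    rw [inv_pow, ← pow_mul, mul_comm, pow_mul]
    norm_num
  have hpt : ∀ τ ∈ Ioi (0:ℝ), ‖H (((4:ℝ) ^ i)⁻¹ + τ) x‖ₑ ≤
      ∑ l ∈ Finset.range (i + 1), (S l).indicator (fun _ => m l) τ := by
    intro τ hτ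
    have hτ0 : (0:ℝ) < τ := hτ
    have h4i : (0:ℝ) < ((4:ℝ) ^ i)⁻¹ := by positivity
    obtain ⟨l, hli, hlS, hlt⟩ : ∃ l, l ≤ i ∧ τ ∈ S l ∧ ((4:ℝ) ^ l)⁻¹ ≤ ((4:ℝ) ^ i)⁻¹ + τ := by
      rcases le_or_gt τ 1 with h | h
      · obtain ⟨l, hl1, hl2, hl3, hl4⟩ := scale_choice i hi h
        refine ⟨l, hl2, ?_, ?_⟩
        · simp only [hS]
          rw [if_neg (by omega)]
          exact ⟨hτ0, hl3⟩
        · rcases hl4 with h5 | h5
          · rw [h5]; linarith
          · linarith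
      · refine ⟨0, Nat.zero_le _, ?_, ?_⟩
        · simp only [hS, if_true]; exact hτ
        · rw [pow_zero, inv_one]; linarith
    calc ‖H (((4:ℝ) ^ i)⁻¹ + τ) x‖ₑ ≤ m l := hscale l _ hlt
      _ = (S l).indicator (fun _ => m l) τ := by rw [indicator_of_mem hlS]
      _ ≤ _ := Finset.single_le_sum (f := fun l => (S l).indicator (fun _ => m l) τ)
          (fun _ _ => zero_le) (Finset.mem_range.2 (by omega))
  have hmeasw : Measurable fun τ : ℝ => ENNReal.ofReal (τ ^ (α / 2 - 1) * Real.exp (-τ)) := by fun_prop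
  have hSint : ∀ l, ∫⁻ τ in S l, ENNReal.ofReal (τ ^ (α / 2 - 1) * Real.exp (-τ)) ≤
      ENNReal.ofReal ((Real.Gamma (α / 2) + (2 / α) * (2:ℝ) ^ α) * sd α l) := by
    intro l
    have h2α : 0 < (2:ℝ) ^ α := Real.rpow_pos_of_pos (by norm_num) _
    rcases Nat.eq_zero_or_pos l with h | h
    · subst h
      simp only [hS, if_true]
      rw [sd_zero, mul_one]
      have hint1 : IntegrableOn (fun τ : ℝ => τ ^ (α / 2 - 1) * Real.exp (-τ)) (Ioi 0) := by
        have := Real.GammaIntegral_convergent hα2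
        refine this.congr_fun (fun τ _ => ?_) measurableSet_Ioi
        ring
      rw [← ofReal_integral_eq_lintegral_ofReal hint1]
      · apply ENNReal.ofReal_le_ofReal
        have h3 := Real.integral_rpow_mul_exp_neg_mul_Ioi hα2 one_pos
        simp only [one_mul, div_one, Real.one_rpow] at h3
        rw [h3]
        have : 0 < (2 / α) * (2:ℝ) ^ α := by positivity
        linarith
      · rw [Filter.EventuallyLE, ae_restrict_iff' measurableSet_Ioi]
        refine Filter.Eventually.of_forall fun τ hτ => ?_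
        have : (0:ℝ) < τ := hτ
        simp only [Pi.zero_apply]
        positivity
    · simp only [hS]
      rw [if_neg (by omega)]
      refine (setLIntegral_rpow_le hα (l - 1)).trans (ENNReal.ofReal_le_ofReal ?_)
      have h3 : sd α (l - 1) = (2:ℝ) ^ α * sd α l := by
        obtain ⟨l, rfl⟩ := Nat.exists_eq_succ_of_ne_zero h.ne'
        simp only [Nat.succ_eq_add_one, Nat.add_sub_cancel]
        rw [sd_succ, ← mul_assoc, ← Real.rpow_add (by norm_num)]
        simp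
      rw [h3]
      have := sd_pos α l
      have h5 : 0 < Real.Gamma (α / 2) * sd α l := by positivity
      calc 2 / α * ((2:ℝ) ^ α * sd α l) = 2 / α * (2:ℝ) ^ α * sd α l := by ring
        _ ≤ _ := by nlinarith
  calc ∫⁻ τ in Ioi (0:ℝ), ENNReal.ofReal (τ ^ (α / 2 - 1) * Real.exp (-τ)) * ‖H (((4:ℝ) ^ i)⁻¹ + τ) x‖ₑ
      ≤ ∫⁻ τ in Ioi (0:ℝ), ENNReal.ofReal (τ ^ (α / 2 - 1) * Real.exp (-τ)) *
        ∑ l ∈ Finset.range (i + 1), (S l).indicator (fun _ => m l) τ := by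
        apply setLIntegral_mono' measurableSet_Ioi
        intro τ hτ
        exact mul_le_mul_right (hpt τ hτ) _
    _ = ∑ l ∈ Finset.range (i + 1), ∫⁻ τ in Ioi (0:ℝ), ENNReal.ofReal (τ ^ (α / 2 - 1) * Real.exp (-τ)) *
        (S l).indicator (fun _ => m l) τ := by
        rw [← lintegral_finsetSum]
        · simp_rw [Finset.mul_sum]
        · intro l _
          exact hmeasw.mul (measurable_const.indicator (hSm l))
    _ ≤ ∑ l ∈ Finset.range (i + 1), ENNReal.ofReal ((Real.Gamma (α / 2) + (2 / α) * (2:ℝ) ^ α) * sd α l) * m l := by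
        apply Finset.sum_le_sum
        intro l _
        have h6 : ∫⁻ τ in Ioi (0:ℝ), ENNReal.ofReal (τ ^ (α / 2 - 1) * Real.exp (-τ)) *
            (S l).indicator (fun _ => m l) τ =
            ∫⁻ τ in S l, ENNReal.ofReal (τ ^ (α / 2 - 1) * Real.exp (-τ)) * m l := by
          have h7 : ∀ τ, ENNReal.ofReal (τ ^ (α / 2 - 1) * Real.exp (-τ)) * (S l).indicator (fun _ => m l) τ =
              (S l).indicator (fun τ => ENNReal.ofReal (τ ^ (α / 2 - 1) * Real.exp (-τ)) * m l) τ := by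
            intro τ
            by_cases h : τ ∈ S l
            · simp [h]
            · simp [h]
          simp_rw [h7]
          rw [setLIntegral_indicator (hSm l), inter_eq_left.2 (hSsub l)]
        rw [h6, lintegral_mul_const _ hmeasw]
        gcongr
        exact hSint l

end Pool.Agent.Bhc
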