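import Mathlib
import Pool.Agent.Lib_helper48.BhcLower

/-!
# Lower bound for the Hardy–Bessel capacity

Helper file for the hand-in on `MP_9b3711_an`.
-/

open MeasureTheory Set FourierTransform Real
open scoped ENNReal NNReal ContDiff SchwartzMap RealInnerProductSpace

namespace Pool.Agent.Bhc

variable {n : ℕ}

lemma rpow_finset_sum_le {p : ℝ} (hp0 : 0 < p) (hp1 : p ≤ 1) {ι : Type*} (S : Finset ι)
    (f : ι → ℝ≥0∞) : (∑ i ∈ S, f i) ^ p ≤ ∑ i ∈ S, f i ^ p := by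
  classical
  induction S using Finset.induction_on with
  | empty => simp [ENNReal.zero_rpow_of_pos hp0]
  | insert a S ha ih =>
    rw [Finset.sum_insert ha, Finset.sum_insert ha]
    exact (ENNReal.rpow_add_le_add_rpow _ _ hp0.le hp1).trans (add_le_add le_rfl ih)

/-- passing from a pointwise bound at shifted scales to the content -/
theorem content_of_shifted {p α : ℝ} (hp0 : 0 < p) (hα : 0 < α) (C2 : ℝ≥0∞) (hC2 : C2 ≠ ⊤) (l0 : ℕ)
    {N : Sp n → ℝ≥0∞} (hNfin : ∫⁻ y, N y ^ p < ⊤) {K : Set (Sp n)} (i : ℕ)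
    (h : ∀ x ∈ K, 1 ≤ C2 * ∑ l ∈ Finset.range (i + 1), ENNReal.ofReal (sd (α * p) l) *
      ⨅ y ∈ cube (l + l0) (cell (l + l0) x), N y ^ p) (k : Fin n → ℤ) :
    cont K (n - α * p) (i + l0) 0 k ≤ (1 - (2:ℝ) ^ (-(α * p)))⁻¹ *
      ((C2 * ENNReal.ofReal ((sd (α * p) l0)⁻¹)) * ∫⁻ y, N y ^ p).toReal := by
  set a : ℝ := α * p with ha
  have ha0 : 0 < a := by positivity
  set D : ℝ≥0∞ := C2 * ENNReal.ofReal ((sd a l0)⁻¹) with hD
  have hDtop : D ≠ ⊤ := ENNReal.mul_ne_top hC2 ENNReal.ofReal_ne_top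
  have hlin : ∫⁻ y, D * N y ^ p = D * ∫⁻ y, N y ^ p := lintegral_const_mul' _ _ hDtop
  have hfin : ∫⁻ y, D * N y ^ p < ⊤ := by
    rw [hlin]; exact ENNReal.mul_lt_top hDtop.lt_top hNfin
  rw [← hlin]
  apply content_le ha0 hfin (i + l0)
  intro x hx
  refine (h x hx).trans ?_
  rw [Finset.mul_sum]
  have hsub : ∑ l ∈ Finset.range (i + 1), ENNReal.ofReal (sd a (l + l0)) *
      ⨅ y ∈ cube (l + l0) (cell (l + l0) x), D * N y ^ p ≤
      ∑ l ∈ Finset.range (i + l0 + 1), ENNReal.ofReal (sd a l) * ⨅ y ∈ cube l (cell l x), D * N y ^ p := by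
    have h1 : ∑ l ∈ Finset.range (i + 1), ENNReal.ofReal (sd a (l + l0)) *
        ⨅ y ∈ cube (l + l0) (cell (l + l0) x), D * N y ^ p =
        ∑ l ∈ (Finset.range (i + 1)).map (addRightEmbedding l0), ENNReal.ofReal (sd a l) *
          ⨅ y ∈ cube l (cell l x), D * N y ^ p := by
      rw [Finset.sum_map]; rfl
    rw [h1]
    apply Finset.sum_le_sum_of_subset
    intro l hl
    rw [Finset.mem_map] at hl
    obtain ⟨l', hl', rfl⟩ := hl
    rw [Finset.mem_range] at hl' ⊢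
    simp only [addRightEmbedding_apply]
    omega
  refine le_trans (Finset.sum_le_sum fun l _ => ?_) hsub
  have hs1 := sd_pos a l
  have hs2 := sd_pos a l0
  have h2 : ENNReal.ofReal (sd a l) = ENNReal.ofReal (sd a (l + l0)) * ENNReal.ofReal ((sd a l0)⁻¹) := by
    rw [← ENNReal.ofReal_mul (sd_pos _ _).le, sd_add_nat]
    congr 1
    field_simp
  calc C2 * (ENNReal.ofReal (sd a l) * ⨅ y ∈ cube (l + l0) (cell (l + l0) x), N y ^ p)
      = ENNReal.ofReal (sd a (l + l0)) * (D * ⨅ y ∈ cube (l + l0) (cell (l + l0) x), N y ^ p) := by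
        rw [h2, hD]; ring
    _ ≤ _ := by
        apply mul_le_mul_right
        refine le_iInf₂ fun y hy => ?_
        exact mul_le_mul_right (iInf₂_le y hy) _

/-- Abstract lower bound: `H` plays the role of the heat extension of `f`, `N` of its
nontangential maximal function. -/
theorem hardy_lower_abs {p α : ℝ} (hp0 : 0 < p) (hp1 : p ≤ 1) (hα : 0 < α) (n : ℕ) :
    ∃ C : ℝ, 0 ≤ C ∧ ∀ (H : ℝ → Sp n → ℂ) (N : Sp n → ℝ≥0∞),
      (∀ t : ℝ, 0 < t → ∀ y x' : Sp n, ‖y - x'‖ < Real.sqrt t → ‖H t y‖ₑ ≤ N x') →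
      ∫⁻ y, N y ^ p < ⊤ → ∀ (K : Set (Sp n)) (i : ℕ), 1 ≤ i →
      (∀ x ∈ K, ENNReal.ofReal (1/2) ≤ ENNReal.ofReal (Real.Gamma (α / 2))⁻¹ *
        ∫⁻ τ in Ioi (0:ℝ), ENNReal.ofReal (τ ^ (α / 2 - 1) * Real.exp (-τ)) *
          ‖H (((4:ℝ) ^ i)⁻¹ + τ) x‖ₑ) →
      ∃ i', ∀ k, cont K (n - α * p) i' 0 k ≤ C * (∫⁻ y, N y ^ p).toReal := by
  obtain ⟨l0, hl0⟩ := pow_unbounded_of_one_lt (((n:ℝ) + 1) * 2) (show (1:ℝ) < 2 by norm_num)
  set C1 : ℝ := Real.Gamma (α / 2) + (2 / α) * (2:ℝ) ^ α with hC1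
  have hΓ : 0 < Real.Gamma (α / 2) := Real.Gamma_pos_of_pos (by linarith)
  have hC10 : 0 < C1 := by positivity
  set C2 : ℝ := (2 * ((Real.Gamma (α / 2))⁻¹ * C1)) ^ p with hC2
  have hC20 : 0 ≤ C2 := by positivity
  refine ⟨(1 - (2:ℝ) ^ (-(α * p)))⁻¹ * (C2 * (sd (α * p) l0)⁻¹), ?_, ?_⟩
  · have hq1 : (2:ℝ) ^ (-(α * p)) < 1 := Real.rpow_lt_one_of_one_lt_of_neg (by norm_num) (by
      have : 0 < α * p := by positivity
      linarith)
    have hA : 0 ≤ (1 - (2:ℝ) ^ (-(α * p)))⁻¹ := inv_nonneg.2 (by linarith)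
    have := sd_pos (α * p) l0
    positivity
  intro H N hN hNfin K i hi hK
  refine ⟨i + l0, fun k => ?_⟩
  have hmain : ∀ x ∈ K, 1 ≤ ENNReal.ofReal C2 * ∑ l ∈ Finset.range (i + 1),
      ENNReal.ofReal (sd (α * p) l) * ⨅ y ∈ cube (l + l0) (cell (l + l0) x), N y ^ p := by
    intro x hx
    have h1 := hK x hx
    have h2 := heat_int_bound hα H N hN hl0 i hi x
    rw [← hC1] at h2
    set m : ℕ → ℝ≥0∞ := fun l => ⨅ y ∈ cube (l + l0) (cell (l + l0) x), N y with hm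
    have h3 : ENNReal.ofReal (1/2) ≤ ENNReal.ofReal ((Real.Gamma (α / 2))⁻¹ * C1) *
        ∑ l ∈ Finset.range (i + 1), ENNReal.ofReal (sd α l) * m l := by
      refine h1.trans ((mul_le_mul_right h2 _).trans (le_of_eq ?_))
      rw [Finset.mul_sum, Finset.mul_sum]
      apply Finset.sum_congr rfl
      intro l _
      rw [ENNReal.ofReal_mul hC10.le, ENNReal.ofReal_mul (inv_nonneg.2 hΓ.le)]
      ring
    have h4 : 1 ≤ ENNReal.ofReal (2 * ((Real.Gamma (α / 2))⁻¹ * C1)) *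
        ∑ l ∈ Finset.range (i + 1), ENNReal.ofReal (sd α l) * m l := by
      calc (1:ℝ≥0∞) = ENNReal.ofReal 2 * ENNReal.ofReal (1/2) := by
            rw [← ENNReal.ofReal_mul (by norm_num)]; norm_num
        _ ≤ ENNReal.ofReal 2 * (ENNReal.ofReal ((Real.Gamma (α / 2))⁻¹ * C1) *
            ∑ l ∈ Finset.range (i + 1), ENNReal.ofReal (sd α l) * m l) := mul_le_mul_right h3 _
        _ = _ := by rw [ENNReal.ofReal_mul (show (0:ℝ) ≤ 2 by norm_num), mul_assoc]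
    calc (1:ℝ≥0∞) = 1 ^ p := (ENNReal.one_rpow p).symm
      _ ≤ (ENNReal.ofReal (2 * ((Real.Gamma (α / 2))⁻¹ * C1)) *
        ∑ l ∈ Finset.range (i + 1), ENNReal.ofReal (sd α l) * m l) ^ p := ENNReal.rpow_le_rpow h4 hp0.le
      _ = ENNReal.ofReal C2 * (∑ l ∈ Finset.range (i + 1), ENNReal.ofReal (sd α l) * m l) ^ p := by
          rw [ENNReal.mul_rpow_of_nonneg _ _ hp0.le, ENNReal.ofReal_rpow_of_nonneg (by positivity) hp0.le]
      _ ≤ ENNReal.ofReal C2 * ∑ l ∈ Finset.range (i + 1), (ENNReal.ofReal (sd α l) * m l) ^ p :=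
          mul_le_mul_right (rpow_finset_sum_le hp0 hp1 _ _) _
      _ ≤ _ := by
          apply mul_le_mul_right
          apply Finset.sum_le_sum
          intro l _
          rw [ENNReal.mul_rpow_of_nonneg _ _ hp0.le, ENNReal.ofReal_rpow_of_nonneg (sd_pos _ _).le hp0.le,
            ← sd_mul]
          apply mul_le_mul_right
          refine le_iInf₂ fun y hy => ?_
          exact ENNReal.rpow_le_rpow (iInf₂_le y hy) hp0.le
  refine (content_of_shifted hp0 hα (ENNReal.ofReal C2) ENNReal.ofReal_ne_top l0 hNfin i hmain k).trans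
    (le_of_eq ?_)
  rw [ENNReal.toReal_mul, ← ENNReal.ofReal_mul hC20, ENNReal.toReal_ofReal
    (mul_nonneg hC20 (inv_nonneg.2 (sd_pos _ _).le))]
  ring

end Pool.Agent.Bhc
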