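import Mathlib
import Pool.Agent.Lib_helper48.BhcLowerHardy

/-!
# Approximate identities, locally uniformly

Helper file for the hand-in on `MP_9b3711_an`.
-/

open MeasureTheory Set FourierTransform Real
open scoped ENNReal NNReal ContDiff SchwartzMap RealInnerProductSpace Topology

namespace Pool.Agent.Bhc

variable {n : ℕ}

/-- continuous functions of polynomial growth -/
def PolyGrowth (u : Sp n → ℂ) : Prop := ∃ (N : ℕ) (C : ℝ), 0 ≤ C ∧ ∀ y, ‖u y‖ ≤ C * (1 + ‖y‖) ^ N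

lemma integrable_schwartz_weight (P : 𝓢(Sp n, ℂ)) (N : ℕ) :
    Integrable (fun z => ‖P z‖ * (1 + ‖z‖) ^ N) := by
  obtain ⟨C, hC0, hC⟩ := schwartz_decay P 0 (N + (n + 1))
  have hJi : Integrable fun z : Sp n => C * ((1 + ‖z‖) ^ (n + 1))⁻¹ := by
    have := integrable_one_add_norm (E := Sp n) (μ := volume) (r := (n + 1 : ℕ)) (by
      rw [finrank_euclideanSpace_fin]; push_cast; linarith)
    refine (this.congr (Filter.Eventually.of_forall fun x => ?_)).const_mul C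
    simp only
    rw [Real.rpow_neg (by positivity), Real.rpow_natCast]
  refine Integrable.mono' hJi ?_ (Filter.Eventually.of_forall fun z => ?_)
  · exact ((P.continuous.norm.mul ((continuous_const.add continuous_norm).pow N))).aestronglyMeasurable
  · have h1 := hC z
    rw [norm_iteratedFDeriv_zero] at h1
    rw [Real.norm_eq_abs, abs_of_nonneg (by positivity)]
    have hz : (0:ℝ) < 1 + ‖z‖ := by positivity
    calc ‖P z‖ * (1 + ‖z‖) ^ N ≤ (C * ((1 + ‖z‖) ^ (N + (n + 1)))⁻¹) * (1 + ‖z‖) ^ N := by gcongr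
      _ = C * ((1 + ‖z‖) ^ (n + 1))⁻¹ := by
          rw [pow_add]
          field_simp

lemma growth_bound {N : ℕ} {C : ℝ} (hC : 0 ≤ C) {u : Sp n → ℂ} (hu : ∀ y, ‖u y‖ ≤ C * (1 + ‖y‖) ^ N)
    {R : ℝ} {x z : Sp n} {r : ℝ} (hR : 0 ≤ R) (hx : ‖x‖ ≤ R) (hr : |r| ≤ 1) :
    ‖u (x - r • z)‖ ≤ C * (1 + R) ^ N * (1 + ‖z‖) ^ N := by
  refine (hu _).trans ?_
  rw [mul_assoc, ← mul_pow]
  apply mul_le_mul_of_nonneg_left _ hC
  apply pow_le_pow_left₀ (by positivity)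
  have h1 : ‖x - r • z‖ ≤ R + ‖z‖ := by
    refine (norm_sub_le _ _).trans (add_le_add hx ?_)
    rw [norm_smul, Real.norm_eq_abs]
    exact (mul_le_mul_of_nonneg_right hr (norm_nonneg z)).trans (by rw [one_mul])
  nlinarith [mul_nonneg hR (norm_nonneg z)]

theorem approx_uniform (P : 𝓢(Sp n, ℂ)) (hP : ∫ z, P z = 1) {u : Sp n → ℂ} (hu : Continuous u)
    (hg : PolyGrowth u) {K : Set (Sp n)} (hK : IsCompact K) {δ : ℝ} (hδ : 0 < δ) :
    ∃ r0 > 0, ∀ r : ℝ, |r| < r0 → ∀ x ∈ K, ‖(∫ z, P z * u (x - r • z)) - u x‖ < δ := by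
  obtain ⟨N, C, hC0, hC⟩ := hg
  have hcont : ∀ x0 : Sp n, ContinuousAt (fun q : ℝ × Sp n => ∫ z, P z * u (q.2 - q.1 • z)) (0, x0) := by
    intro x0
    apply continuousAt_of_dominated (bound := fun z => ‖P z‖ * (C * (1 + (‖x0‖ + 1)) ^ N * (1 + ‖z‖) ^ N))
    · exact Filter.Eventually.of_forall fun q => (P.continuous.mul
        (hu.comp (continuous_const.sub (continuous_id.const_smul q.1)))).aestronglyMeasurable
    · have h1 : ∀ᶠ q : ℝ × Sp n in 𝓝 (0, x0), |q.1| < 1 ∧ ‖q.2 - x0‖ < 1 := by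
        have ha : ContinuousAt (fun q : ℝ × Sp n => |q.1|) (0, x0) := by fun_prop
        have hb : ContinuousAt (fun q : ℝ × Sp n => ‖q.2 - x0‖) (0, x0) := by fun_prop
        have ha' : ∀ᶠ q : ℝ × Sp n in 𝓝 (0, x0), |q.1| < 1 :=
          ha.eventually_lt continuousAt_const (by simp)
        have hb' : ∀ᶠ q : ℝ × Sp n in 𝓝 (0, x0), ‖q.2 - x0‖ < 1 :=
          hb.eventually_lt continuousAt_const (by simp)
        exact ha'.and hb'
      filter_upwards [h1] with q hq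
      refine Filter.Eventually.of_forall fun z => ?_
      rw [norm_mul]
      apply mul_le_mul_of_nonneg_left _ (norm_nonneg _)
      apply growth_bound hC0 hC (by positivity) _ hq.1.le
      calc ‖q.2‖ = ‖x0 + (q.2 - x0)‖ := by congr 1; abel
        _ ≤ ‖x0‖ + ‖q.2 - x0‖ := norm_add_le _ _
        _ ≤ ‖x0‖ + 1 := by linarith [hq.2]
    · have := (integrable_schwartz_weight P N).const_mul (C * (1 + (‖x0‖ + 1)) ^ N)
      refine this.congr (Filter.Eventually.of_forall fun z => ?_)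
      ring
    · refine Filter.Eventually.of_forall fun z => ?_
      have : Continuous fun q : ℝ × Sp n => P z * u (q.2 - q.1 • z) := by fun_prop
      exact this.continuousAt
  have hval : ∀ x0 : Sp n, ∫ z, P z * u (x0 - (0:ℝ) • z) = u x0 := by
    intro x0
    simp only [zero_smul, sub_zero]
    rw [integral_mul_const, hP, one_mul]
  have hev : ∀ x0 ∈ K, ∀ᶠ q : ℝ × Sp n in 𝓝 (0, x0), ‖(∫ z, P z * u (q.2 - q.1 • z)) - u q.2‖ < δ := by
    intro x0 _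
    have h2 : ContinuousAt (fun q : ℝ × Sp n => ‖(∫ z, P z * u (q.2 - q.1 • z)) - u q.2‖) (0, x0) :=
      ((hcont x0).sub (hu.continuousAt.comp continuousAt_snd)).norm
    apply h2.eventually_lt continuousAt_const
    simp only
    rw [hval x0, sub_self, norm_zero]
    exact hδ
  have h3 := hK.eventually_forall_of_forall_eventually (x₀ := (0:ℝ))
    (P := fun (r : ℝ) (x : Sp n) => ‖(∫ z, P z * u (x - r • z)) - u x‖ < δ) hev
  rw [Metric.eventually_nhds_iff] at h3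
  obtain ⟨r0, hr0, hr⟩ := h3
  refine ⟨r0, hr0, fun r hr' => hr ?_⟩
  rw [Real.dist_eq, sub_zero]
  exact hr'

lemma integral_heatS : ∫ z, heatS n z = 1 := by
  have h1 : ∀ z : Sp n, heatS n z = (((4 * π : ℝ) ^ (-(n:ℝ) / 2) * Real.exp (-(1/4) * ‖z‖ ^ 2) : ℝ) : ℂ) := by
    intro z
    rw [heatS_apply]
    unfold heatK
    congr 3
    · ring
    · ring
  simp_rw [h1]
  rw [integral_complex_ofReal, integral_const_mul, GaussianFourier.integral_rexp_neg_mul_sq_norm (by norm_num),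
    finrank_euclideanSpace_fin]
  have h2 : (π / (1/4 : ℝ)) = 4 * π := by ring
  rw [h2, ← Real.rpow_add (by positivity)]
  have : -(n:ℝ) / 2 + n / 2 = 0 := by ring
  rw [this, Real.rpow_zero]
  norm_num

/-- heat extension as an average over the unit scale kernel -/
lemma heatExt_unit (u : Sp n → ℂ) {t : ℝ} (ht : 0 < t) (x : Sp n) :
    heatExt u t x = ∫ z, heatS n z * u (x - Real.sqrt t • z) := by
  have hs : 0 < Real.sqrt t := Real.sqrt_pos.2 ht
  unfold heatExt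
  have h1 : ∀ y : Sp n, (heatK t (x - y) : ℂ) * u y =
      (fun Y : Sp n => (((Real.sqrt t)⁻¹ ^ n : ℝ) : ℂ) * (heatS n (-Y) * u (x - Real.sqrt t • (-Y))))
        ((Real.sqrt t)⁻¹ • y - (Real.sqrt t)⁻¹ • x) := by
    intro y
    simp only
    rw [heatK_scale ht, heatS_apply]
    have e1 : -((Real.sqrt t)⁻¹ • y - (Real.sqrt t)⁻¹ • x) = (Real.sqrt t)⁻¹ • (x - y) := by
      rw [smul_sub]; abel
    have e2 : x - Real.sqrt t • ((Real.sqrt t)⁻¹ • (x - y)) = y := by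
      rw [smul_smul, mul_inv_cancel₀ hs.ne', one_smul]; abel
    rw [e1, e2]
    push_cast
    ring
  rw [integral_congr_ae (Filter.Eventually.of_forall h1), integral_dil
    (fun Y : Sp n => (((Real.sqrt t)⁻¹ ^ n : ℝ) : ℂ) * (heatS n (-Y) * u (x - Real.sqrt t • (-Y))))
    (inv_pos.2 hs), integral_const_mul,
    integral_neg_eq_self (fun Y : Sp n => heatS n Y * u (x - Real.sqrt t • Y)), Complex.real_smul,
    ← mul_assoc]
  have : ((((((Real.sqrt t)⁻¹ ^ n)⁻¹ : ℝ)) : ℂ)) * (((Real.sqrt t)⁻¹ ^ n : ℝ) : ℂ) = 1 := by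
    rw [← Complex.ofReal_mul, inv_mul_cancel₀ (by positivity)]
    norm_num
  rw [this, one_mul]

/-- heat extensions converge locally uniformly as `t → 0` -/
theorem heat_approx {u : Sp n → ℂ} (hu : Continuous u)
    (hg : PolyGrowth u) {K : Set (Sp n)} (hK : IsCompact K) {δ : ℝ} (hδ : 0 < δ) :
    ∃ i : ℕ, 1 ≤ i ∧ ∀ x ∈ K, ‖heatExt u (((4:ℝ) ^ i)⁻¹) x - u x‖ < δ := by
  obtain ⟨r0, hr0, hr⟩ := approx_uniform (heatS n) integral_heatS hu hg hK hδ
  obtain ⟨i, hi⟩ := exists_pow_lt_of_lt_one hr0 (show (1/2 : ℝ) < 1 by norm_num)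
  refine ⟨i + 1, by omega, fun x hx => ?_⟩
  have h4 : (0:ℝ) < ((4:ℝ) ^ (i + 1))⁻¹ := by positivity
  rw [heatExt_unit u h4]
  apply hr _ _ x hx
  have hs : Real.sqrt (((4:ℝ) ^ (i + 1))⁻¹) = (1/2) ^ (i + 1) := by
    rw [show ((4:ℝ) ^ (i + 1))⁻¹ = ((1/2) ^ (i + 1)) ^ 2 by
      rw [← pow_mul, mul_comm, pow_mul, one_div, inv_pow, inv_pow]; norm_num]
    exact Real.sqrt_sq (by positivity)
  rw [hs, abs_of_pos (by positivity)]
  refine lt_of_le_of_lt ?_ hi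
  exact pow_le_pow_of_le_one (by norm_num) (by norm_num) (Nat.le_succ i)

lemma schwartz_polyGrowth (f : 𝓢(Sp n, ℂ)) : PolyGrowth (f : Sp n → ℂ) := by
  obtain ⟨C, hC0, hC⟩ := schwartz_decay f 0 0
  exact ⟨0, C, hC0, fun y => by simpa using hC y⟩

/-- The Bessel potential `G_α * f`, as the Fourier multiplier `(1 + 4π²|ξ|²)^{-α/2}` -/
noncomputable def bessel (α : ℝ) (f : Sp n → ℂ) : Sp n → ℂ :=
  𝓕⁻ (fun ξ => (((asym ξ) ^ (-(α / 2)) : ℝ) : ℂ) * 𝓕 f ξ)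

lemma bessel_eq (α : ℝ) (f : 𝓢(Sp n, ℂ)) : bessel α (f : Sp n → ℂ) = (JS n (-(α / 2)) f : Sp n → ℂ) := by
  funext x
  rw [JS_eq]
  rfl

/-- heat extension of a Bessel potential -/
lemma heatExt_bessel {α : ℝ} (hα : 0 < α) (f : 𝓢(Sp n, ℂ)) {ε : ℝ} (hε : 0 < ε) (x : Sp n) :
    heatExt (bessel α (f : Sp n → ℂ)) ε x = ((Real.Gamma (α / 2))⁻¹ : ℝ) •
      ∫ τ in Ioi (0:ℝ), ((τ ^ (α / 2 - 1) * Real.exp (-τ) : ℝ) : ℂ) * heatExt f (ε + τ) x := by
  rw [bessel_eq, heatExt_eq (JS n (-(α / 2)) f).integrable hε]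
  have h1 : (fun ξ => gsym ε ξ * 𝓕 (JS n (-(α / 2)) f : Sp n → ℂ) ξ) =
      fun ξ => gsym ε ξ * (((asym ξ) ^ (-(α / 2)) : ℝ) : ℂ) * 𝓕 (f : Sp n → ℂ) ξ := by
    funext ξ
    rw [fourier_JS]; ring
  have hg : Integrable (𝓕 (f : Sp n → ℂ)) := by
    rw [← SchwartzMap.fourier_coe]; exact (𝓕 f).integrable
  rw [h1, bessel_fubini hg hα hε.le x]
  congr 1
  apply setIntegral_congr_fun measurableSet_Ioi
  intro τ hτ
  simp only
  rw [heatExt_eq f.integrable (by have : (0:ℝ) < τ := hτ; linarith)]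

/-- **Lower bound for the Hardy–Bessel capacity.** -/
theorem hardy_lower {p α : ℝ} (hp0 : 0 < p) (hp1 : p ≤ 1) (hα : 0 < α) (n : ℕ) :
    ∃ C : ℝ, 0 ≤ C ∧ ∀ (f : 𝓢(Sp n, ℂ)) (K : Set (Sp n)), IsCompact K →
      (∀ x ∈ K, 1 ≤ ‖bessel α (f : Sp n → ℂ) x‖) → hardyPow p (f : Sp n → ℂ) < ⊤ →
      ∃ i', ∀ k, cont K (n - α * p) i' 0 k ≤ C * (hardyPow p (f : Sp n → ℂ)).toReal := by
  obtain ⟨C, hC0, hC⟩ := hardy_lower_abs hp0 hp1 hα n
  refine ⟨C, hC0, fun f K hK hfK hfin => ?_⟩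
  have hcont : Continuous (bessel α (f : Sp n → ℂ)) := by rw [bessel_eq]; exact (JS n (-(α / 2)) f).continuous
  have hgr : PolyGrowth (bessel α (f : Sp n → ℂ)) := by rw [bessel_eq]; exact schwartz_polyGrowth _
  obtain ⟨i, hi1, hi⟩ := heat_approx hcont hgr hK (show (0:ℝ) < 1/2 by norm_num)
  apply hC (heatExt (f : Sp n → ℂ)) (ntMax (f : Sp n → ℂ)) (fun t ht y x' h => le_ntMax _ ht h) hfin K i hi1
  intro x hx
  have h4 : (0:ℝ) < ((4:ℝ) ^ i)⁻¹ := by positivity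
  have h1 : 1/2 ≤ ‖heatExt (bessel α (f : Sp n → ℂ)) (((4:ℝ) ^ i)⁻¹) x‖ := by
    have h2 := hi x hx
    have h3 := hfK x hx
    have h5 : ‖bessel α (f : Sp n → ℂ) x‖ ≤ ‖heatExt (bessel α (f : Sp n → ℂ)) (((4:ℝ) ^ i)⁻¹) x‖ +
        ‖heatExt (bessel α (f : Sp n → ℂ)) (((4:ℝ) ^ i)⁻¹) x - bessel α (f : Sp n → ℂ) x‖ := by
      have := norm_sub_le (heatExt (bessel α (f : Sp n → ℂ)) (((4:ℝ) ^ i)⁻¹) x)
        (heatExt (bessel α (f : Sp n → ℂ)) (((4:ℝ) ^ i)⁻¹) x - bessel α (f : Sp n → ℂ) x)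
      simpa using this
    linarith
  have hΓ : 0 < Real.Gamma (α / 2) := Real.Gamma_pos_of_pos (by linarith)
  rw [heatExt_bessel hα f h4, norm_smul, Real.norm_eq_abs, abs_of_pos (inv_pos.2 hΓ)] at h1
  refine (ENNReal.ofReal_le_ofReal h1).trans ?_
  rw [ENNReal.ofReal_mul (inv_nonneg.2 hΓ.le)]
  apply mul_le_mul_right
  rw [ofReal_norm]
  refine (enorm_integral_le_lintegral_enorm _).trans ?_
  apply setLIntegral_mono' measurableSet_Ioi
  intro τ hτ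
  have hτ0 : (0:ℝ) < τ := hτ
  rw [enorm_mul, ← ofReal_norm, Complex.norm_real, Real.norm_eq_abs, abs_of_nonneg (by positivity)]

end Pool.Agent.Bhc
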