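import Mathlib
import Pool.Agent.Lib_helper48.BhcHardy

/-!
# The Besov cost

Helper file for the hand-in on `MP_9b3711_an`.
-/

open MeasureTheory Set FourierTransform Real
open scoped ENNReal NNReal ContDiff SchwartzMap RealInnerProductSpace

namespace Pool.Agent.Bhc

variable {n : ℕ}

/-- An admissible cutoff for the Littlewood–Paley decomposition: smooth, equal to `1` on the unit
ball and to `0` outside the ball of radius `2`. -/
structure IsCutoff (η : Sp n → ℝ) : Prop where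
  smooth : ContDiff ℝ ∞ η
  one : ∀ ξ, ‖ξ‖ ≤ 1 → η ξ = 1
  zero : ∀ ξ, 2 ≤ ‖ξ‖ → η ξ = 0

/-- the Littlewood–Paley symbols `φ₀ = η`, `φ_j = η(2^{-j}·) - η(2^{-(j-1)}·)` -/
noncomputable def lpSym (η : Sp n → ℝ) : ℕ → Sp n → ℝ
  | 0, ξ => η ξ
  | j + 1, ξ => η (((2:ℝ) ^ (j + 1))⁻¹ • ξ) - η (((2:ℝ) ^ j)⁻¹ • ξ)

/-- the Littlewood–Paley block `Δ_j u = 𝓕⁻¹(φ_j 𝓕u)` -/
noncomputable def lpBlock (η : Sp n → ℝ) (j : ℕ) (u : Sp n → ℂ) : Sp n → ℂ :=
  𝓕⁻ (fun ξ => (lpSym η j ξ : ℂ) * 𝓕 u ξ)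

/-- `p`-th power of the Besov quasi-norm: `∑_j 2^{jαp} ∫ |Δ_j u|^p` -/
noncomputable def besovPow (η : Sp n → ℝ) (α p : ℝ) (u : Sp n → ℂ) : ℝ≥0∞ :=
  ∑' j : ℕ, ENNReal.ofReal ((2:ℝ) ^ (j * α * p)) * ∫⁻ x, ‖lpBlock η j u x‖ₑ ^ p

/-- the mother symbol -/
noncomputable def psi (η : Sp n → ℝ) : Sp n → ℝ := fun ξ => η ξ - η ((2:ℝ) • ξ)

lemma lpSym_succ (η : Sp n → ℝ) (j : ℕ) (ξ : Sp n) :
    lpSym η (j + 1) ξ = psi η (((2:ℝ) ^ (j + 1))⁻¹ • ξ) := by
  show η (((2:ℝ) ^ (j + 1))⁻¹ • ξ) - η (((2:ℝ) ^ j)⁻¹ • ξ) =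
    η (((2:ℝ) ^ (j + 1))⁻¹ • ξ) - η ((2:ℝ) • (((2:ℝ) ^ (j + 1))⁻¹ • ξ))
  rw [smul_smul]
  congr 3
  rw [pow_succ]
  field_simp

lemma IsCutoff.cc {η : Sp n → ℝ} (h : IsCutoff η) : Cc η := by
  refine ⟨h.smooth, ?_⟩
  apply HasCompactSupport.intro (isCompact_closedBall (0 : Sp n) 2)
  intro x hx
  apply h.zero
  rw [mem_closedBall_zero_iff, not_le] at hx
  exact hx.le

lemma IsCutoff.cc_psi {η : Sp n → ℝ} (h : IsCutoff η) : Cc (psi η) := by
  have h2 : Cc (dil 2 0 η) := h.cc.dil two_ne_zero 0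
  have : psi η = η - dil 2 0 η := by funext ξ; simp [psi, dil]
  rw [this]
  exact h.cc.sub h2

lemma IsCutoff.psi_zero {η : Sp n → ℝ} (h : IsCutoff η) {ξ : Sp n} (hξ : ‖ξ‖ ≤ 1/2) :
    psi η ξ = 0 := by
  unfold psi
  rw [h.one ξ (by linarith), h.one ((2:ℝ) • ξ) (by rw [norm_smul]; norm_num; linarith), sub_self]

/-- the symbols `ψ / (2π|ξ|)^{2m}` -/
noncomputable def theta (η : Sp n → ℝ) (m : ℕ) : Sp n → ℝ :=
  fun ξ => psi η ξ * (((2 * π * ‖ξ‖) ^ 2) ^ m)⁻¹

lemma IsCutoff.cc_theta {η : Sp n → ℝ} (h : IsCutoff η) (m : ℕ) : Cc (theta η m) := by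
  constructor
  · rw [contDiff_iff_contDiffAt]
    intro ξ
    by_cases hξ : ξ = 0
    · subst hξ
      have : theta η m =ᶠ[nhds 0] fun _ => 0 := by
        filter_upwards [Metric.ball_mem_nhds (0 : Sp n) (show (0:ℝ) < 1/2 by norm_num)] with x hx
        rw [mem_ball_zero_iff] at hx
        unfold theta
        rw [h.psi_zero hx.le, zero_mul]
      exact contDiffAt_const.congr_of_eventuallyEq this
    · unfold theta
      have hn : 0 < ‖ξ‖ := norm_pos_iff.2 hξ
      have h1 : ContDiffAt ℝ ∞ (fun ξ : Sp n => ((2 * π * ‖ξ‖) ^ 2) ^ m) ξ := by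
        have h2 : ContDiff ℝ ∞ (fun ξ : Sp n => (2 * π) ^ 2 * ‖ξ‖ ^ 2) :=
          contDiff_const.mul (contDiff_norm_sq ℝ)
        have h3 : (fun ξ : Sp n => ((2 * π * ‖ξ‖) ^ 2) ^ m) = fun ξ => ((2 * π) ^ 2 * ‖ξ‖ ^ 2) ^ m := by
          funext ξ; rw [mul_pow]
        rw [h3]
        exact (h2.pow m).contDiffAt
      exact h.cc_psi.1.contDiffAt.mul (h1.inv (by positivity))
  · have := h.cc_psi.2
    exact this.mul_right

lemma IsCutoff.psi_eq_theta {η : Sp n → ℝ} (h : IsCutoff η) (m : ℕ) (ξ : Sp n) :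
    psi η ξ = theta η m ξ * ((2 * π * ‖ξ‖) ^ 2) ^ m := by
  unfold theta
  by_cases hξ : ξ = 0
  · subst hξ
    rw [h.psi_zero (by simp)]
    ring
  · have hn : 0 < ‖ξ‖ := norm_pos_iff.2 hξ
    have : (((2 * π * ‖ξ‖) ^ 2) ^ m) ≠ 0 := by positivity
    field_simp

/-! ### scaling -/

lemma fourierInv_scale (m : Sp n → ℂ) {c : ℝ} (hc : 0 < c) (x : Sp n) :
    𝓕⁻ (fun ξ => m (c⁻¹ • ξ)) x = ((c ^ n : ℝ) : ℂ) * 𝓕⁻ m (c • x) := by
  rw [Real.fourierInv_eq, Real.fourierInv_eq]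
  have h1 : ∀ v : Sp n, 𝐞 ⟪v, x⟫ • m (c⁻¹ • v) = (fun y : Sp n => 𝐞 ⟪y, c • x⟫ • m y) (c⁻¹ • v - 0) := by
    intro v
    simp only [sub_zero, inner_smul_left, inner_smul_right, RCLike.conj_to_real]
    congr 3
    field_simp
  rw [integral_congr_ae (Filter.Eventually.of_forall h1),
    integral_dil (fun y : Sp n => 𝐞 ⟪y, c • x⟫ • m y) (inv_pos.2 hc) 0, inv_pow, inv_inv,
    Complex.real_smul]

lemma fourierInv_smul' (a : ℂ) (f : Sp n → ℂ) (x : Sp n) : 𝓕⁻ (a • f) x = a * 𝓕⁻ f x := by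
  rw [Real.fourierInv_eq, Real.fourierInv_eq, ← integral_const_mul]
  congr 1
  funext v
  simp only [Pi.smul_apply, smul_eq_mul, Circle.smul_def]
  ring

/-- multiplier with symbol `m(λ⁻¹ ξ)` applied to `w`, as an integral -/
lemma mult_scaled (m : Sp n → ℝ) (hm : Cc m) {w : Sp n → ℝ} (hw : Cc w) {lam : ℝ} (hl : 0 < lam)
    (X : Sp n) :
    𝓕⁻ (fun ξ => (m (lam⁻¹ • ξ) : ℂ) * 𝓕 (cx w) ξ) X =
      ((lam ^ n : ℝ) : ℂ) * ∫ y, (𝓕⁻ hm.toS : 𝓢(Sp n, ℂ)) (lam • (X - y)) * (w y : ℂ) := by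
  have hmi : Integrable (fun ξ : Sp n => (m (lam⁻¹ • ξ) : ℂ)) := by
    have := (hm.dil (inv_pos.2 hl).ne' 0).integrable_cx
    refine this.congr (Filter.Eventually.of_forall fun ξ => ?_)
    simp [cx, dil]
  rw [mult_eq_conv hmi hw.integrable_cx, ← integral_const_mul]
  congr 1
  funext y
  have := fourierInv_scale (fun ξ : Sp n => (m ξ : ℂ)) hl (X - y)
  rw [this, SchwartzMap.fourierInv_coe, mul_assoc]
  rfl

/-- the basic estimate for scaled multipliers acting on functions with vanishing moments -/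
lemma mult_bound (m : Sp n → ℝ) (hm : Cc m) {w : Sp n → ℝ} (hw : Cc w) (M L d : ℕ)
    (hd : M + L ≤ d + 1) (hv : VM (d + 1) w) :
    ∃ C, 0 ≤ C ∧ ∀ lam : ℝ, 0 < lam → ∀ X : Sp n,
      ‖𝓕⁻ (fun ξ => (m (lam⁻¹ • ξ) : ℂ) * 𝓕 (cx w) ξ) X‖ ≤
        C * (min 1 lam) ^ M * ((1 + ‖X‖) ^ L)⁻¹ := by
  obtain ⟨C, hC0, hC⟩ := kernel_bound (𝓕⁻ hm.toS) hw M L d hd hv
  refine ⟨C, hC0, fun lam hl X => ?_⟩
  rw [mult_scaled m hm hw hl, norm_mul, Complex.norm_real, Real.norm_eq_abs,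
    abs_of_nonneg (by positivity)]
  exact hC lam hl X

lemma lpBlock_dil (η : Sp n → ℝ) (h : IsCutoff η) (k : ℕ) {w : Sp n → ℝ} (hw : Cc w) {c : ℝ}
    (hc : 0 < c) (z x : Sp n) :
    lpBlock η k (cx (dil c z w)) x = 𝓕⁻ (fun ξ => (lpSym η k (c • ξ) : ℂ) * 𝓕 (cx w) ξ) (c • x - z) := by
  have hsym : Cc (lpSym η k) := by
    cases k with
    | zero => exact h.cc
    | succ k =>
      have := h.cc_psi.dil (c := ((2:ℝ) ^ (k + 1))⁻¹) (by positivity) 0
      have e : lpSym η (k + 1) = dil ((2:ℝ) ^ (k + 1))⁻¹ 0 (psi η) := by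
        funext ξ; rw [lpSym_succ]; simp [dil]
      rw [e]; exact this
  have hcc : Cc (dil c z w) := hw.dil hc.ne' z
  have hsymc : Integrable (fun ξ : Sp n => (lpSym η k (c • ξ) : ℂ)) := by
    have := (hsym.dil hc.ne' 0).integrable_cx
    refine this.congr (Filter.Eventually.of_forall fun ξ => ?_)
    simp [cx, dil]
  unfold lpBlock
  rw [mult_eq_conv (show Integrable (fun ξ : Sp n => (lpSym η k ξ : ℂ)) volume from hsym.integrable_cx)
    hcc.integrable_cx, mult_eq_conv hsymc hw.integrable_cx]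
  have h1 : ∀ y : Sp n, 𝓕⁻ (fun ξ : Sp n => (lpSym η k ξ : ℂ)) (x - y) * cx (dil c z w) y =
      (fun Y : Sp n => 𝓕⁻ (fun ξ : Sp n => (lpSym η k ξ : ℂ)) (c⁻¹ • ((c • x - z) - Y)) * (w Y : ℂ))
        (c • y - z) := by
    intro y
    simp only [cx, dil]
    have : c⁻¹ • ((c • x - z) - (c • y - z)) = x - y := by
      have h2 : (c • x - z) - (c • y - z) = c • (x - y) := by rw [smul_sub]; abel
      rw [h2, smul_smul, inv_mul_cancel₀ hc.ne', one_smul]
    rw [this]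
  rw [integral_congr_ae (Filter.Eventually.of_forall h1), integral_dil
    (fun Y : Sp n => 𝓕⁻ (fun ξ : Sp n => (lpSym η k ξ : ℂ)) (c⁻¹ • ((c • x - z) - Y)) * (w Y : ℂ)) hc z,
    Complex.real_smul, ← integral_const_mul]
  congr 1
  funext Y
  have h3 := fourierInv_scale (fun ξ : Sp n => (lpSym η k ξ : ℂ)) (inv_pos.2 hc) ((c • x - z) - Y)
  rw [inv_inv] at h3
  rw [h3, inv_pow, ← mul_assoc]
  rfl

/-- `|k - j|` as a natural number -/
def dkj (k j : ℕ) : ℕ := (j - k) + (k - j)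

lemma lpSym_pow (η : Sp n → ℝ) (k j : ℕ) (ξ : Sp n) :
    lpSym η k ((2:ℝ) ^ j • ξ) = (if k = 0 then η else psi η) (((2:ℝ) ^ k / 2 ^ j)⁻¹ • ξ) := by
  cases k with
  | zero =>
    simp only [if_true, lpSym]
    congr 2
    rw [pow_zero, one_div, inv_inv]
  | succ k =>
    simp only [Nat.succ_ne_zero, if_false]
    rw [lpSym_succ, smul_smul]
    congr 2
    rw [inv_div]
    ring

/-- Littlewood–Paley block of an atom -/
lemma lpBlock_atom {η : Sp n → ℝ} (h : IsCutoff η) {w : Sp n → ℝ} (hw : Cc w) (m L : ℕ)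
    (hv : VM (2 * m + L + 1) w) :
    ∃ C, 0 ≤ C ∧ ∀ (k j : ℕ) (z x : Sp n),
      ‖lpBlock η k (cx (dil (2 ^ j) z w)) x‖ ≤
        C * ((1/2 : ℝ) ^ (dkj k j)) ^ (2 * m) * ((1 + ‖(2:ℝ) ^ j • x - z‖) ^ L)⁻¹ := by
  obtain ⟨C0, hC00, hC0⟩ := mult_bound η h.cc hw (2 * m) L (2 * m + L) (by omega) hv
  obtain ⟨C1, hC10, hC1⟩ := mult_bound (psi η) h.cc_psi hw (2 * m) L (2 * m + L) (by omega) hv
  obtain ⟨C2, hC20, hC2⟩ := mult_bound (theta η m) (h.cc_theta m) (hw.laps m) (2 * m) L (2 * m + L)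
    (by omega) (hv.laps hw m)
  refine ⟨C0 + C1 + C2, by positivity, fun k j z x => ?_⟩
  have h2j : (0:ℝ) < 2 ^ j := by positivity
  have h2k : (0:ℝ) < 2 ^ k := by positivity
  rw [lpBlock_dil η h k hw h2j]
  simp_rw [lpSym_pow]
  set X : Sp n := (2:ℝ) ^ j • x - z with hX
  set lam : ℝ := 2 ^ k / 2 ^ j with hlam
  have hl0 : 0 < lam := by positivity
  have hW : 0 ≤ ((1 + ‖X‖) ^ L)⁻¹ := by positivity
  rcases le_total k j with hkj | hkj
  · -- low frequencies
    have hlam' : lam = (1/2 : ℝ) ^ (dkj k j) := by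
      have : dkj k j = j - k := by unfold dkj; omega
      rw [this, hlam, one_div, inv_pow, eq_comm, inv_eq_one_div, div_eq_div_iff (by positivity) (by positivity),
        one_mul, ← pow_add]
      congr 1
      omega
    have hmin : min 1 lam = lam := by
      apply min_eq_right
      rw [hlam']
      exact pow_le_one₀ (by norm_num) (by norm_num)
    have key : ∀ (m' : Sp n → ℝ) (C' : ℝ), C' ≤ C0 + C1 + C2 →
        ‖𝓕⁻ (fun ξ => (m' (lam⁻¹ • ξ) : ℂ) * 𝓕 (cx w) ξ) X‖ ≤ C' * (min 1 lam) ^ (2 * m) * ((1 + ‖X‖) ^ L)⁻¹ →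
        ‖𝓕⁻ (fun ξ => (m' (lam⁻¹ • ξ) : ℂ) * 𝓕 (cx w) ξ) X‖ ≤
          (C0 + C1 + C2) * ((1/2 : ℝ) ^ (dkj k j)) ^ (2 * m) * ((1 + ‖X‖) ^ L)⁻¹ := by
      intro m' C' hC' hb
      refine hb.trans ?_
      rw [hmin, ← hlam']
      gcongr
    by_cases hk : k = 0
    · simp only [hk, if_true]
      have := key η C0 (by linarith) (hC0 lam hl0 X)
      simpa only [hk] using this
    · simp only [hk, if_false]
      exact key (psi η) C1 (by linarith) (hC1 lam hl0 X)
  · rcases Nat.eq_or_lt_of_le hkj with hkj' | hkj'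
    · -- `k = j`
      have hd0 : dkj k j = 0 := by unfold dkj; omega
      have hl1 : lam = 1 := by rw [hlam, hkj']; exact div_self h2k.ne'
      rw [hd0, pow_zero, one_pow]
      by_cases hk : k = 0
      · simp only [hk, if_true]
        have := hC0 lam hl0 X
        rw [hl1, min_self, one_pow] at this
        rw [hl1]
        refine this.trans ?_
        gcongr
        linarith
      · simp only [hk, if_false]
        have := hC1 lam hl0 X
        rw [hl1, min_self, one_pow] at this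
        rw [hl1]
        refine this.trans ?_
        gcongr
        linarith
    · -- high frequencies
      have hk : k ≠ 0 := by omega
      simp only [hk, if_false]
      have hlam' : lam⁻¹ = (1/2 : ℝ) ^ (dkj k j) := by
        have : dkj k j = k - j := by unfold dkj; omega
        rw [this, hlam, inv_div, one_div, inv_pow, eq_comm, inv_eq_one_div,
          div_eq_div_iff (by positivity) (by positivity), one_mul, ← pow_add]
        congr 1
        omega
      have hsplit : (fun ξ => (psi η (lam⁻¹ • ξ) : ℂ) * 𝓕 (cx w) ξ) =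
          ((lam⁻¹ ^ (2 * m) : ℝ) : ℂ) • (fun ξ => (theta η m (lam⁻¹ • ξ) : ℂ) * 𝓕 (cx (laps m w)) ξ) := by
        funext ξ
        rw [h.psi_eq_theta m, Pi.smul_apply, fourier_laps hw, norm_smul, Real.norm_eq_abs,
          abs_of_pos (inv_pos.2 hl0), smul_eq_mul]
        push_cast
        ring
      rw [hsplit, fourierInv_smul', norm_mul, Complex.norm_real, Real.norm_eq_abs,
        abs_of_nonneg (by positivity), hlam']
      have h3 := hC2 lam hl0 X
      have h4 : (min 1 lam) ^ (2 * m) ≤ 1 := pow_le_one₀ (by positivity) (min_le_left _ _)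
      calc ((1/2 : ℝ) ^ (dkj k j)) ^ (2 * m) * ‖𝓕⁻ (fun ξ => (theta η m (((1/2 : ℝ) ^ (dkj k j)) • ξ) : ℂ) *
            𝓕 (cx (laps m w)) ξ) X‖
          ≤ ((1/2 : ℝ) ^ (dkj k j)) ^ (2 * m) * (C2 * 1 * ((1 + ‖X‖) ^ L)⁻¹) := by
            rw [← hlam']
            gcongr
            refine h3.trans ?_
            gcongr
        _ ≤ ((1/2 : ℝ) ^ (dkj k j)) ^ (2 * m) * ((C0 + C1 + C2) * 1 * ((1 + ‖X‖) ^ L)⁻¹) := by
            gcongr
            linarith
        _ = _ := by ring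

lemma IsCutoff.cc_lpSym {η : Sp n → ℝ} (h : IsCutoff η) (k : ℕ) : Cc (lpSym η k) := by
  cases k with
  | zero => exact h.cc
  | succ k =>
    have := h.cc_psi.dil (c := ((2:ℝ) ^ (k + 1))⁻¹) (by positivity) 0
    have e : lpSym η (k + 1) = dil ((2:ℝ) ^ (k + 1))⁻¹ 0 (psi η) := by
      funext ξ; rw [lpSym_succ]; simp [dil]
    rw [e]; exact this

lemma integrable_sym_mul {m : Sp n → ℝ} (hm : Cc m) (f : 𝓢(Sp n, ℂ)) :
    Integrable (fun ξ => (m ξ : ℂ) * 𝓕 (f : Sp n → ℂ) ξ) := by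
  rw [← SchwartzMap.fourier_coe]
  have hc : Continuous (fun ξ => (m ξ : ℂ) * (𝓕 f : 𝓢(Sp n, ℂ)) ξ) :=
    hm.continuous_ofReal.mul (𝓕 f).continuous
  exact hc.integrable_of_hasCompactSupport (HasCompactSupport.mul_right hm.compactSupport_ofReal)

lemma fourierInv_add' {f g : Sp n → ℂ} (hf : Integrable f) (hg : Integrable g) (x : Sp n) :
    𝓕⁻ (f + g) x = 𝓕⁻ f x + 𝓕⁻ g x := by
  rw [Real.fourierInv_eq, Real.fourierInv_eq, Real.fourierInv_eq, ← integral_add]
  · congr 1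
    funext v
    simp [smul_add]
  · have := (Real.fourierIntegral_convergent_iff (μ := volume) (f := f) (-x)).2 hf
    simpa using this
  · have := (Real.fourierIntegral_convergent_iff (μ := volume) (f := g) (-x)).2 hg
    simpa using this

lemma continuous_fourierInv {f : Sp n → ℂ} (hf : Integrable f) : Continuous (𝓕⁻ f) := by
  have h1 : 𝓕⁻ f = fun x => 𝓕 f (-x) := by funext x; exact Real.fourierInv_eq_fourier_neg f x
  rw [h1]
  have h2 : Continuous (𝓕 f) :=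
    VectorFourier.fourierIntegral_continuous Real.continuous_fourierChar (by exact continuous_inner) hf
  exact h2.comp continuous_neg

lemma lpBlock_add {η : Sp n → ℝ} (h : IsCutoff η) (k : ℕ) {u v : Sp n → ℝ} (hu : Cc u) (hv : Cc v)
    (x : Sp n) : lpBlock η k (cx (u + v)) x = lpBlock η k (cx u) x + lpBlock η k (cx v) x := by
  unfold lpBlock
  have e : (fun ξ => (lpSym η k ξ : ℂ) * 𝓕 (cx (u + v)) ξ) =
      (fun ξ => (lpSym η k ξ : ℂ) * 𝓕 (cx u) ξ) + (fun ξ => (lpSym η k ξ : ℂ) * 𝓕 (cx v) ξ) := by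
    funext ξ
    rw [fourier_add_cx hu hv, Pi.add_apply]
    ring
  rw [e]
  exact fourierInv_add' (integrable_sym_mul (h.cc_lpSym k) hu.toS)
    (integrable_sym_mul (h.cc_lpSym k) hv.toS) x

lemma lpBlock_smul {η : Sp n → ℝ} (k : ℕ) {u : Sp n → ℝ} (hu : Cc u) (a : ℝ)
    (x : Sp n) : lpBlock η k (cx (a • u)) x = (a : ℂ) * lpBlock η k (cx u) x := by
  unfold lpBlock
  have e : (fun ξ => (lpSym η k ξ : ℂ) * 𝓕 (cx (a • u)) ξ) =
      (a : ℂ) • (fun ξ => (lpSym η k ξ : ℂ) * 𝓕 (cx u) ξ) := by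
    funext ξ
    rw [fourier_smul_cx hu, Pi.smul_apply, smul_eq_mul]
    ring
  rw [e, fourierInv_smul']

lemma lpBlock_translate (η : Sp n → ℝ) (k : ℕ) (u : Sp n → ℝ) (z x : Sp n) :
    lpBlock η k (cx (dil 1 z u)) x = lpBlock η k (cx u) (x - z) := by
  unfold lpBlock
  rw [Real.fourierInv_eq, Real.fourierInv_eq]
  congr 1
  funext ξ
  rw [fourier_translate]
  have h1 : (𝐞 ⟪ξ, x - z⟫ : Circle) = 𝐞 ⟪ξ, x⟫ * 𝐞 (-⟪z, ξ⟫) := by
    rw [← AddChar.map_add_eq_mul, inner_sub_right, real_inner_comm ξ z]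
    congr 1
  rw [h1]
  simp only [Circle.smul_def, Circle.coe_mul, smul_eq_mul]
  ring

lemma continuous_lpBlock {η : Sp n → ℝ} (h : IsCutoff η) (k : ℕ) (f : 𝓢(Sp n, ℂ)) :
    Continuous (lpBlock η k (f : Sp n → ℂ)) :=
  continuous_fourierInv (integrable_sym_mul (h.cc_lpSym k) f)

/-- the Besov cost -/
noncomputable def costA (η : Sp n → ℝ) (p α : ℝ) (u : Sp n → ℝ) : ℝ≥0∞ := besovPow η α p (cx u)

lemma isCost_costA {η : Sp n → ℝ} (h : IsCutoff η) {p : ℝ} (α : ℝ) (hp0 : 0 < p) (hp1 : p ≤ 1) :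
    IsCost n p (costA η p α) where
  zero := by
    unfold costA besovPow
    have h1 : ∀ k x, lpBlock η k (cx (0 : Sp n → ℝ)) x = 0 := by
      intro k x
      have := lpBlock_smul (η := η) k (Cc.zero (n := n)) 0 x
      simpa using this
    simp [h1, ENNReal.zero_rpow_of_pos hp0]
  add u v hu hv := by
    unfold costA besovPow
    rw [← ENNReal.tsum_add]
    apply ENNReal.tsum_le_tsum
    intro k
    rw [← mul_add]
    gcongr
    have hm : Measurable fun x => ‖lpBlock η k (cx u) x‖ₑ ^ p :=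
      ((continuous_lpBlock h k hu.toS).enorm.measurable).pow_const p
    rw [← lintegral_add_left hm]
    apply lintegral_mono
    intro x
    simp only
    rw [lpBlock_add h k hu hv]
    exact (ENNReal.rpow_le_rpow (enorm_add_le _ _) hp0.le).trans
      (ENNReal.rpow_add_le_add_rpow _ _ hp0.le hp1)
  smul t u hu := by
    unfold costA besovPow
    rw [← ENNReal.tsum_mul_left]
    apply ENNReal.tsum_le_tsum
    intro k
    rw [mul_left_comm]
    apply mul_le_mul_right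
    rw [← lintegral_const_mul' _ _ ENNReal.ofReal_ne_top]
    apply lintegral_mono
    intro x
    simp only
    rw [lpBlock_smul k hu, enorm_mul, ENNReal.mul_rpow_of_nonneg _ _ hp0.le,
      ← ENNReal.ofReal_rpow_of_nonneg (abs_nonneg t) hp0.le, ← Real.norm_eq_abs, ofReal_norm]
    apply le_of_eq
    congr 2
    rw [← ofReal_norm, ← ofReal_norm, Complex.norm_real]
  trans u z _ := by
    unfold costA besovPow
    apply le_of_eq
    congr 1
    funext k
    congr 1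
    simp_rw [lpBlock_translate]
    exact lintegral_sub_right_eq_self (fun x => ‖lpBlock η k (cx u) x‖ₑ ^ p) z

lemma tsum_dkj {q : ℝ} (hq0 : 0 ≤ q) (hq1 : q < 1) (j : ℕ) :
    ∑' k : ℕ, ENNReal.ofReal (q ^ (dkj k j)) ≤ ENNReal.ofReal (2 * (1 - q)⁻¹) := by
  have h1 : Summable fun k : ℕ => q ^ (dkj (k + j) j) := by
    have : (fun k : ℕ => q ^ (dkj (k + j) j)) = fun k => q ^ k := by
      funext k
      congr 1
      unfold dkj; omega
    rw [this]
    exact summable_geometric_of_lt_one hq0 hq1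
  have h2 : Summable fun k : ℕ => q ^ (dkj k j) := (summable_nat_add_iff j).1 h1
  rw [← ENNReal.ofReal_tsum_of_nonneg (fun k => by positivity) h2]
  apply ENNReal.ofReal_le_ofReal
  rw [← h2.sum_add_tsum_nat_add j]
  have h3 : ∑' k : ℕ, q ^ (dkj (k + j) j) = (1 - q)⁻¹ := by
    rw [← tsum_geometric_of_lt_one hq0 hq1]
    congr 1
    funext k
    congr 1
    unfold dkj; omega
  rw [h3]
  have h4 : ∑ i ∈ Finset.range j, q ^ (dkj i j) ≤ (1 - q)⁻¹ := by
    calc ∑ i ∈ Finset.range j, q ^ (dkj i j) = ∑ i ∈ Finset.range j, (fun l => q ^ (l + 1)) (j - 1 - i) := by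
          apply Finset.sum_congr rfl
          intro i hi
          rw [Finset.mem_range] at hi
          simp only
          congr 1
          unfold dkj; omega
      _ = ∑ i ∈ Finset.range j, q ^ (i + 1) := Finset.sum_range_reflect (fun l => q ^ (l + 1)) j
      _ ≤ ∑ i ∈ Finset.range j, q ^ i := by
          apply Finset.sum_le_sum
          intro i _
          exact pow_le_pow_of_le_one hq0 hq1.le (Nat.le_succ i)
      _ ≤ ∑' i : ℕ, q ^ i := (summable_geometric_of_lt_one hq0 hq1).sum_le_tsum _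
          (fun l _ => by positivity)
      _ = (1 - q)⁻¹ := tsum_geometric_of_lt_one hq0 hq1
  linarith

theorem atomB_costA {η : Sp n → ℝ} (h : IsCutoff η) {p α : ℝ} (hp0 : 0 < p) (hα : 0 < α) :
    ∃ d, AtomB (n - α * p) (costA η p α) d := by
  obtain ⟨m, hm⟩ := exists_nat_gt (α / 2)
  have hm' : α < 2 * m := by linarith
  obtain ⟨L, hL⟩ := exists_nat_gt (n / p)
  have hL' : (n:ℝ) < L * p := by rwa [div_lt_iff₀ hp0] at hL
  refine ⟨2 * m + L + 1, fun w hw hv => ?_⟩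
  obtain ⟨C, hC0, hC⟩ := lpBlock_atom h hw m L hv
  obtain ⟨J, hJ0, hJ⟩ := lintegral_weight (n := n) hL'
  set q : ℝ := (2:ℝ) ^ ((α - 2 * m) * p) with hq
  have hq0 : 0 < q := Real.rpow_pos_of_pos (by norm_num) _
  have hq1 : q < 1 := Real.rpow_lt_one_of_one_lt_of_neg (by norm_num) (by nlinarith)
  have hq1' : 0 ≤ (1 - q)⁻¹ := inv_nonneg.2 (by linarith)
  refine ⟨C ^ p * J * (2 * (1 - q)⁻¹), by positivity, fun j z => ?_⟩
  set c : ℝ := 2 ^ j with hc
  have hc0 : 0 < c := by positivity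
  have hterm : ∀ k : ℕ, ENNReal.ofReal ((2:ℝ) ^ (k * α * p)) *
      ∫⁻ x, ‖lpBlock η k (cx (dil c z w)) x‖ₑ ^ p ≤
      ENNReal.ofReal (C ^ p * J * sd (n - α * p) j) * ENNReal.ofReal (q ^ (dkj k j)) := by
    intro k
    set μ : ℝ := ((1/2 : ℝ) ^ (dkj k j)) ^ (2 * m) with hμ
    have hμ0 : 0 ≤ μ := by positivity
    have h1 : ∫⁻ x, ‖lpBlock η k (cx (dil c z w)) x‖ₑ ^ p ≤
        ENNReal.ofReal ((C * μ) ^ p) * ENNReal.ofReal ((c ^ n)⁻¹ * J) := by
      calc ∫⁻ x, ‖lpBlock η k (cx (dil c z w)) x‖ₑ ^ p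
          ≤ ∫⁻ x, ENNReal.ofReal ((C * μ) ^ p) * ENNReal.ofReal (((1 + ‖c • x - z‖) ^ L)⁻¹) ^ p := by
            apply lintegral_mono
            intro x
            simp only
            rw [← ENNReal.ofReal_rpow_of_nonneg (by positivity) hp0.le,
              ← ENNReal.mul_rpow_of_nonneg _ _ hp0.le, ← ENNReal.ofReal_mul (by positivity), ← ofReal_norm]
            apply ENNReal.rpow_le_rpow _ hp0.le
            exact ENNReal.ofReal_le_ofReal (hC k j z x)
        _ = ENNReal.ofReal ((C * μ) ^ p) * ∫⁻ x, ENNReal.ofReal (((1 + ‖c • x - z‖) ^ L)⁻¹) ^ p :=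
            lintegral_const_mul' _ _ ENNReal.ofReal_ne_top
        _ ≤ _ := by
            gcongr
            exact hJ c hc0 z
    calc _ ≤ ENNReal.ofReal ((2:ℝ) ^ (k * α * p)) *
          (ENNReal.ofReal ((C * μ) ^ p) * ENNReal.ofReal ((c ^ n)⁻¹ * J)) := by gcongr
      _ = ENNReal.ofReal ((2:ℝ) ^ (k * α * p) * ((C * μ) ^ p * ((c ^ n)⁻¹ * J))) := by
          rw [← ENNReal.ofReal_mul (by positivity), ← ENNReal.ofReal_mul (by positivity)]
      _ ≤ ENNReal.ofReal (C ^ p * J * sd (n - α * p) j * q ^ (dkj k j)) := by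
          apply ENNReal.ofReal_le_ofReal
          have e1 : μ ^ p = (2:ℝ) ^ (-(2 * m * p) * (dkj k j : ℝ)) := by
            rw [hμ, one_div, ← Real.rpow_natCast (_ ^ _) (2 * m), ← Real.rpow_mul (by positivity),
              inv_pow, Real.inv_rpow (by positivity), ← Real.rpow_natCast 2, ← Real.rpow_mul (by norm_num),
              ← Real.rpow_neg (by norm_num)]
            congr 1
            push_cast
            ring
          have e2 : (c ^ n)⁻¹ = (2:ℝ) ^ (-(j:ℝ) * n) := by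
            rw [hc, ← pow_mul, ← Real.rpow_natCast, ← Real.rpow_neg (by norm_num)]
            congr 1
            push_cast
            ring
          have e3 : q ^ (dkj k j) = (2:ℝ) ^ ((α - 2 * m) * p * (dkj k j : ℝ)) := by
            rw [hq, ← Real.rpow_natCast, ← Real.rpow_mul (by norm_num)]
          have e4 : (2:ℝ) ^ (k * α * p) ≤ (2:ℝ) ^ (j * α * p + α * p * (dkj k j : ℝ)) := by
            apply Real.rpow_le_rpow_of_exponent_le (by norm_num)
            have hkd : (k:ℝ) ≤ j + (dkj k j : ℝ) := by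
              have : k ≤ j + dkj k j := by unfold dkj; omega
              exact_mod_cast this
            have hαp : 0 < α * p := by positivity
            nlinarith
          rw [Real.mul_rpow hC0 hμ0, e1, e2, e3]
          unfold sd
          calc (2:ℝ) ^ (k * α * p) * (C ^ p * (2:ℝ) ^ (-(2 * m * p) * (dkj k j : ℝ)) *
                ((2:ℝ) ^ (-(j:ℝ) * n) * J))
              ≤ (2:ℝ) ^ (j * α * p + α * p * (dkj k j : ℝ)) * (C ^ p * (2:ℝ) ^ (-(2 * m * p) * (dkj k j : ℝ)) *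
                ((2:ℝ) ^ (-(j:ℝ) * n) * J)) := by gcongr
            _ = C ^ p * J * ((2:ℝ) ^ (j * α * p + α * p * (dkj k j : ℝ)) *
                (2:ℝ) ^ (-(2 * m * p) * (dkj k j : ℝ)) * (2:ℝ) ^ (-(j:ℝ) * n)) := by ring
            _ = C ^ p * J * ((2:ℝ) ^ (-(j:ℝ) * (n - α * p)) * (2:ℝ) ^ ((α - 2 * m) * p * (dkj k j : ℝ))) := by
                rw [← Real.rpow_add (by norm_num), ← Real.rpow_add (by norm_num), ← Real.rpow_add (by norm_num)]
                congr 2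
                ring
            _ = _ := by ring
      _ = _ := by
          rw [ENNReal.ofReal_mul]
          have := (sd_pos (n - α * p) j).le
          positivity
  unfold costA besovPow
  refine (ENNReal.tsum_le_tsum hterm).trans ?_
  rw [ENNReal.tsum_mul_left]
  refine (mul_le_mul_right (tsum_dkj hq0.le hq1 j) _).trans ?_
  rw [← ENNReal.ofReal_mul (by have := (sd_pos (n - α * p) j).le; positivity)]
  apply ENNReal.ofReal_le_ofReal
  apply le_of_eq
  ring

end Pool.Agent.Bhc
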