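import Mathlib
import Pool.Agent.Lib_helper48.BhcApprox
import Pool.Agent.Lib_helper48.BhcBesov

/-!
# Lower bound for the Besov capacity

Helper file for the hand-in on `MP_9b3711_an`.
-/

open MeasureTheory Set FourierTransform Real
open scoped ENNReal NNReal ContDiff SchwartzMap RealInnerProductSpace Topology

namespace Pool.Agent.Bhc

variable {n : ℕ}

/-- the weight `(1 + c‖x - z‖)^{-L}` -/
noncomputable def wt (c : ℝ) (L : ℕ) (x z : Sp n) : ℝ≥0∞ :=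
  ENNReal.ofReal (((1 + c * ‖x - z‖) ^ L)⁻¹)

lemma wt_pos {c : ℝ} (hc : 0 < c) (L : ℕ) (x z : Sp n) : wt c L x z ≠ 0 := by
  unfold wt
  rw [ENNReal.ofReal_ne_zero_iff]
  positivity

lemma wt_ne_top (c : ℝ) (L : ℕ) (x z : Sp n) : wt c L x z ≠ ⊤ := ENNReal.ofReal_ne_top

lemma wt_mul_le {c : ℝ} (hc : 0 < c) (L : ℕ) (x y z : Sp n) :
    wt c L x y * wt c L y z ≤ wt c L x z := by
  unfold wt
  rw [← ENNReal.ofReal_mul (by positivity)]
  apply ENNReal.ofReal_le_ofReal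
  rw [← mul_inv, ← mul_pow]
  apply inv_anti₀ (by positivity)
  apply pow_le_pow_left₀ (by positivity)
  have h : ‖x - z‖ ≤ ‖x - y‖ + ‖y - z‖ := by
    have := norm_add_le (x - y) (y - z)
    simpa using this
  nlinarith [mul_nonneg hc.le (norm_nonneg (x - y)), mul_nonneg hc.le (norm_nonneg (y - z)),
    mul_nonneg (mul_nonneg hc.le (norm_nonneg (x - y))) (mul_nonneg hc.le (norm_nonneg (y - z))),
    mul_le_mul_of_nonneg_left h hc.le]

/-- Plancherel–Polya type inequality for band-limited functions, `0 < p ≤ 1`. -/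
lemma planch_polya (Ψ : 𝓢(Sp n, ℂ)) {p : ℝ} (hp0 : 0 < p) (hp1 : p ≤ 1) (L : ℕ) :
    ∃ C : ℝ, 0 ≤ C ∧ ∀ (c : ℝ), 0 < c → ∀ g : Sp n → ℂ, Continuous g →
      (∀ x, (⨆ y, ‖g y‖ₑ * wt c L x y) < ⊤) →
      (∀ y, g y = ((c ^ n : ℝ) : ℂ) * ∫ z, Ψ (c • (y - z)) * g z) →
      ∀ x, (⨆ y, ‖g y‖ₑ * wt c L x y) ^ p ≤
        ENNReal.ofReal C * (ENNReal.ofReal (c ^ n) * ∫⁻ z, ‖g z‖ₑ ^ p * wt c L x z ^ p) := by
  obtain ⟨C, hC0, hC⟩ := schwartz_decay Ψ 0 L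
  refine ⟨C, hC0, fun c hc g hg hfin hrep x => ?_⟩
  set S : ℝ≥0∞ := ⨆ y, ‖g y‖ₑ * wt c L x y with hS
  set Int : ℝ≥0∞ := ∫⁻ z, ‖g z‖ₑ ^ p * wt c L x z ^ p with hInt
  have hStop : S ≠ ⊤ := (hfin x).ne
  rcases eq_or_ne S 0 with h0 | h0
  · rw [h0, ENNReal.zero_rpow_of_pos hp0]; exact zero_le
  have hkey : S ≤ S ^ (1 - p) * (ENNReal.ofReal C * (ENNReal.ofReal (c ^ n) * Int)) := by
    conv_lhs => rw [hS]
    apply iSup_le
    intro y
    have h1 : ‖g y‖ₑ ≤ ENNReal.ofReal (c ^ n) * ∫⁻ z, ENNReal.ofReal C * wt c L y z * ‖g z‖ₑ := by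
      rw [hrep y, enorm_mul, ← ofReal_norm, Complex.norm_real, Real.norm_eq_abs,
        abs_of_nonneg (by positivity)]
      gcongr
      refine (enorm_integral_le_lintegral_enorm _).trans ?_
      apply lintegral_mono
      intro z
      simp only
      rw [enorm_mul]
      gcongr
      unfold wt
      rw [← ENNReal.ofReal_mul hC0, ← ofReal_norm]
      apply ENNReal.ofReal_le_ofReal
      have h2 := hC (c • (y - z))
      rw [norm_iteratedFDeriv_zero, norm_smul, Real.norm_eq_abs, abs_of_pos hc] at h2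
      exact h2
    have h3 : ∀ z, wt c L x y * (ENNReal.ofReal C * wt c L y z * ‖g z‖ₑ) ≤
        (ENNReal.ofReal C * S ^ (1 - p)) * (‖g z‖ₑ ^ p * wt c L x z ^ p) := by
      intro z
      have h4 : ‖g z‖ₑ * wt c L x z ≤ S := le_iSup (fun y => ‖g y‖ₑ * wt c L x y) z
      have h5 : ‖g z‖ₑ * wt c L x z = (‖g z‖ₑ * wt c L x z) ^ (1 - p) * (‖g z‖ₑ * wt c L x z) ^ p := by
        rw [← ENNReal.rpow_add_of_nonneg _ _ (by linarith) hp0.le]
        simp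
      calc wt c L x y * (ENNReal.ofReal C * wt c L y z * ‖g z‖ₑ)
          = ENNReal.ofReal C * (‖g z‖ₑ * (wt c L x y * wt c L y z)) := by ring
        _ ≤ ENNReal.ofReal C * (‖g z‖ₑ * wt c L x z) := by
            gcongr
            exact wt_mul_le hc L x y z
        _ = ENNReal.ofReal C * ((‖g z‖ₑ * wt c L x z) ^ (1 - p) * (‖g z‖ₑ * wt c L x z) ^ p) := by
            rw [← h5]
        _ ≤ ENNReal.ofReal C * (S ^ (1 - p) * (‖g z‖ₑ * wt c L x z) ^ p) := by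
            gcongr
        _ = (ENNReal.ofReal C * S ^ (1 - p)) * (‖g z‖ₑ ^ p * wt c L x z ^ p) := by
            rw [ENNReal.mul_rpow_of_nonneg _ _ hp0.le]; ring
    calc ‖g y‖ₑ * wt c L x y
        ≤ (ENNReal.ofReal (c ^ n) * ∫⁻ z, ENNReal.ofReal C * wt c L y z * ‖g z‖ₑ) * wt c L x y := by gcongr
      _ = ENNReal.ofReal (c ^ n) * (wt c L x y * ∫⁻ z, ENNReal.ofReal C * wt c L y z * ‖g z‖ₑ) := by ring
      _ = ENNReal.ofReal (c ^ n) * ∫⁻ z, wt c L x y * (ENNReal.ofReal C * wt c L y z * ‖g z‖ₑ) := by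
          rw [lintegral_const_mul' _ _ (wt_ne_top _ _ _ _)]
      _ ≤ ENNReal.ofReal (c ^ n) * ∫⁻ z, (ENNReal.ofReal C * S ^ (1 - p)) *
            (‖g z‖ₑ ^ p * wt c L x z ^ p) := by
          apply mul_le_mul_right
          exact lintegral_mono h3
      _ = ENNReal.ofReal (c ^ n) * ((ENNReal.ofReal C * S ^ (1 - p)) * Int) := by
          rw [lintegral_const_mul']
          exact ENNReal.mul_ne_top ENNReal.ofReal_ne_top
            (ENNReal.rpow_ne_top_of_nonneg (by linarith) hStop)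
      _ = _ := by ring
  have hS1 : S ^ (1 - p) ≠ 0 := by
    rw [Ne, ENNReal.rpow_eq_zero_iff]
    rintro (⟨h, _⟩ | ⟨h, _⟩)
    · exact h0 h
    · exact hStop h
  have hS2 : S ^ (1 - p) ≠ ⊤ := ENNReal.rpow_ne_top_of_nonneg (by linarith) hStop
  have hsplit : S ^ (1 - p) * S ^ p = S := by
    rw [← ENNReal.rpow_add_of_nonneg _ _ (by linarith) hp0.le]
    simp
  rw [← ENNReal.mul_le_mul_iff_right hS1 hS2, hsplit]
  exact hkey

/-- averaged block -/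
noncomputable def avg (p : ℝ) (L : ℕ) (c : ℝ) (g : Sp n → ℂ) (x : Sp n) : ℝ≥0∞ :=
  ENNReal.ofReal (c ^ n) * ∫⁻ z, ‖g z‖ₑ ^ p * wt c L x z ^ p

lemma measurable_avg {p : ℝ} (L : ℕ) (c : ℝ) {g : Sp n → ℂ} (hg : Continuous g) :
    Measurable (avg p L c g) := by
  unfold avg
  apply Measurable.const_mul
  apply Measurable.lintegral_prod_right' (f := fun q : Sp n × Sp n => ‖g q.2‖ₑ ^ p * wt c L q.1 q.2 ^ p)
  have h1 : Measurable fun q : Sp n × Sp n => ‖g q.2‖ₑ ^ p :=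
    ((hg.comp continuous_snd).enorm.measurable).pow_const p
  have h2 : Measurable fun q : Sp n × Sp n => wt c L q.1 q.2 ^ p := by
    unfold wt
    apply Measurable.pow_const
    apply Measurable.ennreal_ofReal
    fun_prop
  exact h1.mul h2

lemma lintegral_avg {p : ℝ} {L : ℕ} (hL : n < L * p) :
    ∃ J : ℝ, 0 ≤ J ∧ ∀ (c : ℝ), 0 < c → ∀ g : Sp n → ℂ, Continuous g →
      ∫⁻ x, avg p L c g x ≤ ENNReal.ofReal J * ∫⁻ z, ‖g z‖ₑ ^ p := by
  obtain ⟨J, hJ0, hJ⟩ := lintegral_weight (n := n) hL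
  refine ⟨J, hJ0, fun c hc g hg => ?_⟩
  unfold avg
  rw [lintegral_const_mul' _ _ ENNReal.ofReal_ne_top]
  rw [lintegral_lintegral_swap]
  · have h1 : ∀ z : Sp n, ∫⁻ x, ‖g z‖ₑ ^ p * wt c L x z ^ p ≤
        ‖g z‖ₑ ^ p * ENNReal.ofReal ((c ^ n)⁻¹ * J) := by
      intro z
      have h2 : ∀ x : Sp n, wt c L x z ^ p = ENNReal.ofReal (((1 + ‖c • x - c • z‖) ^ L)⁻¹) ^ p := by
        intro x
        unfold wt
        rw [← smul_sub, norm_smul, Real.norm_eq_abs, abs_of_pos hc]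
      have hm : Measurable fun x : Sp n => wt c L x z ^ p := by
        unfold wt
        apply Measurable.pow_const
        apply Measurable.ennreal_ofReal
        fun_prop
      rw [lintegral_const_mul _ hm]
      apply mul_le_mul_right
      simp_rw [h2]
      exact hJ c hc (c • z)
    calc ENNReal.ofReal (c ^ n) * ∫⁻ z, ∫⁻ x, ‖g z‖ₑ ^ p * wt c L x z ^ p
        ≤ ENNReal.ofReal (c ^ n) * ∫⁻ z, ‖g z‖ₑ ^ p * ENNReal.ofReal ((c ^ n)⁻¹ * J) := by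
          apply mul_le_mul_right
          exact lintegral_mono h1
      _ = ENNReal.ofReal (c ^ n) * ((∫⁻ z, ‖g z‖ₑ ^ p) * ENNReal.ofReal ((c ^ n)⁻¹ * J)) := by
          rw [lintegral_mul_const' _ _ ENNReal.ofReal_ne_top]
      _ = (ENNReal.ofReal (c ^ n) * ENNReal.ofReal ((c ^ n)⁻¹ * J)) * ∫⁻ z, ‖g z‖ₑ ^ p := by ring
      _ = _ := by
          rw [← ENNReal.ofReal_mul (by positivity), ← mul_assoc, mul_inv_cancel₀ (by positivity), one_mul]
  · apply Measurable.aemeasurable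
    have h1 : Measurable fun q : Sp n × Sp n => ‖g q.2‖ₑ ^ p :=
      ((hg.comp continuous_snd).enorm.measurable).pow_const p
    have h2 : Measurable fun q : Sp n × Sp n => wt c L q.1 q.2 ^ p := by
      unfold wt
      apply Measurable.pow_const
      apply Measurable.ennreal_ofReal
      fun_prop
    exact h1.mul h2

/-- from the Plancherel–Polya inequality: values are controlled by averages over the cube -/
lemma block_le_avg (Ψ : 𝓢(Sp n, ℂ)) {p : ℝ} (hp0 : 0 < p) (hp1 : p ≤ 1) (L : ℕ) :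
    ∃ C : ℝ, 0 ≤ C ∧ ∀ (j : ℕ) (g : Sp n → ℂ), Continuous g →
      (∀ x, (⨆ y, ‖g y‖ₑ * wt (2 ^ (j + 1)) L x y) < ⊤) →
      (∀ y, g y = ((((2:ℝ) ^ (j + 1)) ^ n : ℝ) : ℂ) * ∫ z, Ψ ((2:ℝ) ^ (j + 1) • (y - z)) * g z) →
      ∀ x, ‖g x‖ₑ ^ p ≤ ⨅ y ∈ cube j (cell j x), ENNReal.ofReal C * avg p L (2 ^ (j + 1)) g y := by
  obtain ⟨C, hC0, hC⟩ := planch_polya Ψ hp0 hp1 L
  refine ⟨(((1 + 4 * ((n:ℝ) + 1)) ^ L) ^ p) * C, by positivity, fun j g hg hfin hrep x => ?_⟩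
  set c : ℝ := (2:ℝ) ^ (j + 1) with hc
  have hc0 : 0 < c := by positivity
  have key : ∀ y ∈ cube j (cell j x), ‖g x‖ₑ ^ p ≤
      ENNReal.ofReal ((((1 + 4 * ((n:ℝ) + 1)) ^ L) ^ p) * C) * avg p L c g y := by
    intro y hy
    have h1 := hC c hc0 g hg hfin hrep y
    have h2 : ‖g x‖ₑ * wt c L y x ≤ ⨆ z, ‖g z‖ₑ * wt c L y z := le_iSup (fun z => ‖g z‖ₑ * wt c L y z) x
    have h3 : ‖y - x‖ * c ≤ 4 * ((n:ℝ) + 1) := by
      have h4 := norm_scaled_le hy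
      have h5 := norm_scaled_le (self_mem_cube j x)
      have h6 : (2:ℝ) ^ j • (y - x) = ((2:ℝ) ^ j • y - kv (cell j x)) - ((2:ℝ) ^ j • x - kv (cell j x)) := by
        rw [smul_sub]; abel
      have h7 : ‖(2:ℝ) ^ j • (y - x)‖ ≤ (n + 1) + (n + 1) := by
        rw [h6]; exact (norm_sub_le _ _).trans (add_le_add h4 h5)
      rw [norm_smul, Real.norm_eq_abs, abs_of_pos (by positivity)] at h7
      rw [hc, pow_succ]
      linarith
    have h8 : 1 ≤ ENNReal.ofReal ((1 + 4 * ((n:ℝ) + 1)) ^ L) * wt c L y x := by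
      unfold wt
      rw [← ENNReal.ofReal_mul (by positivity), ← ENNReal.ofReal_one]
      apply ENNReal.ofReal_le_ofReal
      rw [← div_eq_mul_inv, le_div_iff₀ (by positivity), one_mul]
      apply pow_le_pow_left₀ (by positivity)
      linarith
    calc ‖g x‖ₑ ^ p = (‖g x‖ₑ * 1) ^ p := by rw [mul_one]
      _ ≤ (‖g x‖ₑ * (ENNReal.ofReal ((1 + 4 * ((n:ℝ) + 1)) ^ L) * wt c L y x)) ^ p := by gcongr
      _ = (ENNReal.ofReal ((1 + 4 * ((n:ℝ) + 1)) ^ L) * (‖g x‖ₑ * wt c L y x)) ^ p := by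
          congr 1; ring
      _ = ENNReal.ofReal ((1 + 4 * ((n:ℝ) + 1)) ^ L) ^ p * (‖g x‖ₑ * wt c L y x) ^ p := by
          rw [ENNReal.mul_rpow_of_nonneg _ _ hp0.le]
      _ ≤ ENNReal.ofReal ((1 + 4 * ((n:ℝ) + 1)) ^ L) ^ p * (⨆ z, ‖g z‖ₑ * wt c L y z) ^ p := by gcongr
      _ ≤ ENNReal.ofReal ((1 + 4 * ((n:ℝ) + 1)) ^ L) ^ p * (ENNReal.ofReal C * avg p L c g y) := by
          apply mul_le_mul_right
          exact h1
      _ = _ := by
          rw [ENNReal.ofReal_rpow_of_nonneg (by positivity) hp0.le, ← mul_assoc,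
            ← ENNReal.ofReal_mul (by positivity)]
  exact le_iInf₂ key

/-- Abstract lower bound: `g j` plays the role of the Littlewood–Paley block `Δ_j u`. -/
theorem besov_lower_abs (Ψ : 𝓢(Sp n, ℂ)) {p α : ℝ} (hp0 : 0 < p) (hp1 : p ≤ 1) (hα : 0 < α) :
    ∃ (L : ℕ) (C : ℝ), 0 ≤ C ∧ ∀ (g : ℕ → Sp n → ℂ), (∀ j, Continuous (g j)) →
      (∀ j x, (⨆ y, ‖g j y‖ₑ * wt (2 ^ (j + 1)) L x y) < ⊤) →
      (∀ j y, g j y = ((((2:ℝ) ^ (j + 1)) ^ n : ℝ) : ℂ) * ∫ z, Ψ ((2:ℝ) ^ (j + 1) • (y - z)) * g j z) →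
      (∑' j : ℕ, ENNReal.ofReal ((2:ℝ) ^ (j * α * p)) * ∫⁻ x, ‖g j x‖ₑ ^ p) < ⊤ →
      ∀ (K : Set (Sp n)) (J : ℕ), (∀ x ∈ K, 1/2 ≤ ‖∑ j ∈ Finset.range (J + 1), g j x‖) →
      ∀ k, cont K (n - α * p) J 0 k ≤
        C * (∑' j : ℕ, ENNReal.ofReal ((2:ℝ) ^ (j * α * p)) * ∫⁻ x, ‖g j x‖ₑ ^ p).toReal := by
  obtain ⟨L, hL⟩ := exists_nat_gt (n / p)
  have hL' : (n:ℝ) < L * p := by rwa [div_lt_iff₀ hp0] at hL
  obtain ⟨C, hC0, hC⟩ := block_le_avg Ψ hp0 hp1 L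
  obtain ⟨J0, hJ00, hJ0⟩ := lintegral_avg (n := n) hL'
  have hαp : 0 < α * p := by positivity
  have hq1 : (2:ℝ) ^ (-(α * p)) < 1 := Real.rpow_lt_one_of_one_lt_of_neg (by norm_num) (by linarith)
  have hA : 0 ≤ (1 - (2:ℝ) ^ (-(α * p)))⁻¹ := inv_nonneg.2 (by linarith)
  refine ⟨L, (1 - (2:ℝ) ^ (-(α * p)))⁻¹ * (2 ^ p * C * J0), by positivity, ?_⟩
  intro g hg hfin hrep htot K J hK k
  set T : ℝ≥0∞ := ∑' j : ℕ, ENNReal.ofReal ((2:ℝ) ^ (j * α * p)) * ∫⁻ x, ‖g j x‖ₑ ^ p with hT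
  set G : Sp n → ℝ≥0∞ := fun x => ∑' j : ℕ, ENNReal.ofReal (2 ^ p * (2:ℝ) ^ (j * α * p)) *
    (ENNReal.ofReal C * avg p L (2 ^ (j + 1)) (g j) x) with hG
  have hGint : ∫⁻ x, G x ≤ ENNReal.ofReal (2 ^ p * C * J0) * T := by
    simp only [hG]
    rw [lintegral_tsum, hT, ← ENNReal.tsum_mul_left]
    · apply ENNReal.tsum_le_tsum
      intro j
      rw [lintegral_const_mul' _ _ ENNReal.ofReal_ne_top, lintegral_const_mul' _ _ ENNReal.ofReal_ne_top]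
      calc ENNReal.ofReal (2 ^ p * (2:ℝ) ^ (j * α * p)) * (ENNReal.ofReal C *
            ∫⁻ x, avg p L (2 ^ (j + 1)) (g j) x)
          ≤ ENNReal.ofReal (2 ^ p * (2:ℝ) ^ (j * α * p)) * (ENNReal.ofReal C *
            (ENNReal.ofReal J0 * ∫⁻ z, ‖g j z‖ₑ ^ p)) := by
            gcongr
            exact hJ0 _ (by positivity) (g j) (hg j)
        _ = _ := by
            rw [ENNReal.ofReal_mul (show (0:ℝ) ≤ 2 ^ p by positivity), mul_assoc (2 ^ p) C J0,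
              ENNReal.ofReal_mul (show (0:ℝ) ≤ 2 ^ p by positivity), ENNReal.ofReal_mul hC0]
            ring
    · intro j
      exact (((measurable_avg L _ (hg j)).const_mul _).const_mul _).aemeasurable
  have hGfin : ∫⁻ x, G x < ⊤ :=
    lt_of_le_of_lt hGint (ENNReal.mul_lt_top ENNReal.ofReal_lt_top htot)
  have h1 := content_le hαp hGfin J (K := K) (by
    intro x hx
    have h2 := hK x hx
    have h3 : (1:ℝ≥0∞) ≤ ENNReal.ofReal (2 ^ p) * ∑ j ∈ Finset.range (J + 1), ‖g j x‖ₑ ^ p := by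
      calc (1:ℝ≥0∞) = ENNReal.ofReal ((2 * (1/2)) ^ p) := by norm_num
        _ ≤ ENNReal.ofReal ((2 * ‖∑ j ∈ Finset.range (J + 1), g j x‖) ^ p) := by gcongr
        _ = ENNReal.ofReal (2 ^ p) * ‖∑ j ∈ Finset.range (J + 1), g j x‖ₑ ^ p := by
            rw [Real.mul_rpow (by norm_num) (norm_nonneg _), ENNReal.ofReal_mul (by positivity),
              ← ENNReal.ofReal_rpow_of_nonneg (norm_nonneg _) hp0.le, ofReal_norm]
        _ ≤ ENNReal.ofReal (2 ^ p) * (∑ j ∈ Finset.range (J + 1), ‖g j x‖ₑ) ^ p := by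
            gcongr
            exact enorm_sum_le _ _
        _ ≤ _ := by
            gcongr
            exact rpow_finset_sum_le hp0 hp1 _ _
    refine h3.trans ?_
    rw [Finset.mul_sum]
    apply Finset.sum_le_sum
    intro j _
    have h4 : ENNReal.ofReal (sd (α * p) j) * ENNReal.ofReal ((2:ℝ) ^ (j * α * p)) = 1 := by
      rw [← ENNReal.ofReal_mul (sd_pos _ _).le]
      unfold sd
      rw [← Real.rpow_add (by norm_num)]
      have : -(j:ℝ) * (α * p) + j * α * p = 0 := by ring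
      rw [this]
      simp
    have h5 : ENNReal.ofReal (2 ^ p) * ‖g j x‖ₑ ^ p = ENNReal.ofReal (sd (α * p) j) *
        (ENNReal.ofReal (2 ^ p * (2:ℝ) ^ (j * α * p)) * ‖g j x‖ₑ ^ p) := by
      rw [ENNReal.ofReal_mul (show (0:ℝ) ≤ 2 ^ p by positivity)]
      calc ENNReal.ofReal (2 ^ p) * ‖g j x‖ₑ ^ p = (ENNReal.ofReal (sd (α * p) j) *
            ENNReal.ofReal ((2:ℝ) ^ (j * α * p))) * (ENNReal.ofReal (2 ^ p) * ‖g j x‖ₑ ^ p) := by
            rw [h4, one_mul]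
        _ = _ := by ring
    rw [h5]
    apply mul_le_mul_right
    refine le_iInf₂ fun y hy => ?_
    have h6 := hC j (g j) (hg j) (hfin j) (hrep j) x
    calc ENNReal.ofReal (2 ^ p * (2:ℝ) ^ (j * α * p)) * ‖g j x‖ₑ ^ p
        ≤ ENNReal.ofReal (2 ^ p * (2:ℝ) ^ (j * α * p)) *
          (ENNReal.ofReal C * avg p L (2 ^ (j + 1)) (g j) y) :=
          mul_le_mul_right (h6.trans (iInf₂_le y hy)) _
      _ ≤ G y := ENNReal.le_tsum (f := fun j : ℕ => ENNReal.ofReal (2 ^ p * (2:ℝ) ^ (j * α * p)) *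
          (ENNReal.ofReal C * avg p L (2 ^ (j + 1)) (g j) y)) j) k
  refine h1.trans ?_
  have h7 : (∫⁻ x, G x).toReal ≤ (2 ^ p * C * J0) * T.toReal := by
    have h8 := ENNReal.toReal_mono (ENNReal.mul_lt_top ENNReal.ofReal_lt_top htot).ne hGint
    rwa [ENNReal.toReal_mul, ENNReal.toReal_ofReal (by positivity)] at h8
  calc (1 - (2:ℝ) ^ (-(α * p)))⁻¹ * (∫⁻ x, G x).toReal
      ≤ (1 - (2:ℝ) ^ (-(α * p)))⁻¹ * ((2 ^ p * C * J0) * T.toReal) := mul_le_mul_of_nonneg_left h7 hA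
    _ = _ := by ring

end Pool.Agent.Bhc
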