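import Mathlib
import Pool.Agent.Lib_helper48.BhcLowerBesov

/-!
# Lower bound for the Besov capacity, Schwartz functions

Helper file for the hand-in on `MP_9b3711_an`.
-/

open MeasureTheory Set FourierTransform Real
open scoped ENNReal NNReal ContDiff SchwartzMap RealInnerProductSpace Topology

namespace Pool.Agent.Bhc

variable {n : ℕ}

lemma mult_scaled' (m : Sp n → ℝ) (hm : Cc m) {g : Sp n → ℂ} (hg : Integrable g) {lam : ℝ}
    (hl : 0 < lam) (X : Sp n) :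
    𝓕⁻ (fun ξ => (m (lam⁻¹ • ξ) : ℂ) * 𝓕 g ξ) X =
      ((lam ^ n : ℝ) : ℂ) * ∫ y, (𝓕⁻ hm.toS : 𝓢(Sp n, ℂ)) (lam • (X - y)) * g y := by
  have hmi : Integrable (fun ξ : Sp n => (m (lam⁻¹ • ξ) : ℂ)) := by
    have := (hm.dil (inv_pos.2 hl).ne' 0).integrable_cx
    refine this.congr (Filter.Eventually.of_forall fun ξ => ?_)
    simp [cx, dil]
  rw [mult_eq_conv hmi hg, ← integral_const_mul]
  congr 1
  funext y
  have := fourierInv_scale (fun ξ : Sp n => (m ξ : ℂ)) hl (X - y)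
  rw [this, SchwartzMap.fourierInv_coe, mul_assoc]
  rfl

lemma sum_lpSym (η : Sp n → ℝ) (J : ℕ) (ξ : Sp n) :
    ∑ j ∈ Finset.range (J + 1), lpSym η j ξ = η (((2:ℝ) ^ J)⁻¹ • ξ) := by
  induction J with
  | zero => simp [lpSym]
  | succ J ih =>
    rw [Finset.sum_range_succ, ih]
    show η (((2:ℝ) ^ J)⁻¹ • ξ) + (η (((2:ℝ) ^ (J + 1))⁻¹ • ξ) - η (((2:ℝ) ^ J)⁻¹ • ξ)) = _
    ring

lemma lpSym_support {η : Sp n → ℝ} (h : IsCutoff η) (j : ℕ) (ξ : Sp n) :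
    η (((2:ℝ) ^ (j + 1))⁻¹ • ξ) * lpSym η j ξ = lpSym η j ξ := by
  by_cases hξ : ‖ξ‖ ≤ 2 ^ (j + 1)
  · rw [h.one, one_mul]
    rw [norm_smul, norm_inv, Real.norm_eq_abs, abs_of_pos (by positivity), inv_mul_le_iff₀ (by positivity),
      mul_one]
    exact hξ
  · push Not at hξ
    have h0 : lpSym η j ξ = 0 := by
      cases j with
      | zero =>
        apply h.zero
        simp at hξ
        exact hξ.le
      | succ j =>
        rw [lpSym_succ]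
        unfold psi
        have e1 : 2 ≤ ‖((2:ℝ) ^ (j + 1))⁻¹ • ξ‖ := by
          rw [norm_smul, norm_inv, Real.norm_eq_abs, abs_of_pos (by positivity), ← div_eq_inv_mul,
            le_div_iff₀ (by positivity), ← pow_succ']
          exact hξ.le
        have e2 : 2 ≤ ‖(2:ℝ) • ((2:ℝ) ^ (j + 1))⁻¹ • ξ‖ := by
          rw [norm_smul]
          norm_num
          linarith
        rw [h.zero _ e1, h.zero _ e2, sub_self]
    rw [h0, mul_zero]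

/-- the Littlewood–Paley block of a Schwartz function as a Schwartz function -/
noncomputable def lpS (η : Sp n → ℝ) (j : ℕ) : 𝓢(Sp n, ℂ) →L[ℂ] 𝓢(Sp n, ℂ) :=
  SchwartzMap.fourierMultiplierCLM ℂ (fun ξ : Sp n => (lpSym η j ξ : ℂ))

lemma temperate_lpSym {η : Sp n → ℝ} (h : IsCutoff η) (j : ℕ) :
    (fun ξ : Sp n => (lpSym η j ξ : ℂ)).HasTemperateGrowth :=
  (h.cc_lpSym j).toS.hasTemperateGrowth

lemma fourier_lpS {η : Sp n → ℝ} (h : IsCutoff η) (j : ℕ) (f : 𝓢(Sp n, ℂ)) (ξ : Sp n) :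
    𝓕 (lpS η j f : Sp n → ℂ) ξ = (lpSym η j ξ : ℂ) * 𝓕 (f : Sp n → ℂ) ξ := by
  rw [← SchwartzMap.fourier_coe, lpS, SchwartzMap.fourierMultiplierCLM_apply,
    FourierTransform.fourier_fourierInv_eq, SchwartzMap.smulLeftCLM_apply_apply (temperate_lpSym h j),
    SchwartzMap.fourier_coe, smul_eq_mul]

lemma lpS_eq {η : Sp n → ℝ} (h : IsCutoff η) (j : ℕ) (f : 𝓢(Sp n, ℂ)) :
    (lpS η j f : Sp n → ℂ) = lpBlock η j (f : Sp n → ℂ) := by
  funext x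
  rw [lpS, SchwartzMap.fourierMultiplierCLM_apply, SchwartzMap.fourierInv_coe]
  have h : ((SchwartzMap.smulLeftCLM ℂ (fun ξ : Sp n => (lpSym η j ξ : ℂ)) (𝓕 f) : 𝓢(Sp n, ℂ)) :
      Sp n → ℂ) = fun ξ => (lpSym η j ξ : ℂ) * 𝓕 (f : Sp n → ℂ) ξ := by
    funext ξ
    rw [SchwartzMap.smulLeftCLM_apply_apply (temperate_lpSym h j), SchwartzMap.fourier_coe, smul_eq_mul]
  rw [h]
  rfl

lemma integral_fourierInv_cutoff {η : Sp n → ℝ} (h : IsCutoff η) :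
    ∫ z, (𝓕⁻ h.cc.toS : 𝓢(Sp n, ℂ)) z = 1 := by
  have h1 : 𝓕 (𝓕⁻ h.cc.toS : 𝓢(Sp n, ℂ)) = h.cc.toS := FourierTransform.fourier_fourierInv_eq _
  have h2 : (𝓕 (𝓕⁻ h.cc.toS : 𝓢(Sp n, ℂ)) : 𝓢(Sp n, ℂ)) 0 = ∫ z, (𝓕⁻ h.cc.toS : 𝓢(Sp n, ℂ)) z := by
    rw [SchwartzMap.fourier_coe, Real.fourier_eq]
    simp
  rw [← h2, h1, Cc.toS_apply, h.one 0 (by simp)]
  norm_num

lemma sum_lpBlock {η : Sp n → ℝ} (h : IsCutoff η) (f : 𝓢(Sp n, ℂ)) (J : ℕ) (x : Sp n) :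
    ∑ j ∈ Finset.range (J + 1), lpBlock η j (f : Sp n → ℂ) x =
      ∫ z, (𝓕⁻ h.cc.toS : 𝓢(Sp n, ℂ)) z * f (x - ((2:ℝ) ^ J)⁻¹ • z) := by
  have h2J : (0:ℝ) < 2 ^ J := by positivity
  have h1 : ∑ j ∈ Finset.range (J + 1), lpBlock η j (f : Sp n → ℂ) x =
      𝓕⁻ (fun ξ => (η (((2:ℝ) ^ J)⁻¹ • ξ) : ℂ) * 𝓕 (f : Sp n → ℂ) ξ) x := by
    unfold lpBlock
    have hi : ∀ j, Integrable (fun v : Sp n => 𝐞 ⟪v, x⟫ • ((lpSym η j v : ℂ) * 𝓕 (f : Sp n → ℂ) v)) := by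
      intro j
      have := (Real.fourierIntegral_convergent_iff (μ := volume)
        (f := fun v : Sp n => (lpSym η j v : ℂ) * 𝓕 (f : Sp n → ℂ) v) (-x)).2
        (integrable_sym_mul (h.cc_lpSym j) f)
      simpa using this
    simp_rw [Real.fourierInv_eq]
    rw [← integral_finsetSum _ fun j _ => hi j]
    congr 1
    funext ξ
    rw [← Finset.smul_sum, ← Finset.sum_mul, ← Complex.ofReal_sum, sum_lpSym]
  rw [h1, mult_scaled' η h.cc f.integrable h2J]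
  have h3 : ∀ y : Sp n, (𝓕⁻ h.cc.toS : 𝓢(Sp n, ℂ)) ((2:ℝ) ^ J • (x - y)) * f y =
      (fun Y : Sp n => (𝓕⁻ h.cc.toS : 𝓢(Sp n, ℂ)) (-Y) * f (x - ((2:ℝ) ^ J)⁻¹ • (-Y)))
        ((2:ℝ) ^ J • y - (2:ℝ) ^ J • x) := by
    intro y
    simp only
    have e1 : -((2:ℝ) ^ J • y - (2:ℝ) ^ J • x) = (2:ℝ) ^ J • (x - y) := by rw [smul_sub]; abel
    have e2 : x - ((2:ℝ) ^ J)⁻¹ • ((2:ℝ) ^ J • (x - y)) = y := by
      rw [smul_smul, inv_mul_cancel₀ h2J.ne', one_smul]; abel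
    rw [e1, e2]
  rw [integral_congr_ae (Filter.Eventually.of_forall h3), integral_dil
    (fun Y : Sp n => (𝓕⁻ h.cc.toS : 𝓢(Sp n, ℂ)) (-Y) * f (x - ((2:ℝ) ^ J)⁻¹ • (-Y))) h2J,
    integral_neg_eq_self (fun Y : Sp n => (𝓕⁻ h.cc.toS : 𝓢(Sp n, ℂ)) Y * f (x - ((2:ℝ) ^ J)⁻¹ • Y)),
    Complex.real_smul, ← mul_assoc, ← Complex.ofReal_mul, mul_inv_cancel₀ (by positivity)]
  simp

/-- **Lower bound for the Besov capacity.** -/
theorem besov_lower {η : Sp n → ℝ} (h : IsCutoff η) {p α : ℝ} (hp0 : 0 < p) (hp1 : p ≤ 1) (hα : 0 < α) :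
    ∃ C : ℝ, 0 ≤ C ∧ ∀ (f : 𝓢(Sp n, ℂ)) (K : Set (Sp n)), IsCompact K →
      (∀ x ∈ K, 1 ≤ ‖f x‖) → besovPow η α p (f : Sp n → ℂ) < ⊤ →
      ∃ i', ∀ k, cont K (n - α * p) i' 0 k ≤ C * (besovPow η α p (f : Sp n → ℂ)).toReal := by
  obtain ⟨L, C, hC0, hC⟩ := besov_lower_abs (𝓕⁻ h.cc.toS) hp0 hp1 hα
  refine ⟨C, hC0, fun f K hK hfK hfin => ?_⟩
  obtain ⟨r0, hr0, hr⟩ := approx_uniform (𝓕⁻ h.cc.toS) (integral_fourierInv_cutoff h) f.continuous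
    (schwartz_polyGrowth f) hK (show (0:ℝ) < 1/2 by norm_num)
  obtain ⟨J, hJ⟩ := exists_pow_lt_of_lt_one hr0 (show (1/2 : ℝ) < 1 by norm_num)
  refine ⟨J, ?_⟩
  apply hC (fun j => lpBlock η j (f : Sp n → ℂ)) (fun j => continuous_lpBlock h j f) _ _ hfin K J
  · intro x hx
    have h1 := hr (((2:ℝ) ^ J)⁻¹) (by
      rw [abs_of_pos (by positivity)]
      rwa [one_div, inv_pow] at hJ) x hx
    rw [← sum_lpBlock h f J x] at h1
    have h2 := hfK x hx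
    have h3 : ‖f x‖ ≤ ‖∑ j ∈ Finset.range (J + 1), lpBlock η j (f : Sp n → ℂ) x‖ +
        ‖∑ j ∈ Finset.range (J + 1), lpBlock η j (f : Sp n → ℂ) x - f x‖ := by
      have := norm_sub_le (∑ j ∈ Finset.range (J + 1), lpBlock η j (f : Sp n → ℂ) x)
        (∑ j ∈ Finset.range (J + 1), lpBlock η j (f : Sp n → ℂ) x - f x)
      simpa using this
    linarith
  · intro j x
    obtain ⟨B, hB0, hB⟩ := schwartz_decay (lpS η j f) 0 0
    refine lt_of_le_of_lt (iSup_le fun y => ?_) (ENNReal.ofReal_lt_top (r := B))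
    rw [← lpS_eq h]
    have h1 := hB y
    rw [norm_iteratedFDeriv_zero, pow_zero, inv_one, mul_one] at h1
    calc ‖lpS η j f y‖ₑ * wt (2 ^ (j + 1)) L x y ≤ ENNReal.ofReal B * 1 := by
          gcongr
          · rw [← ofReal_norm]; exact ENNReal.ofReal_le_ofReal h1
          · unfold wt
            rw [← ENNReal.ofReal_one]
            apply ENNReal.ofReal_le_ofReal
            apply inv_le_one_of_one_le₀
            apply one_le_pow₀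
            have : 0 ≤ (2:ℝ) ^ (j + 1) * ‖x - y‖ := by positivity
            linarith
      _ = _ := mul_one _
  · intro j y
    have hpos : (0:ℝ) < 2 ^ (j + 1) := by positivity
    rw [← lpS_eq h, ← mult_scaled' η h.cc (lpS η j f).integrable hpos]
    have e : (fun ξ => (η (((2:ℝ) ^ (j + 1))⁻¹ • ξ) : ℂ) * 𝓕 (lpS η j f : Sp n → ℂ) ξ) =
        fun ξ => (lpSym η j ξ : ℂ) * 𝓕 (f : Sp n → ℂ) ξ := by
      funext ξ
      rw [fourier_lpS h, ← mul_assoc, ← Complex.ofReal_mul, lpSym_support h]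
    rw [e, lpS_eq h]
    rfl

end Pool.Agent.Bhc
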