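import Mathlib
import Pool.Agent.Lib_helper48.BhcApprox
import Pool.Agent.Lib_helper48.BhcBesov

/-!
# The Besov and Hardy–Bessel capacities, with tempered distributions: definitions

Helper file for the hand-in on `MP_9b3711_an`.  `Sp n` is `ℝⁿ`, `lpSym` the Littlewood–Paley symbols,
`heatK` the Gauss–Weierstrass kernel, and `Bhc.bessel α φ` the Bessel potential `G_α * φ`, i.e. the
Fourier multiplier with symbol `(1 + 4π²|ξ|²)^{-α/2}`.
-/

open MeasureTheory Set FourierTransform Real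
open scoped ENNReal SchwartzMap

namespace Pool.Agent.BhcT

open Pool.Agent.Bhc (Sp lpSym heatK)

variable {n : ℕ}

/-- complex Schwartz functions on `ℝⁿ` -/
abbrev SF (n : ℕ) : Type := 𝓢(Sp n, ℂ)

/-- tempered distributions on `ℝⁿ` -/
abbrev TD (n : ℕ) : Type := 𝓢'(Sp n, ℂ)

/-- the value `⟨T, φ⟩` of the tempered distribution `T` at the Schwartz function `φ` -/
noncomputable def pair (T : TD n) (φ : SF n) : ℂ := T φ

/-- the Schwartz function with the given values (unspecified if there is none) -/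
noncomputable def sch (g : Sp n → ℂ) : SF n := Classical.epsilon fun φ : SF n => (φ : Sp n → ℂ) = g

/-- the convolution `T * g` of a tempered distribution `T` with a Schwartz function `g`: the function
`(T * g)(x) = ⟨T, g(x - ·)⟩` -/
noncomputable def tconv (T : TD n) (g : Sp n → ℂ) (x : Sp n) : ℂ := pair T (sch fun y => g (x - y))

/-- the Littlewood–Paley block `Δ_j T = 𝓕⁻¹(φ_j 𝓕T) = T * 𝓕⁻¹φ_j` -/
noncomputable def lpBlock (η : Sp n → ℝ) (j : ℕ) (T : TD n) : Sp n → ℂ :=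
  tconv T (𝓕⁻ fun ξ => (lpSym η j ξ : ℂ))

/-- the `p`-th power of the quasi-norm of `T` in the Besov space `Λ^{pp}_α = B^α_{pp}`:
`∑_j 2^{jαp} ∫ |Δ_j T|^p` -/
noncomputable def besovPow (η : Sp n → ℝ) (α p : ℝ) (T : TD n) : ℝ≥0∞ :=
  ∑' j : ℕ, ENNReal.ofReal ((2:ℝ) ^ (j * α * p)) * ∫⁻ x, ‖lpBlock η j T x‖ₑ ^ p

/-- the heat extension of a tempered distribution -/
noncomputable def heatExt (f : TD n) (t : ℝ) : Sp n → ℂ := tconv f fun y => (heatK t y : ℂ)

/-- the nontangential maximal function `sup {|heatExt f t y| : t > 0, |y - x| < √t}` -/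
noncomputable def ntMax (f : TD n) (x : Sp n) : ℝ≥0∞ :=
  ⨆ (t : ℝ) (_ : 0 < t) (y : Sp n) (_ : ‖y - x‖ < Real.sqrt t), ‖heatExt f t y‖ₑ

/-- the `p`-th power of the quasi-norm of `f` in the real Hardy space `H^p` -/
noncomputable def hardyPow (p : ℝ) (f : TD n) : ℝ≥0∞ := ∫⁻ x, ntMax f x ^ p

/-- the tempered distribution `T` is given by the (continuous) function `u`: `⟨T, φ⟩ = ∫ u φ` for all
test functions `φ` -/
def IsRep (T : TD n) (u : Sp n → ℝ) : Prop :=
  ∀ φ : SF n, HasCompactSupport φ → pair T φ = ∫ x, (u x : ℂ) * φ x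

/-- the tempered distribution `G_α * f` is given by the (continuous) function `u`:
`⟨f, G_α * φ⟩ = ∫ u φ` for all test functions `φ` -/
def IsPot (α : ℝ) (f : TD n) (u : Sp n → ℝ) : Prop :=
  ∀ φ : SF n, HasCompactSupport φ → pair f (sch (Bhc.bessel α φ)) = ∫ x, (u x : ℂ) * φ x

/-- the Besov capacity `A_{α,p,p}(K)` of the class `D`: the infimum of `|u|^p_{α,p,p}` over all `u ∈ D`
(in the space) with `u ≥ 1` on `K` -/
noncomputable def capA (D : Set (Sp n → ℝ)) (η : Sp n → ℝ) (α p : ℝ) (K : Set (Sp n)) : ℝ≥0∞ :=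
  ⨅ (u : Sp n → ℝ) (_ : u ∈ D) (_ : ∀ x ∈ K, 1 ≤ u x) (T : TD n) (_ : IsRep T u), besovPow η α p T

/-- the capacity `B_{α,p}(K)` of the class `D`: the infimum of `‖f‖^p_{H^p}` over all `f` such that
`G_α * f` is a function `u ∈ D` with `u ≥ 1` on `K` -/
noncomputable def capB (D : Set (Sp n → ℝ)) (α p : ℝ) (K : Set (Sp n)) : ℝ≥0∞ :=
  ⨅ (u : Sp n → ℝ) (_ : u ∈ D) (_ : ∀ x ∈ K, 1 ≤ u x) (f : TD n) (_ : IsPot α f u), hardyPow p f

end Pool.Agent.BhcT
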