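import Mathlib
import Pool.Agent.Lib_helper48.BhcApprox

/-!
# Tempered distributions as bounded functionals, and an interchange formula

Helper file for the hand-in on `MP_9b3711_an`.
-/

open MeasureTheory Set FourierTransform Real
open scoped ENNReal NNReal ContDiff SchwartzMap RealInnerProductSpace Topology
open scoped BoundedContinuousFunction

namespace Pool.Agent.BhcT

open Pool.Agent.Bhc

variable {n : ℕ}

/-- multilinear maps, the values of the `l`-th derivative -/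
abbrev VL (n l : ℕ) : Type := ContinuousMultilinearMap ℝ (fun _ : Fin l => Sp n) ℂ

/-- the space of weighted derivatives up to order `N` -/
def XN (n N : ℕ) : Type := (l : Fin (N + 1)) → (Sp n →ᵇ VL n l)

noncomputable instance (n N : ℕ) : NormedAddCommGroup (XN n N) :=
  inferInstanceAs (NormedAddCommGroup ((l : Fin (N + 1)) → (Sp n →ᵇ VL n l)))

noncomputable instance (n N : ℕ) : NormedSpace ℂ (XN n N) :=
  inferInstanceAs (NormedSpace ℂ ((l : Fin (N + 1)) → (Sp n →ᵇ VL n l)))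

lemma wbound (N l : ℕ) (φ : 𝓢(Sp n, ℂ)) :
    ∃ C, ∀ y, ‖((1 + ‖y‖) ^ N : ℝ) • iteratedFDeriv ℝ l φ y‖ ≤ C := by
  refine ⟨2 ^ N * (Finset.Iic (N, l)).sup (fun m => SchwartzMap.seminorm ℝ m.1 m.2) φ, fun y => ?_⟩
  rw [norm_smul, Real.norm_eq_abs, abs_of_nonneg (by positivity)]
  exact SchwartzMap.one_add_le_sup_seminorm_apply (𝕜 := ℝ) (m := (N, l)) le_rfl le_rfl φ y

/-- the weighted `l`-th derivative -/
noncomputable def wder (N l : ℕ) (φ : 𝓢(Sp n, ℂ)) : Sp n →ᵇ VL n l :=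
  BoundedContinuousFunction.ofNormedAddCommGroup
    (fun y => ((1 + ‖y‖) ^ N : ℝ) • iteratedFDeriv ℝ l φ y)
    (((continuous_const.add continuous_norm).pow N).smul
      ((φ.smooth ⊤).continuous_iteratedFDeriv (by exact_mod_cast le_top)))
    (wbound N l φ).choose (wbound N l φ).choose_spec

lemma wder_apply (N l : ℕ) (φ : 𝓢(Sp n, ℂ)) (y : Sp n) :
    wder N l φ y = ((1 + ‖y‖) ^ N : ℝ) • iteratedFDeriv ℝ l φ y := rfl

/-- the embedding of the Schwartz space -/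
noncomputable def emb (n N : ℕ) : 𝓢(Sp n, ℂ) →ₗ[ℂ] XN n N where
  toFun φ := fun l => wder N l φ
  map_add' φ ψ := by
    funext l
    apply BoundedContinuousFunction.ext
    intro y
    have h : iteratedFDeriv ℝ l (⇑(φ + ψ)) y = iteratedFDeriv ℝ l φ y + iteratedFDeriv ℝ l ψ y :=
      iteratedFDeriv_add_apply ((φ.smooth ⊤).contDiffAt.of_le (by exact_mod_cast le_top))
      ((ψ.smooth ⊤).contDiffAt.of_le (by exact_mod_cast le_top))
    show ((1 + ‖y‖) ^ N : ℝ) • iteratedFDeriv ℝ l (⇑(φ + ψ)) y =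
      ((1 + ‖y‖) ^ N : ℝ) • iteratedFDeriv ℝ l φ y + ((1 + ‖y‖) ^ N : ℝ) • iteratedFDeriv ℝ l ψ y
    rw [h]
    exact smul_add _ _ _
  map_smul' a φ := by
    funext l
    apply BoundedContinuousFunction.ext
    intro y
    have h : iteratedFDeriv ℝ l (⇑(a • φ)) y = a • iteratedFDeriv ℝ l φ y :=
      iteratedFDeriv_const_smul_apply ((φ.smooth ⊤).contDiffAt.of_le (by exact_mod_cast le_top))
    show ((1 + ‖y‖) ^ N : ℝ) • iteratedFDeriv ℝ l (⇑(a • φ)) y =
      a • ((1 + ‖y‖) ^ N : ℝ) • iteratedFDeriv ℝ l φ y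
    rw [h]
    exact smul_comm _ _ _

lemma emb_apply (N : ℕ) (φ : 𝓢(Sp n, ℂ)) (l : Fin (N + 1)) (y : Sp n) :
    emb n N φ l y = ((1 + ‖y‖) ^ N : ℝ) • iteratedFDeriv ℝ l φ y := rfl

lemma norm_emb_le {N : ℕ} {φ : 𝓢(Sp n, ℂ)} {B : ℝ} (hB : 0 ≤ B)
    (h : ∀ l, l ≤ N → ∀ y, (1 + ‖y‖) ^ N * ‖iteratedFDeriv ℝ l φ y‖ ≤ B) : ‖emb n N φ‖ ≤ B := by
  refine (pi_norm_le_iff_of_nonneg hB).2 ?_
  intro l
  rw [BoundedContinuousFunction.norm_le hB]
  intro y
  rw [emb_apply, norm_smul, Real.norm_eq_abs, abs_of_nonneg (by positivity)]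
  exact h l (Nat.lt_succ_iff.1 l.2) y

lemma le_norm_emb {N l : ℕ} (hl : l ≤ N) (φ : 𝓢(Sp n, ℂ)) (y : Sp n) :
    (1 + ‖y‖) ^ N * ‖iteratedFDeriv ℝ l φ y‖ ≤ ‖emb n N φ‖ := by
  have h1 := norm_le_pi_norm (emb n N φ) ⟨l, Nat.lt_succ_iff.2 hl⟩
  have h2 := BoundedContinuousFunction.norm_coe_le_norm (emb n N φ ⟨l, Nat.lt_succ_iff.2 hl⟩) y
  rw [emb_apply, norm_smul, Real.norm_eq_abs, abs_of_nonneg (by positivity)] at h2
  exact h2.trans h1

lemma emb_injective (N : ℕ) : Function.Injective (emb n N) := by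
  rw [injective_iff_map_eq_zero]
  intro φ hφ
  ext y
  have h1 := le_norm_emb (Nat.zero_le N) φ y
  rw [hφ, norm_iteratedFDeriv_zero] at h1
  have h0 : ‖(0 : XN n N)‖ = 0 := norm_zero
  rw [h0] at h1
  have h2 : 0 < (1 + ‖y‖) ^ N := by positivity
  have h3 : ‖φ y‖ ≤ 0 := by
    by_contra hcon
    push Not at hcon
    nlinarith [mul_pos h2 hcon]
  simpa using h3

/-- continuity of a tempered distribution in terms of the embedding -/
lemma exists_bound (T : 𝓢'(Sp n, ℂ)) :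
    ∃ (N : ℕ) (C : ℝ), 0 ≤ C ∧ ∀ φ : 𝓢(Sp n, ℂ), ‖T φ‖ ≤ C * ‖emb n N φ‖ := by
  have hT : Continuous fun φ : 𝓢(Sp n, ℂ) => T φ := T.continuous
  let q : Seminorm ℂ 𝓢(Sp n, ℂ) := (normSeminorm ℂ ℂ).comp (T : 𝓢(Sp n, ℂ) →L[ℂ] ℂ).toLinearMap
  have hq : Continuous q := continuous_norm.comp hT
  obtain ⟨s, C, -, hC⟩ := Seminorm.bound_of_continuous (schwartz_withSeminorms ℂ (Sp n) ℂ) q hq
  refine ⟨s.sup fun m => max m.1 m.2, C, C.2, fun φ => ?_⟩
  have h1 : ‖T φ‖ ≤ C * (s.sup (schwartzSeminormFamily ℂ (Sp n) ℂ)) φ := hC φ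
  refine h1.trans ?_
  apply mul_le_mul_of_nonneg_left _ C.2
  apply Seminorm.finset_sup_apply_le (norm_nonneg _)
  intro m hm
  apply SchwartzMap.seminorm_le_bound ℂ m.1 m.2 φ (norm_nonneg _)
  intro y
  have h2 : max m.1 m.2 ≤ s.sup fun m => max m.1 m.2 := Finset.le_sup (f := fun m => max m.1 m.2) hm
  refine le_trans ?_ (le_norm_emb ((le_max_right _ _).trans h2) φ y)
  apply mul_le_mul_of_nonneg_right _ (norm_nonneg _)
  calc ‖y‖ ^ m.1 ≤ (1 + ‖y‖) ^ m.1 := by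
        apply pow_le_pow_left₀ (norm_nonneg _)
        linarith
    _ ≤ _ := pow_le_pow_right₀ (by have := norm_nonneg y; linarith) ((le_max_left _ _).trans h2)

/-- Hahn–Banach: a tempered distribution is the restriction of a bounded functional. -/
lemma exists_functional (T : 𝓢'(Sp n, ℂ)) :
    ∃ (N : ℕ) (L : XN n N →L[ℂ] ℂ), ∀ φ : 𝓢(Sp n, ℂ), T φ = L (emb n N φ) := by
  obtain ⟨N, C, hC0, hC⟩ := exists_bound T
  let e := LinearEquiv.ofInjective (emb n N) (emb_injective N)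
  let f0 : LinearMap.range (emb n N) →ₗ[ℂ] ℂ :=
    ((T : 𝓢(Sp n, ℂ) →L[ℂ] ℂ).toLinearMap).comp e.symm.toLinearMap
  let f : LinearMap.range (emb n N) →L[ℂ] ℂ := f0.mkContinuous C (by
    intro x
    have h1 : emb n N (e.symm x) = x := by
      have := e.apply_symm_apply x
      have h2 : ((e (e.symm x) : LinearMap.range (emb n N)) : XN n N) = emb n N (e.symm x) := rfl
      rw [← h2, this]
    have h3 := hC (e.symm x)
    rw [h1] at h3
    exact h3)
  obtain ⟨g, hg, -⟩ := exists_extension_norm_eq (LinearMap.range (emb n N)) f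
  refine ⟨N, g, fun φ => ?_⟩
  have h1 := hg (e φ)
  have h2 : ((e φ : LinearMap.range (emb n N)) : XN n N) = emb n N φ := rfl
  rw [h2] at h1
  rw [h1]
  show T φ = T (e.symm (e φ))
  rw [e.symm_apply_apply]

/-! ### translates -/

/-- `y ↦ φ (y - z)` -/
noncomputable def tau (z : Sp n) (φ : 𝓢(Sp n, ℂ)) : 𝓢(Sp n, ℂ) := SchwartzMap.compSubConstCLM ℂ z φ

lemma tau_apply (z : Sp n) (φ : 𝓢(Sp n, ℂ)) (y : Sp n) : tau z φ y = φ (y - z) := rfl

lemma iteratedFDeriv_tau (z : Sp n) (φ : 𝓢(Sp n, ℂ)) (l : ℕ) (y : Sp n) :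
    iteratedFDeriv ℝ l (tau z φ) y = iteratedFDeriv ℝ l φ (y - z) := by
  have : (tau z φ : Sp n → ℂ) = fun y => φ (y - z) := rfl
  rw [this, iteratedFDeriv_comp_sub]

lemma one_add_le_mul (y z : Sp n) : 1 + ‖y‖ ≤ (1 + ‖z‖) * (1 + ‖y - z‖) := by
  have h : ‖y‖ ≤ ‖z‖ + ‖y - z‖ := by
    have := norm_add_le z (y - z)
    simpa using this
  nlinarith [norm_nonneg z, norm_nonneg (y - z), mul_nonneg (norm_nonneg z) (norm_nonneg (y - z))]

lemma norm_emb_tau (N : ℕ) (φ : 𝓢(Sp n, ℂ)) (z : Sp n) :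
    ‖emb n N (tau z φ)‖ ≤ ‖emb n N φ‖ * (1 + ‖z‖) ^ N := by
  apply norm_emb_le (by positivity)
  intro l hl y
  rw [iteratedFDeriv_tau]
  calc (1 + ‖y‖) ^ N * ‖iteratedFDeriv ℝ l φ (y - z)‖
      ≤ ((1 + ‖z‖) * (1 + ‖y - z‖)) ^ N * ‖iteratedFDeriv ℝ l φ (y - z)‖ := by
        gcongr
        exact one_add_le_mul y z
    _ = ((1 + ‖y - z‖) ^ N * ‖iteratedFDeriv ℝ l φ (y - z)‖) * (1 + ‖z‖) ^ N := by
        rw [mul_pow]; ring
    _ ≤ _ := by
        gcongr
        exact le_norm_emb hl φ (y - z)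

lemma norm_emb_tau_sub (N : ℕ) (φ : 𝓢(Sp n, ℂ)) {R : ℝ} {z z' : Sp n} (hz : ‖z‖ ≤ R) (hz' : ‖z'‖ ≤ R) :
    ‖emb n N (tau z φ) - emb n N (tau z' φ)‖ ≤ ‖emb n (N + 1) φ‖ * (1 + R) ^ N * ‖z - z'‖ := by
  have hR : 0 ≤ R := (norm_nonneg z).trans hz
  rw [← map_sub]
  apply norm_emb_le (by positivity)
  intro l hl y
  have h1 : iteratedFDeriv ℝ l (tau z φ - tau z' φ : 𝓢(Sp n, ℂ)) y =
      iteratedFDeriv ℝ l φ (y - z) - iteratedFDeriv ℝ l φ (y - z') := by
    rw [← iteratedFDeriv_tau, ← iteratedFDeriv_tau]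
    have : ((tau z φ - tau z' φ : 𝓢(Sp n, ℂ)) : Sp n → ℂ) = (tau z φ : Sp n → ℂ) - (tau z' φ : Sp n → ℂ) := rfl
    rw [this]
    exact iteratedFDeriv_sub_apply (((tau z φ).smooth ⊤).contDiffAt.of_le (by exact_mod_cast le_top))
      (((tau z' φ).smooth ⊤).contDiffAt.of_le (by exact_mod_cast le_top))
  rw [h1]
  have hy : (0:ℝ) < (1 + ‖y‖) ^ N := by positivity
  have h2 : ‖iteratedFDeriv ℝ l φ (y - z) - iteratedFDeriv ℝ l φ (y - z')‖ ≤
      (‖emb n (N + 1) φ‖ * (1 + R) ^ N / (1 + ‖y‖) ^ N) * ‖(y - z) - (y - z')‖ := by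
    apply Convex.norm_image_sub_le_of_norm_fderiv_le (𝕜 := ℝ) (s := Metric.closedBall y R)
      _ _ (convex_closedBall y R)
    · rw [mem_closedBall_iff_norm]; simpa using hz'
    · rw [mem_closedBall_iff_norm]; simpa using hz
    · intro w _
      exact ((φ.smooth ⊤).differentiable_iteratedFDeriv (by exact_mod_cast WithTop.coe_lt_top _)) w
    · intro w hw
      rw [mem_closedBall_iff_norm] at hw
      rw [norm_fderiv_iteratedFDeriv, le_div_iff₀ hy]
      have h3 := le_norm_emb (N := N + 1) (l := l + 1) (by omega) φ w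
      have hw' : ‖y - w‖ ≤ R := by rwa [norm_sub_rev]
      calc ‖iteratedFDeriv ℝ (l + 1) φ w‖ * (1 + ‖y‖) ^ N
          ≤ ‖iteratedFDeriv ℝ (l + 1) φ w‖ * ((1 + ‖w‖) * (1 + R)) ^ N := by
            gcongr
            refine (one_add_le_mul y w).trans ?_
            gcongr
        _ = ((1 + ‖w‖) ^ N * ‖iteratedFDeriv ℝ (l + 1) φ w‖) * (1 + R) ^ N := by
            rw [mul_pow]; ring
        _ ≤ ((1 + ‖w‖) ^ (N + 1) * ‖iteratedFDeriv ℝ (l + 1) φ w‖) * (1 + R) ^ N := by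
            gcongr
            · have := norm_nonneg w; linarith
            · omega
        _ ≤ _ := by gcongr
  have h4 : ‖(y - z) - (y - z')‖ = ‖z - z'‖ := by
    rw [← norm_neg]; congr 1; abel
  rw [h4] at h2
  calc (1 + ‖y‖) ^ N * ‖iteratedFDeriv ℝ l φ (y - z) - iteratedFDeriv ℝ l φ (y - z')‖
      ≤ (1 + ‖y‖) ^ N * ((‖emb n (N + 1) φ‖ * (1 + R) ^ N / (1 + ‖y‖) ^ N) * ‖z - z'‖) := by gcongr
    _ = _ := by field_simp

lemma continuous_emb_tau (N : ℕ) (φ : 𝓢(Sp n, ℂ)) : Continuous fun z : Sp n => emb n N (tau z φ) := by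
  rw [continuous_iff_continuousAt]
  intro z0
  rw [ContinuousAt, tendsto_iff_norm_sub_tendsto_zero]
  have h1 : Filter.Tendsto (fun z : Sp n => ‖emb n (N + 1) φ‖ * (1 + (‖z0‖ + 1)) ^ N * ‖z - z0‖) (𝓝 z0) (𝓝 0) := by
    have : Continuous fun z : Sp n => ‖emb n (N + 1) φ‖ * (1 + (‖z0‖ + 1)) ^ N * ‖z - z0‖ := by fun_prop
    have h2 := this.tendsto z0
    simpa using h2
  refine squeeze_zero' (Filter.Eventually.of_forall fun z => norm_nonneg _) ?_ h1
  filter_upwards [Metric.ball_mem_nhds z0 one_pos] with z hz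
  rw [mem_ball_iff_norm] at hz
  apply norm_emb_tau_sub
  · have h3 : ‖z‖ ≤ ‖z0‖ + ‖z - z0‖ := by
      have := norm_add_le z0 (z - z0)
      simpa using this
    linarith
  · linarith

/-! ### the interchange formula -/

/-- evaluation of the `l`-th component -/
noncomputable def ev (N : ℕ) (l : Fin (N + 1)) (y : Sp n) : XN n N →L[ℂ] VL n l :=
  (BoundedContinuousFunction.evalCLM ℂ y).comp
    (ContinuousLinearMap.proj (R := ℂ) (φ := fun l : Fin (N + 1) => Sp n →ᵇ VL n l) l)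

lemma ev_apply (N : ℕ) (l : Fin (N + 1)) (y : Sp n) (g : XN n N) : ev N l y g = g l y := rfl

instance (n N : ℕ) : CompleteSpace (XN n N) :=
  inferInstanceAs (CompleteSpace ((l : Fin (N + 1)) → (Sp n →ᵇ VL n l)))

lemma schwartz_bounded (ψ : 𝓢(Sp n, ℂ)) (l : ℕ) : ∃ C, 0 ≤ C ∧ ∀ w, ‖iteratedFDeriv ℝ l ψ w‖ ≤ C := by
  obtain ⟨C, hC0, hC⟩ := schwartz_decay ψ l 0
  exact ⟨C, hC0, fun w => by simpa using hC w⟩

/-- the integrand `y ↦ Q(z) ψ(y - z)` -/
noncomputable def gs (Q ψ : 𝓢(Sp n, ℂ)) (z : Sp n) : 𝓢(Sp n, ℂ) := Q z • tau z ψ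

lemma iteratedFDeriv_gs (Q ψ : 𝓢(Sp n, ℂ)) (z : Sp n) (l : ℕ) (w : Sp n) :
    iteratedFDeriv ℝ l (gs Q ψ z) w = Q z • iteratedFDeriv ℝ l ψ (w - z) := by
  rw [← iteratedFDeriv_tau]
  exact iteratedFDeriv_const_smul_apply (((tau z ψ).smooth ⊤).contDiffAt.of_le (by exact_mod_cast le_top))

lemma continuous_gs (Q ψ : 𝓢(Sp n, ℂ)) (l : ℕ) (w : Sp n) :
    Continuous fun z => iteratedFDeriv ℝ l (gs Q ψ z) w := by
  simp_rw [iteratedFDeriv_gs]
  exact Q.continuous.smul (((ψ.smooth ⊤).continuous_iteratedFDeriv (by exact_mod_cast le_top)).comp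
      (continuous_const.sub continuous_id))

lemma norm_gs_le (Q ψ : 𝓢(Sp n, ℂ)) (l : ℕ) : ∃ C, 0 ≤ C ∧ ∀ z w,
    ‖iteratedFDeriv ℝ l (gs Q ψ z) w‖ ≤ ‖Q z‖ * C := by
  obtain ⟨C, hC0, hC⟩ := schwartz_bounded ψ l
  refine ⟨C, hC0, fun z w => ?_⟩
  rw [iteratedFDeriv_gs, norm_smul]
  gcongr
  exact hC _

lemma integrable_gs (Q ψ : 𝓢(Sp n, ℂ)) (l : ℕ) (w : Sp n) :
    Integrable fun z => iteratedFDeriv ℝ l (gs Q ψ z) w := by
  obtain ⟨C, hC0, hC⟩ := norm_gs_le Q ψ l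
  exact Integrable.mono' (Q.integrable.norm.mul_const C) (continuous_gs Q ψ l w).aestronglyMeasurable
    (Filter.Eventually.of_forall fun z => hC z w)

lemma iteratedFDeriv_conv (Q ψ Ψ : 𝓢(Sp n, ℂ)) (h : ∀ w, Ψ w = ∫ z, Q z * ψ (w - z)) (l : ℕ) :
    iteratedFDeriv ℝ l Ψ = fun w => ∫ z, iteratedFDeriv ℝ l (gs Q ψ z) w := by
  induction l with
  | zero =>
    funext w
    simp_rw [iteratedFDeriv_zero_eq_comp]
    simp only [Function.comp]
    rw [h w]
    exact ((continuousMultilinearCurryFin0 ℝ (Sp n) ℂ).symm.toLinearIsometry.integral_comp_comm _).symm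
  | succ l ih =>
    funext w
    obtain ⟨C, hC0, hC⟩ := norm_gs_le Q ψ (l + 1)
    rw [iteratedFDeriv_succ_eq_comp_left, Function.comp, ih]
    have hfd : HasFDerivAt (fun w => ∫ z, iteratedFDeriv ℝ l (gs Q ψ z) w)
        (∫ z, fderiv ℝ (iteratedFDeriv ℝ l (gs Q ψ z)) w) w := by
      apply hasFDerivAt_integral_of_dominated_of_fderiv_le (𝕜 := ℝ) (s := univ)
        (bound := fun z => ‖Q z‖ * C) (F := fun w z => iteratedFDeriv ℝ l (gs Q ψ z) w)
        (F' := fun w z => fderiv ℝ (iteratedFDeriv ℝ l (gs Q ψ z)) w)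
      · exact Filter.univ_mem
      · exact Filter.Eventually.of_forall fun x => (integrable_gs Q ψ l x).aestronglyMeasurable
      · exact integrable_gs Q ψ l w
      · have : (fun z => fderiv ℝ (iteratedFDeriv ℝ l (gs Q ψ z)) w) = fun z =>
            (continuousMultilinearCurryLeftEquiv ℝ (fun _ : Fin (l + 1) => Sp n) ℂ)
              (iteratedFDeriv ℝ (l + 1) (gs Q ψ z) w) := by
          funext z
          rw [fderiv_iteratedFDeriv]
          rfl
        rw [this]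
        have : SecondCountableTopologyEither (Sp n) (Sp n →L[ℝ] VL n l) :=
          secondCountableTopologyEither_of_left _ _
        exact ((LinearIsometryEquiv.continuous _).comp (continuous_gs Q ψ (l + 1) w)).aestronglyMeasurable
      · refine Filter.Eventually.of_forall fun z x _ => ?_
        rw [norm_fderiv_iteratedFDeriv]
        exact hC _ _
      · exact Q.integrable.norm.mul_const C
      · refine Filter.Eventually.of_forall fun z x _ => ?_
        exact (((gs Q ψ z).smooth ⊤).differentiable_iteratedFDeriv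
          (by exact_mod_cast WithTop.coe_lt_top _) x).hasFDerivAt
    rw [hfd.fderiv]
    simp_rw [iteratedFDeriv_succ_eq_comp_left]
    simp only [Function.comp]
    exact (LinearIsometry.integral_comp_comm (X := Sp n) (μ := volume) (𝕜 := ℝ)
      (E := Sp n →L[ℝ] VL n l) (F := VL n (l + 1))
      (continuousMultilinearCurryLeftEquiv ℝ (fun _ : Fin (l + 1) => Sp n) ℂ).symm.toLinearIsometry _).symm

/-- **Interchange formula** for a tempered distribution and a convolution. -/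
theorem interchange (T : 𝓢'(Sp n, ℂ)) (Q ψ Ψ : 𝓢(Sp n, ℂ)) (h : ∀ w, Ψ w = ∫ z, Q z * ψ (w - z)) :
    T Ψ = ∫ z, Q z * T (tau z ψ) := by
  obtain ⟨N, L, hL⟩ := exists_functional T
  have hc : Continuous fun z => emb n N (gs Q ψ z) := by
    have : (fun z => emb n N (gs Q ψ z)) = fun z => Q z • emb n N (tau z ψ) := by
      funext z; unfold gs; rw [map_smul]
    rw [this]
    exact Q.continuous.smul (continuous_emb_tau N ψ)
  have hi : Integrable fun z => emb n N (gs Q ψ z) := by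
    refine Integrable.mono' ((integrable_schwartz_weight Q N).const_mul ‖emb n N ψ‖)
      hc.aestronglyMeasurable (Filter.Eventually.of_forall fun z => ?_)
    unfold gs
    rw [map_smul, norm_smul]
    calc ‖Q z‖ * ‖emb n N (tau z ψ)‖ ≤ ‖Q z‖ * (‖emb n N ψ‖ * (1 + ‖z‖) ^ N) := by
          gcongr
          exact norm_emb_tau N ψ z
      _ = _ := by ring
  have key : emb n N Ψ = ∫ z, emb n N (gs Q ψ z) := by
    have h1 : ∀ (l : Fin (N + 1)) (y : Sp n), emb n N Ψ l y = ev N l y (∫ z, emb n N (gs Q ψ z)) := by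
      intro l y
      rw [← ContinuousLinearMap.integral_comp_comm (ev N l y) hi, emb_apply, iteratedFDeriv_conv Q ψ Ψ h]
      simp only [ev_apply, emb_apply]
      exact (integral_smul _ _).symm
    funext l
    apply BoundedContinuousFunction.ext
    intro y
    rw [h1]
    rfl
  rw [hL, key, ← ContinuousLinearMap.integral_comp_comm L hi]
  congr 1
  funext z
  rw [← hL]
  unfold gs
  rw [map_smul, smul_eq_mul]


end Pool.Agent.BhcT
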