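import Mathlib
import Pool.Agent.Lib_helper48.BhcTDefs
import Pool.Agent.Lib_helper48.BhcTFunc
import Pool.Agent.Lib_helper48.BhcLowerBesov2

/-!
# Convolution of a tempered distribution with a Schwartz function

Helper file for the hand-in on `MP_9b3711_an`.
-/

open MeasureTheory Set FourierTransform Real
open scoped ENNReal NNReal ContDiff SchwartzMap RealInnerProductSpace Topology

namespace Pool.Agent.BhcT

open Pool.Agent.Bhc hiding lpBlock besovPow heatExt ntMax hardyPow bessel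

variable {n : ℕ}

/-- reflection -/
noncomputable def refl (φ : 𝓢(Sp n, ℂ)) : 𝓢(Sp n, ℂ) :=
  SchwartzMap.compCLMOfContinuousLinearEquiv ℂ (ContinuousLinearEquiv.neg ℝ) φ

lemma refl_apply (φ : 𝓢(Sp n, ℂ)) (y : Sp n) : refl φ y = φ (-y) := rfl

/-- `y ↦ φ (x - y)` -/
noncomputable def rsh (φ : 𝓢(Sp n, ℂ)) (x : Sp n) : 𝓢(Sp n, ℂ) := tau x (refl φ)

lemma rsh_apply (φ : 𝓢(Sp n, ℂ)) (x y : Sp n) : rsh φ x y = φ (x - y) := by
  unfold rsh
  rw [tau_apply, refl_apply, neg_sub]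

lemma sch_coe (φ : 𝓢(Sp n, ℂ)) : sch (φ : Sp n → ℂ) = φ := by
  have h : ∃ ψ : 𝓢(Sp n, ℂ), (ψ : Sp n → ℂ) = φ := ⟨φ, rfl⟩
  exact DFunLike.coe_injective (Classical.epsilon_spec h)

lemma tconv_eq (T : 𝓢'(Sp n, ℂ)) (φ : 𝓢(Sp n, ℂ)) (x : Sp n) : tconv T φ x = T (rsh φ x) := by
  unfold tconv pair
  have : (fun y => φ (x - y)) = (rsh φ x : Sp n → ℂ) := by
    funext y; rw [rsh_apply]
  rw [this, sch_coe]

lemma tconv_growth (T : 𝓢'(Sp n, ℂ)) (φ : 𝓢(Sp n, ℂ)) :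
    ∃ (N : ℕ) (C : ℝ), 0 ≤ C ∧ ∀ x, ‖tconv T φ x‖ ≤ C * (1 + ‖x‖) ^ N := by
  obtain ⟨N, C, hC0, hC⟩ := exists_bound T
  refine ⟨N, C * ‖emb n N (refl φ)‖, by positivity, fun x => ?_⟩
  rw [tconv_eq]
  refine (hC _).trans ?_
  rw [mul_assoc]
  gcongr
  exact norm_emb_tau N (refl φ) x

lemma continuous_tconv (T : 𝓢'(Sp n, ℂ)) (φ : 𝓢(Sp n, ℂ)) : Continuous (tconv T φ) := by
  obtain ⟨N, L, hL⟩ := exists_functional T
  have : tconv T φ = fun x => L (emb n N (tau x (refl φ))) := by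
    funext x; rw [tconv_eq, hL]; rfl
  rw [this]
  exact L.continuous.comp (continuous_emb_tau N (refl φ))

/-- the interchange formula for convolutions -/
lemma tconv_conv (T : 𝓢'(Sp n, ℂ)) {P φ Φ : 𝓢(Sp n, ℂ)} (h : ∀ w, Φ w = ∫ z, P z * φ (w - z)) (x : Sp n) :
    tconv T Φ x = ∫ z, P z * tconv T φ (x - z) := by
  rw [tconv_eq]
  have h1 : ∀ w, rsh Φ x w = ∫ z, refl P z * (rsh φ x) (w - z) := by
    intro w
    rw [rsh_apply, h, ← integral_neg_eq_self]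
    congr 1
    funext z
    rw [rsh_apply, refl_apply]
    congr 2
    abel
  rw [interchange T (refl P) (rsh φ x) (rsh Φ x) h1, ← integral_neg_eq_self]
  congr 1
  funext z
  rw [refl_apply, neg_neg, tconv_eq]
  congr 2
  ext y
  rw [tau_apply, rsh_apply, rsh_apply]
  congr 1
  abel

/-- for a distribution given by a Schwartz function -/
lemma tconv_coe (f φ : 𝓢(Sp n, ℂ)) (x : Sp n) :
    tconv (SchwartzMap.toTemperedDistributionCLM (Sp n) ℂ volume f) φ x = ∫ y, φ (x - y) * f y := by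
  rw [tconv_eq]
  refine (SchwartzMap.toTemperedDistributionCLM_apply_apply volume f (rsh φ x)).trans ?_
  congr 1
  funext y
  rw [rsh_apply, smul_eq_mul]

end Pool.Agent.BhcT
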