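import Mathlib
import Pool.Agent.Lib_helper48.BhcTConv

/-!
# Local uniform approximation of a tempered distribution given by a continuous function

Helper file for the hand-in on `MP_9b3711_an`.
-/

open MeasureTheory Set FourierTransform Real
open scoped ENNReal NNReal ContDiff SchwartzMap RealInnerProductSpace Topology

namespace Pool.Agent.BhcT

open Pool.Agent.Bhc hiding lpBlock besovPow heatExt ntMax hardyPow bessel

variable {n : ℕ}

lemma norm_neg_smul_id_le {c : ℝ} (hc : 0 ≤ c) :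
    ‖(-c) • ContinuousLinearMap.id ℝ (Sp n)‖ ≤ c := by
  rw [norm_smul, Real.norm_eq_abs, abs_neg, abs_of_nonneg hc]
  calc c * ‖ContinuousLinearMap.id ℝ (Sp n)‖ ≤ c * 1 := by
        gcongr
        exact ContinuousLinearMap.norm_id_le
    _ = c := mul_one c

lemma norm_iteratedFDeriv_dil {P Pc : 𝓢(Sp n, ℂ)} {c : ℝ} (hc : 0 ≤ c)
    (h : ∀ y, Pc y = ((c ^ n : ℝ) : ℂ) * P (c • y)) (m : ℕ) (x y : Sp n) :
    ‖iteratedFDeriv ℝ m (rsh Pc x) y‖ ≤ c ^ (n + m) * ‖iteratedFDeriv ℝ m P (c • (x - y))‖ := by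
  set g : Sp n →L[ℝ] Sp n := (-c) • ContinuousLinearMap.id ℝ (Sp n) with hg
  have hP : ContDiff ℝ m P := (P.smooth ⊤).of_le (by exact_mod_cast le_top)
  have e : (rsh Pc x : Sp n → ℂ) = fun w => ((c ^ n : ℝ) : ℂ) • ((P : Sp n → ℂ) ∘ g) (w - x) := by
    funext w
    rw [rsh_apply, h, smul_eq_mul]
    simp only [Function.comp, hg, _root_.smul_apply, ContinuousLinearMap.id_apply]
    congr 2
    rw [neg_smul, ← smul_neg, neg_sub]
  have hcomp : ContDiff ℝ m ((P : Sp n → ℂ) ∘ g) := hP.comp g.contDiff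
  have hcomp2 : ContDiff ℝ m (fun w => ((P : Sp n → ℂ) ∘ g) (w - x)) :=
    hcomp.comp (contDiff_id.sub contDiff_const)
  rw [e, iteratedFDeriv_const_smul_apply' hcomp2.contDiffAt, iteratedFDeriv_comp_sub, norm_smul,
    Complex.norm_real, Real.norm_eq_abs, abs_of_nonneg (by positivity),
    ContinuousLinearMap.iteratedFDeriv_comp_right g hP (y - x) le_rfl, pow_add, mul_assoc]
  have e2 : g (y - x) = c • (x - y) := by
    simp only [hg, _root_.smul_apply, ContinuousLinearMap.id_apply]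
    rw [neg_smul, ← smul_neg, neg_sub]
  apply mul_le_mul_of_nonneg_left _ (by positivity)
  refine (ContinuousMultilinearMap.norm_compContinuousLinearMap_le _ _).trans ?_
  rw [e2, mul_comm (c ^ m)]
  apply mul_le_mul_of_nonneg_left _ (norm_nonneg _)
  rw [Finset.prod_const, Finset.card_univ, Fintype.card_fin]
  exact pow_le_pow_left₀ (norm_nonneg _) (norm_neg_smul_id_le hc) m

lemma integral_kernel (P : 𝓢(Sp n, ℂ)) (v : Sp n → ℂ) {c : ℝ} (hc : 0 < c) (x : Sp n) :
    ∫ y, (((c ^ n : ℝ) : ℂ) * P (c • (x - y))) * v y = ∫ z, P z * v (x - c⁻¹ • z) := by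
  have h3 : ∀ y : Sp n, (((c ^ n : ℝ) : ℂ) * P (c • (x - y))) * v y =
      (fun Y : Sp n => ((c ^ n : ℝ) : ℂ) * (P (-Y) * v (x - c⁻¹ • (-Y)))) (c • y - c • x) := by
    intro y
    simp only
    have e1 : -(c • y - c • x) = c • (x - y) := by rw [smul_sub]; abel
    have e2 : x - c⁻¹ • (c • (x - y)) = y := by
      rw [smul_smul, inv_mul_cancel₀ hc.ne', one_smul]; abel
    rw [e1, e2]
    ring
  rw [integral_congr_ae (Filter.Eventually.of_forall h3), integral_dil
    (fun Y : Sp n => ((c ^ n : ℝ) : ℂ) * (P (-Y) * v (x - c⁻¹ • (-Y)))) hc, integral_const_mul,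
    integral_neg_eq_self (fun Y : Sp n => P Y * v (x - c⁻¹ • Y)), Complex.real_smul, ← mul_assoc,
    ← Complex.ofReal_mul, inv_mul_cancel₀ (by positivity)]
  simp

/-- the part of the kernel away from the diagonal is small -/
lemma far_bound (P : 𝓢(Sp n, ℂ)) (N : ℕ) {R : ℝ} (hR : 0 ≤ R) :
    ∃ M, 0 ≤ M ∧ ∀ m, m ≤ N → ∀ (c : ℝ), 1 ≤ c → ∀ Pc : 𝓢(Sp n, ℂ),
      (∀ y, Pc y = ((c ^ n : ℝ) : ℂ) * P (c • y)) → ∀ x y : Sp n, ‖x‖ ≤ R → 1 ≤ ‖x - y‖ →
      (1 + ‖y‖) ^ N * ‖iteratedFDeriv ℝ m (rsh Pc x) y‖ ≤ M * c⁻¹ := by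
  have hd := fun m => schwartz_decay P m (N + (n + N + 1))
  choose C hC0 hC using hd
  refine ⟨(∑ m ∈ Finset.range (N + 1), C m) * (1 + R) ^ N, mul_nonneg (Finset.sum_nonneg fun m _ => hC0 m)
    (by positivity), ?_⟩
  intro m hm c hc Pc hPc x y hx hxy
  have hc0 : 0 < c := by linarith
  have hCm : C m ≤ ∑ m ∈ Finset.range (N + 1), C m :=
    Finset.single_le_sum (f := C) (fun i _ => hC0 i) (Finset.mem_range.2 (by omega))
  have h1 := norm_iteratedFDeriv_dil hc0.le hPc m x y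
  have h2 := hC m (c • (x - y))
  rw [norm_smul, Real.norm_eq_abs, abs_of_pos hc0] at h2
  have hn0 : 0 ≤ ‖x - y‖ := norm_nonneg _
  have h3 : (1 + ‖x - y‖) ^ N * c ^ (n + N + 1) ≤ (1 + c * ‖x - y‖) ^ (N + (n + N + 1)) := by
    rw [pow_add (1 + c * ‖x - y‖)]
    apply mul_le_mul _ _ (by positivity) (by positivity)
    · apply pow_le_pow_left₀ (by positivity)
      nlinarith
    · apply pow_le_pow_left₀ (by positivity)
      nlinarith
  have h4 : 1 + ‖y‖ ≤ (1 + R) * (1 + ‖x - y‖) := by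
    have := one_add_le_mul y x
    rw [norm_sub_rev] at this
    refine this.trans ?_
    gcongr
  have h5 : (1 + ‖y‖) ^ N ≤ (1 + R) ^ N * (1 + ‖x - y‖) ^ N := by
    rw [← mul_pow]
    exact pow_le_pow_left₀ (by positivity) h4 N
  have h6 : c ^ (n + m) * (c ^ (n + N + 1))⁻¹ ≤ c⁻¹ := by
    rw [← div_eq_mul_inv, div_le_iff₀ (by positivity), ← div_eq_inv_mul, le_div_iff₀ hc0, ← pow_succ]
    exact pow_le_pow_right₀ hc (by omega)
  have hpos1 : 0 < (1 + ‖x - y‖) ^ N := by positivity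
  calc (1 + ‖y‖) ^ N * ‖iteratedFDeriv ℝ m (rsh Pc x) y‖
      ≤ ((1 + R) ^ N * (1 + ‖x - y‖) ^ N) * (c ^ (n + m) * (C m *
          ((1 + c * ‖x - y‖) ^ (N + (n + N + 1)))⁻¹)) := by
        apply mul_le_mul h5 _ (norm_nonneg _) (by positivity)
        refine h1.trans ?_
        gcongr
    _ ≤ ((1 + R) ^ N * (1 + ‖x - y‖) ^ N) * (c ^ (n + m) * (C m *
          ((1 + ‖x - y‖) ^ N * c ^ (n + N + 1))⁻¹)) := by
        have := hC0 m
        gcongr
    _ = (1 + R) ^ N * C m * (c ^ (n + m) * (c ^ (n + N + 1))⁻¹) := by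
        rw [mul_inv]
        field_simp
    _ ≤ (1 + R) ^ N * (∑ m ∈ Finset.range (N + 1), C m) * c⁻¹ := by
        have := hC0 m
        have hS : 0 ≤ ∑ m ∈ Finset.range (N + 1), C m := Finset.sum_nonneg fun m _ => hC0 m
        gcongr
    _ = _ := by ring

/-- **Local uniform approximation.** -/
theorem local_approx (P : 𝓢(Sp n, ℂ)) (hP : ∫ z, P z = 1) {T : 𝓢'(Sp n, ℂ)} {u : Sp n → ℝ}
    (hu : Continuous u) (hT : IsRep T u) {K : Set (Sp n)} (hK : IsCompact K) {δ : ℝ} (hδ : 0 < δ) :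
    ∃ c0 : ℝ, 1 ≤ c0 ∧ ∀ c, c0 ≤ c → ∀ Pc : 𝓢(Sp n, ℂ),
      (∀ y, Pc y = ((c ^ n : ℝ) : ℂ) * P (c • y)) → ∀ x ∈ K, ‖tconv T Pc x - u x‖ < δ := by
  obtain ⟨R0, hR0⟩ := hK.isBounded.subset_closedBall (0 : Sp n)
  set R : ℝ := max R0 0 with hRdef
  have hR : 0 ≤ R := le_max_right _ _
  have hKR : ∀ x ∈ K, ‖x‖ ≤ R := fun x hx => by
    have := hR0 hx
    rw [mem_closedBall_zero_iff] at this
    exact this.trans (le_max_left _ _)
  let χ : ContDiffBump (0 : Sp n) := ⟨R + 1, R + 2, by linarith, by linarith⟩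
  have hχcc : Cc (χ : Sp n → ℝ) := ⟨χ.contDiff, χ.hasCompactSupport⟩
  have hχ1 : ∀ y : Sp n, ‖y‖ ≤ R + 1 → χ y = 1 := fun y hy =>
    χ.one_of_mem_closedBall (by rw [mem_closedBall_zero_iff]; exact hy)
  set χS : 𝓢(Sp n, ℂ) := hχcc.toS with hχS
  have hχSa : ∀ y, χS y = (χ y : ℂ) := fun y => by rw [hχS, Cc.toS_apply]
  have hχt : (fun y => χS y).HasTemperateGrowth := χS.hasTemperateGrowth
  -- near part
  set v : Sp n → ℂ := fun y => (u y : ℂ) * χS y with hv
  have hvc : Continuous v := (Complex.continuous_ofReal.comp hu).mul χS.continuous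
  have hvs : HasCompactSupport v := by
    have : HasCompactSupport (χS : Sp n → ℂ) := by
      have h1 := hχcc.2
      have h2 : (χS : Sp n → ℂ) = fun y => ((χ y : ℝ) : ℂ) := funext hχSa
      rw [h2]
      exact h1.comp_left (g := fun r : ℝ => (r : ℂ)) (by simp)
    exact this.mul_left
  have hvg : PolyGrowth v := by
    obtain ⟨C, hC⟩ := hvs.exists_bound_of_continuous hvc
    exact ⟨0, max C 0, le_max_right _ _, fun y => by simpa using (hC y).trans (le_max_left C 0)⟩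
  obtain ⟨r0, hr0, hr⟩ := approx_uniform P hP hvc hvg hK (half_pos hδ)
  -- far part
  obtain ⟨N, C, hC0, hC⟩ := exists_bound T
  obtain ⟨M, hM0, hM⟩ := far_bound P N hR
  have hXex := fun i => schwartz_bounded χS i
  choose X hX0 hX using hXex
  set Xs : ℝ := ∑ i ∈ Finset.range (N + 1), X i with hXs
  have hXs0 : 0 ≤ Xs := Finset.sum_nonneg fun i _ => hX0 i
  set M2 : ℝ := C * ((1 + 2 ^ N * Xs) * M) with hM2
  have hM20 : 0 ≤ M2 := by positivity
  refine ⟨max 1 (max (2 / r0) ((2 * M2 + 1) / δ * 2)), le_max_left _ _, ?_⟩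
  intro c hc Pc hPc x hx
  have hc1 : 1 ≤ c := (le_max_left _ _).trans hc
  have hc2 : 2 / r0 ≤ c := ((le_max_left _ _).trans (le_max_right _ _)).trans hc
  have hc3 : (2 * M2 + 1) / δ * 2 ≤ c := ((le_max_right _ _).trans (le_max_right _ _)).trans hc
  have hc0 : 0 < c := by linarith
  set φ : 𝓢(Sp n, ℂ) := rsh Pc x with hφ
  set A : 𝓢(Sp n, ℂ) := SchwartzMap.smulLeftCLM ℂ (fun y => χS y) φ with hA
  have hAa : ∀ y, A y = χS y * φ y := fun y => by
    rw [hA, SchwartzMap.smulLeftCLM_apply_apply hχt, smul_eq_mul]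
  have hAcoe : (A : Sp n → ℂ) = fun y => χS y * φ y := funext hAa
  have hAs : HasCompactSupport (A : Sp n → ℂ) := by
    rw [hAcoe]
    have : HasCompactSupport (χS : Sp n → ℂ) := by
      have h1 := hχcc.2
      have h2 : (χS : Sp n → ℂ) = fun y => ((χ y : ℝ) : ℂ) := funext hχSa
      rw [h2]
      exact h1.comp_left (g := fun r : ℝ => (r : ℂ)) (by simp)
    exact this.mul_right
  -- the near part
  have hTA : T A = ∫ z, P z * v (x - c⁻¹ • z) := by
    rw [show T A = pair T A from rfl, hT A hAs, ← integral_kernel P v hc0 x]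
    congr 1
    funext y
    rw [hAa, hφ, rsh_apply, hPc, hv]
    ring
  have hnear : ‖T A - u x‖ < δ / 2 := by
    have h1 := hr c⁻¹ (by
      rw [abs_of_pos (inv_pos.2 hc0)]
      have : 2 / r0 > 1 / r0 := by
        apply div_lt_div_of_pos_right _ hr0
        norm_num
      have h2 : 1 / r0 < c := by linarith
      rw [one_div] at h2
      exact inv_lt_of_inv_lt₀ hr0 h2) x hx
    rw [← hTA] at h1
    have h2 : v x = (u x : ℂ) := by
      rw [hv]
      simp only
      rw [hχSa, hχ1 x (by linarith [hKR x hx])]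
      simp
    rwa [h2] at h1
  -- the far part
  set B : 𝓢(Sp n, ℂ) := φ - A with hB
  have hBa : ∀ y, B y = φ y - χS y * φ y := fun y => by
    rw [hB, _root_.sub_apply, hAa]
  have hsplit : T φ = T A + T B := by
    rw [hB, map_sub]; ring
  have hBb : ‖emb n N B‖ ≤ ((1 + 2 ^ N * Xs) * M) * c⁻¹ := by
    apply norm_emb_le (by positivity)
    intro l hl y
    by_cases hy : ‖y‖ < R + 1
    · have h0 : (B : Sp n → ℂ) =ᶠ[𝓝 y] fun _ => 0 := by
        filter_upwards [Metric.isOpen_ball.mem_nhds (show y ∈ Metric.ball (0 : Sp n) (R + 1) by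
          rw [mem_ball_zero_iff]; exact hy)] with w hw
        rw [mem_ball_zero_iff] at hw
        rw [hBa, hχSa, hχ1 w hw.le]
        simp
      have h1 := (h0.iteratedFDeriv ℝ l).eq_of_nhds
      rw [h1]
      have h2 : iteratedFDeriv ℝ l (fun _ : Sp n => (0:ℂ)) y = 0 := by
        have := iteratedFDeriv_fun_zero (𝕜 := ℝ) (E := Sp n) (F := ℂ) (n := l)
        exact congrFun this y
      rw [h2, norm_zero, mul_zero]
      positivity
    · push Not at hy
      have hxy : 1 ≤ ‖x - y‖ := by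
        have h1 := norm_sub_norm_le y x
        rw [norm_sub_rev] at h1
        have h2 := hKR x hx
        linarith
      have hφm : ∀ m, m ≤ N → (1 + ‖y‖) ^ N * ‖iteratedFDeriv ℝ m φ y‖ ≤ M * c⁻¹ :=
        fun m hm => hM m hm c hc1 Pc hPc x y (hKR x hx) hxy
      have hder : iteratedFDeriv ℝ l B y = iteratedFDeriv ℝ l φ y - iteratedFDeriv ℝ l A y := by
        have e : (B : Sp n → ℂ) = (φ : Sp n → ℂ) - (A : Sp n → ℂ) := rfl
        rw [e]
        exact iteratedFDeriv_sub_apply ((φ.smooth ⊤).contDiffAt.of_le (by exact_mod_cast le_top))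
          ((A.smooth ⊤).contDiffAt.of_le (by exact_mod_cast le_top))
      have hAd : ‖iteratedFDeriv ℝ l A y‖ ≤ ∑ i ∈ Finset.range (l + 1),
          (l.choose i : ℝ) * ‖iteratedFDeriv ℝ i χS y‖ * ‖iteratedFDeriv ℝ (l - i) φ y‖ := by
        rw [hAcoe]
        exact norm_iteratedFDeriv_mul_le (χS.smooth ⊤) (φ.smooth ⊤) y (by exact_mod_cast le_top)
      have hAd2 : (1 + ‖y‖) ^ N * ‖iteratedFDeriv ℝ l A y‖ ≤ 2 ^ N * Xs * (M * c⁻¹) := by
        calc (1 + ‖y‖) ^ N * ‖iteratedFDeriv ℝ l A y‖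
            ≤ (1 + ‖y‖) ^ N * ∑ i ∈ Finset.range (l + 1),
              (l.choose i : ℝ) * ‖iteratedFDeriv ℝ i χS y‖ * ‖iteratedFDeriv ℝ (l - i) φ y‖ := by gcongr
          _ = ∑ i ∈ Finset.range (l + 1), (l.choose i : ℝ) * ‖iteratedFDeriv ℝ i χS y‖ *
                ((1 + ‖y‖) ^ N * ‖iteratedFDeriv ℝ (l - i) φ y‖) := by
              rw [Finset.mul_sum]
              apply Finset.sum_congr rfl
              intro i _
              ring
          _ ≤ ∑ i ∈ Finset.range (l + 1), (l.choose i : ℝ) * Xs * (M * c⁻¹) := by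
              apply Finset.sum_le_sum
              intro i hi
              have hi' := Finset.mem_range.1 hi
              have h1 : ‖iteratedFDeriv ℝ i χS y‖ ≤ Xs := (hX i y).trans
                (Finset.single_le_sum (f := X) (fun i _ => hX0 i) (Finset.mem_range.2 (by omega)))
              have h2 := hφm (l - i) (by omega)
              gcongr
          _ = 2 ^ l * Xs * (M * c⁻¹) := by
              rw [← Finset.sum_mul, ← Finset.sum_mul]
              congr 2
              exact_mod_cast Nat.sum_range_choose l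
          _ ≤ _ := by
              gcongr
              norm_num
      rw [hder]
      calc (1 + ‖y‖) ^ N * ‖iteratedFDeriv ℝ l φ y - iteratedFDeriv ℝ l A y‖
          ≤ (1 + ‖y‖) ^ N * (‖iteratedFDeriv ℝ l φ y‖ + ‖iteratedFDeriv ℝ l A y‖) := by
            gcongr
            exact norm_sub_le _ _
        _ = (1 + ‖y‖) ^ N * ‖iteratedFDeriv ℝ l φ y‖ + (1 + ‖y‖) ^ N * ‖iteratedFDeriv ℝ l A y‖ := by ring
        _ ≤ M * c⁻¹ + 2 ^ N * Xs * (M * c⁻¹) := add_le_add (hφm l hl) hAd2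
        _ = _ := by ring
  have hfar : ‖T B‖ < δ / 2 := by
    have h1 : ‖T B‖ ≤ M2 * c⁻¹ := by
      refine (hC B).trans ?_
      rw [hM2, mul_assoc]
      gcongr
    refine lt_of_le_of_lt h1 ?_
    rw [← div_eq_mul_inv, div_lt_iff₀ hc0]
    have h2 : (2 * M2 + 1) / δ * 2 * (δ / 2) ≤ c * (δ / 2) := by gcongr
    have h3 : (2 * M2 + 1) / δ * 2 * (δ / 2) = 2 * M2 + 1 := by field_simp
    rw [h3] at h2
    linarith
  rw [tconv_eq, ← hφ, hsplit]
  calc ‖T A + T B - u x‖ = ‖(T A - u x) + T B‖ := by congr 1; ring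
    _ ≤ ‖T A - u x‖ + ‖T B‖ := norm_add_le _ _
    _ < δ / 2 + δ / 2 := add_lt_add hnear hfar
    _ = δ := by ring

end Pool.Agent.BhcT
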