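import Mathlib
import Pool.Agent.Lib_helper48.BhcTApprox

/-!
# Lower bound for the Besov capacity, tempered distributions

Helper file for the hand-in on `MP_9b3711_an`.
-/

open MeasureTheory Set FourierTransform Real
open scoped ENNReal NNReal ContDiff SchwartzMap RealInnerProductSpace Topology

namespace Pool.Agent.BhcT

open Pool.Agent.Bhc hiding lpBlock besovPow heatExt ntMax hardyPow bessel

variable {n : ℕ}

/-- kernel of the Littlewood–Paley block -/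
noncomputable def PK {η : Sp n → ℝ} (h : IsCutoff η) (j : ℕ) : 𝓢(Sp n, ℂ) := 𝓕⁻ (h.cc_lpSym j).toS

lemma PK_coe {η : Sp n → ℝ} (h : IsCutoff η) (j : ℕ) :
    (PK h j : Sp n → ℂ) = 𝓕⁻ fun ξ => (lpSym η j ξ : ℂ) := by
  unfold PK
  rw [SchwartzMap.fourierInv_coe]
  rfl

lemma lpBlock_eq {η : Sp n → ℝ} (h : IsCutoff η) (j : ℕ) (T : 𝓢'(Sp n, ℂ)) :
    lpBlock η j T = tconv T (PK h j) := by
  unfold lpBlock
  rw [PK_coe]

/-- the dilated kernel `c^n Ψ(c y)`, `Ψ = 𝓕⁻¹ η` -/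
noncomputable def scP {η : Sp n → ℝ} (h : IsCutoff η) {c : ℝ} (hc : 0 < c) : 𝓢(Sp n, ℂ) :=
  𝓕⁻ (h.cc.dil (inv_pos.2 hc).ne' 0).toS

lemma scP_apply {η : Sp n → ℝ} (h : IsCutoff η) {c : ℝ} (hc : 0 < c) (y : Sp n) :
    scP h hc y = ((c ^ n : ℝ) : ℂ) * (𝓕⁻ h.cc.toS : 𝓢(Sp n, ℂ)) (c • y) := by
  unfold scP
  rw [SchwartzMap.fourierInv_coe, SchwartzMap.fourierInv_coe]
  have e : ((h.cc.dil (inv_pos.2 hc).ne' 0).toS : Sp n → ℂ) = fun ξ => (fun ξ : Sp n => (η ξ : ℂ)) (c⁻¹ • ξ) := by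
    funext ξ
    rw [Cc.toS_apply]
    simp [dil]
  rw [e, fourierInv_scale (fun ξ : Sp n => (η ξ : ℂ)) hc y]
  rfl

lemma PK_repro {η : Sp n → ℝ} (h : IsCutoff η) (j : ℕ) {c : ℝ} (hc : 0 < c) (hcj : c = 2 ^ (j + 1))
    (w : Sp n) : PK h j w = ∫ z, scP h hc z * PK h j (w - z) := by
  have h1 := mult_scaled' η h.cc (PK h j).integrable hc w
  have h2 : ∀ ξ, 𝓕 (PK h j : Sp n → ℂ) ξ = (lpSym η j ξ : ℂ) := by
    intro ξ
    rw [← SchwartzMap.fourier_coe]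
    unfold PK
    rw [FourierTransform.fourier_fourierInv_eq, Cc.toS_apply]
  have h3 : (fun ξ => (η (c⁻¹ • ξ) : ℂ) * 𝓕 (PK h j : Sp n → ℂ) ξ) = fun ξ => (lpSym η j ξ : ℂ) := by
    funext ξ
    rw [h2, ← Complex.ofReal_mul, hcj, lpSym_support h]
  rw [h3, ← PK_coe h j] at h1
  rw [h1, ← integral_const_mul, ← integral_sub_left_eq_self _ volume w]
  congr 1
  funext z
  rw [scP_apply, sub_sub_cancel, mul_assoc]

lemma block_repro {η : Sp n → ℝ} (h : IsCutoff η) (T : 𝓢'(Sp n, ℂ)) (j : ℕ) (x : Sp n) :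
    tconv T (PK h j) x = ((((2:ℝ) ^ (j + 1)) ^ n : ℝ) : ℂ) *
      ∫ z, (𝓕⁻ h.cc.toS : 𝓢(Sp n, ℂ)) ((2:ℝ) ^ (j + 1) • (x - z)) * tconv T (PK h j) z := by
  have hc : (0:ℝ) < 2 ^ (j + 1) := by positivity
  rw [tconv_conv T (PK_repro h j hc rfl) x, ← integral_const_mul,
    ← integral_sub_left_eq_self _ volume x]
  congr 1
  funext z
  rw [scP_apply, sub_sub_cancel, mul_assoc]

lemma sum_block {η : Sp n → ℝ} (h : IsCutoff η) (T : 𝓢'(Sp n, ℂ)) (J : ℕ) (x : Sp n) :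
    ∑ j ∈ Finset.range (J + 1), tconv T (PK h j) x =
      tconv T (scP h (show (0:ℝ) < 2 ^ J by positivity)) x := by
  simp_rw [tconv_eq]
  rw [← map_sum]
  congr 1
  have h1 : scP h (show (0:ℝ) < 2 ^ J by positivity) = ∑ j ∈ Finset.range (J + 1), PK h j := by
    unfold scP PK
    have e : (h.cc.dil (inv_pos.2 (show (0:ℝ) < 2 ^ J by positivity)).ne' 0).toS =
        ∑ j ∈ Finset.range (J + 1), (h.cc_lpSym j).toS := by
      ext ξ
      rw [Cc.toS_apply, _root_.sum_apply]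
      simp_rw [Cc.toS_apply]
      rw [← Complex.ofReal_sum, sum_lpSym]
      simp [dil]
    rw [e]
    exact map_sum (FourierTransform.fourierInvCLM ℂ 𝓢(Sp n, ℂ)) _ _
  rw [h1]
  ext y
  rw [_root_.sum_apply, rsh_apply, _root_.sum_apply]
  simp_rw [rsh_apply]

/-- band-limited functions of polynomial growth in `L^p` are bounded -/
lemma weighted_lt_top (Ψ : 𝓢(Sp n, ℂ)) {p : ℝ} (hp0 : 0 < p) (hp1 : p ≤ 1) {c : ℝ} (hc : 0 < c)
    {g : Sp n → ℂ} (hg : Continuous g) {N : ℕ} {C : ℝ} (hC : 0 ≤ C) (hgr : ∀ x, ‖g x‖ ≤ C * (1 + ‖x‖) ^ N)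
    (hrep : ∀ y, g y = ((c ^ n : ℝ) : ℂ) * ∫ z, Ψ (c • (y - z)) * g z)
    (hint : ∫⁻ z, ‖g z‖ₑ ^ p < ⊤) (L : ℕ) (x : Sp n) : (⨆ y, ‖g y‖ₑ * wt c L x y) < ⊤ := by
  obtain ⟨C1, hC10, hC1⟩ := planch_polya Ψ hp0 hp1 N
  have h1 : ∀ x, (⨆ y, ‖g y‖ₑ * wt c N x y) < ⊤ := by
    intro x
    refine lt_of_le_of_lt (iSup_le fun y => ?_)
      (ENNReal.ofReal_lt_top (r := C * ((1 + ‖x‖) * (1 + c⁻¹)) ^ N))
    unfold wt
    rw [← ofReal_norm, ← ENNReal.ofReal_mul (norm_nonneg _)]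
    apply ENNReal.ofReal_le_ofReal
    rw [← div_eq_mul_inv, div_le_iff₀ (by positivity)]
    refine (hgr y).trans ?_
    rw [mul_assoc, ← mul_pow]
    apply mul_le_mul_of_nonneg_left _ hC
    apply pow_le_pow_left₀ (by positivity)
    have h2 := one_add_le_mul y x
    rw [norm_sub_rev] at h2
    refine h2.trans ?_
    rw [mul_assoc]
    apply mul_le_mul_of_nonneg_left _ (by positivity)
    have hci : 0 < c⁻¹ := inv_pos.2 hc
    have h3 : c⁻¹ * (c * ‖x - y‖) = ‖x - y‖ := by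
      rw [← mul_assoc, inv_mul_cancel₀ hc.ne', one_mul]
    have h4 : 0 ≤ c * ‖x - y‖ := by positivity
    nlinarith
  set B : ℝ≥0∞ := ENNReal.ofReal C1 * (ENNReal.ofReal (c ^ n) * ∫⁻ z, ‖g z‖ₑ ^ p) with hB
  have hBt : B < ⊤ := ENNReal.mul_lt_top ENNReal.ofReal_lt_top
    (ENNReal.mul_lt_top ENNReal.ofReal_lt_top hint)
  have h2 : ∀ x, ‖g x‖ₑ ^ p ≤ B := by
    intro x
    have h3 := hC1 c hc g hg h1 hrep x
    have h4 : ‖g x‖ₑ ≤ ⨆ y, ‖g y‖ₑ * wt c N x y := by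
      refine le_trans ?_ (le_iSup (fun y => ‖g y‖ₑ * wt c N x y) x)
      simp [wt]
    calc ‖g x‖ₑ ^ p ≤ (⨆ y, ‖g y‖ₑ * wt c N x y) ^ p := ENNReal.rpow_le_rpow h4 hp0.le
      _ ≤ _ := h3
      _ ≤ B := by
        rw [hB]
        gcongr with z
        calc ‖g z‖ₑ ^ p * wt c N x z ^ p ≤ ‖g z‖ₑ ^ p * 1 ^ p := by
              gcongr
              unfold wt
              rw [← ENNReal.ofReal_one]
              apply ENNReal.ofReal_le_ofReal
              apply inv_le_one_of_one_le₀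
              apply one_le_pow₀
              have : 0 ≤ c * ‖x - z‖ := by positivity
              linarith
          _ = ‖g z‖ₑ ^ p := by simp
  have h5 : ∀ y, ‖g y‖ₑ ≤ B ^ p⁻¹ := by
    intro y
    rw [ENNReal.le_rpow_inv_iff hp0]
    exact h2 y
  refine lt_of_le_of_lt (iSup_le fun y => ?_)
    (ENNReal.rpow_lt_top_of_nonneg (y := p⁻¹) (by positivity) hBt.ne)
  calc ‖g y‖ₑ * wt c L x y ≤ B ^ p⁻¹ * 1 := by
        gcongr
        · exact h5 y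
        · unfold wt
          rw [← ENNReal.ofReal_one]
          apply ENNReal.ofReal_le_ofReal
          apply inv_le_one_of_one_le₀
          apply one_le_pow₀
          have : 0 ≤ c * ‖x - y‖ := by positivity
          linarith
    _ = _ := mul_one _

/-- **Lower bound for the Besov capacity.** -/
theorem besov_lower_T {η : Sp n → ℝ} (h : IsCutoff η) {p α : ℝ} (hp0 : 0 < p) (hp1 : p ≤ 1)
    (hα : 0 < α) :
    ∃ C : ℝ, 0 ≤ C ∧ ∀ (T : 𝓢'(Sp n, ℂ)) (u : Sp n → ℝ), Continuous u → IsRep T u →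
      ∀ K : Set (Sp n), IsCompact K → (∀ x ∈ K, 1 ≤ u x) → besovPow η α p T < ⊤ →
      ∃ i', ∀ k, cont K (n - α * p) i' 0 k ≤ C * (besovPow η α p T).toReal := by
  obtain ⟨L, C, hC0, hC⟩ := besov_lower_abs (𝓕⁻ h.cc.toS) hp0 hp1 hα
  refine ⟨C, hC0, fun T u hu hT K hK huK hfin => ?_⟩
  obtain ⟨c0, hc01, hc0⟩ := local_approx (𝓕⁻ h.cc.toS) (integral_fourierInv_cutoff h) hu hT hK
    (show (0:ℝ) < 1/2 by norm_num)
  obtain ⟨J, hJ⟩ := pow_unbounded_of_one_lt c0 (show (1:ℝ) < 2 by norm_num)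
  refine ⟨J, ?_⟩
  have hpow : besovPow η α p T =
      ∑' j : ℕ, ENNReal.ofReal ((2:ℝ) ^ (j * α * p)) * ∫⁻ x, ‖tconv T (PK h j) x‖ₑ ^ p := by
    unfold besovPow
    simp_rw [lpBlock_eq h]
  rw [hpow] at hfin ⊢
  have hfin1 : ∀ j, ∫⁻ x, ‖tconv T (PK h j) x‖ₑ ^ p < ⊤ := by
    intro j
    have h1 : ENNReal.ofReal ((2:ℝ) ^ (j * α * p)) * ∫⁻ x, ‖tconv T (PK h j) x‖ₑ ^ p < ⊤ :=
      lt_of_le_of_lt (ENNReal.le_tsum j) hfin
    by_contra hcon
    rw [not_lt, top_le_iff] at hcon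
    rw [hcon, ENNReal.mul_top] at h1
    · exact absurd h1 (lt_irrefl _)
    · rw [ENNReal.ofReal_ne_zero_iff]; positivity
  apply hC (fun j => tconv T (PK h j)) (fun j => continuous_tconv T _) _ _ hfin K J
  · intro x hx
    have h1 := hc0 (2 ^ J) hJ.le (scP h (show (0:ℝ) < 2 ^ J by positivity))
      (fun y => scP_apply h _ y) x hx
    rw [← sum_block h T J x] at h1
    have h2 := huK x hx
    have h3 : (1:ℝ) ≤ ‖(u x : ℂ)‖ := by
      rw [Complex.norm_real, Real.norm_eq_abs]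
      exact h2.trans (le_abs_self _)
    have h4 : ‖(u x : ℂ)‖ ≤ ‖∑ j ∈ Finset.range (J + 1), tconv T (PK h j) x‖ +
        ‖∑ j ∈ Finset.range (J + 1), tconv T (PK h j) x - u x‖ := by
      have := norm_sub_le (∑ j ∈ Finset.range (J + 1), tconv T (PK h j) x)
        (∑ j ∈ Finset.range (J + 1), tconv T (PK h j) x - u x)
      simpa using this
    linarith
  · intro j x
    obtain ⟨N, B, hB0, hB⟩ := tconv_growth T (PK h j)
    exact weighted_lt_top (𝓕⁻ h.cc.toS) hp0 hp1 (by positivity) (continuous_tconv T _) hB0 hB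
      (block_repro h T j) (hfin1 j) L x
  · intro j y
    exact block_repro h T j y

end Pool.Agent.BhcT
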