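import Mathlib
import Pool.Agent.Lib_helper48.BhcTApprox

/-!
# Lower bound for the Hardy–Bessel capacity, tempered distributions

Helper file for the hand-in on `MP_9b3711_an`.
-/

open MeasureTheory Set FourierTransform Real
open scoped ENNReal NNReal ContDiff SchwartzMap RealInnerProductSpace Topology

namespace Pool.Agent.BhcT

open Pool.Agent.Bhc hiding lpBlock besovPow heatExt ntMax hardyPow bessel

variable {n : ℕ}

/-- the heat kernel as a Schwartz function -/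
noncomputable def hS (n : ℕ) {t : ℝ} (ht : 0 < t) : 𝓢(Sp n, ℂ) :=
  (((4 * π * t : ℝ) ^ (-(n:ℝ) / 2)) • gaussR n (1/(4 * t)) (by positivity)).postcompCLM Complex.ofRealCLM

lemma hS_apply {t : ℝ} (ht : 0 < t) (x : Sp n) : hS n ht x = (heatK t x : ℂ) := by
  unfold hS
  rw [SchwartzMap.postcompCLM_apply]
  show ((((4 * π * t : ℝ) ^ (-(n:ℝ) / 2)) * Real.exp (-(1/(4 * t)) * ‖x‖ ^ 2) : ℝ) : ℂ) = _
  unfold heatK
  congr 3
  ring

lemma hS_coe {t : ℝ} (ht : 0 < t) : (hS n ht : Sp n → ℂ) = fun y => (heatK t y : ℂ) :=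
  funext fun x => hS_apply ht x

lemma heatExt_eqT (f : 𝓢'(Sp n, ℂ)) {t : ℝ} (ht : 0 < t) : heatExt f t = tconv f (hS n ht) := by
  unfold heatExt
  rw [hS_coe]

lemma continuous_gsym (t : ℝ) : Continuous (gsym (n := n) t) := by unfold gsym; fun_prop

lemma fourier_hS {t : ℝ} (ht : 0 < t) : 𝓕 (hS n ht : Sp n → ℂ) = gsym t := by
  have h1 : (hS n ht : Sp n → ℂ) = 𝓕⁻ (gsym (n := n) t) := by
    funext x; rw [hS_apply, fourierInv_gsym ht]
  have h2 : Integrable (𝓕 (gsym (n := n) t)) := by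
    have h3 : Integrable (𝓕⁻ (gsym (n := n) t)) := by rw [← h1]; exact (hS n ht).integrable
    have h4 : 𝓕 (gsym (n := n) t) = fun x => 𝓕⁻ (gsym (n := n) t) (-x) := by
      funext x; rw [Real.fourierInv_eq_fourier_neg, neg_neg]
    rw [h4]
    exact h3.comp_neg
  rw [h1]
  exact (continuous_gsym t).fourier_fourierInv_eq (integrable_gsym ht) h2

lemma gsym_add (s t : ℝ) (ξ : Sp n) : gsym (s + t) ξ = gsym t ξ * gsym s ξ := by
  rw [gsym_eq, gsym_eq, gsym_eq, ← Complex.ofReal_mul, ← Real.exp_add]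
  congr 2
  ring

/-- semigroup property of the heat kernel -/
lemma hS_conv {s t : ℝ} (hs : 0 < s) (ht : 0 < t) (hst : 0 < s + t) (w : Sp n) :
    hS n hst w = ∫ z, hS n hs z * hS n ht (w - z) := by
  have h1 := Bhc.heatExt_eq (hS n hs).integrable ht w
  rw [fourier_hS] at h1
  have h2 : (fun ξ : Sp n => gsym t ξ * gsym s ξ) = gsym (s + t) := by
    funext ξ; rw [gsym_add]
  rw [h2, fourierInv_gsym hst, ← hS_apply hst] at h1
  rw [← h1]
  unfold Bhc.heatExt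
  congr 1
  funext z
  rw [hS_apply ht, mul_comm]

/-- the same with a Bessel potential -/
lemma JS_hS_conv (γ : ℝ) {s t : ℝ} (hs : 0 < s) (ht : 0 < t) (hst : 0 < s + t) (w : Sp n) :
    JS n γ (hS n hst) w = ∫ z, JS n γ (hS n hs) z * hS n ht (w - z) := by
  have h1 := Bhc.heatExt_eq (JS n γ (hS n hs)).integrable ht w
  have h2 : (fun ξ : Sp n => gsym t ξ * 𝓕 (JS n γ (hS n hs) : Sp n → ℂ) ξ) =
      fun ξ => (((asym ξ) ^ γ : ℝ) : ℂ) * 𝓕 (hS n hst : Sp n → ℂ) ξ := by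
    funext ξ; rw [fourier_JS, fourier_hS, fourier_hS, gsym_add]; ring
  rw [h2, ← JS_eq] at h1
  rw [← h1]
  unfold Bhc.heatExt
  congr 1
  funext z
  rw [hS_apply ht, mul_comm]

lemma JS_hS {β : ℝ} (hβ : 0 < β) {s : ℝ} (hs : 0 < s) (z : Sp n) :
    JS n (-(β / 2)) (hS n hs) z = ((Real.Gamma (β / 2))⁻¹ : ℝ) •
      ∫ τ in Ioi (0:ℝ), ((τ ^ (β / 2 - 1) * Real.exp (-τ) : ℝ) : ℂ) * (heatK (s + τ) z : ℂ) := by
  have h1 := bessel_fubini (integrable_gsym (n := n) hs) hβ le_rfl z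
  have h2 : (fun ξ : Sp n => gsym 0 ξ * (((asym ξ) ^ (-(β / 2)) : ℝ) : ℂ) * gsym s ξ) =
      fun ξ => (((asym ξ) ^ (-(β / 2)) : ℝ) : ℂ) * 𝓕 (hS n hs : Sp n → ℂ) ξ := by
    funext ξ
    rw [fourier_hS]
    have : gsym 0 ξ = 1 := by rw [gsym_eq]; simp
    rw [this, one_mul]
  rw [h2, ← JS_eq] at h1
  rw [h1]
  congr 1
  apply setIntegral_congr_fun measurableSet_Ioi
  intro τ hτ
  have hτ0 : (0:ℝ) < τ := hτ
  simp only
  have h3 : (fun ξ : Sp n => gsym (0 + τ) ξ * gsym s ξ) = gsym (s + τ) := by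
    funext ξ; rw [zero_add, gsym_add]
  rw [h3, fourierInv_gsym (by linarith)]

lemma integral_heatK {t : ℝ} (ht : 0 < t) : ∫ z : Sp n, heatK t z = 1 := by
  have h1 : ∀ z : Sp n, heatK t z = (4 * π * t : ℝ) ^ (-(n:ℝ) / 2) * Real.exp (-(1/(4 * t)) * ‖z‖ ^ 2) := by
    intro z
    unfold heatK
    congr 2
    ring
  simp_rw [h1]
  rw [integral_const_mul, GaussianFourier.integral_rexp_neg_mul_sq_norm (by positivity),
    finrank_euclideanSpace_fin]
  have h2 : (π / (1/(4 * t)) : ℝ) = 4 * π * t := by field_simp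
  rw [h2, ← Real.rpow_add (by positivity)]
  have : -(n:ℝ) / 2 + n / 2 = 0 := by ring
  rw [this, Real.rpow_zero]

lemma heatK_nonneg {t : ℝ} (ht : 0 < t) (z : Sp n) : 0 ≤ heatK t z := by
  unfold heatK; positivity

/-! ### the Bessel potential of a tempered distribution -/

lemma fourier_rsh (φ : 𝓢(Sp n, ℂ)) (x ξ : Sp n) :
    𝓕 (rsh φ x : Sp n → ℂ) ξ = 𝐞 (-⟪x, ξ⟫) • 𝓕 (φ : Sp n → ℂ) (-ξ) := by
  rw [Real.fourier_eq, Real.fourier_eq, ← integral_sub_left_eq_self _ volume x, Circle.smul_def, smul_eq_mul,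
    ← integral_const_mul]
  congr 1
  funext v
  rw [rsh_apply, sub_sub_cancel]
  have h1 : (𝐞 (-⟪x - v, ξ⟫) : Circle) = 𝐞 (-⟪x, ξ⟫) * 𝐞 (-⟪v, -ξ⟫) := by
    rw [← AddChar.map_add_eq_mul, inner_sub_left, inner_neg_right]
    congr 1
    ring
  rw [h1]
  simp only [Circle.smul_def, Circle.coe_mul, smul_eq_mul]
  ring

lemma asym_neg (ξ : Sp n) : asym (-ξ) = asym ξ := by unfold asym; rw [norm_neg]

lemma JS_rsh (γ : ℝ) (φ : 𝓢(Sp n, ℂ)) (x : Sp n) : JS n γ (rsh φ x) = rsh (JS n γ φ) x := by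
  ext y
  rw [rsh_apply, JS_eq, JS_eq, Real.fourierInv_eq, Real.fourierInv_eq, ← integral_neg_eq_self]
  congr 1
  funext ξ
  rw [fourier_rsh, neg_neg, asym_neg]
  have h1 : (𝐞 ⟪ξ, x - y⟫ : Circle) = 𝐞 ⟪-ξ, y⟫ * 𝐞 (-⟪x, -ξ⟫) := by
    rw [← AddChar.map_add_eq_mul, inner_sub_right, inner_neg_left, inner_neg_right, real_inner_comm ξ x]
    congr 1
    ring
  rw [h1]
  simp only [Circle.smul_def, Circle.coe_mul, smul_eq_mul]
  ring

/-- the Bessel potential `G_α * f` of a tempered distribution -/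
noncomputable def bessel (α : ℝ) (f : 𝓢'(Sp n, ℂ)) : 𝓢'(Sp n, ℂ) :=
  TemperedDistribution.fourierMultiplierCLM ℂ (fun ξ => (((asym ξ) ^ (-(α / 2)) : ℝ) : ℂ)) f

lemma bessel_apply (α : ℝ) (f : 𝓢'(Sp n, ℂ)) (φ : 𝓢(Sp n, ℂ)) :
    bessel α f φ = f (JS n (-(α / 2)) φ) := by
  unfold bessel
  rw [TemperedDistribution.fourierMultiplierCLM_apply_apply]
  congr 1
  ext x
  rw [SchwartzMap.fourier_coe, JS_eq, Real.fourierInv_eq_fourier_comp_neg]
  refine congrFun (congrArg 𝓕 ?_) x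
  funext ξ
  rw [SchwartzMap.smulLeftCLM_apply_apply (asym_temperateC _), smul_eq_mul, asym_neg,
    SchwartzMap.fourierInv_coe, Real.fourierInv_eq_fourier_neg]

lemma isPot_iff (α : ℝ) (f : 𝓢'(Sp n, ℂ)) (u : Sp n → ℝ) : IsPot α f u ↔ IsRep (bessel α f) u := by
  have key : ∀ φ : 𝓢(Sp n, ℂ), pair f (sch (Bhc.bessel α φ)) = pair (bessel α f) φ := by
    intro φ
    unfold pair
    rw [bessel_eq, sch_coe, bessel_apply]
  unfold IsPot IsRep
  simp_rw [key]

lemma tconv_bessel (α : ℝ) (f : 𝓢'(Sp n, ℂ)) (φ : 𝓢(Sp n, ℂ)) (x : Sp n) :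
    tconv (bessel α f) φ x = tconv f (JS n (-(α / 2)) φ) x := by
  rw [tconv_eq, tconv_eq, bessel_apply, JS_rsh]

/-! ### boundedness of heat extensions -/

lemma le_ntMax (f : 𝓢'(Sp n, ℂ)) {x y : Sp n} {t : ℝ} (ht : 0 < t) (h : ‖y - x‖ < Real.sqrt t) :
    ‖heatExt f t y‖ₑ ≤ ntMax f x :=
  le_iSup_of_le t (le_iSup_of_le ht (le_iSup_of_le y (le_iSup_of_le h le_rfl)))

lemma heat_bounded {p : ℝ} (hp0 : 0 < p) {f : 𝓢'(Sp n, ℂ)} (hf : hardyPow p f < ⊤) {t : ℝ} (ht : 0 < t) :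
    ∃ B : ℝ, 0 ≤ B ∧ ∀ x, ‖heatExt f t x‖ ≤ B := by
  have hst : 0 < Real.sqrt t := Real.sqrt_pos.2 ht
  set V : ℝ≥0∞ := volume (Metric.ball (0 : Sp n) (Real.sqrt t)) with hV
  have hV0 : V ≠ 0 := (Metric.measure_ball_pos volume _ hst).ne'
  have hVt : V ≠ ⊤ := measure_ball_lt_top.ne
  have h1 : ∀ x, ‖heatExt f t x‖ₑ ^ p ≤ hardyPow p f / V := by
    intro x
    rw [ENNReal.le_div_iff_mul_le (Or.inl hV0) (Or.inl hVt)]
    have h2 : V = volume (Metric.ball x (Real.sqrt t)) := by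
      rw [hV]; exact (Measure.addHaar_ball_center volume x _).symm
    rw [h2, ← setLIntegral_const]
    calc ∫⁻ _ in Metric.ball x (Real.sqrt t), ‖heatExt f t x‖ₑ ^ p
        ≤ ∫⁻ y in Metric.ball x (Real.sqrt t), ntMax f y ^ p := by
          apply setLIntegral_mono' measurableSet_ball
          intro y hy
          apply ENNReal.rpow_le_rpow _ hp0.le
          apply le_ntMax f ht
          rw [mem_ball_iff_norm] at hy
          rwa [norm_sub_rev]
      _ ≤ hardyPow p f := setLIntegral_le_lintegral _ _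
  have hfin : (hardyPow p f / V) ^ p⁻¹ ≠ ⊤ :=
    ENNReal.rpow_ne_top_of_nonneg (inv_nonneg.2 hp0.le) (ENNReal.div_ne_top hf.ne hV0)
  refine ⟨((hardyPow p f / V) ^ p⁻¹).toReal, ENNReal.toReal_nonneg, fun x => ?_⟩
  have h3 : ‖heatExt f t x‖ₑ ≤ (hardyPow p f / V) ^ p⁻¹ := by
    rw [ENNReal.le_rpow_inv_iff hp0]
    exact h1 x
  have h4 := ENNReal.toReal_mono hfin h3
  rwa [toReal_enorm] at h4

/-! ### the representation of the heat extension of a Bessel potential -/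

lemma integrable_heatK {t : ℝ} (ht : 0 < t) : Integrable fun z : Sp n => heatK t z := by
  have h : Integrable (fun z => RCLike.re (hS n ht z)) volume := (hS n ht).integrable.re
  refine h.congr (Filter.Eventually.of_forall fun z => ?_)
  simp only
  rw [hS_apply]
  simp

lemma heat_bessel_fubini {α : ℝ} (hα : 0 < α) {F : Sp n → ℂ} (hF : Continuous F) {B : ℝ}
    (hFB : ∀ x, ‖F x‖ ≤ B) {δ : ℝ} (hδ : 0 < δ) (x : Sp n) :
    ∫ z, JS n (-(α / 2)) (hS n hδ) z * F (x - z) = ((Real.Gamma (α / 2))⁻¹ : ℝ) •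
      ∫ τ in Ioi (0:ℝ), ((τ ^ (α / 2 - 1) * Real.exp (-τ) : ℝ) : ℂ) *
        ∫ z, (heatK (δ + τ) z : ℂ) * F (x - z) := by
  have hα2 : 0 < α / 2 := by linarith
  have hB : 0 ≤ B := (norm_nonneg _).trans (hFB x)
  have hFx : Continuous fun z : Sp n => F (x - z) := hF.comp (continuous_const.sub continuous_id)
  set w : ℝ → ℝ := fun τ => τ ^ (α / 2 - 1) * Real.exp (-τ) with hw
  have hwi : IntegrableOn w (Ioi 0) := by
    have := Real.GammaIntegral_convergent hα2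
    refine this.congr_fun (fun τ _ => ?_) measurableSet_Ioi
    rw [hw]; ring
  set G : Sp n → ℝ → ℂ := fun z τ => ((w τ : ℝ) : ℂ) * ((heatK (δ + τ) z : ℂ) * F (x - z)) with hG
  have hmeas : AEStronglyMeasurable (Function.uncurry G) (volume.prod (volume.restrict (Ioi (0:ℝ)))) := by
    apply Measurable.aestronglyMeasurable
    have h1 : Measurable fun q : Sp n × ℝ => ((w q.2 : ℝ) : ℂ) := by
      rw [hw]; fun_prop
    have h2 : Measurable fun q : Sp n × ℝ => (heatK (δ + q.2) q.1 : ℂ) := by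
      unfold heatK; fun_prop
    have h3 : Measurable fun q : Sp n × ℝ => F (x - q.1) := (hFx.comp continuous_fst).measurable
    exact h1.mul (h2.mul h3)
  have hGi : ∀ τ ∈ Ioi (0:ℝ), Integrable fun z => G z τ := by
    intro τ hτ
    have hτ0 : (0:ℝ) < τ := hτ
    have h1 : Integrable fun z : Sp n => (heatK (δ + τ) z : ℂ) * F (x - z) := by
      have := (integrable_heatK (n := n) (show 0 < δ + τ by linarith)).ofReal (𝕜 := ℂ)
      exact this.mul_bdd (c := B) hFx.aestronglyMeasurable (Filter.Eventually.of_forall fun z => hFB _)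
    exact h1.const_mul _
  have hGn : ∀ τ ∈ Ioi (0:ℝ), ∫ z, ‖G z τ‖ ≤ w τ * B := by
    intro τ hτ
    have hτ0 : (0:ℝ) < τ := hτ
    have hw0 : 0 ≤ w τ := by rw [hw]; positivity
    have h1 : ∀ z, ‖G z τ‖ ≤ (w τ * B) * heatK (δ + τ) z := by
      intro z
      have h2 := heatK_nonneg (show 0 < δ + τ by linarith) z
      rw [hG]
      simp only
      rw [norm_mul, norm_mul, Complex.norm_real, Complex.norm_real, Real.norm_eq_abs, Real.norm_eq_abs,
        abs_of_nonneg hw0, abs_of_nonneg h2]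
      calc w τ * (heatK (δ + τ) z * ‖F (x - z)‖) ≤ w τ * (heatK (δ + τ) z * B) := by
            gcongr
            exact hFB _
        _ = _ := by ring
    calc ∫ z, ‖G z τ‖ ≤ ∫ z, (w τ * B) * heatK (δ + τ) z :=
          integral_mono (hGi τ hτ).norm ((integrable_heatK (by linarith)).const_mul _) h1
      _ = w τ * B := by
          rw [integral_const_mul, integral_heatK (by linarith), mul_one]
  have hint : Integrable (Function.uncurry G) (volume.prod (volume.restrict (Ioi (0:ℝ)))) := by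
    rw [integrable_prod_iff' hmeas]
    constructor
    · rw [ae_restrict_iff' measurableSet_Ioi]
      exact Filter.Eventually.of_forall hGi
    · refine Integrable.mono' (hwi.mul_const B) ?_ ?_
      · exact hmeas.norm.prod_swap.integral_prod_right'
      · rw [ae_restrict_iff' measurableSet_Ioi]
        refine Filter.Eventually.of_forall fun τ hτ => ?_
        rw [Real.norm_eq_abs, abs_of_nonneg (integral_nonneg fun z => norm_nonneg _)]
        exact hGn τ hτ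
  have hswap := integral_integral_swap hint
  have hL : ∀ z, ∫ τ in Ioi (0:ℝ), G z τ =
      (∫ τ in Ioi (0:ℝ), ((w τ : ℝ) : ℂ) * (heatK (δ + τ) z : ℂ)) * F (x - z) := by
    intro z
    rw [← integral_mul_const]
    congr 1
    funext τ
    rw [hG]
    ring
  have hR : ∀ τ, ∫ z, G z τ = ((w τ : ℝ) : ℂ) * ∫ z, (heatK (δ + τ) z : ℂ) * F (x - z) := by
    intro τ
    rw [← integral_const_mul]
  simp_rw [hL, hR] at hswap
  rw [← hswap, ← integral_smul]
  congr 1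
  funext z
  rw [JS_hS hα hδ z, smul_mul_assoc]

/-- the heat extension of the Bessel potential of `f` -/
lemma heat_bessel {α : ℝ} (hα : 0 < α) {p : ℝ} (hp0 : 0 < p) {f : 𝓢'(Sp n, ℂ)} (hf : hardyPow p f < ⊤)
    {ε : ℝ} (hε : 0 < ε) (x : Sp n) :
    tconv (bessel α f) (hS n hε) x = ((Real.Gamma (α / 2))⁻¹ : ℝ) •
      ∫ τ in Ioi (0:ℝ), ((τ ^ (α / 2 - 1) * Real.exp (-τ) : ℝ) : ℂ) * heatExt f (ε + τ) x := by
  have hδ : 0 < ε / 2 := by linarith
  have hsum : 0 < ε / 2 + ε / 2 := by linarith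
  have e1 : hS n hε = hS n hsum := by
    ext y
    rw [hS_apply, hS_apply, add_halves]
  obtain ⟨B, hB0, hB⟩ := heat_bounded hp0 hf hδ
  rw [heatExt_eqT f hδ] at hB
  rw [tconv_bessel, e1, tconv_conv f (JS_hS_conv (-(α / 2)) hδ hδ hsum) x,
    heat_bessel_fubini hα (continuous_tconv f _) hB hδ x]
  congr 1
  apply setIntegral_congr_fun measurableSet_Ioi
  intro τ hτ
  have hτ0 : (0:ℝ) < τ := hτ
  simp only
  congr 1
  have h1 : 0 < ε / 2 + τ := by linarith
  have h2 : 0 < (ε / 2 + τ) + ε / 2 := by linarith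
  have h3 := tconv_conv f (hS_conv (n := n) h1 hδ h2) x
  have h4 : ∀ z, hS n h1 z = (heatK (ε / 2 + τ) z : ℂ) := fun z => hS_apply h1 z
  simp_rw [h4] at h3
  rw [← h3, ← heatExt_eqT f h2]
  congr 1
  ring

/-- **Lower bound for the Hardy–Bessel capacity.** -/
theorem hardy_lower_T {p α : ℝ} (hp0 : 0 < p) (hp1 : p ≤ 1) (hα : 0 < α) (n : ℕ) :
    ∃ C : ℝ, 0 ≤ C ∧ ∀ (f : 𝓢'(Sp n, ℂ)) (u : Sp n → ℝ), Continuous u → IsRep (bessel α f) u →
      ∀ K : Set (Sp n), IsCompact K → (∀ x ∈ K, 1 ≤ u x) → hardyPow p f < ⊤ →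
      ∃ i', ∀ k, cont K (n - α * p) i' 0 k ≤ C * (hardyPow p f).toReal := by
  obtain ⟨C, hC0, hC⟩ := hardy_lower_abs hp0 hp1 hα n
  refine ⟨C, hC0, fun f u hu hT K hK huK hfin => ?_⟩
  obtain ⟨c0, hc01, hc0⟩ := local_approx (heatS n) integral_heatS hu hT hK (show (0:ℝ) < 1/2 by norm_num)
  obtain ⟨i0, hi0⟩ := pow_unbounded_of_one_lt c0 (show (1:ℝ) < 2 by norm_num)
  set i : ℕ := i0 + 1 with hi
  have h4 : (0:ℝ) < ((4:ℝ) ^ i)⁻¹ := by positivity
  have hci : c0 ≤ 2 ^ i := hi0.le.trans (pow_le_pow_right₀ (by norm_num) (by omega))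
  have hsq : (Real.sqrt (((4:ℝ) ^ i)⁻¹))⁻¹ = 2 ^ i := by
    rw [show ((4:ℝ) ^ i)⁻¹ = (((2:ℝ) ^ i)⁻¹) ^ 2 by
      rw [inv_pow, ← pow_mul, mul_comm i 2, pow_mul]; norm_num, Real.sqrt_sq (by positivity), inv_inv]
  apply hC (heatExt f) (ntMax f) (fun t ht y x' h => le_ntMax f ht h) hfin K i (by omega)
  intro x hx
  have h1 : 1/2 ≤ ‖tconv (bessel α f) (hS n h4) x‖ := by
    have h2 := hc0 (2 ^ i) hci (hS n h4) (by
      intro y
      rw [hS_apply, heatK_scale h4, heatS_apply, hsq]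
      push_cast
      ring) x hx
    have h3 : (1:ℝ) ≤ ‖(u x : ℂ)‖ := by
      rw [Complex.norm_real, Real.norm_eq_abs]
      exact (huK x hx).trans (le_abs_self _)
    have h5 : ‖(u x : ℂ)‖ ≤ ‖tconv (bessel α f) (hS n h4) x‖ +
        ‖tconv (bessel α f) (hS n h4) x - u x‖ := by
      have := norm_sub_le (tconv (bessel α f) (hS n h4) x) (tconv (bessel α f) (hS n h4) x - u x)
      simpa using this
    linarith
  have hΓ : 0 < Real.Gamma (α / 2) := Real.Gamma_pos_of_pos (by linarith)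
  rw [heat_bessel hα hp0 hfin h4, norm_smul, Real.norm_eq_abs, abs_of_pos (inv_pos.2 hΓ)] at h1
  refine (ENNReal.ofReal_le_ofReal h1).trans ?_
  rw [ENNReal.ofReal_mul (inv_nonneg.2 hΓ.le)]
  apply mul_le_mul_right
  rw [ofReal_norm]
  refine (enorm_integral_le_lintegral_enorm _).trans ?_
  apply setLIntegral_mono' measurableSet_Ioi
  intro τ hτ
  have hτ0 : (0:ℝ) < τ := hτ
  rw [enorm_mul, ← ofReal_norm, Complex.norm_real, Real.norm_eq_abs, abs_of_nonneg (by positivity)]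

end Pool.Agent.BhcT
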