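import Mathlib
import Pool.Agent.Lib_helper48.BhcGeomA

/-!
# The abstract upper bound: null sets carry functions of small cost

Helper file for the hand-in on `MP_9b3711_an`.
-/

open MeasureTheory Set
open scoped ENNReal NNReal ContDiff

namespace Pool.Agent.Bhc

variable {n : ℕ}

lemma finite_cells {K : Set (Sp n)} (hK : Bornology.IsBounded K) (j : ℕ) : (cell j '' K).Finite := by
  obtain ⟨R, hR⟩ := hK.subset_closedBall 0
  apply Set.Finite.subset (Fintype.piFinset (fun _ : Fin n => Finset.Icc ⌊(2:ℝ) ^ j * (-R)⌋ ⌊(2:ℝ) ^ j * R⌋)).finite_toSet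
  rintro k ⟨x, hx, rfl⟩
  rw [Finset.mem_coe, Fintype.mem_piFinset]
  intro i
  rw [Finset.mem_Icc]
  have h1 : ‖x‖ ≤ R := by
    have := hR hx
    rwa [mem_closedBall_zero_iff] at this
  have h2 : |x i| ≤ R := by
    have := PiLp.norm_apply_le x i
    rw [Real.norm_eq_abs] at this
    exact this.trans h1
  rw [abs_le] at h2
  constructor
  · apply Int.floor_le_floor
    exact mul_le_mul_of_nonneg_left h2.1 (by positivity)
  · apply Int.floor_le_floor
    exact mul_le_mul_of_nonneg_left h2.2 (by positivity)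

/-- summing over the top cubes -/
lemma small_of_good {p s ρ C : ℝ} {c : (Sp n → ℝ) → ℝ≥0∞} (hc : IsCost n p c) {K : Set (Sp n)}
    (hK : Bornology.IsBounded K) (hnull : DyNull K s) (hC0 : 0 ≤ C)
    (h : ∀ i k, cont K s i 0 k ≤ 1/2 → Good K (cube 0 k) ρ c (C * cont K s i 0 k))
    {ε : ℝ} (hε : 0 < ε) :
    ∃ u, Cc u ∧ (∀ x ∈ K, 1 ≤ u x) ∧ (∀ x, u x ≠ 0 → ∃ y ∈ K, ‖x - y‖ ≤ ρ) ∧
      c u ≤ ENNReal.ofReal ε := by
  classical
  obtain ⟨T, hT⟩ := (finite_cells hK 0).exists_finset_coe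
  set ε' : ℝ := min (1/2) (ε / ((C + 1) * (T.card + 1))) with hε'
  have hε'0 : 0 < ε' := lt_min (by norm_num) (by positivity)
  have key : ∀ k : Fin n → ℤ, Good K (cube 0 k) ρ c (C * ε') := by
    intro k
    obtain ⟨i, hi⟩ := hnull k ε' hε'0
    refine (h i k (hi.le.trans (min_le_left _ _))).mono ?_
    exact mul_le_mul_of_nonneg_left hi.le hC0
  choose u h1 h2 h3 h4 h5 using key
  refine ⟨∑ k ∈ T, u k, Cc.sum fun k _ => h1 k, ?_, ?_, ?_⟩
  · intro x hx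
    have hxT : cell 0 x ∈ T := by
      have : cell 0 x ∈ (T : Set (Fin n → ℤ)) := by rw [hT]; exact ⟨x, hx, rfl⟩
      exact_mod_cast this
    rw [Finset.sum_apply]
    exact (h3 _ x ⟨hx, self_mem_cube 0 x⟩).trans
      (Finset.single_le_sum (f := fun k => u k x) (fun k _ => h2 k x hx) hxT)
  · intro x hx
    rw [Finset.sum_apply] at hx
    obtain ⟨k, _, hk⟩ := Finset.exists_ne_zero_of_sum_ne_zero hx
    exact h4 k x hk
  · refine (hc.sum _ _ fun k _ => h1 k).trans ?_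
    refine (Finset.sum_le_sum fun k _ => h5 k).trans ?_
    rw [Finset.sum_const, nsmul_eq_mul, ← ENNReal.ofReal_natCast, ← ENNReal.ofReal_mul (by positivity)]
    apply ENNReal.ofReal_le_ofReal
    have h6 : ε' ≤ ε / ((C + 1) * (T.card + 1)) := min_le_right _ _
    rw [le_div_iff₀ (by positivity)] at h6
    have h7 : (T.card : ℝ) * (C * ε') ≤ ε' * ((C + 1) * (T.card + 1)) := by
      have : (0:ℝ) ≤ T.card := Nat.cast_nonneg _
      nlinarith [mul_nonneg hC0 hε'0.le, mul_nonneg this hε'0.le]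
    linarith

theorem upper_finite {p s : ℝ} (hn : 0 < n) (hp0 : 0 < p) (hp1 : p < 1) (hsn : s < n)
    {K : Set (Sp n)} (hK : IsCompact K) (hnull : DyNull K s) :
    ∃ ρ : ℝ, ∀ c : (Sp n → ℝ) → ℝ≥0∞, IsCost n p c → (∀ w, Cc w → c w < ⊤) →
      (∃ d, AtomB s c d) → ∀ ε > (0:ℝ),
      ∃ u, Cc u ∧ (∀ x ∈ K, 1 ≤ u x) ∧ (∀ x, u x ≠ 0 → ∃ y ∈ K, ‖x - y‖ ≤ ρ) ∧
        c u ≤ ENNReal.ofReal ε := by
  rcases lt_or_ge (n * p) s with h | h
  · obtain ⟨d, hd⟩ := exists_nat_gt (s / p)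
    have hd' : s < (n + d) * p := by
      rw [div_lt_iff₀ hp0] at hd
      have : (0:ℝ) ≤ n := Nat.cast_nonneg n
      nlinarith
    obtain ⟨ρ, hρ⟩ := geomA (p := p) h K hK.isClosed (volume_null hsn.le hnull) d
    refine ⟨ρ, fun c hc hfin ⟨d0, hA⟩ ε hε => ?_⟩
    obtain ⟨C, hC0, hC⟩ := hρ c hc (atomB_of_large hc hp0 hfin hd' hA)
    exact small_of_good hc hK.isBounded hnull hC0 (fun i k _ => hC i 0 k) hε
  · refine ⟨2 * n + 3, fun c hc hfin ⟨d0, hA⟩ ε hε => ?_⟩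
    have hd' : s < (n + (1:ℕ)) * p := by push_cast; linarith
    obtain ⟨C, hC0, hC⟩ := geomB hn hp0 hp1 hsn hc (atomB_of_large hc hp0 hfin hd' hA) K
    exact small_of_good hc hK.isBounded hnull hC0
      (fun i k hl => hC i 0 k (by rw [sd_zero]; simpa using hl)) hε

lemma difs_eq_zero (v : Sp n) (M : ℕ) {u : Sp n → ℝ} : ∀ {x : Sp n},
    (∀ i : ℕ, u (x - (i:ℝ) • v) = 0) → difs v M u x = 0 := by
  induction M with
  | zero => intro x h; simpa [difs] using h 0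
  | succ M ih =>
    intro x h
    simp only [difs, dif]
    rw [ih h, ih, sub_zero]
    intro i
    have := h (i + 1)
    rw [← this]
    congr 1
    push_cast
    rw [add_smul, one_smul]
    abel

lemma difs_eq_self (v : Sp n) (M : ℕ) {u : Sp n → ℝ} {x : Sp n}
    (h : ∀ i : ℕ, 1 ≤ i → u (x - (i:ℝ) • v) = 0) : difs v M u x = u x := by
  induction M with
  | zero => rfl
  | succ M ih =>
    simp only [difs, dif]
    rw [ih, difs_eq_zero v M, sub_zero]
    intro i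
    have := h (i + 1) (by omega)
    rw [← this]
    congr 1
    push_cast
    rw [add_smul, one_smul]
    abel

/-- **Abstract upper bound.** -/
theorem upper {p s : ℝ} (hp0 : 0 < p) (hp1 : p < 1) (hsn : s < n)
    {K : Set (Sp n)} (hK : IsCompact K) (hnull : DyNull K s) {c : (Sp n → ℝ) → ℝ≥0∞}
    (hc : IsCost n p c) {d : ℕ} (hA : AtomB s c d) {ε : ℝ} (hε : 0 < ε) :
    ∃ u, Cc u ∧ (∀ x ∈ K, 1 ≤ u x) ∧ c u ≤ ENNReal.ofReal ε := by
  rcases Nat.eq_zero_or_pos n with hn | hn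
  · -- dimension zero: `s < 0`, so `K` is empty
    have hs0 : s ≤ 0 := by
      have : (n:ℝ) = 0 := by exact_mod_cast hn
      linarith
    have : K = ∅ := (dyNull_nonpos_iff hs0).1 hnull
    subst this
    refine ⟨0, Cc.zero, by simp, ?_⟩
    rw [hc.zero]; exact zero_le
  obtain ⟨ρ, hρ⟩ := upper_finite hn hp0 hp1 hsn hK hnull
  obtain ⟨R, hR⟩ := hK.isBounded.subset_closedBall 0
  have : Nonempty (Fin n) := ⟨⟨0, hn⟩⟩
  obtain ⟨v, hv⟩ := NormedSpace.exists_lt_norm ℝ (Sp n) (2 * R + ρ)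
  obtain ⟨u, hu1, hu2, hu3, hu4⟩ := hρ (cdif v d c) (hc.cdif v d) (fun w hw => cdif_finite hA v hw)
    ⟨d, cdif_atomB hc hA v d⟩ ε hε
  refine ⟨difs v d u, hu1.difs v d, ?_, hu4⟩
  intro x hx
  have hxR : ‖x‖ ≤ R := by
    have := hR hx
    rwa [mem_closedBall_zero_iff] at this
  rw [difs_eq_self v d (u := u) (x := x)]
  · exact hu2 x hx
  · intro i hi
    by_contra hcon
    obtain ⟨y, hy, hxy⟩ := hu3 _ hcon
    have hyR : ‖y‖ ≤ R := by
      have := hR hy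
      rwa [mem_closedBall_zero_iff] at this
    have h1 : (i:ℝ) • v = x - y - (x - (i:ℝ) • v - y) := by abel
    have h2 : ‖(i:ℝ) • v‖ ≤ ‖x‖ + ‖y‖ + ρ := by
      rw [h1]
      calc ‖x - y - (x - (i:ℝ) • v - y)‖ ≤ ‖x - y‖ + ‖x - (i:ℝ) • v - y‖ := norm_sub_le _ _
        _ ≤ (‖x‖ + ‖y‖) + ρ := add_le_add (norm_sub_le _ _) hxy
    rw [norm_smul, Real.norm_eq_abs, abs_of_nonneg (Nat.cast_nonneg i)] at h2
    have h3 : (1:ℝ) ≤ i := by exact_mod_cast hi
    have h4 : ‖v‖ ≤ (i:ℝ) * ‖v‖ := le_mul_of_one_le_left (norm_nonneg _) h3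
    linarith

end Pool.Agent.Bhc
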