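import Mathlib
import Pool.Agent.Lib_helper48.BhcUpper
import Pool.Agent.Lib_helper48.BhcTLowerB
import Pool.Agent.Lib_helper48.BhcTLowerH

/-!
# Null sets of the two capacities

Helper file for the hand-in on `MP_9b3711_an`.
-/

open MeasureTheory Set FourierTransform Real
open scoped ENNReal NNReal ContDiff SchwartzMap

namespace Pool.Agent.BhcT

open Pool.Agent.Bhc hiding lpBlock besovPow heatExt ntMax hardyPow bessel

variable {n : ℕ}

lemma dyNull_of_small {K : Set (Sp n)} {s : ℝ} (C : ℝ) (hC : 0 ≤ C)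
    (h : ∀ ε > (0:ℝ), ∃ i', ∀ k, cont K s i' 0 k ≤ C * ε) : DyNull K s := by
  intro k ε hε
  obtain ⟨i, hi⟩ := h (ε / (2 * (C + 1))) (by positivity)
  refine ⟨i, lt_of_le_of_lt (hi k) ?_⟩
  have : C * (ε / (2 * (C + 1))) = ε * (C / (2 * (C + 1))) := by ring
  rw [this]
  have h2 : C / (2 * (C + 1)) < 1 := by
    rw [div_lt_one (by positivity)]
    linarith
  nlinarith

/-- the tempered distribution given by a Schwartz function -/
noncomputable abbrev td (f : 𝓢(Sp n, ℂ)) : 𝓢'(Sp n, ℂ) :=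
  SchwartzMap.toTemperedDistributionCLM (Sp n) ℂ volume f

lemma td_apply (f φ : 𝓢(Sp n, ℂ)) : td f φ = ∫ x, f x * φ x := by
  refine (SchwartzMap.toTemperedDistributionCLM_apply_apply volume f φ).trans ?_
  congr 1
  funext x
  rw [smul_eq_mul, mul_comm]

lemma isRep_td {u : Sp n → ℝ} (hu : Cc u) : IsRep (td hu.toS) u := by
  intro φ _
  unfold pair
  rw [td_apply]
  rfl

lemma besovPow_td {η : Sp n → ℝ} (h : IsCutoff η) (α p : ℝ) (f : 𝓢(Sp n, ℂ)) :
    besovPow η α p (td f) = Bhc.besovPow η α p (f : Sp n → ℂ) := by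
  have key : ∀ j, lpBlock η j (td f) = Bhc.lpBlock η j (f : Sp n → ℂ) := by
    intro j
    funext x
    rw [lpBlock_eq h, tconv_coe]
    unfold Bhc.lpBlock
    have e := mult_eq_conv (h.cc_lpSym j).integrable_cx (f.integrable (μ := volume)) x
    refine Eq.trans ?_ e.symm
    rw [PK_coe]
    rfl
  unfold besovPow Bhc.besovPow
  simp_rw [key]

lemma heatExt_td (f : 𝓢(Sp n, ℂ)) {t : ℝ} (ht : 0 < t) (x : Sp n) :
    heatExt (td f) t x = Bhc.heatExt (f : Sp n → ℂ) t x := by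
  rw [heatExt_eqT _ ht, tconv_coe]
  unfold Bhc.heatExt
  congr 1
  funext y
  rw [hS_apply]

lemma hardyPow_td (p : ℝ) (f : 𝓢(Sp n, ℂ)) : hardyPow p (td f) = Bhc.hardyPow p (f : Sp n → ℂ) := by
  unfold hardyPow Bhc.hardyPow
  congr 1
  funext x
  congr 1
  unfold ntMax Bhc.ntMax
  congr 1
  funext t
  congr 1
  funext ht
  simp_rw [heatExt_td f ht]

lemma JS_inv (γ : ℝ) (f : 𝓢(Sp n, ℂ)) : JS n (-γ) (JS n γ f) = f := by
  ext x
  rw [JS_eq]
  have e : (fun ξ : Sp n => (((asym ξ) ^ (-γ) : ℝ) : ℂ) * 𝓕 (JS n γ f : Sp n → ℂ) ξ) =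
      ((𝓕 f : 𝓢(Sp n, ℂ)) : Sp n → ℂ) := by
    funext ξ
    rw [fourier_JS, ← mul_assoc, ← Complex.ofReal_mul, ← Real.rpow_add (asym_pos ξ)]
    simp [SchwartzMap.fourier_coe]
  rw [e, ← SchwartzMap.fourierInv_coe, FourierTransform.fourierInv_fourier_eq]

lemma bessel_td (α : ℝ) (f : 𝓢(Sp n, ℂ)) : bessel α (td f) = td (JS n (-(α / 2)) f) := by
  unfold bessel
  exact TemperedDistribution.fourierMultiplierCLM_toTemperedDistributionCLM_eq
    (asym_temperateC (-(α / 2))) f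

theorem capA_null_iff {η : Sp n → ℝ} (hη : IsCutoff η) {p α : ℝ} (hp0 : 0 < p) (hp1 : p < 1)
    (hα : 0 < α) {D : Set (Sp n → ℝ)} (hD1 : ∀ u, ContDiff ℝ ∞ u → HasCompactSupport u → u ∈ D)
    (hD2 : ∀ u ∈ D, Continuous u) {K : Set (Sp n)} (hK : IsCompact K) :
    capA D η α p K = 0 ↔ DyNull K (n - α * p) := by
  constructor
  · intro h
    obtain ⟨C, hC0, hC⟩ := besov_lower_T hη hp0 hp1.le hα
    apply dyNull_of_small C hC0
    intro ε hε
    have h1 : capA D η α p K < ENNReal.ofReal ε := by rw [h]; exact ENNReal.ofReal_pos.2 hε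
    unfold capA at h1
    simp only [iInf_lt_iff] at h1
    obtain ⟨u, hu, hu1, T, hT, hlt⟩ := h1
    obtain ⟨i', hi'⟩ := hC T u (hD2 u hu) hT K hK hu1 (hlt.trans ENNReal.ofReal_lt_top)
    refine ⟨i', fun k => (hi' k).trans ?_⟩
    apply mul_le_mul_of_nonneg_left _ hC0
    exact ENNReal.toReal_le_of_le_ofReal hε.le hlt.le
  · intro h
    obtain ⟨d, hd⟩ := atomB_costA hη hp0 hα
    have hαp : 0 < α * p := by positivity
    apply le_antisymm _ zero_le
    apply ENNReal.le_of_forall_pos_le_add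
    intro ε hε _
    rw [zero_add]
    obtain ⟨u, hu, hu1, hle⟩ := upper hp0 hp1 (by linarith) hK h (isCost_costA hη α hp0 hp1.le) hd
      (show (0:ℝ) < ε by exact_mod_cast hε)
    rw [ENNReal.ofReal_coe_nnreal] at hle
    refine le_trans ?_ hle
    refine iInf_le_of_le u (iInf_le_of_le (hD1 u hu.1 hu.2) (iInf_le_of_le hu1
      (iInf_le_of_le (td hu.toS) (iInf_le_of_le (isRep_td hu) ?_))))
    rw [besovPow_td hη]
    exact le_rfl

theorem capB_null_iff {p α : ℝ} (hp0 : 0 < p) (hp1 : p < 1)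
    (hα : 0 < α) {D : Set (Sp n → ℝ)} (hD1 : ∀ u, ContDiff ℝ ∞ u → HasCompactSupport u → u ∈ D)
    (hD2 : ∀ u ∈ D, Continuous u) {K : Set (Sp n)} (hK : IsCompact K) :
    capB D α p K = 0 ↔ DyNull K (n - α * p) := by
  constructor
  · intro h
    obtain ⟨C, hC0, hC⟩ := hardy_lower_T hp0 hp1.le hα n
    apply dyNull_of_small C hC0
    intro ε hε
    have h1 : capB D α p K < ENNReal.ofReal ε := by rw [h]; exact ENNReal.ofReal_pos.2 hε
    unfold capB at h1
    simp only [iInf_lt_iff] at h1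
    obtain ⟨u, hu, hu1, f, hf, hlt⟩ := h1
    obtain ⟨i', hi'⟩ := hC f u (hD2 u hu) ((isPot_iff α f u).1 hf) K hK hu1
      (hlt.trans ENNReal.ofReal_lt_top)
    refine ⟨i', fun k => (hi' k).trans ?_⟩
    apply mul_le_mul_of_nonneg_left _ hC0
    exact ENNReal.toReal_le_of_le_ofReal hε.le hlt.le
  · intro h
    obtain ⟨d, hd⟩ := atomB_costH (n := n) hp0 hα
    have hαp : 0 < α * p := by positivity
    apply le_antisymm _ zero_le
    apply ENNReal.le_of_forall_pos_le_add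
    intro ε hε _
    rw [zero_add]
    obtain ⟨u, hu, hu1, hle⟩ := upper hp0 hp1 (by linarith) hK h (isCost_costH α hp0 hp1.le) hd
      (show (0:ℝ) < ε by exact_mod_cast hε)
    rw [ENNReal.ofReal_coe_nnreal] at hle
    refine le_trans ?_ hle
    refine iInf_le_of_le u (iInf_le_of_le (hD1 u hu.1 hu.2) (iInf_le_of_le hu1
      (iInf_le_of_le (td (JS n (α / 2) hu.toS)) (iInf_le_of_le ?_ ?_))))
    · rw [isPot_iff, bessel_td, JS_inv]
      exact isRep_td hu
    · rw [hardyPow_td, ← jinv_eq _ hu]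
      exact le_rfl

end Pool.Agent.BhcT
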