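import Mathlib
import Pool.Agent.Lib_helper48.BhCapDefs
import Pool.Agent.Lib_helper48.BhcTMain

/-!
# Bridge between the definitions of the statement and those of the library

Helper file for the hand-in on `MP_9b3711_an`.
-/

open MeasureTheory FourierTransform
open scoped ENNReal SchwartzMap ContDiff

namespace Pool.Agent.BhCap

open Pool.Agent.Bhc (Sp)

variable {n : ℕ}

lemma isCutoff_iff (η : Sp n → ℝ) : IsCutoff η ↔ Bhc.IsCutoff η :=
  ⟨fun h => ⟨h.smooth, h.one, h.zero⟩, fun h => ⟨h.smooth, h.one, h.zero⟩⟩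

lemma lpSym_eq (η : Sp n → ℝ) (j : ℕ) : lpSym η j = Bhc.lpSym η j := by
  funext ξ
  cases j with
  | zero => simp [lpSym, Bhc.lpSym]
  | succ j => simp [lpSym, Bhc.lpSym]

lemma heatK_eq (t : ℝ) (x : Sp n) : heatK t x = Bhc.heatK t x := by
  unfold heatK Bhc.heatK
  rw [finrank_euclideanSpace_fin]

lemma besovPow_eq (η : Sp n → ℝ) (α p : ℝ) (T : 𝓢'(Sp n, ℂ)) :
    besovPow η α p T = BhcT.besovPow η α p T := by
  unfold besovPow BhcT.besovPow lpBlock BhcT.lpBlock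
  simp_rw [lpSym_eq]
  rfl

lemma hardyPow_eq (p : ℝ) (f : 𝓢'(Sp n, ℂ)) : hardyPow p f = BhcT.hardyPow p f := by
  unfold hardyPow BhcT.hardyPow ntMax BhcT.ntMax BhcT.heatExt
  simp_rw [heatK_eq]
  rfl

theorem capA_eq (D : Set (Sp n → ℝ)) (η : Sp n → ℝ) (α p : ℝ) (K : Set (Sp n)) :
    capA D η α p K = BhcT.capA D η α p K := by
  unfold capA BhcT.capA
  simp_rw [besovPow_eq]
  rfl

theorem capB_eq (D : Set (Sp n → ℝ)) (α p : ℝ) (K : Set (Sp n)) :
    capB D α p K = BhcT.capB D α p K := by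
  unfold capB BhcT.capB
  simp_rw [hardyPow_eq]
  rfl

/-- both capacities have the same null sets -/
theorem main (n : ℕ) (p α : ℝ) (hp0 : 0 < p) (hp1 : p < 1) (hα : 0 < α)
    (η : EuclideanSpace ℝ (Fin n) → ℝ) (hη : IsCutoff η) (D D' : Set (EuclideanSpace ℝ (Fin n) → ℝ))
    (hD : ∀ u : EuclideanSpace ℝ (Fin n) → ℝ, ContDiff ℝ ∞ u → HasCompactSupport u → u ∈ D)
    (hDc : ∀ u ∈ D, Continuous u)
    (hD' : ∀ u : EuclideanSpace ℝ (Fin n) → ℝ, ContDiff ℝ ∞ u → HasCompactSupport u → u ∈ D')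
    (hDc' : ∀ u ∈ D', Continuous u)
    (K : Set (EuclideanSpace ℝ (Fin n))) (hK : IsCompact K) :
    capA D η α p K = 0 ↔ capB D' α p K = 0 := by
  rw [capA_eq, capB_eq]
  exact (BhcT.capA_null_iff ((isCutoff_iff η).1 hη) hp0 hp1 hα hD hDc hK).trans
    (BhcT.capB_null_iff hp0 hp1 hα hD' hDc' hK).symm

end Pool.Agent.BhCap
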