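import Pool.Agent.Lib_helper45.Bil.Final

/-!
# Billiards in polygons: upper bounds for the complexity give lower bounds

If `F n ≤ exp (A (log n)^p)` for all `n ≥ 2` (`p ≥ 1`) then `c n² exp (c (log n)^(1/p)) ≤ F n`.
-/

open Finset Filter Topology

namespace Pool.Agent.Lib_helper48.BilLow

open Pool.Agent.Lib_helper45.Bil Pool.Agent.Billiard

/-- there are few short diagonals -/
theorem short_le {g F : ℕ → ℝ} {c : ℝ} {n₀ : ℕ} (h : Data g F c n₀) {J : ℕ} (hJ : 1 ≤ J) :
    ∑ m ∈ range J, g m / ((m : ℝ) + 1) ≤ 2 * F (2 * J) := by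
  have h1 := h.F_double J
  have hJr : (1 : ℝ) ≤ J := by exact_mod_cast hJ
  have h2 : ∑ m ∈ range J, g m / ((m : ℝ) + 1) ≤ ∑ m ∈ range J, g m := by
    apply Finset.sum_le_sum
    intro m _
    exact div_le_self (h.hg m) (by linarith [Nat.cast_nonneg (α := ℝ) m])
  have h3 := h.G_nonneg J
  have h4 : (∑ m ∈ range J, g m) ≤ J * (∑ m ∈ range J, g m) := le_mul_of_one_le_left h3 hJr
  linarith

/-- the main step, for large `n` -/
theorem large {g F : ℕ → ℝ} {c : ℝ} {n₀ : ℕ} (h : Data g F c n₀) {A p : ℝ} (hp : 1 ≤ p)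
    (hA : ∀ n : ℕ, 2 ≤ n → F n ≤ Real.exp (A * (Real.log n) ^ p)) :
    ∃ δ : ℝ, 0 < δ ∧ ∀ᶠ n : ℕ in atTop,
      c / 4 * n ^ 2 * Real.exp (δ * (Real.log n) ^ (1 / p)) ≤ F (2 * n) := by
  have hc := h.hc
  have hp0 : 0 < p := by linarith
  set B : ℝ := max A 1 with hB
  have hB1 : 1 ≤ B := le_max_right _ _
  have hB0 : 0 < B := by linarith
  -- the choice of `δ`
  set δ : ℝ := (1 / (2 * B)) ^ (1 / p) / 2 with hδ
  have hδ0 : 0 < δ := by positivity
  have hδp : B * (2 * δ) ^ p = 1 / 2 := by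
    have h1 : 2 * δ = (1 / (2 * B)) ^ (1 / p) := by rw [hδ]; ring
    rw [h1, ← Real.rpow_mul (by positivity), one_div_mul_cancel hp0.ne', Real.rpow_one]
    field_simp
  refine ⟨δ, hδ0, ?_⟩
  have hlog : Tendsto (fun n : ℕ => (Real.log n) ^ (1 / p)) atTop atTop :=
    (tendsto_rpow_atTop (by positivity)).comp
      (Real.tendsto_log_atTop.comp tendsto_natCast_atTop_atTop)
  have hsq : Tendsto (fun n : ℕ => Real.sqrt n) atTop atTop :=
    Real.tendsto_sqrt_atTop.comp tendsto_natCast_atTop_atTop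
  filter_upwards [eventually_ge_atTop (max n₀ 2), hlog.eventually_ge_atTop (1 / δ),
    hsq.eventually_ge_atTop (4 / c)] with n hn hn2 hn3
  have hnn : n₀ ≤ n := le_trans (le_max_left _ _) hn
  have hn2' : 2 ≤ n := le_trans (le_max_right _ _) hn
  have hnr : (2 : ℝ) ≤ n := by exact_mod_cast hn2'
  have hln : 0 < Real.log n := Real.log_pos (by linarith)
  set L : ℝ := (Real.log n) ^ (1 / p) with hL
  have hL0 : 0 < L := Real.rpow_pos_of_pos hln _
  have hδL : 1 ≤ δ * L := by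
    rw [div_le_iff₀ hδ0] at hn2
    linarith
  set J : ℕ := ⌊Real.exp (δ * L)⌋₊ with hJ
  have hJ1 : 1 ≤ J := by
    rw [hJ]
    apply Nat.le_floor
    have := Real.add_one_le_exp (δ * L)
    push_cast
    linarith
  have hJ2 : (J : ℝ) ≤ Real.exp (δ * L) := Nat.floor_le (Real.exp_pos _).le
  have hJ3 : Real.exp (δ * L) ≤ (J : ℝ) + 1 := (Nat.lt_floor_add_one _).le
  have hJr : (1 : ℝ) ≤ J := by exact_mod_cast hJ1
  have hlogJ : Real.log ((2 * J : ℕ) : ℝ) ≤ 2 * δ * L := by
    push_cast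
    rw [Real.log_mul (by norm_num) (by linarith)]
    have h1 : Real.log J ≤ δ * L := by
      rw [Real.log_le_iff_le_exp (by linarith)]
      exact hJ2
    have h2 : Real.log 2 ≤ 1 := by
      have := Real.log_two_lt_d9
      linarith
    linarith
  have hlogJ0 : 0 ≤ Real.log ((2 * J : ℕ) : ℝ) := by
    apply Real.log_nonneg
    push_cast
    linarith
  have hFJ : F (2 * J) ≤ Real.sqrt n := by
    refine (hA (2 * J) (by omega)).trans ?_
    have h1 : A * (Real.log ((2 * J : ℕ) : ℝ)) ^ p ≤ 1 / 2 * Real.log n := by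
      have h2 : (Real.log ((2 * J : ℕ) : ℝ)) ^ p ≤ (2 * δ * L) ^ p :=
        Real.rpow_le_rpow hlogJ0 hlogJ hp0.le
      have h3 : (2 * δ * L) ^ p = (2 * δ) ^ p * Real.log n := by
        rw [Real.mul_rpow (by positivity) hL0.le, hL, ← Real.rpow_mul hln.le,
          one_div_mul_cancel hp0.ne', Real.rpow_one]
      calc A * (Real.log ((2 * J : ℕ) : ℝ)) ^ p ≤ B * (Real.log ((2 * J : ℕ) : ℝ)) ^ p :=
            mul_le_mul_of_nonneg_right (le_max_left _ _) (Real.rpow_nonneg hlogJ0 _)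
        _ ≤ B * ((2 * δ) ^ p * Real.log n) := by
            rw [← h3]
            exact mul_le_mul_of_nonneg_left h2 hB0.le
        _ = 1 / 2 * Real.log n := by rw [← mul_assoc, hδp]
    calc Real.exp (A * (Real.log ((2 * J : ℕ) : ℝ)) ^ p) ≤ Real.exp (1 / 2 * Real.log n) :=
          Real.exp_le_exp.2 h1
      _ = Real.sqrt n := by
          rw [Real.sqrt_eq_rpow, Real.rpow_def_of_pos (by linarith), mul_comm]
  have hshort : ∑ m ∈ range J, g m / ((m : ℝ) + 1) ≤ c * n / 2 := by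
    refine (short_le h hJ1).trans ?_
    have h1 : Real.sqrt n * Real.sqrt n = n := Real.mul_self_sqrt (by linarith)
    have h2 : 0 ≤ Real.sqrt n := Real.sqrt_nonneg _
    rw [div_le_iff₀ hc] at hn3
    nlinarith
  have h1 := h.gainF hnn (by omega) hshort
  refine le_trans ?_ h1
  exact mul_le_mul_of_nonneg_left hJ3 (by positivity)

theorem lower_data {g F : ℕ → ℝ} {c : ℝ} {n₀ : ℕ} (h : Data g F c n₀) {A p : ℝ} (hp : 1 ≤ p)
    (hA : ∀ n : ℕ, 2 ≤ n → F n ≤ Real.exp (A * (Real.log n) ^ p)) :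
    ∃ c' : ℝ, 0 < c' ∧ ∀ n : ℕ, 1 ≤ n →
      c' * n ^ 2 * Real.exp (c' * (Real.log n) ^ (1 / p)) ≤ F n := by
  have hc := h.hc
  have hp0 : 0 < p := by linarith
  obtain ⟨δ, hδ, hev⟩ := large h hp hA
  obtain ⟨M, hM⟩ := eventually_atTop.1 hev
  set K : ℕ := 2 * M + 9 with hK
  have hKr : (9 : ℝ) ≤ K := by
    have : 9 ≤ K := by omega
    exact_mod_cast this
  set E : ℝ := (K : ℝ) ^ 2 * Real.exp (Real.log K ^ (1 / p)) with hE
  have hE0 : 0 < E := by positivity
  set c' : ℝ := min (min (c / 36) (δ / 2)) (min 1 (1 / E)) with hc'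
  have hc'0 : 0 < c' := by positivity
  have hc1 : c' ≤ c / 36 := (min_le_left _ _).trans (min_le_left _ _)
  have hc2 : c' ≤ δ / 2 := (min_le_left _ _).trans (min_le_right _ _)
  have hc3 : c' ≤ 1 := (min_le_right _ _).trans (min_le_left _ _)
  have hc4 : c' ≤ 1 / E := (min_le_right _ _).trans (min_le_right _ _)
  refine ⟨c', hc'0, fun n hn => ?_⟩
  have hnr : (1 : ℝ) ≤ n := by exact_mod_cast hn
  have hln : 0 ≤ Real.log n := Real.log_nonneg hnr
  by_cases hnK : n ≤ K
  · -- small `n`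
    have hnK' : (n : ℝ) ≤ K := by exact_mod_cast hnK
    have h1 : (Real.log n) ^ (1 / p) ≤ (Real.log K) ^ (1 / p) :=
      Real.rpow_le_rpow hln (Real.log_le_log (by linarith) hnK') (by positivity)
    have h2 : c' * (Real.log n) ^ (1 / p) ≤ (Real.log K) ^ (1 / p) := by
      calc c' * (Real.log n) ^ (1 / p) ≤ 1 * (Real.log n) ^ (1 / p) :=
            mul_le_mul_of_nonneg_right hc3 (Real.rpow_nonneg hln _)
        _ ≤ _ := by rw [one_mul]; exact h1
    calc c' * n ^ 2 * Real.exp (c' * (Real.log n) ^ (1 / p))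
        ≤ c' * K ^ 2 * Real.exp ((Real.log K) ^ (1 / p)) := by
          gcongr
      _ = c' * E := by rw [hE]; ring
      _ ≤ 1 / E * E := mul_le_mul_of_nonneg_right hc4 hE0.le
      _ = 1 := by field_simp
      _ ≤ F n := h.hF1 n
  · push Not at hnK
    set m : ℕ := n / 2 with hm
    have hmM : M ≤ m := by omega
    have h1 := hM m hmM
    have h2 : F (2 * m) ≤ F n := h.F_mono (by omega)
    have h3 : (n : ℝ) ≤ 3 * m := by
      have : n ≤ 3 * m := by omega
      exact_mod_cast this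
    have hn9 : (9 : ℝ) < n := by
      have : (K : ℝ) < n := by exact_mod_cast hnK
      linarith
    have hmr : 0 < (m : ℝ) := by linarith
    -- `log m ≥ (log n) / 2`
    have h4 : Real.log n / 2 ≤ Real.log m := by
      have h5 : Real.log n ≤ Real.log (3 * m) := Real.log_le_log (by linarith) h3
      rw [Real.log_mul (by norm_num) hmr.ne'] at h5
      have h6 : 2 * Real.log 3 ≤ Real.log n := by
        have h7 : Real.log ((3 : ℝ) ^ 2) ≤ Real.log n :=
          Real.log_le_log (by norm_num) (by norm_num; linarith)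
        rw [Real.log_pow] at h7
        push_cast at h7
        exact h7
      linarith
    have h5 : (Real.log n) ^ (1 / p) / 2 ≤ (Real.log m) ^ (1 / p) := by
      have h6 : (Real.log n / 2) ^ (1 / p) ≤ (Real.log m) ^ (1 / p) :=
        Real.rpow_le_rpow (by positivity) h4 (by positivity)
      refine le_trans ?_ h6
      rw [Real.div_rpow hln (by norm_num)]
      have h7 : (2 : ℝ) ^ (1 / p) ≤ 2 := by
        calc (2 : ℝ) ^ (1 / p) ≤ (2 : ℝ) ^ (1 : ℝ) := by
              apply Real.rpow_le_rpow_of_exponent_le (by norm_num)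
              rw [div_le_one hp0]
              exact hp
          _ = 2 := Real.rpow_one 2
      have h8 : (0 : ℝ) < 2 ^ (1 / p) := by positivity
      exact div_le_div_of_nonneg_left (Real.rpow_nonneg hln _) h8 h7
    have h6 : c' * (Real.log n) ^ (1 / p) ≤ δ * (Real.log m) ^ (1 / p) := by
      have h7 : 0 ≤ (Real.log n) ^ (1 / p) := Real.rpow_nonneg hln _
      calc c' * (Real.log n) ^ (1 / p) ≤ δ / 2 * (Real.log n) ^ (1 / p) :=
            mul_le_mul_of_nonneg_right hc2 h7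
        _ = δ * ((Real.log n) ^ (1 / p) / 2) := by ring
        _ ≤ _ := mul_le_mul_of_nonneg_left h5 hδ.le
    have h7 : c' * (n : ℝ) ^ 2 ≤ c / 4 * (m : ℝ) ^ 2 := by
      calc c' * (n : ℝ) ^ 2 ≤ c / 36 * (3 * m) ^ 2 := by
            apply mul_le_mul hc1 _ (by positivity) (by positivity)
            exact pow_le_pow_left₀ (by linarith) h3 2
        _ = c / 4 * (m : ℝ) ^ 2 := by ring
    calc c' * n ^ 2 * Real.exp (c' * (Real.log n) ^ (1 / p))
        ≤ c / 4 * m ^ 2 * Real.exp (δ * (Real.log m) ^ (1 / p)) := by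
          apply mul_le_mul h7 (Real.exp_le_exp.2 h6) (Real.exp_pos _).le (by positivity)
      _ ≤ F (2 * m) := h1
      _ ≤ F n := h2

/-- Upper bounds `exp (A (log n)^p)` give lower bounds `n² exp (c (log n)^(1/p))`. -/
theorem lower_of_upper (P : Polygon) (A p : ℝ) (hp : 1 ≤ p)
    (hA : ∀ n : ℕ, 2 ≤ n → (P.complexity n : ℝ) ≤ Real.exp (A * (Real.log n) ^ p)) :
    ∃ c : ℝ, 0 < c ∧ ∀ n : ℕ, 1 ≤ n →
      c * (n : ℝ) ^ 2 * Real.exp (c * (Real.log n) ^ (1 / p)) ≤ P.complexity n := by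
  obtain ⟨C⟩ := exists_corner P
  obtain ⟨c, n₀, h⟩ := C.data
  exact lower_data h hp hA

end Pool.Agent.Lib_helper48.BilLow
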