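import Mathlib

/-!
# Measure center, average shadowing, asymptotic average shadowing, almost specification
-/

set_option autoImplicit false

open Filter Topology MeasureTheory

namespace Pool.Agent.Lib_helper48.Shadowing

/-! ### Definitions used in the statement -/

section Defs

variable {X : Type*} [MetricSpace X]

/-- The measure center of `f`: the complement of the union of all open sets that are null for
every `f`-invariant Borel probability measure. -/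
def measureCenter (f : X → X) : Set X :=
  (⋃₀ {U : Set X | IsOpen U ∧ ∀ μ : @Measure X (borel X), @IsProbabilityMeasure X (borel X) μ →
    @MeasurePreserving X X (borel X) (borel X) f μ μ → μ U = 0})ᶜ

/-- `x` is a `δ`-average-pseudo-orbit of `f`. -/
def IsAvgPseudoOrbit (f : X → X) (δ : ℝ) (x : ℕ → X) : Prop :=
  ∃ N : ℕ, ∀ n k : ℕ, N ≤ n →
    (1 / (n : ℝ)) * ∑ i ∈ Finset.range n, dist (f (x (i + k))) (x (i + k + 1)) < δ

/-- `x` is `ε`-shadowed in average by `y`. -/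
def AvgShadows (f : X → X) (ε : ℝ) (x : ℕ → X) (y : X) : Prop :=
  Filter.limsup (fun n : ℕ => (1 / (n : ℝ)) * ∑ i ∈ Finset.range n, dist (f^[i] y) (x i))
    Filter.atTop < ε

/-- The average shadowing property. -/
def HasASP (f : X → X) : Prop :=
  ∀ ε : ℝ, 0 < ε → ∃ δ : ℝ, 0 < δ ∧ ∀ x : ℕ → X, IsAvgPseudoOrbit f δ x →
    ∃ y : X, AvgShadows f ε x y

/-- The asymptotic average shadowing property. -/
def HasAASP (f : X → X) : Prop :=
  ∀ x : ℕ → X,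
    Tendsto (fun n : ℕ => (1 / (n : ℝ)) * ∑ i ∈ Finset.range n, dist (f (x i)) (x (i + 1)))
      atTop (𝓝 0) →
    ∃ y : X, Tendsto (fun n : ℕ => (1 / (n : ℝ)) * ∑ i ∈ Finset.range n, dist (f^[i] y) (x i))
      atTop (𝓝 0)

/-- Mistake functions: nondecreasing in `n ≥ 1`, with `g n ε / n → 0`, for `0 < ε ≤ ε₀`, and
constant in `ε` beyond `ε₀`. -/
def IsMistakeFunction (g : ℕ → ℝ → ℕ) : Prop :=
  ∃ ε₀ : ℝ, 0 < ε₀ ∧
    (∀ ε : ℝ, 0 < ε → ε ≤ ε₀ →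
      (∀ m n : ℕ, 1 ≤ m → m ≤ n → g m ε ≤ g n ε) ∧
      Tendsto (fun n : ℕ => (g n ε : ℝ) / n) atTop (𝓝 0)) ∧
    ∀ ε : ℝ, ε₀ < ε → ∀ n : ℕ, g n ε = g n ε₀

/-- The mistake dynamical ball `B_n(g; x, ε)`. -/
def mistakeBall (f : X → X) (g : ℕ → ℝ → ℕ) (n : ℕ) (x : X) (ε : ℝ) : Set X :=
  {y | ∃ Λ : Finset ℕ, Λ ⊆ Finset.range n ∧ n - g n ε ≤ Λ.card ∧
    ∀ j ∈ Λ, dist (f^[j] x) (f^[j] y) < ε}

/-- The almost specification property. -/
def HasAS (f : X → X) : Prop :=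
  ∃ (g : ℕ → ℝ → ℕ) (kg : ℝ → ℕ), IsMistakeFunction g ∧
    (∀ ε : ℝ, 0 < ε → ∀ n : ℕ, kg ε ≤ n → g n ε < n) ∧
    ∀ m : ℕ, 1 ≤ m → ∀ (ε : ℕ → ℝ) (x : ℕ → X) (n : ℕ → ℕ),
      (∀ j < m, 0 < ε j) → (∀ j < m, kg (ε j) ≤ n j) →
      ∃ z : X, ∀ j < m, f^[∑ i ∈ Finset.range j, n i] z ∈ mistakeBall f g (n j) (x j) (ε j)

end Defs


end Pool.Agent.Lib_helper48.Shadowing
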