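import Pool.Agent.Lib_helper48.ShadowingDefs

/-!
# Proofs: almost specification restricts; the subshift example for ASP and AASP

The example is a one-sided subshift on pairs (colour, mistake bit).  A position `a` is special at
scale `k` for a colour sequence if for every `j` with `k ≤ j ≤ 2k+1` the window
`[a+2^j, a+2^(j+1))` is mostly of the colour `j mod 2`.  In the whole space `XX` a special
position `a ≥ 4^k` forces mistakes on `[a, a+2^k)`; in the smaller space `AA`, which contains the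
measure center, every special position does.
-/

set_option autoImplicit false

open Filter Topology MeasureTheory

namespace Pool.Agent.Lib_helper48.Shadowing

/-! ### Almost specification passes to sets containing the measure center -/

/-- Krylov and Bogoliubov: a continuous self-map of a nonempty compact metric space has an invariant
probability measure. -/
lemma exists_invariant {Y : Type*} [MetricSpace Y] [CompactSpace Y] [MeasurableSpace Y]
    [BorelSpace Y] (h : Y → Y) (hh : Continuous h) (y : Y) :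
    ∃ μ : Measure Y, IsProbabilityMeasure μ ∧ MeasurePreserving h μ μ := by
  let m : ℕ → Measure Y := fun n =>
    ((n + 1 : ℕ) : ENNReal)⁻¹ • ∑ i ∈ Finset.range (n + 1), Measure.dirac (h^[i] y)
  have hm : ∀ n, IsProbabilityMeasure (m n) := by
    intro n
    constructor
    simp only [m, Measure.smul_apply, Measure.finsetSum_apply, measure_univ, Finset.sum_const,
      Finset.card_range, smul_eq_mul, nsmul_eq_mul, mul_one]
    rw [ENNReal.inv_mul_cancel]
    · exact_mod_cast Nat.succ_ne_zero n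
    · exact ENNReal.natCast_ne_top _
  let P : ℕ → ProbabilityMeasure Y := fun n => ⟨m n, hm n⟩
  let U : Ultrafilter ℕ := Ultrafilter.of atTop
  have hU : (U : Filter ℕ) ≤ atTop := Ultrafilter.of_le atTop
  obtain ⟨μ, -, hμ⟩ := isCompact_iff_ultrafilter_le_nhds.1
    (isCompact_univ : IsCompact (Set.univ : Set (ProbabilityMeasure Y))) (U.map P) (by simp)
  have hlim : Tendsto P U (𝓝 μ) := hμ
  have hint := ProbabilityMeasure.tendsto_iff_forall_integral_tendsto.1 hlim
  have hval : ∀ (φ : BoundedContinuousFunction Y ℝ) (n : ℕ), ∫ x, φ x ∂(m n) =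
      ((n + 1 : ℕ) : ℝ)⁻¹ * ∑ i ∈ Finset.range (n + 1), φ (h^[i] y) := by
    intro φ n
    simp only [m]
    rw [integral_smul_measure, integral_finsetSum_measure]
    · simp only [integral_dirac, smul_eq_mul, ENNReal.toReal_inv, ENNReal.toReal_natCast]
    · intro i _
      exact φ.integrable _
  refine ⟨μ, inferInstance, hh.measurable, ?_⟩
  have := Measure.isProbabilityMeasure_map (μ := (μ : Measure Y)) hh.measurable.aemeasurable
  apply ext_of_forall_integral_eq_of_IsFiniteMeasure
  intro φ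
  rw [integral_map hh.measurable.aemeasurable φ.continuous.aestronglyMeasurable]
  let ψ : BoundedContinuousFunction Y ℝ := φ.compContinuous ⟨h, hh⟩
  have h1 : Tendsto (fun n => ∫ x, φ x ∂(m n)) U (𝓝 (∫ x, φ x ∂(μ : Measure Y))) := hint φ
  have h2 : Tendsto (fun n => ∫ x, ψ x ∂(m n)) U (𝓝 (∫ x, ψ x ∂(μ : Measure Y))) := hint ψ
  have h3 : Tendsto (fun n => ∫ x, ψ x ∂(m n) - ∫ x, φ x ∂(m n)) U (𝓝 0) := by
    refine Tendsto.mono_left ?_ hU
    have hb : ∀ n : ℕ, |∫ x, ψ x ∂(m n) - ∫ x, φ x ∂(m n)| ≤ 2 * ‖φ‖ * (1 / ((n : ℝ) + 1)) := by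
      intro n
      rw [hval, hval, ← mul_sub]
      have e1 : ∑ i ∈ Finset.range (n + 1), ψ (h^[i] y) - ∑ i ∈ Finset.range (n + 1), φ (h^[i] y) =
          φ (h^[n + 1] y) - φ y := by
        have : ∀ i, ψ (h^[i] y) = φ (h^[i + 1] y) := by
          intro i
          rw [Function.iterate_succ_apply']
          rfl
        simp only [this]
        rw [← Finset.sum_sub_distrib, Finset.sum_range_sub (fun i => φ (h^[i] y))]
        rfl
      rw [e1, abs_mul, abs_of_nonneg (by positivity)]
      have e2 : |φ (h^[n + 1] y) - φ y| ≤ 2 * ‖φ‖ := by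
        have a1 := φ.norm_coe_le_norm (h^[n + 1] y)
        have a2 := φ.norm_coe_le_norm y
        rw [Real.norm_eq_abs] at a1 a2
        have := abs_sub (φ (h^[n + 1] y)) (φ y)
        linarith
      push_cast
      rw [one_div, mul_comm]
      gcongr
    refine squeeze_zero_norm (a := fun n : ℕ => 2 * ‖φ‖ * (1 / ((n : ℝ) + 1))) hb ?_
    simpa using (tendsto_one_div_add_atTop_nhds_zero_nat (𝕜 := ℝ)).const_mul (2 * ‖φ‖)
  have h4 := tendsto_nhds_unique (h2.sub h1) h3
  have h5 : ∫ x, ψ x ∂(μ : Measure Y) = ∫ x, φ x ∂(μ : Measure Y) := by linarith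
  exact h5


lemma IsMistakeFunction.half {g : ℕ → ℝ → ℕ} (hg : IsMistakeFunction g) :
    IsMistakeFunction (fun n ε => g n (ε / 2)) := by
  obtain ⟨ε₀, h0, h1, h2⟩ := hg
  refine ⟨2 * ε₀, by positivity, ?_, ?_⟩
  · intro ε he he2
    exact h1 (ε / 2) (by positivity) (by linarith)
  · intro ε he n
    change g n (ε / 2) = g n (2 * ε₀ / 2)
    rw [h2 (ε / 2) (by linarith), show 2 * ε₀ / 2 = ε₀ by ring]

/-- closed mistake ball -/
def cBall {X : Type*} [MetricSpace X] (f : X → X) (s n : ℕ) (x : X) (ε : ℝ) : Set X :=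
  {y | ∃ Λ : Finset ℕ, Λ ⊆ Finset.range n ∧ n - s ≤ Λ.card ∧
    ∀ j ∈ Λ, dist (f^[j] x) (f^[j] y) ≤ ε}

lemma isClosed_cBall {X : Type*} [MetricSpace X] (f : X → X) (hf : Continuous f)
    (s n : ℕ) (x : X) (ε : ℝ) : IsClosed (cBall f s n x ε) := by
  have : cBall f s n x ε = ⋃ Λ ∈ ((Finset.range n).powerset.filter (fun Λ => n - s ≤ Λ.card) :
      Finset (Finset ℕ)), ⋂ j ∈ Λ, {y : X | dist (f^[j] x) (f^[j] y) ≤ ε} := by
    ext y
    simp only [cBall, Set.mem_ofPred_eq, Finset.mem_filter, Finset.mem_powerset, Set.mem_iUnion,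
      Set.mem_iInter, exists_prop, and_assoc]
  rw [this]
  apply Set.Finite.isClosed_biUnion (Finset.finite_toSet _)
  intro Λ _
  refine isClosed_biInter fun j _ => ?_
  exact isClosed_le (continuous_const.dist (hf.iterate j)) continuous_const

lemma sum_periodic (n : ℕ → ℕ) (m : ℕ) (j : ℕ) :
    ∑ i ∈ Finset.range (j + m), n (i % m) =
      ∑ i ∈ Finset.range j, n (i % m) + ∑ i ∈ Finset.range m, n i := by
  induction j with
  | zero =>
    simp only [zero_add, Finset.range_zero, Finset.sum_empty]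
    apply Finset.sum_congr rfl
    intro i hi
    rw [Nat.mod_eq_of_lt (Finset.mem_range.1 hi)]
  | succ j ih =>
    rw [show j + 1 + m = (j + m) + 1 by ring, Finset.sum_range_succ, ih, Finset.sum_range_succ]
    rw [Nat.add_mod_right]
    ring

/-- Key: the tracing point may be taken in the measure center. -/
lemma trace_in_center {X : Type*} [MetricSpace X] [CompactSpace X] (f : X → X)
    (hf : Continuous f) (g : ℕ → ℝ → ℕ) (kg : ℝ → ℕ)
    (hk : ∀ ε : ℝ, 0 < ε → ∀ n : ℕ, kg ε ≤ n → g n ε < n)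
    (hspec : ∀ m : ℕ, 1 ≤ m → ∀ (ε : ℕ → ℝ) (x : ℕ → X) (n : ℕ → ℕ),
      (∀ j < m, 0 < ε j) → (∀ j < m, kg (ε j) ≤ n j) →
      ∃ z : X, ∀ j < m, f^[∑ i ∈ Finset.range j, n i] z ∈ mistakeBall f g (n j) (x j) (ε j))
    (m : ℕ) (hm : 1 ≤ m) (ε : ℕ → ℝ) (x : ℕ → X) (n : ℕ → ℕ)
    (hε : ∀ j < m, 0 < ε j) (hn : ∀ j < m, kg (ε j) ≤ n j) :
    ∃ z ∈ measureCenter f, ∀ j < m,
      f^[∑ i ∈ Finset.range j, n i] z ∈ cBall f (g (n j) (ε j)) (n j) (x j) (ε j) := by
  classical
  let _ : MeasurableSpace X := borel X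
  have _ : BorelSpace X := ⟨rfl⟩
  set T := ∑ i ∈ Finset.range m, n i with hT
  have hn0 : ∀ j < m, 1 ≤ n j := by
    intro j hj
    have := hk (ε j) (hε j hj) (n j) (hn j hj)
    omega
  have hTpos : 1 ≤ T := by
    have h1 : n 0 ≤ T := Finset.single_le_sum (f := n) (fun _ _ => Nat.zero_le _)
      (Finset.mem_range.2 (by omega))
    have h2 := hn0 0 (by omega)
    omega
  let l : ℕ → ℕ := fun j => ∑ i ∈ Finset.range j, n (i % m)
  have hlT : ∀ j, l (j + m) = l j + T := fun j => sum_periodic n m j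
  let B : ℕ → Set X := fun j =>
    f^[l j] ⁻¹' cBall f (g (n (j % m)) (ε (j % m))) (n (j % m)) (x (j % m)) (ε (j % m))
  have hBclosed : ∀ j, IsClosed (B j) := fun j =>
    (isClosed_cBall f hf _ _ _ _).preimage (hf.iterate _)
  let C : ℕ → Set X := fun R => ⋂ j ∈ Finset.range (R + 1), B j
  have hCclosed : ∀ R, IsClosed (C R) := fun R => isClosed_biInter fun j _ => hBclosed j
  have hCne : ∀ R, (C R).Nonempty := by
    intro R
    obtain ⟨z, hz⟩ := hspec (R + 1) (by omega) (fun j => ε (j % m)) (fun j => x (j % m))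
      (fun j => n (j % m)) (fun j _ => hε _ (Nat.mod_lt _ (by omega)))
      (fun j _ => hn _ (Nat.mod_lt _ (by omega)))
    refine ⟨z, ?_⟩
    simp only [C, Set.mem_iInter, Finset.mem_range]
    intro j hj
    obtain ⟨Λ, h1, h2, h3⟩ := hz j hj
    exact ⟨Λ, h1, h2, fun i hi => (h3 i hi).le⟩
  have hCanti : ∀ R, C (R + 1) ⊆ C R := by
    intro R z hz
    simp only [C, Set.mem_iInter, Finset.mem_range] at hz ⊢
    intro j hj
    exact hz j (by omega)
  have hne : (⋂ R, C R).Nonempty :=
    IsCompact.nonempty_iInter_of_sequence_nonempty_isCompact_isClosed C hCanti hCne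
      (hCclosed 0).isCompact hCclosed
  set D : Set X := ⋂ R, C R with hD
  have hmemD : ∀ z, z ∈ D ↔ ∀ j, z ∈ B j := by
    intro z
    simp only [hD, C, Set.mem_iInter, Finset.mem_range]
    constructor
    · intro h j
      exact h j j (by omega)
    · intro h R j _
      exact h j
  have hDclosed : IsClosed D := isClosed_iInter hCclosed
  have hDinv : Set.MapsTo f^[T] D D := by
    intro z hz
    rw [hmemD] at hz ⊢
    intro j
    have h1 := hz (j + m)
    simp only [B, Set.mem_preimage] at h1 ⊢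
    rw [hlT, Function.iterate_add_apply, Nat.add_mod_right] at h1
    exact h1
  -- invariant measure on D
  have hDcomp : CompactSpace D := isCompact_iff_compactSpace.1 hDclosed.isCompact
  obtain ⟨z0, hz0⟩ := hne
  obtain ⟨μ₀, hμ₀, hinv₀⟩ := exists_invariant (hDinv.restrict f^[T] D D)
    ((hf.iterate T).continuousOn.mapsToRestrict hDinv) ⟨z0, hz0⟩
  let μ : Measure X := μ₀.map Subtype.val
  have hμ : IsProbabilityMeasure μ :=
    Measure.isProbabilityMeasure_map measurable_subtype_coe.aemeasurable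
  have hμinv : MeasurePreserving f^[T] μ μ := by
    refine ⟨(hf.iterate T).measurable, ?_⟩
    simp only [μ]
    rw [Measure.map_map (hf.iterate T).measurable measurable_subtype_coe]
    have : f^[T] ∘ (Subtype.val : D → X) = Subtype.val ∘ (hDinv.restrict f^[T] D D) := by
      funext z
      rfl
    rw [this, ← Measure.map_map measurable_subtype_coe hinv₀.measurable, hinv₀.map_eq]
  have hμD : μ Dᶜ = 0 := by
    simp only [μ]
    rw [Measure.map_apply measurable_subtype_coe hDclosed.measurableSet.compl]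
    have : (Subtype.val : D → X) ⁻¹' Dᶜ = ∅ := by
      ext z
      simp
    rw [this, measure_empty]
  -- universally null open sets are μ-null
  have hnull : ∀ U : Set X, IsOpen U → (∀ ν : Measure X, IsProbabilityMeasure ν →
      MeasurePreserving f ν ν → ν U = 0) → μ U = 0 := by
    intro U hU hUn
    let ν : Measure X := (T : ENNReal)⁻¹ • ∑ i ∈ Finset.range T, μ.map f^[i]
    have hmapi : ∀ i, IsProbabilityMeasure (μ.map f^[i]) := fun i =>
      Measure.isProbabilityMeasure_map (hf.iterate i).measurable.aemeasurable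
    have hT0 : (T : ENNReal) ≠ 0 := by exact_mod_cast (by omega : T ≠ 0)
    have hν : IsProbabilityMeasure ν := by
      constructor
      simp only [ν, Measure.smul_apply, Measure.finsetSum_apply, measure_univ, Finset.sum_const,
        Finset.card_range, smul_eq_mul, nsmul_eq_mul, mul_one]
      exact ENNReal.inv_mul_cancel hT0 (ENNReal.natCast_ne_top _)
    have hνinv : MeasurePreserving f ν ν := by
      refine ⟨hf.measurable, ?_⟩
      simp only [ν]
      rw [Measure.map_smul, ← Measure.mapₗ_apply_of_measurable hf.measurable, map_sum]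
      congr 1
      have e1 : ∀ i, (Measure.mapₗ f) (μ.map f^[i]) = μ.map f^[i + 1] := by
        intro i
        rw [Measure.mapₗ_apply_of_measurable hf.measurable,
          Measure.map_map hf.measurable (hf.iterate i).measurable, ← Function.iterate_succ']
      simp only [e1]
      have e2 : ∑ i ∈ Finset.range T, μ.map f^[i + 1] + μ.map f^[0] =
          ∑ i ∈ Finset.range T, μ.map f^[i] + μ.map f^[T] := by
        rw [← Finset.sum_range_succ' (fun i => μ.map f^[i]) T,
          Finset.sum_range_succ (fun i => μ.map f^[i]) T]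
      have e3 : μ.map f^[0] = μ := by
        simp
      rw [e3, hμinv.map_eq] at e2
      ext s hs
      have e4 := congrArg (fun ρ : Measure X => ρ s) e2
      simp only [Measure.add_apply] at e4
      exact (ENNReal.add_left_inj (measure_ne_top μ s)).1 e4
    have h0 := hUn ν hν hνinv
    simp only [ν, Measure.smul_apply, Measure.finsetSum_apply, smul_eq_mul, mul_eq_zero,
      ENNReal.inv_eq_zero, ENNReal.natCast_ne_top, false_or] at h0
    have h1 := (Finset.sum_eq_zero_iff.1 h0) 0 (Finset.mem_range.2 (by omega))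
    simpa using h1
  have hcenter : μ (measureCenter f)ᶜ = 0 := by
    unfold measureCenter
    rw [compl_compl]
    obtain ⟨S', hS'c, hS's, hS'e⟩ := TopologicalSpace.isOpen_sUnion_countable
      {U : Set X | IsOpen U ∧ ∀ μ : @Measure X (borel X), @IsProbabilityMeasure X (borel X) μ →
        @MeasurePreserving X X (borel X) (borel X) f μ μ → μ U = 0} (fun s hs => hs.1)
    rw [← hS'e, measure_sUnion_null_iff hS'c]
    intro s hs
    exact hnull s (hS's hs).1 (hS's hs).2
  have hinter : (D ∩ measureCenter f).Nonempty := by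
    by_contra hcon
    rw [Set.not_nonempty_iff_eq_empty] at hcon
    have h1 : (Set.univ : Set X) ⊆ Dᶜ ∪ (measureCenter f)ᶜ := by
      intro z _
      by_contra h2
      simp only [Set.mem_union, Set.mem_compl_iff, not_or, not_not] at h2
      have : z ∈ D ∩ measureCenter f := h2
      rw [hcon] at this
      exact this
    have h2 : μ Set.univ ≤ 0 := by
      refine (measure_mono h1).trans ((measure_union_le _ _).trans ?_)
      rw [hμD, hcenter, add_zero]
    rw [measure_univ] at h2
    exact absurd h2 (by simp)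
  obtain ⟨z, hzD, hzM⟩ := hinter
  refine ⟨z, hzM, fun j hj => ?_⟩
  have h1 := (hmemD z).1 hzD j
  simp only [B, Set.mem_preimage] at h1
  rw [Nat.mod_eq_of_lt hj] at h1
  have h2 : l j = ∑ i ∈ Finset.range j, n i := by
    apply Finset.sum_congr rfl
    intro i hi
    rw [Nat.mod_eq_of_lt (lt_trans (Finset.mem_range.1 hi) hj)]
  rw [← h2]
  exact h1

theorem hasAS_restrict {X : Type*} [MetricSpace X] [CompactSpace X] (f : X → X)
    (hf : Continuous f) (hAS : HasAS f) (A : Set X) (hA : Set.MapsTo f A A)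
    (hM : measureCenter f ⊆ A) : HasAS (hA.restrict f A A) := by
  obtain ⟨g, kg, hg, hk, hspec⟩ := hAS
  refine ⟨fun n ε => g n (ε / 2), fun ε => kg (ε / 2), hg.half, ?_, ?_⟩
  · intro ε he n hn
    exact hk (ε / 2) (by positivity) n hn
  · intro m hm ε x n hε hn
    obtain ⟨z, hzM, hz⟩ := trace_in_center f hf g kg hk hspec m hm (fun j => ε j / 2)
      (fun j => (x j : X)) n (fun j hj => by have := hε j hj; positivity) hn
    refine ⟨⟨z, hM hzM⟩, fun j hj => ?_⟩
    obtain ⟨Λ, h1, h2, h3⟩ := hz j hj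
    refine ⟨Λ, h1, h2, fun i hi => ?_⟩
    have h4 := h3 i hi
    have e : ∀ (k : ℕ) (a : A), (((hA.restrict f A A)^[k] a : A) : X) = f^[k] a := by
      intro k a
      induction k with
      | zero => rfl
      | succ k ih =>
        rw [Function.iterate_succ_apply', Function.iterate_succ_apply', ← ih]
        rfl
    rw [Subtype.dist_eq, e, e, e]
    have := hε j hj
    have h5 : dist (f^[i] (x j : X)) (f^[i] (f^[∑ i ∈ Finset.range j, n i] z)) ≤ ε j / 2 := h4
    linarith

/-! ### The example -/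

/-- colour of scale `j` -/
def col (j : ℕ) : Bool := Nat.bodd j

lemma col_succ (j : ℕ) : col (j + 1) ≠ col j := by
  unfold col
  rw [Nat.bodd_succ]
  cases Nat.bodd j <;> simp

def exc (c : ℕ → Bool) (v : Bool) (a b : ℕ) : Finset ℕ :=
  (Finset.Ico a b).filter (fun i => c i ≠ v)

def Special (k a : ℕ) (c : ℕ → Bool) : Prop :=
  ∀ j, k ≤ j → j ≤ 2 * k + 1 →
    8 * (exc c (col j) (a + 2 ^ j) (a + 2 ^ (j + 1))).card ≤ 2 ^ j

lemma exc_card_shift (c : ℕ → Bool) (v : Bool) (a b n : ℕ) :
    (exc (fun i => c (i + n)) v a b).card = (exc c v (a + n) (b + n)).card := by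
  unfold exc
  apply Finset.card_bij (fun i _ => i + n)
  · intro i hi
    simp only [Finset.mem_filter, Finset.mem_Ico] at hi ⊢
    refine ⟨⟨by omega, by omega⟩, hi.2⟩
  · intro i _ j _ h
    omega
  · intro j hj
    simp only [Finset.mem_filter, Finset.mem_Ico] at hj
    refine ⟨j - n, ?_, by omega⟩
    simp only [Finset.mem_filter, Finset.mem_Ico]
    have : j - n + n = j := by omega
    rw [this]
    refine ⟨⟨by omega, by omega⟩, hj.2⟩

lemma special_shift (k a n : ℕ) (c : ℕ → Bool) :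
    Special k a (fun i => c (i + n)) ↔ Special k (a + n) c := by
  unfold Special
  refine forall_congr' fun j => forall_congr' fun _ => forall_congr' fun _ => ?_
  rw [exc_card_shift]
  rw [show a + 2 ^ j + n = a + n + 2 ^ j by ring,
    show a + 2 ^ (j + 1) + n = a + n + 2 ^ (j + 1) by ring]

lemma exc_congr {c c' : ℕ → Bool} {v : Bool} {a b : ℕ} (h : ∀ i, i < b → c i = c' i) :
    exc c v a b = exc c' v a b := by
  unfold exc
  apply Finset.filter_congr
  intro i hi
  rw [h i (Finset.mem_Ico.1 hi).2]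

lemma special_congr {k a : ℕ} {c c' : ℕ → Bool}
    (h : ∀ i, i < a + 2 ^ (2 * k + 2) → c i = c' i) (hs : Special k a c) : Special k a c' := by
  intro j h1 h2
  rw [← exc_congr (c := c) (c' := c')]
  · exact hs j h1 h2
  · intro i hi
    apply h
    have : 2 ^ (j + 1) ≤ 2 ^ (2 * k + 2) := Nat.pow_le_pow_right (by norm_num) (by omega)
    omega

lemma special_gap {k a a' : ℕ} {c : ℕ → Bool} (h : Special k a c) (h' : Special k a' c)
    (hk : a + 2 ^ k ≤ a') : a + 4 ^ k ≤ a' := by
  by_contra hcon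
  push Not at hcon
  obtain ⟨s, rfl⟩ : ∃ s, a' = a + s := ⟨a' - a, by have := Nat.zero_le (2^k); omega⟩
  have hs1 : 2 ^ k ≤ s := by omega
  have hs2 : s < 4 ^ k := by omega
  have hs0 : s ≠ 0 := by
    have : 0 < 2 ^ k := by positivity
    omega
  set j := Nat.log 2 s with hj
  have hj1 : 2 ^ j ≤ s := Nat.pow_log_le_self 2 hs0
  have hj2 : s < 2 ^ (j + 1) := Nat.lt_pow_succ_log_self (by norm_num) s
  have hkj : k ≤ j := by
    rw [hj]
    exact (Nat.le_log_iff_pow_le (by norm_num) hs0).2 hs1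
  have hj3 : j < 2 * k := by
    have h4 : (4 : ℕ) ^ k = 2 ^ (2 * k) := by rw [pow_mul]; norm_num
    rw [h4] at hs2
    exact (Nat.pow_lt_pow_iff_right (a := 2) (by norm_num)).1 (lt_of_le_of_lt hj1 hs2)
  have e1 := h (j + 2) (by omega) (by omega)
  have e2 := h' (j + 1) (by omega) (by omega)
  have hsub : Finset.Ico (a + 2 ^ (j + 2)) (a + s + 2 ^ (j + 2)) ⊆
      exc c (col (j + 2)) (a + 2 ^ (j + 2)) (a + 2 ^ (j + 2 + 1)) ∪
      exc c (col (j + 1)) (a + s + 2 ^ (j + 1)) (a + s + 2 ^ (j + 1 + 1)) := by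
    intro i hi
    rw [Finset.mem_Ico] at hi
    have p1 : 2 ^ (j + 1) = 2 * 2 ^ j := by ring
    have p2 : 2 ^ (j + 2) = 4 * 2 ^ j := by ring
    have p3 : 2 ^ (j + 2 + 1) = 8 * 2 ^ j := by ring
    have p4 : 2 ^ (j + 1 + 1) = 4 * 2 ^ j := by ring
    rw [Finset.mem_union]
    unfold exc
    simp only [Finset.mem_filter, Finset.mem_Ico]
    by_cases hc : c i = col (j + 2)
    · right
      refine ⟨⟨by omega, by omega⟩, ?_⟩
      rw [hc]
      exact col_succ (j + 1)
    · left
      exact ⟨⟨by omega, by omega⟩, hc⟩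
  have hcard := Finset.card_le_card hsub
  have hcard2 := Finset.card_union_le (exc c (col (j + 2)) (a + 2 ^ (j + 2)) (a + 2 ^ (j + 2 + 1)))
    (exc c (col (j + 1)) (a + s + 2 ^ (j + 1)) (a + s + 2 ^ (j + 1 + 1)))
  rw [Nat.card_Ico] at hcard
  have p1 : 2 ^ (j + 1) = 2 * 2 ^ j := by ring
  have p2 : 2 ^ (j + 2) = 4 * 2 ^ j := by ring
  omega

/-- union of forced-mistake intervals of scale k -/
def DD (k : ℕ) (c : ℕ → Bool) : Set ℕ :=
  {i | ∃ a, 4 ^ k ≤ a ∧ Special k a c ∧ a ≤ i ∧ i < a + 2 ^ k}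

open scoped Classical in
lemma card_DD (k : ℕ) (c : ℕ → Bool) (T : ℕ) :
    ((Finset.range T).filter (fun i => i ∈ DD k c)).card * 2 ^ k ≤ 2 * T := by
  -- for each block q a set
  let S : ℕ → Finset ℕ := fun q => (Finset.range T).filter
    (fun i => ∃ a, a / 4 ^ k = q ∧ Special k a c ∧ a ≤ i ∧ i < a + 2 ^ k)
  have h4 : 0 < 4 ^ k := by positivity
  have hS : ∀ q, (S q).card ≤ 2 ^ (k + 1) := by
    intro q
    by_cases hex : ∃ a, a / 4 ^ k = q ∧ Special k a c
    · classical
      have hf := Nat.find_spec hex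
      set a0 := Nat.find hex with ha0
      have : S q ⊆ Finset.Ico a0 (a0 + 2 ^ (k + 1)) := by
        intro i hi
        simp only [S, Finset.mem_filter] at hi
        obtain ⟨_, a, hq, hsp, h1, h2⟩ := hi
        have hmin : a0 ≤ a := Nat.find_min' hex ⟨hq, hsp⟩
        rw [Finset.mem_Ico]
        have hlt : a < a0 + 2 ^ k := by
          by_contra hcon
          push Not at hcon
          have hg := special_gap hf.2 hsp hcon
          have hd1 := Nat.div_add_mod a0 (4 ^ k)
          have hd2 := Nat.div_add_mod a (4 ^ k)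
          have hm1 := Nat.mod_lt a0 h4
          have hm2 := Nat.mod_lt a h4
          rw [hf.1] at hd1
          rw [hq] at hd2
          omega
        have : 2 ^ (k + 1) = 2 * 2 ^ k := by ring
        omega
      calc (S q).card ≤ (Finset.Ico a0 (a0 + 2 ^ (k + 1))).card := Finset.card_le_card this
        _ = 2 ^ (k + 1) := by simp
    · have : S q = ∅ := by
        simp only [S]
        apply Finset.filter_eq_empty_iff.2
        intro i _ hh
        obtain ⟨a, hq, hsp, _⟩ := hh
        exact hex ⟨a, hq, hsp⟩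
      rw [this]
      simp
  have hsub : (Finset.range T).filter (fun i => i ∈ DD k c) ⊆
      (Finset.Icc 1 (T / 4 ^ k)).biUnion S := by
    intro i hi
    simp only [Finset.mem_filter, Finset.mem_range] at hi
    obtain ⟨hiT, a, ha, hsp, h1, h2⟩ := hi
    rw [Finset.mem_biUnion]
    refine ⟨a / 4 ^ k, ?_, ?_⟩
    · rw [Finset.mem_Icc]
      constructor
      · exact (Nat.one_le_div_iff h4).2 ha
      · exact Nat.div_le_div_right (by omega)
    · simp only [S, Finset.mem_filter, Finset.mem_range]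
      exact ⟨hiT, a, rfl, hsp, h1, h2⟩
  have hc1 : ((Finset.range T).filter (fun i => i ∈ DD k c)).card ≤ (T / 4 ^ k) * 2 ^ (k + 1) := by
    calc _ ≤ ((Finset.Icc 1 (T / 4 ^ k)).biUnion S).card := Finset.card_le_card hsub
      _ ≤ ∑ q ∈ Finset.Icc 1 (T / 4 ^ k), (S q).card := Finset.card_biUnion_le
      _ ≤ ∑ q ∈ Finset.Icc 1 (T / 4 ^ k), 2 ^ (k + 1) := Finset.sum_le_sum fun q _ => hS q
      _ = _ := by simp
  have h4' : (4 : ℕ) ^ k = 2 ^ k * 2 ^ k := by
    rw [← mul_pow]
    norm_num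
  calc _ ≤ ((T / 4 ^ k) * 2 ^ (k + 1)) * 2 ^ k := Nat.mul_le_mul_right _ hc1
    _ = 2 * ((T / 4 ^ k) * 4 ^ k) := by rw [h4']; ring
    _ ≤ 2 * T := Nat.mul_le_mul_left _ (Nat.div_mul_le_self _ _)


/-! configuration space -/

abbrev Cfg := ℕ → Bool × Bool

attribute [local instance] PiNat.metricSpace

/-- colour track -/
def colr (ω : Cfg) : ℕ → Bool := fun i => (ω i).1

/-- requirement -/
def Req (k a : ℕ) (ω : Cfg) : Prop :=
  Special k a (colr ω) → ∀ i, a ≤ i → i < a + 2 ^ k → (ω i).2 = true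

def shift (ω : Cfg) : Cfg := fun i => ω (i + 1)

lemma shift_iter (n : ℕ) (ω : Cfg) : shift^[n] ω = fun i => ω (i + n) := by
  induction n with
  | zero => simp
  | succ n ih =>
    rw [Function.iterate_succ_apply', ih]
    funext i
    simp only [shift]
    congr 1
    ring

lemma req_shift (k a n : ℕ) (ω : Cfg) : Req k a (fun i => ω (i + n)) ↔ Req k (a + n) ω := by
  unfold Req
  have : Special k a (colr fun i => ω (i + n)) ↔ Special k (a + n) (colr ω) :=
    special_shift k a n (colr ω)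
  rw [this]
  refine forall_congr' fun _ => ?_
  constructor
  · intro h i h1 h2
    have := h (i - n) (by omega) (by omega)
    simpa [show i - n + n = i by omega] using this
  · intro h i h1 h2
    exact h (i + n) (by omega) (by omega)

lemma req_congr {k a : ℕ} {ω ω' : Cfg}
    (h : ∀ i, i < a + 2 ^ (2 * k + 2) → ω i = ω' i) (hr : Req k a ω) : Req k a ω' := by
  intro hs i h1 h2
  have hs' : Special k a (colr ω) := by
    apply special_congr _ hs
    intro i hi
    simp only [colr]
    rw [h i hi]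
  have hp : 2 ^ k ≤ 2 ^ (2 * k + 2) := Nat.pow_le_pow_right (by norm_num) (by omega)
  rw [← h i (by omega)]
  exact hr hs' i h1 h2

lemma isOpen_req (k a : ℕ) : IsOpen {ω : Cfg | Req k a ω} := by
  rw [isOpen_iff_mem_nhds]
  intro ω hω
  refine Filter.mem_of_superset
    ((PiNat.isOpen_cylinder _ ω (a + 2 ^ (2 * k + 2))).mem_nhds (PiNat.self_mem_cylinder _ _)) ?_
  intro ω' hω'
  exact req_congr (fun i hi => (hω' i hi).symm) hω

lemma isOpen_not_req (k a : ℕ) : IsOpen {ω : Cfg | ¬ Req k a ω} := by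
  rw [isOpen_iff_mem_nhds]
  intro ω hω
  refine Filter.mem_of_superset
    ((PiNat.isOpen_cylinder _ ω (a + 2 ^ (2 * k + 2))).mem_nhds (PiNat.self_mem_cylinder _ _)) ?_
  intro ω' hω' hr
  exact hω (req_congr (fun i hi => hω' i hi) hr)

def XX : Set Cfg := {ω | ∀ k a, 4 ^ k ≤ a → Req k a ω}

def AA : Set Cfg := {ω | ∀ k a, Req k a ω}

lemma isClosed_XX : IsClosed XX := by
  have : XX = ⋂ k : ℕ, ⋂ a : ℕ, ⋂ (_ : 4 ^ k ≤ a), {ω : Cfg | Req k a ω} := by
    ext ω
    simp [XX]
  rw [this]
  refine isClosed_iInter fun k => isClosed_iInter fun a => isClosed_iInter fun _ => ?_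
  rw [← isOpen_compl_iff]
  exact isOpen_not_req k a

lemma shift_mem_XX {ω : Cfg} (h : ω ∈ XX) : shift ω ∈ XX := by
  intro k a ha
  have := h k (a + 1) (by omega)
  exact (req_shift k a 1 ω).2 this

instance : CompactSpace XX := isCompact_iff_compactSpace.1 (isClosed_XX.isCompact)

def F : XX → XX := fun x => ⟨shift x.1, shift_mem_XX x.2⟩

lemma continuous_F : Continuous F := by
  apply Continuous.subtype_mk
  apply continuous_pi
  intro i
  exact (continuous_apply (i + 1)).comp continuous_subtype_val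

lemma F_iter (n : ℕ) (x : XX) : ((F^[n] x).1 : Cfg) = fun i => x.1 (i + n) := by
  rw [← shift_iter]
  induction n with
  | zero => rfl
  | succ n ih =>
    rw [Function.iterate_succ_apply', Function.iterate_succ_apply', ← ih]
    rfl


/-! counting for pseudo-orbits -/

open scoped Classical in
/-- number of indices below `T` satisfying `P` -/
noncomputable def cnt (P : ℕ → Prop) (T : ℕ) : ℕ := ((Finset.range T).filter P).card

lemma cnt_le_card {P : ℕ → Prop} {T : ℕ} {s : Finset ℕ} (h : ∀ i, i < T → P i → i ∈ s) :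
    cnt P T ≤ s.card := by
  unfold cnt
  apply Finset.card_le_card
  intro i hi
  simp only [Finset.mem_filter, Finset.mem_range] at hi
  exact h i hi.1 hi.2

open scoped Classical in
lemma mem_cntset {P : ℕ → Prop} {T i : ℕ} (hi : i < T) (hP : P i) :
    i ∈ (Finset.range T).filter P := by
  simp only [Finset.mem_filter, Finset.mem_range]
  exact ⟨hi, hP⟩

lemma cnt_mono {P Q : ℕ → Prop} {T T' : ℕ} (h : ∀ i, P i → Q i) (hT : T ≤ T') :
    cnt P T ≤ cnt Q T' :=
  cnt_le_card fun i hi hP => mem_cntset (by omega) (h i hP)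

lemma cnt_or (P Q : ℕ → Prop) (T : ℕ) : cnt (fun i => P i ∨ Q i) T ≤ cnt P T + cnt Q T := by
  classical
  refine le_trans (cnt_le_card (s := (Finset.range T).filter P ∪ (Finset.range T).filter Q) ?_) ?_
  · intro i hi h
    simp only [Finset.mem_union, Finset.mem_filter, Finset.mem_range]
    tauto
  · refine (Finset.card_union_le _ _).trans (le_of_eq ?_)
    unfold cnt
    congr!

/-- forward translation -/
lemma cnt_exists_add (P : ℕ → Prop) (L T : ℕ) :
    cnt (fun i => ∃ l, l < L ∧ P (i + l)) T ≤ L * cnt P (T + L) := by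
  classical
  refine le_trans (cnt_le_card (s := (Finset.range L).biUnion
    (fun l => ((Finset.range (T + L)).filter P).image (fun j => j - l))) ?_) ?_
  · rintro i hiT ⟨l, hl, hP⟩
    simp only [Finset.mem_biUnion, Finset.mem_image, Finset.mem_filter, Finset.mem_range]
    exact ⟨l, hl, i + l, ⟨by omega, hP⟩, by omega⟩
  · refine Finset.card_biUnion_le.trans ?_
    have : ∀ l ∈ Finset.range L, (((Finset.range (T + L)).filter P).image (fun j => j - l)).card ≤
        cnt P (T + L) := by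
      intro l _
      refine Finset.card_image_le.trans (le_of_eq ?_)
      unfold cnt
      congr!
    refine (Finset.sum_le_sum this).trans ?_
    simp

/-- backward translation -/
lemma cnt_exists_sub (P : ℕ → Prop) (L T : ℕ) :
    cnt (fun i => ∃ j, j ≤ i ∧ i < j + L ∧ P j) T ≤ L * cnt P T := by
  classical
  refine le_trans (cnt_le_card (s := (Finset.range L).biUnion
    (fun l => ((Finset.range T).filter P).image (fun j => j + l))) ?_) ?_
  · rintro i hiT ⟨j, hj, hj2, hP⟩
    simp only [Finset.mem_biUnion, Finset.mem_image, Finset.mem_filter, Finset.mem_range]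
    exact ⟨i - j, by omega, j, ⟨by omega, hP⟩, by omega⟩
  · refine Finset.card_biUnion_le.trans ?_
    have : ∀ l ∈ Finset.range L, (((Finset.range T).filter P).image (fun j => j + l)).card ≤
        cnt P T := by
      intro l _
      refine Finset.card_image_le.trans (le_of_eq ?_)
      unfold cnt
      congr!
    refine (Finset.sum_le_sum this).trans ?_
    simp

/-- agreement gives small distance -/
lemma dist_le_of_agree (x y : XX) (L : ℕ) (h : ∀ l, l < L → x.1 l = y.1 l) :
    dist x y ≤ (1 / 2) ^ L := by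
  rw [Subtype.dist_eq]
  exact PiNat.mem_cylinder_iff_dist_le.1 (fun i hi => h i hi)

lemma dist_le_one' (x y : XX) : dist x y ≤ 1 := by
  rw [Subtype.dist_eq]
  exact PiNat.dist_le_one _ _

lemma le_dist_of_ne (x y : XX) (L l : ℕ) (hl : l < L) (h : x.1 l ≠ y.1 l) :
    (1 / 2) ^ L ≤ dist x y := by
  by_contra hcon
  push Not at hcon
  rw [Subtype.dist_eq] at hcon
  exact h (PiNat.apply_eq_of_dist_lt hcon (by omega))

/-- places where the pseudo-orbit makes an error visible in the first `L` coordinates -/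
def Err (x : ℕ → XX) (L : ℕ) (j : ℕ) : Prop := ∃ l, l < L ∧ (F (x j)).1 l ≠ (x (j + 1)).1 l

lemma cnt_err_le (x : ℕ → XX) (L T : ℕ) :
    (cnt (Err x L) T : ℝ) ≤ 2 ^ L * ∑ j ∈ Finset.range T, dist (F (x j)) (x (j + 1)) := by
  classical
  have h1 : (cnt (Err x L) T : ℝ) * (1 / 2) ^ L ≤
      ∑ j ∈ Finset.range T, dist (F (x j)) (x (j + 1)) := by
    unfold cnt
    rw [← nsmul_eq_mul, ← Finset.sum_const]
    refine (Finset.sum_le_sum ?_).trans (Finset.sum_le_sum_of_subset_of_nonneg
      (Finset.filter_subset _ _) (fun _ _ _ => dist_nonneg))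
    intro j hj
    simp only [Finset.mem_filter] at hj
    obtain ⟨_, l, hl, hne⟩ := hj
    exact le_dist_of_ne _ _ L l hl hne
  have h2 : (2 : ℝ) ^ L * (1 / 2) ^ L = 1 := by
    rw [← mul_pow]; norm_num
  calc (cnt (Err x L) T : ℝ) = 2 ^ L * ((cnt (Err x L) T : ℝ) * (1 / 2) ^ L) := by
        rw [mul_comm (cnt (Err x L) T : ℝ), ← mul_assoc, h2, one_mul]
    _ ≤ _ := by gcongr

/-- symbol sequence of the pseudo-orbit -/
def sym (x : ℕ → XX) (i : ℕ) : Bool × Bool := (x i).1 0

/-- `x i` disagrees with the symbol sequence in the first `L` coordinates -/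
def Bad (x : ℕ → XX) (L : ℕ) (i : ℕ) : Prop := ∃ l, l < L ∧ (x i).1 l ≠ sym x (i + l)

lemma bad_imp (x : ℕ → XX) (L i : ℕ) (h : Bad x L i) : ∃ l, l < L ∧ Err x L (i + l) := by
  by_contra hcon
  push Not at hcon
  obtain ⟨l, hl, hne⟩ := h
  apply hne
  have key : ∀ m, m ≤ l → (x i).1 l = (x (i + m)).1 (l - m) := by
    intro m
    induction m with
    | zero => intro _; simp
    | succ m ih =>
      intro hm
      rw [ih (by omega)]
      have h1 := hcon m (lt_of_lt_of_le (Nat.lt_of_succ_le hm) hl.le)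
      unfold Err at h1
      push Not at h1
      have h2 := h1 (l - (m + 1)) (by omega)
      have h3 : (F (x (i + m))).1 (l - (m + 1)) = (x (i + m)).1 (l - m) := by
        change (x (i + m)).1 (l - (m + 1) + 1) = _
        have e : l - (m + 1) + 1 = l - m := by omega
        rw [e]
      rw [← h3, h2]
      rfl
  have := key l le_rfl
  simpa [sym] using this

lemma cnt_bad_le (x : ℕ → XX) (L T : ℕ) :
    (cnt (Bad x L) T : ℝ) ≤
      L * 2 ^ L * ∑ j ∈ Finset.range (T + L), dist (F (x j)) (x (j + 1)) := by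
  have h1 : cnt (Bad x L) T ≤ L * cnt (Err x L) (T + L) :=
    (cnt_mono (fun i hi => bad_imp x L i hi) le_rfl).trans (cnt_exists_add _ _ _)
  calc (cnt (Bad x L) T : ℝ) ≤ ((L * cnt (Err x L) (T + L) : ℕ) : ℝ) := by exact_mod_cast h1
    _ = L * (cnt (Err x L) (T + L) : ℝ) := by push_cast; ring
    _ ≤ L * (2 ^ L * ∑ j ∈ Finset.range (T + L), dist (F (x j)) (x (j + 1))) := by
        gcongr
        exact cnt_err_le x L (T + L)
    _ = _ := by ring

/-- colours of the symbol sequence -/
def colseq (x : ℕ → XX) (i : ℕ) : Bool := (sym x i).1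

/-- small scales: forced mistakes come from pseudo-orbit errors -/
lemma small_scale (x : ℕ → XX) (k L i : ℕ) (hL : 4 ^ k + 2 ^ (2 * k + 2) ≤ L)
    (hi : i ∈ DD k (colseq x)) (hb : (sym x i).2 = false) :
    ∃ j, j ≤ i ∧ i < j + L ∧ Bad x L j := by
  obtain ⟨a, ha, hsp, h1, h2⟩ := hi
  have hp : 2 ^ k ≤ 2 ^ (2 * k + 2) := Nat.pow_le_pow_right (by norm_num) (by omega)
  obtain ⟨a', rfl⟩ : ∃ a', a = a' + 4 ^ k := ⟨a - 4 ^ k, (Nat.sub_add_cancel ha).symm⟩
  have h40 : 0 < 4 ^ k := by positivity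
  obtain ⟨i', rfl⟩ : ∃ i', i = a' + i' := ⟨i - a', (Nat.add_sub_cancel' (by omega)).symm⟩
  have h1' : 4 ^ k ≤ i' := by omega
  have h2' : i' < 4 ^ k + 2 ^ k := by omega
  refine ⟨a', by omega, by omega, ?_⟩
  by_contra hbad
  unfold Bad at hbad
  push Not at hbad
  -- x a' agrees with the symbols
  have hreq : Req k (4 ^ k) (x a').1 := (x a').2 k (4 ^ k) le_rfl
  have hsp' : Special k (4 ^ k) (colr (x a').1) := by
    have e1 : Special k (4 ^ k) (fun l => colseq x (l + a')) := by
      rw [special_shift, add_comm]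
      exact hsp
    apply special_congr _ e1
    intro l hl
    have := hbad l (by omega)
    simp only [colr, colseq]
    rw [this]
    congr 2
    ring
  have h3 := hreq hsp' i' h1' h2'
  have h4 := hbad i' (by omega)
  rw [h4, hb] at h3
  exact absurd h3 (by simp)

open scoped Classical in
/-- all forced mistakes at scales > k0 are sparse -/
lemma large_scale (c : ℕ → Bool) (k0 T : ℕ) :
    (cnt (fun i => ∃ k, k0 < k ∧ i ∈ DD k c) T : ℝ) ≤ 2 * T / 2 ^ k0 := by
  have h1 : cnt (fun i => ∃ k, k0 < k ∧ i ∈ DD k c) T ≤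
      ∑ k ∈ Finset.Ico (k0 + 1) (k0 + 1 + T),
        ((Finset.range T).filter (fun i => i ∈ DD k c)).card := by
    refine le_trans (cnt_le_card (s := (Finset.Ico (k0 + 1) (k0 + 1 + T)).biUnion
        (fun k => (Finset.range T).filter (fun i => i ∈ DD k c))) ?_) Finset.card_biUnion_le
    rintro i hiT ⟨k, hk, hD⟩
    simp only [Finset.mem_biUnion, Finset.mem_Ico, Finset.mem_filter, Finset.mem_range]
    refine ⟨k, ⟨by omega, ?_⟩, hiT, hD⟩
    obtain ⟨a, ha, -, h1, h2⟩ := hD
    have : k < 4 ^ k := Nat.lt_pow_self (by norm_num)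
    omega
  have h2 : ∀ k, (((Finset.range T).filter (fun i => i ∈ DD k c)).card : ℝ) ≤ 2 * T * (1 / 2) ^ k := by
    intro k
    have := card_DD k c T
    have h3 : (((Finset.range T).filter (fun i => i ∈ DD k c)).card : ℝ) * 2 ^ k ≤ 2 * T := by
      exact_mod_cast this
    rw [one_div, inv_pow, ← div_eq_mul_inv, le_div_iff₀ (by positivity)]
    exact h3
  calc (cnt (fun i => ∃ k, k0 < k ∧ i ∈ DD k c) T : ℝ)
      ≤ ∑ k ∈ Finset.Ico (k0 + 1) (k0 + 1 + T),
        (((Finset.range T).filter (fun i => i ∈ DD k c)).card : ℝ) := by exact_mod_cast h1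
    _ ≤ ∑ k ∈ Finset.Ico (k0 + 1) (k0 + 1 + T), 2 * T * (1 / 2 : ℝ) ^ k :=
        Finset.sum_le_sum fun k _ => h2 k
    _ = 2 * T * ∑ k ∈ Finset.Ico (k0 + 1) (k0 + 1 + T), (1 / 2 : ℝ) ^ k := by
        rw [Finset.mul_sum]
    _ ≤ 2 * T * (1 / 2 ^ k0) := by
        gcongr
        rw [geom_sum_Ico (by norm_num) (by omega)]
        have e1 : (1 / 2 : ℝ) ^ (k0 + 1) = (1 / 2) ^ k0 / 2 := by ring
        have e2 : (0 : ℝ) ≤ (1 / 2 : ℝ) ^ (k0 + 1 + T) := by positivity
        have e3 : (1 : ℝ) / 2 ^ k0 = (1 / 2) ^ k0 := by rw [one_div_pow]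
        rw [e3]
        rw [div_le_iff_of_neg (by norm_num)]
        rw [e1]
        linarith
    _ = 2 * T / 2 ^ k0 := by ring


/-- the shadowing point -/
noncomputable def shadowPt (x : ℕ → XX) : Cfg := by
  classical
  exact fun i => ((sym x i).1, (sym x i).2 || decide (∃ k, i ∈ DD k (colseq x)))

lemma colr_shadowPt (x : ℕ → XX) : colr (shadowPt x) = colseq x := by
  funext i
  simp [colr, shadowPt, colseq]

lemma shadowPt_mem (x : ℕ → XX) : shadowPt x ∈ XX := by
  classical
  intro k a ha hsp i h1 h2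
  rw [colr_shadowPt] at hsp
  simp only [shadowPt, Bool.or_eq_true, decide_eq_true_eq]
  right
  exact ⟨k, a, ha, hsp, h1, h2⟩

/-- changed symbols -/
def Chg (x : ℕ → XX) (i : ℕ) : Prop := shadowPt x i ≠ sym x i

lemma chg_imp (x : ℕ → XX) (i : ℕ) (h : Chg x i) :
    (sym x i).2 = false ∧ ∃ k, i ∈ DD k (colseq x) := by
  classical
  unfold Chg at h
  by_contra hcon
  apply h
  apply Prod.ext
  · simp [shadowPt]
  · simp only [shadowPt]
    by_cases hb : (sym x i).2 = true
    · simp [hb]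
    · have hb' : (sym x i).2 = false := by simpa using hb
      have : ¬ ∃ k, i ∈ DD k (colseq x) := fun h' => hcon ⟨hb', h'⟩
      simp [this, hb']

/-- The constant of the main estimate. -/
def CC (L k0 : ℕ) : ℕ :=
  L + (4 ^ k0 + 2 ^ (2 * k0 + 2)) + L * 2 ^ L +
    L * (4 ^ k0 + 2 ^ (2 * k0 + 2)) *
      ((4 ^ k0 + 2 ^ (2 * k0 + 2)) * 2 ^ (4 ^ k0 + 2 ^ (2 * k0 + 2)))

/-- The main estimate. -/
lemma main_estimate (x : ℕ → XX) (L k0 : ℕ) : ∀ n : ℕ,
    ∑ i ∈ Finset.range n, dist (F^[i] ⟨shadowPt x, shadowPt_mem x⟩) (x i) ≤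
      n * (1 / 2) ^ L + L * (2 * (n + L : ℕ) / 2 ^ k0) +
        CC L k0 * ∑ j ∈ Finset.range (n + CC L k0), dist (F (x j)) (x (j + 1)) := by
  classical
  set S : ℕ → ℝ := fun T => ∑ j ∈ Finset.range T, dist (F (x j)) (x (j + 1)) with hS
  have hSmono : ∀ {a b : ℕ}, a ≤ b → S a ≤ S b := by
    intro a b hab
    exact Finset.sum_le_sum_of_subset_of_nonneg (Finset.range_subset_range.2 hab)
      (fun _ _ _ => dist_nonneg)
  have hSnn : ∀ a, 0 ≤ S a := fun a => Finset.sum_nonneg fun _ _ => dist_nonneg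
  set L' := 4 ^ k0 + 2 ^ (2 * k0 + 2) with hL'
  have pos1 : 0 < 4 ^ k0 := by positivity
  have pos2 : 0 < 2 ^ (2 * k0 + 2) := by positivity
  -- pointwise bound
  have hpt : ∀ i, dist (F^[i] ⟨shadowPt x, shadowPt_mem x⟩) (x i) ≤
      (1 / 2) ^ L + (if (Bad x L i ∨ ∃ l, l < L ∧ Chg x (i + l)) then (1 : ℝ) else 0) := by
    intro i
    by_cases h : Bad x L i ∨ ∃ l, l < L ∧ Chg x (i + l)
    · rw [if_pos h]
      have := dist_le_one' (F^[i] ⟨shadowPt x, shadowPt_mem x⟩) (x i)
      have h2 : (0 : ℝ) ≤ (1 / 2) ^ L := by positivity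
      linarith
    · rw [if_neg h, add_zero]
      apply dist_le_of_agree
      intro l hl
      rw [F_iter]
      simp only
      push Not at h
      have h1 : ¬ Bad x L i := h.1
      unfold Bad at h1
      push Not at h1
      have h2 := h.2 l hl
      unfold Chg at h2
      push Not at h2
      rw [h1 l hl, ← h2]
      congr 1
      ring
  have hcard : ∀ n, ∑ i ∈ Finset.range n,
      (if (Bad x L i ∨ ∃ l, l < L ∧ Chg x (i + l)) then (1 : ℝ) else 0) ≤
      cnt (Bad x L) n + L * cnt (Chg x) (n + L) := by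
    intro n
    rw [Finset.sum_ite]
    simp only [Finset.sum_const, nsmul_eq_mul, mul_one, mul_zero, add_zero]
    have h1 : ((Finset.range n).filter
        (fun i => Bad x L i ∨ ∃ l, l < L ∧ Chg x (i + l))).card ≤
        cnt (Bad x L) n + L * cnt (Chg x) (n + L) := by
      refine le_trans ?_ ((cnt_or (Bad x L) (fun i => ∃ l, l < L ∧ Chg x (i + l)) n).trans
        (Nat.add_le_add_left (cnt_exists_add _ _ _) _))
      unfold cnt
      apply le_of_eq
      congr!
    exact_mod_cast h1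
  have hchg : ∀ T, (cnt (Chg x) T : ℝ) ≤ L' * cnt (Bad x L') T + 2 * T / 2 ^ k0 := by
    intro T
    have h1 : cnt (Chg x) T ≤ cnt (fun i => (∃ j, j ≤ i ∧ i < j + L' ∧ Bad x L' j) ∨
        ∃ k, k0 < k ∧ i ∈ DD k (colseq x)) T := by
      apply cnt_mono _ le_rfl
      intro i hi
      obtain ⟨hb, k, hk⟩ := chg_imp x i hi
      by_cases hk0 : k0 < k
      · right
        exact ⟨k, hk0, hk⟩
      · left
        apply small_scale x k L' i _ hk hb
        rw [hL']
        have e1 : 4 ^ k ≤ 4 ^ k0 := Nat.pow_le_pow_right (by norm_num) (by omega)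
        have e2 : 2 ^ (2 * k + 2) ≤ 2 ^ (2 * k0 + 2) :=
          Nat.pow_le_pow_right (by norm_num) (by omega)
        omega
    have h2 := h1.trans (cnt_or _ _ _)
    have h3 := cnt_exists_sub (Bad x L') L' T
    have h4 := large_scale (colseq x) k0 T
    have h5 : (cnt (Chg x) T : ℝ) ≤
        (cnt (fun i => (∃ j, j ≤ i ∧ i < j + L' ∧ Bad x L' j)) T : ℝ) +
        (cnt (fun i => ∃ k, k0 < k ∧ i ∈ DD k (colseq x)) T : ℝ) := by exact_mod_cast h2
    have h6 : (cnt (fun i => (∃ j, j ≤ i ∧ i < j + L' ∧ Bad x L' j)) T : ℝ) ≤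
        L' * cnt (Bad x L') T := by exact_mod_cast h3
    linarith
  intro n
  have hC : CC L k0 = L + L' + L * 2 ^ L + L * L' * (L' * 2 ^ L') := rfl
  set C := CC L k0
  have hLC : L + L' ≤ C := by rw [hC]; omega
  have b1 : (cnt (Bad x L) n : ℝ) ≤ L * 2 ^ L * S (n + C) := by
    refine (cnt_bad_le x L n).trans ?_
    have := hSmono (a := n + L) (b := n + C) (by omega)
    gcongr
  have b2 : (cnt (Bad x L') (n + L) : ℝ) ≤ L' * 2 ^ L' * S (n + C) := by
    refine (cnt_bad_le x L' (n + L)).trans ?_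
    have := hSmono (a := n + L + L') (b := n + C) (by omega)
    gcongr
  calc ∑ i ∈ Finset.range n, dist (F^[i] ⟨shadowPt x, shadowPt_mem x⟩) (x i)
      ≤ ∑ i ∈ Finset.range n, ((1 / 2) ^ L +
          (if (Bad x L i ∨ ∃ l, l < L ∧ Chg x (i + l)) then (1 : ℝ) else 0)) :=
        Finset.sum_le_sum fun i _ => hpt i
    _ = n * (1 / 2) ^ L + ∑ i ∈ Finset.range n,
          (if (Bad x L i ∨ ∃ l, l < L ∧ Chg x (i + l)) then (1 : ℝ) else 0) := by
        rw [Finset.sum_add_distrib]
        simp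
    _ ≤ n * (1 / 2) ^ L + (cnt (Bad x L) n + L * cnt (Chg x) (n + L)) := by
        gcongr
        exact hcard n
    _ ≤ n * (1 / 2) ^ L + (L * 2 ^ L * S (n + C) +
          L * (L' * (L' * 2 ^ L' * S (n + C)) + 2 * (n + L : ℕ) / 2 ^ k0)) := by
        gcongr
        refine (hchg (n + L)).trans ?_
        gcongr
    _ = n * (1 / 2) ^ L + L * (2 * (n + L : ℕ) / 2 ^ k0) +
          ((L * 2 ^ L + L * L' * (L' * 2 ^ L') : ℕ) : ℝ) * S (n + C) := by
        push_cast
        ring
    _ ≤ n * (1 / 2) ^ L + L * (2 * (n + L : ℕ) / 2 ^ k0) + (C : ℝ) * S (n + C) := by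
        have : ((L * 2 ^ L + L * L' * (L' * 2 ^ L') : ℕ) : ℝ) ≤ (C : ℝ) := by
          exact_mod_cast (by rw [hC]; omega)
        have h0 := hSnn (n + C)
        gcongr


/-- averaged form of the main estimate -/
lemma main_avg (L k0 : ℕ) : ∃ C : ℕ, ∀ (x : ℕ → XX) (n : ℕ), 1 ≤ n →
    (1 / (n : ℝ)) * ∑ i ∈ Finset.range n, dist (F^[i] ⟨shadowPt x, shadowPt_mem x⟩) (x i) ≤
      (1 / 2) ^ L + L * (2 * (1 + L / n) / 2 ^ k0) +
        C * (1 + C / n) * ((1 / ((n + C : ℕ) : ℝ)) *
          ∑ j ∈ Finset.range (n + C), dist (F (x j)) (x (j + 1))) := by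
  refine ⟨CC L k0, fun x n hn => ?_⟩
  have hC := main_estimate x L k0
  set C := CC L k0
  have hn' : (0 : ℝ) < n := by exact_mod_cast hn
  have hnC : (0 : ℝ) < (n : ℝ) + C := by positivity
  have h := hC n
  have h2 : (1 / (n : ℝ)) * ∑ i ∈ Finset.range n,
      dist (F^[i] ⟨shadowPt x, shadowPt_mem x⟩) (x i) ≤ (1 / (n : ℝ)) *
      (n * (1 / 2) ^ L + L * (2 * (n + L : ℕ) / 2 ^ k0) +
        C * ∑ j ∈ Finset.range (n + C), dist (F (x j)) (x (j + 1))) := by
    gcongr
  refine h2.trans (le_of_eq ?_)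
  push_cast
  field_simp

/-- uniform version: the average tracing error is at most `ε / 2` plus a multiple of the average
error of the pseudo-orbit -/
lemma main_eps (ε : ℝ) (hε : 0 < ε) : ∃ C K N : ℕ, ∀ (x : ℕ → XX) (n : ℕ), N ≤ n →
    (1 / (n : ℝ)) * ∑ i ∈ Finset.range n, dist (F^[i] ⟨shadowPt x, shadowPt_mem x⟩) (x i) ≤
      ε / 2 + K * ((1 / ((n + C : ℕ) : ℝ)) *
          ∑ j ∈ Finset.range (n + C), dist (F (x j)) (x (j + 1))) := by
  obtain ⟨L, hL⟩ := exists_pow_lt_of_lt_one (show (0 : ℝ) < ε / 4 by linarith)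
    (show (1 / 2 : ℝ) < 1 by norm_num)
  obtain ⟨k0, hk0⟩ := exists_pow_lt_of_lt_one
    (show (0 : ℝ) < ε / (16 * (L + 1)) by positivity) (show (1 / 2 : ℝ) < 1 by norm_num)
  obtain ⟨C, hC⟩ := main_avg L k0
  refine ⟨C, 2 * C, max 1 (max L C), fun x n hn => ?_⟩
  have hn1 : 1 ≤ n := le_trans (le_max_left _ _) hn
  have hnL : L ≤ n := le_trans (le_trans (le_max_left _ _) (le_max_right _ _)) hn
  have hnC : C ≤ n := le_trans (le_trans (le_max_right _ _) (le_max_right _ _)) hn
  have hn' : (0 : ℝ) < n := by exact_mod_cast hn1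
  have h1 := hC x n hn1
  have hLn : (L : ℝ) / n ≤ 1 := (div_le_one hn').2 (by exact_mod_cast hnL)
  have hCn : (C : ℝ) / n ≤ 1 := (div_le_one hn').2 (by exact_mod_cast hnC)
  have h4 : (L : ℝ) * (2 * (1 + L / n) / 2 ^ k0) ≤ ε / 4 := by
    have e1 : (L : ℝ) * (2 * (1 + L / n) / 2 ^ k0) ≤ L * (2 * (1 + 1) / 2 ^ k0) := by gcongr
    have e2 : (L : ℝ) * (2 * (1 + 1) / 2 ^ k0) = 4 * L * (1 / 2) ^ k0 := by
      rw [one_div, inv_pow]; ring
    have e3 : 4 * (L : ℝ) * (1 / 2) ^ k0 ≤ 4 * L * (ε / (16 * (L + 1))) := by gcongr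
    have e4 : 4 * (L : ℝ) * (ε / (16 * (L + 1))) ≤ ε / 4 := by
      rw [show 4 * (L : ℝ) * (ε / (16 * (L + 1))) = (ε / 4) * (L / (L + 1)) by
        field_simp; ring]
      have : (L : ℝ) / (L + 1) ≤ 1 := (div_le_one (by positivity)).2 (by linarith)
      nlinarith
    linarith
  have h5 : (C : ℝ) * (1 + C / n) * ((1 / ((n + C : ℕ) : ℝ)) *
      ∑ j ∈ Finset.range (n + C), dist (F (x j)) (x (j + 1))) ≤
      ((2 * C : ℕ) : ℝ) * ((1 / ((n + C : ℕ) : ℝ)) *
      ∑ j ∈ Finset.range (n + C), dist (F (x j)) (x (j + 1))) := by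
    have e1 : (C : ℝ) * (1 + C / n) ≤ ((2 * C : ℕ) : ℝ) := by
      have : (C : ℝ) * (1 + C / n) ≤ C * (1 + 1) := by gcongr
      push_cast
      linarith
    gcongr
  linarith

lemma hasAASP_F : HasAASP F := by
  intro x hx
  refine ⟨⟨shadowPt x, shadowPt_mem x⟩, ?_⟩
  rw [Metric.tendsto_atTop]
  intro ε hε
  obtain ⟨C, K, N, hC⟩ := main_eps ε hε
  have hx2 : Tendsto (fun n : ℕ => (1 / ((n + C : ℕ) : ℝ)) *
      ∑ j ∈ Finset.range (n + C), dist (F (x j)) (x (j + 1))) atTop (𝓝 0) :=
    hx.comp (tendsto_add_atTop_nat C)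
  rw [Metric.tendsto_atTop] at hx2
  obtain ⟨N', hN'⟩ := hx2 (ε / (4 * (K + 1))) (by positivity)
  refine ⟨max N N', fun n hn => ?_⟩
  have h1 := hC x n (le_trans (le_max_left _ _) hn)
  have h2 := hN' n (le_trans (le_max_right _ _) hn)
  rw [Real.dist_eq, sub_zero] at h2 ⊢
  have h3 := (abs_lt.1 h2).2
  rw [abs_of_nonneg (by positivity)]
  have e2 : (K : ℝ) * ((1 / ((n + C : ℕ) : ℝ)) *
      ∑ j ∈ Finset.range (n + C), dist (F (x j)) (x (j + 1))) ≤
        (K + 1) * (ε / (4 * (K + 1))) := by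
    apply mul_le_mul (by linarith) h3.le (by positivity) (by positivity)
  have e3 : ((K : ℝ) + 1) * (ε / (4 * (K + 1))) = ε / 4 := by
    field_simp
  linarith

lemma hasASP_F : HasASP F := by
  intro ε hε
  obtain ⟨C, K, N, hC⟩ := main_eps ε hε
  refine ⟨ε / (4 * (K + 1)), by positivity, fun x hx => ?_⟩
  obtain ⟨N', hN'⟩ := hx
  refine ⟨⟨shadowPt x, shadowPt_mem x⟩, ?_⟩
  have hev : ∀ᶠ n : ℕ in atTop, (1 / (n : ℝ)) * ∑ i ∈ Finset.range n,
      dist (F^[i] ⟨shadowPt x, shadowPt_mem x⟩) (x i) ≤ 3 * ε / 4 := by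
    filter_upwards [eventually_ge_atTop (max N N')] with n hn
    have h1 := hC x n (le_trans (le_max_left _ _) hn)
    have h3 := hN' (n + C) 0 (le_trans (le_trans (le_max_right _ _) hn) (Nat.le_add_right _ _))
    simp only [add_zero] at h3
    have e2 : (K : ℝ) * ((1 / ((n + C : ℕ) : ℝ)) *
        ∑ j ∈ Finset.range (n + C), dist (F (x j)) (x (j + 1))) ≤
          (K + 1) * (ε / (4 * (K + 1))) := by
      apply mul_le_mul (by linarith) h3.le (by positivity) (by positivity)
    have e3 : ((K : ℝ) + 1) * (ε / (4 * (K + 1))) = ε / 4 := by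
      field_simp
    linarith
  have hle : Filter.limsup (fun n : ℕ => (1 / (n : ℝ)) * ∑ i ∈ Finset.range n,
      dist (F^[i] ⟨shadowPt x, shadowPt_mem x⟩) (x i)) atTop ≤ 3 * ε / 4 := by
    refine Filter.limsup_le_of_le ?_ hev
    refine Filter.isCoboundedUnder_le_of_le atTop (x := 0) ?_
    intro n
    positivity
  unfold AvgShadows
  linarith

/-! the restriction fails -/

/-- constant configurations without mistakes -/
def cst (v : Bool) : Cfg := fun _ => (v, false)

lemma cst_mem_AA (v : Bool) : cst v ∈ AA := by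
  intro k a hsp
  exfalso
  -- one of the scales k, k+1 has the wrong colour
  have key : ∀ j, k ≤ j → j ≤ 2 * k + 1 → v ≠ col j → False := by
    intro j h1 h2 hv
    have h3 := hsp j h1 h2
    have h4 : exc (colr (cst v)) (col j) (a + 2 ^ j) (a + 2 ^ (j + 1)) =
        Finset.Ico (a + 2 ^ j) (a + 2 ^ (j + 1)) := by
      unfold exc
      apply Finset.filter_true_of_mem
      intro i _
      exact hv
    rw [h4, Nat.card_Ico] at h3
    have p1 : 2 ^ (j + 1) = 2 * 2 ^ j := by ring
    have p2 : 0 < 2 ^ j := by positivity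
    omega
  by_cases hv : v = col k
  · apply key (k + 1) (by omega) (by omega)
    rw [hv]
    exact (col_succ k).symm
  · exact key k le_rfl (by omega) hv

lemma AA_subset_XX : AA ⊆ XX := fun _ h k a _ => h k a

def cstX (v : Bool) : XX := ⟨cst v, AA_subset_XX (cst_mem_AA v)⟩

lemma F_cstX (v : Bool) : F (cstX v) = cstX v := rfl

section MC

variable {X : Type*} [MetricSpace X]

lemma fixed_mem_measureCenter (f : X → X) (hf : Continuous f) (x : X) (hx : f x = x) :
    x ∈ measureCenter f := by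
  let _ : MeasurableSpace X := borel X
  have _ : BorelSpace X := ⟨rfl⟩
  intro hmem
  obtain ⟨U, ⟨hU, hnull⟩, hxU⟩ := hmem
  have h1 : (Measure.dirac x) U = 0 := by
    refine hnull (Measure.dirac x) inferInstance ?_
    refine ⟨hf.measurable, ?_⟩
    rw [Measure.map_dirac' hf.measurable, hx]
  rw [Measure.dirac_apply' x hU.measurableSet] at h1
  simp [hxU] at h1

lemma mapsTo_measureCenter (f : X → X) (hf : Continuous f) :
    Set.MapsTo f (measureCenter f) (measureCenter f) := by
  let _ : MeasurableSpace X := borel X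
  have _ : BorelSpace X := ⟨rfl⟩
  intro x hx hmem
  obtain ⟨U, ⟨hU, hnull⟩, hxU⟩ := hmem
  apply hx
  refine ⟨f ⁻¹' U, ⟨hU.preimage hf, ?_⟩, hxU⟩
  intro μ hμ hinv
  have h1 := hinv.measure_preimage (s := U) hU.measurableSet.nullMeasurableSet
  rw [h1]
  exact hnull μ hμ hinv

end MC

lemma measureCenter_F_subset (x : XX) (hx : x ∈ measureCenter F) : x.1 ∈ AA := by
  let _ : MeasurableSpace XX := borel XX
  have _ : BorelSpace XX := ⟨rfl⟩
  intro k a
  by_contra hreq
  apply hx
  refine ⟨{y : XX | ¬ Req k a y.1}, ⟨?_, ?_⟩, hreq⟩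
  · exact (isOpen_not_req k a).preimage continuous_subtype_val
  · intro μ hμ hinv
    have hiter := hinv.iterate (4 ^ k)
    have hms : MeasurableSet {y : XX | ¬ Req k a y.1} :=
      ((isOpen_not_req k a).preimage continuous_subtype_val).measurableSet
    have h1 := hiter.measure_preimage (s := {y : XX | ¬ Req k a y.1}) hms.nullMeasurableSet
    rw [← h1]
    have : F^[4 ^ k] ⁻¹' {y : XX | ¬ Req k a y.1} = ∅ := by
      apply Set.eq_empty_of_forall_notMem
      intro y hy
      apply hy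
      rw [F_iter, req_shift]
      exact y.2 k (a + 4 ^ k) (Nat.le_add_left _ _)
    rw [this]
    exact measure_empty


/-- the bad pseudo-orbit: colour changes at powers of two -/
def po (i : ℕ) : XX := cstX (col (Nat.log 2 i))

lemma po_step (i : ℕ) : dist (F (po i)) (po (i + 1)) ≤
    ((Nat.log 2 (i + 1) : ℝ) - (Nat.log 2 i : ℝ)) := by
  have hmono : Nat.log 2 i ≤ Nat.log 2 (i + 1) := Nat.log_mono_right (by omega)
  unfold po
  rw [F_cstX]
  by_cases h : Nat.log 2 (i + 1) = Nat.log 2 i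
  · rw [h, dist_self, sub_self]
  · have h2 : (Nat.log 2 i : ℝ) + 1 ≤ (Nat.log 2 (i + 1) : ℝ) := by exact_mod_cast (by omega)
    have := dist_le_one' (cstX (col (Nat.log 2 i))) (cstX (col (Nat.log 2 (i + 1))))
    linarith

lemma po_sum (n k : ℕ) : ∑ i ∈ Finset.range n, dist (F (po (i + k))) (po (i + k + 1)) ≤
    1 + (Nat.log 2 n : ℝ) := by
  have h1 : ∑ i ∈ Finset.range n, dist (F (po (i + k))) (po (i + k + 1)) ≤
      ∑ i ∈ Finset.range n, ((Nat.log 2 (i + 1 + k) : ℝ) - (Nat.log 2 (i + k) : ℝ)) := by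
    apply Finset.sum_le_sum
    intro i _
    have := po_step (i + k)
    rw [show i + 1 + k = i + k + 1 by ring]
    exact this
  rw [Finset.sum_range_sub (fun i => (Nat.log 2 (i + k) : ℝ))] at h1
  refine h1.trans ?_
  simp only [zero_add]
  have h2 : Nat.log 2 (n + k) ≤ 1 + max (Nat.log 2 n) (Nat.log 2 k) := by
    by_cases h0 : n + k = 0
    · simp [h0]
    · have hmax : n + k ≤ 2 * max n k := by
        have := le_max_left n k
        have := le_max_right n k
        omega
      have hmaxpos : max n k ≠ 0 := by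
        have := le_max_left n k
        have := le_max_right n k
        omega
      calc Nat.log 2 (n + k) ≤ Nat.log 2 (2 * max n k) := Nat.log_mono_right hmax
        _ = Nat.log 2 (max n k) + 1 := by
          rw [mul_comm, Nat.log_mul_base (by norm_num) hmaxpos]
        _ ≤ 1 + max (Nat.log 2 n) (Nat.log 2 k) := by
          rcases max_choice n k with h | h <;> rw [h]
          · have := le_max_left (Nat.log 2 n) (Nat.log 2 k); omega
          · have := le_max_right (Nat.log 2 n) (Nat.log 2 k); omega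
  have h3 : Nat.log 2 (n + k) ≤ 1 + Nat.log 2 n + Nat.log 2 k := by
    have := max_le_add_of_nonneg (Nat.zero_le (Nat.log 2 n)) (Nat.zero_le (Nat.log 2 k))
    omega
  have h4 : (Nat.log 2 (n + k) : ℝ) ≤ 1 + Nat.log 2 n + Nat.log 2 k := by exact_mod_cast h3
  linarith

lemma tendsto_log_div : Tendsto (fun n : ℕ => (1 + (Nat.log 2 n : ℝ)) / n) atTop (𝓝 0) := by
  have h1 : Tendsto (fun n : ℕ => (1 : ℝ) / n) atTop (𝓝 0) := tendsto_one_div_atTop_nhds_zero_nat
  have h2 : Tendsto (fun n : ℕ => Real.log n / n) atTop (𝓝 0) := by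
    have := Real.isLittleO_log_id_atTop.tendsto_div_nhds_zero.comp tendsto_natCast_atTop_atTop
    simpa [Function.comp_def] using this
  have h3 : Tendsto (fun n : ℕ => (1 : ℝ) / n + (Real.log n / n) / Real.log 2) atTop (𝓝 0) := by
    simpa using h1.add (h2.div_const (Real.log 2))
  refine squeeze_zero (fun n => by positivity) (fun n => ?_) h3
  rw [add_div]
  have h4 : (Nat.log 2 n : ℝ) ≤ Real.log n / Real.log 2 := by
    rcases Nat.eq_zero_or_pos n with rfl | hn
    · simp
    · rw [le_div_iff₀ (Real.log_pos (by norm_num)), ← Real.log_pow]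
      apply Real.log_le_log (by positivity)
      have := Nat.pow_log_le_self 2 (show n ≠ 0 by omega)
      exact_mod_cast this
  have h5 : (Nat.log 2 n : ℝ) / n ≤ (Real.log n / n) / Real.log 2 := by
    rw [div_right_comm]
    gcongr
  linarith

lemma po_small (δ : ℝ) (hδ : 0 < δ) : ∃ N : ℕ, ∀ n k : ℕ, N ≤ n →
    (1 / (n : ℝ)) * ∑ i ∈ Finset.range n, dist (F (po (i + k))) (po (i + k + 1)) < δ := by
  obtain ⟨N, hN⟩ := (Metric.tendsto_atTop.1 tendsto_log_div) δ hδ
  refine ⟨N, fun n k hn => ?_⟩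
  have h1 := hN n hn
  rw [Real.dist_eq, sub_zero, abs_of_nonneg (by positivity)] at h1
  have h2 := po_sum n k
  calc (1 / (n : ℝ)) * ∑ i ∈ Finset.range n, dist (F (po (i + k))) (po (i + k + 1))
      ≤ (1 / (n : ℝ)) * (1 + (Nat.log 2 n : ℝ)) := by gcongr
    _ = (1 + (Nat.log 2 n : ℝ)) / n := by ring
    _ < δ := h1

lemma one_le_dist (x y : XX) (h : x.1 0 ≠ y.1 0) : 1 ≤ dist x y := by
  by_contra hcon
  push Not at hcon
  rw [Subtype.dist_eq] at hcon
  exact h (PiNat.apply_eq_of_dist_lt (n := 0) (by simpa using hcon) le_rfl)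

lemma po_not_shadowed (y : XX) (hy : y.1 ∈ AA) :
    ¬ ∀ᶠ n : ℕ in atTop, (1 / (n : ℝ)) * ∑ i ∈ Finset.range n, dist (F^[i] y) (po i) < 1 / 16 := by
  classical
  intro hev
  rw [eventually_atTop] at hev
  obtain ⟨N, hN⟩ := hev
  -- work at scales k ≥ N
  have hpowN : ∀ k, N ≤ k → N ≤ 2 ^ k := fun k hk => hk.trans Nat.lt_two_pow_self.le
  -- number of mistakes below 2^j
  have hcount : ∀ j, N ≤ j → ∀ P : ℕ → Prop,
      (∀ i, P i → i < 2 ^ j → y.1 i ≠ (col (Nat.log 2 i), false)) →
      16 * cnt P (2 ^ j) < 2 ^ j := by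
    intro j hj P hP
    have h1 := hN (2 ^ j) (hpowN j hj)
    have h2 : (cnt P (2 ^ j) : ℝ) ≤ ∑ i ∈ Finset.range (2 ^ j), dist (F^[i] y) (po i) := by
      unfold cnt
      have : (((Finset.range (2 ^ j)).filter P).card : ℝ) =
          ∑ i ∈ (Finset.range (2 ^ j)).filter P, (1 : ℝ) := by simp
      rw [this]
      refine (Finset.sum_le_sum ?_).trans (Finset.sum_le_sum_of_subset_of_nonneg
        (Finset.filter_subset _ _) (fun _ _ _ => dist_nonneg))
      intro i hi
      simp only [Finset.mem_filter, Finset.mem_range] at hi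
      apply one_le_dist
      rw [F_iter]
      simp only [zero_add]
      exact hP i hi.2 hi.1
    have hpos : (0 : ℝ) < ((2 ^ j : ℕ) : ℝ) := by positivity
    rw [one_div, inv_mul_lt_iff₀ hpos] at h1
    have h3 : (16 * cnt P (2 ^ j) : ℝ) < ((2 ^ j : ℕ) : ℝ) := by linarith
    exact_mod_cast h3
  -- special pattern at 0 of scale k for k ≥ N
  have hsp : ∀ k, N ≤ k → Special k 0 (colr y.1) := by
    intro k hk j h1 h2
    have h3 := hcount (j + 1) (by omega)
      (fun i => 2 ^ j ≤ i ∧ i < 2 ^ (j + 1) ∧ colr y.1 i ≠ col j) (by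
        rintro i ⟨hi1, hi2, hi3⟩ _ heq
        apply hi3
        have hlog : Nat.log 2 i = j := Nat.log_eq_of_pow_le_of_lt_pow hi1 hi2
        rw [hlog] at heq
        simp [colr, heq])
    have h4 : (exc (colr y.1) (col j) (0 + 2 ^ j) (0 + 2 ^ (j + 1))).card ≤
        cnt (fun i => 2 ^ j ≤ i ∧ i < 2 ^ (j + 1) ∧ colr y.1 i ≠ col j) (2 ^ (j + 1)) := by
      unfold exc cnt
      apply Finset.card_le_card
      intro i hi
      simp only [Finset.mem_filter, Finset.mem_Ico, Finset.mem_range, zero_add] at hi ⊢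
      exact ⟨hi.1.2, hi.1.1, hi.1.2, hi.2⟩
    have p1 : 2 ^ (j + 1) = 2 * 2 ^ j := by ring
    omega
  -- so everything below 2^N is a mistake
  have h5 := hcount N le_rfl (fun _ => True) (by
    intro i _ hi heq
    have h6 := hy N 0 (hsp N le_rfl) i (Nat.zero_le _) (by omega)
    rw [heq] at h6
    exact absurd h6 (by simp))
  have h7 : cnt (fun _ => True) (2 ^ N) = 2 ^ N := by
    unfold cnt
    simp
  rw [h7] at h5
  have : 0 < 2 ^ N := by positivity
  omega

/-- the restriction of `F` to its measure center -/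
def FM : measureCenter F → measureCenter F :=
  (mapsTo_measureCenter F continuous_F).restrict F (measureCenter F) (measureCenter F)

def poM (i : ℕ) : measureCenter F :=
  ⟨po i, fixed_mem_measureCenter F continuous_F _ (F_cstX _)⟩

lemma FM_iter (i : ℕ) (y : measureCenter F) : ((FM^[i] y : measureCenter F) : XX) = F^[i] y := by
  induction i with
  | zero => rfl
  | succ n ih =>
    rw [Function.iterate_succ_apply', Function.iterate_succ_apply', ← ih]
    rfl

lemma not_ev (y : measureCenter F) :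
    ¬ ∀ᶠ n : ℕ in atTop, (1 / (n : ℝ)) * ∑ i ∈ Finset.range n, dist (FM^[i] y) (poM i) < 1 / 16 := by
  have h := po_not_shadowed y.1 (measureCenter_F_subset y.1 y.2)
  have e : ∀ i, dist (FM^[i] y) (poM i) = dist (F^[i] y.1) (po i) := by
    intro i
    rw [Subtype.dist_eq, FM_iter]
    rfl
  simpa only [e] using h

lemma poM_step (i : ℕ) : dist (FM (poM i)) (poM (i + 1)) = dist (F (po i)) (po (i + 1)) := rfl

lemma not_hasASP_FM : ¬ HasASP FM := by
  intro h
  obtain ⟨δ, hδ, h⟩ := h (1 / 16) (by norm_num)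
  obtain ⟨y, hy⟩ := h poM (by
    obtain ⟨N, hN⟩ := po_small δ hδ
    exact ⟨N, fun n k hn => hN n k hn⟩)
  apply not_ev y
  refine Filter.eventually_lt_of_limsup_lt hy ?_
  refine Filter.isBoundedUnder_of ⟨1, fun n => ?_⟩
  rcases Nat.eq_zero_or_pos n with rfl | hn
  · simp
  · have hn' : (0 : ℝ) < n := by exact_mod_cast hn
    rw [one_div, inv_mul_le_iff₀ hn']
    refine (Finset.sum_le_sum (fun i _ => ?_)).trans (b := ∑ i ∈ Finset.range n, (1 : ℝ)) ?_
    · rw [Subtype.dist_eq]
      exact dist_le_one' _ _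
    · simp

lemma not_hasAASP_FM : ¬ HasAASP FM := by
  intro h
  obtain ⟨y, hy⟩ := h poM (by
    rw [Metric.tendsto_atTop]
    intro ε hε
    obtain ⟨N, hN⟩ := po_small ε hε
    refine ⟨N, fun n hn => ?_⟩
    have := hN n 0 hn
    rw [Real.dist_eq, sub_zero, abs_of_nonneg (by positivity)]
    exact this)
  apply not_ev y
  exact hy.eventually_lt_const (by norm_num)

theorem counterexample :
    ∃ (X : Type) (_ : MetricSpace X) (_ : CompactSpace X) (f : X → X) (A : Set X)
        (hA : Set.MapsTo f A A),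
      Continuous f ∧ IsClosed A ∧ A = measureCenter f ∧ HasASP f ∧ HasAASP f ∧
        ¬ HasASP (hA.restrict f A A) ∧ ¬ HasAASP (hA.restrict f A A) := by
  refine ⟨XX, inferInstance, inferInstance, F, measureCenter F,
    mapsTo_measureCenter F continuous_F, continuous_F, ?_, rfl, hasASP_F, hasAASP_F,
    not_hasASP_FM, not_hasAASP_FM⟩
  unfold measureCenter
  rw [isClosed_compl_iff]
  exact isOpen_sUnion fun s hs => hs.1

end Pool.Agent.Lib_helper48.Shadowing
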