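import Pool.Agent.Lib_helper19.Collapse

/-! # A theory with one bit of advice per length that proves all reflection sentences -/

namespace Pool.Agent.H19

open T

/-- The number `a` codes a theory of the class, given by a program that halts within its
clock. -/
def GoodIdx (a : ℕ) : Prop :=
  ∃ (c : Code) (κ : ℕ), treeOf (bl a) = T.node c.enc (T.unary κ) ∧ HaltsWithin c κ ∧
    Consistent (theory c κ)

open Classical in
/-- The advice sequence. -/
noncomputable def advB (a : ℕ) : Bool := if GoodIdx a then true else false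

theorem advB_iff (a : ℕ) : advB a = true ↔ GoodIdx a := by
  unfold advB; split_ifs with h <;> simp [h]

theorem advB_zero : advB 0 = false := by
  rw [← Bool.not_eq_true, advB_iff]
  rintro ⟨c, κ, h, _⟩
  rw [bl_zero, treeOf] at h
  simp at h

/-- The reflection sentences of a theory of the class are true. -/
theorem rfn_true_of_consistent {μ : Fm} (hμ : μ.isSigma = true) (hμb : μ.fvBelow 3)
    {P : Code → ℕ → Fm} (hP : IsFormalisation μ P) {c : Code} {κ : ℕ}
    (hcons : Consistent (theory c κ)) (n : ℕ) (v : ℕ → ℕ) :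
    (rfn (P c κ) μ n).sat stdN v := by
  intro u z y e
  simp only [Fm.sat, Tm.val, Tm.numeral_val]
  intro h1 h2 h3 h4 h5
  have h6 : (P c κ).sat stdN (scons e (scons y (scons z (scons u fun _ => 0)))) := by
    refine (Fm.sat_congr_below stdN _ (hP.below c κ) (fun i hi => ?_)).1 h5
    rcases i with _ | _ | _ | _ | i
    · rfl
    · rfl
    · rfl
    · rfl
    · omega
  obtain ⟨π, hu, hπ⟩ := (hP.correct c κ e y z u).1 h6
  have h7 := inst3_sound (fun φ h => Or.inl h) hcons ((Fm.bdd_of μ).1 hμ) ⟨π, hπ⟩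
  refine (Fm.sat_congr_below stdN μ hμb (fun i hi => ?_)).1 h7
  rcases i with _ | _ | _ | i
  · rfl
  · rfl
  · rfl
  · omega

/-- The index whose bit of the advice sequence is used at length `n`. -/
def idxOf (α : ℕ → ℕ) (n : ℕ) : ℕ :=
  if aOf (T.unary n) ≤ α n then aOf (T.unary n) else 0

theorem idxOf_le (α : ℕ → ℕ) (n : ℕ) : idxOf α n ≤ α n := by
  unfold idxOf; split_ifs with h
  · exact h
  · exact Nat.zero_le _

theorem idxOf_polyNat {α : ℕ → ℕ} (hα : PolyNat (fun x => α x.len)) :
    PolyNat (fun x => idxOf α x.len) := by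
  have i := PolyTime.id
  have h1 : PolyNat (fun x : T => aOf (T.unary x.len)) :=
    aOf_polyNat.comp (PolyNat.len i).unary
  refine (PolyTime.ifP (PolyDec.le h1 hα) h1 (PolyTime.const (T.unary 0))).congr fun x => ?_
  simp only [idxOf]
  split_ifs <;> rfl

/-- The additional axiom with code `x`. -/
def psiAt (μ : Fm) (fP : T → T) (x : T) : Fm :=
  rfn (decFm (fP (qOf (T.unary x.size)))) μ (unfalsum x).right.len

/-- The code `x` has the form of an additional axiom. -/
def FormAt (μ : Fm) (fP : T → T) (x : T) : Prop :=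
  (padF (unfalsum x) (psiAt μ fP x)).enc = x

theorem formAt_polyDec (μ : Fm) {fP : T → T} (hfP : PolyTime fP) :
    PolyDec (FormAt μ fP) := by
  have i := PolyTime.id
  have hw : PolyTime unfalsum := uu_polyTime.comp i.right.left.right.left
  have hq : PolyTime (fun x : T => qOf (T.unary x.size)) :=
    qOf_polyTime.comp (PolyNat.size i).unary
  exact PolyDec.eq (padF_polyTime hw (rfn_polyTime μ (hfP.comp hq) (PolyNat.len hw.right))) i

/-- The theory. -/
def advTh (μ : Fm) (fP : T → T) (α : ℕ → ℕ) : Set Fm :=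
  {φ | φ ∈ S12 ∨ (advB (idxOf α φ.enc.size) = true ∧ FormAt μ fP φ.enc)}

theorem advTh_dec (μ : Fm) {fP : T → T} (hfP : PolyTime fP) (α : ℕ → ℕ) :
    ∃ f : T → T, PolyTime f ∧ ∀ φ : Fm, φ ∈ advTh μ fP α ↔
      f (T.node φ.enc (ofBool (advB (idxOf α φ.enc.size)))) ≠ T.leaf := by
  have i := PolyTime.id
  have h : PolyDec (fun z : T => decFm z.left ∈ S12 ∨ (z.right ≠ T.leaf ∧
      FormAt μ fP z.left)) :=
    (S12_polyDec.comp i.left).or ((PolyDec.ne_leaf i.right).and
      ((formAt_polyDec μ hfP).comp i.left))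
  obtain ⟨f, hf, hff⟩ := h
  refine ⟨f, hf, fun φ => ?_⟩
  rw [← hff]
  simp only [T.left_node, T.right_node, decFm_enc, ofBool_ne_leaf]
  rfl

theorem advTh_models {μ : Fm} (hμ : μ.isSigma = true) (hμb : μ.fvBelow 3)
    {P : Code → ℕ → Fm} (hP : IsFormalisation μ P) {fP : T → T}
    (hfPc : ∀ c κ, fP (T.node c.enc (T.unary κ)) = (P c κ).enc) (α : ℕ → ℕ) :
    stdN.Models (advTh μ fP α) := by
  rintro φ (h | ⟨h1, h2⟩) v
  · exact stdN_models φ h v
  · have h3 : aOf (T.unary φ.enc.size) ≤ α φ.enc.size := by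
      by_contra h
      rw [idxOf, if_neg h, advB_zero] at h1
      exact absurd h1 (by simp)
    rw [idxOf, if_pos h3, advB_iff] at h1
    obtain ⟨c, κ, hq, _, hcons⟩ := h1
    have h4 : qOf (T.unary φ.enc.size) = T.node c.enc (T.unary κ) := hq
    have h5 := Fm.enc_inj.1 h2
    rw [← h5]
    intro _
    have h6 : psiAt μ fP φ.enc = rfn (P c κ) μ (unfalsum φ.enc).right.len := by
      rw [psiAt, h4, hfPc, decFm_enc]
    rw [h6]
    exact rfn_true_of_consistent hμ hμb hP hcons _ v

theorem tt_size_eq (v : T) : (tt v).enc.size + 3 = 10 * v.size := by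
  induction v with
  | leaf => simp [tt, Tm.enc, T.size, T.unary]
  | node a b iha ihb => simp only [tt, Tm.enc, T.size, T.size_unary]; omega

theorem lglg_unary_eq {m n : ℕ} (h1 : 2 ^ (2 ^ m) ≤ n) (h2 : n < 2 ^ (2 ^ (m + 1))) :
    lglg (T.unary n) = m := by
  have h3 : 2 ^ m < n.size := by
    by_contra h
    rw [not_lt, Nat.size_le] at h
    omega
  have h4 : n.size ≤ 2 ^ (m + 1) := Nat.size_le.2 h2
  have h5 : lg (T.unary n) = n.size - 1 := by rw [lg, T.len_unary]
  have h6 : m < (n.size - 1).size := by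
    by_contra h
    rw [not_lt, Nat.size_le] at h
    omega
  have h7 : (n.size - 1).size ≤ m + 1 := Nat.size_le.2 (by omega)
  rw [lglg, h5]
  omega

/-- **Main construction.** -/
theorem advTh_universal {μ : Fm} {P : Code → ℕ → Fm} {fP : T → T}
    (hfPc : ∀ c κ, fP (T.node c.enc (T.unary κ)) = (P c κ).enc)
    {α : ℕ → ℕ} (hα : Filter.Tendsto α Filter.atTop Filter.atTop)
    {c : Code} {κ : ℕ} (hc : HaltsWithin c κ) (hcons : Consistent (theory c κ)) :
    ∃ g : T → T, PolyTime g ∧ ∀ n, ∃ π : List Step, g (T.unary n) = encProof π ∧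
      IsProof (advTh μ fP α) π (rfn (P c κ) μ n) := by
  have i := PolyTime.id
  generalize hadef : tc (T.node c.enc (T.unary κ)) = a
  have hgood : advB a = true := by
    rw [advB_iff]
    exact ⟨c, κ, by rw [← hadef, treeOf_tc], hc, hcons⟩
  obtain ⟨n₁, hn₁⟩ := (Filter.tendsto_atTop_atTop.1 hα) a
  -- the bound attached to `n`
  let ρ : T → T := fun x => (rfn (decFm (P c κ).enc) μ x.len).enc
  have hρ : PolyTime ρ := rfn_polyTime μ (PolyTime.const _) (PolyNat.len i)
  let s : ℕ → ℕ := fun n => (rfn (decFm (P c κ).enc) μ n).enc.size + (40 * n + (n₁ + 1000))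
  have hs : PolyNat (fun x : T => s x.len) :=
    (PolyNat.size hρ).add (((PolyNat.const 40).mul (PolyNat.len i)).add (PolyNat.const _))
  let N : ℕ → ℕ := fun n => 2 ^ (2 ^ mIdx a (s n))
  have hm : PolyNat (fun x : T => mIdx a (s x.len)) := by
    have h1 : PolyNat (fun x : T => (s x.len).size.size) :=
      PolyN.size (PolyNat.toN (PolyN.size hs.toN))
    have h2 := (h1.add (PolyNat.const a)).divPow (a + 1)
    exact ((((PolyNat.const (2 ^ (a + 1))).mul (h2.add (PolyNat.const 1))).add
      (PolyNat.const (2 ^ a))).sub (PolyNat.const 1))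
  have hN : PolyNat (fun x : T => N x.len) := by
    refine PolyNat.tower hm ?_
    obtain ⟨k₁, hk₁⟩ := PolyTime.size_bound hs
    obtain ⟨k, hk⟩ : PolyB (fun n => (4 * (n + 2) ^ k₁ + 2) ^
        (2 ^ (a + 2 ^ (a + 1) + 2 ^ a + 1))) :=
      (((PolyB.const 4).mul ⟨k₁, fun _ => le_rfl⟩).add (PolyB.const 2)).pow _
    refine ⟨k, fun x => le_trans ?_ (hk x.size)⟩
    refine (tower_mIdx_le a (s x.len)).trans (Nat.pow_le_pow_left ?_ _)
    have h1 : 2 * s x.len + 1 ≤ (x.size + 2) ^ k₁ := by
      have := hk₁ x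
      rwa [T.size_unary] at this
    generalize (x.size + 2) ^ k₁ = X at h1 ⊢
    generalize s x.len = Y at h1 ⊢
    show 4 * Y + 2 ≤ 4 * X + 2
    omega
  let w : T → T := fun x => T.node (T.unary (N x.len)) (T.unary x.len)
  have hw : PolyTime w := hN.unary.node (PolyNat.len i).unary
  refine ⟨fun x => encProof (unpad (w x) (rfn (decFm (P c κ).enc) μ x.len)), ?_, fun n => ?_⟩
  · have htw := tt_polyTime.comp hw
    have heq : PolyTime (fun x : T => (Fm.eq (tt (w x)) (tt (w x))).enc) :=
      (PolyTime.const _).node (htw.node htw)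
    exact ((PolyTime.const _).node (padF_polyTime hw hρ)).node
      (((PolyTime.const _).node htw).node (((PolyTime.const _).node
        (heq.node hρ)).node PolyTime.leaf))
  · refine ⟨_, rfl, ?_⟩
    simp only [T.len_unary]
    rw [decFm_enc]
    apply unpad_isProof
    right
    -- the size of the axiom
    generalize hψ : rfn (P c κ) μ n = ψ
    have hwn : w (T.unary n) = T.node (T.unary (N n)) (T.unary n) := by
      simp only [w, T.len_unary]
    have hsize : (padF (w (T.unary n)) ψ).enc.size = 40 * N n + (ψ.enc.size + 40 * n + 100) := by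
      have h1 := tt_size_eq (w (T.unary n))
      rw [hwn] at h1 ⊢
      simp only [padF, Fm.enc, T.size, T.size_unary] at h1 ⊢
      omega
    have hsn : s n = ψ.enc.size + (40 * n + (n₁ + 1000)) := by
      simp only [s]
      rw [decFm_enc, hψ]
    have hsN : s n < N n := by
      refine (le_pow_mIdx a (s n)).trans_le (Nat.pow_le_pow_right (by omega) ?_)
      exact Nat.div_le_self _ _
    have hN2 : 2 ^ (2 ^ (mIdx a (s n) + 1)) = N n * N n := by
      simp only [N]
      rw [← pow_add]
      congr 1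
      ring
    have hll : lglg (T.unary (padF (w (T.unary n)) ψ).enc.size) = mIdx a (s n) := by
      apply lglg_unary_eq
      · rw [hsize]
        show N n ≤ _
        omega
      · rw [hN2, hsize]
        have h2 : 41 * N n ≤ N n * N n := Nat.mul_le_mul_right _ (by omega)
        omega
    have ha : aOf (T.unary (padF (w (T.unary n)) ψ).enc.size) = a := by
      rw [aOf, hll, mIdx_succ, sp_bl, T.left_node, T.len_unary]
    have hidx : idxOf α (padF (w (T.unary n)) ψ).enc.size = a := by
      rw [idxOf, ha, if_pos (hn₁ _ (by omega))]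
    refine ⟨by rw [hidx]; exact hgood, ?_⟩
    have hq : qOf (T.unary (padF (w (T.unary n)) ψ).enc.size) = T.node c.enc (T.unary κ) := by
      rw [qOf, ha, ← hadef, treeOf_tc]
    have hwr : (w (T.unary n)).right.len = n := by rw [hwn, T.right_node, T.len_unary]
    rw [FormAt, unfalsum_padF, psiAt, hq, hfPc, decFm_enc, unfalsum_padF, hwr, hψ]

/-- **One bit of advice per length, taken from the beginning of a fixed sequence.** -/
theorem slow_advice {μ : Fm} (hμ : IsUniversal μ) {P : Code → ℕ → Fm}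
    (hP : IsFormalisation μ P) {α : ℕ → ℕ} (hαp : PolyNat (fun x => α x.len))
    (hα : Filter.Tendsto α Filter.atTop Filter.atTop) :
    ∃ (i : ℕ → ℕ) (S : Set Fm), PolyNat (fun x => i x.len) ∧ (∀ n, i n ≤ α n) ∧
      S12 ⊆ S ∧ Consistent S ∧
      (∃ f : T → T, PolyTime f ∧ ∀ φ : Fm, φ ∈ S ↔
        f (T.node φ.enc (ofBool (advB (i φ.enc.size)))) ≠ T.leaf) ∧
      ∀ (c : Code) (κ : ℕ), HaltsWithin c κ → InClassT (theory c κ) →
        ∃ g : T → T, PolyTime g ∧ ∀ n, ∃ π : List Step, g (T.unary n) = encProof π ∧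
          IsProof S π (rfn (P c κ) μ n) := by
  obtain ⟨fP, hfP, hfPc⟩ := hP.poly
  exact ⟨idxOf α, advTh μ fP α, idxOf_polyNat hαp, idxOf_le α, fun φ h => Or.inl h,
    ⟨ℕ, stdN, advTh_models hμ.1 hμ.2.1 hP hfPc α⟩, advTh_dec μ hfP α,
    fun c κ hc hT => advTh_universal hfPc hα hc hT.1⟩

end Pool.Agent.H19
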