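import Mathlib

/-!
# Definitions for the hand-in on `MP_4b0d2a_lc`

Strong measure zero and meager-additive sets of reals, Borel's Conjecture, and three cardinal
characteristics of the continuum: the unbounding number, the groupwise density number and the
localization numbers of bounded products.
-/

namespace Pool.Agent.Smz

open Set Filter Cardinal Pointwise

/-- `X` has strong measure zero -/
def StrongMeasureZero (X : Set ℝ) : Prop :=
  ∀ ε : ℕ → ℝ, (∀ n, 0 < ε n) →
    ∃ a b : ℕ → ℝ, (∀ n, b n - a n < ε n) ∧ X ⊆ ⋃ n, Set.Icc (a n) (b n)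

/-- `X` is meager-additive -/
def MeagerAdditive (X : Set ℝ) : Prop := ∀ M : Set ℝ, IsMeagre M → IsMeagre (X + M)

/-- statement (H): every strong measure zero set is meager-additive -/
def StatementH : Prop := ∀ X : Set ℝ, StrongMeasureZero X → MeagerAdditive X

/-- Borel's Conjecture -/
def BorelConjecture : Prop := ∀ X : Set ℝ, StrongMeasureZero X → X.Countable

/-- the unbounding number `𝔟` -/
noncomputable def bNum : Cardinal.{0} :=
  sInf {κ | ∃ B : Set (ℕ → ℕ), #B = κ ∧ ¬ ∃ g : ℕ → ℕ, ∀ f ∈ B, ∀ᶠ n in atTop, f n ≤ g n}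

/-- groupwise dense families of infinite subsets of `ℕ` -/
def GroupwiseDense (G : Set (Set ℕ)) : Prop :=
  (∀ D ∈ G, D.Infinite) ∧
  (∀ D ∈ G, ∀ D' : Set ℕ, D'.Infinite → (D' \ D).Finite → D' ∈ G) ∧
  (∀ k : ℕ → ℕ, k 0 = 0 → StrictMono k →
    ∃ N : Set ℕ, N.Infinite ∧ (⋃ n ∈ N, Set.Ico (k n) (k (n + 1))) ∈ G)

/-- the groupwise density number `𝔤` -/
noncomputable def gNum : Cardinal.{0} :=
  sInf {κ | ∃ F : Set (Set (Set ℕ)), #F = κ ∧ (∀ G ∈ F, GroupwiseDense G) ∧ ⋂₀ F = ∅}

/-- the localization number `𝔡^{Lc}_{b,w}`: the least size of a family of slaloms of width `w`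
such that every function below `b` is captured, up to finitely many places, by one of them -/
noncomputable def locNum (w b : ℕ → ℕ) : Cardinal.{0} :=
  sInf {κ | ∃ F : Set (ℕ → Finset ℕ), #F = κ ∧ (∀ S ∈ F, ∀ n, (S n).card ≤ w n) ∧
    ∀ x : ℕ → ℕ, (∀ n, x n < b n) → ∃ S ∈ F, ∀ᶠ n in atTop, x n ∈ S n}

end Pool.Agent.Smz
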