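import Mathlib
import Pool.Agent.Lib_helper48.SmzDefs

/-!
# If `𝔟 = ℵ₁` then there is an uncountable strong measure zero set (Rothberger)
-/

namespace Pool.Agent.Smz

open Set Filter Cardinal

/-- countable families of functions are bounded -/
lemma dominate_countable {C : Set (ℕ → ℕ)} (hC : C.Countable) :
    ∃ g : ℕ → ℕ, StrictMono g ∧ ∀ f ∈ C, ∀ᶠ n in atTop, f n ≤ g n := by
  obtain ⟨f, hf⟩ := Set.countable_iff_exists_subset_range.1 hC
  refine ⟨fun n => n + ∑ i ∈ Finset.range (n + 1), ∑ m ∈ Finset.range (n + 1), f i m, ?_, ?_⟩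
  · refine strictMono_nat_of_lt_succ fun n => ?_
    have h1 : ∑ i ∈ Finset.range (n + 1), ∑ m ∈ Finset.range (n + 1), f i m ≤
        ∑ i ∈ Finset.range (n + 1 + 1), ∑ m ∈ Finset.range (n + 1 + 1), f i m := by
      refine (Finset.sum_le_sum fun i _ => ?_).trans
        (Finset.sum_le_sum_of_subset (Finset.range_mono (by omega)))
      exact Finset.sum_le_sum_of_subset (Finset.range_mono (by omega))
    omega
  · intro h hh
    obtain ⟨i, rfl⟩ := hf hh
    filter_upwards [eventually_ge_atTop i] with n hn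
    have h1 : f i n ≤ ∑ m ∈ Finset.range (n + 1), f i m :=
      Finset.single_le_sum (f := fun m => f i m) (fun _ _ => Nat.zero_le _)
        (Finset.mem_range.2 (by omega))
    have h2 : ∑ m ∈ Finset.range (n + 1), f i m ≤
        ∑ i ∈ Finset.range (n + 1), ∑ m ∈ Finset.range (n + 1), f i m :=
      Finset.single_le_sum (f := fun i => ∑ m ∈ Finset.range (n + 1), f i m)
        (fun _ _ => Nat.zero_le _) (Finset.mem_range.2 (by omega))
    omega

/-- an `ℵ₁`-indexed family every uncountable subfamily of which is unbounded -/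
lemma exists_scale (hb : bNum = ℵ₁) :
    ∃ (A : Type) (x : A → ℕ → ℕ), ¬ Countable A ∧ (∀ a, StrictMono (x a)) ∧
      ∀ G : ℕ → ℕ, {a | ∀ n, x a n ≤ G n}.Countable := by
  classical
  have hne : {κ : Cardinal.{0} | ∃ B : Set (ℕ → ℕ), #B = κ ∧
      ¬ ∃ g : ℕ → ℕ, ∀ f ∈ B, ∀ᶠ n in atTop, f n ≤ g n}.Nonempty := by
    by_contra hcon
    rw [Set.not_nonempty_iff_eq_empty] at hcon
    rw [bNum, hcon, Cardinal.sInf_empty] at hb
    exact absurd hb.symm (Cardinal.aleph_pos 1).ne'
  obtain ⟨B, hBcard, hBunb⟩ := csInf_mem hne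
  have hBcard' : #B = ℵ₁ := by rw [hBcard]; exact hb
  let A : Type := (ℵ₁ : Cardinal.{0}).ord.ToType
  have hA : #A = ℵ₁ := Cardinal.mk_ord_toType _
  obtain ⟨eAB⟩ : Nonempty (A ≃ B) := Cardinal.eq.1 (by rw [hA, hBcard'])
  have hIio : ∀ β : A, (Iio β).Countable := fun β => by
    rw [← Cardinal.le_aleph0_iff_set_countable, ← Cardinal.lt_aleph_one_iff]
    exact (Cardinal.mk_Iio_lt β (by rw [hA, Ordinal.type_toType])).trans_eq hA
  let u : A → ℕ → ℕ := fun β => (eAB β : ℕ → ℕ)
  have hcnt : ∀ (β : A) (ih : (γ : A) → γ < β → (ℕ → ℕ)),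
      (Set.range (fun γ : Iio β => ih γ.1 γ.2) ∪ {u β}).Countable := by
    intro β ih
    have : Countable (Iio β) := hIio β
    exact (Set.countable_range _).union (Set.countable_singleton _)
  let Fx : (β : A) → ((γ : A) → γ < β → (ℕ → ℕ)) → (ℕ → ℕ) := fun β ih =>
    Classical.choose (dominate_countable (hcnt β ih))
  let x : A → ℕ → ℕ := (wellFounded_lt : WellFounded ((· < ·) : A → A → Prop)).fix Fx
  have hx : ∀ β, x β = Fx β (fun γ _ => x γ) := fun β =>
    (wellFounded_lt : WellFounded ((· < ·) : A → A → Prop)).fix_eq Fx β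
  have hspec : ∀ β, StrictMono (x β) ∧ ∀ f ∈ (Set.range (fun γ : Iio β => x γ.1) ∪ {u β}),
      ∀ᶠ n in atTop, f n ≤ x β n := by
    intro β
    have h1 := Classical.choose_spec (dominate_countable (hcnt β (fun γ _ => x γ)))
    rw [hx β]
    exact h1
  refine ⟨A, x, ?_, fun a => (hspec a).1, ?_⟩
  · intro hcA
    have h1 : #A ≤ ℵ₀ := Cardinal.mk_le_aleph0
    rw [hA] at h1
    exact absurd h1 (not_le.2 Cardinal.aleph0_lt_aleph_one)
  · intro G
    by_contra hcon
    apply hBunb
    refine ⟨G, fun f hf => ?_⟩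
    obtain ⟨γ, hγ⟩ : ∃ γ : A, u γ = f := ⟨eAB.symm ⟨f, hf⟩, by simp [u]⟩
    obtain ⟨β, hβ, hγβ⟩ : ∃ β ∈ {a | ∀ n, x a n ≤ G n}, γ ≤ β := by
      by_contra h
      push Not at h
      exact hcon ((hIio γ).mono fun β hβ => h β hβ)
    have h1 : ∀ᶠ n in atTop, u γ n ≤ x γ n := (hspec γ).2 _ (Or.inr rfl)
    rcases hγβ.eq_or_lt with h | h
    · subst h
      filter_upwards [h1] with n hn
      rw [← hγ]
      exact hn.trans (hβ n)
    · have h2 : ∀ᶠ n in atTop, x γ n ≤ x β n := (hspec β).2 _ (Or.inl ⟨⟨γ, h⟩, rfl⟩)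
      filter_upwards [h1, h2] with n hn hn2
      rw [← hγ]
      exact (hn.trans hn2).trans (hβ n)

/-- the coding of increasing sequences by reals -/
noncomputable def phi (x : ℕ → ℕ) : ℝ := ∑' k, (1 / 3 : ℝ) ^ x k

lemma phi_bounds {x : ℕ → ℕ} (hx : StrictMono x) (m : ℕ) :
    ∑ i ∈ Finset.range m, (1 / 3 : ℝ) ^ x i + (1 / 3 : ℝ) ^ x m ≤ phi x ∧
      phi x ≤ ∑ i ∈ Finset.range m, (1 / 3 : ℝ) ^ x i + 3 / 2 * (1 / 3 : ℝ) ^ x m := by
  have hgeo : Summable (fun k : ℕ => (1 / 3 : ℝ) ^ k) :=
    summable_geometric_of_lt_one (by norm_num) (by norm_num)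
  have hsum : Summable (fun k => (1 / 3 : ℝ) ^ x k) := by
    refine Summable.of_nonneg_of_le (fun k => by positivity) (fun k => ?_) hgeo
    exact pow_le_pow_of_le_one (by norm_num) (by norm_num) (hx.id_le k)
  have hsplit := hsum.sum_add_tsum_nat_add m
  have htail : Summable (fun k => (1 / 3 : ℝ) ^ x (k + m)) := (summable_nat_add_iff m).2 hsum
  have hlow : (1 / 3 : ℝ) ^ x m ≤ ∑' k, (1 / 3 : ℝ) ^ x (k + m) := by
    have := htail.le_tsum 0 (fun j _ => by positivity)
    simpa using this
  have hup : ∑' k, (1 / 3 : ℝ) ^ x (k + m) ≤ 3 / 2 * (1 / 3 : ℝ) ^ x m := by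
    have h1 : ∑' k, (1 / 3 : ℝ) ^ x (k + m) ≤ ∑' k : ℕ, (1 / 3 : ℝ) ^ x m * (1 / 3 : ℝ) ^ k := by
      refine htail.tsum_le_tsum (fun k => ?_) (hgeo.mul_left _)
      rw [← pow_add]
      apply pow_le_pow_of_le_one (by norm_num) (by norm_num)
      have := hx.add_le_nat k m
      omega
    rw [tsum_mul_left, tsum_geometric_of_lt_one (by norm_num) (by norm_num)] at h1
    norm_num at h1 ⊢
    linarith
  rw [phi, ← hsplit]
  constructor <;> linarith

lemma phi_injective {x y : ℕ → ℕ} (hx : StrictMono x) (hy : StrictMono y) (h : phi x = phi y) :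
    x = y := by
  classical
  by_contra hne
  have hex : ∃ m, x m ≠ y m := by
    by_contra hcon
    push Not at hcon
    exact hne (funext hcon)
  set m := Nat.find hex with hm
  have hmne : x m ≠ y m := Nat.find_spec hex
  have hpre : ∑ i ∈ Finset.range m, (1 / 3 : ℝ) ^ x i = ∑ i ∈ Finset.range m, (1 / 3 : ℝ) ^ y i := by
    apply Finset.sum_congr rfl
    intro i hi
    have : ¬ x i ≠ y i := Nat.find_min hex (Finset.mem_range.1 hi)
    push Not at this
    rw [this]
  have hkey : ∀ a b : ℕ, a < b → 3 / 2 * (1 / 3 : ℝ) ^ b < (1 / 3 : ℝ) ^ a := by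
    intro a b hab
    have h1 : (1 / 3 : ℝ) ^ b ≤ (1 / 3 : ℝ) ^ (a + 1) :=
      pow_le_pow_of_le_one (by norm_num) (by norm_num) hab
    have h2 : (0 : ℝ) < (1 / 3 : ℝ) ^ a := by positivity
    rw [pow_succ] at h1
    linarith
  have bx := phi_bounds hx m
  have hby := phi_bounds hy m
  rcases lt_or_gt_of_ne hmne with h1 | h1
  · have := hkey _ _ h1
    linarith [bx.1, hby.2]
  · have := hkey _ _ h1
    linarith [hby.1, bx.2]

lemma sum_map_range (x : ℕ → ℕ) (m : ℕ) :
    (((List.range m).map x).map (fun k => (1 / 3 : ℝ) ^ k)).sum =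
      ∑ i ∈ Finset.range m, (1 / 3 : ℝ) ^ x i := by
  induction m with
  | zero => simp
  | succ m ih =>
    rw [List.range_succ, List.map_append, List.map_append, List.sum_append, ih,
      Finset.sum_range_succ]
    simp

/-- **Theorem** (Rothberger). If `𝔟 = ℵ₁`, Borel's Conjecture fails. -/
theorem not_borel (hb : bNum = ℵ₁) : ¬ BorelConjecture := by
  classical
  intro hBC
  obtain ⟨A, x, hA, hmono, hG⟩ := exists_scale hb
  have hcount : (Set.range fun a => phi (x a)).Countable := by
    apply hBC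
    intro ε hε
    -- centres of the even intervals
    let cen : ℕ → ℝ := fun c => match (Encodable.decode c : Option (List ℕ)) with
      | some s => (s.map (fun k => (1 / 3 : ℝ) ^ k)).sum
      | none => 0
    have hcen : ∀ s : List ℕ, cen (Encodable.encode s) = (s.map (fun k => (1 / 3 : ℝ) ^ k)).sum := by
      intro s
      simp only [cen, Encodable.encodek]
    have hgex : ∀ s : List ℕ, ∃ j : ℕ, 3 / 2 * (1 / 3 : ℝ) ^ j ≤ ε (2 * Encodable.encode s) / 4 := by
      intro s
      obtain ⟨j, hj⟩ := exists_pow_lt_of_lt_one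
        (by have := hε (2 * Encodable.encode s); linarith : 0 < ε (2 * Encodable.encode s) / 6)
        (by norm_num : (1 / 3 : ℝ) < 1)
      exact ⟨j, by linarith⟩
    choose g hg using hgex
    let L : ℕ → Finset (List ℕ) := fun m => Nat.rec {[]} (fun _ T =>
      T.biUnion (fun s => (Finset.range (g s)).image (fun j => s ++ [j]))) m
    have hL0 : L 0 = {[]} := rfl
    have hLs : ∀ m, L (m + 1) = (L m).biUnion
      (fun s => (Finset.range (g s)).image (fun j => s ++ [j])) := fun m => rfl
    let G : ℕ → ℕ := fun m => (L m).sup g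
    -- uncovered indices
    set U : Set A := {a | ∀ c, phi (x a) ∉ Icc (cen c - ε (2 * c) / 4) (cen c + ε (2 * c) / 4)} with hU
    have hUG : U ⊆ {a | ∀ n, x a n ≤ G n} := by
      intro a ha
      have hlt : ∀ m, x a m < g ((List.range m).map (x a)) := by
        intro m
        by_contra hcon
        push Not at hcon
        apply ha (Encodable.encode ((List.range m).map (x a)))
        rw [hcen, sum_map_range]
        have h1 := phi_bounds (hmono a) m
        have h2 := hg ((List.range m).map (x a))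
        have h3 : (1 / 3 : ℝ) ^ x a m ≤ (1 / 3 : ℝ) ^ g ((List.range m).map (x a)) :=
          pow_le_pow_of_le_one (by norm_num) (by norm_num) hcon
        have h4 : (0 : ℝ) ≤ (1 / 3 : ℝ) ^ x a m := by positivity
        have h5 := hε (2 * Encodable.encode ((List.range m).map (x a)))
        constructor <;> linarith [h1.1, h1.2]
      have hmem : ∀ m, (List.range m).map (x a) ∈ L m := by
        intro m
        induction m with
        | zero => rw [hL0]; simp
        | succ m ih =>
          rw [hLs, Finset.mem_biUnion]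
          refine ⟨(List.range m).map (x a), ih, Finset.mem_image.2 ⟨x a m,
            Finset.mem_range.2 (hlt m), ?_⟩⟩
          rw [List.range_succ, List.map_append]
          rfl
      intro m
      have h1 : g ((List.range m).map (x a)) ≤ (L m).sup g := Finset.le_sup (hmem m)
      exact (hlt m).le.trans h1
    have hUc : ((fun a => phi (x a)) '' U).Countable := ((hG G).mono hUG).image _
    obtain ⟨r, hr⟩ := Set.countable_iff_exists_subset_range.1 hUc
    -- all intervals
    let ctr : ℕ → ℝ := fun n => if n % 2 = 0 then cen (n / 2) else r (n / 2)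
    refine ⟨fun n => ctr n - ε n / 4, fun n => ctr n + ε n / 4, fun n => by
      have := hε n; linarith, ?_⟩
    rintro _ ⟨a, rfl⟩
    rw [Set.mem_iUnion]
    by_cases ha : a ∈ U
    · obtain ⟨c, hc⟩ := hr ⟨a, ha, rfl⟩
      refine ⟨2 * c + 1, ?_⟩
      have h1 : ctr (2 * c + 1) = phi (x a) := by
        simp only [ctr]
        rw [if_neg (by omega)]
        have : (2 * c + 1) / 2 = c := by omega
        rw [this, hc]
      have := hε (2 * c + 1)
      show phi (x a) ∈ Icc (ctr (2 * c + 1) - ε (2 * c + 1) / 4) (ctr (2 * c + 1) + ε (2 * c + 1) / 4)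
      rw [h1]
      constructor <;> linarith
    · obtain ⟨c, hc⟩ : ∃ c, phi (x a) ∈ Icc (cen c - ε (2 * c) / 4) (cen c + ε (2 * c) / 4) := by
        by_contra hcon
        exact ha fun c hc => hcon ⟨c, hc⟩
      refine ⟨2 * c, ?_⟩
      have h1 : ctr (2 * c) = cen c := by
        simp only [ctr]
        rw [if_pos (by omega)]
        have : (2 * c) / 2 = c := by omega
        rw [this]
      show phi (x a) ∈ Icc (ctr (2 * c) - ε (2 * c) / 4) (ctr (2 * c) + ε (2 * c) / 4)
      rw [h1]
      exact hc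
  apply hA
  have huniv : (Set.univ : Set A).Countable := by
    have h1 : (⋃ r ∈ Set.range (fun a => phi (x a)), {a | phi (x a) = r}).Countable := by
      apply hcount.biUnion
      rintro _ ⟨a, rfl⟩
      refine (hG (x a)).mono fun b hb => ?_
      have : x b = x a := phi_injective (hmono b) (hmono a) hb
      intro n
      rw [this]
    refine h1.mono fun a _ => ?_
    exact Set.mem_iUnion₂.2 ⟨phi (x a), ⟨a, rfl⟩, rfl⟩
  exact Set.countable_univ_iff.1 huniv

end Pool.Agent.Smz
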