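import Mathlib
import Pool.Agent.Lib_helper48.SmzDefs

/-!
# Avoiding a compact nowhere dense set: fast decreasing radii
-/

namespace Pool.Agent.Smz

open Set Filter Pointwise Topology

/-- uniform nowhere density -/
lemma uniform_nwd {K : Set ℝ} (hK : IsCompact K) (hint : interior K = ∅) {ε : ℝ} (hε : 0 < ε) :
    ∃ δ : ℝ, 0 < δ ∧ δ ≤ ε ∧ ∀ c : ℝ, ∃ c', c ≤ c' ∧ c' + δ ≤ c + ε ∧
      ∀ y ∈ Icc c' (c' + δ), y ∉ K := by
  obtain ⟨R, hR⟩ : ∃ R : ℝ, K ⊆ Icc (-R) R := by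
    obtain ⟨R, hR⟩ := hK.isBounded.subset_closedBall 0
    refine ⟨R, hR.trans ?_⟩
    rw [Real.closedBall_eq_Icc]
    simp
  -- the compact region
  have hcomp : ∃ δ : ℝ, 0 < δ ∧ δ ≤ ε ∧ ∀ c ∈ Icc (-R - ε) R, ∃ c', c ≤ c' ∧ c' + δ ≤ c + ε ∧
      ∀ y ∈ Icc c' (c' + δ), y ∉ K := by
    refine (isCompact_Icc : IsCompact (Icc (-R - ε) R)).induction_on
      (p := fun s => ∃ δ : ℝ, 0 < δ ∧ δ ≤ ε ∧ ∀ c ∈ s, ∃ c', c ≤ c' ∧ c' + δ ≤ c + ε ∧
        ∀ y ∈ Icc c' (c' + δ), y ∉ K) ?_ ?_ ?_ ?_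
    · exact ⟨ε, hε, le_rfl, by simp⟩
    · rintro s t hst ⟨δ, h1, h2, h3⟩
      exact ⟨δ, h1, h2, fun c hc => h3 c (hst hc)⟩
    · rintro s t ⟨δ, h1, h2, h3⟩ ⟨δ', h1', h2', h3'⟩
      refine ⟨min δ δ', lt_min h1 h1', (min_le_left _ _).trans h2, ?_⟩
      rintro c (hc | hc)
      · obtain ⟨c', h4, h5, h6⟩ := h3 c hc
        exact ⟨c', h4, by linarith [min_le_left δ δ'],
          fun y hy => h6 y ⟨hy.1, hy.2.trans (by linarith [min_le_left δ δ'])⟩⟩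
      · obtain ⟨c', h4, h5, h6⟩ := h3' c hc
        exact ⟨c', h4, by linarith [min_le_right δ δ'],
          fun y hy => h6 y ⟨hy.1, hy.2.trans (by linarith [min_le_right δ δ'])⟩⟩
    · intro c _
      -- near `c`
      have hne : (Ioo (c + ε / 4) (c + 3 * ε / 4) ∩ Kᶜ).Nonempty := by
        by_contra hcon
        rw [Set.not_nonempty_iff_eq_empty] at hcon
        have hsub : Ioo (c + ε / 4) (c + 3 * ε / 4) ⊆ K := by
          intro y hy
          by_contra hy2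
          have : y ∈ Ioo (c + ε / 4) (c + 3 * ε / 4) ∩ Kᶜ := ⟨hy, hy2⟩
          rw [hcon] at this
          exact this
        have h1 : Ioo (c + ε / 4) (c + 3 * ε / 4) ⊆ interior K :=
          interior_maximal hsub isOpen_Ioo
        rw [hint] at h1
        have h2 : c + ε / 2 ∈ Ioo (c + ε / 4) (c + 3 * ε / 4) := ⟨by linarith, by linarith⟩
        exact h1 h2
      obtain ⟨y, hy⟩ := hne
      have hopen : IsOpen (Ioo (c + ε / 4) (c + 3 * ε / 4) ∩ Kᶜ) :=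
        isOpen_Ioo.inter hK.isClosed.isOpen_compl
      obtain ⟨r, hr, hball⟩ := Metric.isOpen_iff.1 hopen y hy
      refine ⟨Ioo (c - ε / 4) (c + ε / 4), mem_nhdsWithin_of_mem_nhds
        (Ioo_mem_nhds (by linarith) (by linarith)), min (r / 2) ε, by positivity, min_le_right _ _, ?_⟩
      intro d hd
      have h3 : ∀ z ∈ Icc y (y + min (r / 2) ε), z ∈ Ioo (c + ε / 4) (c + 3 * ε / 4) ∩ Kᶜ := by
        intro z hz
        apply hball
        rw [Metric.mem_ball, Real.dist_eq, abs_of_nonneg (by linarith [hz.1])]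
        linarith [hz.2, min_le_left (r / 2) ε]
      refine ⟨y, by linarith [hy.1.1, hd.2], ?_, fun z hz => (h3 z hz).2⟩
      have h4 := (h3 (y + min (r / 2) ε) ⟨by linarith [le_min (by positivity : 0 ≤ r / 2) hε.le], le_rfl⟩).1.2
      linarith [hd.1]
  obtain ⟨δ, h1, h2, h3⟩ := hcomp
  refine ⟨δ, h1, h2, fun c => ?_⟩
  by_cases hc : c ∈ Icc (-R - ε) R
  · exact h3 c hc
  · refine ⟨c, le_rfl, by linarith, fun y hy hyK => hc ?_⟩
    have := hR hyK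
    exact ⟨by linarith [this.1, hy.2], by linarith [this.2, hy.1]⟩

/-- avoiding one ball -/
lemma avoid_one {K : Set ℝ} (hK : IsCompact K) (hint : interior K = ∅) {ε : ℝ} (hε : 0 < ε) :
    ∃ δ : ℝ, 0 < δ ∧ δ ≤ ε ∧ ∀ c x : ℝ, ∃ c', c ≤ c' ∧ c' + δ ≤ c + ε ∧
      ∀ x', |x' - x| ≤ δ → ∀ k ∈ K, x' + k ∉ Icc c' (c' + δ) := by
  obtain ⟨δ, h1, h2, h3⟩ := uniform_nwd hK hint hε
  refine ⟨δ / 3, by positivity, by linarith, fun c x => ?_⟩
  obtain ⟨c', h4, h5, h6⟩ := h3 (c - x)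
  refine ⟨x + c' + δ / 3, by linarith, by linarith, fun x' hx' k hk hmem => ?_⟩
  rw [abs_le] at hx'
  exact h6 k ⟨by linarith [hmem.1, hx'.2], by linarith [hmem.2, hx'.1]⟩ hk

/-- avoiding finitely many balls -/
lemma avoid_finset {K : Set ℝ} (hK : IsCompact K) (hint : interior K = ∅) (m : ℕ) :
    ∀ ε : ℝ, 0 < ε → ∃ δ : ℝ, 0 < δ ∧ δ ≤ ε / 2 ∧ ∀ (c : ℝ) (C : Finset ℝ), C.card ≤ m →
      ∃ c', c ≤ c' ∧ c' + δ ≤ c + ε ∧
      ∀ x ∈ C, ∀ x', |x' - x| ≤ δ → ∀ k ∈ K, x' + k ∉ Icc c' (c' + δ) := by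
  classical
  induction m with
  | zero =>
    intro ε hε
    refine ⟨ε / 2, by positivity, le_rfl, fun c C hC => ?_⟩
    have : C = ∅ := Finset.card_eq_zero.1 (by omega)
    subst this
    exact ⟨c, le_rfl, by linarith, by simp⟩
  | succ m ih =>
    intro ε hε
    obtain ⟨δ₁, h1, h2, h3⟩ := ih ε hε
    obtain ⟨δ, h4, h5, h6⟩ := avoid_one hK hint h1
    refine ⟨δ, h4, h5.trans h2, fun c C hC => ?_⟩
    rcases C.eq_empty_or_nonempty with rfl | ⟨x, hx⟩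
    · exact ⟨c, le_rfl, by linarith, by simp⟩
    · obtain ⟨c₁, h7, h8, h9⟩ := h3 c (C.erase x) (by rw [Finset.card_erase_of_mem hx]; omega)
      obtain ⟨c', h10, h11, h12⟩ := h6 c₁ x
      refine ⟨c', h7.trans h10, by linarith, fun y hy y' hy' k hk hmem => ?_⟩
      by_cases hyx : y = x
      · subst hyx
        exact h12 y' hy' k hk hmem
      · exact h9 y (Finset.mem_erase.2 ⟨hyx, hy⟩) y' (hy'.trans h5) k hk
          ⟨h10.trans hmem.1, hmem.2.trans h11⟩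

/-- the sequence of radii -/
theorem exists_radii {K : Set ℝ} (hK : IsCompact K) (hint : interior K = ∅) (w : ℕ → ℕ) :
    ∃ e : ℕ → ℝ, (∀ j, 0 < e j) ∧ (∀ j, e j ≤ (1 / 2) ^ j) ∧
      ∀ C : ℕ → Finset ℝ, (∀ j, (C j).card ≤ w j) → ∀ n₀ N, n₀ ≤ N → ∀ c : ℝ,
        ∃ c', c ≤ c' ∧ c' + e N ≤ c + e n₀ ∧ ∀ j, n₀ ≤ j → j < N → ∀ x ∈ C j,
          ∀ x', |x' - x| ≤ e (j + 1) → ∀ k ∈ K, x' + k ∉ Icc c' (c' + e N) := by
  choose! δ hδ using fun m => avoid_finset hK hint m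
  let e : ℕ → ℝ := fun j => Nat.rec 1 (fun i r => δ (w i) r) j
  have he0 : e 0 = 1 := rfl
  have hes : ∀ j, e (j + 1) = δ (w j) (e j) := fun j => rfl
  have hpos : ∀ j, 0 < e j := by
    intro j
    induction j with
    | zero => rw [he0]; norm_num
    | succ j ih => rw [hes]; exact (hδ (w j) (e j) ih).1
  have hle : ∀ j, e j ≤ (1 / 2) ^ j := by
    intro j
    induction j with
    | zero => rw [he0]; norm_num
    | succ j ih =>
      rw [hes]
      have := (hδ (w j) (e j) (hpos j)).2.1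
      rw [pow_succ]
      linarith
  refine ⟨e, hpos, hle, ?_⟩
  intro C hC n₀ N hN
  induction N, hN using Nat.le_induction with
  | base =>
    intro c
    exact ⟨c, le_rfl, le_rfl, fun j h1 h2 => by omega⟩
  | succ N hN ih =>
    intro c
    obtain ⟨c₁, h1, h2, h3⟩ := ih c
    obtain ⟨c', h4, h5, h6⟩ := (hδ (w N) (e N) (hpos N)).2.2 c₁ (C N) (hC N)
    rw [← hes] at h5 h6
    refine ⟨c', h1.trans h4, by linarith, fun j hj1 hj2 x hx x' hx' k hk hmem => ?_⟩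
    rcases Nat.lt_succ_iff_lt_or_eq.1 hj2 with h | h
    · exact h3 j hj1 h x hx x' hx' k hk ⟨h4.trans hmem.1, hmem.2.trans h5⟩
    · subst h
      exact h6 x hx x' hx' k hk hmem

/-- criterion for nowhere density -/
lemma nwd_of {A : Set ℝ} (h : ∀ a b : ℝ, a < b → ∃ c d, a ≤ c ∧ c < d ∧ d ≤ b ∧
    ∀ y ∈ Icc c d, y ∉ A) : IsNowhereDense A := by
  rw [IsNowhereDense, Set.eq_empty_iff_forall_notMem]
  intro x hx
  obtain ⟨r, hr, hball⟩ := Metric.isOpen_iff.1 isOpen_interior x hx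
  obtain ⟨c, d, h1, h2, h3, h4⟩ := h (x - r / 2) (x + r / 2) (by linarith)
  have hmid : (c + d) / 2 ∈ closure A := by
    apply interior_subset
    apply hball
    rw [Metric.mem_ball, Real.dist_eq, abs_lt]
    constructor <;> linarith
  rw [mem_closure_iff] at hmid
  obtain ⟨y, hy1, hy2⟩ := hmid (Ioo c d) isOpen_Ioo ⟨by linarith, by linarith⟩
  exact h4 y ⟨hy1.1.le, hy1.2.le⟩ hy2

end Pool.Agent.Smz
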