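import Mathlib
import Pool.Agent.Lib_helper48.SmzMeager

/-!
# Few slaloms and groupwise density: strong measure zero sets are meager-additive
-/

namespace Pool.Agent.Smz

open Set Filter Pointwise Topology Cardinal

/-- the code of a finite set -/
def code (t : Finset ℕ) : ℕ := ∑ i ∈ t, 2 ^ i

lemma code_injective : Function.Injective code := Finset.geomSum_injective le_rfl

lemma lt_code {t : Finset ℕ} {i : ℕ} (hi : i ∈ t) : i < code t := Finset.lt_geomSum_of_mem le_rfl hi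

lemma code_lt {t : Finset ℕ} {n : ℕ} (h : ∀ i ∈ t, i < n) : code t < 2 ^ n := by
  have h1 : t ⊆ Finset.range n := fun i hi => Finset.mem_range.2 (h i hi)
  have h2 : code t ≤ ∑ i ∈ Finset.range n, 2 ^ i :=
    Finset.sum_le_sum_of_subset h1
  have h3 : ∑ i ∈ Finset.range n, 2 ^ i < 2 ^ n := Nat.geomSum_lt le_rfl (by simp)
  omega

/-- the points within `ρ` of the finite set `C` -/
def nbhd (ρ : ℝ) (C : Finset ℝ) : Set ℝ := {x | ∃ y ∈ C, |x - y| ≤ ρ}

/-- `x` is hit by `a ∪ b` for some `a ⊆ p` and nonempty `b ⊆ [k n, k (n+1))` -/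
def W (e : ℕ → ℝ) (C : ℕ → Finset ℝ) (k : ℕ → ℕ) (p n : ℕ) : Set ℝ :=
  {x | ∃ a b : Finset ℕ, (∀ i ∈ a, i < p) ∧ b.Nonempty ∧ (∀ i ∈ b, k n ≤ i ∧ i < k (n + 1)) ∧
    x ∈ nbhd (e (code (a ∪ b) + 1)) (C (code (a ∪ b)))}

/-- the key covering lemma -/
lemma meager_of_liminf {K : Set ℝ} {w : ℕ → ℕ} {e : ℕ → ℝ} (hpos : ∀ j, 0 < e j)
    (hle : ∀ j, e j ≤ (1 / 2) ^ j)
    (he : ∀ C : ℕ → Finset ℝ, (∀ j, (C j).card ≤ w j) → ∀ n₀ N, n₀ ≤ N → ∀ c : ℝ,
        ∃ c', c ≤ c' ∧ c' + e N ≤ c + e n₀ ∧ ∀ j, n₀ ≤ j → j < N → ∀ x ∈ C j,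
          ∀ x', |x' - x| ≤ e (j + 1) → ∀ k ∈ K, x' + k ∉ Icc c' (c' + e N))
    {C : ℕ → Finset ℝ} (hC : ∀ j, (C j).card ≤ w j) {k : ℕ → ℕ} (hk : StrictMono k)
    {X : Set ℝ} (hX : ∀ x ∈ X, ∃ p m, ∀ n ≥ m, x ∈ W e C k p n) : IsMeagre (X + K) := by
  -- the pieces
  have hpiece : ∀ p m : ℕ, IsMeagre ({x | ∀ n ≥ m, x ∈ W e C k p n} + K) := by
    intro p m
    apply IsNowhereDense.isMeagre
    apply nwd_of
    intro a b hab
    obtain ⟨n₀, hn₀⟩ : ∃ n₀ : ℕ, e n₀ ≤ b - a := by
      obtain ⟨n₀, hn₀⟩ := exists_pow_lt_of_lt_one (by linarith : (0 : ℝ) < b - a)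
        (by norm_num : (1 / 2 : ℝ) < 1)
      exact ⟨n₀, (hle n₀).trans hn₀.le⟩
    set n := max m (max n₀ p) with hn
    have hkn : n ≤ k n := hk.id_le n
    have hN : n₀ ≤ 2 ^ (k (n + 1)) := by
      have h1 : k n < k (n + 1) := hk (Nat.lt_succ_self n)
      have h2 : k (n + 1) < 2 ^ (k (n + 1)) := Nat.lt_two_pow_self
      have h3 : n₀ ≤ n := (le_max_left _ _).trans (le_max_right _ _)
      omega
    obtain ⟨c', h1, h2, h3⟩ := he C hC n₀ (2 ^ (k (n + 1))) hN a
    refine ⟨c', c' + e (2 ^ (k (n + 1))), h1, by linarith [hpos (2 ^ (k (n + 1)))], by linarith, ?_⟩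
    rintro y hy ⟨x, hx, z, hz, rfl⟩
    obtain ⟨s, t, hs, ht, ht2, y', hy', hyx⟩ := hx n (le_max_left _ _)
    obtain ⟨i, hi⟩ := ht
    have h4 : n₀ ≤ code (s ∪ t) := by
      have h5 : i < code (s ∪ t) := lt_code (Finset.mem_union_right _ hi)
      have h6 := (ht2 i hi).1
      have h7 : n₀ ≤ n := (le_max_left _ _).trans (le_max_right _ _)
      omega
    have h5 : code (s ∪ t) < 2 ^ (k (n + 1)) := by
      apply code_lt
      intro j hj
      rcases Finset.mem_union.1 hj with hj | hj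
      · have h6 := hs j hj
        have h7 : p ≤ n := (le_max_right _ _).trans (le_max_right _ _)
        have h8 : k n < k (n + 1) := hk (Nat.lt_succ_self n)
        omega
      · exact (ht2 j hj).2
    exact h3 (code (s ∪ t)) h4 h5 y' hy' x hyx z hz hy
  have hcount : IsMeagre (⋃ q : ℕ × ℕ, ({x | ∀ n ≥ q.2, x ∈ W e C k q.1 n} + K)) :=
    isMeagre_iUnion fun q => hpiece q.1 q.2
  refine hcount.mono ?_
  rintro _ ⟨x, hx, z, hz, rfl⟩
  obtain ⟨p, m, h⟩ := hX x hx
  exact Set.mem_iUnion.2 ⟨(p, m), x, h, z, hz, rfl⟩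

/-- the groupwise dense family attached to a slalom -/
def fam (e : ℕ → ℝ) (C : ℕ → Finset ℝ) (X : Set ℝ) : Set (Set ℕ) :=
  {D | D.Infinite ∧ ∃ x ∈ X, ∀ m, ∃ n ≥ m, ∀ a b : Finset ℕ, (∀ i ∈ a, i < n) → b.Nonempty →
    (∀ i ∈ b, n ≤ i ∧ i ∈ D) → x ∉ nbhd (e (code (a ∪ b) + 1)) (C (code (a ∪ b)))}

lemma groupwiseDense_fam {e : ℕ → ℝ} {C : ℕ → Finset ℝ} {X : Set ℝ}
    (h : ∀ k : ℕ → ℕ, StrictMono k → ∃ x ∈ X, ∀ p m, ∃ n ≥ m, x ∉ W e C k p n) :
    GroupwiseDense (fam e C X) := by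
  classical
  refine ⟨fun D hD => hD.1, ?_, ?_⟩
  · rintro D ⟨_, x, hx, hD⟩ D' hD' hfin
    refine ⟨hD', x, hx, fun m => ?_⟩
    obtain ⟨M, hM⟩ := hfin.bddAbove
    obtain ⟨n, hn, hn2⟩ := hD (max m (M + 1))
    refine ⟨n, (le_max_left _ _).trans hn, fun a b ha hb hb2 => hn2 a b ha hb fun i hi => ?_⟩
    refine ⟨(hb2 i hi).1, ?_⟩
    by_contra hcon
    have h1 : i ≤ M := hM ⟨(hb2 i hi).2, hcon⟩
    have h2 : M + 1 ≤ n := (le_max_right _ _).trans hn
    have := (hb2 i hi).1
    omega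
  · intro k hk0 hk
    obtain ⟨x, hx, hxW⟩ := h k hk
    choose f hf hfW using hxW
    -- `g j` are the chosen intervals
    let g : ℕ → ℕ := fun j => Nat.rec 0 (fun _ r => f (k (r + 1)) (r + 1)) j
    have hgs : ∀ j, g (j + 1) = f (k (g j + 1)) (g j + 1) := fun j => rfl
    have hg : StrictMono g := strictMono_nat_of_lt_succ fun j => by
      have := hf (k (g j + 1)) (g j + 1)
      rw [← hgs] at this
      omega
    have hW : ∀ j, x ∉ W e C k (k (g j + 1)) (g (j + 1)) := fun j => by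
      have := hfW (k (g j + 1)) (g j + 1)
      rw [← hgs] at this
      exact this
    refine ⟨Set.range g, Set.infinite_range_of_injective hg.injective, ?_, x, hx, ?_⟩
    · apply Set.infinite_of_forall_exists_gt
      intro n
      refine ⟨k (g (n + 1)), Set.mem_iUnion₂.2 ⟨g (n + 1), ⟨n + 1, rfl⟩, le_rfl,
        hk (Nat.lt_succ_self _)⟩, ?_⟩
      have h1 := hk.id_le (g (n + 1))
      have h2 := hg.id_le (n + 1)
      simp only [id] at h1 h2
      omega
    · intro m
      have hgm : m ≤ k (g m + 1) := by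
        have h1 := hk.id_le (g m + 1)
        have h2 := hg.id_le m
        simp only [id] at h1 h2
        omega
      refine ⟨k (g m + 1), hgm, fun a b ha hb hb2 hmem => ?_⟩
      -- the interval containing the maximum of `b`
      have hmax := b.max'_mem hb
      set i₀ := b.max' hb with hi₀
      obtain ⟨q, ⟨l, rfl⟩, hl⟩ := Set.mem_iUnion₂.1 (hb2 i₀ hmax).2
      have hml : m < l := by
        by_contra hcon
        push Not at hcon
        have h1 : g l ≤ g m := hg.monotone hcon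
        have h2 : k (g l + 1) ≤ k (g m + 1) := hk.monotone (by omega)
        have h3 := (hb2 i₀ hmax).1
        have h4 := hl.2
        omega
      obtain ⟨l', rfl⟩ : ∃ l', l = l' + 1 := ⟨l - 1, by omega⟩
      apply hW l'
      refine ⟨a ∪ b.filter (fun i => i < k (g (l' + 1))), b.filter (fun i => k (g (l' + 1)) ≤ i),
        ?_, ?_, ?_, ?_⟩
      · intro i hi
        rcases Finset.mem_union.1 hi with hi | hi
        · have h1 := ha i hi
          have h2 : g m ≤ g l' := hg.monotone (by omega)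
          have h3 : k (g m + 1) ≤ k (g l' + 1) := hk.monotone (by omega)
          omega
        · rw [Finset.mem_filter] at hi
          obtain ⟨q, ⟨l₂, rfl⟩, hl₂⟩ := Set.mem_iUnion₂.1 (hb2 i hi.1).2
          have h1 : l₂ ≤ l' := by
            by_contra hcon
            push Not at hcon
            have h2 : g (l' + 1) ≤ g l₂ := hg.monotone (show l' + 1 ≤ l₂ by omega)
            have h3 : k (g (l' + 1)) ≤ k (g l₂) := hk.monotone h2
            have h4 := hl₂.1
            omega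
          have h2 : g l₂ ≤ g l' := hg.monotone h1
          have h3 : k (g l₂ + 1) ≤ k (g l' + 1) := hk.monotone (by omega)
          have h4 := hl₂.2
          omega
      · exact ⟨i₀, Finset.mem_filter.2 ⟨hmax, hl.1⟩⟩
      · intro i hi
        rw [Finset.mem_filter] at hi
        exact ⟨hi.2, lt_of_le_of_lt (b.le_max' i hi.1) hl.2⟩
      · have hunion : a ∪ b.filter (fun i => i < k (g (l' + 1))) ∪
            b.filter (fun i => k (g (l' + 1)) ≤ i) = a ∪ b := by
          ext i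
          simp only [Finset.mem_union, Finset.mem_filter]
          constructor
          · rintro ((h | h) | h)
            · exact Or.inl h
            · exact Or.inr h.1
            · exact Or.inr h.1
          · rintro (h | h)
            · exact Or.inl (Or.inl h)
            · rcases lt_or_ge i (k (g (l' + 1))) with h2 | h2
              · exact Or.inl (Or.inr ⟨h, h2⟩)
              · exact Or.inr ⟨h, h2⟩
        rw [hunion]
        exact hmem

end Pool.Agent.Smz
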