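import Mathlib
import Pool.Agent.Lib_helper48.SmzCore

/-!
# Localization number below the groupwise density number implies (H)
-/

namespace Pool.Agent.Smz

open Set Filter Pointwise Topology Cardinal

lemma exists_locNum {w b : ℕ → ℕ} (hw : ∀ n, 1 ≤ w n) :
    ∃ F : Set (ℕ → Finset ℕ), #F = locNum w b ∧ (∀ S ∈ F, ∀ n, (S n).card ≤ w n) ∧
    ∀ x : ℕ → ℕ, (∀ n, x n < b n) → ∃ S ∈ F, ∀ᶠ n in atTop, x n ∈ S n := by
  have hne : {κ : Cardinal.{0} | ∃ F : Set (ℕ → Finset ℕ), #F = κ ∧ (∀ S ∈ F, ∀ n, (S n).card ≤ w n) ∧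
    ∀ x : ℕ → ℕ, (∀ n, x n < b n) → ∃ S ∈ F, ∀ᶠ n in atTop, x n ∈ S n}.Nonempty := by
    refine ⟨_, Set.range (fun x : ℕ → ℕ => fun n => ({x n} : Finset ℕ)), rfl, ?_, ?_⟩
    · rintro _ ⟨x, rfl⟩ n
      simpa using hw n
    · intro x _
      exact ⟨_, ⟨x, rfl⟩, Eventually.of_forall fun n => by simp⟩
  exact csInf_mem hne

lemma gNum_le {F : Set (Set (Set ℕ))} (hF : ∀ G ∈ F, GroupwiseDense G) (h : ⋂₀ F = ∅) :
    gNum ≤ #F := csInf_le' ⟨F, rfl, hF, h⟩

/-- the grid points -/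
lemma grid {z ρ : ℝ} (hρ : 0 < ρ) {y : ℝ} (hy : y ∈ Icc z (z + 1)) :
    ∃ i < ⌈2 / ρ⌉₊ + 1, |y - (z + (i : ℝ) * (ρ / 2))| ≤ ρ / 2 := by
  have h0 : 0 ≤ (y - z) / (ρ / 2) := by
    apply div_nonneg <;> linarith [hy.1]
  refine ⟨⌊(y - z) / (ρ / 2)⌋₊, ?_, ?_⟩
  · have h1 : ⌊(y - z) / (ρ / 2)⌋₊ ≤ ⌈2 / ρ⌉₊ := by
      rw [← Nat.cast_le (α := ℝ)]
      refine (Nat.floor_le h0).trans (le_trans ?_ (Nat.le_ceil _))
      rw [div_le_div_iff₀ (by positivity) hρ]
      nlinarith [hy.2]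
    omega
  · have h1 := Nat.floor_le h0
    have h2 := Nat.lt_floor_add_one ((y - z) / (ρ / 2))
    rw [le_div_iff₀ (by positivity)] at h1
    rw [div_lt_iff₀ (by positivity)] at h2
    rw [abs_le]
    constructor <;> nlinarith

/-- the compact case -/
theorem meager_piece {w : ℕ → ℕ} (hw : ∀ n, 1 ≤ w n) (hloc : ∀ b, locNum w b < gNum)
    {K : Set ℝ} (hK : IsCompact K) (hint : interior K = ∅) {z : ℝ} {X : Set ℝ}
    (hXz : X ⊆ Icc z (z + 1)) (hX : StrongMeasureZero X) : IsMeagre (X + K) := by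
  classical
  by_contra hnm
  obtain ⟨e, hpos, hle, he⟩ := exists_radii hK hint w
  set b : ℕ → ℕ := fun c => ⌈2 / e (c + 1)⌉₊ + 1 with hb
  obtain ⟨F, hFcard, hFw, hFcap⟩ := exists_locNum (w := w) (b := b) hw
  let pt : ℕ → ℕ → ℝ := fun c i => z + (i : ℝ) * (e (c + 1) / 2)
  let C : (ℕ → Finset ℕ) → ℕ → Finset ℝ := fun S c => (S c).image (pt c)
  have hCcard : ∀ S ∈ F, ∀ c, (C S c).card ≤ w c := fun S hS c =>
    Finset.card_image_le.trans (hFw S hS c)
  -- all families are groupwise dense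
  have hgd : ∀ G ∈ (fun S => fam e (C S) X) '' F, GroupwiseDense G := by
    rintro _ ⟨S, hS, rfl⟩
    apply groupwiseDense_fam
    intro k hk
    by_contra hcon
    push Not at hcon
    exact hnm (meager_of_liminf hpos hle he (hCcard S hS) hk hcon)
  have hne : (⋂₀ ((fun S => fam e (C S) X) '' F)).Nonempty := by
    by_contra hcon
    rw [Set.not_nonempty_iff_eq_empty] at hcon
    have h1 := gNum_le hgd hcon
    have h2 : #((fun S => fam e (C S) X) '' F) ≤ #F := Cardinal.mk_image_le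
    have h3 := hloc b
    rw [← hFcard] at h3
    exact absurd (h1.trans h2) (not_le.2 h3)
  obtain ⟨D, hD⟩ := hne
  have hDF : ∀ S ∈ F, D ∈ fam e (C S) X := fun S hS => hD _ ⟨S, hS, rfl⟩
  have hDinf : D.Infinite := by
    obtain ⟨S, hS, _⟩ := hFcap (fun _ => 0) (fun n => by simp [hb])
    exact (hDF S hS).1
  -- enumeration of `D`
  let d : ℕ → ℕ := Nat.nth (· ∈ D)
  have hd : StrictMono d := Nat.nth_strictMono hDinf
  have hdD : ∀ l, d l ∈ D := fun l => Nat.nth_mem_of_infinite hDinf l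
  let t : ℕ → Finset ℕ := fun l => (Finset.range (d l + 1)).filter (· ∈ D)
  have htmem : ∀ l i, i ∈ t l ↔ i ≤ d l ∧ i ∈ D := fun l i => by
    simp only [t, Finset.mem_filter, Finset.mem_range]
    constructor
    · rintro ⟨h1, h2⟩; exact ⟨by omega, h2⟩
    · rintro ⟨h1, h2⟩; exact ⟨by omega, h2⟩
  let c : ℕ → ℕ := fun l => code (t l)
  have hcinj : Function.Injective c := by
    intro l l' hll
    have h1 : t l = t l' := code_injective hll
    have h2 : d l ≤ d l' := ((htmem l' (d l)).1 (h1 ▸ (htmem l (d l)).2 ⟨le_rfl, hdD l⟩)).1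
    have h3 : d l' ≤ d l := ((htmem l (d l')).1 (h1 ▸ (htmem l' (d l')).2 ⟨le_rfl, hdD l'⟩)).1
    exact hd.injective (le_antisymm h2 h3)
  -- strong measure zero
  have hsmz := fun r : ℕ => hX (fun j => e (c (Nat.pair r j) + 1) / 2) (fun j => half_pos (hpos _))
  choose α β hαβ hcov using hsmz
  have hidx : ∀ l, ∃ i < b (c l), ∀ x ∈ Icc (α l.unpair.1 l.unpair.2) (β l.unpair.1 l.unpair.2) ∩
      Icc z (z + 1), |x - pt (c l) i| ≤ e (c l + 1) := by
    intro l
    by_cases hn : (Icc (α l.unpair.1 l.unpair.2) (β l.unpair.1 l.unpair.2) ∩ Icc z (z + 1)).Nonempty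
    · obtain ⟨y, hy1, hy2⟩ := hn
      obtain ⟨i, hi, hyi⟩ := grid (hpos (c l + 1)) hy2
      refine ⟨i, hi, fun x hx => ?_⟩
      have h1 := hαβ l.unpair.1 l.unpair.2
      rw [Nat.pair_unpair] at h1
      have h2 : |x - y| ≤ e (c l + 1) / 2 := by
        rw [abs_le]
        constructor <;> linarith [hx.1.1, hx.1.2, hy1.1, hy1.2]
      have h3 : x - pt (c l) i = (x - y) + (y - (z + (i : ℝ) * (e (c l + 1) / 2))) := by
        simp only [pt]; ring
      rw [h3]
      exact (abs_add_le _ _).trans (by linarith)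
    · refine ⟨0, by simp [hb], fun x hx => absurd ⟨x, hx⟩ hn⟩
  choose idx hidxb hidx2 using hidx
  let g : ℕ → ℕ := Function.extend c idx (fun _ => 0)
  have hgb : ∀ n, g n < b n := by
    intro n
    by_cases hn : ∃ l, c l = n
    · obtain ⟨l, rfl⟩ := hn
      simp only [g]
      rw [hcinj.extend_apply]
      exact hidxb l
    · simp only [g]
      rw [Function.extend_apply' _ _ _ hn]
      simp [hb]
  obtain ⟨S, hS, hcap⟩ := hFcap g hgb
  obtain ⟨N₀, hN₀⟩ := eventually_atTop.1 hcap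
  obtain ⟨_, x, hxX, hx⟩ := hDF S hS
  obtain ⟨n, hn, hn2⟩ := hx N₀
  obtain ⟨j, hj⟩ := Set.mem_iUnion.1 (hcov n hxX)
  set l := Nat.pair n j with hl
  have hnl : n ≤ l := Nat.left_le_pair n j
  have hdl : l ≤ d l := hd.id_le l
  have hcl : d l < c l := lt_code ((htmem l (d l)).2 ⟨le_rfl, hdD l⟩)
  have hgl : idx l ∈ S (c l) := by
    have h1 := hN₀ (c l) (by omega)
    simp only [g] at h1
    rwa [hcinj.extend_apply] at h1
  have hball : |x - pt (c l) (idx l)| ≤ e (c l + 1) := by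
    apply hidx2
    refine ⟨?_, hXz hxX⟩
    have h1 : l.unpair = (n, j) := by rw [hl, Nat.unpair_pair]
    rw [h1]
    exact hj
  refine hn2 ((t l).filter (fun i => i < n)) ((t l).filter (fun i => n ≤ i)) ?_ ?_ ?_ ?_
  · intro i hi
    exact (Finset.mem_filter.1 hi).2
  · exact ⟨d l, Finset.mem_filter.2 ⟨(htmem l (d l)).2 ⟨le_rfl, hdD l⟩, by omega⟩⟩
  · intro i hi
    rw [Finset.mem_filter] at hi
    exact ⟨hi.2, ((htmem l i).1 hi.1).2⟩
  · have hunion : (t l).filter (fun i => i < n) ∪ (t l).filter (fun i => n ≤ i) = t l := by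
      ext i
      simp only [Finset.mem_union, Finset.mem_filter]
      constructor
      · rintro (h | h)
        · exact h.1
        · exact h.1
      · intro h
        rcases lt_or_ge i n with h2 | h2
        · exact Or.inl ⟨h, h2⟩
        · exact Or.inr ⟨h, h2⟩
    rw [hunion]
    exact ⟨pt (c l) (idx l), Finset.mem_image.2 ⟨idx l, hgl, rfl⟩, hball⟩

/-- strong measure zero is hereditary -/
lemma StrongMeasureZero.mono {X Y : Set ℝ} (hX : StrongMeasureZero X) (hYX : Y ⊆ X) :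
    StrongMeasureZero Y := fun ε hε => by
  obtain ⟨a, b, h1, h2⟩ := hX ε hε
  exact ⟨a, b, h1, hYX.trans h2⟩

/-- **Theorem.** If the localization numbers (for one width function) are smaller than the
groupwise density number, then every strong measure zero set is meager-additive. -/
theorem statementH_of_loc {w : ℕ → ℕ} (hw : ∀ n, 1 ≤ w n) (hloc : ∀ b, locNum w b < gNum) :
    StatementH := by
  intro X hX M hM
  obtain ⟨T, hT, hTc, hMT⟩ := isMeagre_iff_countable_union_isNowhereDense.1 hM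
  have hcount : Countable T := hTc
  have h1 : IsMeagre (⋃ q : T × ℤ × ℕ, ((X ∩ Icc (q.2.1 : ℝ) ((q.2.1 : ℝ) + 1)) +
      (closure (q.1 : Set ℝ) ∩ Icc (-(q.2.2 : ℝ)) (q.2.2 : ℝ)))) := by
    apply isMeagre_iUnion
    rintro ⟨⟨s, hs⟩, r, j⟩
    refine meager_piece hw hloc (z := (r : ℝ)) ?_ ?_ ?_ ?_
    · exact (isCompact_Icc).inter_left isClosed_closure
    · have h2 := hT s hs
      rw [IsNowhereDense] at h2
      apply Set.eq_empty_of_subset_empty
      rw [← h2]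
      exact interior_mono inter_subset_left
    · exact inter_subset_right
    · exact hX.mono inter_subset_left
  refine h1.mono ?_
  rintro _ ⟨x, hx, y, hy, rfl⟩
  obtain ⟨s, hs, hys⟩ := hMT hy
  obtain ⟨j, hj⟩ := exists_nat_ge |y|
  refine Set.mem_iUnion.2 ⟨(⟨s, hs⟩, ⌊x⌋, j), x, ⟨hx, Int.floor_le x, (Int.lt_floor_add_one x).le⟩, y,
    ⟨subset_closure hys, ?_⟩, rfl⟩
  exact abs_le.1 hj

end Pool.Agent.Smz
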