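import Mathlib

namespace PoolUS

/-- the natural numbers on the prescribed side of `j` -/
def Side : Bool → ℕ → ℕ → Prop
  | true, j, i => j < i
  | false, j, i => i < j

/-- admissible lists of indices for the word `σ` inside the set `I` -/
def Adm : List Bool → Set ℕ → List ℕ → Prop
  | _, _, [] => True
  | [], I, j :: l => j ∈ I ∧ l = []
  | b :: σ, I, j :: l => j ∈ I ∧ Adm σ {i | i ∈ I ∧ Side b j i} l

/-- the weighted sum of squares along a list -/
def Q (η : ℝ) (x : ℕ → ℝ) : List ℕ → ℝ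
  | [] => 0
  | j :: l => x j ^ 2 + η * Q η x l

/-- the coefficient of the square of the `m`-th coordinate -/
def coef (η : ℝ) (m : ℕ) : List ℕ → ℝ
  | [] => 0
  | j :: l => if j = m then 1 else η * coef η m l

lemma adm_nil (σ : List Bool) (I : Set ℕ) : Adm σ I [] := by
  cases σ <;> exact trivial

lemma side_ne {b : Bool} {j i : ℕ} (h : Side b j i) : i ≠ j := by
  cases b <;> simp only [Side] at h <;> omega

lemma adm_mem {l : List ℕ} : ∀ {σ : List Bool} {I : Set ℕ}, Adm σ I l → ∀ i ∈ l, i ∈ I := by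
  induction l with
  | nil => intro σ I _ i hi; simp at hi
  | cons j l ih =>
    intro σ I h i hi
    cases σ with
    | nil =>
      obtain ⟨h1, h2⟩ := h
      subst h2
      simp at hi
      subst hi; exact h1
    | cons b σ =>
      obtain ⟨h1, h2⟩ := h
      rcases List.mem_cons.1 hi with rfl | hi
      · exact h1
      · exact (ih h2 i hi).1

lemma adm_nodup {l : List ℕ} : ∀ {σ : List Bool} {I : Set ℕ}, Adm σ I l → l.Nodup := by
  induction l with
  | nil => intro σ I _; exact List.nodup_nil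
  | cons j l ih =>
    intro σ I h
    cases σ with
    | nil =>
      obtain ⟨h1, h2⟩ := h
      subst h2
      simp
    | cons b σ =>
      obtain ⟨h1, h2⟩ := h
      refine List.nodup_cons.2 ⟨fun hj => ?_, ih h2⟩
      exact side_ne (adm_mem h2 j hj).2 rfl

lemma adm_length {l : List ℕ} : ∀ {σ : List Bool} {I : Set ℕ}, Adm σ I l →
    l.length ≤ σ.length + 1 := by
  induction l with
  | nil => intro σ I _; simp
  | cons j l ih =>
    intro σ I h
    cases σ with
    | nil =>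
      obtain ⟨h1, h2⟩ := h
      subst h2
      simp
    | cons b σ =>
      obtain ⟨h1, h2⟩ := h
      have := ih h2
      simp only [List.length_cons]
      omega

lemma Q_nonneg {η : ℝ} (hη : 0 ≤ η) (x : ℕ → ℝ) (l : List ℕ) : 0 ≤ Q η x l := by
  induction l with
  | nil => exact le_refl _
  | cons j l ih =>
    simp only [Q]
    positivity

lemma Q_le {η : ℝ} (hη : 0 ≤ η) (hη' : η ≤ 1 / 2) {x : ℕ → ℝ} {B : ℝ} (hB : ∀ i, |x i| ≤ B)
    (l : List ℕ) : Q η x l ≤ 2 * B ^ 2 := by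
  have hB0 : 0 ≤ B := (abs_nonneg _).trans (hB 0)
  induction l with
  | nil => simp only [Q]; positivity
  | cons j l ih =>
    simp only [Q]
    have h1 : x j ^ 2 ≤ B ^ 2 := by
      rw [← sq_abs (x j)]
      exact pow_le_pow_left₀ (abs_nonneg _) (hB j) 2
    have h2 : η * Q η x l ≤ 1 / 2 * (2 * B ^ 2) := by
      apply mul_le_mul hη' ih (Q_nonneg hη x l) (by norm_num)
    linarith

lemma Q_congr {η : ℝ} {x y : ℕ → ℝ} {l : List ℕ} (h : ∀ i ∈ l, x i = y i) :
    Q η x l = Q η y l := by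
  induction l with
  | nil => rfl
  | cons j l ih =>
    simp only [Q]
    rw [h j (by simp), ih (fun i hi => h i (List.mem_cons_of_mem _ hi))]

lemma coef_of_not_mem {η : ℝ} {m : ℕ} {l : List ℕ} (h : m ∉ l) : coef η m l = 0 := by
  induction l with
  | nil => rfl
  | cons j l ih =>
    simp only [List.mem_cons, not_or] at h
    simp only [coef]
    rw [if_neg (fun e => h.1 e.symm), ih h.2, mul_zero]

lemma coef_mem {η : ℝ} {m : ℕ} {l : List ℕ} (h : m ∈ l) : ∃ i < l.length, coef η m l = η ^ i := by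
  induction l with
  | nil => simp at h
  | cons j l ih =>
    by_cases hj : j = m
    · exact ⟨0, by simp, by simp [coef, hj]⟩
    · rcases List.mem_cons.1 h with h | h
      · exact absurd h.symm hj
      · obtain ⟨i, hi, he⟩ := ih h
        refine ⟨i + 1, by simpa using hi, ?_⟩
        simp only [coef]
        rw [if_neg hj, he, pow_succ]
        ring

lemma Q_update {η : ℝ} {x : ℕ → ℝ} {m : ℕ} {l : List ℕ} (hl : l.Nodup) (s : ℝ) :
    Q η (Function.update x m s) l = coef η m l * s ^ 2 + Q η (Function.update x m 0) l := by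
  induction l with
  | nil => simp [Q, coef]
  | cons j l ih =>
    rw [List.nodup_cons] at hl
    simp only [Q, coef]
    by_cases hj : j = m
    · subst hj
      have h1 : Q η (Function.update x j s) l = Q η (Function.update x j 0) l := by
        apply Q_congr
        intro i hi
        have : i ≠ j := fun e => hl.1 (e ▸ hi)
        simp [Function.update_of_ne this]
      rw [if_pos rfl, h1]
      simp
    · rw [if_neg hj, ih hl.2]
      rw [Function.update_of_ne hj, Function.update_of_ne hj]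
      ring

/-- the finite set of possible slopes -/
noncomputable def Slopes (η : ℝ) (n : ℕ) : Finset ℝ :=
  insert 0 ((Finset.range (n + 1)).image (fun i => η ^ i))

lemma card_slopes (η : ℝ) (n : ℕ) : (Slopes η n).card ≤ n + 2 := by
  refine (Finset.card_insert_le _ _).trans ?_
  have := Finset.card_image_le (s := Finset.range (n + 1)) (f := fun i => η ^ i)
  simp only [Finset.card_range] at this
  omega

lemma coef_slopes {η : ℝ} {m : ℕ} {l : List ℕ} {σ : List Bool} {I : Set ℕ} (h : Adm σ I l) :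
    coef η m l ∈ Slopes η σ.length := by
  by_cases hm : m ∈ l
  · obtain ⟨i, hi, he⟩ := coef_mem (η := η) hm
    have := adm_length h
    rw [he]
    unfold Slopes
    apply Finset.mem_insert_of_mem
    exact Finset.mem_image.2 ⟨i, Finset.mem_range.2 (by omega), rfl⟩
  · rw [coef_of_not_mem hm]
    exact Finset.mem_insert_self _ _

/-- the functional `G` -/
noncomputable def G (η : ℝ) (σ : List Bool) (x : ℕ → ℝ) : ℝ :=
  sSup {r | ∃ l, Adm σ Set.univ l ∧ Q η x l = r}

lemma G_bdd {η : ℝ} (hη : 0 ≤ η) (hη' : η ≤ 1 / 2) {x : ℕ → ℝ} {B : ℝ} (hB : ∀ i, |x i| ≤ B)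
    (σ : List Bool) : BddAbove {r | ∃ l, Adm σ Set.univ l ∧ Q η x l = r} := by
  refine ⟨2 * B ^ 2, ?_⟩
  rintro r ⟨l, _, rfl⟩
  exact Q_le hη hη' hB l

lemma G_nonempty (η : ℝ) (σ : List Bool) (x : ℕ → ℝ) :
    {r | ∃ l, Adm σ Set.univ l ∧ Q η x l = r}.Nonempty := ⟨0, [], adm_nil _ _, rfl⟩

lemma Q_le_G {η : ℝ} (hη : 0 ≤ η) (hη' : η ≤ 1 / 2) {x : ℕ → ℝ} {B : ℝ} (hB : ∀ i, |x i| ≤ B)
    {σ : List Bool} {l : List ℕ} (hl : Adm σ Set.univ l) : Q η x l ≤ G η σ x :=
  le_csSup (G_bdd hη hη' hB σ) ⟨l, hl, rfl⟩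

lemma G_nonneg {η : ℝ} (hη : 0 ≤ η) (hη' : η ≤ 1 / 2) {x : ℕ → ℝ} {B : ℝ} (hB : ∀ i, |x i| ≤ B)
    (σ : List Bool) : 0 ≤ G η σ x := Q_le_G hη hη' hB (adm_nil σ _)

lemma G_le {η : ℝ} (hη : 0 ≤ η) (hη' : η ≤ 1 / 2) {x : ℕ → ℝ} {B : ℝ} (hB : ∀ i, |x i| ≤ B)
    (σ : List Bool) : G η σ x ≤ 2 * B ^ 2 := by
  apply csSup_le (G_nonempty η σ x)
  rintro r ⟨l, _, rfl⟩
  exact Q_le hη hη' hB l

lemma minkowski2 {a b p q w η : ℝ} (hη : 0 ≤ η) (hp : 0 ≤ p) (hq : 0 ≤ q) (hw : 0 ≤ w)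
    (h : √w ≤ √p + √q) :
    √((a + b) ^ 2 + η * w) ≤ √(a ^ 2 + η * p) + √(b ^ 2 + η * q) := by
  set P := √p with hP
  set R := √q with hR
  have hP0 : 0 ≤ P := Real.sqrt_nonneg _
  have hR0 : 0 ≤ R := Real.sqrt_nonneg _
  have hpP : p = P ^ 2 := (Real.sq_sqrt hp).symm
  have hqR : q = R ^ 2 := (Real.sq_sqrt hq).symm
  have hw2 : w ≤ (P + R) ^ 2 := by
    calc w = (√w) ^ 2 := (Real.sq_sqrt hw).symm
      _ ≤ (P + R) ^ 2 := pow_le_pow_left₀ (Real.sqrt_nonneg _) h 2
  apply Real.sqrt_le_iff.2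
  refine ⟨by positivity, ?_⟩
  have hu : 0 ≤ a ^ 2 + η * p := by positivity
  have hv : 0 ≤ b ^ 2 + η * q := by positivity
  have hsu := Real.sq_sqrt hu
  have hsv := Real.sq_sqrt hv
  have hcs : a * b + η * (P * R) ≤ √(a ^ 2 + η * p) * √(b ^ 2 + η * q) := by
    rw [← Real.sqrt_mul hu]
    apply Real.le_sqrt_of_sq_le
    rw [hpP, hqR]
    nlinarith [mul_nonneg hη (sq_nonneg (a * R - b * P))]
  have : η * w ≤ η * (P + R) ^ 2 := mul_le_mul_of_nonneg_left hw2 hη
  nlinarith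

lemma Q_add {η : ℝ} (hη : 0 ≤ η) (x y : ℕ → ℝ) (l : List ℕ) :
    √(Q η (x + y) l) ≤ √(Q η x l) + √(Q η y l) := by
  induction l with
  | nil => simp [Q]
  | cons j l ih =>
    simp only [Q, Pi.add_apply]
    exact minkowski2 hη (Q_nonneg hη _ _) (Q_nonneg hη _ _) (Q_nonneg hη _ _) ih

lemma G_add {η : ℝ} (hη : 0 ≤ η) (hη' : η ≤ 1 / 2) {x y : ℕ → ℝ} {B : ℝ}
    (hx : ∀ i, |x i| ≤ B) (hy : ∀ i, |y i| ≤ B) (σ : List Bool) :
    G η σ (x + y) ≤ (√(G η σ x) + √(G η σ y)) ^ 2 := by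
  apply csSup_le (G_nonempty _ _ _)
  rintro r ⟨l, hl, rfl⟩
  have h1 := Q_add hη x y l
  have h2 : √(Q η x l) ≤ √(G η σ x) := Real.sqrt_le_sqrt (Q_le_G hη hη' hx hl)
  have h3 : √(Q η y l) ≤ √(G η σ y) := Real.sqrt_le_sqrt (Q_le_G hη hη' hy hl)
  calc Q η (x + y) l = (√(Q η (x + y) l)) ^ 2 := (Real.sq_sqrt (Q_nonneg hη _ _)).symm
    _ ≤ _ := pow_le_pow_left₀ (Real.sqrt_nonneg _) (by linarith) 2

lemma Q_smul (η : ℝ) (c : ℝ) (x : ℕ → ℝ) (l : List ℕ) : Q η (c • x) l = c ^ 2 * Q η x l := by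
  induction l with
  | nil => simp [Q]
  | cons j l ih =>
    simp only [Q, Pi.smul_apply, smul_eq_mul, ih]
    ring

lemma G_smul_le {η : ℝ} (hη : 0 ≤ η) (hη' : η ≤ 1 / 2) (c : ℝ) {x : ℕ → ℝ} {B : ℝ}
    (hx : ∀ i, |x i| ≤ B) (σ : List Bool) : G η σ (c • x) ≤ c ^ 2 * G η σ x := by
  apply csSup_le (G_nonempty _ _ _)
  rintro r ⟨l, hl, rfl⟩
  rw [Q_smul]
  exact mul_le_mul_of_nonneg_left (Q_le_G hη hη' hx hl) (sq_nonneg c)

lemma G_smul {η : ℝ} (hη : 0 ≤ η) (hη' : η ≤ 1 / 2) (c : ℝ) {x : ℕ → ℝ} {B : ℝ}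
    (hx : ∀ i, |x i| ≤ B) (σ : List Bool) : G η σ (c • x) = c ^ 2 * G η σ x := by
  apply le_antisymm (G_smul_le hη hη' c hx σ)
  by_cases hc : c = 0
  · subst hc
    simp only [ne_eq, OfNat.ofNat_ne_zero, not_false_eq_true, zero_pow, zero_mul]
    apply G_nonneg hη hη' (B := 0)
    intro i; simp
  · have hcx : ∀ i, |(c • x) i| ≤ |c| * B := by
      intro i
      simp only [Pi.smul_apply, smul_eq_mul, abs_mul]
      exact mul_le_mul_of_nonneg_left (hx i) (abs_nonneg c)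
    have h := G_smul_le hη hη' c⁻¹ hcx σ
    rw [smul_smul, inv_mul_cancel₀ hc, one_smul] at h
    calc c ^ 2 * G η σ x ≤ c ^ 2 * (c⁻¹ ^ 2 * G η σ (c • x)) :=
          mul_le_mul_of_nonneg_left h (sq_nonneg c)
      _ = G η σ (c • x) := by
          field_simp


lemma quad_zero_of_three {a b c r₁ r₂ r₃ : ℝ} (h12 : r₁ < r₂) (h23 : r₂ < r₃)
    (h1 : a * r₁ ^ 2 + b * r₁ + c = 0) (h2 : a * r₂ ^ 2 + b * r₂ + c = 0)
    (h3 : a * r₃ ^ 2 + b * r₃ + c = 0) : a = 0 ∧ b = 0 ∧ c = 0 := by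
  have e1 : (r₂ - r₁) * (a * (r₂ + r₁) + b) = 0 := by linear_combination h2 - h1
  have e2 : (r₃ - r₂) * (a * (r₃ + r₂) + b) = 0 := by linear_combination h3 - h2
  have f1 : a * (r₂ + r₁) + b = 0 := by
    rcases mul_eq_zero.1 e1 with h | h
    · exact absurd h (by linarith [sub_pos.2 h12] )
    · exact h
  have f2 : a * (r₃ + r₂) + b = 0 := by
    rcases mul_eq_zero.1 e2 with h | h
    · exact absurd h (by linarith [sub_pos.2 h23] )
    · exact h
  have e3 : (r₃ - r₁) * a = 0 := by linear_combination f2 - f1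
  have ha : a = 0 := by
    rcases mul_eq_zero.1 e3 with h | h
    · exact absurd h (by linarith [sub_pos.2 h12, sub_pos.2 h23])
    · exact h
  subst ha
  have hb : b = 0 := by linarith
  subst hb
  exact ⟨rfl, rfl, by linarith⟩

lemma root_between {a b c u v : ℝ}
    (h1 : ¬ ∀ t, u ≤ t → t ≤ v → 0 ≤ a * t ^ 2 + b * t + c)
    (h2 : ¬ ∀ t, u ≤ t → t ≤ v → a * t ^ 2 + b * t + c ≤ 0) :
    ∃ r, u < r ∧ r < v ∧ a * r ^ 2 + b * r + c = 0 := by
  push Not at h1 h2
  obtain ⟨s, hs1, hs2, hs⟩ := h1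
  obtain ⟨t, ht1, ht2, ht⟩ := h2
  have hcont : ContinuousOn (fun r : ℝ => a * r ^ 2 + b * r + c) (Set.uIcc s t) := by
    fun_prop
  have := intermediate_value_uIcc hcont
  have h0 : (0 : ℝ) ∈ Set.uIcc (a * s ^ 2 + b * s + c) (a * t ^ 2 + b * t + c) := by
    rw [Set.mem_uIcc]; left; exact ⟨hs.le, ht.le⟩
  obtain ⟨r, hr, hr0⟩ := this h0
  simp only at hr0
  have hrs : r ≠ s := by rintro rfl; linarith
  have hrt : r ≠ t := by rintro rfl; linarith
  rw [Set.mem_uIcc] at hr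
  refine ⟨r, ?_, ?_, hr0⟩
  · rcases hr with ⟨h, _⟩ | ⟨h, _⟩
    · exact lt_of_le_of_lt hs1 (lt_of_le_of_ne h hrs.symm)
    · exact lt_of_le_of_lt ht1 (lt_of_le_of_ne h hrt.symm)
  · rcases hr with ⟨_, h⟩ | ⟨_, h⟩
    · exact lt_of_lt_of_le (lt_of_le_of_ne h hrt) ht2
    · exact lt_of_lt_of_le (lt_of_le_of_ne h hrs) hs2

lemma exists_third (a b c p q : ℝ) (hpq : p < q) :
    ∃ p' q', p ≤ p' ∧ q' ≤ q ∧ (q - p) / 3 ≤ q' - p' ∧
      ((∀ t, p' ≤ t → t ≤ q' → 0 ≤ a * t ^ 2 + b * t + c) ∨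
       (∀ t, p' ≤ t → t ≤ q' → a * t ^ 2 + b * t + c ≤ 0)) := by
  by_contra hcon
  push Not at hcon
  have key : ∀ u v, p ≤ u → v ≤ q → (q - p) / 3 ≤ v - u →
      ∃ r, u < r ∧ r < v ∧ a * r ^ 2 + b * r + c = 0 := by
    intro u v hu hv huv
    have := hcon u v hu hv huv
    apply root_between
    · intro h
      obtain ⟨⟨t, h1, h2, h3⟩, _⟩ := this
      exact absurd (h t h1 h2) (not_le.2 h3)
    · intro h
      obtain ⟨_, ⟨t, h1, h2, h3⟩⟩ := this
      exact absurd (h t h1 h2) (not_le.2 h3)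
  obtain ⟨r1, h11, h12, h13⟩ := key p (p + (q - p) / 3) le_rfl (by linarith) (by linarith)
  obtain ⟨r2, h21, h22, h23⟩ := key (p + (q - p) / 3) (p + 2 * (q - p) / 3) (by linarith)
    (by linarith) (by linarith)
  obtain ⟨r3, h31, h32, h33⟩ := key (p + 2 * (q - p) / 3) q (by linarith)
    (by linarith) (by linarith)
  obtain ⟨ha, hb, hc⟩ := quad_zero_of_three (h12.trans h21) (h22.trans h31) h13 h23 h33
  obtain ⟨⟨t, h1, h2, h3⟩, _⟩ := hcon p q le_rfl le_rfl (by linarith)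
  rw [ha, hb, hc] at h3
  simp at h3

/-- on a subinterval a supremum of quadratics with finitely many slopes is a single branch -/
lemma branch {ι : Type*} (A β : ι → ℝ) (B : ℝ) (ξ : ℝ) (Λ : Finset ℝ) :
    ∀ (L : Set ι), L.Nonempty → (∀ i ∈ L, A i ∈ Λ) → (∀ i ∈ L, β i ≤ B) →
    ∀ p q : ℝ, p < q → ∃ p' q', p ≤ p' ∧ q' ≤ q ∧ (q - p) / 3 ^ Λ.card ≤ q' - p' ∧
      ∃ A0 ∈ Λ, ∃ β0, (∀ ε > 0, ∃ i ∈ L, A i = A0 ∧ β0 - ε < β i) ∧
        (∀ t, p' ≤ t → t ≤ q' →
          sSup ((fun i => A i * (ξ + t) ^ 2 + β i) '' L) = A0 * (ξ + t) ^ 2 + β0) := by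
  classical
  have const : ∀ (L : Set ι) (a : ℝ), L.Nonempty → (∀ i ∈ L, A i = a) → (∀ i ∈ L, β i ≤ B) →
      ∀ t, sSup ((fun i => A i * (ξ + t) ^ 2 + β i) '' L) = a * (ξ + t) ^ 2 + sSup (β '' L) := by
    intro L a hL hA hβ t
    have hbdd : BddAbove (β '' L) := ⟨B, by rintro _ ⟨i, hi, rfl⟩; exact hβ i hi⟩
    apply le_antisymm
    · apply csSup_le (hL.image _)
      rintro _ ⟨i, hi, rfl⟩
      simp only
      rw [hA i hi]
      have := le_csSup hbdd ⟨i, hi, rfl⟩
      linarith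
    · rw [← le_sub_iff_add_le']
      apply csSup_le (hL.image _)
      rintro _ ⟨i, hi, rfl⟩
      rw [le_sub_iff_add_le']
      refine le_csSup ⟨a * (ξ + t) ^ 2 + B, ?_⟩ ⟨i, hi, ?_⟩
      · rintro _ ⟨j, hj, rfl⟩
        simp only
        rw [hA j hj]
        linarith [hβ j hj]
      · simp only
        rw [hA i hi]
  have approx : ∀ (L : Set ι), L.Nonempty → (∀ i ∈ L, β i ≤ B) → ∀ ε > 0,
      ∃ i ∈ L, sSup (β '' L) - ε < β i := by
    intro L hL hβ ε hε
    obtain ⟨_, ⟨i, hi, rfl⟩, h⟩ := exists_lt_of_lt_csSup (hL.image β)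
      (show sSup (β '' L) - ε < sSup (β '' L) by linarith)
    exact ⟨i, hi, h⟩
  induction Λ using Finset.induction_on with
  | empty =>
    intro L hL hA
    obtain ⟨i, hi⟩ := hL
    exact absurd (hA i hi) (Finset.notMem_empty _)
  | insert a Λ0 ha ih =>
    intro L hL hA hβ p q hpq
    have hcard : (insert a Λ0).card = Λ0.card + 1 := Finset.card_insert_of_notMem ha
    set L0 := {i | i ∈ L ∧ A i = a} with hL0
    set L1 := {i | i ∈ L ∧ A i ≠ a} with hL1
    have hLu : L = L0 ∪ L1 := by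
      ext i; simp only [hL0, hL1, Set.mem_union, Set.mem_ofPred_eq]; tauto
    have hpow : (1 : ℝ) ≤ 3 ^ Λ0.card := one_le_pow₀ (by norm_num)
    have hpq' : (q - p) / 3 ^ (Λ0.card + 1) ≤ (q - p) / 3 ^ Λ0.card := by
      apply div_le_div_of_nonneg_left (by linarith) (by positivity)
      exact pow_le_pow_right₀ (by norm_num) (by omega)
    have hpq1 : (q - p) / 3 ^ Λ0.card ≤ q - p := div_le_self (by linarith) hpow
    by_cases h1 : L1.Nonempty
    · have hA1 : ∀ i ∈ L1, A i ∈ Λ0 := by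
        intro i hi
        rcases Finset.mem_insert.1 (hA i hi.1) with h | h
        · exact absurd h hi.2
        · exact h
      obtain ⟨p1, q1, hp1, hq1, hlen, A1, hA1m, β1, hap, hval⟩ :=
        ih L1 h1 hA1 (fun i hi => hβ i hi.1) p q hpq
      by_cases h0 : L0.Nonempty
      · have hβ0 : ∀ i ∈ L0, β i ≤ B := fun i hi => hβ i hi.1
        have hc0 := const L0 a h0 (fun i hi => hi.2) hβ0
        set b0 := sSup (β '' L0) with hb0
        have hlt : p1 < q1 := by
          have : 0 < (q - p) / 3 ^ Λ0.card := div_pos (by linarith) (by positivity)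
          linarith
        obtain ⟨p2, q2, hp2, hq2, hlen2, hsign⟩ := exists_third (a - A1)
          (2 * ξ * (a - A1)) ((a - A1) * ξ ^ 2 + (b0 - β1)) p1 q1 hlt
        have hlen3 : (q - p) / 3 ^ (Λ0.card + 1) ≤ q2 - p2 := by
          rw [pow_succ, ← div_div]
          calc (q - p) / 3 ^ Λ0.card / 3 ≤ (q1 - p1) / 3 := by
                apply div_le_div_of_nonneg_right hlen (by norm_num)
            _ ≤ q2 - p2 := hlen2
        have hbd : ∀ (L' : Set ι), L' ⊆ L → ∀ t : ℝ,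
            BddAbove ((fun i => A i * (ξ + t) ^ 2 + β i) '' L') := by
          intro L' hL' t
          refine ⟨(insert a Λ0).sup' ⟨a, Finset.mem_insert_self _ _⟩ (fun x => x) *
            (ξ + t) ^ 2 + B, ?_⟩
          rintro _ ⟨i, hi, rfl⟩
          simp only
          have := Finset.le_sup' (fun x : ℝ => x) (hA i (hL' hi))
          have := mul_le_mul_of_nonneg_right this (sq_nonneg (ξ + t))
          linarith [hβ i (hL' hi)]
        have hmax : ∀ t, sSup ((fun i => A i * (ξ + t) ^ 2 + β i) '' L) =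
            max (sSup ((fun i => A i * (ξ + t) ^ 2 + β i) '' L0))
              (sSup ((fun i => A i * (ξ + t) ^ 2 + β i) '' L1)) := by
          intro t
          conv_lhs => rw [hLu]
          rw [Set.image_union, csSup_union (hbd L0 (fun i hi => hi.1) t) (h0.image _)
            (hbd L1 (fun i hi => hi.1) t) (h1.image _)]
        refine ⟨p2, q2, hp1.trans hp2, hq2.trans hq1, by rw [hcard]; exact hlen3, ?_⟩
        rcases hsign with hs | hs
        · refine ⟨a, Finset.mem_insert_self _ _, b0, ?_, ?_⟩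
          · intro ε hε
            obtain ⟨i, hi, h⟩ := approx L0 h0 hβ0 ε hε
            exact ⟨i, hi.1, hi.2, h⟩
          · intro t ht1 ht2
            rw [hmax, hc0, hval t (hp2.trans ht1) (ht2.trans hq2)]
            apply max_eq_left
            nlinarith [hs t ht1 ht2]
        · refine ⟨A1, Finset.mem_insert_of_mem hA1m, β1, ?_, ?_⟩
          · intro ε hε
            obtain ⟨i, hi, h, h'⟩ := hap ε hε
            exact ⟨i, hi.1, h, h'⟩
          · intro t ht1 ht2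
            rw [hmax, hc0, hval t (hp2.trans ht1) (ht2.trans hq2)]
            apply max_eq_right
            nlinarith [hs t ht1 ht2]
      · rw [Set.not_nonempty_iff_eq_empty] at h0
        rw [h0, Set.empty_union] at hLu
        refine ⟨p1, q1, hp1, hq1, by rw [hcard]; linarith, A1,
          Finset.mem_insert_of_mem hA1m, β1, ?_, ?_⟩
        · intro ε hε
          obtain ⟨i, hi, h, h'⟩ := hap ε hε
          exact ⟨i, hi.1, h, h'⟩
        · intro t ht1 ht2
          have := hval t ht1 ht2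
          rw [← hLu] at this
          exact this
    · rw [Set.not_nonempty_iff_eq_empty] at h1
      have hAa : ∀ i ∈ L, A i = a := by
        intro i hi
        by_contra hne
        have : i ∈ L1 := ⟨hi, hne⟩
        rw [h1] at this
        exact this
      refine ⟨p, q, le_rfl, le_rfl, by rw [hcard]; linarith, a, Finset.mem_insert_self _ _,
        sSup (β '' L), ?_, ?_⟩
      · intro ε hε
        obtain ⟨i, hi, h⟩ := approx L hL hβ ε hε
        exact ⟨i, hi, hAa i hi, h⟩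
      · intro t _ _
        exact const L a hL hAa hβ t

end PoolUS
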