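import Mathlib

/-! Uniform property (S) for a (semi)norm on a real vector space. -/

namespace PoolUS

/-- `U_X(x,y;a)`: the supremum over `‖z‖ ≤ a` of `|‖x+z‖ - ‖y+z‖|`. -/
noncomputable def USup {X : Type*} [AddCommGroup X] [Module ℝ X] (N : Seminorm ℝ X)
    (x y : X) (a : ℝ) : ℝ :=
  sSup {r : ℝ | ∃ z : X, N z ≤ a ∧ r = |N (x + z) - N (y + z)|}

/-- `U_X(d;a)`: the infimum of `U_X(x,y;a)` over unit vectors `x, y` with `‖x-y‖ ≥ d`. -/
noncomputable def UInf {X : Type*} [AddCommGroup X] [Module ℝ X] (N : Seminorm ℝ X)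
    (d a : ℝ) : ℝ :=
  sInf {r : ℝ | ∃ x y : X, N x = 1 ∧ N y = 1 ∧ d ≤ N (x - y) ∧ r = USup N x y a}

/-- Uniform property (S): `U_X(d;a) > 0` for all `0 < d < 2` and all `a > 0`. -/
def UniformPropertyS {X : Type*} [AddCommGroup X] [Module ℝ X] (N : Seminorm ℝ X) : Prop :=
  ∀ d a : ℝ, 0 < d → d < 2 → 0 < a → 0 < UInf N d a

end PoolUS
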