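import Mathlib
import Pool.Agent.Lib_helper48.UniformSCore

namespace PoolUS

/-- some admissible list beats, by a fixed margin, all admissible lists avoiding `m` -/
def Dom (η : ℝ) (x : ℕ → ℝ) (σ : List Bool) (I : Set ℕ) (m : ℕ) : Prop :=
  ∃ l₀, Adm σ I l₀ ∧ ∃ δ > 0, ∀ l, Adm σ I l → m ∉ l → Q η x l + δ ≤ Q η x l₀

lemma dom_base {η : ℝ} {x : ℕ → ℝ} {I : Set ℕ} {m : ℕ} {μ : ℝ} (hμ : 0 < μ)
    (hm : m ∈ I) (h : ∀ i ∈ I, i ≠ m → x i ^ 2 + μ ≤ x m ^ 2) (h' : μ ≤ x m ^ 2) :
    Dom η x [] I m := by
  refine ⟨[m], ⟨hm, rfl⟩, μ, hμ, ?_⟩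
  intro l hl hml
  cases l with
  | nil => simp only [Q]; linarith
  | cons i l =>
    obtain ⟨hi, rfl⟩ := hl
    simp only [List.mem_cons, List.not_mem_nil, or_false] at hml
    simp only [Q]
    have := h i hi (fun e => hml e.symm)
    linarith

lemma dom_peel {η : ℝ} (hη : 0 < η) (hη' : η ≤ 1 / 2) {x : ℕ → ℝ} {B μ : ℝ}
    (hB : ∀ i, |x i| ≤ B) (hμ : 0 < μ) (hημ : η * (2 * B ^ 2) ≤ μ / 2)
    {σ : List Bool} {I : Set ℕ} {m p : ℕ} {b : Bool} (hp : p ∈ I) (hm : m ∈ I) (hpm : m ≠ p)
    (h : ∀ i ∈ I, i ≠ p → x i ^ 2 + μ ≤ x p ^ 2)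
    (hd : Dom η x σ {i | i ∈ I ∧ Side b p i} m) : Dom η x (b :: σ) I m := by
  obtain ⟨l₀, hl₀, δ, hδ, hdom⟩ := hd
  have hq0 := Q_nonneg hη.le x l₀
  refine ⟨p :: l₀, ⟨hp, hl₀⟩, min (η * δ) (μ / 2), lt_min (mul_pos hη hδ) (by linarith), ?_⟩
  intro l hl hml
  have hμ2 : min (η * δ) (μ / 2) ≤ μ / 2 := min_le_right _ _
  have hμ3 : min (η * δ) (μ / 2) ≤ η * δ := min_le_left _ _
  have hmp := h m hm hpm
  cases l with
  | nil =>
    simp only [Q]
    nlinarith [mul_nonneg hη.le hq0, sq_nonneg (x m)]
  | cons i l =>
    obtain ⟨hi, hl⟩ := hl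
    simp only [Q]
    by_cases hip : i = p
    · subst hip
      have hml' : m ∉ l := fun hh => hml (List.mem_cons_of_mem _ hh)
      have := mul_le_mul_of_nonneg_left (hdom l hl hml') hη.le
      rw [mul_add] at this
      linarith
    · have h1 := h i hi hip
      have h2 : η * Q η x l ≤ η * (2 * B ^ 2) :=
        mul_le_mul_of_nonneg_left (Q_le hη.le hη' hB l) hη.le
      nlinarith [mul_nonneg hη.le hq0]

lemma dom_opt {η : ℝ} (hη : 0 < η) (hη' : η ≤ 1 / 2) {x : ℕ → ℝ} {B μ : ℝ}
    (hB : ∀ i, |x i| ≤ B) (hμ : 0 < μ) (hημ : η * (2 * B ^ 2) ≤ μ / 2)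
    {σ : List Bool} {I : Set ℕ} {m p : ℕ} {b : Bool} {E : Set ℕ} (hp : p ∈ I)
    (hm : m ∈ I) (hpm : m ≠ p) (hE : {i | i ∈ I ∧ Side b p i} = E)
    (h : ∀ i ∈ I, i ≠ p → x i ^ 2 + μ ≤ x p ^ 2)
    (hd : Dom η x σ E m) : Dom η x (b :: σ) I m := by
  subst hE
  exact dom_peel hη hη' hB hμ hημ hp hm hpm h hd

/-- the path lemma -/
lemma path {ρ B : ℝ} (hρ : 0 < ρ) (h : ℕ → ℕ) (hfin : {i | 1 ≤ h i}.Finite) (m : ℕ) :
    ∀ (H : ℕ) (I : Set ℕ), m ∈ I → (∀ i ∈ I, h i ≤ H) →
    ∃ σ : List Bool, σ.length ≤ 2 * H ∧ ∃ r : ℕ → ℕ, (∀ i, r i ≤ 2) ∧ (∀ i, r i ≠ 0 → i ∈ I) ∧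
      {i | r i ≠ 0}.Finite ∧
      ∀ (η : ℝ), 0 < η → η ≤ 1 / 2 → η * (2 * B ^ 2) ≤ ρ ^ 2 / 4 / 2 →
      ∀ x : ℕ → ℝ, (∀ i ∈ I, i ≠ m → |x i| = 4 * ρ * h i + ρ * r i) →
        4 * ρ * h m + ρ / 2 ≤ |x m| → |x m| ≤ 4 * ρ * h m + 2 * ρ → (∀ i, |x i| ≤ B) →
        Dom η x σ I m := by
  classical
  intro H
  induction H with
  | zero =>
    intro I hm hI
    refine ⟨[], by simp, fun _ => 0, by simp, by simp, by simp, ?_⟩
    intro η hη hη' hημ x hx hxm _ hB
    have h0 : h m = 0 := Nat.le_zero.1 (hI m hm)
    rw [h0] at hxm
    have hm2 : (ρ / 2) ^ 2 ≤ x m ^ 2 := by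
      rw [← sq_abs (x m)]
      apply pow_le_pow_left₀ (by positivity)
      simpa using hxm
    apply dom_base (μ := ρ ^ 2 / 4) (by positivity) hm
    · intro i hi hne
      have := hx i hi hne
      have h0' : h i = 0 := Nat.le_zero.1 (hI i hi)
      rw [h0'] at this
      simp at this
      rw [this]
      nlinarith
    · nlinarith
  | succ H ih =>
    intro I hm hI
    by_cases hmE : h m = H + 1
    · refine ⟨[], by simp, fun _ => 0, by simp, by simp, by simp, ?_⟩
      intro η hη hη' hημ x hx hxm _ hB
      rw [hmE] at hxm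
      push_cast at hxm
      have hm2 : (4 * ρ * (H + 1) + ρ / 2) ^ 2 ≤ x m ^ 2 := by
        rw [← sq_abs (x m)]
        exact pow_le_pow_left₀ (by positivity) hxm 2
      apply dom_base (μ := ρ ^ 2 / 4) (by positivity) hm
      · intro i hi hne
        have h1 := hx i hi hne
        simp only [Nat.cast_zero, mul_zero, add_zero] at h1
        have h2 : |x i| ≤ 4 * ρ * (H + 1) := by
          rw [h1]
          have : (h i : ℝ) ≤ H + 1 := by exact_mod_cast hI i hi
          nlinarith
        have h3 : x i ^ 2 ≤ (4 * ρ * (H + 1)) ^ 2 := by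
          rw [← sq_abs (x i)]
          exact pow_le_pow_left₀ (abs_nonneg _) h2 2
        have : 0 ≤ ρ * (ρ * (H + 1)) := by positivity
        nlinarith
      · have : 0 ≤ ρ * (ρ * (H + 1)) := by positivity
        nlinarith [sq_nonneg (4 * ρ * ((H : ℝ) + 1))]
    · have hmH : h m ≤ H := by have := hI m hm; omega
      set El : Set ℕ := {i | i ∈ I ∧ h i = H + 1 ∧ i < m} with hEl
      set Er : Set ℕ := {i | i ∈ I ∧ h i = H + 1 ∧ m < i} with hEr
      have hElf : El.Finite := hfin.subset (by intro i hi; simp only [Set.mem_ofPred_eq]; rw [hi.2.1]; omega)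
      have hErf : Er.Finite := hfin.subset (by intro i hi; simp only [Set.mem_ofPred_eq]; rw [hi.2.1]; omega)
      set I1 : Set ℕ := {i | i ∈ I ∧ ∀ j ∈ El, j < i} with hI1
      set I2 : Set ℕ := {i | i ∈ I1 ∧ ∀ j ∈ Er, i < j} with hI2
      have hmI1 : m ∈ I1 := ⟨hm, fun j hj => hj.2.2⟩
      have hmI2 : m ∈ I2 := ⟨hmI1, fun j hj => hj.2.2⟩
      have hI2H : ∀ i ∈ I2, h i ≤ H := by
        intro i hi
        by_contra hcon
        have hiH : h i = H + 1 := by have := hI i hi.1.1; omega
        have him : i ≠ m := by rintro rfl; exact hmE hiH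
        rcases lt_or_gt_of_ne him with hlt | hgt
        · exact absurd (hi.1.2 i ⟨hi.1.1, hiH, hlt⟩) (lt_irrefl _)
        · exact absurd (hi.2 i ⟨hi.1.1, hiH, hgt⟩) (lt_irrefl _)
      obtain ⟨σ', hσ', r', hr2, hrI, hrf, hdom⟩ := ih I2 hmI2 hI2H
      set r : ℕ → ℕ := fun i => if i ∈ El ∧ ∀ j ∈ El, j ≤ i then 2
        else if i ∈ Er ∧ ∀ j ∈ Er, i ≤ j then 1 else r' i with hr
      have hr'El : ∀ i ∈ El, r' i = 0 := by
        intro i hi
        by_contra hne
        exact absurd ((hrI i hne).1.2 i hi) (lt_irrefl _)
      have hr'Er : ∀ i ∈ Er, r' i = 0 := by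
        intro i hi
        by_contra hne
        exact absurd ((hrI i hne).2 i hi) (lt_irrefl _)
      have hrI2 : ∀ i ∈ I2, r i = r' i := by
        intro i hi
        simp only [hr]
        rw [if_neg, if_neg]
        · rintro ⟨h1, _⟩; exact absurd (hi.2 i h1) (lt_irrefl _)
        · rintro ⟨h1, _⟩; exact absurd (hi.1.2 i h1) (lt_irrefl _)
      have hrmem : ∀ i, r i ≠ 0 → i ∈ El ∨ i ∈ Er ∨ r' i ≠ 0 := by
        intro i hi
        simp only [hr] at hi
        split_ifs at hi with h1 h2
        · left; exact h1.1
        · right; left; exact h2.1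
        · right; right; exact hi
      have hrEr : ∀ i ∈ Er, r i ≤ 1 := by
        intro i hi
        simp only [hr]
        rw [if_neg]
        · split_ifs
          · exact le_refl _
          · rw [hr'Er i hi]; omega
        · rintro ⟨h1, _⟩
          have := h1.2.2; have := hi.2.2; omega
      refine ⟨(if El.Nonempty then [true] else []) ++ ((if Er.Nonempty then [false] else []) ++ σ'),
        ?_, r, ?_, ?_, ?_, ?_⟩
      · simp only [List.length_append]
        split_ifs <;> simp only [List.length_cons, List.length_nil] <;> omega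
      · intro i
        simp only [hr]
        split_ifs
        · exact le_refl _
        · omega
        · exact hr2 i
      · intro i hi
        rcases hrmem i hi with h1 | h1 | h1
        · exact h1.1
        · exact h1.1
        · exact (hrI i h1).1.1
      · refine ((hElf.union hErf).union hrf).subset ?_
        intro i hi
        rcases hrmem i hi with h1 | h1 | h1
        · left; left; exact h1
        · left; right; exact h1
        · right; exact h1
      · intro η hη hη' hημ x hx hxm hxm' hB
        have hHr : (h m : ℝ) ≤ H := by exact_mod_cast hmH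
        have hxmB : |x m| ≤ 4 * ρ * (H + 1) - 2 * ρ := by nlinarith
        have hsmall : ∀ i ∈ I, h i ≤ H → |x i| ≤ 4 * ρ * (H + 1) - 2 * ρ := by
          intro i hi hiH
          by_cases him : i = m
          · subst him; exact hxmB
          · rw [hx i hi him]
            have h1 : (h i : ℝ) ≤ H := by exact_mod_cast hiH
            have h2 : r i ≤ 2 := by
              simp only [hr]
              split_ifs
              · exact le_refl _
              · omega
              · exact hr2 i
            have h2' : (r i : ℝ) ≤ 2 := by exact_mod_cast h2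
            nlinarith
        have hD2 : Dom η x σ' I2 m := by
          apply hdom η hη hη' hημ x _ hxm hxm' hB
          intro i hi hne
          rw [hx i hi.1.1 hne, hrI2 i hi]
        -- the right mark
        have hD1 : Dom η x ((if Er.Nonempty then [false] else []) ++ σ') I1 m := by
          by_cases hne : Er.Nonempty
          · rw [if_pos hne]
            set q := hErf.toFinset.min' ((Set.Finite.toFinset_nonempty _).2 hne) with hq
            have hqmem : q ∈ Er := by
              have := Finset.min'_mem hErf.toFinset ((Set.Finite.toFinset_nonempty _).2 hne)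
              rwa [Set.Finite.mem_toFinset] at this
            have hqmin : ∀ j ∈ Er, q ≤ j := by
              intro j hj
              exact Finset.min'_le _ _ ((Set.Finite.mem_toFinset _).2 hj)
            have hqI1 : q ∈ I1 := ⟨hqmem.1, fun j hj => hj.2.2.trans hqmem.2.2⟩
            have hrq : r q = 1 := by
              simp only [hr]
              rw [if_neg, if_pos ⟨hqmem, hqmin⟩]
              rintro ⟨h1, _⟩
              have := h1.2.2; have := hqmem.2.2; omega
            have hqm : q ≠ m := by have := hqmem.2.2; omega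
            have hxq : |x q| = 4 * ρ * (H + 1) + ρ := by
              rw [hx q hqmem.1 hqm, hrq, hqmem.2.1]
              push_cast; ring
            refine dom_opt hη hη' hB (by positivity : (0 : ℝ) < ρ ^ 2 / 4) hημ hqI1 hmI1 hqm.symm
              (E := I2) (b := false) ?_ ?_ hD2
            · ext i
              simp only [Side, Set.mem_ofPred_eq, hI2]
              constructor
              · rintro ⟨h1, h2⟩
                exact ⟨h1, fun j hj => lt_of_lt_of_le h2 (hqmin j hj)⟩
              · rintro ⟨h1, h2⟩
                exact ⟨h1, h2 q hqmem⟩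
            · intro i hi hiq
              have hle : |x i| ≤ 4 * ρ * (H + 1) := by
                by_cases hiH : h i ≤ H
                · have := hsmall i hi.1 hiH
                  linarith
                · have hiH' : h i = H + 1 := by have := hI i hi.1; omega
                  have him : i ≠ m := by rintro rfl; exact hmE hiH'
                  have him2 : m < i := by
                    rcases lt_or_gt_of_ne him with hlt | hgt
                    · exact absurd (hi.2 i ⟨hi.1, hiH', hlt⟩) (lt_irrefl _)
                    · exact hgt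
                  have hiEr : i ∈ Er := ⟨hi.1, hiH', him2⟩
                  have hri : r i = 0 := by
                    simp only [hr]
                    rw [if_neg, if_neg]
                    · exact hr'Er i hiEr
                    · rintro ⟨_, h2⟩
                      exact hiq (le_antisymm (h2 q hqmem) (hqmin i hiEr))
                    · rintro ⟨h1, _⟩
                      have := h1.2.2; omega
                  rw [hx i hi.1 him, hri, hiH']
                  push_cast
                  linarith
              have h1 : x i ^ 2 ≤ (4 * ρ * (H + 1)) ^ 2 := by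
                rw [← sq_abs (x i)]
                exact pow_le_pow_left₀ (abs_nonneg _) hle 2
              have h2 : x q ^ 2 = (4 * ρ * (H + 1) + ρ) ^ 2 := by rw [← sq_abs (x q), hxq]
              have : 0 ≤ ρ * (ρ * (H + 1)) := by positivity
              nlinarith
          · rw [if_neg hne]
            have : I1 = I2 := by
              ext i
              simp only [hI2, Set.mem_ofPred_eq]
              constructor
              · intro h1; exact ⟨h1, fun j hj => absurd ⟨j, hj⟩ hne⟩
              · intro h1; exact h1.1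
            rw [this]
            exact hD2
        by_cases hne : El.Nonempty
        · rw [if_pos hne]
          set p := hElf.toFinset.max' ((Set.Finite.toFinset_nonempty _).2 hne) with hp
          have hpmem : p ∈ El := by
            have := Finset.max'_mem hElf.toFinset ((Set.Finite.toFinset_nonempty _).2 hne)
            rwa [Set.Finite.mem_toFinset] at this
          have hpmax : ∀ j ∈ El, j ≤ p := by
            intro j hj
            exact Finset.le_max' _ _ ((Set.Finite.mem_toFinset _).2 hj)
          have hrp : r p = 2 := by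
            simp only [hr]
            rw [if_pos ⟨hpmem, hpmax⟩]
          have hpm : p ≠ m := by have := hpmem.2.2; omega
          have hxp : |x p| = 4 * ρ * (H + 1) + 2 * ρ := by
            rw [hx p hpmem.1 hpm, hrp, hpmem.2.1]
            push_cast; ring
          refine dom_opt hη hη' hB (by positivity : (0 : ℝ) < ρ ^ 2 / 4) hημ hpmem.1 hm hpm.symm
            (E := I1) (b := true) ?_ ?_ hD1
          · ext i
            simp only [Side, Set.mem_ofPred_eq, hI1]
            constructor
            · rintro ⟨h1, h2⟩
              exact ⟨h1, fun j hj => lt_of_le_of_lt (hpmax j hj) h2⟩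
            · rintro ⟨h1, h2⟩
              exact ⟨h1, h2 p hpmem⟩
          · intro i hi hip
            have hle : |x i| ≤ 4 * ρ * (H + 1) + ρ := by
              by_cases hiH : h i ≤ H
              · have := hsmall i hi hiH
                linarith
              · have hiH' : h i = H + 1 := by have := hI i hi; omega
                have him : i ≠ m := by rintro rfl; exact hmE hiH'
                have hri : r i ≤ 1 := by
                  rcases lt_or_gt_of_ne him with hlt | hgt
                  · have hiEl : i ∈ El := ⟨hi, hiH', hlt⟩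
                    simp only [hr]
                    rw [if_neg, if_neg]
                    · rw [hr'El i hiEl]; omega
                    · rintro ⟨h1, _⟩
                      have := h1.2.2; omega
                    · rintro ⟨_, h2⟩
                      exact hip (le_antisymm (hpmax i hiEl) (h2 p hpmem))
                  · exact hrEr i ⟨hi, hiH', hgt⟩
                rw [hx i hi him, hiH']
                have : (r i : ℝ) ≤ 1 := by exact_mod_cast hri
                push_cast
                nlinarith
            have h1 : x i ^ 2 ≤ (4 * ρ * (H + 1) + ρ) ^ 2 := by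
              rw [← sq_abs (x i)]
              exact pow_le_pow_left₀ (abs_nonneg _) hle 2
            have h2 : x p ^ 2 = (4 * ρ * (H + 1) + 2 * ρ) ^ 2 := by rw [← sq_abs (x p), hxp]
            have : 0 ≤ ρ * (ρ * (H + 1)) := by positivity
            nlinarith
        · rw [if_neg hne]
          have : I = I1 := by
            ext i
            simp only [hI1, Set.mem_ofPred_eq]
            constructor
            · intro h1; exact ⟨h1, fun j hj => absurd ⟨j, hj⟩ hne⟩
            · intro h1; exact h1.1
          rw [this]
          exact hD1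

end PoolUS
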