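import Mathlib
import Pool.Agent.Lib_helper48.UniformSPath

namespace PoolUS

open Filter Topology

lemma visible {x : ℕ → ℝ} (hx : Tendsto x atTop (𝓝 0)) {C ρ : ℝ} (hC : ∀ i, |x i| ≤ C)
    (hρ : 0 < ρ) (m : ℕ) :
    ∃ σ : List Bool, σ.length ≤ 2 * ⌊C / (4 * ρ)⌋₊ ∧ ∃ x' : ℕ → ℝ,
      (∀ i, |x' i - x i| ≤ 4 * ρ) ∧ {i | x' i ≠ 0}.Finite ∧
      ∀ η, 0 < η → η ≤ 1 / 2 → η * (2 * (C + 5 * ρ) ^ 2) ≤ ρ ^ 2 / 4 / 2 →
        ∀ t, |t| ≤ ρ / 2 → Dom η (Function.update x' m (x' m + t)) σ Set.univ m := by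
  classical
  set h : ℕ → ℕ := fun i => ⌊|x i| / (4 * ρ)⌋₊ with hh
  have h4 : 0 < 4 * ρ := by positivity
  have hfin : {i | 1 ≤ h i}.Finite := by
    have h1 : ∀ᶠ i in atTop, |x i| < 4 * ρ := by
      have := (tendsto_order.1 (hx.abs)).2 (4 * ρ) (by simpa using h4)
      simpa using this
    obtain ⟨N, hN⟩ := eventually_atTop.1 h1
    apply (Set.finite_lt_nat N).subset
    intro i hi
    simp only [Set.mem_ofPred_eq] at hi ⊢
    by_contra hcon
    have h2 := hN i (not_lt.1 hcon)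
    have h3 : h i = 0 := by
      simp only [hh]
      rw [Nat.floor_eq_zero, div_lt_one h4]
      exact h2
    omega
  have hle : ∀ i, 4 * ρ * h i ≤ |x i| := by
    intro i
    have := Nat.floor_le (div_nonneg (abs_nonneg (x i)) h4.le)
    have h2 := mul_le_mul_of_nonneg_left this h4.le
    rw [mul_div_cancel₀ _ h4.ne'] at h2
    exact h2
  have hlt : ∀ i, |x i| < 4 * ρ * (h i + 1) := by
    intro i
    have := Nat.lt_floor_add_one (|x i| / (4 * ρ))
    rw [div_lt_iff₀ h4] at this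
    simp only [hh]
    linarith
  obtain ⟨σ, hσ, r, hr2, _, hrf, hdom⟩ := path (ρ := ρ) (B := C + 5 * ρ) hρ h hfin m
    ⌊C / (4 * ρ)⌋₊ Set.univ (Set.mem_univ m) (by
      intro i _
      apply Nat.floor_le_floor
      exact div_le_div_of_nonneg_right (hC i) h4.le)
  set s : ℕ → ℝ := fun i => if 0 ≤ x i then 1 else -1 with hs
  have hs1 : ∀ i, |s i| = 1 := by
    intro i; simp only [hs]; split_ifs <;> simp
  have hsx : ∀ i, x i = s i * |x i| := by
    intro i; simp only [hs]; split_ifs with h0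
    · rw [abs_of_nonneg h0, one_mul]
    · rw [abs_of_neg (not_le.1 h0)]; ring
  set v : ℕ → ℝ := fun i => if i = m then 4 * ρ * h i + ρ else 4 * ρ * h i + ρ * r i with hv
  have hv0 : ∀ i, 0 ≤ v i := by
    intro i; simp only [hv]; split_ifs <;> positivity
  have hvle : ∀ i, 4 * ρ * h i ≤ v i ∧ v i ≤ 4 * ρ * h i + 2 * ρ := by
    intro i
    simp only [hv]
    have : (r i : ℝ) ≤ 2 := by exact_mod_cast hr2 i
    split_ifs
    · constructor <;> linarith
    · constructor
      · have : 0 ≤ ρ * (r i : ℝ) := by positivity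
        linarith
      · nlinarith
  refine ⟨σ, hσ, fun i => s i * v i, ?_, ?_, ?_⟩
  · intro i
    have h1 : s i * v i - x i = s i * (v i - |x i|) := by
      conv_lhs => rw [hsx i]
      ring
    rw [h1, abs_mul, hs1, one_mul, abs_le]
    have := hle i; have := hlt i; have := hvle i
    constructor <;> nlinarith
  · refine ((hfin.union hrf).union (Set.finite_singleton m)).subset ?_
    intro i hi
    simp only [Set.mem_ofPred_eq] at hi
    by_contra hcon
    simp only [Set.mem_union, Set.mem_ofPred_eq, Set.mem_singleton_iff, not_or, not_not,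
      not_le, Nat.lt_one_iff] at hcon
    obtain ⟨⟨h1, h2⟩, h3⟩ := hcon
    apply hi
    simp only [hv]
    rw [if_neg h3, h1, h2]
    simp
  · intro η hη hη' hημ t ht
    apply hdom η hη hη' hημ
    · intro i _ hne
      rw [Function.update_of_ne hne, abs_mul, hs1, one_mul, abs_of_nonneg (hv0 i)]
      simp only [hv]
      rw [if_neg hne]
    · rw [Function.update_self]
      have h1 : |s m * v m| = 4 * ρ * h m + ρ := by
        rw [abs_mul, hs1, one_mul, abs_of_nonneg (hv0 m)]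
        simp [hv]
      have h2 := abs_sub_abs_le_abs_sub (s m * v m) (-t)
      rw [abs_neg, sub_neg_eq_add] at h2
      linarith
    · rw [Function.update_self]
      have h1 : |s m * v m| = 4 * ρ * h m + ρ := by
        rw [abs_mul, hs1, one_mul, abs_of_nonneg (hv0 m)]
        simp [hv]
      have h2 := abs_add_le (s m * v m) t
      linarith
    · intro i
      by_cases him : i = m
      · subst him
        rw [Function.update_self]
        have h2 := abs_add_le (s i * v i) t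
        rw [abs_mul, hs1, one_mul, abs_of_nonneg (hv0 i)] at h2
        have := hvle i; have := hle i; have := hC i
        linarith
      · rw [Function.update_of_ne him, abs_mul, hs1, one_mul, abs_of_nonneg (hv0 i)]
        have := hvle i; have := hle i; have := hC i
        linarith

/-- an enumeration of the pairs (word, exponent) -/
noncomputable def enum : ℕ → List Bool × ℕ :=
  (exists_surjective_nat (List Bool × ℕ)).choose

lemma enum_surj : Function.Surjective enum :=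
  (exists_surjective_nat (List Bool × ℕ)).choose_spec

/-- the `k`-th word -/
noncomputable def wd (k : ℕ) : List Bool := (enum k).1

/-- the `k`-th parameter -/
noncomputable def et (k : ℕ) : ℝ := (1 / 2) ^ ((enum k).2 + 1)

/-- exponents -/
noncomputable def MM (k : ℕ) : ℕ := ∑ i ∈ Finset.range k, 2 * ((wd i).length + 2)

/-- the weights -/
noncomputable def cc (k : ℕ) : ℝ := (1 / 9) ^ (MM k) * (1 / 4) ^ k

/-- the square of the new norm -/
noncomputable def T2 (x : ℕ → ℝ) : ℝ := ∑' k, cc k * G (et k) (wd k) x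

lemma et_pos (k : ℕ) : 0 < et k := by unfold et; positivity

lemma et_le (k : ℕ) : et k ≤ 1 / 2 := by
  unfold et
  rw [pow_succ]
  have : ((1 : ℝ) / 2) ^ (enum k).2 ≤ 1 := pow_le_one₀ (by norm_num) (by norm_num)
  linarith

lemma cc_pos (k : ℕ) : 0 < cc k := by unfold cc; positivity

lemma MM_mono {i j : ℕ} (h : i ≤ j) : MM i ≤ MM j := by
  unfold MM
  apply Finset.sum_le_sum_of_subset
  exact Finset.range_subset_range.2 h

lemma cc_le (K i : ℕ) : cc (i + K) ≤ (1 / 9) ^ (MM K) * (1 / 4) ^ K * (1 / 4) ^ i := by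
  unfold cc
  rw [pow_add (1 / 4 : ℝ) i K]
  have h1 : ((1 : ℝ) / 9) ^ (MM (i + K)) ≤ (1 / 9) ^ (MM K) :=
    pow_le_pow_of_le_one (by norm_num) (by norm_num) (MM_mono (by omega))
  have h2 : (0 : ℝ) ≤ (1 / 4) ^ i * (1 / 4) ^ K := by positivity
  nlinarith

lemma cc_le' (i : ℕ) : cc i ≤ (1 / 4) ^ i := by
  have := cc_le 0 i
  simpa [MM] using this

lemma summable_geo : Summable (fun i : ℕ => ((1 : ℝ) / 4) ^ i) :=
  summable_geometric_of_lt_one (by norm_num) (by norm_num)

lemma tsum_geo : ∑' i : ℕ, ((1 : ℝ) / 4) ^ i = 4 / 3 := by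
  rw [tsum_geometric_of_lt_one (by norm_num) (by norm_num)]
  norm_num

section
variable {x : ℕ → ℝ} {B : ℝ} (hB : ∀ i, |x i| ≤ B)
include hB

lemma term_nonneg (k : ℕ) : 0 ≤ cc k * G (et k) (wd k) x :=
  mul_nonneg (cc_pos k).le (G_nonneg (et_pos k).le (et_le k) hB _)

lemma term_le (k : ℕ) : cc k * G (et k) (wd k) x ≤ (1 / 4) ^ k * (2 * B ^ 2) :=
  mul_le_mul (cc_le' k) (G_le (et_pos k).le (et_le k) hB _)
    (G_nonneg (et_pos k).le (et_le k) hB _) (by positivity)

lemma summable_T2 : Summable (fun k => cc k * G (et k) (wd k) x) :=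
  Summable.of_nonneg_of_le (term_nonneg hB) (term_le hB) (summable_geo.mul_right _)

lemma T2_nonneg : 0 ≤ T2 x := tsum_nonneg (term_nonneg hB)

lemma T2_le : T2 x ≤ 3 * B ^ 2 := by
  have h1 : T2 x ≤ ∑' k : ℕ, (1 / 4 : ℝ) ^ k * (2 * B ^ 2) :=
    (summable_T2 hB).tsum_le_tsum (term_le hB) (summable_geo.mul_right _)
  rw [tsum_mul_right, tsum_geo] at h1
  nlinarith [sq_nonneg B]

lemma T2_split (K : ℕ) :
    ∑ k ∈ Finset.range K, cc k * G (et k) (wd k) x ≤ T2 x ∧
    T2 x ≤ ∑ k ∈ Finset.range K, cc k * G (et k) (wd k) x +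
      (1 / 9) ^ (MM K) * (1 / 4) ^ K * (3 * B ^ 2) := by
  have hs := summable_T2 hB
  have h1 := hs.sum_add_tsum_nat_add K
  have h2 : 0 ≤ ∑' i, cc (i + K) * G (et (i + K)) (wd (i + K)) x :=
    tsum_nonneg (fun i => term_nonneg hB _)
  have h3 : ∑' i, cc (i + K) * G (et (i + K)) (wd (i + K)) x ≤
      ∑' i : ℕ, ((1 / 9) ^ (MM K) * (1 / 4) ^ K * (2 * B ^ 2)) * (1 / 4 : ℝ) ^ i := by
    apply Summable.tsum_le_tsum
    · intro i
      calc cc (i + K) * G (et (i + K)) (wd (i + K)) x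
          ≤ ((1 / 9) ^ (MM K) * (1 / 4) ^ K * (1 / 4) ^ i) * (2 * B ^ 2) :=
            mul_le_mul (cc_le K i) (G_le (et_pos _).le (et_le _) hB _)
              (G_nonneg (et_pos _).le (et_le _) hB _) (by positivity)
        _ = _ := by ring
    · exact (summable_nat_add_iff K).2 hs
    · exact summable_geo.mul_left _
  rw [tsum_mul_left, tsum_geo] at h3
  unfold T2
  rw [← h1]
  constructor
  · linarith
  · have h4 : (0 : ℝ) ≤ (1 / 9) ^ (MM K) * (1 / 4) ^ K * B ^ 2 := by positivity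
    nlinarith

end

/-- the new norm on bounded sequences -/
noncomputable def T (x : ℕ → ℝ) : ℝ := √(T2 x)

lemma T_add {x y : ℕ → ℝ} {B : ℝ} (hx : ∀ i, |x i| ≤ B) (hy : ∀ i, |y i| ≤ B) :
    T (x + y) ≤ T x + T y := by
  have hxy : ∀ i, |(x + y) i| ≤ B + B := fun i =>
    (abs_add_le _ _).trans (add_le_add (hx i) (hy i))
  unfold T
  apply Real.sqrt_le_iff.2
  refine ⟨by positivity, ?_⟩
  apply Real.tsum_le_of_sum_range_le (term_nonneg hxy)
  intro n
  set a : ℕ → ℝ := fun k => √(cc k) * √(G (et k) (wd k) x) with ha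
  set b : ℕ → ℝ := fun k => √(cc k) * √(G (et k) (wd k) y) with hb
  have ha2 : ∀ k, a k ^ 2 = cc k * G (et k) (wd k) x := by
    intro k
    simp only [ha]
    rw [mul_pow, Real.sq_sqrt (cc_pos k).le, Real.sq_sqrt (G_nonneg (et_pos k).le (et_le k) hx _)]
  have hb2 : ∀ k, b k ^ 2 = cc k * G (et k) (wd k) y := by
    intro k
    simp only [hb]
    rw [mul_pow, Real.sq_sqrt (cc_pos k).le, Real.sq_sqrt (G_nonneg (et_pos k).le (et_le k) hy _)]
  have h1 : ∀ k, cc k * G (et k) (wd k) (x + y) ≤ (a k + b k) ^ 2 := by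
    intro k
    have := G_add (et_pos k).le (et_le k) hx hy (wd k)
    calc cc k * G (et k) (wd k) (x + y)
        ≤ cc k * (√(G (et k) (wd k) x) + √(G (et k) (wd k) y)) ^ 2 :=
          mul_le_mul_of_nonneg_left this (cc_pos k).le
      _ = (a k + b k) ^ 2 := by
          simp only [ha, hb]
          rw [← mul_add, mul_pow, Real.sq_sqrt (cc_pos k).le]
  have hA : ∑ k ∈ Finset.range n, a k ^ 2 ≤ (√(T2 x)) ^ 2 := by
    rw [Real.sq_sqrt (T2_nonneg hx)]
    simp only [ha2]
    exact (T2_split hx n).1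
  have hBb : ∑ k ∈ Finset.range n, b k ^ 2 ≤ (√(T2 y)) ^ 2 := by
    rw [Real.sq_sqrt (T2_nonneg hy)]
    simp only [hb2]
    exact (T2_split hy n).1
  have hCS := Finset.sum_mul_sq_le_sq_mul_sq (Finset.range n) a b
  have hab : ∑ k ∈ Finset.range n, a k * b k ≤ √(T2 x) * √(T2 y) := by
    apply le_of_sq_le_sq _ (by positivity)
    rw [mul_pow]
    refine hCS.trans ?_
    apply mul_le_mul hA hBb (Finset.sum_nonneg fun _ _ => sq_nonneg _) (sq_nonneg _)
  calc ∑ k ∈ Finset.range n, cc k * G (et k) (wd k) (x + y)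
      ≤ ∑ k ∈ Finset.range n, (a k + b k) ^ 2 := Finset.sum_le_sum fun k _ => h1 k
    _ = ∑ k ∈ Finset.range n, a k ^ 2 + 2 * ∑ k ∈ Finset.range n, a k * b k +
        ∑ k ∈ Finset.range n, b k ^ 2 := by
          rw [Finset.mul_sum, ← Finset.sum_add_distrib, ← Finset.sum_add_distrib]
          apply Finset.sum_congr rfl
          intro k _
          ring
    _ ≤ (√(T2 x) + √(T2 y)) ^ 2 := by nlinarith

lemma T_smul (c : ℝ) {x : ℕ → ℝ} {B : ℝ} (hx : ∀ i, |x i| ≤ B) : T (c • x) = |c| * T x := by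
  unfold T
  have : T2 (c • x) = c ^ 2 * T2 x := by
    unfold T2
    rw [← tsum_mul_left]
    congr 1
    ext k
    rw [G_smul (et_pos k).le (et_le k) c hx]
    ring
  rw [this, Real.sqrt_mul (sq_nonneg c), Real.sqrt_sq_eq_abs]

lemma T_le {x : ℕ → ℝ} {B : ℝ} (hx : ∀ i, |x i| ≤ B) : T x ≤ 2 * B := by
  have hB0 : 0 ≤ B := (abs_nonneg _).trans (hx 0)
  unfold T
  apply Real.sqrt_le_iff.2
  refine ⟨by positivity, ?_⟩
  have := T2_le hx
  nlinarith [sq_nonneg B]

/-- a constant for the lower estimate -/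
lemma T_ge : ∃ α : ℝ, 0 < α ∧ ∀ (x : ℕ → ℝ) (B : ℝ), (∀ i, |x i| ≤ B) → ∀ i, α * |x i| ≤ T x := by
  obtain ⟨k, hk⟩ := enum_surj (([] : List Bool), 0)
  refine ⟨√(cc k), Real.sqrt_pos.2 (cc_pos k), ?_⟩
  intro x B hB i
  unfold T
  apply Real.le_sqrt_of_sq_le
  rw [mul_pow, Real.sq_sqrt (cc_pos k).le, sq_abs]
  have h1 : x i ^ 2 ≤ G (et k) (wd k) x := by
    have hw : wd k = [] := by unfold wd; rw [hk]
    have := Q_le_G (et_pos k).le (et_le k) hB (σ := wd k) (l := [i]) (by
      rw [hw]; exact ⟨Set.mem_univ _, rfl⟩)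
    simpa [Q] using this
  calc cc k * x i ^ 2 ≤ cc k * G (et k) (wd k) x := mul_le_mul_of_nonneg_left h1 (cc_pos k).le
    _ ≤ T2 x := (summable_T2 hB).le_tsum k (fun j _ => term_nonneg hB j)

end PoolUS
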