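import Mathlib
import Pool.Agent.Lib_helper48.UniformSNorm

namespace PoolUS

open Filter Topology

lemma slopes_nonneg {η : ℝ} (hη : 0 < η) {n : ℕ} {A : ℝ} (h : A ∈ Slopes η n) : 0 ≤ A := by
  unfold Slopes at h
  rcases Finset.mem_insert.1 h with rfl | h
  · exact le_refl _
  · obtain ⟨i, _, rfl⟩ := Finset.mem_image.1 h
    positivity

lemma slopes_ge {η : ℝ} (hη : 0 < η) (hη' : η ≤ 1) {n : ℕ} {A : ℝ} (h : A ∈ Slopes η n)
    (hA : A ≠ 0) : η ^ n ≤ A := by
  unfold Slopes at h
  rcases Finset.mem_insert.1 h with rfl | h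
  · exact absurd rfl hA
  · obtain ⟨i, hi, rfl⟩ := Finset.mem_image.1 h
    rw [Finset.mem_range] at hi
    exact pow_le_pow_of_le_one hη.le hη' (by omega)

lemma G_eq_sSup (η : ℝ) (σ : List Bool) (x : ℕ → ℝ) (m : ℕ) (s : ℝ) :
    G η σ (Function.update x m s) =
      sSup ((fun l => coef η m l * s ^ 2 + Q η (Function.update x m 0) l) ''
        {l | Adm σ Set.univ l}) := by
  unfold G
  congr 1
  ext r
  constructor
  · rintro ⟨l, hl, rfl⟩
    exact ⟨l, hl, (Q_update (adm_nodup hl) s).symm⟩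
  · rintro ⟨l, hl, rfl⟩
    exact ⟨l, hl, Q_update (adm_nodup hl) s⟩

lemma G_branch {x : ℕ → ℝ} {B : ℝ} (hB : ∀ i, |x i| ≤ B) (m k : ℕ) {p q : ℝ} (hpq : p < q) :
    ∃ p' q', p ≤ p' ∧ q' ≤ q ∧ (q - p) / 3 ^ ((wd k).length + 2) ≤ q' - p' ∧
      ∃ A0 ∈ Slopes (et k) (wd k).length, ∃ β0,
        (∀ ε > 0, ∃ l, Adm (wd k) Set.univ l ∧ coef (et k) m l = A0 ∧
          β0 - ε < Q (et k) (Function.update x m 0) l) ∧
        (∀ t, p' ≤ t → t ≤ q' →
          G (et k) (wd k) (Function.update x m (x m + t)) = A0 * (x m + t) ^ 2 + β0) := by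
  have hB' : ∀ i, |Function.update x m 0 i| ≤ B := by
    intro i
    by_cases h : i = m
    · subst h; simp only [Function.update_self, abs_zero]; exact (abs_nonneg _).trans (hB i)
    · rw [Function.update_of_ne h]; exact hB i
  obtain ⟨p', q', hp, hq, hlen, A0, hA0, β0, hap, hval⟩ :=
    branch (coef (et k) m) (Q (et k) (Function.update x m 0)) (2 * B ^ 2) (x m)
      (Slopes (et k) (wd k).length) {l | Adm (wd k) Set.univ l} ⟨[], adm_nil _ _⟩
      (fun l hl => coef_slopes hl) (fun l _ => Q_le (et_pos k).le (et_le k) hB' l) p q hpq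
  refine ⟨p', q', hp, hq, ?_, A0, hA0, β0, ?_, ?_⟩
  · refine le_trans ?_ hlen
    apply div_le_div_of_nonneg_left (by linarith) (by positivity)
    exact pow_le_pow_right₀ (by norm_num) (card_slopes _ _)
  · intro ε hε
    obtain ⟨l, hl, h1, h2⟩ := hap ε hε
    exact ⟨l, hl, h1, h2⟩
  · intro t h1 h2
    rw [G_eq_sSup]
    exact hval t h1 h2

lemma nested {x y : ℕ → ℝ} {B : ℝ} (hx : ∀ i, |x i| ≤ B) (hy : ∀ i, |y i| ≤ B) (m : ℕ)
    {p q : ℝ} (hpq : p < q) (k0 : ℕ)
    (hdom : ∀ t, p ≤ t → t ≤ q →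
      Dom (et k0) (Function.update x m (x m + t)) (wd k0) Set.univ m) (K : ℕ) :
    ∃ p' q', p ≤ p' ∧ q' ≤ q ∧ (q - p) / 3 ^ (MM K) ≤ q' - p' ∧
      ∃ A β A' β' : ℕ → ℝ, ∀ k < K, 0 ≤ A k ∧ (k = k0 → (et k0) ^ (wd k0).length ≤ A k) ∧
        ∀ t, p' ≤ t → t ≤ q' →
          G (et k) (wd k) (Function.update x m (x m + t)) = A k * (x m + t) ^ 2 + β k ∧
          G (et k) (wd k) (Function.update y m (y m + t)) = A' k * (y m + t) ^ 2 + β' k := by
  induction K with
  | zero =>
    exact ⟨p, q, le_rfl, le_rfl, by simp [MM], fun _ => 0, fun _ => 0, fun _ => 0, fun _ => 0,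
      by intro k hk; omega⟩
  | succ K ih =>
    obtain ⟨p1, q1, hp1, hq1, hlen1, A, β, A', β', h⟩ := ih
    have hlt1 : p1 < q1 := by
      have : 0 < (q - p) / 3 ^ (MM K) := div_pos (by linarith) (by positivity)
      linarith
    obtain ⟨p2, q2, hp2, hq2, hlen2, a, ha, b, hab, hval⟩ := G_branch hx m K hlt1
    have hlt2 : p2 < q2 := by
      have : 0 < (q1 - p1) / 3 ^ ((wd K).length + 2) := div_pos (by linarith) (by positivity)
      linarith
    obtain ⟨p3, q3, hp3, hq3, hlen3, a', ha', b', _, hval'⟩ := G_branch hy m K hlt2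
    have hMM : MM (K + 1) = MM K + 2 * ((wd K).length + 2) := by
      unfold MM
      rw [Finset.sum_range_succ]
    refine ⟨p3, q3, hp1.trans (hp2.trans hp3), hq3.trans (hq2.trans hq1), ?_,
      Function.update A K a, Function.update β K b, Function.update A' K a',
      Function.update β' K b', ?_⟩
    · rw [hMM, pow_add, two_mul, pow_add, ← div_div, ← div_div]
      refine le_trans ?_ hlen3
      apply div_le_div_of_nonneg_right _ (by positivity)
      refine le_trans ?_ hlen2
      exact div_le_div_of_nonneg_right hlen1 (by positivity)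
    · intro k hk
      by_cases hkK : k = K
      · subst hkK
        simp only [Function.update_self]
        refine ⟨slopes_nonneg (et_pos k) ha, ?_, ?_⟩
        · intro hk0
          subst hk0
          apply slopes_ge (et_pos k) (by linarith [et_le k]) ha
          intro ha0
          obtain ⟨l₀, hl₀, δ, hδ, hd⟩ := hdom p2 (hp1.trans hp2) (by linarith)
          obtain ⟨l, hl, hl1, hl2⟩ := hab δ hδ
          have hml : m ∉ l := by
            intro hml
            obtain ⟨i, _, hi⟩ := coef_mem (η := et k) hml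
            rw [hl1, ha0] at hi
            exact absurd hi.symm (pow_pos (et_pos k) i).ne'
          have h1 := hd l hl hml
          rw [Q_update (adm_nodup hl), hl1, ha0, zero_mul, zero_add] at h1
          have h2 := hval p2 le_rfl hlt2.le
          rw [ha0, zero_mul, zero_add] at h2
          have hB' : ∀ i, |Function.update x m (x m + p2) i| ≤ B + |p2| := by
            intro i
            by_cases hi : i = m
            · subst hi
              rw [Function.update_self]
              exact (abs_add_le _ _).trans (by linarith [hx i])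
            · rw [Function.update_of_ne hi]
              linarith [hx i, abs_nonneg p2]
          have h3 := Q_le_G (et_pos k).le (et_le k) hB' hl₀
          rw [h2] at h3
          linarith
        · intro t ht1 ht2
          exact ⟨hval t (hp3.trans ht1) (ht2.trans hq3), hval' t ht1 ht2⟩
      · obtain ⟨h1, h2, h3⟩ := h k (by omega)
        rw [Function.update_of_ne hkK, Function.update_of_ne hkK, Function.update_of_ne hkK,
          Function.update_of_ne hkK]
        exact ⟨h1, h2, fun t ht1 ht2 =>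
          h3 t (hp2.trans (hp3.trans ht1)) (ht2.trans (hq3.trans hq2))⟩

lemma quad_diff {A A' ξ ζ γ p q e Z : ℝ} (hpq : p < q) (hA : 0 ≤ A)
    (h : ∀ t, p ≤ t → t ≤ q → |A * (ξ + t) ^ 2 - A' * (ζ + t) ^ 2 + γ| ≤ e)
    (hZ : |p + q + 2 * ζ| ≤ Z) : A * |ξ - ζ| * (q - p) ^ 2 ≤ e * (q - p + 4 * Z) := by
  have h1 := abs_le.1 (h p le_rfl hpq.le)
  have h2 := abs_le.1 (h q hpq.le le_rfl)
  have h3 := abs_le.1 (h ((p + q) / 2) (by linarith) (by linarith))
  have he : 0 ≤ e := by linarith [h1.1, h1.2]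
  have hZ0 : 0 ≤ Z := (abs_nonneg _).trans hZ
  set l := q - p with hl
  have hl0 : 0 < l := by simp only [hl]; linarith
  have k1 : |(A - A') * l ^ 2| ≤ 8 * e := by
    have : (A - A') * l ^ 2 = 2 * ((A * (ξ + p) ^ 2 - A' * (ζ + p) ^ 2 + γ)
      - 2 * (A * (ξ + (p + q) / 2) ^ 2 - A' * (ζ + (p + q) / 2) ^ 2 + γ)
      + (A * (ξ + q) ^ 2 - A' * (ζ + q) ^ 2 + γ)) := by simp only [hl]; ring
    rw [this, abs_le]
    constructor <;> linarith [h1.1, h1.2, h2.1, h2.2, h3.1, h3.2]
  set S := 2 * (A * ξ - A' * ζ) + (A - A') * (p + q) with hS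
  have k2 : |S * l| ≤ 2 * e := by
    have : S * l = (A * (ξ + q) ^ 2 - A' * (ζ + q) ^ 2 + γ) -
      (A * (ξ + p) ^ 2 - A' * (ζ + p) ^ 2 + γ) := by simp only [hl, hS]; ring
    rw [this, abs_le]
    constructor <;> linarith [h1.1, h1.2, h2.1, h2.2, h3.1, h3.2]
  have k3 : 2 * (A * (ξ - ζ) * l ^ 2) = S * l * l - (A - A') * l ^ 2 * (p + q + 2 * ζ) := by
    simp only [hS]; ring
  have k4 : |2 * (A * (ξ - ζ) * l ^ 2)| ≤ 2 * e * l + 8 * e * Z := by
    rw [k3]
    refine (abs_sub _ _).trans ?_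
    rw [abs_mul, abs_mul ((A - A') * l ^ 2), abs_of_pos hl0]
    apply add_le_add
    · exact mul_le_mul_of_nonneg_right k2 hl0.le
    · exact mul_le_mul k1 hZ (abs_nonneg _) (by linarith)
  have k5 : |2 * (A * (ξ - ζ) * l ^ 2)| = 2 * (A * |ξ - ζ| * l ^ 2) := by
    rw [abs_mul, abs_mul, abs_mul, abs_of_nonneg hA, abs_of_nonneg (sq_nonneg l)]
    norm_num
  rw [k5] at k4
  linarith


lemma exists_min_pos {ι : Type*} (S : Finset ι) (g : ι → ℝ) (hg : ∀ i, 0 < g i) :
    ∃ w > 0, ∀ i ∈ S, w ≤ g i := by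
  classical
  induction S using Finset.induction_on with
  | empty => exact ⟨1, one_pos, by simp⟩
  | insert a S ha ih =>
    obtain ⟨w, hw, h⟩ := ih
    refine ⟨min w (g a), lt_min hw (hg a), ?_⟩
    intro i hi
    rcases Finset.mem_insert.1 hi with rfl | hi
    · exact min_le_right _ _
    · exact (min_le_left _ _).trans (h i hi)

/-- the uniform detection lemma -/
lemma detect {a C d : ℝ} (ha : 0 < a) (hC : 0 < C) (hd : 0 < d) :
    ∃ ε > 0, ∀ x y : ℕ → ℝ, Tendsto x atTop (𝓝 0) → Tendsto y atTop (𝓝 0) →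
      (∀ i, |x i| ≤ C) → (∀ i, |y i| ≤ C) → ∀ m, d ≤ |x m - y m| →
      ∃ w : ℕ → ℝ, Tendsto w atTop (𝓝 0) ∧ (∀ i, |w i| ≤ a) ∧ ε ≤ |T2 (x + w) - T2 (y + w)| := by
  classical
  set ρ := a / 8 with hρdef
  have hρ : 0 < ρ := by positivity
  -- choice of the exponent
  obtain ⟨n0, hn0⟩ : ∃ n0 : ℕ, ((1 : ℝ) / 2) ^ n0 * (2 * (C + 5 * ρ) ^ 2) ≤ ρ ^ 2 / 4 / 2 := by
    have hpos : 0 < (ρ ^ 2 / 4 / 2) / (2 * (C + 5 * ρ) ^ 2) := by positivity
    obtain ⟨n, hn⟩ := exists_pow_lt_of_lt_one hpos (by norm_num : (1 : ℝ) / 2 < 1)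
    refine ⟨n, ?_⟩
    rw [lt_div_iff₀ (by positivity)] at hn
    exact hn.le
  choose kf hkf using fun σ : List Bool => enum_surj (σ, n0)
  set N := 2 * ⌊C / (4 * ρ)⌋₊ with hN
  have hfinS : {σ : List Bool | σ.length ≤ N}.Finite := List.finite_length_le Bool N
  set S := hfinS.toFinset with hS
  obtain ⟨w0, hw0, hw0le⟩ := exists_min_pos S (fun σ => cc (kf σ) * (et (kf σ)) ^ (wd (kf σ)).length)
    (fun σ => mul_pos (cc_pos _) (pow_pos (et_pos _) _))
  set K0 := S.sup kf + 1 with hK0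
  set Z := 2 * ρ + 2 * (C + a) with hZ
  set C1 := ρ + 4 * Z with hC1
  have hC1pos : 0 < C1 := by positivity
  obtain ⟨K1, hK1⟩ : ∃ K1 : ℕ, ((1 : ℝ) / 4) ^ K1 * (3 * (C + a) ^ 2 * C1) ≤ w0 * d * ρ ^ 2 / 2 := by
    have hpos : 0 < (w0 * d * ρ ^ 2 / 2) / (3 * (C + a) ^ 2 * C1) := by positivity
    obtain ⟨n, hn⟩ := exists_pow_lt_of_lt_one hpos (by norm_num : (1 : ℝ) / 4 < 1)
    refine ⟨n, ?_⟩
    rw [lt_div_iff₀ (by positivity)] at hn
    exact hn.le
  set K := K0 + K1 with hK
  have hK1' : ((1 : ℝ) / 4) ^ K * (3 * (C + a) ^ 2 * C1) ≤ w0 * d * ρ ^ 2 / 2 := by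
    refine le_trans ?_ hK1
    apply mul_le_mul_of_nonneg_right _ (by positivity)
    exact pow_le_pow_of_le_one (by norm_num) (by norm_num) (by omega)
  set ε := w0 * d * ρ ^ 2 / (4 * 9 ^ (MM K) * C1) with hε
  have hεpos : 0 < ε := by positivity
  refine ⟨ε, hεpos, ?_⟩
  intro x y hx hy hxC hyC m hm
  by_contra hcon
  push Not at hcon
  obtain ⟨σ, hσ, x', hx'x, hx'f, hdom⟩ := visible hx hxC hρ m
  set k0 := kf σ with hk0
  have hwd : wd k0 = σ := by unfold wd; rw [hkf σ]
  have het : et k0 = (1 / 2) ^ (n0 + 1) := by unfold et; rw [hkf σ]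
  have hσS : σ ∈ S := by rw [hS, Set.Finite.mem_toFinset]; exact hσ
  have hk0K : k0 < K := by
    have : kf σ ≤ S.sup kf := Finset.le_sup hσS
    omega
  set w : ℕ → ℝ := fun i => x' i - x i with hw
  have hwle : ∀ i, |w i| ≤ 4 * ρ := hx'x
  have hx't : Tendsto x' atTop (𝓝 0) := by
    rw [← Nat.cofinite_eq_atTop]
    apply tendsto_nhds_of_eventually_eq
    rw [Filter.eventually_cofinite]
    exact hx'f
  have hwt : Tendsto w atTop (𝓝 0) := by
    have := hx't.sub hx
    simpa using this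
  set y' : ℕ → ℝ := fun i => y i + w i with hy'
  -- bounds
  have hx'B : ∀ i, |x' i| ≤ C + 4 * ρ := by
    intro i
    have : x' i = x i + w i := by simp only [hw]; ring
    rw [this]
    exact (abs_add_le _ _).trans (add_le_add (hxC i) (hwle i))
  have hy'B : ∀ i, |y' i| ≤ C + 4 * ρ := by
    intro i
    exact (abs_add_le _ _).trans (add_le_add (hyC i) (hwle i))
  have hdom' : ∀ t, -(ρ / 2) ≤ t → t ≤ ρ / 2 →
      Dom (et k0) (Function.update x' m (x' m + t)) (wd k0) Set.univ m := by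
    intro t h1 h2
    rw [hwd]
    apply hdom (et k0) (et_pos _) (et_le _) _ t (abs_le.2 ⟨h1, h2⟩)
    refine le_trans ?_ hn0
    apply mul_le_mul_of_nonneg_right _ (by positivity)
    rw [het]
    exact pow_le_pow_of_le_one (by norm_num) (by norm_num) (by omega)
  have hρlt : -(ρ / 2) < ρ / 2 := by linarith
  obtain ⟨p, q, hp, hq, hlen, A, β, A', β', hAB⟩ := nested hx'B hy'B m hρlt k0 hdom' K
  have hlen' : ρ / 3 ^ (MM K) ≤ q - p := by
    have : ρ / 2 - -(ρ / 2) = ρ := by ring
    rwa [this] at hlen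
  have hpq : p < q := by
    have : 0 < ρ / 3 ^ (MM K) := by positivity
    linarith
  -- the perturbations
  have hupd : ∀ (u v : ℕ → ℝ) (t : ℝ), (∀ i, v i = u i + w i) →
      u + Function.update w m (w m + t) = Function.update v m (v m + t) := by
    intro u v t huv
    ext i
    by_cases him : i = m
    · subst him
      simp only [Pi.add_apply, Function.update_self, huv]
      ring
    · simp only [Pi.add_apply, Function.update_of_ne him, huv]
  have hbdd : ∀ (v : ℕ → ℝ) (t : ℝ), (∀ i, |v i| ≤ C + 4 * ρ) → |t| ≤ ρ / 2 →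
      ∀ i, |Function.update v m (v m + t) i| ≤ C + a := by
    intro v t hv ht i
    by_cases him : i = m
    · subst him
      rw [Function.update_self]
      have := abs_add_le (v i) t
      have := hv i
      simp only [hρdef] at *
      linarith
    · rw [Function.update_of_ne him]
      have := hv i
      simp only [hρdef] at *
      linarith
  set AA := ∑ k ∈ Finset.range K, cc k * A k with hAA
  set AA' := ∑ k ∈ Finset.range K, cc k * A' k with hAA'
  set γ := ∑ k ∈ Finset.range K, cc k * β k - ∑ k ∈ Finset.range K, cc k * β' k with hγ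
  set tail := (1 / 9 : ℝ) ^ (MM K) * (1 / 4) ^ K * (3 * (C + a) ^ 2) with htail
  have hD : ∀ t, p ≤ t → t ≤ q →
      |AA * (x' m + t) ^ 2 - AA' * (y' m + t) ^ 2 + γ| ≤ ε + tail := by
    intro t ht1 ht2
    have htρ : |t| ≤ ρ / 2 := abs_le.2 ⟨by linarith, by linarith⟩
    have hcon' := hcon (Function.update w m (w m + t)) (by
        apply hwt.congr'
        filter_upwards [eventually_gt_atTop m] with i hi
        rw [Function.update_of_ne (by omega)]) (by
        intro i
        by_cases him : i = m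
        · subst him
          rw [Function.update_self]
          have := abs_add_le (w i) t
          have := hwle i
          simp only [hρdef] at *
          linarith
        · rw [Function.update_of_ne him]
          have := hwle i
          simp only [hρdef] at *
          linarith)
    rw [hupd x x' t (fun i => by simp only [hw]; ring), hupd y y' t (fun i => rfl)] at hcon'
    obtain ⟨hx1, hx2⟩ := T2_split (hbdd x' t hx'B htρ) K
    obtain ⟨hy1, hy2⟩ := T2_split (hbdd y' t hy'B htρ) K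
    have hsx : ∑ k ∈ Finset.range K, cc k * G (et k) (wd k) (Function.update x' m (x' m + t)) =
        AA * (x' m + t) ^ 2 + ∑ k ∈ Finset.range K, cc k * β k := by
      rw [hAA, Finset.sum_mul, ← Finset.sum_add_distrib]
      apply Finset.sum_congr rfl
      intro k hk
      rw [((hAB k (Finset.mem_range.1 hk)).2.2 t ht1 ht2).1]
      ring
    have hsy : ∑ k ∈ Finset.range K, cc k * G (et k) (wd k) (Function.update y' m (y' m + t)) =
        AA' * (y' m + t) ^ 2 + ∑ k ∈ Finset.range K, cc k * β' k := by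
      rw [hAA', Finset.sum_mul, ← Finset.sum_add_distrib]
      apply Finset.sum_congr rfl
      intro k hk
      rw [((hAB k (Finset.mem_range.1 hk)).2.2 t ht1 ht2).2]
      ring
    rw [hsx] at hx1 hx2
    rw [hsy] at hy1 hy2
    have := abs_lt.1 hcon'
    rw [abs_le]
    simp only [hγ, htail]
    constructor <;> linarith [this.1, this.2]
  have hAA0 : w0 ≤ AA := by
    have h1 : cc k0 * A k0 ≤ AA := by
      rw [hAA]
      apply Finset.single_le_sum (f := fun k => cc k * A k) _ (Finset.mem_range.2 hk0K)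
      intro k hk
      exact mul_nonneg (cc_pos k).le (hAB k (Finset.mem_range.1 hk)).1
    have h2 := (hAB k0 hk0K).2.1 rfl
    have h3 := hw0le σ hσS
    calc w0 ≤ cc (kf σ) * (et (kf σ)) ^ (wd (kf σ)).length := h3
      _ ≤ cc k0 * A k0 := mul_le_mul_of_nonneg_left h2 (cc_pos _).le
      _ ≤ AA := h1
  have hZb : |p + q + 2 * y' m| ≤ Z := by
    have h1 : |p| ≤ ρ / 2 := abs_le.2 ⟨by linarith, by linarith⟩
    have h2 : |q| ≤ ρ / 2 := abs_le.2 ⟨by linarith, by linarith⟩
    have h3 := hy'B m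
    calc |p + q + 2 * y' m| ≤ |p + q| + |2 * y' m| := abs_add_le _ _
      _ ≤ (|p| + |q|) + 2 * |y' m| := by
          rw [abs_mul, abs_of_pos (by norm_num : (0 : ℝ) < 2)]
          linarith [abs_add_le p q]
      _ ≤ Z := by
          simp only [hZ, hρdef] at *
          linarith
  have hfinal := quad_diff hpq (hw0.le.trans hAA0) hD hZb
  have hqp : q - p ≤ ρ := by linarith
  have htail0 : 0 ≤ tail := by positivity
  have hsub : x' m - y' m = x m - y m := by simp only [hy', hw]; ring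
  rw [hsub] at hfinal
  have h9 : ((3 : ℝ) ^ (MM K)) ^ 2 = 9 ^ (MM K) := by
    rw [← pow_mul, mul_comm, pow_mul]; norm_num
  have hL : w0 * d * (ρ ^ 2 / 9 ^ (MM K)) ≤ AA * |x m - y m| * (q - p) ^ 2 := by
    apply mul_le_mul
    · exact mul_le_mul hAA0 hm hd.le (hw0.le.trans hAA0)
    · rw [← h9, ← div_pow]
      exact pow_le_pow_left₀ (by positivity) hlen' 2
    · positivity
    · exact mul_nonneg (hw0.le.trans hAA0) (abs_nonneg _)
  have hR : (ε + tail) * (q - p + 4 * Z) ≤ (ε + tail) * C1 := by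
    apply mul_le_mul_of_nonneg_left _ (by positivity)
    linarith
  have hεC : ε * C1 = w0 * d * (ρ ^ 2 / 9 ^ (MM K)) / 4 := by
    simp only [hε]
    field_simp
  have htC : tail * C1 ≤ w0 * d * (ρ ^ 2 / 9 ^ (MM K)) / 2 := by
    have : tail * C1 = (1 / 9 : ℝ) ^ (MM K) * ((1 / 4) ^ K * (3 * (C + a) ^ 2 * C1)) := by
      simp only [htail]; ring
    rw [this]
    calc (1 / 9 : ℝ) ^ (MM K) * ((1 / 4) ^ K * (3 * (C + a) ^ 2 * C1))
        ≤ (1 / 9 : ℝ) ^ (MM K) * (w0 * d * ρ ^ 2 / 2) :=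
          mul_le_mul_of_nonneg_left hK1' (by positivity)
      _ = w0 * d * (ρ ^ 2 / 9 ^ (MM K)) / 2 := by
          rw [one_div, inv_pow]
          field_simp
  have hpos : 0 < w0 * d * (ρ ^ 2 / 9 ^ (MM K)) := by positivity
  nlinarith

end PoolUS
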