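import Mathlib
import Pool.Agent.Lib_helper48.UniformSDefs
import Pool.Agent.Lib_helper48.UniformSDetect

namespace PoolUS

open Filter Topology
open scoped ZeroAtInfty

lemma c0_bound (x : C₀(ℕ, ℝ)) (i : ℕ) : |x i| ≤ ‖x‖ := by
  rw [← ZeroAtInftyContinuousMap.norm_toBCF_eq_norm, ← Real.norm_eq_abs]
  exact x.toBCF.norm_coe_le_norm i

lemma c0_norm_le {x : C₀(ℕ, ℝ)} {C : ℝ} (hC : 0 ≤ C) (h : ∀ i, |x i| ≤ C) : ‖x‖ ≤ C := by
  rw [← ZeroAtInftyContinuousMap.norm_toBCF_eq_norm]
  exact (BoundedContinuousFunction.norm_le hC).2 h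

lemma c0_tendsto (x : C₀(ℕ, ℝ)) : Tendsto (fun i => x i) atTop (𝓝 0) := by
  have := x.zero_at_infty'
  rw [Filter.cocompact_eq_cofinite, Nat.cofinite_eq_atTop] at this
  exact this

/-- the new norm on `c₀` -/
noncomputable def newNorm : Seminorm ℝ C₀(ℕ, ℝ) :=
  Seminorm.of (fun x => T (fun i => x i))
    (fun x y => by
      have hx : ∀ i, |(fun i => x i) i| ≤ max ‖x‖ ‖y‖ := fun i =>
        (c0_bound x i).trans (le_max_left _ _)
      have hy : ∀ i, |(fun i => y i) i| ≤ max ‖x‖ ‖y‖ := fun i =>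
        (c0_bound y i).trans (le_max_right _ _)
      exact T_add hx hy)
    (fun c x => by
      have := T_smul c (x := fun i => x i) (c0_bound x)
      rw [Real.norm_eq_abs]
      exact this)

lemma newNorm_apply (x : C₀(ℕ, ℝ)) : newNorm x = T (fun i => x i) := rfl

lemma newNorm_le (x : C₀(ℕ, ℝ)) : newNorm x ≤ 2 * ‖x‖ := T_le (c0_bound x)

lemma USup_ge {X : Type*} [AddCommGroup X] [Module ℝ X] (N : Seminorm ℝ X) {x y z : X} {a : ℝ}
    (hz : N z ≤ a) : |N (x + z) - N (y + z)| ≤ USup N x y a := by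
  apply le_csSup
  · refine ⟨N (x - y), ?_⟩
    rintro r ⟨z, _, rfl⟩
    have h := abs_sub_map_le_sub N (x + z) (y + z)
    have : x + z - (y + z) = x - y := by abel
    rwa [this] at h
  · exact ⟨z, hz, rfl⟩

lemma newNorm_uniform : UniformPropertyS newNorm := by
  obtain ⟨α, hα, hαle⟩ := T_ge
  intro d a hd hd2 ha
  set C := 1 / α with hC
  have hCpos : 0 < C := by positivity
  obtain ⟨ε, hε, hdet⟩ := detect (a := a / 2) (C := C) (d := d / 4) (by positivity) hCpos
    (by positivity)
  have hlow : ∀ b ∈ {r : ℝ | ∃ x y : C₀(ℕ, ℝ), newNorm x = 1 ∧ newNorm y = 1 ∧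
      d ≤ newNorm (x - y) ∧ r = USup newNorm x y a}, ε / (2 * (1 + a)) ≤ b := by
    rintro b ⟨x, y, hx, hy, hxy, rfl⟩
    have hxC : ∀ i, |(fun i => x i) i| ≤ C := by
      intro i
      have h1 := hαle (fun i => x i) ‖x‖ (c0_bound x) i
      rw [← newNorm_apply, hx] at h1
      rw [hC, le_div_iff₀ hα]
      linarith
    have hyC : ∀ i, |(fun i => y i) i| ≤ C := by
      intro i
      have h1 := hαle (fun i => y i) ‖y‖ (c0_bound y) i
      rw [← newNorm_apply, hy] at h1
      rw [hC, le_div_iff₀ hα]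
      linarith
    obtain ⟨m, hm⟩ : ∃ m, d / 4 ≤ |x m - y m| := by
      by_contra hcon
      push Not at hcon
      have h1 : ∀ i, |(fun i => (x - y) i) i| ≤ d / 4 := fun i => (hcon i).le
      have h2 := T_le h1
      rw [← newNorm_apply] at h2
      linarith
    obtain ⟨w, hw, hwa, hwε⟩ := hdet (fun i => x i) (fun i => y i) (c0_tendsto x) (c0_tendsto y)
      hxC hyC m hm
    let z : C₀(ℕ, ℝ) :=
      { toFun := w
        continuous_toFun := continuous_of_discreteTopology
        zero_at_infty' := by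
          rw [Filter.cocompact_eq_cofinite, Nat.cofinite_eq_atTop]
          exact hw }
    have hzN : newNorm z ≤ a := by
      have h1 : ‖z‖ ≤ a / 2 := c0_norm_le (by positivity) hwa
      linarith [newNorm_le z]
    refine le_trans ?_ (USup_ge newNorm hzN)
    have e1 : T2 ((fun i => x i) + w) = newNorm (x + z) ^ 2 := by
      rw [newNorm_apply]
      unfold T
      rw [Real.sq_sqrt]
      · rfl
      · exact T2_nonneg (c0_bound (x + z))
    have e2 : T2 ((fun i => y i) + w) = newNorm (y + z) ^ 2 := by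
      rw [newNorm_apply]
      unfold T
      rw [Real.sq_sqrt]
      · rfl
      · exact T2_nonneg (c0_bound (y + z))
    rw [e1, e2] at hwε
    have hxz : newNorm (x + z) ≤ 1 + a := by
      have := map_add_le_add newNorm x z
      linarith
    have hyz : newNorm (y + z) ≤ 1 + a := by
      have := map_add_le_add newNorm y z
      linarith
    have h3 : newNorm (x + z) ^ 2 - newNorm (y + z) ^ 2 =
        (newNorm (x + z) - newNorm (y + z)) * (newNorm (x + z) + newNorm (y + z)) := by ring
    rw [h3, abs_mul] at hwε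
    have h4 : |newNorm (x + z) + newNorm (y + z)| ≤ 2 * (1 + a) := by
      rw [abs_of_nonneg (add_nonneg (apply_nonneg _ _) (apply_nonneg _ _))]
      linarith
    rw [div_le_iff₀ (by positivity)]
    exact hwε.trans (mul_le_mul_of_nonneg_left h4 (abs_nonneg _))
  refine lt_of_lt_of_le (by positivity : 0 < ε / (2 * (1 + a))) (le_csInf ?_ hlow)
  -- there are unit vectors at distance `2`
  let e : C₀(ℕ, ℝ) :=
    { toFun := fun i => if i = 0 then 1 else 0
      continuous_toFun := continuous_of_discreteTopology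
      zero_at_infty' := by
        rw [Filter.cocompact_eq_cofinite, Nat.cofinite_eq_atTop]
        apply tendsto_const_nhds.congr'
        filter_upwards [eventually_gt_atTop 0] with i hi
        rw [if_neg (by omega)] }
  have he : 0 < newNorm e := by
    have h1 := hαle (fun i => e i) ‖e‖ (c0_bound e) 0
    rw [← newNorm_apply] at h1
    have h2 : e 0 = 1 := rfl
    rw [h2, abs_one, mul_one] at h1
    linarith
  set u : C₀(ℕ, ℝ) := (newNorm e)⁻¹ • e with hu
  have hu1 : newNorm u = 1 := by
    rw [hu, map_smul_eq_mul, Real.norm_eq_abs, abs_of_pos (by positivity), inv_mul_cancel₀ he.ne']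
  refine ⟨USup newNorm u (-u) a, u, -u, hu1, by rw [map_neg_eq_map, hu1], ?_, rfl⟩
  have : u - -u = (2 : ℝ) • u := by rw [sub_neg_eq_add]; exact (two_smul ℝ u).symm
  rw [this, map_smul_eq_mul, hu1]
  norm_num
  exact hd2.le

end PoolUS
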