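import Mathlib

/-!
# Definitions for the hand-ins on `MP_4547ec_nt`
-/

namespace Pool.Agent.Wief

/-- `𝒫₄₃`: the odd primes `p` such that some `kp = ± m ± n`, `p ∤ k`, with 43-smooth positive
integers `m`, `n` -/
def P43 : Set ℕ :=
  {p : ℕ | p.Prime ∧ p ≠ 2 ∧ ∃ k : ℤ, ¬ ((p : ℤ) ∣ k) ∧
    ∃ m ∈ Nat.smoothNumbers 44, ∃ n ∈ Nat.smoothNumbers 44,
      (k * (p : ℤ) = (m : ℤ) + (n : ℤ) ∨ k * (p : ℤ) = (m : ℤ) - (n : ℤ) ∨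
        k * (p : ℤ) = -(m : ℤ) + (n : ℤ) ∨ k * (p : ℤ) = -(m : ℤ) - (n : ℤ))}

/-- `ℳ_a`: the primes `ℓ` with `a^{ℓ-1} ≡ 1 (mod ℓ³)` -/
def M (a : ℕ) : Set ℕ := {l : ℕ | l.Prime ∧ a ^ (l - 1) ≡ 1 [MOD l ^ 3]}

end Pool.Agent.Wief
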