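import Mathlib

/-!
# `(a^{2q} - 1)/(a² - 1)` is not a perfect square

Helper file for the hand-ins on `MP_4547ec_nt`.
-/

namespace Pool.Agent.Wief

open Pell

variable {a : ℕ}

lemma xn_int_succ_succ (a1 : 1 < a) (n : ℕ) :
    (xn a1 (n + 2) : ℤ) = 2 * a * xn a1 (n + 1) - xn a1 n := by
  have h := xn_succ_succ a1 n
  have h' : (xn a1 (n + 2) : ℤ) + xn a1 n = 2 * a * xn a1 (n + 1) := by exact_mod_cast h
  linarith

lemma xn_mod (a1 : 1 < a) (k : ℕ) :
    (a : ℤ) ^ 2 ∣ (xn a1 (2 * k) : ℤ) - (-1) ^ k ∧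
      (a : ℤ) ^ 3 ∣ (xn a1 (2 * k + 1) : ℤ) - (-1) ^ k * (2 * k + 1) * a := by
  induction k with
  | zero => simp
  | succ k ih =>
    obtain ⟨⟨u, hu⟩, ⟨v, hv⟩⟩ := ih
    have h1 := xn_int_succ_succ a1 (2 * k)
    have h2 := xn_int_succ_succ a1 (2 * k + 1)
    have e1 : 2 * (k + 1) = 2 * k + 2 := by ring
    have hx : (xn a1 (2 * k + 2) : ℤ) - (-1) ^ (k + 1) =
        (a : ℤ) ^ 2 * (2 * ((-1) ^ k * (2 * k + 1)) + 2 * a ^ 2 * v - u) := by
      rw [h1, pow_succ (-1 : ℤ) k]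
      have hu' : (xn a1 (2 * k) : ℤ) = (-1) ^ k + a ^ 2 * u := by linarith
      have hv' : (xn a1 (2 * k + 1) : ℤ) = (-1) ^ k * (2 * k + 1) * a + a ^ 3 * v := by linarith
      rw [hu', hv']
      ring
    refine ⟨?_, ?_⟩
    · rw [e1]
      exact ⟨_, hx⟩
    · rw [e1]
      have hv' : (xn a1 (2 * k + 1) : ℤ) = (-1) ^ k * (2 * k + 1) * a + a ^ 3 * v := by linarith
      have h3 : 2 * k + 2 + 1 = 2 * k + 1 + 2 := by ring
      have h4 : 2 * k + 1 + 1 = 2 * k + 2 := by ring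
      rw [h3, h2, h4]
      have hx' : (xn a1 (2 * k + 2) : ℤ) = (-1) ^ (k + 1) +
        (a : ℤ) ^ 2 * (2 * ((-1) ^ k * (2 * k + 1)) + 2 * a ^ 2 * v - u) := by linarith
      rw [hx', hv']
      refine ⟨2 * (2 * ((-1) ^ k * (2 * k + 1)) + 2 * a ^ 2 * v - u) - v, ?_⟩
      push_cast
      ring

lemma xn_dvd (a1 : 1 < a) (r j : ℕ) : xn a1 r ∣ xn a1 (r * (2 * j + 1)) := by
  induction j with
  | zero => simp
  | succ j ih =>
    have h := xn_modEq_x2n_add a1 r (r * (2 * j + 1))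
    have e : 2 * r + r * (2 * j + 1) = r * (2 * (j + 1) + 1) := by ring
    rw [e] at h
    have h2 := (Nat.modEq_zero_iff_dvd.1 h)
    exact (Nat.dvd_add_left ih).1 h2

/-- a term of the sequence is a power of `a` only in the trivial case -/
theorem xn_ne_pow (a1 : 1 < a) (m q : ℕ) (hq : 2 ≤ q) : xn a1 m ≠ a ^ q := by
  intro h
  have ha0 : (a : ℤ) ≠ 0 := by exact_mod_cast (by omega : a ≠ 0)
  -- `m` is odd
  obtain ⟨k, hk⟩ : ∃ k, m = 2 * k + 1 := by
    rcases Nat.even_or_odd' m with ⟨k, hk | hk⟩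
    · exfalso
      obtain ⟨u, hu⟩ := (xn_mod a1 k).1
      rw [← hk, h] at hu
      have h1 : (a : ℤ) ∣ (-1) ^ k := by
        have : ((-1 : ℤ)) ^ k = a * (a ^ (q - 1) - a * u) := by
          have e : (a : ℤ) ^ q = a * a ^ (q - 1) := by rw [← pow_succ']; congr 1; omega
          push_cast at hu
          rw [e] at hu
          linear_combination -hu
        exact ⟨_, this⟩
      have h2 : (a : ℤ) ∣ 1 := by
        have := Dvd.dvd.mul_left h1 ((-1) ^ k)
        rwa [← mul_pow, neg_one_mul, neg_neg, one_pow] at this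
      have h3 : (a : ℤ) ≤ 1 := Int.le_of_dvd one_pos h2
      omega
    · exact ⟨k, hk⟩
  -- `a` divides `m`
  have ham : a ∣ m := by
    obtain ⟨v, hv⟩ := (xn_mod a1 k).2
    rw [← hk, h] at hv
    push_cast at hv
    have e : (a : ℤ) ^ q = a * (a * a ^ (q - 2)) := by
      rw [← pow_succ', ← pow_succ']; congr 1; omega
    rw [e] at hv
    have h1 : ((-1 : ℤ)) ^ k * (2 * k + 1) = a * (a ^ (q - 2) - a * v) := by
      have : (a : ℤ) * ((-1) ^ k * (2 * k + 1)) = a * (a * (a ^ (q - 2) - a * v)) := by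
        linear_combination -hv
      exact mul_left_cancel₀ ha0 this
    have h2 : (a : ℤ) ∣ (2 * k + 1) := by
      have h3 : (a : ℤ) ∣ (-1) ^ k * (2 * k + 1) := ⟨_, h1⟩
      have h4 := Dvd.dvd.mul_left h3 ((-1) ^ k)
      rwa [← mul_assoc, ← mul_pow, neg_one_mul, neg_neg, one_pow, one_mul] at h4
    rw [hk]
    exact_mod_cast h2
  -- a prime divisor of `a`
  set r := a.minFac with hr
  have hrp : r.Prime := Nat.minFac_prime (by omega)
  have hra : r ∣ a := Nat.minFac_dvd a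
  have hrm : r ∣ m := hra.trans ham
  have hrodd : r % 2 = 1 := by
    rcases Nat.mod_two_eq_zero_or_one r with h0 | h0
    · have h2 : 2 ∣ m := (Nat.dvd_of_mod_eq_zero h0).trans hrm
      omega
    · exact h0
  have hr3 : 3 ≤ r := by
    have := hrp.two_le
    omega
  obtain ⟨s, hs⟩ := hrm
  obtain ⟨j, hj⟩ : ∃ j, s = 2 * j + 1 := by
    rcases Nat.even_or_odd' s with ⟨j, hj | hj⟩
    · exfalso
      have : m = 2 * (r * j) := by rw [hs, hj]; ring
      omega
    · exact ⟨j, hj⟩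
  have hdvd : xn a1 r ∣ a ^ q := by
    rw [← h, hs, hj]
    exact xn_dvd a1 r j
  -- write `xn r = a * U`
  obtain ⟨i, hi⟩ : ∃ i, r = 2 * i + 1 := ⟨r / 2, by omega⟩
  obtain ⟨v, hv⟩ := (xn_mod a1 i).2
  rw [← hi] at hv
  have hri : (2 * (i : ℤ) + 1) = r := by rw [hi]; push_cast; ring
  rw [hri] at hv
  have hU : (xn a1 r : ℤ) = a * ((-1) ^ i * r + a ^ 2 * v) := by linear_combination hv
  have haU : a ∣ xn a1 r := by
    have : (a : ℤ) ∣ (xn a1 r : ℤ) := ⟨_, hU⟩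
    exact_mod_cast this
  obtain ⟨U, hUdef⟩ := haU
  have hUz : (U : ℤ) = (-1) ^ i * r + a ^ 2 * v := by
    have : (a : ℤ) * U = a * ((-1) ^ i * r + a ^ 2 * v) := by rw [← hU, hUdef]; push_cast; ring
    exact mul_left_cancel₀ ha0 this
  have hU0 : U ≠ 0 := by
    intro h0
    rw [h0, mul_zero] at hUdef
    have := x_pos a1 r
    omega
  -- all prime factors of `U` equal `r`
  have hfac : ∀ p, p.Prime → p ∣ U → p = r := by
    intro p hp hpU
    have h1 : p ∣ a ^ q := (hpU.trans (Dvd.intro_left a hUdef.symm)).trans hdvd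
    have h2 : p ∣ a := hp.dvd_of_dvd_pow h1
    have h3 : (p : ℤ) ∣ (-1) ^ i * r := by
      have h4 : (p : ℤ) ∣ U := by exact_mod_cast hpU
      have h5 : (p : ℤ) ∣ a := by exact_mod_cast h2
      have h6 : (p : ℤ) ∣ a ^ 2 * v := Dvd.dvd.mul_right (Dvd.dvd.pow h5 two_ne_zero) v
      have h7 : ((-1 : ℤ)) ^ i * r = U - a ^ 2 * v := by rw [hUz]; ring
      rw [h7]
      exact dvd_sub h4 h6
    have h8 : (p : ℤ) ∣ r := by
      have h4 := Dvd.dvd.mul_left h3 ((-1) ^ i)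
      rwa [← mul_assoc, ← mul_pow, neg_one_mul, neg_neg, one_pow, one_mul] at h4
    have h9 : p ∣ r := by exact_mod_cast h8
    exact (Nat.prime_dvd_prime_iff_eq hp hrp).1 h9
  have hr2 : ¬ r ^ 2 ∣ U := by
    intro h1
    have h2 : (r : ℤ) ^ 2 ∣ U := by exact_mod_cast h1
    have h3 : (r : ℤ) ^ 2 ∣ a ^ 2 * v := by
      have h5 : (r : ℤ) ∣ a := by exact_mod_cast hra
      exact Dvd.dvd.mul_right (pow_dvd_pow_of_dvd h5 2) v
    have h4 : (r : ℤ) ^ 2 ∣ (-1) ^ i * r := by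
      have h7 : ((-1 : ℤ)) ^ i * r = U - a ^ 2 * v := by rw [hUz]; ring
      rw [h7]
      exact dvd_sub h2 h3
    have h8 : (r : ℤ) ^ 2 ∣ r := by
      have h4 := Dvd.dvd.mul_left h4 ((-1) ^ i)
      rwa [← mul_assoc, ← mul_pow, neg_one_mul, neg_neg, one_pow, one_mul] at h4
    have h9 : r ^ 2 ∣ r := by exact_mod_cast h8
    have h10 := Nat.le_of_dvd hrp.pos h9
    nlinarith
  have hUle : U ≤ r := by
    by_cases h1 : U = 1
    · omega
    · obtain ⟨w, hw⟩ : r ∣ U := by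
        have h2 := Nat.minFac_prime h1
        have h3 := hfac _ h2 (Nat.minFac_dvd U)
        rw [← h3]
        exact Nat.minFac_dvd U
      have hw1 : w = 1 := by
        by_contra hw1
        have h2 := Nat.minFac_prime hw1
        have h3 := hfac _ h2 ((Nat.minFac_dvd w).trans (Dvd.intro_left r hw.symm))
        have h4 : r ∣ w := by rw [← h3]; exact Nat.minFac_dvd w
        apply hr2
        rw [pow_two, hw]
        exact Nat.mul_dvd_mul_left r h4
      rw [hw, hw1, mul_one]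
  have h1 := xn_ge_a_pow a1 r
  rw [hUdef] at h1
  have h2 : a ^ r ≤ a * r := h1.trans (Nat.mul_le_mul_left a hUle)
  have har : r ≤ a := Nat.le_of_dvd (by omega) hra
  have h3 : a ^ 3 ≤ a ^ r := Nat.pow_le_pow_right (by omega) hr3
  have h4 : a ^ 3 = a * (a * a) := by ring
  have h5 : a * (a * a) ≤ a * r := by rw [← h4]; exact h3.trans h2
  have h6 : a * a ≤ r := Nat.le_of_mul_le_mul_left h5 (by omega)
  nlinarith

/-- `a^{2q} - 1` is not `(a² - 1) y²` for `q ≥ 2` -/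
theorem not_square (a1 : 1 < a) (q y : ℕ) (hq : 2 ≤ q) (h : a ^ (2 * q) = (a ^ 2 - 1) * y ^ 2 + 1) :
    False := by
  have hp : a ^ q * a ^ q - (a * a - 1) * y * y = 1 := by
    have e1 : a ^ q * a ^ q = a ^ (2 * q) := by rw [← pow_add]; congr 1; ring
    rw [e1, h, ← pow_two a]
    have : (a ^ 2 - 1) * y * y = (a ^ 2 - 1) * y ^ 2 := by ring
    rw [this]
    omega
  obtain ⟨m, hm, -⟩ := eq_pell a1 hp
  exact xn_ne_pow a1 m q hq hm.symm

end Pool.Agent.Wief
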