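import Mathlib
import Pool.Agent.Lib_helper48.WiefDefs
import Pool.Agent.Lib_helper48.WiefPell

/-!
# Primes `ℓ` with `v_ℓ(a^{ℓ-1} - 1)` odd

Helper file for the hand-ins on `MP_4547ec_nt`.
-/

namespace Pool.Agent.Wief

variable {a : ℕ}

/-- a number that is not a square has a prime factor of odd multiplicity -/
lemma exists_odd_valuation {R : ℕ} (hR : R ≠ 0) (h : ¬ IsSquare R) :
    ∃ l, l.Prime ∧ Odd (padicValNat l R) := by
  obtain ⟨c, b, hbc, hc⟩ := Nat.sq_mul_squarefree R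
  have hc1 : c ≠ 1 := by
    rintro rfl
    exact h ⟨b, by rw [← hbc]; ring⟩
  have hb0 : b ≠ 0 := by rintro rfl; simp at hbc; exact hR hbc.symm
  have hc0 : c ≠ 0 := hc.ne_zero
  have hl := Nat.minFac_prime hc1
  refine ⟨c.minFac, hl, ?_⟩
  have : Fact c.minFac.Prime := ⟨hl⟩
  rw [← hbc, padicValNat.mul (pow_ne_zero 2 hb0) hc0, padicValNat.pow]
  have h1 : padicValNat c.minFac c = 1 := by
    apply le_antisymm
    · by_contra hcon
      push Not at hcon
      have h2 : c.minFac ^ 2 ∣ c := (padicValNat_dvd_iff_le hc0).2 hcon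
      have h3 := hc c.minFac (by rwa [← pow_two])
      exact hl.one_lt.ne' (Nat.isUnit_iff.1 h3)
    · exact one_le_padicValNat_of_dvd hc0 (Nat.minFac_dvd c)
  rw [h1]
  exact ⟨padicValNat c.minFac b, by ring⟩

/-- lifting the exponent along the full group -/
lemma val_fermat {l : ℕ} (hl : l.Prime) (hl2 : l ≠ 2) (ha : 2 ≤ a) (hla : ¬ l ∣ a) {d : ℕ} (hd : d ∣ l - 1)
    (hld : l ∣ a ^ d - 1) : padicValNat l (a ^ (l - 1) - 1) = padicValNat l (a ^ d - 1) := by
  have : Fact l.Prime := ⟨hl⟩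
  obtain ⟨t, ht⟩ := hd
  have hl1 : 0 < l - 1 := by have := hl.two_le; omega
  have hd0 : d ≠ 0 := by rintro rfl; simp at ht; omega
  have ht0 : t ≠ 0 := by rintro rfl; simp at ht; omega
  have h1 : 1 < a ^ d := Nat.one_lt_pow hd0 (by omega)
  have h2 := padicValNat.pow_sub_pow (p := l) (x := a ^ d) (y := 1) (hl.odd_of_ne_two hl2) h1 hld
    (fun h => hla (hl.dvd_of_dvd_pow h)) ht0
  rw [one_pow, ← pow_mul, ← ht] at h2
  have h3 : padicValNat l t = 0 := by
    apply padicValNat.eq_zero_of_not_dvd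
    intro h
    have h4 := Nat.le_of_dvd (Nat.pos_of_ne_zero ht0) h
    have h5 : t ≤ l - 1 := by
      rw [ht]
      exact Nat.le_mul_of_pos_left t (Nat.pos_of_ne_zero hd0)
    omega
  rw [h2, h3, add_zero]

lemma pow_mem_smooth {n a : ℕ} (ha : a ∈ Nat.smoothNumbers n) (k : ℕ) :
    a ^ k ∈ Nat.smoothNumbers n := by
  induction k with
  | zero => rw [pow_zero, Nat.mem_smoothNumbers]; simp
  | succ k ih => rw [pow_succ]; exact Nat.mul_mem_smoothNumbers ih ha

lemma zmod_two_sq : ∀ z : ZMod 2, z ≠ 0 → z ^ 2 = 1 := by decide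

/-- `43`-smooth bases: if `v_ℓ(a^{ℓ-1}-1)` is odd then `ℓ ∈ 𝒫₄₃` or `ℓ ∈ ℳ_a` -/
lemma mem_of_odd {l : ℕ} (hl : l.Prime) (hl2 : l ≠ 2) (ha : 2 ≤ a) (has : a ∈ Nat.smoothNumbers 44)
    (hodd : Odd (padicValNat l (a ^ (l - 1) - 1))) : l ∈ P43 ∪ M a := by
  have : Fact l.Prime := ⟨hl⟩
  have hl1 : l - 1 ≠ 0 := by have := hl.two_le; omega
  have h1 : 1 < a ^ (l - 1) := Nat.one_lt_pow hl1 (by omega)
  have hne : a ^ (l - 1) - 1 ≠ 0 := by omega
  set v := padicValNat l (a ^ (l - 1) - 1) with hv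
  rcases Nat.lt_or_ge v 3 with h3 | h3
  · left
    have hv1 : v = 1 := by
      obtain ⟨j, hj⟩ := hodd
      omega
    obtain ⟨k, hk⟩ : l ∣ a ^ (l - 1) - 1 := dvd_of_one_le_padicValNat (by omega)
    have hkl : ¬ l ∣ k := by
      rintro ⟨j, hj⟩
      have h4 : l ^ 2 ∣ a ^ (l - 1) - 1 := ⟨j, by rw [hk, hj]; ring⟩
      have h5 := (padicValNat_dvd_iff_le hne).1 h4
      omega
    refine ⟨hl, hl2, k, fun h => hkl (by exact_mod_cast h), a ^ (l - 1), ?_, 1, ?_, Or.inr (Or.inl ?_)⟩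
    · exact pow_mem_smooth has (l - 1)
    · have := pow_mem_smooth has 0
      rwa [pow_zero] at this
    · have h6 : (a ^ (l - 1) : ℕ) = l * k + 1 := by omega
      have h7 : ((a ^ (l - 1) : ℕ) : ℤ) = l * k + 1 := by exact_mod_cast h6
      rw [h7]
      push_cast
      ring
  · right
    refine ⟨hl, ?_⟩
    have h4 : l ^ 3 ∣ a ^ (l - 1) - 1 := (padicValNat_dvd_iff_le hne).2 h3
    exact ((Nat.modEq_iff_dvd' h1.le).2 h4).symm

/-- for each prime `q > a²` there is a prime `ℓ` such that `a²` has order `q` modulo `ℓ` and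
`v_ℓ(a^{ℓ-1} - 1)` is odd -/
theorem exists_prime (ha : 2 ≤ a) {q : ℕ} (hq : q.Prime) (hqa : a ^ 2 < q) :
    ∃ l, l.Prime ∧ l ≠ 2 ∧ orderOf ((a : ZMod l) ^ 2) = q ∧ l < a ^ (2 * q) ∧
      Odd (padicValNat l (a ^ (l - 1) - 1)) := by
  have ha2 : 4 ≤ a ^ 2 := by nlinarith
  set R := ∑ i ∈ Finset.range q, (a ^ 2) ^ i with hR
  have hgeom : (a ^ 2 - 1) * R = a ^ (2 * q) - 1 := by
    rw [hR, Nat.geomSum_eq (by omega) q, ← pow_mul]
    apply Nat.mul_div_cancel'
    have := Nat.sub_one_dvd_pow_sub_one (a ^ 2) q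
    rwa [← pow_mul] at this
  have hpos : 1 ≤ a ^ (2 * q) := Nat.one_le_pow _ _ (by omega)
  have hR0 : R ≠ 0 := by
    intro h0
    rw [h0, mul_zero] at hgeom
    have : 1 < a ^ (2 * q) := Nat.one_lt_pow (by have := hq.pos; omega) (by omega)
    omega
  have hnsq : ¬ IsSquare R := by
    rintro ⟨y, hy⟩
    apply not_square (a := a) (by omega) q y hq.two_le
    rw [hy] at hgeom
    have : (a ^ 2 - 1) * y ^ 2 = (a ^ 2 - 1) * (y * y) := by ring
    rw [this, hgeom]
    omega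
  obtain ⟨l, hl, hlodd⟩ := exists_odd_valuation hR0 hnsq
  have : Fact l.Prime := ⟨hl⟩
  have : Fact q.Prime := ⟨hq⟩
  have hlR : l ∣ R := by
    apply dvd_of_one_le_padicValNat
    obtain ⟨j, hj⟩ := hlodd
    omega
  have hlpow : l ∣ a ^ (2 * q) - 1 := by rw [← hgeom]; exact Dvd.dvd.mul_left hlR _
  have hla : ¬ l ∣ a := by
    intro h
    have h1 : l ∣ a ^ (2 * q) := Dvd.dvd.pow h (by have := hq.pos; omega)
    have h2 : l ∣ 1 := by
      have h3 : a ^ (2 * q) = (a ^ (2 * q) - 1) + 1 := by omega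
      rw [h3] at h1
      exact (Nat.dvd_add_right hlpow).1 h1
    exact hl.one_lt.ne' (Nat.dvd_one.1 h2)
  have hlR' : (R : ZMod l) = 0 := (ZMod.natCast_eq_zero_iff R l).2 hlR
  have hne1 : ((a : ZMod l)) ^ 2 ≠ 1 := by
    intro h
    have h1 : (R : ZMod l) = q := by
      rw [hR]
      push_cast
      rw [h]
      simp
    rw [h1] at hlR'
    have h2 : l ∣ q := (ZMod.natCast_eq_zero_iff q l).1 hlR'
    have h3 : l = q := (Nat.prime_dvd_prime_iff_eq hl hq).1 h2
    have h4 : ((a ^ 2 - 1 : ℕ) : ZMod l) = 0 := by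
      rw [Nat.cast_sub (by omega)]
      push_cast
      rw [h]
      ring
    have h5 := (ZMod.natCast_eq_zero_iff _ l).1 h4
    have h6 := Nat.le_of_dvd (by omega) h5
    omega
  have hl2 : l ≠ 2 := by
    rintro rfl
    apply hne1
    have h1 : ((a : ℕ) : ZMod 2) ≠ 0 := fun h => hla ((ZMod.natCast_eq_zero_iff a 2).1 h)
    exact zmod_two_sq _ h1
  have hpow1 : ((a : ZMod l) ^ 2) ^ q = 1 := by
    rw [← pow_mul]
    have h1 := (ZMod.natCast_eq_zero_iff _ l).2 hlpow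
    rw [Nat.cast_sub hpos] at h1
    push_cast at h1
    exact sub_eq_zero.1 h1
  have hord : orderOf ((a : ZMod l) ^ 2) = q := orderOf_eq_prime hpow1 hne1
  have ha0 : (a : ZMod l) ≠ 0 := fun h => hla ((ZMod.natCast_eq_zero_iff a l).1 h)
  have hql : q ∣ l - 1 := by
    rw [← hord]
    exact ZMod.orderOf_dvd_card_sub_one (pow_ne_zero 2 ha0)
  have h2ql : 2 * q ∣ l - 1 := by
    have hq2 : q ≠ 2 := by omega
    have h1 : Nat.Coprime 2 q := by
      rw [Nat.coprime_comm]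
      exact (Nat.coprime_primes hq Nat.prime_two).2 hq2
    apply h1.mul_dvd_of_dvd_of_dvd _ hql
    have := hl.odd_of_ne_two hl2
    obtain ⟨j, hj⟩ := this
    exact ⟨j, by omega⟩
  have hval := val_fermat hl hl2 ha hla h2ql hlpow
  have hval2 : padicValNat l (a ^ (2 * q) - 1) = padicValNat l R := by
    rw [← hgeom, padicValNat.mul (by omega) hR0]
    have : padicValNat l (a ^ 2 - 1) = 0 := by
      apply padicValNat.eq_zero_of_not_dvd
      intro h
      apply hne1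
      have h1 := (ZMod.natCast_eq_zero_iff _ l).2 h
      rw [Nat.cast_sub (by omega)] at h1
      push_cast at h1
      exact sub_eq_zero.1 h1
    rw [this, zero_add]
  refine ⟨l, hl, hl2, hord, ?_, by rw [hval, hval2]; exact hlodd⟩
  have h1 := Nat.le_of_dvd (by have : 1 < a ^ (2 * q) := Nat.one_lt_pow (by have := hq.pos; omega) (by omega)
                               omega) hlpow
  omega

end Pool.Agent.Wief
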