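import Mathlib
import Pool.Agent.Lib_helper48.WiefCore

/-!
# Counting for the hand-in on `MP_4547ec_nt`
-/

namespace Pool.Agent.Wief

open Filter

variable {a : ℕ}

/-- injections into `(P43 ∪ M a) ∩ [0, x]` -/
lemma card_le_of_key (a x : ℕ) (Q : Finset ℕ) (key : ℕ → ℕ)
    (h : ∀ n ∈ Q, ∃ l, l ∈ P43 ∪ M a ∧ l ≤ x ∧ key l = n) :
    Q.card ≤ (P43 ∩ Set.Iic x).ncard + (M a ∩ Set.Iic x).ncard := by
  classical
  have hfin : ((P43 ∪ M a) ∩ Set.Iic x).Finite := (Set.finite_Iic x).subset Set.inter_subset_right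
  choose! f hf using h
  have h1 : (Q : Set ℕ).ncard ≤ ((P43 ∪ M a) ∩ Set.Iic x).ncard := by
    apply Set.ncard_le_ncard_of_injOn f _ _ hfin
    · intro n hn
      have := hf n hn
      exact ⟨this.1, this.2.1⟩
    · intro n hn m hm hnm
      have h1 := (hf n hn).2.2
      have h2 := (hf m hm).2.2
      rw [← h1, ← h2, hnm]
  rw [Set.ncard_coe_finset] at h1
  refine h1.trans ?_
  rw [Set.union_inter_distrib_right]
  exact Set.ncard_union_le _ _

/-- the basic inequality: every prime `q ∈ (a², N]` contributes -/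
lemma primes_le (ha : 2 ≤ a) (has : a ∈ Nat.smoothNumbers 44) (N x : ℕ) (hN : a ^ (2 * N) ≤ x) :
    Nat.primeCounting N ≤ a ^ 2 + ((P43 ∩ Set.Iic x).ncard + (M a ∩ Set.Iic x).ncard) := by
  classical
  have h1 := card_le_of_key a x ((Finset.Ioc (a ^ 2) N).filter Nat.Prime)
    (fun l => orderOf ((a : ZMod l) ^ 2)) (by
      intro q hq
      rw [Finset.mem_filter, Finset.mem_Ioc] at hq
      obtain ⟨l, hl, hl2, hord, hlt, hodd⟩ := exists_prime ha hq.2 hq.1.1
      refine ⟨l, mem_of_odd hl hl2 ha has hodd, ?_, hord⟩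
      have h2 : a ^ (2 * q) ≤ a ^ (2 * N) := Nat.pow_le_pow_right (by omega) (by omega)
      omega)
  have h2 : Nat.primeCounting N ≤ a ^ 2 + ((Finset.Ioc (a ^ 2) N).filter Nat.Prime).card := by
    rw [Nat.primeCounting, Nat.primeCounting', Nat.count_eq_card_filter_range]
    have h3 : (Finset.range (N + 1)).filter Nat.Prime ⊆
        (Finset.Ioc 0 (a ^ 2)) ∪ (Finset.Ioc (a ^ 2) N).filter Nat.Prime := by
      intro q hq
      rw [Finset.mem_filter, Finset.mem_range] at hq
      have := hq.2.pos
      simp only [Finset.mem_union, Finset.mem_Ioc, Finset.mem_filter]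
      by_cases h : q ≤ a ^ 2
      · left; omega
      · right; exact ⟨by omega, hq.2⟩
    refine (Finset.card_le_card h3).trans ((Finset.card_union_le _ _).trans ?_)
    rw [Nat.card_Ioc]
    omega
  omega

/-- the asymptotic form -/
theorem primes_bound (ha : 2 ≤ a) (has : a ∈ Nat.smoothNumbers 44) :
    ∃ c : ℝ, 0 < c ∧ ∀ᶠ x : ℕ in atTop, c * (Real.log x / Real.log (Real.log x)) ≤
      (P43 ∩ Set.Iic x).ncard + (M a ∩ Set.Iic x).ncard := by
  have hA : (2 : ℝ) ≤ a := by exact_mod_cast ha
  have hlog2 : (0.69 : ℝ) < Real.log 2 := by have := Real.log_two_gt_d9; linarith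
  have hla : (0.69 : ℝ) < Real.log a := lt_of_lt_of_le hlog2 (Real.log_le_log (by norm_num) hA)
  refine ⟨1 / (16 * Real.log a), by positivity, ?_⟩
  -- eventual inequalities in terms of `L = log x`
  have hL : Tendsto (fun x : ℕ => Real.log (x : ℝ)) atTop atTop :=
    Real.tendsto_log_atTop.comp tendsto_natCast_atTop_atTop
  have hLL : Tendsto (fun x : ℕ => Real.log (Real.log (x : ℝ))) atTop atTop :=
    Real.tendsto_log_atTop.comp hL
  -- `log L / L → 0`
  have hlo : ∀ ε : ℝ, 0 < ε → ∀ᶠ x : ℕ in atTop,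
      Real.log (Real.log (x : ℝ)) ≤ ε * Real.log (x : ℝ) := by
    intro ε hε
    have h1 : ∀ᶠ y : ℝ in atTop, ‖Real.log y‖ ≤ ε * ‖y‖ :=
      (Real.isLittleO_log_id_atTop.def hε)
    filter_upwards [hL.eventually h1, hL.eventually_ge_atTop 1] with x hx hx1
    rw [Real.norm_eq_abs, Real.norm_eq_abs, abs_of_nonneg (by linarith : (0 : ℝ) ≤ Real.log (x : ℝ))] at hx
    exact (le_abs_self _).trans hx
  filter_upwards [hL.eventually_ge_atTop (100 * Real.log a), hL.eventually_ge_atTop 100,
    hLL.eventually_ge_atTop 1, hlo (1 / (200 * Real.log a)) (by positivity),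
    hlo (1 / (200 * Real.log a * (a ^ 2))) (by positivity), eventually_gt_atTop 1]
    with x h1 h2 h3 h4 h5 h6
  set L := Real.log (x : ℝ) with hLdef
  set N := ⌊L / (2 * Real.log a)⌋₊ with hN
  have hLpos : 0 < L := by linarith
  have hN1 : (N : ℝ) ≤ L / (2 * Real.log a) := Nat.floor_le (by positivity)
  have hN2 : L / (2 * Real.log a) < N + 1 := Nat.lt_floor_add_one _
  have hxpos : (0 : ℝ) < x := by exact_mod_cast (by omega : 0 < x)
  have hpow : a ^ (2 * N) ≤ x := by
    have h7 : ((a ^ (2 * N) : ℕ) : ℝ) ≤ (x : ℝ) := by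
      rw [Nat.cast_pow, ← Real.log_le_log_iff (by positivity) hxpos, Real.log_pow]
      rw [le_div_iff₀ (by positivity)] at hN1
      push_cast
      nlinarith
    exact_mod_cast h7
  have hcount := primes_le ha has N x hpow
  have hpi := Chebyshev.pi_ge N
  -- size of `N`
  have hN3 : L / (4 * Real.log a) + 1 ≤ N := by
    have h8 : L / (2 * Real.log a) = 2 * (L / (4 * Real.log a)) := by field_simp; norm_num
    have h9 : 25 ≤ L / (4 * Real.log a) := by rw [le_div_iff₀ (by positivity)]; linarith
    linarith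
  have hNpos : (26 : ℝ) ≤ N := by
    have h9 : 25 ≤ L / (4 * Real.log a) := by rw [le_div_iff₀ (by positivity)]; linarith
    linarith
  have hNL : (N : ℝ) + 1 ≤ L := by
    have h8 : L / (2 * Real.log a) ≤ L / 1.38 := by
      apply div_le_div_of_nonneg_left hLpos.le (by norm_num); linarith
    have h9 : L / 1.38 + 1 ≤ L := by
      rw [div_add_one (by norm_num), div_le_iff₀ (by norm_num)]; linarith
    linarith
  have hlogN : Real.log N ≤ Real.log L := Real.log_le_log (by linarith) (by linarith)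
  have hlogN1 : Real.log (N + 1) ≤ Real.log L := Real.log_le_log (by linarith) hNL
  have hlogNpos : 0 < Real.log N := Real.log_pos (by linarith)
  have hnum : L / (8 * Real.log a) ≤ N * Real.log 2 - Real.log (N + 1) := by
    have h8 : Real.log L ≤ 1 / (200 * Real.log a) * L := h4
    have h9 : (L / (4 * Real.log a)) * 0.69 ≤ N * Real.log 2 := by
      apply mul_le_mul (by linarith) hlog2.le (by norm_num) (by linarith)
    have h10 : L / (8 * Real.log a) + 1 / (200 * Real.log a) * L ≤ (L / (4 * Real.log a)) * 0.69 := by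
      have : L / (8 * Real.log a) + 1 / (200 * Real.log a) * L = (L / Real.log a) * (13 / 100) := by
        field_simp; norm_num
      have h11 : (L / (4 * Real.log a)) * 0.69 = (L / Real.log a) * (0.69 / 4) := by
        field_simp
      rw [this, h11]
      apply mul_le_mul_of_nonneg_left (by norm_num) (by positivity)
    linarith
  have hpi2 : L / (8 * Real.log a) / Real.log L ≤ (Nat.primeCounting N : ℝ) := by
    refine le_trans ?_ hpi
    have hnum0 : (0 : ℝ) ≤ L / (8 * Real.log a) := by positivity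
    apply div_le_div₀ (by linarith) hnum hlogNpos hlogN
  have hloss : (a : ℝ) ^ 2 ≤ L / (16 * Real.log a) / Real.log L := by
    rw [le_div_iff₀ (by linarith), le_div_iff₀ (by positivity)]
    have h8 : Real.log L ≤ 1 / (200 * Real.log a * (a ^ 2)) * L := h5
    have h9 : (a : ℝ) ^ 2 * Real.log L * (16 * Real.log a) ≤
        (a : ℝ) ^ 2 * (1 / (200 * Real.log a * (a ^ 2)) * L) * (16 * Real.log a) := by
      gcongr
    have h10 : (a : ℝ) ^ 2 * (1 / (200 * Real.log a * (a ^ 2)) * L) * (16 * Real.log a) =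
        L * (16 / 200) := by
      have : (a : ℝ) ≠ 0 := by positivity
      field_simp
    linarith
  have hcountR : (Nat.primeCounting N : ℝ) ≤
      (a : ℝ) ^ 2 + ((P43 ∩ Set.Iic x).ncard + (M a ∩ Set.Iic x).ncard) := by
    exact_mod_cast hcount
  have hfin : 1 / (16 * Real.log a) * (L / Real.log L) + L / (16 * Real.log a) / Real.log L =
      L / (8 * Real.log a) / Real.log L := by
    have : Real.log L ≠ 0 := by linarith
    field_simp
    norm_num
  linarith

end Pool.Agent.Wief
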