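import Mathlib
import Pool.Agent.Lib_helper48.WiefCount

/-!
# Even bases not divisible by `8`: cyclotomic values that are not squares
-/

namespace Pool.Agent.Wief

open Filter Polynomial

variable {a : ℕ}

lemma cyc_coprime_step {m p : ℕ} (hp : p.Prime) (hpm : ¬ p ∣ m) (z : ℤ) :
    (cyclotomic (m * p) ℤ).eval z * (cyclotomic m ℤ).eval z = (cyclotomic m ℤ).eval (z ^ p) := by
  have h := cyclotomic_expand_eq_cyclotomic_mul hp hpm ℤ
  have h2 := congrArg (fun f => eval z f) h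
  simp only [expand_eval, eval_mul] at h2
  exact h2.symm

lemma eval_mod {f : ℤ[X]} {z d : ℤ} (h : d ∣ z) : f.eval z ≡ f.coeff 0 [ZMOD d] := by
  have h1 := f.sub_dvd_eval_sub z 0
  rw [sub_zero] at h1
  rw [coeff_zero_eq_eval_zero]
  exact (Int.modEq_iff_dvd.2 (by
    have := h.trans h1
    rw [← neg_sub]
    exact (dvd_neg).2 this))

/-- the value modulo `4` (for `a ≡ 2 mod 4`) or `8` (for `a ≡ 4 mod 8`) -/
lemma cyc_mod {a d e f : ℤ} (hae : a - 1 ≡ e [ZMOD d]) (had : d ∣ a ^ 2)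
    (h1 : ∀ r : ℤ, r * e ≡ -1 [ZMOD d] → r ≡ f [ZMOD d])
    (h2 : ∀ r : ℤ, r * f ≡ 1 [ZMOD d] → r ≡ f [ZMOD d]) :
    ∀ n : ℕ, 2 ≤ n → Squarefree n → (cyclotomic n ℤ).eval a ≡ f [ZMOD d] := by
  intro n
  induction n using Nat.strong_induction_on with
  | _ n ih =>
    intro hn hsq
    have hn1 : n ≠ 1 := by omega
    have hp := Nat.minFac_prime hn1
    obtain ⟨m, hm⟩ := Nat.minFac_dvd n
    set p := n.minFac with hpdef
    have hm0 : 0 < m := by
      rcases Nat.eq_zero_or_pos m with h | h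
      · rw [h] at hm; omega
      · exact h
    have hpm : ¬ p ∣ m := by
      rintro ⟨k, hk⟩
      have h3 : p * p ∣ n := ⟨k, by rw [hm, hk]; ring⟩
      have := hsq p h3
      exact hp.one_lt.ne' (Nat.isUnit_iff.1 this)
    have hap : d ∣ a ^ p := had.trans (pow_dvd_pow a hp.two_le)
    rcases Nat.lt_or_ge m 2 with h | h
    · have hm1 : m = 1 := by omega
      have hnp : n = p := by rw [hm, hm1, mul_one]
      rw [hnp]
      apply h1
      have : Fact p.Prime := ⟨hp⟩
      have h3 := cyclotomic_prime_mul_X_sub_one ℤ p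
      have h4 := congrArg (fun f => eval a f) h3
      simp only [eval_mul, eval_sub, eval_X, eval_one, eval_pow] at h4
      calc (cyclotomic p ℤ).eval a * e ≡ (cyclotomic p ℤ).eval a * (a - 1) [ZMOD d] :=
            (Int.ModEq.refl _).mul hae.symm
        _ = a ^ p - 1 := h4
        _ ≡ 0 - 1 [ZMOD d] := (Int.modEq_zero_iff_dvd.2 hap).sub (Int.ModEq.refl _)
        _ = -1 := by norm_num
    · have hmn : m < n := by
        rw [hm]; nlinarith [hp.two_le]
      have hsqm : Squarefree m := hsq.squarefree_of_dvd ⟨p, by rw [hm, mul_comm]⟩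
      have ihm := ih m hmn h hsqm
      apply h2
      have h3 := cyc_coprime_step hp hpm a
      rw [mul_comm m p, ← hm] at h3
      calc (cyclotomic n ℤ).eval a * f ≡ (cyclotomic n ℤ).eval a * (cyclotomic m ℤ).eval a [ZMOD d] :=
            (Int.ModEq.refl _).mul ihm.symm
        _ = (cyclotomic m ℤ).eval (a ^ p) := h3
        _ ≡ (cyclotomic m ℤ).coeff 0 [ZMOD d] := eval_mod hap
        _ = 1 := cyclotomic_coeff_zero ℤ (by omega)

/-- `Φ_n(a)` is odd and not a square -/
lemma cyc_not_square (ha2 : 2 ∣ a) (ha8 : ¬ 8 ∣ a) {n : ℕ} (hn : 2 ≤ n) (hsq : Squarefree n) :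
    ¬ ∃ y : ℤ, (cyclotomic n ℤ).eval (a : ℤ) = y ^ 2 := by
  rintro ⟨y, hy⟩
  have h : a % 4 = 2 ∨ a % 8 = 4 := by omega
  rcases h with h | h
  · have h1 := cyc_mod (a := (a : ℤ)) (d := 4) (e := 1) (f := 3)
      (by rw [Int.ModEq]; omega)
      (by obtain ⟨k, hk⟩ := ha2; exact ⟨(k : ℤ) ^ 2, by rw [hk]; push_cast; ring⟩)
      (by intro r hr; rw [Int.ModEq] at hr ⊢; omega)
      (by intro r hr; rw [Int.ModEq] at hr ⊢; omega) n hn hsq
    rw [hy, Int.ModEq] at h1
    have h2 : y % 4 = 0 ∨ y % 4 = 1 ∨ y % 4 = 2 ∨ y % 4 = 3 := by omega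
    rcases h2 with h2 | h2 | h2 | h2 <;> simp [pow_two, Int.mul_emod, h2] at h1
  · have h1 := cyc_mod (a := (a : ℤ)) (d := 8) (e := 3) (f := 5)
      (by rw [Int.ModEq]; omega)
      (by
        have : 4 ∣ a := by omega
        obtain ⟨k, hk⟩ := this
        exact ⟨2 * (k : ℤ) ^ 2, by rw [hk]; push_cast; ring⟩)
      (by intro r hr; rw [Int.ModEq] at hr ⊢; omega)
      (by intro r hr; rw [Int.ModEq] at hr ⊢; omega) n hn hsq
    rw [hy, Int.ModEq] at h1
    have h2 : y % 8 = 0 ∨ y % 8 = 1 ∨ y % 8 = 2 ∨ y % 8 = 3 ∨ y % 8 = 4 ∨ y % 8 = 5 ∨ y % 8 = 6 ∨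
      y % 8 = 7 := by omega
    rcases h2 with h2 | h2 | h2 | h2 | h2 | h2 | h2 | h2 <;> simp [pow_two, Int.mul_emod, h2] at h1

/-- if no prime factor of `n` divides `Φ_n(a)`, some prime `ℓ` with `ord_ℓ(a) = n` has
`v_ℓ(a^{ℓ-1}-1)` odd -/
theorem exists_prime_cyc (ha : 2 ≤ a) (ha2 : 2 ∣ a) (ha8 : ¬ 8 ∣ a) {n : ℕ} (hn : 2 ≤ n)
    (hsq : Squarefree n)
    (hgood : ∀ P : ℕ, P.Prime → P ∣ n → ¬ (P : ℤ) ∣ (cyclotomic n ℤ).eval (a : ℤ)) :
    ∃ l, l.Prime ∧ l ≠ 2 ∧ orderOf (a : ZMod l) = n ∧ l < a ^ n ∧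
      Odd (padicValNat l (a ^ (l - 1) - 1)) := by
  have hA : (2 : ℤ) ≤ a := by exact_mod_cast ha
  have hpos : 0 < (cyclotomic n ℤ).eval (a : ℤ) := cyclotomic_pos' n (by linarith)
  obtain ⟨R, hR⟩ := Int.eq_ofNat_of_zero_le hpos.le
  have hR0 : R ≠ 0 := by
    rintro rfl
    rw [hR] at hpos
    simp at hpos
  have hnsq : ¬ IsSquare R := by
    rintro ⟨y, hy⟩
    exact cyc_not_square ha2 ha8 hn hsq ⟨y, by rw [hR, hy]; push_cast; ring⟩
  obtain ⟨l, hl, hlodd⟩ := exists_odd_valuation hR0 hnsq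
  have : Fact l.Prime := ⟨hl⟩
  have hlR : l ∣ R := by
    apply dvd_of_one_le_padicValNat
    obtain ⟨j, hj⟩ := hlodd
    omega
  have hprodZ : ∏ i ∈ n.divisors, (cyclotomic i ℤ).eval (a : ℤ) = (a : ℤ) ^ n - 1 := by
    have h := prod_cyclotomic_eq_X_pow_sub_one (n := n) (by omega) ℤ
    have h2 := congrArg (fun f => eval (a : ℤ) f) h
    simpa [eval_prod] using h2
  have h1pow : 1 < a ^ n := Nat.one_lt_pow (by omega) (by omega)
  have hpowcast : ((a ^ n - 1 : ℕ) : ℤ) = (a : ℤ) ^ n - 1 := by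
    rw [Nat.cast_sub h1pow.le]; push_cast; ring
  have hRdvd : R ∣ a ^ n - 1 := by
    have : (R : ℤ) ∣ ((a ^ n - 1 : ℕ) : ℤ) := by
      rw [hpowcast, ← hprodZ]
      have := Finset.dvd_prod_of_mem (fun i => (cyclotomic i ℤ).eval (a : ℤ))
        (Nat.mem_divisors_self n (by omega))
      rwa [hR] at this
    exact_mod_cast this
  have hlpow : l ∣ a ^ n - 1 := hlR.trans hRdvd
  have hla : ¬ l ∣ a := by
    intro h
    have h1 : l ∣ a ^ n := Dvd.dvd.pow h (by omega)
    have h2 : l ∣ 1 := by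
      have h3 : a ^ n = (a ^ n - 1) + 1 := by omega
      rw [h3] at h1
      exact (Nat.dvd_add_right hlpow).1 h1
    exact hl.one_lt.ne' (Nat.dvd_one.1 h2)
  have hl2 : l ≠ 2 := by
    rintro rfl
    exact hla ha2
  have hln : ¬ l ∣ n := fun h => hgood l hl h (by rw [hR]; exact_mod_cast hlR)
  have hn0 : (n : ZMod l) ≠ 0 := fun h => hln ((ZMod.natCast_eq_zero_iff n l).1 h)
  have : NeZero (n : ZMod l) := ⟨hn0⟩
  have hroot : IsRoot (cyclotomic n (ZMod l)) (a : ZMod l) := by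
    rw [IsRoot.def, ← map_cyclotomic_int n (ZMod l)]
    have h3 : (a : ZMod l) = (Int.castRingHom (ZMod l)) (a : ℤ) := by simp
    rw [h3, eval_map, eval₂_at_apply, hR]
    simpa using (ZMod.natCast_eq_zero_iff R l).2 hlR
  have hprim : IsPrimitiveRoot (a : ZMod l) n := isRoot_cyclotomic_iff.1 hroot
  have hord : orderOf (a : ZMod l) = n := hprim.eq_orderOf.symm
  have ha0 : (a : ZMod l) ≠ 0 := fun h => hla ((ZMod.natCast_eq_zero_iff a l).1 h)
  have hnl : n ∣ l - 1 := by
    rw [← hord]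
    exact ZMod.orderOf_dvd_card_sub_one ha0
  have hval := val_fermat hl hl2 ha hla hnl hlpow
  -- the other cyclotomic factors are prime to `l`
  obtain ⟨K, hK⟩ := hRdvd
  have hlK : ¬ l ∣ K := by
    intro h
    have h4 : (K : ℤ) = ∏ i ∈ n.divisors.erase n, (cyclotomic i ℤ).eval (a : ℤ) := by
      have h5 : (R : ℤ) * K = (a : ℤ) ^ n - 1 := by rw [← hpowcast, hK]; push_cast; ring
      rw [← hprodZ, ← Finset.mul_prod_erase n.divisors _ (Nat.mem_divisors_self n (by omega)), hR]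
        at h5
      exact mul_left_cancel₀ (by exact_mod_cast hR0) h5
    have h6 : (l : ℤ) ∣ ∏ i ∈ n.divisors.erase n, (cyclotomic i ℤ).eval (a : ℤ) := by
      rw [← h4]; exact_mod_cast h
    rw [Prime.dvd_finsetProd_iff (Nat.prime_iff_prime_int.1 hl)] at h6
    obtain ⟨d, hd, hdl⟩ := h6
    rw [Finset.mem_erase, Nat.mem_divisors] at hd
    have hd0 : 0 < d := Nat.pos_of_dvd_of_pos hd.2.1 (by omega)
    have h7 : (l : ℤ) ∣ (a : ℤ) ^ d - 1 := by
      refine hdl.trans ?_
      have h8 := cyclotomic.dvd_X_pow_sub_one d ℤ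
      have h9 := eval_dvd (x := (a : ℤ)) h8
      simpa using h9
    have h10 : (a : ZMod l) ^ d = 1 := by
      have h11 := (ZMod.intCast_zmod_eq_zero_iff_dvd _ l).2 h7
      push_cast at h11
      exact sub_eq_zero.1 h11
    have h12 := orderOf_dvd_of_pow_eq_one h10
    rw [hord] at h12
    have h13 := Nat.le_of_dvd hd0 h12
    have h14 := Nat.le_of_dvd (by omega) hd.2.1
    omega
  have hK0 : K ≠ 0 := by rintro rfl; exact hlK (dvd_zero l)
  have hval2 : padicValNat l (a ^ n - 1) = padicValNat l R := by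
    rw [hK, padicValNat.mul hR0 hK0, padicValNat.eq_zero_of_not_dvd hlK, add_zero]
  refine ⟨l, hl, hl2, hord, ?_, by rw [hval, hval2]; exact hlodd⟩
  have h1 := Nat.le_of_dvd (by omega) hlpow
  omega

/-- a bad squarefree `n` is `P · ord_P(a)` -/
lemma bad_eq {n P : ℕ} (hP : P.Prime) (hn : 2 ≤ n) (hsq : Squarefree n) (hPn : P ∣ n)
    (hdvd : (P : ℤ) ∣ (cyclotomic n ℤ).eval (a : ℤ)) : n = P * orderOf (a : ZMod P) := by
  have : Fact P.Prime := ⟨hP⟩
  obtain ⟨m, hm⟩ := hPn
  have hm0 : m ≠ 0 := by rintro rfl; simp at hm; omega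
  have hPm : ¬ P ∣ m := by
    rintro ⟨k, hk⟩
    have h3 : P * P ∣ n := ⟨k, by rw [hm, hk]; ring⟩
    have := hsq P h3
    exact hP.one_lt.ne' (Nat.isUnit_iff.1 this)
  have hroot : (cyclotomic n (ZMod P)).eval (a : ZMod P) = 0 := by
    rw [← map_cyclotomic_int n (ZMod P)]
    have h3 : (a : ZMod P) = (Int.castRingHom (ZMod P)) (a : ℤ) := by simp
    rw [h3, eval_map, eval₂_at_apply]
    exact (ZMod.intCast_zmod_eq_zero_iff_dvd _ P).2 hdvd
  have h4 : cyclotomic (m * P) (ZMod P) = cyclotomic m (ZMod P) ^ (P - 1) :=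
    cyclotomic_mul_prime_eq_pow_of_not_dvd (ZMod P) hPm
  rw [hm, mul_comm P m, h4, eval_pow] at hroot
  have h5 : (cyclotomic m (ZMod P)).eval (a : ZMod P) = 0 :=
    eq_zero_of_pow_eq_zero hroot
  have : NeZero (m : ZMod P) := ⟨fun h => hPm ((ZMod.natCast_eq_zero_iff m P).1 h)⟩
  have hprim : IsPrimitiveRoot (a : ZMod P) m := isRoot_cyclotomic_iff.1 h5
  rw [← hprim.eq_orderOf]
  exact hm

/-! ## counting -/

lemma sum_inv_sq (N : ℕ) (hN : 2 ≤ N) :
    ∑ d ∈ Finset.Icc 2 N, (1 : ℝ) / (d : ℝ) ^ 2 ≤ 3 / 4 - 1 / N := by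
  induction N, hN using Nat.le_induction with
  | base => norm_num
  | succ n hn ih =>
    rw [Finset.sum_Icc_succ_top (by omega)]
    have hn0 : (0 : ℝ) < n := by exact_mod_cast (by omega : 0 < n)
    have h1 : (1 : ℝ) / ((n + 1 : ℕ) : ℝ) ^ 2 ≤ 1 / (n : ℝ) - 1 / ((n + 1 : ℕ) : ℝ) := by
      push_cast
      rw [div_sub_div _ _ hn0.ne' (by positivity), div_le_div_iff₀ (by positivity) (by positivity)]
      nlinarith
    linarith

lemma card_not_squarefree (N : ℕ) :
    (((Finset.Icc 1 N).filter (fun n => ¬ Squarefree n)).card : ℝ) ≤ 3 / 4 * N := by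
  classical
  rcases Nat.lt_or_ge N 2 with h | h
  · have h0 : (Finset.Icc 1 N).filter (fun n => ¬ Squarefree n) = ∅ := by
      apply Finset.filter_eq_empty_iff.2
      intro n hn
      rw [Finset.mem_Icc] at hn
      have : n = 1 := by omega
      rw [this]
      simp
    rw [h0]
    simp
  · have hsub : (Finset.Icc 1 N).filter (fun n => ¬ Squarefree n) ⊆
        (Finset.Icc 2 N).biUnion (fun d => (Finset.Icc 1 N).filter (fun n => d ^ 2 ∣ n)) := by
      intro n hn
      rw [Finset.mem_filter, Finset.mem_Icc] at hn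
      obtain ⟨hn1, hn2⟩ := hn
      rw [Nat.squarefree_iff_prime_squarefree] at hn2
      push Not at hn2
      obtain ⟨d, hd, hdd⟩ := hn2
      rw [Finset.mem_biUnion]
      have h5 : d * d ≤ n := Nat.le_of_dvd (by omega) hdd
      refine ⟨d, ?_, ?_⟩
      · rw [Finset.mem_Icc]
        refine ⟨hd.two_le, ?_⟩
        nlinarith [hd.two_le]
      · rw [Finset.mem_filter, Finset.mem_Icc]
        exact ⟨hn1, by rw [pow_two]; exact hdd⟩
    have hcard : ((Finset.Icc 1 N).filter (fun n => ¬ Squarefree n)).card ≤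
        ∑ d ∈ Finset.Icc 2 N, N / d ^ 2 := by
      refine (Finset.card_le_card hsub).trans (Finset.card_biUnion_le.trans ?_)
      apply Finset.sum_le_sum
      intro d hd
      have h6 : (Finset.Icc 1 N) = Finset.Ioc 0 N := by
        ext n; rw [Finset.mem_Icc, Finset.mem_Ioc]; omega
      rw [h6, Nat.Ioc_filter_dvd_card_eq_div]
    have h7 : (((Finset.Icc 1 N).filter (fun n => ¬ Squarefree n)).card : ℝ) ≤
        ∑ d ∈ Finset.Icc 2 N, ((N / d ^ 2 : ℕ) : ℝ) := by exact_mod_cast hcard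
    refine h7.trans ?_
    have h8 : ∑ d ∈ Finset.Icc 2 N, ((N / d ^ 2 : ℕ) : ℝ) ≤
        ∑ d ∈ Finset.Icc 2 N, (N : ℝ) * (1 / (d : ℝ) ^ 2) := by
      apply Finset.sum_le_sum
      intro d hd
      refine (Nat.cast_div_le).trans (le_of_eq ?_)
      push_cast
      ring
    refine h8.trans ?_
    rw [← Finset.mul_sum]
    have h9 := sum_inv_sq N h
    have h10 : (0 : ℝ) ≤ 1 / N := by positivity
    have h11 : (0 : ℝ) ≤ N := by positivity
    nlinarith

lemma primeCounting_le_half (M : ℕ) : Nat.primeCounting M ≤ M / 2 + 2 := by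
  rcases Nat.lt_or_ge M 2 with h | h
  · interval_cases M
    · simp
    · simp
  · have h1 := Nat.primeCounting'_add_le (a := 2) (k := 3) (by norm_num) (by norm_num) (M - 2)
    have h2 : 3 + (M - 2) = M + 1 := by omega
    rw [h2] at h1
    have h3 : Nat.primeCounting' 3 = 1 := by decide
    have h4 : Nat.totient 2 = 1 := by decide
    rw [h3, h4] at h1
    have h5 : Nat.primeCounting M = Nat.primeCounting' (M + 1) := rfl
    rw [h5]
    omega

open Classical in
/-- the good indices -/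
noncomputable def good (a N : ℕ) : Finset ℕ :=
  (Finset.Icc 2 N).filter (fun n => Squarefree n ∧
    ∀ P : ℕ, P.Prime → P ∣ n → ¬ (P : ℤ) ∣ (cyclotomic n ℤ).eval (a : ℤ))

lemma card_good (ha : 2 ≤ a) (N : ℕ) : (N : ℝ) / 12 ≤ (good a N).card + a ^ 2 + 4 := by
  classical
  -- bad indices
  set bad : Finset ℕ := (Finset.Icc 2 N).filter (fun n => Squarefree n ∧
    ∃ P : ℕ, P.Prime ∧ P ∣ n ∧ (P : ℤ) ∣ (cyclotomic n ℤ).eval (a : ℤ)) with hbad
  have hbadsub : bad ⊆ (((Finset.range (N / 3 + 1)).filter Nat.Prime) ∪ Finset.Icc 0 (a ^ 2)).image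
      (fun P => P * orderOf (a : ZMod P)) := by
    intro n hn
    rw [hbad, Finset.mem_filter, Finset.mem_Icc] at hn
    obtain ⟨⟨hn2, hnN⟩, hsq, P, hP, hPn, hdvd⟩ := hn
    have heq := bad_eq hP hn2 hsq hPn hdvd
    rw [Finset.mem_image]
    refine ⟨P, ?_, heq.symm⟩
    rw [Finset.mem_union]
    by_cases h : P ≤ a ^ 2
    · right; rw [Finset.mem_Icc]; omega
    · left
      rw [Finset.mem_filter, Finset.mem_range]
      refine ⟨?_, hP⟩
      have : Fact P.Prime := ⟨hP⟩
      have hord : ∀ k : ℕ, 1 ≤ k → k ≤ 2 → orderOf (a : ZMod P) ≠ k := by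
        intro k hk1 hk2 hk
        have h1 : (a : ZMod P) ^ k = 1 := by rw [← hk]; exact pow_orderOf_eq_one _
        have h2 : 1 < a ^ k := Nat.one_lt_pow (by omega) (by omega)
        have h3 : ((a ^ k - 1 : ℕ) : ZMod P) = 0 := by
          rw [Nat.cast_sub h2.le]
          push_cast
          rw [h1]; ring
        have h4 := (ZMod.natCast_eq_zero_iff _ P).1 h3
        have h5 := Nat.le_of_dvd (by omega) h4
        have h6 : a ^ k ≤ a ^ 2 := Nat.pow_le_pow_right (by omega) hk2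
        omega
      have h0 : orderOf (a : ZMod P) ≠ 0 := by
        intro h0
        rw [h0, mul_zero] at heq
        omega
      have h1 := hord 1 le_rfl (by norm_num)
      have h2 := hord 2 (by norm_num) le_rfl
      have h3 : 3 ≤ orderOf (a : ZMod P) := by omega
      have h4 : P * 3 ≤ N := (Nat.mul_le_mul_left P h3).trans (by rw [← heq]; exact hnN)
      omega
  have hbadcard : bad.card ≤ N / 6 + 2 + (a ^ 2 + 1) := by
    refine (Finset.card_le_card hbadsub).trans (Finset.card_image_le.trans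
      ((Finset.card_union_le _ _).trans ?_))
    have h1 : ((Finset.range (N / 3 + 1)).filter Nat.Prime).card = Nat.primeCounting (N / 3) := by
      rw [Nat.primeCounting, Nat.primeCounting', Nat.count_eq_card_filter_range]
    rw [h1, Nat.card_Icc]
    have h2 := primeCounting_le_half (N / 3)
    omega
  have hsub : Finset.Icc 1 N ⊆ {1} ∪ (good a N ∪ (bad ∪
      (Finset.Icc 1 N).filter (fun n => ¬ Squarefree n))) := by
    intro n hn
    rw [Finset.mem_Icc] at hn
    simp only [Finset.mem_union, Finset.mem_singleton, good, hbad, Finset.mem_filter,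
      Finset.mem_Icc]
    by_cases h1 : n = 1
    · left; exact h1
    · right
      by_cases h2 : Squarefree n
      · by_cases h3 : ∃ P : ℕ, P.Prime ∧ P ∣ n ∧ (P : ℤ) ∣ (cyclotomic n ℤ).eval (a : ℤ)
        · right; left; exact ⟨⟨by omega, hn.2⟩, h2, h3⟩
        · left
          refine ⟨⟨by omega, hn.2⟩, h2, ?_⟩
          intro P hP hPn hdvd
          exact h3 ⟨P, hP, hPn, hdvd⟩
      · right; right; exact ⟨hn, h2⟩
  have hcard : N ≤ 1 + ((good a N).card + (bad.card +
      ((Finset.Icc 1 N).filter (fun n => ¬ Squarefree n)).card)) := by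
    have h1 := Finset.card_le_card hsub
    rw [Nat.card_Icc] at h1
    have h2 := Finset.card_union_le {1} (good a N ∪ (bad ∪
      (Finset.Icc 1 N).filter (fun n => ¬ Squarefree n)))
    have h3 := Finset.card_union_le (good a N) (bad ∪
      (Finset.Icc 1 N).filter (fun n => ¬ Squarefree n))
    have h4 := Finset.card_union_le bad ((Finset.Icc 1 N).filter (fun n => ¬ Squarefree n))
    rw [Finset.card_singleton] at h2
    omega
  have h5 : (N : ℝ) ≤ 1 + ((good a N).card + (bad.card +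
      ((Finset.Icc 1 N).filter (fun n => ¬ Squarefree n)).card)) := by exact_mod_cast hcard
  have h6 := card_not_squarefree N
  have h7 : (bad.card : ℝ) ≤ N / 6 + 2 + (a ^ 2 + 1) := by
    have h8 : (bad.card : ℝ) ≤ ((N / 6 : ℕ) : ℝ) + 2 + (a ^ 2 + 1) := by exact_mod_cast hbadcard
    have h9 : ((N / 6 : ℕ) : ℝ) ≤ (N : ℝ) / 6 := by
      have := Nat.cast_div_le (m := N) (n := 6) (α := ℝ)
      exact_mod_cast this
    linarith
  linarith

/-- for even `a` not divisible by `8` the bound is of order `log x` -/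
theorem even_bound (ha : 2 ≤ a) (has : a ∈ Nat.smoothNumbers 44) (ha2 : 2 ∣ a) (ha8 : ¬ 8 ∣ a) :
    ∃ c : ℝ, 0 < c ∧ ∀ᶠ x : ℕ in atTop, c * Real.log x ≤
      (P43 ∩ Set.Iic x).ncard + (M a ∩ Set.Iic x).ncard := by
  classical
  have hA : (2 : ℝ) ≤ a := by exact_mod_cast ha
  have hlog2 : (0.69 : ℝ) < Real.log 2 := by have := Real.log_two_gt_d9; linarith
  have hla : (0.69 : ℝ) < Real.log a := lt_of_lt_of_le hlog2 (Real.log_le_log (by norm_num) hA)
  refine ⟨1 / (24 * Real.log a), by positivity, ?_⟩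
  have hL : Tendsto (fun x : ℕ => Real.log (x : ℝ)) atTop atTop :=
    Real.tendsto_log_atTop.comp tendsto_natCast_atTop_atTop
  filter_upwards [hL.eventually_ge_atTop (24 * Real.log a * (a ^ 2 + 5)), eventually_gt_atTop 1]
    with x h1 h6
  set L := Real.log (x : ℝ) with hLdef
  set N := ⌊L / Real.log a⌋₊ with hN
  have hLpos : 0 < L := lt_of_lt_of_le (by positivity) h1
  have hN1 : (N : ℝ) ≤ L / Real.log a := Nat.floor_le (by positivity)
  have hN2 : L / Real.log a < N + 1 := Nat.lt_floor_add_one _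
  have hxpos : (0 : ℝ) < x := by exact_mod_cast (by omega : 0 < x)
  have hpow : a ^ N ≤ x := by
    have h7 : ((a ^ N : ℕ) : ℝ) ≤ (x : ℝ) := by
      rw [Nat.cast_pow, ← Real.log_le_log_iff (by positivity) hxpos, Real.log_pow]
      rw [le_div_iff₀ (by positivity)] at hN1
      exact hN1
    exact_mod_cast h7
  have hcount := card_le_of_key a x (good a N) (fun l => orderOf (a : ZMod l)) (by
    intro n hn
    rw [good, Finset.mem_filter, Finset.mem_Icc] at hn
    obtain ⟨l, hl, hl2, hord, hlt, hodd⟩ := exists_prime_cyc ha ha2 ha8 hn.1.1 hn.2.1 hn.2.2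
    refine ⟨l, mem_of_odd hl hl2 ha has hodd, ?_, hord⟩
    have h2 : a ^ n ≤ a ^ N := Nat.pow_le_pow_right (by omega) hn.1.2
    omega)
  have hcountR : ((good a N).card : ℝ) ≤
      (P43 ∩ Set.Iic x).ncard + (M a ∩ Set.Iic x).ncard := by exact_mod_cast hcount
  have h3 := card_good ha N
  have h4 : (a : ℝ) ^ 2 + 5 ≤ L / (24 * Real.log a) := by
    rw [le_div_iff₀ (by positivity)]
    linarith
  have h5 : L / Real.log a / 12 = 2 * (L / (24 * Real.log a)) := by field_simp; norm_num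
  have h7 : 1 / (24 * Real.log a) * L = L / (24 * Real.log a) := by ring
  rw [h7]
  linarith

end Pool.Agent.Wief
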